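import Pool.Agent.K7.H32.FT.Stm

/-!
# Job JN of project FT: powers and factorials on the disc of radius `N ^ (-4)`
-/

set_option autoImplicit false

namespace Pool.Agent.K7.H81.FT.JN

open Finset Filter Topology Pool.Agent.H550R3.Jones Pool.Agent.W715.VC Pool.Agent.K7.H32.FT
open Pool.Agent.W709.QAT (Fa)
open scoped Real

theorem norm_rt (N : ℕ) : ‖rt N‖ = 1 := by
  unfold rt
  rw [show (π : ℂ) * Complex.I / N = ((π / N : ℝ) : ℂ) * Complex.I by push_cast; ring]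
  exact Complex.norm_exp_ofReal_mul_I _

theorem r_le {N : ℕ} (hN : 2 ≤ N) : 1 / (N : ℝ) ^ 4 ≤ 1 / 16 := by
  have h2 : (2 : ℝ) ≤ N := by exact_mod_cast hN
  have h3 : (2 : ℝ) ^ 4 ≤ (N : ℝ) ^ 4 := pow_le_pow_left₀ (by norm_num) h2 4
  exact one_div_le_one_div_of_le (by norm_num) (by norm_num at h3 ⊢; exact h3)

/-- the norms on the disc -/
theorem norm_bds {N : ℕ} (hN : 2 ≤ N) {v : ℂ} (hv : Near N v) :
    Real.exp (-(2 / (N : ℝ) ^ 4)) ≤ ‖v‖ ∧ ‖v‖ ≤ Real.exp (2 / (N : ℝ) ^ 4) := by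
  have hr := r_le hN
  have hN0 : (0 : ℝ) < N := by exact_mod_cast (by omega : 0 < N)
  have hr0 : 0 < 1 / (N : ℝ) ^ 4 := by positivity
  have h2 : 2 / (N : ℝ) ^ 4 = 2 * (1 / (N : ℝ) ^ 4) := by ring
  have h1 : |‖v‖ - ‖rt N‖| ≤ 1 / (N : ℝ) ^ 4 := (abs_norm_sub_norm_le v (rt N)).trans hv
  rw [norm_rt] at h1
  rw [abs_le] at h1
  rw [h2]
  set r := 1 / (N : ℝ) ^ 4 with hrdef
  constructor
  · rw [Real.exp_neg]
    have h3 : 1 + 2 * r ≤ Real.exp (2 * r) := by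
      have := Real.add_one_le_exp (2 * r)
      linarith
    have h4 : (Real.exp (2 * r))⁻¹ ≤ (1 + 2 * r)⁻¹ := inv_anti₀ (by linarith) h3
    have h5 : (1 + 2 * r)⁻¹ ≤ 1 - r := by
      rw [inv_le_comm₀ (by linarith) (by linarith), ← one_div, div_le_iff₀ (by linarith)]
      nlinarith
    linarith
  · have h3 := Real.add_one_le_exp (2 * r)
    linarith

theorem norm_pos {N : ℕ} (hN : 2 ≤ N) {v : ℂ} (hv : Near N v) : 0 < ‖v‖ :=
  (Real.exp_pos _).trans_le (norm_bds hN hv).1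

theorem npow_le {N : ℕ} (hN : 2 ≤ N) {v : ℂ} (hv : Near N v) (n : ℕ) :
    ‖v ^ n‖ ≤ Real.exp (2 / (N : ℝ) ^ 4 * n) ∧ ‖(v ^ n)⁻¹‖ ≤ Real.exp (2 / (N : ℝ) ^ 4 * n) := by
  obtain ⟨h1, h2⟩ := norm_bds hN hv
  rw [norm_inv, norm_pow]
  constructor
  · calc ‖v‖ ^ n ≤ (Real.exp (2 / (N : ℝ) ^ 4)) ^ n := pow_le_pow_left₀ (norm_nonneg _) h2 n
      _ = Real.exp (2 / (N : ℝ) ^ 4 * n) := by rw [← Real.exp_nat_mul, mul_comm]
  · have h3 : (Real.exp (-(2 / (N : ℝ) ^ 4))) ^ n ≤ ‖v‖ ^ n :=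
      pow_le_pow_left₀ (Real.exp_pos _).le h1 n
    rw [← Real.exp_nat_mul] at h3
    have h4 : (‖v‖ ^ n)⁻¹ ≤ (Real.exp (n * -(2 / (N : ℝ) ^ 4)))⁻¹ :=
      inv_anti₀ (Real.exp_pos _) h3
    rw [← Real.exp_neg] at h4
    rwa [show -((n : ℝ) * -(2 / (N : ℝ) ^ 4)) = 2 / (N : ℝ) ^ 4 * n by ring] at h4

theorem zpow_le {N : ℕ} (hN : 2 ≤ N) {v : ℂ} (hv : Near N v) (k : ℤ) :
    ‖v ^ k‖ ≤ Real.exp (2 / (N : ℝ) ^ 4 * |(k : ℝ)|) := by
  rcases Int.eq_nat_or_neg k with ⟨n, rfl | rfl⟩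
  · rw [zpow_natCast, Int.cast_natCast, Nat.abs_cast]
    exact (npow_le hN hv n).1
  · rw [zpow_neg, zpow_natCast, Int.cast_neg, Int.cast_natCast, abs_neg, Nat.abs_cast]
    exact (npow_le hN hv n).2

/-- **S_POW** -/
theorem t_pow : S_POW := by
  intro M ε hε
  filter_upwards [eventually_ge_atTop (max 2 (⌈2 * (M : ℝ) / ε⌉₊))] with N hN v hv k hk
  have hN2 : 2 ≤ N := le_trans (le_max_left _ _) hN
  have hNr : 2 * (M : ℝ) / ε ≤ N := (Nat.le_ceil _).trans (by exact_mod_cast (le_max_right _ _).trans hN)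
  have hN0 : (0 : ℝ) < N := by exact_mod_cast (by omega : 0 < N)
  refine (zpow_le hN2 hv k).trans (Real.exp_le_exp.2 ?_)
  have hk' : |(k : ℝ)| ≤ M * (N : ℝ) ^ 2 := by exact_mod_cast hk
  have h1 : 2 * (M : ℝ) ≤ N * ε := by rwa [div_le_iff₀ hε] at hNr
  calc 2 / (N : ℝ) ^ 4 * |(k : ℝ)| ≤ 2 / (N : ℝ) ^ 4 * (M * (N : ℝ) ^ 2) :=
        mul_le_mul_of_nonneg_left hk' (by positivity)
    _ = (2 * M) / (N : ℝ) ^ 2 := by field_simp
    _ ≤ (N * ε) / (N : ℝ) ^ 2 := by gcongr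
    _ = ε / N := by field_simp

/-- the differences of the powers -/
theorem pow_sub_le {N : ℕ} (hN : 2 ≤ N) {v : ℂ} (hv : Near N v) (n : ℕ) :
    ‖v ^ n - rt N ^ n‖ ≤ n * (1 / (N : ℝ) ^ 4) * Real.exp (2 / (N : ℝ) ^ 4 * n) := by
  have hr0 : 0 ≤ 1 / (N : ℝ) ^ 4 := by positivity
  have h20 : 0 ≤ 2 / (N : ℝ) ^ 4 := by positivity
  induction n with
  | zero => simp
  | succ n ih =>
    have h1 : v ^ (n + 1) - rt N ^ (n + 1) = v * (v ^ n - rt N ^ n) + (v - rt N) * rt N ^ n := by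
      ring
    rw [h1]
    refine (norm_add_le _ _).trans ?_
    rw [norm_mul, norm_mul, norm_pow, norm_rt, one_pow, mul_one]
    have h2 := (norm_bds hN hv).2
    have h3 : ‖v‖ * ‖v ^ n - rt N ^ n‖ ≤ Real.exp (2 / (N : ℝ) ^ 4) *
        (n * (1 / (N : ℝ) ^ 4) * Real.exp (2 / (N : ℝ) ^ 4 * n)) :=
      mul_le_mul h2 ih (norm_nonneg _) (Real.exp_pos _).le
    have h4 : Real.exp (2 / (N : ℝ) ^ 4) * (n * (1 / (N : ℝ) ^ 4) *
        Real.exp (2 / (N : ℝ) ^ 4 * n)) =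
        n * (1 / (N : ℝ) ^ 4) * Real.exp (2 / (N : ℝ) ^ 4 * ((n + 1 : ℕ) : ℝ)) := by
      rw [show 2 / (N : ℝ) ^ 4 * ((n + 1 : ℕ) : ℝ) = 2 / (N : ℝ) ^ 4 + 2 / (N : ℝ) ^ 4 * n by
        push_cast; ring, Real.exp_add]
      ring
    have h5 : (1 : ℝ) ≤ Real.exp (2 / (N : ℝ) ^ 4 * ((n + 1 : ℕ) : ℝ)) :=
      Real.one_le_exp (by positivity)
    have h6 : ‖v - rt N‖ ≤ 1 / (N : ℝ) ^ 4 := hv
    calc _ ≤ n * (1 / (N : ℝ) ^ 4) * Real.exp (2 / (N : ℝ) ^ 4 * ((n + 1 : ℕ) : ℝ)) +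
          1 / (N : ℝ) ^ 4 * 1 := by rw [mul_one]; exact add_le_add (h3.trans_eq h4) h6
      _ ≤ n * (1 / (N : ℝ) ^ 4) * Real.exp (2 / (N : ℝ) ^ 4 * ((n + 1 : ℕ) : ℝ)) +
          1 / (N : ℝ) ^ 4 * Real.exp (2 / (N : ℝ) ^ 4 * ((n + 1 : ℕ) : ℝ)) := by gcongr
      _ = _ := by push_cast; ring

/-- the difference of the quantum integers -/
theorem br_sub_le {N : ℕ} (hN : 2 ≤ N) {v : ℂ} (hv : Near N v) {n : ℕ} (hn : n ≤ N) :
    ‖br v n - br (rt N) n‖ ≤ 4 / (N : ℝ) ^ 3 := by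
  have hN0 : (0 : ℝ) < N := by exact_mod_cast (by omega : 0 < N)
  have hN2 : (2 : ℝ) ≤ N := by exact_mod_cast hN
  have hn' : (n : ℝ) ≤ N := by exact_mod_cast hn
  have hvp := norm_pos hN hv
  have hv0 : v ≠ 0 := norm_pos_iff.1 hvp
  have hr0 : rt N ≠ 0 := by rw [← norm_pos_iff, norm_rt]; exact one_pos
  have h1 : 2 / (N : ℝ) ^ 4 * n ≤ 1 / 4 := by
    calc 2 / (N : ℝ) ^ 4 * n ≤ 2 / (N : ℝ) ^ 4 * N := by gcongr
      _ = 2 / (N : ℝ) ^ 3 := by field_simp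
      _ ≤ 2 / (2 : ℝ) ^ 3 := by gcongr
      _ = 1 / 4 := by norm_num
  have h2 : Real.exp (2 / (N : ℝ) ^ 4 * n) ≤ 4 / 3 := by
    refine (Real.exp_le_exp.2 h1).trans ?_
    have h3 := Real.add_one_le_exp (-(1 / 4 : ℝ))
    rw [Real.exp_neg] at h3
    have h4 : 0 < Real.exp (1 / 4 : ℝ) := Real.exp_pos _
    rw [← one_div, le_div_iff₀ h4] at h3
    linarith
  have h5 : ‖v ^ n - rt N ^ n‖ ≤ 4 / 3 * (1 / (N : ℝ) ^ 3) := by
    refine (pow_sub_le hN hv n).trans ?_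
    calc n * (1 / (N : ℝ) ^ 4) * Real.exp (2 / (N : ℝ) ^ 4 * n) ≤
        N * (1 / (N : ℝ) ^ 4) * (4 / 3) := by gcongr
      _ = 4 / 3 * (1 / (N : ℝ) ^ 3) := by field_simp
  have h6 : ‖(v ^ n)⁻¹ - (rt N ^ n)⁻¹‖ ≤ 4 / 3 * (4 / 3 * (1 / (N : ℝ) ^ 3)) := by
    have h7 : (v ^ n)⁻¹ - (rt N ^ n)⁻¹ = -((v ^ n)⁻¹ * ((v ^ n - rt N ^ n) * (rt N ^ n)⁻¹)) := by
      have := pow_ne_zero n hv0
      have := pow_ne_zero n hr0
      field_simp
      ring
    rw [h7, norm_neg, norm_mul, norm_mul, norm_inv (rt N ^ n), norm_pow (rt N), norm_rt, one_pow,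
      inv_one, mul_one]
    exact mul_le_mul ((npow_le hN hv n).2.trans h2) h5 (norm_nonneg _) (by norm_num)
  have h8 : br v n - br (rt N) n = (v ^ n - rt N ^ n) - ((v ^ n)⁻¹ - (rt N ^ n)⁻¹) := by
    unfold br
    rw [zpow_natCast, zpow_natCast, zpow_neg, zpow_neg, zpow_natCast, zpow_natCast]
    ring
  rw [h8]
  refine (norm_sub_le _ _).trans ?_
  have h9 : 0 < 1 / (N : ℝ) ^ 3 := by positivity
  have h10 : 4 / (N : ℝ) ^ 3 = 4 * (1 / (N : ℝ) ^ 3) := by ring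
  rw [h10]
  nlinarith

/-- the quantum integers at the root of unity -/
theorem br_rt {N : ℕ} {n : ℕ} (hn : 0 < n) (hnN : n < N) : 4 / (N : ℝ) ≤ ‖br (rt N) n‖ := by
  have hN0 : (0 : ℝ) < N := by exact_mod_cast (by omega : 0 < N)
  have h1 : br (rt N) n = 2 * Complex.I * ((Real.sin (π * n / N) : ℝ) : ℂ) := by
    unfold br rt
    rw [zpow_natCast, zpow_neg, zpow_natCast, ← Complex.exp_nat_mul, ← Complex.exp_neg]
    rw [Complex.ofReal_sin, Complex.sin]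
    have e1 : (n : ℂ) * (π * Complex.I / N) = (((π * n / N : ℝ) : ℝ) : ℂ) * Complex.I := by
      push_cast; ring
    rw [e1]
    have e2 : -(((π * n / N : ℝ) : ℂ)) * Complex.I = -((((π * n / N : ℝ) : ℝ) : ℂ) * Complex.I) := by
      ring
    rw [e2]
    have := Complex.I_mul_I
    linear_combination ((Complex.exp (-((((π * n / N : ℝ) : ℝ) : ℂ) * Complex.I)) -
      Complex.exp ((((π * n / N : ℝ) : ℝ) : ℂ) * Complex.I))) * (-this)
  have h2 : 2 / (N : ℝ) ≤ Real.sin (π * n / N) := by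
    rcases le_total (2 * n) N with h | h
    · have h3 : π * n / N ≤ π / 2 := by
        rw [div_le_div_iff₀ hN0 two_pos]
        have : (2 * n : ℝ) ≤ N := by exact_mod_cast h
        nlinarith [Real.pi_pos]
      have h4 := Real.mul_le_sin (x := π * n / N) (by positivity) h3
      refine le_trans ?_ h4
      have h5 : 2 / π * (π * n / N) = 2 * n / N := by field_simp
      rw [h5]
      have : (1 : ℝ) ≤ n := by exact_mod_cast hn
      gcongr
      linarith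
    · have h6 : Real.sin (π * n / N) = Real.sin (π * ((N : ℝ) - n) / N) := by
        rw [← Real.sin_pi_sub]
        congr 1
        field_simp
      have hnN' : (n : ℝ) + 1 ≤ N := by exact_mod_cast hnN
      have h3 : π * ((N : ℝ) - n) / N ≤ π / 2 := by
        rw [div_le_div_iff₀ hN0 two_pos]
        have : (N : ℝ) ≤ 2 * n := by exact_mod_cast h
        nlinarith [Real.pi_pos]
      have h7 : 0 ≤ π * ((N : ℝ) - n) / N := by
        apply div_nonneg (mul_nonneg Real.pi_pos.le (by linarith)) hN0.le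
      have h4 := Real.mul_le_sin h7 h3
      rw [h6]
      refine le_trans ?_ h4
      have h5 : 2 / π * (π * ((N : ℝ) - n) / N) = 2 * ((N : ℝ) - n) / N := by field_simp
      rw [h5]
      gcongr
      linarith
  rw [h1, norm_mul, norm_mul, Complex.norm_I, Complex.norm_real, Real.norm_eq_abs,
    abs_of_nonneg ((by positivity : (0 : ℝ) ≤ 2 / N).trans h2)]
  have h3 : 4 / (N : ℝ) = 2 * (2 / N) := by ring
  rw [h3, mul_one, Complex.norm_ofNat]
  linarith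

/-- comparison of the quantum integers -/
theorem br_cmp {N : ℕ} (hN : 2 ≤ N) {v : ℂ} (hv : Near N v) {n : ℕ} (hn : 0 < n) (hnN : n < N) :
    (1 - 1 / (N : ℝ) ^ 2) * ‖br (rt N) n‖ ≤ ‖br v n‖ ∧
      ‖br v n‖ ≤ (1 + 1 / (N : ℝ) ^ 2) * ‖br (rt N) n‖ := by
  have hN0 : (0 : ℝ) < N := by exact_mod_cast (by omega : 0 < N)
  have h1 := br_sub_le hN hv hnN.le
  have h2 := br_rt hn hnN
  have h3 : 4 / (N : ℝ) ^ 3 ≤ 1 / (N : ℝ) ^ 2 * ‖br (rt N) n‖ := by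
    calc 4 / (N : ℝ) ^ 3 = 1 / (N : ℝ) ^ 2 * (4 / N) := by field_simp
      _ ≤ _ := by gcongr
  have h4 := abs_norm_sub_norm_le (br v n) (br (rt N) n)
  have h5 := abs_le.1 (h4.trans (h1.trans h3))
  constructor
  · linarith [h5.1]
  · linarith [h5.2]

/-- **S_FAC** -/
theorem t_fac : S_FAC := by
  filter_upwards [eventually_ge_atTop 2] with N hN v hv
  have hN0 : (0 : ℝ) < N := by exact_mod_cast (by omega : 0 < N)
  have hN2 : (2 : ℝ) ≤ N := by exact_mod_cast hN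
  have hq : 1 / (N : ℝ) ^ 2 ≤ 1 / 4 := by
    have h3 : (2 : ℝ) ^ 2 ≤ (N : ℝ) ^ 2 := pow_le_pow_left₀ (by norm_num) hN2 2
    exact one_div_le_one_div_of_le (by norm_num) (by norm_num at h3 ⊢; exact h3)
  have hq0 : 0 < 1 / (N : ℝ) ^ 2 := by positivity
  refine ⟨⟨norm_pos_iff.1 (norm_pos hN hv), fun k hk hkN h => ?_⟩, fun k hk => ?_⟩
  · have h1 := (br_cmp hN hv hk hkN).1
    have h2 := br_rt hk hkN
    rw [h, norm_zero] at h1
    have h3 : 0 < 4 / (N : ℝ) := by positivity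
    have h4 : 0 < (1 - 1 / (N : ℝ) ^ 2) * ‖br (rt N) k‖ := mul_pos (by linarith) (by linarith)
    linarith
  · have hcast : ∀ j : ℕ, ((j : ℤ) + 1) = ((j + 1 : ℕ) : ℤ) := fun j => by push_cast; rfl
    have hkN : (k : ℝ) ≤ N := by exact_mod_cast hk.le
    have hkq : (k : ℝ) * (1 / (N : ℝ) ^ 2) ≤ 1 / 2 := by
      calc (k : ℝ) * (1 / (N : ℝ) ^ 2) ≤ (N : ℝ) * (1 / (N : ℝ) ^ 2) := by gcongr
        _ = 1 / (N : ℝ) := by field_simp
        _ ≤ 1 / 2 := by gcongr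
    have hF0 : 0 ≤ Fa N k := norm_nonneg _
    have hFe : Fa N k = ∏ j ∈ range k, ‖br (rt N) ((j : ℤ) + 1)‖ := by
      unfold Fa brf
      rw [norm_prod]
    have hve : ‖brf v k‖ = ∏ j ∈ range k, ‖br v ((j : ℤ) + 1)‖ := by
      unfold brf
      rw [norm_prod]
    constructor
    · have h1 : ‖brf v k‖ ≤ (1 + 1 / (N : ℝ) ^ 2) ^ k * Fa N k := by
        rw [hve, hFe, ← card_range k, ← prod_const, card_range, ← prod_mul_distrib]
        refine prod_le_prod (fun _ _ => norm_nonneg _) fun j hj => ?_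
        rw [hcast]
        exact (br_cmp hN hv (Nat.succ_pos j) (by have := mem_range.1 hj; omega)).2
      have h2 : (1 + 1 / (N : ℝ) ^ 2) ^ k ≤ 2 := by
        calc (1 + 1 / (N : ℝ) ^ 2) ^ k ≤ (Real.exp (1 / (N : ℝ) ^ 2)) ^ k := by
              refine pow_le_pow_left₀ (by linarith) ?_ k
              have := Real.add_one_le_exp (1 / (N : ℝ) ^ 2)
              linarith
          _ = Real.exp ((k : ℝ) * (1 / (N : ℝ) ^ 2)) := by rw [← Real.exp_nat_mul]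
          _ ≤ Real.exp (1 / 2) := Real.exp_le_exp.2 hkq
          _ ≤ 2 := by
              have h3 := Real.add_one_le_exp (-(1 / 2 : ℝ))
              rw [Real.exp_neg] at h3
              have h4 : 0 < Real.exp (1 / 2 : ℝ) := Real.exp_pos _
              rw [← one_div, le_div_iff₀ h4] at h3
              linarith
      nlinarith
    · have h1 : (1 - 1 / (N : ℝ) ^ 2) ^ k * Fa N k ≤ ‖brf v k‖ := by
        rw [hve, hFe, ← card_range k, ← prod_const, card_range, ← prod_mul_distrib]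
        refine prod_le_prod (fun _ _ => mul_nonneg (by linarith) (norm_nonneg _)) fun j hj => ?_
        rw [hcast]
        exact (br_cmp hN hv (Nat.succ_pos j) (by have := mem_range.1 hj; omega)).1
      have h2 : 1 / 2 ≤ (1 - 1 / (N : ℝ) ^ 2) ^ k := by
        have h3 := one_add_mul_le_pow (a := -(1 / (N : ℝ) ^ 2)) (by linarith) k
        rw [← sub_eq_add_neg] at h3
        linarith
      nlinarith

end Pool.Agent.K7.H81.FT.JN
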