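import Pool.Agent.K7.H32.FT.Stm

/-!
# Job JX of project FT: the identity theorem on `Om K`
-/

set_option autoImplicit false

namespace Pool.Agent.K7.H81.FT.JX

open Filter Topology Pool.Agent.H550R3.Jones Pool.Agent.K7.H32.FT

theorem compl_finite (K : ℕ) : (Om K)ᶜ.Finite := by
  have h1 : (⋃ k ∈ Finset.Icc 1 K, {v : ℂ | v ^ (2 * k) = 1}).Finite := by
    refine Set.Finite.biUnion (Finset.finite_toSet _) fun k hk => ?_
    have hk1 : 1 ≤ k := (Finset.mem_Icc.1 (Finset.mem_coe.1 hk)).1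
    have h2 : {v : ℂ | v ^ (2 * k) = 1} ⊆ ((Polynomial.nthRoots (2 * k) (1 : ℂ)).toFinset : Set ℂ) := by
      intro v hv
      simp only [Finset.mem_coe, Multiset.mem_toFinset]
      exact (Polynomial.mem_nthRoots (by omega)).2 hv
    exact (Finset.finite_toSet _).subset h2
  refine ((Set.finite_singleton (0 : ℂ)).union h1).subset ?_
  intro v hv
  by_cases h0 : v = 0
  · exact Or.inl h0
  · right
    have hv' : ¬ (v ≠ 0 ∧ ∀ k : ℕ, 0 < k → k ≤ K → br v k ≠ 0) := hv
    push Not at hv'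
    obtain ⟨k, hk, hkK, hb⟩ := hv' h0
    simp only [Set.mem_iUnion]
    refine ⟨k, Finset.mem_Icc.2 ⟨hk, hkK⟩, ?_⟩
    show v ^ (2 * k) = 1
    unfold br at hb
    rw [zpow_natCast, zpow_neg, zpow_natCast, sub_eq_zero] at hb
    have h3 : v ^ k ≠ 0 := pow_ne_zero _ h0
    rw [two_mul, pow_add]
    nth_rw 1 [hb]
    exact inv_mul_cancel₀ h3

theorem two_mem (K : ℕ) : (2 : ℂ) ∈ Om K := by
  refine ⟨two_ne_zero, fun k hk _ hb => ?_⟩
  unfold br at hb
  rw [zpow_natCast, zpow_neg, zpow_natCast, sub_eq_zero] at hb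
  have h3 : (2 : ℂ) ^ k ≠ 0 := pow_ne_zero _ two_ne_zero
  have h4 : (2 : ℂ) ^ k * 2 ^ k = 1 := by
    nth_rw 1 [hb]
    exact inv_mul_cancel₀ h3
  rw [← pow_add] at h4
  have h5 : ((2 ^ (k + k) : ℕ) : ℂ) = ((1 : ℕ) : ℂ) := by push_cast; exact h4
  have h6 : 2 ^ (k + k) = 1 := Nat.cast_injective h5
  have h7 : 1 < 2 ^ (k + k) := Nat.one_lt_two_pow (by omega)
  omega

/-- **Job JX.** -/
theorem t : S_IDT := by
  intro K
  have hfin := compl_finite K
  have hopen : IsOpen (Om K) := by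
    rw [← compl_compl (Om K)]
    exact hfin.isClosed.isOpen_compl
  refine ⟨hopen, fun f g hf hg hfg v hv => ?_⟩
  have hconn : IsPreconnected (Om K) := by
    rw [← compl_compl (Om K)]
    refine (Set.Countable.isPathConnected_compl_of_one_lt_rank ?_ hfin.countable).isConnected.isPreconnected
    rw [Complex.rank_real_complex]
    norm_num
  have hfa : AnalyticOnNhd ℂ f (Om K) := hf.analyticOnNhd hopen
  have hga : AnalyticOnNhd ℂ g (Om K) := hg.analyticOnNhd hopen
  have h1 : Tendsto (fun n : ℕ => ((2 + 1 / ((n : ℝ) + 1) : ℝ) : ℂ)) atTop (𝓝[≠] (2 : ℂ)) := by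
    rw [tendsto_nhdsWithin_iff]
    constructor
    · have h2 : Tendsto (fun n : ℕ => 2 + 1 / ((n : ℝ) + 1)) atTop (𝓝 (2 + 0)) :=
        tendsto_const_nhds.add tendsto_one_div_add_atTop_nhds_zero_nat
      have h3 : Tendsto (fun n : ℕ => ((2 + 1 / ((n : ℝ) + 1) : ℝ) : ℂ)) atTop
          (𝓝 ((2 + 0 : ℝ) : ℂ)) := (Complex.continuous_ofReal.tendsto _).comp h2
      have h4 : ((2 + 0 : ℝ) : ℂ) = 2 := by simp
      rwa [h4] at h3
    · refine Eventually.of_forall fun n => ?_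
      simp only [Set.mem_compl_iff, Set.mem_singleton_iff]
      intro h
      have h4 : (2 + 1 / ((n : ℝ) + 1) : ℝ) = 2 := by exact_mod_cast h
      have h5 : 0 < 1 / ((n : ℝ) + 1) := by positivity
      linarith
  have h2 : ∃ᶠ z in 𝓝[≠] (2 : ℂ), f z = g z := by
    refine h1.frequently (Eventually.frequently (Eventually.of_forall fun n => ?_))
    refine hfg _ ?_
    have h5 : 0 < 1 / ((n : ℝ) + 1) := by positivity
    linarith
  exact hfa.eqOn_of_preconnected_of_frequently_eq hga hconn (two_mem K) h2 hv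

end Pool.Agent.K7.H81.FT.JX
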