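import Pool.Agent.K7.H81.FR

set_option autoImplicit false

/-!
# MP_b78339: the sharp extrapolation exponents, with boundedness of the interval projections in place of UMD
-/

namespace Pool.Agent.K7.H81.BoundedSums

open MeasureTheory Set Filter Topology Pool.Agent.R955.FD Pool.Agent.K7.H81.FD
open scoped ENNReal

universe u

/-- The projections `D_I`, `I` an interval of integers, are uniformly bounded on the `X`-valued trigonometric
polynomials with the norm of `L^p`. -/
def BddProj (X : Type u) [NormedAddCommGroup X] [NormedSpace ℂ X] (p : ℝ) : Prop :=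
  ∃ C : ℝ, ∀ I : Set ℤ, I.OrdConnected → ∀ c : ℤ →₀ X,
    nT (ENNReal.ofReal p) (DT I c) ≤ ENNReal.ofReal C * nT (ENNReal.ofReal p) (trig c)

/-- The number `θ = min (p / r) (p' / r')`. -/
noncomputable def th (p r : ℝ) : ℝ := min (p / r) ((p / (p - 1)) / (r / (r - 1)))

theorem result (X : Type u) [NormedAddCommGroup X] [NormedSpace ℂ X] [CompleteSpace X] (p q r : ℝ)
    (hp : 1 < p) (hq : 1 < q) (hr : 1 < r) :
    (BddProj X p → UpperT X (ENNReal.ofReal p) (ENNReal.ofReal q) → ∀ s : ℝ, 1 < s →
      s / (s - 1) = (q / (q - 1)) / th p r → UpperT X (ENNReal.ofReal r) (ENNReal.ofReal s)) ∧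
    (LowerT X (ENNReal.ofReal p) (ENNReal.ofReal q) →
      LowerT X (ENNReal.ofReal r) (ENNReal.ofReal (q / th p r))) := by
  refine ⟨?_, fun h => lower_extrap hp hq hr h⟩
  rintro ⟨C, hC⟩ h s hs hsq
  refine upper_extrap_HB (Bc := max C 0) hp hq hr hs hsq (le_max_right _ _) ?_ h
  apply HB_of_trig hp
  intro a l c
  refine (hC _ Set.ordConnected_Ico c).trans ?_
  gcongr
  exact le_max_left _ _

end Pool.Agent.K7.H81.BoundedSums
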