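import Pool.Agent.K7.H81.SMD

set_option autoImplicit false

/-!
# Growth of a second order recurrence through isolated small coefficients
-/

namespace Pool.Agent.K7.H81.CU

open Real

/-- the ratio is small before a step -/
theorem rat_le {L Q' r : ℝ} (hL : 4 ≤ |L|) (hr : |r - 1 / L| ≤ 2 / (|L| * (1 + |Q'|))) :
    |r| * |L| ≤ 3 := by
  have hL0 : 0 < |L| := by linarith
  have hQ := abs_nonneg Q'
  have h1 : 2 / (|L| * (1 + |Q'|)) ≤ 2 / |L| := by
    apply div_le_div_of_nonneg_left (by norm_num) hL0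
    nlinarith
  have h3 : |r| ≤ |r - 1 / L| + |1 / L| := by
    have := abs_add_le (r - 1 / L) (1 / L)
    rwa [sub_add_cancel] at this
  have h4 : |1 / L| = 1 / |L| := by rw [abs_div, abs_one]
  have h5 : 3 / |L| = 2 / |L| + 1 / |L| := by ring
  rw [h4] at h3
  have h2 : |r| ≤ 3 / |L| := by linarith
  rwa [le_div_iff₀ hL0] at h2

/-- one step with a large coefficient -/
theorem reg {L Q' η r : ℝ} (hL : 4 ≤ |L|) (hη : 4 ≤ |η|)
    (hr : |r - 1 / L| ≤ 2 / (|L| * (1 + |Q'|))) :
    η - r ≠ 0 ∧ |1 / (η - r) - 1 / η| ≤ 2 / (|η| * (1 + |L|)) ∧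
      log |η| - 6 * (1 / |η * L|) ≤ log |η - r| := by
  have hL0 : 0 < |L| := by linarith
  have hη0 : 0 < |η| := by linarith
  have hηn : η ≠ 0 := abs_pos.1 hη0
  have h2 := rat_le hL hr
  have hr0 := abs_nonneg r
  have h3 : |r| ≤ 3 / 4 := by nlinarith
  have h4 : 13 / 16 * |η| ≤ |η - r| := by
    have := abs_sub_abs_le_abs_sub η r
    linarith
  have h5 : 0 < |η - r| := by linarith
  have h6 : η - r ≠ 0 := abs_pos.1 h5
  refine ⟨h6, ?_, ?_⟩
  · have e : 1 / (η - r) - 1 / η = r / ((η - r) * η) := by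
      field_simp
      ring
    rw [e, abs_div, abs_mul, div_le_div_iff₀ (by positivity) (by positivity)]
    have h8 : |r| * (1 + |L|) ≤ 15 / 4 := by
      rw [mul_add, mul_one]
      linarith
    have h9 : 13 / 4 ≤ |η - r| := by linarith
    calc |r| * (|η| * (1 + |L|)) = |r| * (1 + |L|) * |η| := by ring
      _ ≤ 15 / 4 * |η| := mul_le_mul_of_nonneg_right h8 hη0.le
      _ ≤ 2 * |η - r| * |η| := mul_le_mul_of_nonneg_right (by linarith) hη0.le
      _ = 2 * (|η - r| * |η|) := by ring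
  · have hu : |r / η| ≤ 1 / 2 := by
      rw [abs_div, div_le_iff₀ hη0]
      linarith
    have h7 := Pool.Agent.TH705.SM.log_one_sub hu
    have e : η - r = η * (1 - r / η) := by field_simp
    have h1u : 0 < 1 - r / η := by
      have := (abs_le.1 hu).2
      linarith
    have e' : |η - r| = |η| * (1 - r / η) := by
      conv_lhs => rw [e]
      rw [abs_mul, abs_of_pos h1u]
    rw [e', Real.log_mul hη0.ne' h1u.ne']
    have h8 := (abs_le.1 h7).1
    have h9 : |r / η| ≤ 3 * (1 / |η * L|) := by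
      rw [abs_div, abs_mul, mul_one_div, div_le_div_iff₀ hη0 (by positivity)]
      calc |r| * (|η| * |L|) = |r| * |L| * |η| := by ring
        _ ≤ 3 * |η| := mul_le_mul_of_nonneg_right h2 hη0.le
    linarith

/-- a small coefficient between two large ones -/
theorem ctr1 {L Q' η r R Q : ℝ} (hL : 4 ≤ |L|) (hR : 4 ≤ |R|)
    (hr : |r - 1 / L| ≤ 2 / (|L| * (1 + |Q'|)))
    (hc : 16 / (|L| * (1 + |Q'|)) + 16 / (|R| * (1 + |Q|)) ≤ |η - 1 / L - 1 / R|) :
    R * (η - r) - 1 ≠ 0 ∧ 16 ≤ (1 + |Q|) * |R * (η - r) - 1| ∧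
      16 * (|R| * |(η - r) / (R * (η - r) - 1) - 1 / R|) ≤ 1 + |Q| := by
  have hL0 : 0 < |L| := by linarith
  have hR0 : 0 < |R| := by linarith
  have hRn : R ≠ 0 := abs_pos.1 hR0
  have hQ := abs_nonneg Q
  have hQ' := abs_nonneg Q'
  have hT : 0 ≤ 2 / (|L| * (1 + |Q'|)) := by positivity
  have e16 : 16 / (|L| * (1 + |Q'|)) = 8 * (2 / (|L| * (1 + |Q'|))) := by ring
  have h1 : |η - 1 / L - 1 / R| ≤ |η - r - 1 / R| + |r - 1 / L| := by
    have := abs_add_le (η - r - 1 / R) (r - 1 / L)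
    have e : η - r - 1 / R + (r - 1 / L) = η - 1 / L - 1 / R := by ring
    rwa [e] at this
  have h2 : 16 / (|R| * (1 + |Q|)) ≤ |η - r - 1 / R| := by
    rw [e16] at hc
    linarith
  have h3 : R * (η - r) - 1 = R * (η - r - 1 / R) := by
    field_simp
  have h4 : 16 ≤ (1 + |Q|) * |R * (η - r) - 1| := by
    rw [h3, abs_mul]
    rw [div_le_iff₀ (by positivity)] at h2
    nlinarith
  have h5 : 0 < |R * (η - r) - 1| := by
    by_contra hcon
    have : |R * (η - r) - 1| = 0 := le_antisymm (not_lt.1 hcon) (abs_nonneg _)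
    rw [this, mul_zero] at h4
    norm_num at h4
  have h6 : R * (η - r) - 1 ≠ 0 := abs_pos.1 h5
  refine ⟨h6, h4, ?_⟩
  have e : (η - r) / (R * (η - r) - 1) - 1 / R = 1 / ((R * (η - r) - 1) * R) := by
    rw [div_sub_div _ _ h6 hRn]
    congr 1
    ring
  rw [e, abs_div, abs_one, abs_mul]
  have h7 : 16 * (|R| * (1 / (|R * (η - r) - 1| * |R|))) = 16 / |R * (η - r) - 1| := by
    field_simp
  rw [h7, div_le_iff₀ h5]
  exact h4

/-- the step after a small coefficient -/
theorem aft {R Q w : ℝ} (hR : 4 ≤ |R|) (hQ : 4 ≤ |Q|) (hw : 16 * (|R| * |w - 1 / R|) ≤ 1 + |Q|) :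
    Q - w ≠ 0 ∧ |1 / (Q - w) - 1 / Q| ≤ 2 / (|Q| * (1 + |R|)) ∧ 9 / 10 * |Q| ≤ |Q - w| := by
  have hR0 : 0 < |R| := by linarith
  have hQ0 : 0 < |Q| := by linarith
  have hQn : Q ≠ 0 := abs_pos.1 hQ0
  have h1 : |w| ≤ |w - 1 / R| + |1 / R| := by
    have := abs_add_le (w - 1 / R) (1 / R)
    rwa [sub_add_cancel] at this
  have h2 : |R| * |1 / R| = 1 := by
    rw [← abs_mul, mul_one_div, div_self (abs_pos.1 hR0), abs_one]
  have h3 : |R| * |w| ≤ (1 + |Q|) / 16 + 1 := by
    have := mul_le_mul_of_nonneg_left h1 hR0.le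
    rw [mul_add, h2] at this
    linarith
  have h3' : |R| * |w| ≤ 21 / 64 * |Q| := by linarith
  have hw0 := abs_nonneg w
  have h4 : |w| ≤ 21 / 256 * |Q| := by
    have h41 : 4 * |w| ≤ |R| * |w| := mul_le_mul_of_nonneg_right hR hw0
    linarith
  have h5 : 9 / 10 * |Q| ≤ |Q - w| := by
    have := abs_sub_abs_le_abs_sub Q w
    linarith
  have h6 : 0 < |Q - w| := by linarith
  have h7 : Q - w ≠ 0 := abs_pos.1 h6
  refine ⟨h7, ?_, h5⟩
  have e : 1 / (Q - w) - 1 / Q = w / ((Q - w) * Q) := by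
    field_simp
    ring
  rw [e, abs_div, abs_mul, div_le_div_iff₀ (by positivity) (by positivity)]
  have h8 : |w| * (1 + |R|) ≤ 9 / 5 * |Q| := by
    rw [mul_add, mul_one, mul_comm |w| |R|]
    linarith
  calc |w| * (|Q| * (1 + |R|)) = |w| * (1 + |R|) * |Q| := by ring
    _ ≤ 9 / 5 * |Q| * |Q| := mul_le_mul_of_nonneg_right h8 hQ0.le
    _ ≤ 2 * |Q - w| * |Q| := mul_le_mul_of_nonneg_right (by linarith) hQ0.le
    _ = 2 * (|Q - w| * |Q|) := by ring

/-- two consecutive small coefficients -/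
theorem ctr2 {L Q' η r ζ Q G : ℝ} (hG : 100 ≤ G) (hL : G ≤ |L|) (hη : |η| < 4) (hζ : |ζ| < 4)
    (hQ : G ≤ |Q|) (hr : |r - 1 / L| ≤ 2 / (|L| * (1 + |Q'|)))
    (hc : 60 / G ≤ |η * ζ - 1|) :
    1 / 8 ≤ max |η - r| |ζ * (η - r) - 1| ∧ 1 ≤ |Q * (ζ * (η - r) - 1) - (η - r)| ∧
      |(ζ * (η - r) - 1) / (Q * (ζ * (η - r) - 1) - (η - r)) - 1 / Q| ≤
        2 / (|Q| * (1 + |ζ|)) := by
  have hG0 : 0 < G := by linarith
  have hL0 : 0 < |L| := by linarith
  have hQ0 : 0 < |Q| := by linarith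
  have hQn : Q ≠ 0 := abs_pos.1 hQ0
  have hr0 := abs_nonneg r
  have hζ0 := abs_nonneg ζ
  have h2 := rat_le (by linarith) hr
  have h3 : |r| * G ≤ 3 := (mul_le_mul_of_nonneg_left hL hr0).trans h2
  have h4 : |r| ≤ 3 / 100 := by nlinarith
  set u := η - r with hu
  set z := ζ * u - 1 with hz
  have h5 : |u| ≤ 5 := by
    have := abs_sub η r
    linarith
  have h6 : 48 ≤ |z| * G := by
    have h61 : |η * ζ - 1| ≤ |z| + |ζ * r| := by
      have := abs_add_le z (ζ * r)
      have e : z + ζ * r = η * ζ - 1 := by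
        rw [hz, hu]
        ring
      rwa [e] at this
    have h62 : |ζ * r| * G ≤ 12 := by
      rw [abs_mul]
      calc |ζ| * |r| * G = |ζ| * (|r| * G) := by ring
        _ ≤ 4 * 3 := mul_le_mul hζ.le h3 (by positivity) (by norm_num)
        _ = 12 := by norm_num
    rw [div_le_iff₀ hG0] at hc
    nlinarith
  have h7 : 48 ≤ |Q * z| := by
    rw [abs_mul]
    have hz0 := abs_nonneg z
    nlinarith
  have h8 : 43 ≤ |Q * z - u| := by
    have := abs_sub_abs_le_abs_sub (Q * z) u
    linarith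
  have h9 : 0 < |Q * z - u| := by linarith
  have h10 : Q * z - u ≠ 0 := abs_pos.1 h9
  refine ⟨?_, by linarith, ?_⟩
  · by_cases h : 1 / 8 ≤ |u|
    · exact le_max_of_le_left h
    · refine le_max_of_le_right ?_
      have h11 := not_le.1 h
      have h12 : |ζ * u| ≤ 1 / 2 := by
        rw [abs_mul]
        have hu0 := abs_nonneg u
        nlinarith
      have h13 : 1 ≤ |z| + |ζ * u| := by
        have := abs_sub z (ζ * u)
        have e : z - ζ * u = -1 := by
          rw [hz]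
          ring
        rwa [e, abs_neg, abs_one] at this
      linarith
  · have e : z / (Q * z - u) - 1 / Q = u / ((Q * z - u) * Q) := by
      rw [div_sub_div _ _ h10 hQn]
      congr 1
      ring
    rw [e, abs_div, abs_mul, div_le_div_iff₀ (by positivity) (by positivity)]
    have h11 : |u| * (1 + |ζ|) ≤ 5 * 5 :=
      mul_le_mul h5 (by linarith) (by positivity) (by norm_num)
    calc |u| * (|Q| * (1 + |ζ|)) = |u| * (1 + |ζ|) * |Q| := by ring
      _ ≤ 5 * 5 * |Q| := mul_le_mul_of_nonneg_right h11 hQ0.le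
      _ ≤ 2 * |Q * z - u| * |Q| := mul_le_mul_of_nonneg_right (by linarith) hQ0.le
      _ = 2 * (|Q * z - u| * |Q|) := by ring

/-- the condition at a small coefficient -/
def Ctr (G : ℝ) (s : ℕ → ℝ) (c : ℕ) : Prop :=
  |s (c + 2)| < 4 →
    (4 ≤ |s (c + 1)| → 4 ≤ |s (c + 3)| →
      16 / (|s (c + 1)| * (1 + |s c|)) + 16 / (|s (c + 3)| * (1 + |s (c + 4)|)) ≤
        |s (c + 2) - 1 / s (c + 1) - 1 / s (c + 3)|) ∧
    (|s (c + 3)| < 4 → 60 / G ≤ |s (c + 2) * s (c + 3) - 1| ∧ G ≤ |s (c + 1)| ∧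
      G ≤ |s (c + 4)|)

/-- the state after a step -/
structure St (s d V : ℕ → ℝ) (k : ℕ) : Prop where
  lk : 4 ≤ |s (k + 1)|
  ne : d (k + 2) ≠ 0
  rat : |d (k + 1) / d (k + 2) - 1 / s (k + 1)| ≤ 2 / (|s (k + 1)| * (1 + |s k|))
  low : exp (V (k + 1)) ≤ |d (k + 2)|

/-- the lower bound for the vector -/
def Bn (d V : ℕ → ℝ) (j : ℕ) : Prop := exp (V j) ≤ max |d j| |d (j + 1)|

variable {G H : ℝ} {s d h e V : ℕ → ℝ}

/-- one block -/
theorem block (hG : 100 ≤ G) (hH : ∀ j, 1 + |s j| ≤ exp H)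
    (hd : ∀ k, d (k + 2) = s (k + 1) * d (k + 1) - d k)
    (h1 : ∀ j, h j ≤ H) (h2 : ∀ j, 0 ≤ e j)
    (h3 : ∀ j, 4 ≤ |s j| → 4 ≤ |s (j + 1)| →
      h j - e j ≤ log |s (j + 1)| - 6 * (1 / |s (j + 1) * s j|))
    (hV : ∀ j, V (j + 1) = V j + (h j - e j - if |s (j + 1)| < 4 then 3 * H else 0))
    {k : ℕ} (hc : Ctr G s k) (hs : St s d V k) :
    (4 ≤ |s (k + 2)| → St s d V (k + 1)) ∧
    (|s (k + 2)| < 4 → Bn d V (k + 2) ∧ (St s d V (k + 2) ∨ (Bn d V (k + 3) ∧ St s d V (k + 3)))) := by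
  obtain ⟨a1, a2, a3, a4⟩ := hs
  have hH1 : 1 ≤ exp H := by
    have := hH 0
    have := abs_nonneg (s 0)
    linarith
  have hH0 : 0 ≤ H := Real.exp_le_exp.1 (by rw [Real.exp_zero]; exact hH1)
  have hd2 := hd (k + 1)
  have hd3 := hd (k + 2)
  have hd4 := hd (k + 3)
  rw [show k + 1 + 2 = k + 3 by ring, show k + 1 + 1 = k + 2 by ring] at hd2
  rw [show k + 2 + 2 = k + 4 by ring, show k + 2 + 1 = k + 3 by ring] at hd3
  rw [show k + 3 + 2 = k + 5 by ring, show k + 3 + 1 = k + 4 by ring] at hd4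
  have v1 := hV (k + 1)
  have v2 := hV (k + 2)
  have v3 := hV (k + 3)
  rw [show k + 1 + 1 = k + 2 by ring] at v1
  rw [show k + 2 + 1 = k + 3 by ring] at v2
  rw [show k + 3 + 1 = k + 4 by ring] at v3
  have p0 : 0 < |d (k + 2)| := abs_pos.2 a2
  set r := d (k + 1) / d (k + 2) with hr
  have e1 : d (k + 1) = r * d (k + 2) := by
    rw [hr]
    field_simp
  have e2 : d (k + 3) = (s (k + 2) - r) * d (k + 2) := by
    rw [hd2, e1]
    ring
  constructor
  · intro hη
    obtain ⟨b1, b2, b3⟩ := reg a1 hη a3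
    have hn : d (k + 3) ≠ 0 := by
      rw [e2]
      exact mul_ne_zero b1 a2
    refine ⟨hη, hn, ?_, ?_⟩
    · show |d (k + 2) / d (k + 3) - 1 / s (k + 2)| ≤ 2 / (|s (k + 2)| * (1 + |s (k + 1)|))
      have e3 : d (k + 2) / d (k + 3) = 1 / (s (k + 2) - r) := by
        rw [e2]
        field_simp
      rw [e3]
      exact b2
    · show exp (V (k + 2)) ≤ |d (k + 3)|
      rw [v1, if_neg (not_lt.2 hη), sub_zero, Real.exp_add, e2, abs_mul, mul_comm]
      refine mul_le_mul ?_ a4 (Real.exp_pos _).le (abs_nonneg _)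
      rw [← Real.exp_log (abs_pos.2 b1)]
      apply Real.exp_le_exp.2
      have := h3 (k + 1) a1 hη
      rw [show k + 1 + 1 = k + 2 by ring] at this
      linarith
  · intro hη
    obtain ⟨c1, c2⟩ := hc hη
    rw [if_pos hη] at v1
    have w1 : V (k + 2) ≤ V (k + 1) - 2 * H := by
      have := h1 (k + 1)
      have := h2 (k + 1)
      linarith
    have w2 : V (k + 3) ≤ V (k + 1) - H := by
      have x1 := h1 (k + 2)
      have x2 := h2 (k + 2)
      split_ifs at v2 <;> linarith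
    have w3 : V (k + 4) ≤ V (k + 1) := by
      have x1 := h1 (k + 3)
      have x2 := h2 (k + 3)
      split_ifs at v3 <;> linarith
    have B2 : Bn d V (k + 2) := by
      refine le_max_of_le_left ((Real.exp_le_exp.2 ?_).trans a4)
      linarith
    refine ⟨B2, ?_⟩
    have e3 : d (k + 4) = (s (k + 3) * (s (k + 2) - r) - 1) * d (k + 2) := by
      rw [hd3, e2]
      ring
    rcases le_or_gt 4 |s (k + 3)| with hR | hR
    · obtain ⟨b1, b2, b3⟩ := ctr1 (Q := s (k + 4)) a1 hR a3 (c1 a1 hR)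
      have hn4 : d (k + 4) ≠ 0 := by
        rw [e3]
        exact mul_ne_zero b1 a2
      have e4 : d (k + 3) / d (k + 4) = (s (k + 2) - r) / (s (k + 3) * (s (k + 2) - r) - 1) := by
        rw [e2, e3]
        field_simp
      rcases le_or_gt 4 |s (k + 4)| with hQ | hQ
      · right
        rw [← e4] at b3
        obtain ⟨f1, f2, f3⟩ := aft hR hQ b3
        set w := d (k + 3) / d (k + 4) with hw
        have e5 : d (k + 3) = w * d (k + 4) := by
          rw [hw]
          field_simp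
        have e6 : d (k + 5) = (s (k + 4) - w) * d (k + 4) := by
          rw [hd4, e5]
          ring
        have q0 := abs_nonneg (s (k + 4))
        refine ⟨?_, hQ, ?_, ?_, ?_⟩
        · refine le_max_of_le_right ?_
          show exp (V (k + 3)) ≤ |d (k + 4)|
          rw [e3, abs_mul]
          have g1 : exp (-H) ≤ |s (k + 3) * (s (k + 2) - r) - 1| := by
            rw [Real.exp_neg, inv_le_iff_one_le_mul₀ (Real.exp_pos _)]
            have g2 := hH (k + 4)
            have g3 := abs_nonneg (s (k + 3) * (s (k + 2) - r) - 1)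
            nlinarith
          calc exp (V (k + 3)) ≤ exp (-H + V (k + 1)) := Real.exp_le_exp.2 (by linarith)
            _ = exp (-H) * exp (V (k + 1)) := Real.exp_add _ _
            _ ≤ _ := mul_le_mul g1 a4 (Real.exp_pos _).le (abs_nonneg _)
        · show d (k + 5) ≠ 0
          rw [e6]
          exact mul_ne_zero f1 hn4
        · show |d (k + 4) / d (k + 5) - 1 / s (k + 4)| ≤ 2 / (|s (k + 4)| * (1 + |s (k + 3)|))
          have e7 : d (k + 4) / d (k + 5) = 1 / (s (k + 4) - w) := by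
            rw [e6]
            field_simp
          rw [e7]
          exact f2
        · show exp (V (k + 4)) ≤ |d (k + 5)|
          rw [e6, e3, abs_mul, abs_mul]
          have g3 := abs_nonneg (s (k + 3) * (s (k + 2) - r) - 1)
          have g4 : 1 ≤ |s (k + 4) - w| * |s (k + 3) * (s (k + 2) - r) - 1| := by
            have g5 : 9 / 10 * |s (k + 4)| * |s (k + 3) * (s (k + 2) - r) - 1| ≤
                |s (k + 4) - w| * |s (k + 3) * (s (k + 2) - r) - 1| :=
              mul_le_mul_of_nonneg_right f3 g3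
            have g6 : (1 + |s (k + 4)|) * |s (k + 3) * (s (k + 2) - r) - 1| ≤
                5 / 4 * |s (k + 4)| * |s (k + 3) * (s (k + 2) - r) - 1| :=
              mul_le_mul_of_nonneg_right (by linarith) g3
            linarith
          rw [← mul_assoc]
          calc exp (V (k + 4)) ≤ exp (V (k + 1)) := Real.exp_le_exp.2 w3
            _ ≤ 1 * |d (k + 2)| := by rw [one_mul]; exact a4
            _ ≤ _ := mul_le_mul_of_nonneg_right g4 (abs_nonneg _)
      · left
        have q0 := abs_nonneg (s (k + 4))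
        refine ⟨hR, hn4, ?_, ?_⟩
        · show |d (k + 3) / d (k + 4) - 1 / s (k + 3)| ≤ 2 / (|s (k + 3)| * (1 + |s (k + 2)|))
          rw [e4]
          have hη0 := abs_nonneg (s (k + 2))
          rw [le_div_iff₀ (by positivity)]
          set z := |(s (k + 2) - r) / (s (k + 3) * (s (k + 2) - r) - 1) - 1 / s (k + 3)| with hz
          have hz0 : 0 ≤ |s (k + 3)| * z := by positivity
          calc z * (|s (k + 3)| * (1 + |s (k + 2)|)) = |s (k + 3)| * z * (1 + |s (k + 2)|) := by ring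
            _ ≤ |s (k + 3)| * z * 5 := mul_le_mul_of_nonneg_left (by linarith) hz0
            _ ≤ 2 := by linarith
        · show exp (V (k + 3)) ≤ |d (k + 4)|
          rw [e3, abs_mul]
          have g3 := abs_nonneg (s (k + 3) * (s (k + 2) - r) - 1)
          have g4 : 1 ≤ |s (k + 3) * (s (k + 2) - r) - 1| := by nlinarith
          calc exp (V (k + 3)) ≤ exp (V (k + 1)) := Real.exp_le_exp.2 (by linarith)
            _ ≤ 1 * |d (k + 2)| := by rw [one_mul]; exact a4
            _ ≤ _ := mul_le_mul_of_nonneg_right g4 (abs_nonneg _)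
    · right
      obtain ⟨c3, c4, c5⟩ := c2 hR
      obtain ⟨b1, b2, b3⟩ := ctr2 hG c4 hη hR c5 a3 c3
      have e6 : d (k + 5) = (s (k + 4) * (s (k + 3) * (s (k + 2) - r) - 1) -
          (s (k + 2) - r)) * d (k + 2) := by
        rw [hd4, e3, e2]
        ring
      have hne : s (k + 4) * (s (k + 3) * (s (k + 2) - r) - 1) - (s (k + 2) - r) ≠ 0 := by
        intro hcon
        rw [hcon, abs_zero] at b2
        norm_num at b2
      refine ⟨?_, by linarith, ?_, ?_, ?_⟩
      · show exp (V (k + 3)) ≤ max |d (k + 3)| |d (k + 4)|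
        rw [e2, e3, abs_mul, abs_mul, ← max_mul_of_nonneg _ _ (abs_nonneg (d (k + 2)))]
        have g1 : exp (-H) ≤ 1 / 8 := by
          rw [Real.exp_neg, inv_le_comm₀ (Real.exp_pos _) (by norm_num)]
          have g2 := hH (k + 4)
          norm_num
          linarith
        calc exp (V (k + 3)) ≤ exp (-H + V (k + 1)) := Real.exp_le_exp.2 (by linarith)
          _ = exp (-H) * exp (V (k + 1)) := Real.exp_add _ _
          _ ≤ _ := mul_le_mul (g1.trans b1) a4 (Real.exp_pos _).le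
              ((by norm_num : (0:ℝ) ≤ 1 / 8).trans b1)
      · show d (k + 5) ≠ 0
        rw [e6]
        exact mul_ne_zero hne a2
      · show |d (k + 4) / d (k + 5) - 1 / s (k + 4)| ≤ 2 / (|s (k + 4)| * (1 + |s (k + 3)|))
        have e7 : d (k + 4) / d (k + 5) = (s (k + 3) * (s (k + 2) - r) - 1) /
            (s (k + 4) * (s (k + 3) * (s (k + 2) - r) - 1) - (s (k + 2) - r)) := by
          rw [e6, e3]
          exact mul_div_mul_right _ _ a2
        rw [e7]
        exact b3
      · show exp (V (k + 4)) ≤ |d (k + 5)|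
        rw [e6, abs_mul]
        calc exp (V (k + 4)) ≤ exp (V (k + 1)) := Real.exp_le_exp.2 w3
          _ ≤ 1 * |d (k + 2)| := by rw [one_mul]; exact a4
          _ ≤ _ := mul_le_mul_of_nonneg_right b2 (abs_nonneg _)

/-- **Growth of the recurrence.** -/
theorem grow (hG : 100 ≤ G) (hH : ∀ j, 1 + |s j| ≤ exp H)
    (hd : ∀ k, d (k + 2) = s (k + 1) * d (k + 1) - d k)
    (h1 : ∀ j, h j ≤ H) (h2 : ∀ j, 0 ≤ e j)
    (h3 : ∀ j, 4 ≤ |s j| → 4 ≤ |s (j + 1)| →
      h j - e j ≤ log |s (j + 1)| - 6 * (1 / |s (j + 1) * s j|))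
    (hV : ∀ j, V (j + 1) = V j + (h j - e j - if |s (j + 1)| < 4 then 3 * H else 0))
    {M : ℕ} (hc : ∀ c, c + 2 ≤ M → Ctr G s c) :
    ∀ n k, St s d V k → ∀ j, k + 1 ≤ j → j ≤ k + 1 + n → j ≤ M → Bn d V j := by
  intro n
  induction n using Nat.strong_induction_on with
  | _ n ih =>
    intro k hs j hj1 hj2 hj3
    rcases Nat.eq_or_lt_of_le hj1 with hj | hj
    · subst hj
      exact le_max_of_le_right hs.low
    · have hcc := hc k (by omega)
      obtain ⟨g1, g2⟩ := block hG hH hd h1 h2 h3 hV hcc hs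
      rcases le_or_gt 4 |s (k + 2)| with hη | hη
      · exact ih (n - 1) (by omega) (k + 1) (g1 hη) j (by omega) (by omega) hj3
      · obtain ⟨g3, g4⟩ := g2 hη
        rcases Nat.eq_or_lt_of_le hj with hj' | hj'
        · have : j = k + 2 := by omega
          subst this
          exact g3
        · rcases g4 with g4 | ⟨g4, g5⟩
          · exact ih (n - 2) (by omega) (k + 2) g4 j (by omega) (by omega) hj3
          · rcases Nat.eq_or_lt_of_le hj' with hj'' | hj''
            · have : j = k + 3 := by omega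
              subst this
              exact g4
            · exact ih (n - 3) (by omega) (k + 3) g5 j (by omega) (by omega) hj3

end Pool.Agent.K7.H81.CU
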