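import Pool.Agent.K7.H81.CUA

set_option autoImplicit false

/-!
# Nonresonance of two consecutive critical passages, and separation
-/

namespace Pool.Agent.K7.H81.CU

open Real MeasureTheory Function Pool.Agent.TH705.SM Pool.Agent.V1152.SMI Pool.Agent.K7.H81.SM

/-- `2x + a sin 2πx` -/
noncomputable def fr (a x : ℝ) : ℝ := 2 * x + a * sin (2 * π * x)

/-- the constant of nonresonance -/
noncomputable def GG (a : ℝ) : ℝ := π * |a| * |sin (2 * π * a)|

theorem near_sin {S C : ℝ} (h : S ^ 2 + C ^ 2 = 1) (a : ℝ) :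
    |sin (2 * π * a)| - 2 * π * |a| * C ^ 2 ≤ |sin (2 * π * a * S)| := by
  have hS : |S| ≤ 1 := by
    rw [abs_le]
    constructor <;> nlinarith [sq_nonneg C]
  obtain ⟨s1, s2⟩ := abs_le.1 hS
  have hpi := Real.pi_pos
  have hK : 0 ≤ 2 * π * |a| := by positivity
  rcases le_total 0 S with h0 | h0
  · have h1 := sin_lip (2 * π * a) (2 * π * a * S)
    have e : 2 * π * a - 2 * π * a * S = (2 * π * a) * (1 - S) := by ring
    rw [e, abs_mul, abs_mul, abs_of_pos (by positivity : 0 < 2 * π),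
      abs_of_nonneg (by linarith : 0 ≤ 1 - S)] at h1
    have h2 : 1 - S ≤ C ^ 2 := by nlinarith
    have h3 := mul_le_mul_of_nonneg_left h2 hK
    have h4 := abs_sub_abs_le_abs_sub (sin (2 * π * a)) (sin (2 * π * a * S))
    linarith
  · have h1 := sin_lip (2 * π * a) (-(2 * π * a * S))
    have e : 2 * π * a - -(2 * π * a * S) = (2 * π * a) * (1 + S) := by ring
    rw [e, abs_mul, abs_mul, abs_of_pos (by positivity : 0 < 2 * π),
      abs_of_nonneg (by linarith : 0 ≤ 1 + S), Real.sin_neg] at h1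
    have h2 : 1 + S ≤ C ^ 2 := by nlinarith
    have h3 := mul_le_mul_of_nonneg_left h2 hK
    have h4 := abs_sub_abs_le_abs_sub (sin (2 * π * a)) (-sin (2 * π * a * S))
    rw [abs_neg] at h4
    linarith

theorem NR (a x0 x1 : ℝ) :
    2 * GG a - (|L a x1| + 4) ^ 2 - 2 * |L a x0| - 2 ≤ |L a (fr a x1 - x0)| := by
  have hpi := Real.pi_pos
  set C1 := cos (2 * π * x1) with hC1
  set S1 := sin (2 * π * x1) with hS1
  set C0 := cos (2 * π * x0) with hC0
  set S0 := sin (2 * π * x0) with hS0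
  have p1 : S1 ^ 2 + C1 ^ 2 = 1 := Real.sin_sq_add_cos_sq _
  have p0 : S0 ^ 2 + C0 ^ 2 = 1 := Real.sin_sq_add_cos_sq _
  have hu : ∀ x, 2 * π * |a| * |cos (2 * π * x)| = |L a x - 2| := by
    intro x
    unfold L
    rw [add_sub_cancel_left, abs_mul, abs_mul, abs_of_pos (by positivity : 0 < 2 * π)]
  have c1 : |C1| ≤ 1 := Real.abs_cos_le_one _
  have c0 : |C0| ≤ 1 := Real.abs_cos_le_one _
  have g1 := abs_nonneg C1
  have g0 := abs_nonneg C0
  have q1 : |C1| ^ 2 = C1 ^ 2 := sq_abs _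
  have q0 : |C0| ^ 2 = C0 ^ 2 := sq_abs _
  have qs : |S0| ^ 2 = S0 ^ 2 := sq_abs _
  -- the sine of the phase
  set A := 2 * π * a * S1 with hA
  have n1 := near_sin p1 a
  rw [← hA] at n1
  set D := 2 * (2 * π * x1) with hD
  have hcD : cos D = 2 * C1 ^ 2 - 1 := by rw [hD, Real.cos_two_mul]
  have hsD : sin D = 2 * S1 * C1 := by rw [hD, Real.sin_two_mul]
  have n2 : |sin A| - 2 * C1 ^ 2 - 2 * |C1| ≤ |sin (D + A)| := by
    rw [Real.sin_add]
    have h1 := abs_sub_abs_le_abs_sub (cos D * sin A) (-(sin D * cos A))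
    rw [abs_neg, sub_neg_eq_add, add_comm (cos D * sin A)] at h1
    have h2 : |sin D * cos A| ≤ 2 * |C1| := by
      rw [hsD, abs_mul, abs_mul, abs_mul, abs_of_pos (by norm_num : (0:ℝ) < 2)]
      have t1 : |S1| ≤ 1 := Real.abs_sin_le_one _
      have t2 := Real.abs_cos_le_one A
      have t3 := abs_nonneg S1
      have t4 : 2 * |S1| * |C1| ≤ 2 * |C1| := by nlinarith
      have t5 : 2 * |S1| * |C1| * |cos A| ≤ 2 * |S1| * |C1| * 1 :=
        mul_le_mul_of_nonneg_left t2 (by positivity)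
      linarith
    have h3 : |sin A| - 2 * C1 ^ 2 ≤ |cos D * sin A| := by
      rw [abs_mul]
      have t1 : 1 - 2 * C1 ^ 2 ≤ |cos D| := by
        have := neg_le_abs (cos D)
        rw [hcD] at this ⊢
        linarith
      have t2 := Real.abs_sin_le_one A
      have t3 := abs_nonneg (sin A)
      have t4 := mul_le_mul_of_nonneg_right t1 t3
      nlinarith [sq_nonneg C1]
    linarith
  -- the cosine
  have hcos : cos (2 * π * (fr a x1 - x0)) = cos (D + A) * C0 + sin (D + A) * S0 := by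
    have e : 2 * π * (fr a x1 - x0) = (D + A) - 2 * π * x0 := by
      rw [hD, hA, hS1]
      unfold fr
      ring
    rw [e, Real.cos_sub]
  have n3 : |sin (D + A)| - 2 * |C0| ≤ |cos (2 * π * (fr a x1 - x0))| := by
    rw [hcos]
    have h1 := abs_sub_abs_le_abs_sub (sin (D + A) * S0) (-(cos (D + A) * C0))
    rw [abs_neg, sub_neg_eq_add, add_comm (sin (D + A) * S0)] at h1
    have h2 : |cos (D + A) * C0| ≤ |C0| := by
      rw [abs_mul]
      have := Real.abs_cos_le_one (D + A)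
      nlinarith
    have h3 : |sin (D + A)| - |C0| ≤ |sin (D + A) * S0| := by
      rw [abs_mul]
      have t1 : 1 - |C0| ≤ |S0| := by
        have t2 := abs_nonneg S0
        by_contra hcon
        have hcon := not_le.1 hcon
        have t3 : |S0| ^ 2 < (1 - |C0|) ^ 2 := by
          apply pow_lt_pow_left₀ hcon t2 (by norm_num)
        nlinarith
      have t2 := Real.abs_sin_le_one (D + A)
      have t3 := abs_nonneg (sin (D + A))
      nlinarith
    linarith
  have u2 := hu (fr a x1 - x0)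
  have u1 := hu x1
  have u0 := hu x0
  rw [← hC1] at u1
  rw [← hC0] at u0
  have v2 : |L a (fr a x1 - x0) - 2| ≤ |L a (fr a x1 - x0)| + 2 := by
    have := abs_sub (L a (fr a x1 - x0)) 2
    rwa [abs_of_pos (by norm_num : (0:ℝ) < 2)] at this
  have v1 : |L a x1 - 2| ≤ |L a x1| + 2 := by
    have := abs_sub (L a x1) 2
    rwa [abs_of_pos (by norm_num : (0:ℝ) < 2)] at this
  have v0 : |L a x0 - 2| ≤ |L a x0| + 2 := by
    have := abs_sub (L a x0) 2
    rwa [abs_of_pos (by norm_num : (0:ℝ) < 2)] at this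
  set K := 2 * π * |a| with hK
  have hK0 : 0 ≤ K := by positivity
  have hC1l : C1 ^ 2 ≤ |C1| := by
    calc C1 ^ 2 = |C1| * |C1| := by rw [← q1, sq]
      _ ≤ |C1| * 1 := mul_le_mul_of_nonneg_left c1 g1
      _ = |C1| := mul_one _
  have n4 : |sin (2 * π * a)| - K * C1 ^ 2 - 4 * |C1| - 2 * |C0| ≤
      |cos (2 * π * (fr a x1 - x0))| := by linarith
  have n5 := mul_le_mul_of_nonneg_left n4 hK0
  rw [u2] at n5
  have hG : K * |sin (2 * π * a)| = 2 * GG a := by
    unfold GG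
    rw [hK]
    ring
  have e5 : K * (|sin (2 * π * a)| - K * C1 ^ 2 - 4 * |C1| - 2 * |C0|) =
      2 * GG a - (K * |C1|) ^ 2 - 4 * (K * |C1|) - 2 * (K * |C0|) := by
    rw [← hG, ← q1]
    ring
  rw [e5, u1, u0] at n5
  have w1 : |L a x1 - 2| ^ 2 ≤ (|L a x1| + 2) ^ 2 :=
    pow_le_pow_left₀ (abs_nonneg _) v1 2
  have e6 : (|L a x1| + 2) ^ 2 + 4 * (|L a x1| + 2) = (|L a x1| + 4) ^ 2 - 4 := by ring
  linarith

theorem NR1 {a x0 x1 : ℝ} (hG : 100 ≤ GG a) (h0 : |L a x0| < 4) (h1 : |L a x1| ≤ √(GG a) / 2) :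
    GG a ≤ |L a (fr a x1 - x0)| := by
  refine le_trans ?_ (NR a x0 x1)
  have hs : √(GG a) ^ 2 = GG a := Real.sq_sqrt (by linarith)
  have hs10 : 10 ≤ √(GG a) := by
    apply Real.le_sqrt_of_sq_le
    norm_num
    exact hG
  set q := √(GG a) with hq
  have h2 : (|L a x1| + 4) ^ 2 ≤ (q / 2 + 4) ^ 2 :=
    pow_le_pow_left₀ (by positivity) (by linarith) 2
  rw [← hs]
  nlinarith

theorem L_lip (a u v : ℝ) : |L a u - L a v| ≤ 4 * π ^ 2 * |a| * |u - v| := by
  have e : L a u - L a v = (2 * π * a) * (cos (2 * π * u) - cos (2 * π * v)) := by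
    unfold L
    ring
  have hpi := Real.pi_pos
  have h1 := cos_lip (2 * π * u) (2 * π * v)
  have e2 : 2 * π * u - 2 * π * v = 2 * π * (u - v) := by ring
  rw [e2, abs_mul, abs_of_pos (by positivity : 0 < 2 * π)] at h1
  rw [e, abs_mul, abs_mul, abs_of_pos (by positivity : 0 < 2 * π)]
  have h2 := mul_le_mul_of_nonneg_left h1 (by positivity : 0 ≤ 2 * π * |a|)
  calc _ ≤ 2 * π * |a| * (2 * π * |u - v|) := h2
    _ = _ := by ring

theorem sep {a x y : ℝ} (ha : 4 ≤ |a|) (hx0 : 0 ≤ x) (hx1 : x ≤ 1 / 2)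
    (hy0 : 0 ≤ y) (hy1 : y ≤ 1 / 2) (hx : |L a x| < 4) (hy : |L a y| < 4) :
    4 * π * |a| * |x - y| ≤ |L a x - L a y| := by
  have ha2 : 2 ≤ |a| := by linarith
  have ha0 : 0 < |a| := by linarith
  have hpi := Real.pi_gt_three
  obtain ⟨x1, x2⟩ := x_mid hx0 hx1 (cos_small ha2 (hx.trans_le ha))
  obtain ⟨y1, y2⟩ := x_mid hy0 hy1 (cos_small ha2 (hy.trans_le ha))
  have h1 : |cos (2 * π * x) - cos (2 * π * y)| * (2 * π * |a|) = |L a x - L a y| := by
    have e : L a x - L a y = (2 * π * a) * (cos (2 * π * x) - cos (2 * π * y)) := by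
      unfold L
      ring
    rw [e, abs_mul, abs_mul, abs_of_pos (by positivity : 0 < 2 * π)]
    ring
  have h3 : cos (2 * π * x) - cos (2 * π * y) = -2 * sin (π * (x + y)) * sin (π * (x - y)) := by
    rw [Real.cos_sub_cos]
    congr 2
    · congr 1
      ring_nf
    · ring_nf
  have h4 : |π * (x - y)| ≤ π / 2 := by
    rw [abs_le]
    constructor <;> nlinarith
  have h5 := mul_abs_le_abs_sin h4
  have h6 : 2 / π * |π * (x - y)| = 2 * |x - y| := by
    rw [abs_mul, abs_of_pos Real.pi_pos]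
    field_simp
  rw [h6] at h5
  have h7 : 1 / 2 ≤ sin (π * (x + y)) := by
    rw [← Real.cos_pi_div_two_sub, ← Real.cos_abs, ← Real.cos_pi_div_three]
    apply Real.cos_le_cos_of_nonneg_of_le_pi (abs_nonneg _) (by linarith)
    rw [abs_le]
    constructor <;> nlinarith
  have h8 : 2 * |x - y| ≤ |cos (2 * π * x) - cos (2 * π * y)| := by
    rw [h3, abs_mul, abs_mul, abs_neg, abs_of_pos (by norm_num : (0:ℝ) < 2),
      abs_of_pos (by linarith : 0 < sin (π * (x + y)))]
    have := abs_nonneg (sin (π * (x - y)))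
    nlinarith
  rw [← h1]
  calc 4 * π * |a| * |x - y| = 2 * |x - y| * (2 * π * |a|) := by ring
    _ ≤ _ := mul_le_mul_of_nonneg_right h8 (by positivity)

theorem fr_deriv (a x : ℝ) : HasDerivAt (fr a) (L a x) x := by
  have h1 := ((hasDerivAt_id x).const_mul 2).add
    (((hasDerivAt_id x).const_mul (2 * π)).sin.const_mul a)
  refine HasDerivAt.congr_deriv (f := fr a) h1 ?_
  unfold L
  simp only [id]
  ring

theorem fr_cont (a : ℝ) : Continuous (fr a) :=
  continuous_iff_continuousAt.2 fun x => (fr_deriv a x).continuousAt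

theorem L_mid {a x y t : ℝ} (hx0 : 0 ≤ x) (hx1 : x ≤ 1 / 2)
    (hy0 : 0 ≤ y) (hy1 : y ≤ 1 / 2) (hx : |L a x| < 4) (hy : |L a y| < 4) (ht : t ∈ Set.uIcc x y) :
    |L a t| ≤ 4 := by
  have hpi := Real.pi_pos
  wlog hxy : x ≤ y generalizing x y
  · exact this hy0 hy1 hx0 hx1 hy hx (by rwa [Set.uIcc_comm]) (le_of_not_ge hxy)
  rw [Set.uIcc_of_le hxy] at ht
  obtain ⟨t1, t2⟩ := ht
  have c1 : cos (2 * π * t) ≤ cos (2 * π * x) :=
    Real.cos_le_cos_of_nonneg_of_le_pi (by positivity) (by nlinarith) (by nlinarith)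
  have c2 : cos (2 * π * y) ≤ cos (2 * π * t) :=
    Real.cos_le_cos_of_nonneg_of_le_pi (by
      have : 0 ≤ t := by linarith
      positivity) (by nlinarith) (by nlinarith)
  obtain ⟨a1, a2⟩ := abs_lt.1 hx
  obtain ⟨b1, b2⟩ := abs_lt.1 hy
  unfold L at a1 a2 b1 b2 ⊢
  rw [abs_le]
  rcases le_total 0 a with h | h
  · have k : 0 ≤ 2 * π * a := by positivity
    have d1 := mul_le_mul_of_nonneg_left c1 k
    have d2 := mul_le_mul_of_nonneg_left c2 k
    constructor <;> linarith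
  · have k : 2 * π * a ≤ 0 := by nlinarith
    have d1 := mul_le_mul_of_nonpos_left c1 k
    have d2 := mul_le_mul_of_nonpos_left c2 k
    constructor <;> linarith

theorem fr_lip {a x y : ℝ} (hx0 : 0 ≤ x) (hx1 : x ≤ 1 / 2)
    (hy0 : 0 ≤ y) (hy1 : y ≤ 1 / 2) (hx : |L a x| < 4) (hy : |L a y| < 4) :
    |fr a y - fr a x| ≤ 4 * |y - x| := by
  have h := Convex.norm_image_sub_le_of_norm_hasDerivWithin_le (f := fr a) (f' := L a) (C := 4)
    (s := Set.uIcc x y) (x := x) (y := y) (fun t _ => (fr_deriv a t).hasDerivWithinAt)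
    (fun t ht => by
      rw [Real.norm_eq_abs]
      exact L_mid hx0 hx1 hy0 hy1 hx hy ht) (convex_uIcc x y) Set.left_mem_uIcc Set.right_mem_uIcc
  rwa [Real.norm_eq_abs, Real.norm_eq_abs] at h

/-- the shifted trace is expanding -/
theorem sep2 {a x y z : ℝ} (ha : 4 ≤ |a|) (hx0 : 0 ≤ x) (hx1 : x ≤ 1 / 2)
    (hy0 : 0 ≤ y) (hy1 : y ≤ 1 / 2) (hx : |L a x| < 4) (hy : |L a y| < 4)
    (hx' : 4 ≤ |L a (fr a x - z)|) (hy' : 4 ≤ |L a (fr a y - z)|) :
    2 * |a| * |x - y| ≤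
      |(L a x - 1 / L a (fr a x - z)) - (L a y - 1 / L a (fr a y - z))| := by
  have ha0 : 0 < |a| := by linarith
  have hpi1 := Real.pi_gt_d2
  have hpi2 := Real.pi_lt_d2
  have h1 := sep ha hx0 hx1 hy0 hy1 hx hy
  have h2 := fr_lip hy0 hy1 hx0 hx1 hy hx
  set A := L a (fr a x - z) with hA
  set B := L a (fr a y - z) with hB
  have h3 : |A - B| ≤ 4 * π ^ 2 * |a| * (4 * |x - y|) := by
    refine (L_lip a _ _).trans (mul_le_mul_of_nonneg_left ?_ (by positivity))
    have e : fr a x - z - (fr a y - z) = fr a x - fr a y := by ring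
    rw [e]
    exact h2
  have hA0 : A ≠ 0 := abs_pos.1 (by linarith)
  have hB0 : B ≠ 0 := abs_pos.1 (by linarith)
  have h4 : |1 / A - 1 / B| ≤ π ^ 2 * |a| * |x - y| := by
    have e : 1 / A - 1 / B = -(A - B) / (A * B) := by
      field_simp
      ring
    rw [e, abs_div, abs_neg, abs_mul, div_le_iff₀ (by
      have := abs_pos.2 hA0
      have := abs_pos.2 hB0
      positivity)]
    have h5 : 16 ≤ |A| * |B| := by nlinarith
    have h6 : 0 ≤ π ^ 2 * |a| * |x - y| := by positivity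
    nlinarith
  have e : (L a x - 1 / A) - (L a y - 1 / B) = (L a x - L a y) - (1 / A - 1 / B) := by ring
  rw [e]
  have h7 := abs_sub_abs_le_abs_sub (L a x - L a y) (1 / A - 1 / B)
  have h8 : 2 ≤ 4 * π - π ^ 2 := by nlinarith
  have h9 : 0 ≤ |a| * |x - y| := by positivity
  nlinarith

end Pool.Agent.K7.H81.CU
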