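import Pool.Agent.K7.H81.CUB

set_option autoImplicit false

/-!
# Integrals in one variable
-/

namespace Pool.Agent.K7.H81.CU

open Real MeasureTheory Function Pool.Agent.TH705.SM Pool.Agent.V1152.SMI Pool.Agent.K7.H81.SM

/-- the kernel `1 / (1 + |L|)` -/
noncomputable def gg (a x : ℝ) : ℝ := 1 / (1 + |L a x|)

theorem gg_cont (a : ℝ) : Continuous (gg a) := by
  have := L_cont a
  unfold gg
  apply Continuous.div continuous_const (by fun_prop)
  intro x
  positivity

theorem gg_per (a : ℝ) : Periodic (gg a) 1 := by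
  intro x
  unfold gg
  rw [Lper a x]

theorem gg_nonneg (a x : ℝ) : 0 ≤ gg a x := by
  unfold gg
  positivity

/-- dyadic decomposition -/
theorem dyadic {l : ℝ} (hl : 0 ≤ l) (I : ℕ) :
    1 / (1 + l) ≤ (∑ i ∈ Finset.range I, (1 / 2 ^ i : ℝ) * (if l < 2 ^ (i + 1) then 1 else 0)) +
      1 / 2 ^ I := by
  induction I with
  | zero =>
    simp only [Finset.range_zero, Finset.sum_empty, zero_add, pow_zero, div_one]
    rw [div_le_one (by linarith)]
    linarith
  | succ I ih =>
    rw [Finset.sum_range_succ]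
    have h0 : 0 ≤ ∑ i ∈ Finset.range I, (1 / 2 ^ i : ℝ) * (if l < 2 ^ (i + 1) then 1 else 0) := by
      apply Finset.sum_nonneg
      intro i _
      split_ifs <;> positivity
    by_cases h : l < 2 ^ (I + 1)
    · rw [if_pos h, mul_one]
      have : (0:ℝ) ≤ 1 / 2 ^ (I + 1) := by positivity
      linarith
    · rw [if_neg h, mul_zero, add_zero]
      have h1 : 1 / (1 + l) ≤ 1 / 2 ^ (I + 1) :=
        one_div_le_one_div_of_le (by positivity) (by linarith [not_lt.1 h])
      linarith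

/-- the mean of the kernel -/
theorem gg_int {a : ℝ} (ha : 2 ≤ |a|) :
    ∫ x in (0:ℝ)..1, gg a x ≤ 12 * log |a| / |a| := by
  have ha0 : 0 < |a| := by linarith
  have hlog : 1 / 2 ≤ log |a| := log_two_half.trans (Real.log_le_log (by norm_num) ha)
  have h1 : ∫ x in (0:ℝ)..1, gg a x = ∫ x : UnitAddCircle, 1 / (1 + |cc a x|) := by
    have h2 := UnitAddCircle.intervalIntegral_preimage 0 (fun x : UnitAddCircle => 1 / (1 + |cc a x|))
    rw [zero_add] at h2
    rw [← h2]
    rfl
  rw [h1]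
  set I : ℕ := ⌈3 * log |a|⌉₊ with hI
  have hI1 : (I : ℝ) < 3 * log |a| + 1 := Nat.ceil_lt_add_one (by linarith)
  have hI2 : 3 * log |a| ≤ I := Nat.le_ceil _
  have hI3 : |a| ^ 2 ≤ 2 ^ I := by
    have h1 : (2:ℝ) ^ I = exp (I * log 2) := by
      rw [← Real.rpow_natCast, Real.rpow_def_of_pos (by norm_num), mul_comm]
    have h2 : |a| ^ 2 = exp (2 * log |a|) := by
      rw [two_mul, Real.exp_add, Real.exp_log ha0]
      ring
    rw [h1, h2]
    apply Real.exp_le_exp.2
    have := Real.log_two_gt_d9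
    nlinarith
  have hint : ∀ i : ℕ, Integrable (fun x : UnitAddCircle =>
      (1 / 2 ^ i : ℝ) * {x : UnitAddCircle | |cc a x| < 2 ^ (i + 1)}.indicator (fun _ => (1:ℝ)) x) :=
    fun i => ((integrable_const (1:ℝ)).indicator (strip_meas a _)).const_mul _
  have hpt : ∀ x : UnitAddCircle, 1 / (1 + |cc a x|) ≤ (∑ i ∈ Finset.range I, (1 / 2 ^ i : ℝ) *
      {x : UnitAddCircle | |cc a x| < 2 ^ (i + 1)}.indicator (fun _ => (1:ℝ)) x) + 1 / 2 ^ I := by
    intro x
    refine (dyadic (abs_nonneg (cc a x)) I).trans (le_of_eq ?_)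
    congr 1
  have hgi : Integrable (fun x : UnitAddCircle => 1 / (1 + |cc a x|)) := by
    have hc : Continuous (fun x : UnitAddCircle => 1 / (1 + |cc a x|)) := by
      have := cc_cont a
      apply Continuous.div continuous_const (by fun_prop)
      intro x
      positivity
    exact integrableOn_univ.1 (hc.continuousOn.integrableOn_compact isCompact_univ)
  have hsum : Integrable (fun x : UnitAddCircle => ∑ i ∈ Finset.range I, (1 / 2 ^ i : ℝ) *
      {x : UnitAddCircle | |cc a x| < 2 ^ (i + 1)}.indicator (fun _ => (1:ℝ)) x) :=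
    integrable_finsetSum _ fun i _ => hint i
  have hmono := integral_mono hgi (hsum.add (integrable_const (1 / 2 ^ I : ℝ))) hpt
  rw [integral_add' hsum (integrable_const _), integral_finsetSum _ fun i _ => hint i,
    integral_const, probReal_univ, one_smul] at hmono
  refine hmono.trans ?_
  have h3 : ∀ i ∈ Finset.range I, ∫ x : UnitAddCircle, (1 / 2 ^ i : ℝ) *
      {x : UnitAddCircle | |cc a x| < 2 ^ (i + 1)}.indicator (fun _ => (1:ℝ)) x ≤ 2 / |a| := by
    intro i _
    rw [integral_const_mul, integral_indicator (strip_meas a _), integral_const, smul_eq_mul,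
      mul_one, measureReal_restrict_apply_univ]
    have h4 := strip (a := a) (t := 2 ^ (i + 1)) ha (by positivity)
    calc (1 / 2 ^ i : ℝ) * volume.real {x : UnitAddCircle | |cc a x| < 2 ^ (i + 1)} ≤
          (1 / 2 ^ i : ℝ) * (2 ^ (i + 1) / |a|) := mul_le_mul_of_nonneg_left h4 (by positivity)
      _ = 2 / |a| := by
          rw [pow_succ]
          field_simp
  refine (add_le_add (Finset.sum_le_sum h3) (show (1:ℝ) / 2 ^ I ≤ 1 / |a| ^ 2 from
    one_div_le_one_div_of_le (by positivity) hI3)).trans ?_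
  rw [Finset.sum_const, Finset.card_range, nsmul_eq_mul]
  have h5 : 1 / |a| ^ 2 ≤ 1 / |a| := one_div_le_one_div_of_le ha0 (by nlinarith)
  have h6 : (I : ℝ) * (2 / |a|) ≤ (3 * log |a| + 1) * (2 / |a|) :=
    mul_le_mul_of_nonneg_right hI1.le (by positivity)
  calc (I : ℝ) * (2 / |a|) + 1 / |a| ^ 2 ≤ (3 * log |a| + 1) * (2 / |a|) + 1 / |a| := by linarith
    _ = (6 * log |a| + 3) / |a| := by ring
    _ ≤ _ := by
        apply div_le_div_of_nonneg_right _ ha0.le
        linarith

/-- the mean -/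
noncomputable def gb (a : ℝ) : ℝ := ∫ x in (0:ℝ)..1, gg a x

theorem gb_nonneg (a : ℝ) : 0 ≤ gb a :=
  intervalIntegral.integral_nonneg zero_le_one fun x _ => gg_nonneg a x

/-- the primitive of the centred kernel -/
noncomputable def HH (a u : ℝ) : ℝ := (∫ x in (0:ℝ)..u, gg a x) - u * gb a

theorem HH_deriv (a u : ℝ) : HasDerivAt (HH a) (gg a u - gb a) u := by
  have h1 := ((gg_cont a).integral_hasStrictDerivAt 0 u).hasDerivAt
  have h2 := h1.sub ((hasDerivAt_id u).mul_const (gb a))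
  refine HasDerivAt.congr_deriv (f := HH a) h2 ?_
  ring

theorem HH_cont (a : ℝ) : Continuous (HH a) :=
  continuous_iff_continuousAt.2 fun x => (HH_deriv a x).continuousAt

theorem HH_per (a : ℝ) : Periodic (HH a) 1 := by
  intro u
  unfold HH
  have h1 := intervalIntegral.integral_add_adjacent_intervals
    ((gg_cont a).intervalIntegrable 0 u) ((gg_cont a).intervalIntegrable (μ := volume) u (u + 1))
  have h2 := (gg_per a).intervalIntegral_add_eq u 0
  rw [zero_add] at h2
  rw [← h1, h2]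
  unfold gb
  ring

theorem HH_le (a u : ℝ) : |HH a u| ≤ gb a := by
  obtain ⟨y, ⟨hy0, hy1⟩, he⟩ := (HH_per a).exists_mem_Ico₀ one_pos u
  rw [he]
  unfold HH
  have h1 : 0 ≤ ∫ x in (0:ℝ)..y, gg a x :=
    intervalIntegral.integral_nonneg hy0 fun x _ => gg_nonneg a x
  have h2 : ∫ x in (0:ℝ)..y, gg a x ≤ gb a := by
    have h3 := intervalIntegral.integral_add_adjacent_intervals
      ((gg_cont a).intervalIntegrable 0 y) ((gg_cont a).intervalIntegrable (μ := volume) y 1)
    have h4 : 0 ≤ ∫ x in y..1, gg a x :=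
      intervalIntegral.integral_nonneg hy1.le fun x _ => gg_nonneg a x
    unfold gb
    linarith
  have h3 := gb_nonneg a
  rw [abs_le]
  constructor <;> nlinarith

/-- `√(l² + λ²)` -/
noncomputable def rt (m l : ℝ) : ℝ := √(l ^ 2 + m ^ 2)

theorem rt_pos {m : ℝ} (hm : 0 < m) (l : ℝ) : 0 < rt m l := Real.sqrt_pos.2 (by positivity)

theorem rt_sq (m l : ℝ) : rt m l ^ 2 = l ^ 2 + m ^ 2 := Real.sq_sqrt (by positivity)

theorem rt_ge (m l : ℝ) : m ≤ rt m l := by
  apply Real.le_sqrt_of_sq_le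
  nlinarith [sq_nonneg l]

theorem rt_deriv {m : ℝ} (hm : 0 < m) (l : ℝ) : HasDerivAt (rt m) (l / rt m l) l := by
  have h1 : HasDerivAt (fun l : ℝ => l ^ 2 + m ^ 2) (2 * l) l := by
    have := (hasDerivAt_pow 2 l).add_const (m ^ 2)
    refine this.congr_deriv ?_
    simp
  have h2 := h1.sqrt (show l ^ 2 + m ^ 2 ≠ 0 by positivity)
  refine HasDerivAt.congr_deriv (f := rt m) h2 ?_
  have := rt_pos hm l
  unfold rt at this ⊢
  field_simp

/-- `l / √(l² + λ²)³` -/
noncomputable def ps (m l : ℝ) : ℝ := l / rt m l ^ 3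

/-- its derivative -/
noncomputable def ps' (m l : ℝ) : ℝ := (m ^ 2 - 2 * l ^ 2) / rt m l ^ 5

theorem ps_deriv {m : ℝ} (hm : 0 < m) (l : ℝ) : HasDerivAt (ps m) (ps' m l) l := by
  have hp := rt_pos hm l
  have hp3 : rt m l ^ 3 ≠ 0 := by positivity
  have h1 := (hasDerivAt_id l).div ((rt_deriv hm l).pow 3) hp3
  refine HasDerivAt.congr_deriv (f := ps m) h1 ?_
  unfold ps'
  have hs := rt_sq m l
  simp only [id, Pi.pow_apply]
  field_simp
  have e : m ^ 2 = rt m l ^ 2 - l ^ 2 := by linarith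
  rw [e]
  push_cast
  ring

theorem ps'_le {m : ℝ} (hm : 0 < m) (l : ℝ) : |ps' m l| ≤ 2 / (m * (l ^ 2 + m ^ 2)) := by
  have hp := rt_pos hm l
  have hs := rt_sq m l
  have hg := rt_ge m l
  unfold ps'
  rw [abs_div, abs_of_pos (by positivity : 0 < rt m l ^ 5), ← hs]
  have h1 : |m ^ 2 - 2 * l ^ 2| ≤ 2 * rt m l ^ 2 := by
    rw [hs, abs_le]
    constructor <;> nlinarith [sq_nonneg l, sq_nonneg m]
  rw [div_le_div_iff₀ (by positivity) (by positivity)]
  calc |m ^ 2 - 2 * l ^ 2| * (m * rt m l ^ 2) ≤ 2 * rt m l ^ 2 * (rt m l * rt m l ^ 2) := by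
        gcongr
    _ = 2 * rt m l ^ 5 := by ring

theorem ps_cont {m : ℝ} (hm : 0 < m) : Continuous (ps m) :=
  continuous_iff_continuousAt.2 fun x => (ps_deriv hm x).continuousAt

theorem rt_cont (m : ℝ) : Continuous (rt m) := by
  unfold rt
  fun_prop

theorem ps'_cont {m : ℝ} (hm : 0 < m) : Continuous (ps' m) := by
  have := rt_cont m
  unfold ps'
  apply Continuous.div (by fun_prop) (by fun_prop)
  intro x
  have := rt_pos hm x
  positivity

/-- the weight -/
noncomputable def ww (m l : ℝ) : ℝ := ps m l * l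

theorem ww_cont {m : ℝ} (hm : 0 < m) : Continuous (ww m) := (ps_cont hm).mul continuous_id

theorem ww_nonneg {m : ℝ} (hm : 0 < m) (l : ℝ) : 0 ≤ ww m l := by
  have := rt_pos hm l
  unfold ww ps
  rw [div_mul_eq_mul_div]
  apply div_nonneg (mul_self_nonneg l) (by positivity)

theorem ww_le {m : ℝ} (hm : 1 ≤ m) (l : ℝ) : ww m l ≤ 2 * (1 / (1 + |l|)) := by
  have hm0 : 0 < m := by linarith
  have hp := rt_pos hm0 l
  have hs := rt_sq m l
  have hl := abs_nonneg l
  have h1 : ww m l ≤ 1 / rt m l := by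
    unfold ww ps
    rw [div_mul_eq_mul_div, div_le_div_iff₀ (by positivity) hp]
    have : l * l ≤ rt m l ^ 2 := by
      rw [hs]
      nlinarith
    calc l * l * rt m l ≤ rt m l ^ 2 * rt m l := mul_le_mul_of_nonneg_right this hp.le
      _ = 1 * rt m l ^ 3 := by ring
  refine h1.trans ?_
  rw [mul_one_div, div_le_div_iff₀ hp (by positivity), one_mul]
  have h2 : (1 + |l|) ^ 2 ≤ (2 * rt m l) ^ 2 := by
    rw [mul_pow, hs]
    have : |l| ^ 2 = l ^ 2 := sq_abs l
    nlinarith [sq_nonneg (|l| - 1)]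
  exact le_of_sq_le_sq h2 (by positivity)

theorem ww_ge {m : ℝ} (hm : 0 < m) {l : ℝ} (hl : m ≤ |l|) : 1 / |l| ≤ 3 * ww m l := by
  have hp := rt_pos hm l
  have hs := rt_sq m l
  have hl0 : 0 < |l| := by linarith
  have hll : |l| ^ 2 = l ^ 2 := sq_abs l
  have h1 : rt m l ^ 3 ≤ 3 * |l| ^ 3 := by
    have h2 : (rt m l ^ 3) ^ 2 ≤ (3 * |l| ^ 3) ^ 2 := by
      have h3 : rt m l ^ 2 ≤ 2 * |l| ^ 2 := by
        rw [hs, ← hll]
        nlinarith
      calc (rt m l ^ 3) ^ 2 = (rt m l ^ 2) ^ 3 := by ring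
        _ ≤ (2 * |l| ^ 2) ^ 3 := pow_le_pow_left₀ (by positivity) h3 3
        _ = 8 * |l| ^ 6 := by ring
        _ ≤ 9 * |l| ^ 6 := by
            have : 0 ≤ |l| ^ 6 := by positivity
            linarith
        _ = _ := by ring
    exact le_of_sq_le_sq h2 (by positivity)
  unfold ww ps
  rw [div_mul_eq_mul_div, ← mul_div_assoc, div_le_div_iff₀ hl0 (by positivity)]
  have e : l * l = |l| * |l| := (abs_mul_abs_self l).symm
  rw [e]
  calc 1 * rt m l ^ 3 ≤ 3 * |l| ^ 3 := by linarith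
    _ = 3 * (|l| * |l|) * |l| := by ring

end Pool.Agent.K7.H81.CU
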