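import Pool.Agent.K7.H81.CUC

set_option autoImplicit false

/-!
# The measure of the set of tangencies that are not compensated at once
-/

namespace Pool.Agent.K7.H81.CU

open Real MeasureTheory Function Pool.Agent.TH705.SM Pool.Agent.V1152.SMI Pool.Agent.K7.H81.SM

theorem fr_one (a x : ℝ) : fr a (x + 1) = fr a x + 1 + 1 := by
  unfold fr
  have e1 : 2 * π * (x + 1) = 2 * π * x + 2 * π := by ring
  rw [e1, sin_add_two_pi]
  ring

/-- decorrelation of two consecutive traces -/
theorem key_int {a m : ℝ} (hm : 16 ≤ m) (hma : m ≤ |a|) (c : ℝ) :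
    ∫ x in (0:ℝ)..1, ww m (L a x) * gg a (fr a x - c) ≤
      2 * gb a ^ 2 + 2 * π ^ 2 * gb a / m ^ 2 := by
  have hm0 : 0 < m := by linarith
  have hpi := Real.pi_pos
  set P : ℝ → ℝ := fun x => ps m (L a x) * HH a (fr a x - c) with hP
  set P' : ℝ → ℝ := fun x => ps' m (L a x) * (-(4 * π ^ 2 * a * sin (2 * π * x))) *
    HH a (fr a x - c) + ps m (L a x) * ((gg a (fr a x - c) - gb a) * L a x) with hP'
  have hd : ∀ x, HasDerivAt P (P' x) x := by
    intro x
    have h1 : HasDerivAt (fun x => ps m (L a x))
        (ps' m (L a x) * (-(4 * π ^ 2 * a * sin (2 * π * x)))) x :=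
      (ps_deriv hm0 (L a x)).comp x (L_deriv a x)
    have h2 : HasDerivAt (fun x => HH a (fr a x - c)) ((gg a (fr a x - c) - gb a) * L a x) x := by
      have t1 : HasDerivAt (fun x => fr a x - c) (L a x) x := (fr_deriv a x).sub_const c
      exact HasDerivAt.comp x (h₂ := HH a) (h := fun x => fr a x - c) (HH_deriv a (fr a x - c)) t1
    exact h1.mul h2
  have hLc := L_cont a
  have hfc := fr_cont a
  have c1 : Continuous (fun x => ps' m (L a x)) := (ps'_cont hm0).comp hLc
  have c2 : Continuous (fun x => ps m (L a x)) := (ps_cont hm0).comp hLc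
  have c3 : Continuous (fun x => HH a (fr a x - c)) := (HH_cont a).comp (hfc.sub continuous_const)
  have c4 : Continuous (fun x => gg a (fr a x - c)) := (gg_cont a).comp (hfc.sub continuous_const)
  have c5 : Continuous (fun x => ww m (L a x)) := (ww_cont hm0).comp hLc
  have hPc : Continuous P' := by
    rw [hP']
    fun_prop
  have hPi : ∫ x in (0:ℝ)..1, P' x = 0 := by
    rw [intervalIntegral.integral_eq_sub_of_hasDerivAt (fun x _ => hd x)
      (hPc.intervalIntegrable _ _)]
    have e0 : (1:ℝ) = 0 + 1 := by norm_num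
    have e1 : L a 1 = L a 0 := by
      have := Lper a 0
      rwa [zero_add] at this
    have e2 : fr a 1 = fr a 0 + 1 + 1 := by
      have := fr_one a 0
      rwa [zero_add] at this
    have e3 : HH a (fr a 1 - c) = HH a (fr a 0 - c) := by
      have e4 : fr a 1 - c = (fr a 0 - c) + 1 + 1 := by
        rw [e2]
        ring
      rw [e4, HH_per a _, HH_per a _]
    rw [hP]
    simp only
    rw [e1, e3, sub_self]
  have hpt : ∀ x, ww m (L a x) * gg a (fr a x - c) ≤
      (2 * gb a * gg a x + P' x) + 8 * π ^ 2 / m * gb a * ee a m x := by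
    intro x
    have h1 : ww m (L a x) * gg a (fr a x - c) = gb a * ww m (L a x) + P' x -
        ps' m (L a x) * (-(4 * π ^ 2 * a * sin (2 * π * x))) * HH a (fr a x - c) := by
      rw [hP']
      unfold ww
      ring
    have h2 : gb a * ww m (L a x) ≤ gb a * (2 * (1 / (1 + |L a x|))) :=
      mul_le_mul_of_nonneg_left (ww_le (by linarith) _) (gb_nonneg a)
    have h3 : |ps' m (L a x) * (-(4 * π ^ 2 * a * sin (2 * π * x))) * HH a (fr a x - c)| ≤
        8 * π ^ 2 / m * gb a * ee a m x := by
      rw [abs_mul, abs_mul]
      have t1 := ps'_le hm0 (L a x)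
      have t2 : |(-(4 * π ^ 2 * a * sin (2 * π * x)))| ≤ 4 * π ^ 2 * |a| := by
        rw [abs_neg, abs_mul, abs_mul, abs_of_pos (by positivity : 0 < 4 * π ^ 2)]
        have := Real.abs_sin_le_one (2 * π * x)
        have h4 : 0 ≤ 4 * π ^ 2 * |a| := by positivity
        nlinarith
      have t3 := HH_le a (fr a x - c)
      have hgb := gb_nonneg a
      have hden : 0 < L a x ^ 2 + m ^ 2 := by positivity
      calc _ ≤ 2 / (m * (L a x ^ 2 + m ^ 2)) * (4 * π ^ 2 * |a|) * gb a := by gcongr
        _ = _ := by
            unfold ee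
            field_simp
            ring
    have h4 := (abs_le.1 h3).1
    have h5 : gb a * (2 * (1 / (1 + |L a x|))) = 2 * gb a * gg a x := by
      unfold gg
      ring
    rw [h1]
    linarith
  have hec := ee_cont a hm0
  have hgc := gg_cont a
  have hi1 : IntervalIntegrable (fun x => 2 * gb a * gg a x) volume 0 1 :=
    (continuous_const.mul hgc).intervalIntegrable _ _
  have hi2 : IntervalIntegrable P' volume 0 1 := hPc.intervalIntegrable _ _
  have hi3 : IntervalIntegrable (fun x => 8 * π ^ 2 / m * gb a * ee a m x) volume 0 1 :=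
    (continuous_const.mul hec).intervalIntegrable _ _
  have hmono := intervalIntegral.integral_mono_on (a := 0) (b := 1) (μ := volume) zero_le_one
    ((c5.mul c4).intervalIntegrable _ _) ((hi1.add hi2).add hi3) fun x _ => hpt x
  rw [intervalIntegral.integral_add (hi1.add hi2) hi3, intervalIntegral.integral_add hi1 hi2,
    intervalIntegral.integral_const_mul, intervalIntegral.integral_const_mul, hPi, add_zero]
    at hmono
  refine hmono.trans ?_
  have h6 := ee_int hm hma
  have h7 : 8 * π ^ 2 / m * gb a * ∫ x in (0:ℝ)..1, ee a m x ≤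
      8 * π ^ 2 / m * gb a * (1 / (4 * m)) :=
    mul_le_mul_of_nonneg_left h6 (by
      have := gb_nonneg a
      positivity)
  have h8 : 8 * π ^ 2 / m * gb a * (1 / (4 * m)) = 2 * π ^ 2 * gb a / m ^ 2 := by
    field_simp
    ring
  have h9 : 2 * gb a * ∫ x in (0:ℝ)..1, gg a x = 2 * gb a ^ 2 := by
    change 2 * gb a * gb a = _
    ring
  linarith

/-- the point `1/4` -/
noncomputable def qq : UnitAddCircle := ((1 / 4 : ℝ) : UnitAddCircle)

/-- the density of the bad slices -/
noncomputable def J1 (a : ℝ) (x : UnitAddCircle) : ℝ :=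
  if 4 ≤ |cc a x| then 1 / (|cc a x| * (1 + |cc a (phi a x - qq)|)) else 0

theorem J1_nonneg (a : ℝ) (x : UnitAddCircle) : 0 ≤ J1 a x := by
  unfold J1
  split_ifs
  · positivity
  · exact le_rfl

theorem J1_le (a : ℝ) (x : UnitAddCircle) : J1 a x ≤ 1 / 4 := by
  unfold J1
  split_ifs with h
  · apply one_div_le_one_div_of_le (by norm_num)
    have := abs_nonneg (cc a (phi a x - qq))
    nlinarith
  · norm_num

theorem J1_meas (a : ℝ) : Measurable (J1 a) := by
  have h1 := (cc_cont a).measurable
  have h2 : Measurable fun x => cc a (phi a x - qq) :=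
    ((cc_cont a).comp ((phi_cont a).sub continuous_const)).measurable
  have hs : MeasurableSet {x | 4 ≤ |cc a x|} :=
    (isClosed_le continuous_const (cc_cont a).abs).measurableSet
  unfold J1
  apply Measurable.ite hs _ measurable_const
  exact measurable_const.div ((measurable_norm.comp h1).mul
    (measurable_const.add (measurable_norm.comp h2)))

theorem J1_integrable (a : ℝ) : Integrable (J1 a) :=
  Integrable.of_bound (J1_meas a).aestronglyMeasurable (1 / 4) (Filter.Eventually.of_forall
    fun x => by
      rw [Real.norm_eq_abs, abs_of_nonneg (J1_nonneg a x)]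
      exact J1_le a x)

theorem L_quarter (a : ℝ) : L a (1 / 4) = 2 := by
  unfold L
  have : 2 * π * (1 / 4) = π / 2 := by ring
  rw [this, Real.cos_pi_div_two]
  ring

theorem phi_fr (a x : ℝ) : phi a (x : UnitAddCircle) = ((fr a x : ℝ) : UnitAddCircle) := phi_coe a x

theorem GG_le (a : ℝ) : GG a ≤ π * |a| := by
  unfold GG
  have := Real.abs_sin_le_one (2 * π * a)
  have hpi := Real.pi_pos
  have h : 0 ≤ π * |a| := by positivity
  nlinarith

/-- the mean density of the bad slices -/
theorem J1_int {a : ℝ} (hG : 1024 ≤ GG a) :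
    ∫ x, J1 a x ≤ 10000 * (log |a| ^ 2 / (|a| * GG a)) := by
  have hpi1 := Real.pi_gt_d2
  have hpi2 := Real.pi_lt_d2
  have hGa := GG_le a
  have ha : 4 ≤ |a| := by nlinarith
  have ha0 : 0 < |a| := by linarith
  have hG0 : 0 < GG a := by linarith
  have hlog : 1 / 2 ≤ log |a| := log_two_half.trans (Real.log_le_log (by norm_num) (by linarith))
  set m := √(GG a) / 2 with hm
  have hs : √(GG a) ^ 2 = GG a := Real.sq_sqrt hG0.le
  have hm16 : 16 ≤ m := by
    have : 32 ≤ √(GG a) := by
      apply Real.le_sqrt_of_sq_le
      norm_num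
      exact hG
    rw [hm]
    linarith
  have hm0 : 0 < m := by linarith
  have hm2 : m ^ 2 = GG a / 4 := by
    rw [hm, div_pow, hs]
    norm_num
  have hma : m ≤ |a| := by
    have : m ^ 2 ≤ |a| ^ 2 := by
      rw [hm2]
      nlinarith
    exact le_of_sq_le_sq this ha0.le
  set F : UnitAddCircle → ℝ := fun x => 5 / (4 * GG a) * (1 / (1 + |cc a x|)) +
    3 * (ww m (cc a x) * (1 / (1 + |cc a (phi a x - qq)|))) with hF
  have hcc := cc_cont a
  have hphi := phi_cont a
  have hFc : Continuous F := by
    have d1 : Continuous fun x : UnitAddCircle => 1 / (1 + |cc a x|) := by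
      apply Continuous.div continuous_const (by fun_prop)
      intro x
      positivity
    have d2 : Continuous fun x : UnitAddCircle => 1 / (1 + |cc a (phi a x - qq)|) := by
      apply Continuous.div continuous_const (by fun_prop)
      intro x
      positivity
    have d3 : Continuous fun x : UnitAddCircle => ww m (cc a x) := (ww_cont hm0).comp hcc
    exact (continuous_const.mul d1).add (continuous_const.mul (d3.mul d2))
  have hFi : Integrable F :=
    integrableOn_univ.1 (hFc.continuousOn.integrableOn_compact isCompact_univ)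
  have hpt : ∀ x, J1 a x ≤ F x := by
    intro x
    have hw := ww_nonneg hm0 (cc a x)
    have k1 : 0 ≤ 5 / (4 * GG a) * (1 / (1 + |cc a x|)) := by positivity
    have k2 : 0 ≤ 3 * (ww m (cc a x) * (1 / (1 + |cc a (phi a x - qq)|))) := by positivity
    unfold J1
    split_ifs with h4
    · have hR0 : 0 < |cc a x| := by linarith
      rcases le_total |cc a x| m with h | h
      · have hQ : GG a ≤ |cc a (phi a x - qq)| := by
          clear k1 k2 hw
          induction x using QuotientAddGroup.induction_on with
          | H z =>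
            have h' : |L a z| ≤ m := by
              have e : cc a (z : UnitAddCircle) = L a z := cc_coe a z
              rw [← e]
              exact h
            have e : cc a (phi a (z : UnitAddCircle) - qq) = L a (fr a z - 1 / 4) := by
              unfold qq
              rw [phi_fr, ← AddCircle.coe_sub, cc_coe]
            have h1 := NR1 (a := a) (x0 := 1 / 4) (x1 := z) (by linarith) (by
              rw [L_quarter]
              norm_num) h'
            rw [← e] at h1
            exact h1
        refine le_trans ?_ (le_add_of_nonneg_right k2)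
        rw [mul_one_div, div_div, div_le_div_iff₀ (by positivity) (by positivity)]
        have h5 : 4 * (1 + |cc a x|) ≤ 5 * |cc a x| := by linarith
        have h6 : GG a ≤ 1 + |cc a (phi a x - qq)| := by linarith
        calc 1 * (4 * GG a * (1 + |cc a x|)) = 4 * (1 + |cc a x|) * GG a := by ring
          _ ≤ 5 * |cc a x| * (1 + |cc a (phi a x - qq)|) :=
            mul_le_mul h5 h6 hG0.le (by positivity)
          _ = _ := by ring
      · refine le_trans ?_ (le_add_of_nonneg_left k1)
        have h5 := ww_ge hm0 h
        rw [one_div, mul_inv, ← one_div, ← one_div]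
        have h6 : 0 ≤ 1 / (1 + |cc a (phi a x - qq)|) := by positivity
        calc _ ≤ 3 * ww m (cc a x) * (1 / (1 + |cc a (phi a x - qq)|)) :=
              mul_le_mul_of_nonneg_right h5 h6
          _ = _ := by ring
    · exact add_nonneg k1 k2
  refine (integral_mono (J1_integrable a) hFi hpt).trans ?_
  have e1 := UnitAddCircle.intervalIntegral_preimage 0 F
  rw [zero_add] at e1
  rw [← e1]
  have e2 : ∀ x : ℝ, F (x : UnitAddCircle) = 5 / (4 * GG a) * gg a x +
      3 * (ww m (L a x) * gg a (fr a x - 1 / 4)) := by
    intro x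
    rw [hF]
    simp only
    have e : cc a (phi a (x : UnitAddCircle) - qq) = L a (fr a x - 1 / 4) := by
      unfold qq
      rw [phi_fr, ← AddCircle.coe_sub, cc_coe]
    rw [e, cc_coe]
    rfl
  simp_rw [e2]
  have hLc := L_cont a
  have hfc := fr_cont a
  have c4 : Continuous (fun x => gg a (fr a x - 1 / 4)) :=
    (gg_cont a).comp (hfc.sub continuous_const)
  have c5 : Continuous (fun x => ww m (L a x)) := (ww_cont hm0).comp hLc
  have hi1 : IntervalIntegrable (fun x => 5 / (4 * GG a) * gg a x) volume 0 1 :=
    (continuous_const.mul (gg_cont a)).intervalIntegrable _ _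
  have hi2 : IntervalIntegrable (fun x => 3 * (ww m (L a x) * gg a (fr a x - 1 / 4))) volume 0 1 :=
    (continuous_const.mul (c5.mul c4)).intervalIntegrable _ _
  rw [intervalIntegral.integral_add hi1 hi2, intervalIntegral.integral_const_mul,
    intervalIntegral.integral_const_mul]
  have hk := key_int hm16 hma (1 / 4)
  have hgb := gg_int (a := a) (by linarith)
  have hgb' : gb a ≤ 12 * log |a| / |a| := hgb
  have hgb0 := gb_nonneg a
  have e3 : ∫ x in (0:ℝ)..1, gg a x = gb a := rfl
  rw [e3]
  rw [hm2] at hk
  have h1 : 2 * π ^ 2 * gb a / (GG a / 4) ≤ 80 * gb a / GG a := by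
    have : 2 * π ^ 2 * gb a / (GG a / 4) = 8 * π ^ 2 * gb a / GG a := by
      field_simp
      ring
    rw [this]
    apply div_le_div_of_nonneg_right _ hG0.le
    apply mul_le_mul_of_nonneg_right _ hgb0
    nlinarith
  have h2 : gb a ≤ 48 * log |a| / GG a := by
    refine hgb'.trans ?_
    rw [div_le_div_iff₀ ha0 hG0]
    have : GG a ≤ 4 * |a| := by nlinarith
    calc 12 * log |a| * GG a ≤ 12 * log |a| * (4 * |a|) :=
          mul_le_mul_of_nonneg_left this (by positivity)
      _ = _ := by ring
  have h3 : gb a ^ 2 ≤ gb a * (48 * log |a| / GG a) := by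
    rw [sq]
    exact mul_le_mul_of_nonneg_left h2 hgb0
  calc 5 / (4 * GG a) * gb a + 3 * ∫ x in (0:ℝ)..1, ww m (L a x) * gg a (fr a x - 1 / 4) ≤
        5 / (4 * GG a) * gb a + 3 * (2 * (gb a * (48 * log |a| / GG a)) + 80 * gb a / GG a) := by
          linarith
    _ = gb a * ((5 / 4 + 288 * log |a| + 240) / GG a) := by
        field_simp
        ring
    _ ≤ 12 * log |a| / |a| * (800 * log |a| / GG a) := by
        apply mul_le_mul hgb' _ (by positivity) (by positivity)
        apply div_le_div_of_nonneg_right _ hG0.le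
        linarith
    _ = 9600 * (log |a| ^ 2 / (|a| * GG a)) := by
        field_simp
        ring
    _ ≤ _ := by
        have : 0 ≤ log |a| ^ 2 / (|a| * GG a) := by positivity
        linarith

end Pool.Agent.K7.H81.CU
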