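import Pool.Agent.K7.H81.CUD

set_option autoImplicit false

/-!
# Slices
-/

namespace Pool.Agent.K7.H81.CU

open Real MeasureTheory Function Pool.Agent.TH705.SM Pool.Agent.V1152.SMI Pool.Agent.K7.H81.SM

theorem circ_le {B : Set UnitAddCircle} (hB : MeasurableSet B) {r1 r2 : ℝ} (h1 : 0 ≤ r1)
    (h2 : 0 ≤ r2)
    (H1 : ∀ x y : ℝ, 0 ≤ x → x ≤ 1 / 2 → 0 ≤ y → y ≤ 1 / 2 → (x : UnitAddCircle) ∈ B →
      (y : UnitAddCircle) ∈ B → |x - y| ≤ r1)
    (H2 : ∀ x y : ℝ, 0 ≤ x → x ≤ 1 / 2 → 0 ≤ y → y ≤ 1 / 2 → ((-x : ℝ) : UnitAddCircle) ∈ B →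
      ((-y : ℝ) : UnitAddCircle) ∈ B → |x - y| ≤ r2) :
    volume B ≤ ENNReal.ofReal (r1 + r2) := by
  have hmp := UnitAddCircle.measurePreserving_mk 0
  rw [zero_add] at hmp
  have e1 : volume B = volume ({x : ℝ | (x : UnitAddCircle) ∈ B} ∩ Set.Ioc 0 1) := by
    rw [← hmp.measure_preimage hB.nullMeasurableSet,
      Measure.restrict_apply (hmp.measurable hB)]
    rfl
  have e2 : {x : ℝ | (x : UnitAddCircle) ∈ B} ∩ Set.Ioc 0 1 ⊆
      {x : ℝ | (x : UnitAddCircle) ∈ B ∧ 0 ≤ x ∧ x ≤ 1 / 2} ∪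
      {x : ℝ | (x : UnitAddCircle) ∈ B ∧ 1 / 2 ≤ x ∧ x ≤ 1} := by
    rintro x ⟨hx, hx0, hx1⟩
    rcases le_total x (1 / 2) with h | h
    · exact Or.inl ⟨hx, hx0.le, h⟩
    · exact Or.inr ⟨hx, h, hx1⟩
  have vb : ∀ {s : Set ℝ} {r : ℝ}, (∀ x ∈ s, ∀ y ∈ s, |x - y| ≤ r) →
      volume s ≤ ENNReal.ofReal r := by
    intro s r hs
    refine (Real.volume_le_diam s).trans ?_
    apply Metric.ediam_le
    intro x hx y hy
    rw [edist_dist, Real.dist_eq]
    exact ENNReal.ofReal_le_ofReal (hs x hx y hy)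
  have h3 := vb (s := {x : ℝ | (x : UnitAddCircle) ∈ B ∧ 0 ≤ x ∧ x ≤ 1 / 2}) (r := r1)
    (fun x hx y hy => H1 x y hx.2.1 hx.2.2 hy.2.1 hy.2.2 hx.1 hy.1)
  have hcoe : ∀ x : ℝ, ((-(1 - x) : ℝ) : UnitAddCircle) = (x : UnitAddCircle) := by
    intro x
    have e : x = -(1 - x) + 1 := by ring
    conv_rhs => rw [e, AddCircle.coe_add, AddCircle.coe_period, add_zero]
  have h4 := vb (s := {x : ℝ | (x : UnitAddCircle) ∈ B ∧ 1 / 2 ≤ x ∧ x ≤ 1}) (r := r2)
    (fun x hx y hy => by
      have := H2 (1 - x) (1 - y) (by linarith [hx.2.2]) (by linarith [hx.2.1])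
        (by linarith [hy.2.2]) (by linarith [hy.2.1]) (by rw [hcoe]; exact hx.1)
        (by rw [hcoe]; exact hy.1)
      have e : 1 - x - (1 - y) = -(x - y) := by ring
      rwa [e, abs_neg] at this)
  rw [e1, ENNReal.ofReal_add h1 h2]
  exact (measure_mono e2).trans ((measure_union_le _ _).trans (add_le_add h3 h4))

/-- the trace at the previous point -/
noncomputable def Lf (a : ℝ) (q : T2) : ℝ := cc a (phi a q.2 - q.1)

/-- the trace at the next point -/
noncomputable def Qf (a : ℝ) (q : T2) : ℝ := cc a (phi a q.1 - q.2)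

/-- uncompensated tangencies -/
def ZR (a : ℝ) : Set T2 := {q | |cc a q.2| < 4 ∧ 4 ≤ |Lf a q| ∧ 4 ≤ |cc a q.1| ∧
  |cc a q.2 - 1 / Lf a q - 1 / cc a q.1| < 32 / (|cc a q.1| * (1 + |Qf a q|))}

/-- double tangencies -/
def ZB (a : ℝ) : Set T2 := {q | |cc a q.2| < 4 ∧ |cc a q.1| < 4 ∧
  |cc a q.2 * cc a q.1 - 1| < 60 / GG a}

theorem Lf_cont (a : ℝ) : Continuous (Lf a) := by
  have h1 := cc_cont a
  have h2 := phi_cont a
  unfold Lf
  fun_prop

theorem Qf_cont (a : ℝ) : Continuous (Qf a) := by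
  have h1 := cc_cont a
  have h2 := phi_cont a
  unfold Qf
  fun_prop

theorem ZR_meas (a : ℝ) : MeasurableSet (ZR a) := by
  have h1 : Continuous fun q : T2 => cc a q.1 := (cc_cont a).comp continuous_fst
  have h2 : Continuous fun q : T2 => cc a q.2 := (cc_cont a).comp continuous_snd
  have h3 := Lf_cont a
  have h4 := Qf_cont a
  have m1 : MeasurableSet {q : T2 | |cc a q.2| < 4} :=
    (isOpen_lt h2.abs continuous_const).measurableSet
  have m2 : MeasurableSet {q : T2 | 4 ≤ |Lf a q|} :=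
    (isClosed_le continuous_const h3.abs).measurableSet
  have m3 : MeasurableSet {q : T2 | 4 ≤ |cc a q.1|} :=
    (isClosed_le continuous_const h1.abs).measurableSet
  have m4 : MeasurableSet {q : T2 | |cc a q.2 - 1 / Lf a q - 1 / cc a q.1| <
      32 / (|cc a q.1| * (1 + |Qf a q|))} := by
    apply measurableSet_lt
    · exact measurable_norm.comp ((h2.measurable.sub (measurable_const.div h3.measurable)).sub
        (measurable_const.div h1.measurable))
    · exact measurable_const.div ((measurable_norm.comp h1.measurable).mul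
        (measurable_const.add (measurable_norm.comp h4.measurable)))
  exact m1.inter (m2.inter (m3.inter m4))

theorem ZB_meas (a : ℝ) : MeasurableSet (ZB a) := by
  have h1 : Continuous fun q : T2 => cc a q.1 := (cc_cont a).comp continuous_fst
  have h2 : Continuous fun q : T2 => cc a q.2 := (cc_cont a).comp continuous_snd
  have m1 : MeasurableSet {q : T2 | |cc a q.2| < 4} :=
    (isOpen_lt h2.abs continuous_const).measurableSet
  have m3 : MeasurableSet {q : T2 | |cc a q.1| < 4} :=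
    (isOpen_lt h1.abs continuous_const).measurableSet
  have m4 : MeasurableSet {q : T2 | |cc a q.2 * cc a q.1 - 1| < 60 / GG a} :=
    (isOpen_lt ((h2.mul h1).sub continuous_const).abs continuous_const).measurableSet
  exact m1.inter (m3.inter m4)

theorem L_neg (a x : ℝ) : L a (-x) = L a x := by
  unfold L
  have : 2 * π * -x = -(2 * π * x) := by ring
  rw [this, Real.cos_neg]

theorem fr_neg (a x : ℝ) : fr a (-x) = -fr a x := by
  unfold fr
  have : 2 * π * -x = -(2 * π * x) := by ring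
  rw [this, Real.sin_neg]
  ring

/-- the real form of `ZR` -/
def ZRr (a z x : ℝ) : Prop := |L a x| < 4 ∧ 4 ≤ |L a (fr a x - z)| ∧ 4 ≤ |L a z| ∧
  |L a x - 1 / L a (fr a x - z) - 1 / L a z| < 32 / (|L a z| * (1 + |L a (fr a z - x)|))

theorem ZR_coe (a z x : ℝ) : ((z : UnitAddCircle), (x : UnitAddCircle)) ∈ ZR a ↔ ZRr a z x := by
  have e1 : Lf a ((z : UnitAddCircle), (x : UnitAddCircle)) = L a (fr a x - z) := by
    unfold Lf
    show cc a (phi a (x : UnitAddCircle) - (z : UnitAddCircle)) = _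
    rw [phi_fr, ← AddCircle.coe_sub, cc_coe]
  have e2 : Qf a ((z : UnitAddCircle), (x : UnitAddCircle)) = L a (fr a z - x) := by
    unfold Qf
    show cc a (phi a (z : UnitAddCircle) - (x : UnitAddCircle)) = _
    rw [phi_fr, ← AddCircle.coe_sub, cc_coe]
  unfold ZR ZRr
  rw [Set.mem_ofPred_eq, e1, e2]
  simp only [cc_coe]

theorem ZRr_neg {a z x : ℝ} (h : ZRr a z (-x)) : ZRr a (-z) x := by
  unfold ZRr at h ⊢
  have e1 : L a (fr a (-x) - z) = L a (fr a x - -z) := by
    rw [fr_neg, ← L_neg]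
    congr 1
    ring
  have e2 : L a (fr a z - -x) = L a (fr a (-z) - x) := by
    rw [fr_neg, ← L_neg]
    congr 1
    ring
  rw [L_neg, e1, e2] at h
  rw [L_neg a z]
  exact h

theorem half_R {a z x y : ℝ} (ha : 4 ≤ |a|) (hx0 : 0 ≤ x) (hx1 : x ≤ 1 / 2)
    (hy0 : 0 ≤ y) (hy1 : y ≤ 1 / 2) (hx : ZRr a z x) (hy : ZRr a z y) :
    |x - y| ≤ 640 / |a| * (1 / (|L a z| * (1 + |L a (fr a z - 1 / 4)|))) := by
  have ha0 : 0 < |a| := by linarith
  have hpi := Real.pi_pos
  have hpi2 := Real.pi_lt_d2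
  obtain ⟨x1, x2, x3, x4⟩ := hx
  obtain ⟨y1, y2, y3, y4⟩ := hy
  have hR0 : 0 < |L a z| := by linarith
  set q := |L a (fr a z - 1 / 4)| with hq
  have hq0 : 0 ≤ q := abs_nonneg _
  have hQ : ∀ t, 0 ≤ t → t ≤ 1 / 2 → |L a t| < 4 →
      32 / (|L a z| * (1 + |L a (fr a z - t)|)) ≤ 640 / (|L a z| * (1 + q)) := by
    intro t t0 t1 t2
    have h1 := sep ha t0 t1 (by norm_num : (0:ℝ) ≤ 1 / 4) (by norm_num) t2 (by
      rw [L_quarter]
      norm_num)
    rw [L_quarter] at h1
    have h2 : |L a t - 2| ≤ 6 := by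
      have := abs_sub (L a t) 2
      rw [abs_of_pos (by norm_num : (0:ℝ) < 2)] at this
      linarith
    have h3 := L_lip a (fr a z - 1 / 4) (fr a z - t)
    have e : fr a z - 1 / 4 - (fr a z - t) = t - 1 / 4 := by ring
    rw [e] at h3
    have h4 : |L a (fr a z - 1 / 4) - L a (fr a z - t)| ≤ 19 := by
      refine h3.trans ?_
      have : 4 * π ^ 2 * |a| * |t - 1 / 4| = π * (4 * π * |a| * |t - 1 / 4|) := by ring
      rw [this]
      nlinarith
    have h5 := abs_sub_abs_le_abs_sub (L a (fr a z - 1 / 4)) (L a (fr a z - t))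
    have h6 := abs_nonneg (L a (fr a z - t))
    have h7 : 1 + q ≤ 20 * (1 + |L a (fr a z - t)|) := by linarith
    rw [div_le_div_iff₀ (by positivity) (by positivity)]
    calc 32 * (|L a z| * (1 + q)) ≤ 32 * (|L a z| * (20 * (1 + |L a (fr a z - t)|))) := by gcongr
      _ = _ := by ring
  have hx5 := x4.trans_le (hQ x hx0 hx1 x1)
  have hy5 := y4.trans_le (hQ y hy0 hy1 y1)
  have h1 := sep2 ha hx0 hx1 hy0 hy1 x1 y1 x2 y2
  have h2 : |(L a x - 1 / L a (fr a x - z)) - (L a y - 1 / L a (fr a y - z))| ≤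
      |L a x - 1 / L a (fr a x - z) - 1 / L a z| + |L a y - 1 / L a (fr a y - z) - 1 / L a z| := by
    have := abs_sub (L a x - 1 / L a (fr a x - z) - 1 / L a z)
      (L a y - 1 / L a (fr a y - z) - 1 / L a z)
    have e : L a x - 1 / L a (fr a x - z) - 1 / L a z -
        (L a y - 1 / L a (fr a y - z) - 1 / L a z) =
        (L a x - 1 / L a (fr a x - z)) - (L a y - 1 / L a (fr a y - z)) := by ring
    rwa [e] at this
  have h3 : 2 * |a| * |x - y| ≤ 2 * (640 / (|L a z| * (1 + q))) := by linarith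
  have h4 : |a| * |x - y| ≤ 640 / (|L a z| * (1 + q)) := by linarith
  have e : 640 / |a| * (1 / (|L a z| * (1 + q))) = 640 / (|L a z| * (1 + q)) / |a| := by
    field_simp
  rw [e, le_div_iff₀ ha0, mul_comm]
  exact h4

theorem slice_R {a : ℝ} (ha : 4 ≤ |a|) (z : UnitAddCircle) :
    volume (Prod.mk z ⁻¹' ZR a) ≤ ENNReal.ofReal (640 / |a| * J1 a z + 640 / |a| * J1 a (-z)) := by
  have ha0 : 0 < |a| := by linarith
  have hB : MeasurableSet (Prod.mk z ⁻¹' ZR a) := measurable_prodMk_left (ZR_meas a)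
  induction z using QuotientAddGroup.induction_on with
  | H z =>
    have n1 := J1_nonneg a (z : UnitAddCircle)
    have n2 := J1_nonneg a (-(z : UnitAddCircle))
    have key : ∀ w : ℝ, 4 ≤ |L a w| →
        J1 a (w : UnitAddCircle) = 1 / (|L a w| * (1 + |L a (fr a w - 1 / 4)|)) := by
      intro w hw
      unfold J1 qq
      rw [phi_fr, ← AddCircle.coe_sub, cc_coe, cc_coe, if_pos hw]
    refine circ_le hB (by positivity) (by positivity) ?_ ?_
    · intro x y hx0 hx1 hy0 hy1 hx hy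
      have hx' : ZRr a z x := (ZR_coe a z x).1 hx
      have hy' : ZRr a z y := (ZR_coe a z y).1 hy
      have := key z hx'.2.2.1
      show _ ≤ 640 / |a| * J1 a (z : UnitAddCircle)
      rw [this]
      exact half_R ha hx0 hx1 hy0 hy1 hx' hy'
    · intro x y hx0 hx1 hy0 hy1 hx hy
      have hx' : ZRr a (-z) x := ZRr_neg ((ZR_coe a z (-x)).1 hx)
      have hy' : ZRr a (-z) y := ZRr_neg ((ZR_coe a z (-y)).1 hy)
      have := key (-z) hx'.2.2.1
      have e : (-(z : UnitAddCircle)) = ((-z : ℝ) : UnitAddCircle) := (AddCircle.coe_neg 1).symm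
      show _ ≤ 640 / |a| * J1 a (-(z : UnitAddCircle))
      rw [e, this]
      exact half_R ha hx0 hx1 hy0 hy1 hx' hy'

/-- the measure of the uncompensated tangencies -/
theorem vol_R {a : ℝ} (hG : 1024 ≤ GG a) :
    volume (ZR a) ≤ ENNReal.ofReal (12800000 * (log |a| ^ 2 / (|a| ^ 2 * GG a))) := by
  have hpi2 := Real.pi_lt_d2
  have hpi1 := Real.pi_gt_d2
  have hGa := GG_le a
  have ha : 4 ≤ |a| := by nlinarith
  have ha0 : 0 < |a| := by linarith
  have hG0 : 0 < GG a := by linarith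
  have hi := J1_integrable a
  have hi2 : Integrable fun z : UnitAddCircle => J1 a (-z) := hi.comp_neg
  have hF : Integrable fun z : UnitAddCircle => 640 / |a| * J1 a z + 640 / |a| * J1 a (-z) :=
    (hi.const_mul _).add (hi2.const_mul _)
  rw [vol_T2, Measure.prod_apply (ZR_meas a)]
  refine (lintegral_mono fun z => slice_R ha z).trans ?_
  rw [← ofReal_integral_eq_lintegral_ofReal hF (Filter.Eventually.of_forall fun z => by
    have n1 := J1_nonneg a z
    have n2 := J1_nonneg a (-z)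
    show (0:ℝ) ≤ 640 / |a| * J1 a z + 640 / |a| * J1 a (-z)
    positivity)]
  apply ENNReal.ofReal_le_ofReal
  rw [integral_add (hi.const_mul _) (hi2.const_mul _), integral_const_mul, integral_const_mul,
    integral_neg_eq_self (fun z => J1 a z)]
  have h1 := J1_int hG
  have h2 : 640 / |a| * ∫ z, J1 a z ≤ 640 / |a| * (10000 * (log |a| ^ 2 / (|a| * GG a))) :=
    mul_le_mul_of_nonneg_left h1 (by positivity)
  have e : 640 / |a| * (10000 * (log |a| ^ 2 / (|a| * GG a))) =
      6400000 * (log |a| ^ 2 / (|a| ^ 2 * GG a)) := by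
    field_simp
    ring
  rw [e] at h2
  linarith

end Pool.Agent.K7.H81.CU
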