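import Pool.Agent.K7.H81.CUE

set_option autoImplicit false

/-!
# The bad set and the condition at a critical passage
-/

namespace Pool.Agent.K7.H81.CU

open Real MeasureTheory Function Pool.Agent.TH705.SM Pool.Agent.V1152.SMI Pool.Agent.K7.H81.SM

theorem half_B {a z x y : ℝ} (hG : 1024 ≤ GG a) (ha : 4 ≤ |a|) (hx0 : 0 ≤ x) (hx1 : x ≤ 1 / 2)
    (hy0 : 0 ≤ y) (hy1 : y ≤ 1 / 2) (hx : |L a x| < 4) (hy : |L a y| < 4)
    (hx' : |L a x * L a z - 1| < 60 / GG a) (hy' : |L a y * L a z - 1| < 60 / GG a) :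
    |x - y| ≤ 80 / (GG a * |a|) := by
  have hpi := Real.pi_gt_three
  have ha0 : 0 < |a| := by linarith
  have hG0 : 0 < GG a := by linarith
  have hk : 60 / GG a < 1 / 2 := by
    rw [div_lt_iff₀ hG0]
    linarith
  have h1 : 1 / 2 < |L a x * L a z| := by
    have := abs_sub_abs_le_abs_sub 1 (1 - L a x * L a z)
    rw [abs_one, sub_sub_cancel, abs_sub_comm 1] at this
    linarith
  rw [abs_mul] at h1
  have hz := abs_nonneg (L a z)
  have h2 : 1 / 8 ≤ |L a z| := by nlinarith
  have h3 : |L a z| * |L a x - L a y| ≤ 120 / GG a := by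
    rw [← abs_mul]
    have := abs_sub (L a x * L a z - 1) (L a y * L a z - 1)
    have e : L a x * L a z - 1 - (L a y * L a z - 1) = L a z * (L a x - L a y) := by ring
    rw [e] at this
    have e2 : 120 / GG a = 60 / GG a + 60 / GG a := by ring
    linarith
  have h4 : |L a x - L a y| ≤ 960 / GG a := by
    have e2 : 960 / GG a = 8 * (120 / GG a) := by ring
    rw [e2]
    have := abs_nonneg (L a x - L a y)
    nlinarith
  have h5 := sep ha hx0 hx1 hy0 hy1 hx hy
  have h6 : |a| * |x - y| ≤ 80 / GG a := by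
    have e2 : 80 / GG a = 960 / GG a / 12 := by ring
    rw [e2]
    have h7 : 0 ≤ |a| * |x - y| := by positivity
    nlinarith
  have e : 80 / (GG a * |a|) = 80 / GG a / |a| := by field_simp
  rw [e, le_div_iff₀ ha0, mul_comm]
  exact h6

theorem slice_B {a : ℝ} (hG : 1024 ≤ GG a) (ha : 4 ≤ |a|) (z : UnitAddCircle) :
    volume (Prod.mk z ⁻¹' ZB a) ≤ ENNReal.ofReal (160 / (GG a * |a|) *
      {x : UnitAddCircle | |cc a x| < 4}.indicator (fun _ => (1:ℝ)) z) := by
  have ha0 : 0 < |a| := by linarith
  have hG0 : 0 < GG a := by linarith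
  have hB : MeasurableSet (Prod.mk z ⁻¹' ZB a) := measurable_prodMk_left (ZB_meas a)
  by_cases hz : |cc a z| < 4
  · rw [Set.indicator_of_mem (show z ∈ {x : UnitAddCircle | |cc a x| < 4} from hz), mul_one]
    have e : 160 / (GG a * |a|) = 80 / (GG a * |a|) + 80 / (GG a * |a|) := by ring
    rw [e]
    clear hz
    induction z using QuotientAddGroup.induction_on with
    | H z =>
      have hmem : ∀ x : ℝ, ((z : UnitAddCircle), (x : UnitAddCircle)) ∈ ZB a →
          |L a x| < 4 ∧ |L a x * L a z - 1| < 60 / GG a := by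
        rintro x ⟨h1, h2, h3⟩
        simp only [cc_coe] at h1 h2 h3
        exact ⟨h1, h3⟩
      refine circ_le hB (by positivity) (by positivity) ?_ ?_
      · intro x y hx0 hx1 hy0 hy1 hx hy
        obtain ⟨a1, a2⟩ := hmem x hx
        obtain ⟨b1, b2⟩ := hmem y hy
        exact half_B hG ha hx0 hx1 hy0 hy1 a1 b1 a2 b2
      · intro x y hx0 hx1 hy0 hy1 hx hy
        obtain ⟨a1, a2⟩ := hmem (-x) hx
        obtain ⟨b1, b2⟩ := hmem (-y) hy
        rw [L_neg] at a1 a2 b1 b2
        exact half_B hG ha hx0 hx1 hy0 hy1 a1 b1 a2 b2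
  · have : Prod.mk z ⁻¹' ZB a = ∅ := by
      ext y
      simp only [Set.mem_preimage, Set.mem_empty_iff_false, iff_false]
      rintro ⟨h1, h2, h3⟩
      exact hz h2
    rw [this, measure_empty]
    exact zero_le

theorem vol_B {a : ℝ} (hG : 1024 ≤ GG a) :
    volume (ZB a) ≤ ENNReal.ofReal (640 / (|a| ^ 2 * GG a)) := by
  have hpi2 := Real.pi_lt_d2
  have hGa := GG_le a
  have hpi1 := Real.pi_gt_d2
  have ha : 4 ≤ |a| := by nlinarith
  have ha0 : 0 < |a| := by linarith
  have hG0 : 0 < GG a := by linarith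
  have hms := strip_meas a 4
  have hF : Integrable fun z : UnitAddCircle => 160 / (GG a * |a|) *
      {x : UnitAddCircle | |cc a x| < 4}.indicator (fun _ => (1:ℝ)) z :=
    ((integrable_const (1:ℝ)).indicator hms).const_mul _
  rw [vol_T2, Measure.prod_apply (ZB_meas a)]
  refine (lintegral_mono fun z => slice_B hG ha z).trans ?_
  rw [← ofReal_integral_eq_lintegral_ofReal hF (Filter.Eventually.of_forall fun z => by
    have h4 : (0:ℝ) ≤ {x : UnitAddCircle | |cc a x| < 4}.indicator (fun _ => (1:ℝ)) z :=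
      Set.indicator_nonneg (fun _ _ => zero_le_one) z
    show (0:ℝ) ≤ 160 / (GG a * |a|) *
      {x : UnitAddCircle | |cc a x| < 4}.indicator (fun _ => (1:ℝ)) z
    positivity)]
  apply ENNReal.ofReal_le_ofReal
  rw [integral_const_mul, integral_indicator hms, integral_const, smul_eq_mul,
    mul_one, measureReal_restrict_apply_univ]
  have h4 := strip (a := a) (t := 4) (by linarith) (by norm_num)
  calc 160 / (GG a * |a|) * volume.real {x : UnitAddCircle | |cc a x| < 4} ≤
      160 / (GG a * |a|) * (4 / |a|) := mul_le_mul_of_nonneg_left h4 (by positivity)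
    _ = _ := by
        field_simp
        ring

/-- the reversing involution -/
noncomputable def io (a : ℝ) (q : T2) : T2 := (phi a q.2 - q.1, q.2)

theorem io_mp (a : ℝ) : MeasurePreserving (io a) volume volume := by
  have h1 : MeasurePreserving (fun p : T2 => (p.1, phi a p.1 - p.2))
      ((volume : Measure UnitAddCircle).prod volume) ((volume : Measure UnitAddCircle).prod volume) := by
    refine MeasurePreserving.skew_product (f := id)
      (g := fun (x : UnitAddCircle) (y : UnitAddCircle) => phi a x - y) (MeasurePreserving.id _) ?_ ?_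
    · have := phi_cont a
      apply Continuous.measurable
      unfold Function.uncurry
      fun_prop
    · refine Filter.Eventually.of_forall fun x => ?_
      exact (Measure.measurePreserving_sub_left volume (phi a x)).map_eq
  have h2 : MeasurePreserving (Prod.swap : T2 → T2)
      ((volume : Measure UnitAddCircle).prod volume) ((volume : Measure UnitAddCircle).prod volume) :=
    Measure.measurePreserving_swap
  exact h2.comp (h1.comp h2)

theorem Lf_io (a : ℝ) (q : T2) : Lf a (io a q) = cc a q.1 := by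
  unfold Lf io
  simp

/-- the bad set -/
def Zb (a : ℝ) : Set T2 := ZR a ∪ (io a ⁻¹' ZR a ∪ ZB a)

theorem Zb_meas (a : ℝ) : MeasurableSet (Zb a) :=
  (ZR_meas a).union (((io_mp a).measurable (ZR_meas a)).union (ZB_meas a))

theorem vol_Zb {a : ℝ} (hG : 1024 ≤ GG a) :
    volume.real (Zb a) ≤ 30000000 * (log |a| ^ 2 / (|a| ^ 2 * GG a)) := by
  have hpi2 := Real.pi_lt_d2
  have hpi1 := Real.pi_gt_d2
  have hGa := GG_le a
  have ha : 4 ≤ |a| := by nlinarith
  have ha0 : 0 < |a| := by linarith
  have hG0 : 0 < GG a := by linarith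
  have hlog : 1 / 2 ≤ log |a| := log_two_half.trans (Real.log_le_log (by norm_num) (by linarith))
  have h1 := vol_R hG
  have h2 := vol_B hG
  have h3 : volume (io a ⁻¹' ZR a) ≤
      ENNReal.ofReal (12800000 * (log |a| ^ 2 / (|a| ^ 2 * GG a))) := by
    rw [(io_mp a).measure_preimage (ZR_meas a).nullMeasurableSet]
    exact h1
  set X := log |a| ^ 2 / (|a| ^ 2 * GG a) with hX
  have hX0 : 0 ≤ X := by positivity
  have h4 : 640 / (|a| ^ 2 * GG a) ≤ 2560 * X := by
    rw [hX, ← mul_div_assoc]
    apply div_le_div_of_nonneg_right _ (by positivity)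
    nlinarith
  have h5 : volume (Zb a) ≤ ENNReal.ofReal (30000000 * X) := by
    unfold Zb
    refine (measure_union_le _ _).trans ((add_le_add h1 ((measure_union_le _ _).trans
      (add_le_add h3 h2))).trans ?_)
    rw [← ENNReal.ofReal_add (by positivity) (by positivity),
      ← ENNReal.ofReal_add (by positivity) (by positivity)]
    apply ENNReal.ofReal_le_ofReal
    linarith
  exact ENNReal.toReal_le_of_le_ofReal (by positivity) h5

theorem NRc {a : ℝ} (hG : 1024 ≤ GG a) {q : T2} (h1 : |cc a q.1| < 4) (h2 : |cc a q.2| < 4) :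
    GG a ≤ |Qf a q| := by
  obtain ⟨q1, q2⟩ := q
  have hs : 4 ≤ √(GG a) / 2 := by
    have : 8 ≤ √(GG a) := by
      apply Real.le_sqrt_of_sq_le
      norm_num
      linarith
    linarith
  induction q1 using QuotientAddGroup.induction_on with
  | H x =>
    induction q2 using QuotientAddGroup.induction_on with
    | H y =>
      have e1 : cc a (x : UnitAddCircle) = L a x := cc_coe a x
      have e2 : cc a (y : UnitAddCircle) = L a y := cc_coe a y
      have e3 : Qf a ((x : UnitAddCircle), (y : UnitAddCircle)) = L a (fr a x - y) := by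
        unfold Qf
        show cc a (phi a (x : UnitAddCircle) - (y : UnitAddCircle)) = _
        rw [phi_fr, ← AddCircle.coe_sub, cc_coe]
      have h1' : |L a x| < 4 := by
        rw [← e1]
        exact h1
      have h2' : |L a y| < 4 := by
        rw [← e2]
        exact h2
      have := NR1 (by linarith) h2' (h1'.le.trans hs)
      rw [← e3] at this
      exact this

/-- **The condition at a critical passage holds outside the bad set.** -/
theorem Ctr_of {a : ℝ} (hG : 1024 ≤ GG a) (p : T2) (c : ℕ) (h : (S a)^[c + 2] p ∉ Zb a) :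
    Ctr (GG a) (fun j => cc a ((S a)^[j] p).2) c := by
  set r : T2 := (S a)^[c] p with hr
  have e1 : (S a)^[c + 1] p = S a r := iterate_succ_apply' (S a) c p
  have e2 : (S a)^[c + 2] p = S a (S a r) := by
    rw [iterate_succ_apply', e1]
  set q : T2 := (S a)^[c + 2] p with hq
  have e3 : (S a)^[c + 3] p = S a q := iterate_succ_apply' (S a) (c + 2) p
  have e4 : (S a)^[c + 4] p = S a (S a q) := by
    rw [iterate_succ_apply', e3]
  have q1 : phi a q.2 - q.1 = r.1 := by
    rw [e2]
    unfold S
    simp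
  have s0 : cc a r.2 = Qf a (io a q) := by
    unfold Qf io
    simp only
    rw [q1]
    congr 1
    rw [e2]
    unfold S
    simp
  have s1 : cc a ((S a)^[c + 1] p).2 = Lf a q := by
    rw [e1]
    unfold Lf
    rw [q1]
    rfl
  have s3 : cc a ((S a)^[c + 3] p).2 = cc a q.1 := by
    rw [e3]
    rfl
  have s4 : cc a ((S a)^[c + 4] p).2 = Qf a q := by
    rw [e4]
    rfl
  unfold Zb at h
  rw [Set.mem_union, Set.mem_union, not_or, not_or] at h
  obtain ⟨h1, h2, h3⟩ := h
  intro hη
  have hη' : |cc a q.2| < 4 := hη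
  constructor
  · intro hL hR
    have hL' : 4 ≤ |Lf a q| := by
      rw [← s1]
      exact hL
    have hR' : 4 ≤ |cc a q.1| := by
      rw [← s3]
      exact hR
    show 16 / (|cc a ((S a)^[c + 1] p).2| * (1 + |cc a ((S a)^[c] p).2|)) +
      16 / (|cc a ((S a)^[c + 3] p).2| * (1 + |cc a ((S a)^[c + 4] p).2|)) ≤
      |cc a q.2 - 1 / cc a ((S a)^[c + 1] p).2 - 1 / cc a ((S a)^[c + 3] p).2|
    rw [← hr, s0, s1, s3, s4]
    have g1 : 32 / (|cc a q.1| * (1 + |Qf a q|)) ≤ |cc a q.2 - 1 / Lf a q - 1 / cc a q.1| := by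
      by_contra hcon
      exact h1 ⟨hη', hL', hR', not_le.1 hcon⟩
    have g2 : 32 / (|Lf a q| * (1 + |Qf a (io a q)|)) ≤
        |cc a q.2 - 1 / Lf a q - 1 / cc a q.1| := by
      by_contra hcon
      apply h2
      have hi1 : (io a q).1 = phi a q.2 - q.1 := rfl
      have hi2 : (io a q).2 = q.2 := rfl
      refine ⟨hη', ?_, hL', ?_⟩
      · rw [Lf_io]
        exact hR'
      · rw [Lf_io]
        have e5 : cc a (io a q).2 - 1 / cc a q.1 - 1 / cc a (io a q).1 =
            cc a q.2 - 1 / Lf a q - 1 / cc a q.1 := by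
          show cc a q.2 - 1 / cc a q.1 - 1 / Lf a q = _
          ring
        rw [e5]
        exact not_le.1 hcon
    have e6 : 16 / (|Lf a q| * (1 + |Qf a (io a q)|)) =
        32 / (|Lf a q| * (1 + |Qf a (io a q)|)) / 2 := by ring
    have e7 : 16 / (|cc a q.1| * (1 + |Qf a q|)) = 32 / (|cc a q.1| * (1 + |Qf a q|)) / 2 := by
      ring
    rw [e6, e7]
    linarith
  · intro hR
    have hR' : |cc a q.1| < 4 := by
      rw [← s3]
      exact hR
    refine ⟨?_, ?_, ?_⟩
    · show 60 / GG a ≤ |cc a q.2 * cc a ((S a)^[c + 3] p).2 - 1|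
      rw [s3]
      by_contra hcon
      exact h3 ⟨hη', hR', not_le.1 hcon⟩
    · show GG a ≤ |cc a ((S a)^[c + 1] p).2|
      rw [s1]
      have := NRc hG (q := (q.2, q.1)) hη' hR'
      exact this
    · show GG a ≤ |cc a ((S a)^[c + 4] p).2|
      rw [s4]
      exact NRc hG hR' hη'

end Pool.Agent.K7.H81.CU
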