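import Pool.Agent.K7.H81.CUF

set_option autoImplicit false

/-!
# The logarithm of the norm of the derivative through isolated critical passages
-/

namespace Pool.Agent.K7.H81.CU

open Real MeasureTheory Function Pool.Agent.TH705.SM Pool.Agent.V1152.SMI Pool.Agent.K7.H81.SM
open Pool.Agent.V11103 (ergAv maximal)

/-- the error at a point -/
noncomputable def e1 (a : ℝ) (q : T2) : ℝ := er a q.1 + 2 * er2 a q

/-- the total error at a point -/
noncomputable def e2 (a : ℝ) (q : T2) : ℝ :=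
  e1 a q + 3 * log (9 * |a|) * {x : UnitAddCircle | |cc a x| < 4}.indicator (fun _ => (1:ℝ)) q.1

theorem e1_nonneg {a : ℝ} (ha : 2 ≤ |a|) (q : T2) : 0 ≤ e1 a q := by
  have h1 := er_nonneg ha q.1
  have h2 := er2_nonneg a q
  unfold e1
  linarith

theorem cc_nine {a : ℝ} (ha : 4 ≤ |a|) (x : UnitAddCircle) : 1 + |cc a x| ≤ 9 * |a| := by
  have h1 := cc_le a x
  have h2 := Real.pi_lt_d2
  nlinarith

theorem log_nine_nonneg {a : ℝ} (ha : 4 ≤ |a|) : 0 ≤ log (9 * |a|) :=
  Real.log_nonneg (by linarith)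

/-- lower bound -/
theorem low {a : ℝ} (hG : 1024 ≤ GG a) (ha : 4 ≤ |a|) (x y : ℝ) {m : ℕ} (hm : 1 ≤ m)
    (h0 : 4 ≤ |cc a (x : UnitAddCircle)|)
    (hZ : ∀ c, c + 2 ≤ m → (S a)^[c + 2] ((x : UnitAddCircle), (y : UnitAddCircle)) ∉ Zb a) :
    (∑ j ∈ Finset.range m, (hc a ((S a)^[j] ((x : UnitAddCircle), (y : UnitAddCircle))).1 -
      e2 a ((S a)^[j] ((x : UnitAddCircle), (y : UnitAddCircle))))) ≤
      log ‖fderiv ℝ (pm a)^[m] (x, y)‖ := by
  set p : T2 := ((x : UnitAddCircle), (y : UnitAddCircle)) with hp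
  have ha0 : 0 < |a| := by linarith
  have ha2 : 2 ≤ |a| := by linarith
  set s : ℕ → ℝ := fun j => cc a ((S a)^[j] p).2 with hs
  have hsnd : ∀ j, s (j + 1) = cc a ((S a)^[j] p).1 := by
    intro j
    show cc a ((S a)^[j + 1] p).2 = cc a ((S a)^[j] p).1
    rw [S_snd]
  set d : ℕ → ℝ := fun k => match k with
    | 0 => 0
    | k + 1 => (G a (1, 0) k p).1 with hd
  have hd0 : d 0 = 0 := rfl
  have hd1 : d 1 = 1 := rfl
  have hG2 : ∀ k, (G a (1, 0) k p).2 = d k := by
    intro k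
    cases k with
    | zero => rfl
    | succ k => rfl
  have hrec : ∀ k, d (k + 2) = s (k + 1) * d (k + 1) - d k := by
    intro k
    rw [hsnd]
    show (G a (1, 0) (k + 1) p).1 = cc a ((S a)^[k] p).1 * (G a (1, 0) k p).1 - d k
    rw [← hG2 k]
    rfl
  set h : ℕ → ℝ := fun j => hc a ((S a)^[j] p).1 with hh
  set e : ℕ → ℝ := fun j => e1 a ((S a)^[j] p) with he
  set H := log (9 * |a|) with hH
  have hexpH : exp H = 9 * |a| := Real.exp_log (by positivity)
  set V : ℕ → ℝ := fun n => ∑ j ∈ Finset.range n,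
    (h j - e j - if |s (j + 1)| < 4 then 3 * H else 0) with hV
  have hV0 : V 0 = 0 := rfl
  have hVs : ∀ j, V (j + 1) = V j + (h j - e j - if |s (j + 1)| < 4 then 3 * H else 0) := by
    intro j
    rw [hV]
    simp only
    rw [Finset.sum_range_succ]
  have c1 : ∀ j, 1 + |s j| ≤ exp H := by
    intro j
    rw [hexpH]
    exact cc_nine ha _
  have c2 : ∀ j, h j ≤ H := by
    intro j
    show hc a ((S a)^[j] p).1 ≤ H
    rw [hc_eq]
    have t1 := cc_nine ha ((S a)^[j] p).1
    set u := cc a ((S a)^[j] p).1 with hu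
    have t2 : log (1 + u ^ 2) ≤ 2 * log (9 * |a|) := by
      have t3 : (2:ℝ) * log (9 * |a|) = log ((9 * |a|) ^ 2) := by
        rw [Real.log_pow]
        norm_num
      rw [t3]
      apply Real.log_le_log (by positivity)
      have t4 : u ^ 2 = |u| ^ 2 := (sq_abs u).symm
      have t5 := abs_nonneg u
      rw [t4]
      nlinarith
    linarith
  have c3 : ∀ j, 0 ≤ e j := fun j => e1_nonneg ha2 _
  have c0 : ∀ j, 4 ≤ |s (j + 1)| → h j - er a ((S a)^[j] p).1 ≤ log |s (j + 1)| := by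
    intro j hj
    rw [hsnd] at hj ⊢
    exact er_low ha2 (by nlinarith)
  have c4 : ∀ j, 4 ≤ |s j| → 4 ≤ |s (j + 1)| →
      h j - e j ≤ log |s (j + 1)| - 6 * (1 / |s (j + 1) * s j|) := by
    intro j hj1 hj2
    have t1 := c0 j hj2
    have t2 : 16 ≤ |cc a ((S a)^[j] p).1 * cc a ((S a)^[j] p).2| := by
      rw [← hsnd, abs_mul]
      have : 4 ≤ |cc a ((S a)^[j] p).2| := hj1
      nlinarith
    have t3 := er2_low ha2 t2
    rw [← hsnd] at t3
    show h j - (er a ((S a)^[j] p).1 + 2 * er2 a ((S a)^[j] p)) ≤ _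
    have t4 : 3 * (1 / |s (j + 1) * s j|) ≤ er2 a ((S a)^[j] p) := t3
    linarith
  have d2 : d 2 = s 1 := by
    have := hrec 0
    rw [this, hd0, hd1]
    ring
  have hs1 : 4 ≤ |s 1| := by
    rw [hsnd 0]
    exact h0
  have hs1n : s 1 ≠ 0 := abs_pos.1 (by linarith)
  have hst : St s d V 0 := by
    refine ⟨hs1, ?_, ?_, ?_⟩
    · show d 2 ≠ 0
      rw [d2]
      exact hs1n
    · show |d 1 / d 2 - 1 / s 1| ≤ 2 / (|s 1| * (1 + |s 0|))
      rw [d2, hd1, sub_self, abs_zero]
      positivity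
    · show exp (V 1) ≤ |d 2|
      rw [hVs 0, if_neg (not_lt.2 hs1), hV0, zero_add, sub_zero, d2,
        ← Real.exp_log (abs_pos.2 hs1n)]
      apply Real.exp_le_exp.2
      have t1 := c0 0 hs1
      have t2 := er2_nonneg a ((S a)^[0] p)
      show h 0 - (er a ((S a)^[0] p).1 + 2 * er2 a ((S a)^[0] p)) ≤ _
      linarith
  have hB := grow (G := GG a) (by linarith) c1 hrec c2 c3 c4 hVs
    (M := m) (fun c hc => Ctr_of hG p c (hZ c hc)) m 0 hst m (by omega) (by omega) le_rfl
  have hN : max |d m| |d (m + 1)| ≤ ‖fderiv ℝ (pm a)^[m] (x, y)‖ := by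
    have h1 := (fderiv ℝ (pm a)^[m] (x, y)).le_opNorm (1, 0)
    have n1 : ‖((1, 0) : ℝ × ℝ)‖ = 1 := by simp [Prod.norm_def]
    rw [n1, mul_one, pm_G] at h1
    refine (max_le ?_ ?_).trans h1
    · rw [← hG2 m]
      exact norm_snd_le (G a (1, 0) m p)
    · exact norm_fst_le (G a (1, 0) m p)
  have hVm : exp (V m) ≤ ‖fderiv ℝ (pm a)^[m] (x, y)‖ := hB.trans hN
  have h9 : V m ≤ log ‖fderiv ℝ (pm a)^[m] (x, y)‖ := by
    rw [← Real.log_exp (V m)]
    exact Real.log_le_log (Real.exp_pos _) hVm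
  refine le_trans (le_of_eq ?_) h9
  rw [hV]
  simp only
  apply Finset.sum_congr rfl
  intro j _
  show hc a ((S a)^[j] p).1 - e2 a ((S a)^[j] p) = hc a ((S a)^[j] p).1 - e1 a ((S a)^[j] p) -
    if |s (j + 1)| < 4 then 3 * H else 0
  rw [hsnd]
  unfold e2
  split_ifs with hif
  · rw [Set.indicator_of_mem (show ((S a)^[j] p).1 ∈ {x : UnitAddCircle | |cc a x| < 4} from hif)]
    ring
  · rw [Set.indicator_of_notMem (show ((S a)^[j] p).1 ∉ {x : UnitAddCircle | |cc a x| < 4}
      from hif)]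
    ring

/-- upper bound -/
theorem up {a : ℝ} (ha : 2 ≤ |a|) (x y : ℝ) (m : ℕ) :
    log ‖fderiv ℝ (pm a)^[m] (x, y)‖ ≤ 1 + ∑ j ∈ Finset.range m,
      (hc a ((S a)^[j] ((x : UnitAddCircle), (y : UnitAddCircle))).1 +
        er a ((S a)^[j] ((x : UnitAddCircle), (y : UnitAddCircle))).1) := by
  have h1 := norm_bound a (x, y) m
  have h2 : log 2 / 2 ≤ 1 := by
    have := Real.log_two_lt_d9
    linarith
  refine h1.trans (add_le_add h2 (Finset.sum_le_sum fun j _ => ?_))
  have ho : (pm a)^[j] (x, y) = (X a y (j + 1) x, X a y j x) := iter_plane a y x j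
  have h3 : cc a ((S a)^[j] ((x : UnitAddCircle), (y : UnitAddCircle))).1 =
      L a ((pm a)^[j] (x, y)).1 := by
    rw [iter_coe, ho, cc_coe]
  have h4 := er_up ha ((S a)^[j] ((x : UnitAddCircle), (y : UnitAddCircle))).1
  unfold ff
  rw [h3] at h4
  linarith

theorem e2_ge {a : ℝ} (ha : 4 ≤ |a|) (q : T2) : er a q.1 ≤ e2 a q := by
  have h1 := er2_nonneg a q
  have h2 := log_nine_nonneg ha
  have h3 : (0:ℝ) ≤ {x : UnitAddCircle | |cc a x| < 4}.indicator (fun _ => (1:ℝ)) q.1 :=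
    Set.indicator_nonneg (fun _ _ => zero_le_one) _
  unfold e2 e1
  have : 0 ≤ 3 * log (9 * |a|) * {x : UnitAddCircle | |cc a x| < 4}.indicator
    (fun _ => (1:ℝ)) q.1 := by positivity
  linarith

/-- both bounds -/
theorem both {a : ℝ} (hG : 1024 ≤ GG a) (ha : 4 ≤ |a|) (x y : ℝ) {m : ℕ} (hm : 1 ≤ m)
    (h0 : 4 ≤ |cc a (x : UnitAddCircle)|)
    (hZ : ∀ c, c + 2 ≤ m → (S a)^[c + 2] ((x : UnitAddCircle), (y : UnitAddCircle)) ∉ Zb a) :
    |log ‖fderiv ℝ (pm a)^[m] (x, y)‖ -
      ∑ j ∈ Finset.range m, hc a ((S a)^[j] ((x : UnitAddCircle), (y : UnitAddCircle))).1| ≤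
    1 + ∑ j ∈ Finset.range m, e2 a ((S a)^[j] ((x : UnitAddCircle), (y : UnitAddCircle))) := by
  have h1 := low hG ha x y hm h0 hZ
  have h2 := up (a := a) (by linarith) x y m
  rw [Finset.sum_sub_distrib] at h1
  rw [Finset.sum_add_distrib] at h2
  have h3 : ∑ j ∈ Finset.range m, er a ((S a)^[j] ((x : UnitAddCircle), (y : UnitAddCircle))).1 ≤
      ∑ j ∈ Finset.range m, e2 a ((S a)^[j] ((x : UnitAddCircle), (y : UnitAddCircle))) :=
    Finset.sum_le_sum fun j _ => e2_ge ha _
  rw [abs_le]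
  constructor <;> linarith

theorem e2_facts {a : ℝ} (ha : 4 ≤ |a|) : Measurable (e2 a) ∧ Integrable (e2 a) ∧
    (∀ p, 0 ≤ e2 a p) ∧ ∫ p, e2 a p ≤ 400 * |a| ^ (-(1 / 4) : ℝ) := by
  have ha2 : 2 ≤ |a| := by linarith
  have ha0 : 0 < |a| := by linarith
  obtain ⟨m1, k1, i1⟩ := er_facts ha2
  obtain ⟨m2, k2, i2⟩ := er2_facts ha2
  have hlog : 1 / 2 ≤ log |a| := log_two_half.trans (Real.log_le_log (by norm_num) ha2)
  have hms := strip_meas a 4
  set ind : UnitAddCircle → ℝ := {x : UnitAddCircle | |cc a x| < 4}.indicator (fun _ => (1:ℝ))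
    with hind
  have m3 : Measurable ind := measurable_const.indicator hms
  have f1 := int_fst (a := a) 0 m1 k1
  have f2 := int_iter (a := a) 0 m2 k2
  have f3 := int_fst (a := a) 0 m3 (ind_le_one _)
  have j1 : Integrable fun p : T2 => er a p.1 := f1.1
  have j2 : Integrable fun p : T2 => er2 a p := f2.1
  have j3 : Integrable fun p : T2 => ind p.1 := f3.1
  have hl9 := log_nine_nonneg ha
  refine ⟨?_, ?_, ?_, ?_⟩
  · exact ((m1.comp measurable_fst).add (measurable_const.mul m2)).add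
      (measurable_const.mul (m3.comp measurable_fst))
  · exact (j1.add (j2.const_mul 2)).add (j3.const_mul _)
  · intro p
    exact (er_nonneg ha2 _).trans (e2_ge ha p)
  · have h1 : ∫ p, e2 a p = (∫ x, er a x) + 2 * (∫ p, er2 a p) + 3 * log (9 * |a|) *
        volume.real {x : UnitAddCircle | |cc a x| < 4} := by
      have j2' : Integrable fun p : T2 => 2 * er2 a p := j2.const_mul 2
      have j12 : Integrable fun p : T2 => er a p.1 + 2 * er2 a p := j1.add j2'
      have j3' : Integrable fun p : T2 => 3 * log (9 * |a|) * ind p.1 := j3.const_mul _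
      have t0 : ∫ p, e2 a p =
          ∫ p : T2, ((er a p.1 + 2 * er2 a p) + 3 * log (9 * |a|) * ind p.1) := rfl
      rw [t0, integral_add j12 j3', integral_add j1 j2', integral_const_mul, integral_const_mul]
      have t1 : ∫ p : T2, er a p.1 = ∫ x, er a x := f1.2
      have t3 : ∫ p : T2, ind p.1 = ∫ x, ind x := f3.2
      rw [t1, t3, hind, integral_indicator hms, integral_const, smul_eq_mul, mul_one,
        measureReal_restrict_apply_univ]
    rw [h1]
    set q : ℝ := |a| ^ (-(1 / 4) : ℝ) with hq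
    have hq0 : 0 < q := Real.rpow_pos_of_pos ha0 _
    have hl : log |a| ≤ 4 * |a| ^ ((1 / 4 : ℝ)) := by
      have := Real.log_le_rpow_div ha0.le (show (0:ℝ) < 1 / 4 by norm_num)
      linarith
    have e1 : log |a| / √|a| ≤ 4 * q := by
      rw [Real.sqrt_eq_rpow, div_le_iff₀ (Real.rpow_pos_of_pos ha0 _), hq, mul_assoc,
        ← Real.rpow_add ha0]
      norm_num at hl ⊢
      exact hl
    have hqa : 1 / |a| ≤ q := by
      rw [hq, one_div, ← Real.rpow_neg_one]
      exact Real.rpow_le_rpow_of_exponent_le (by linarith) (by norm_num)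
    have e2 : log |a| / |a| ≤ 4 * q := by
      refine le_trans ?_ e1
      apply div_le_div_of_nonneg_left (by linarith) (by positivity)
      rw [Real.sqrt_le_left ha0.le]
      nlinarith
    have t1 : 3 / 2 * log |a| / √|a| = 3 / 2 * (log |a| / √|a|) := by ring
    have t2 : 1 / (2 * |a|) = 1 / |a| / 2 := by field_simp
    have t3 : 6 * log |a| / |a| = 6 * (log |a| / |a|) := by ring
    have t4 : 3 / |a| = 3 * (1 / |a|) := by ring
    rw [t1, t2] at i1
    rw [t3, t4] at i2
    have hst := strip (a := a) (t := 4) ha2 (by norm_num)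
    have h9 : log (9 * |a|) ≤ 6 * log |a| := by
      rw [Real.log_mul (by norm_num) ha0.ne']
      have : log 9 ≤ 5 / 2 := by
        have h3 : (9:ℝ) ≤ 2 ^ 3 * (2:ℝ) ^ (1:ℕ) := by norm_num
        have h4 := Real.log_le_log (by norm_num) h3
        rw [← pow_add, Real.log_pow] at h4
        have h5 := Real.log_two_lt_d9
        have h6 : log 9 = 2 * log 3 := by
          have : (9:ℝ) = 3 ^ 2 := by norm_num
          rw [this, Real.log_pow]
          norm_num
        have h7 : log 3 ≤ 5 / 4 := by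
          have h8 : log (3 ^ 3) ≤ log ((2:ℝ) ^ 5) := Real.log_le_log (by norm_num) (by norm_num)
          rw [Real.log_pow, Real.log_pow] at h8
          push_cast at h8
          linarith
        rw [h6]
        linarith
      linarith
    have h10 : 3 * log (9 * |a|) * volume.real {x : UnitAddCircle | |cc a x| < 4} ≤
        3 * (6 * log |a|) * (4 / |a|) := by
      apply mul_le_mul (by linarith) hst measureReal_nonneg (by linarith)
    have h11 : 3 * (6 * log |a|) * (4 / |a|) = 72 * (log |a| / |a|) := by ring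
    linarith

end Pool.Agent.K7.H81.CU
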