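import Pool.Agent.K7.H81.CUG

set_option autoImplicit false

/-!
# Exponents up to cubic times
-/

namespace Pool.Agent.K7.H81.CU

open Real MeasureTheory Function Pool.Agent.TH705.SM Pool.Agent.V1152.SMI Pool.Agent.K7.H81.SM
open Pool.Agent.V11103 (ergAv maximal)

/-- the bad orbits -/
def B3 (a : ℝ) (N : ℕ) : Set T2 := {p : T2 | |cc a p.1| < 4} ∪
  ⋃ c ∈ Finset.range N, ((S a)^[c + 2]) ⁻¹' Zb a

theorem B3_le {a : ℝ} (hG : 1024 ≤ GG a) (ha : 4 ≤ |a|) (N : ℕ) :
    volume.real (B3 a N) ≤ 4 / |a| + N * (30000000 * (log |a| ^ 2 / (|a| ^ 2 * GG a))) := by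
  unfold B3
  refine (measureReal_union_le _ _).trans (add_le_add ?_ ?_)
  · have h1 := strip (a := a) (t := 4) (by linarith) (by norm_num)
    have h2 : {p : T2 | |cc a p.1| < 4} = {x : UnitAddCircle | |cc a x| < 4} ×ˢ Set.univ := by
      ext p
      simp
    rw [h2, vol_T2, measureReal_prod_prod]
    have h3 : (volume : Measure UnitAddCircle).real Set.univ ≤ 1 := measureReal_le_one
    calc _ ≤ 4 / |a| * 1 := mul_le_mul h1 h3 measureReal_nonneg (by positivity)
      _ = 4 / |a| := mul_one _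
  · refine (measureReal_biUnion_finset_le _ _).trans ?_
    have h1 : ∀ c ∈ Finset.range N, volume.real (((S a)^[c + 2]) ⁻¹' Zb a) ≤
        30000000 * (log |a| ^ 2 / (|a| ^ 2 * GG a)) := by
      intro c _
      rw [(iter_mp a (c + 2)).measureReal_preimage (Zb_meas a).nullMeasurableSet]
      exact vol_Zb hG
    refine (Finset.sum_le_sum h1).trans (le_of_eq ?_)
    rw [Finset.sum_const, Finset.card_range, nsmul_eq_mul]

/-- the set of points with a bad exponent at some time in a window, on the torus -/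
theorem main2 : ∃ C : ℝ, 0 < C ∧ ∀ a : ℝ, 2 ≤ |a| → sin (2 * π * a) ≠ 0 →
    ∀ n N : ℕ, 1 ≤ n → ∀ ε : ℝ, 0 < ε →
    ε ≤ 1 → ∃ B : Set T2, MeasurableSet B ∧
      volume B ≤ ENNReal.ofReal (C * (((n : ℝ) ^ (-(1 / 3) : ℝ) + |a| ^ (-(1 / 8) : ℝ)) / ε ^ 2 +
        N * log |a| ^ 2 / (|a| ^ 3 * |sin (2 * π * a)|))) ∧
      ∀ x y : ℝ, ((x : UnitAddCircle), (y : UnitAddCircle)) ∉ B → ∀ k, n ≤ k → k ≤ N →
        |log ‖fderiv ℝ (pm a)^[k] (x, y)‖ / k - log (π * |a|)| ≤ ε := by
  obtain ⟨C1, hC1, hM⟩ := main_torus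
  obtain ⟨C, hC, hSU⟩ := SU_unif
  refine ⟨1000 * C1 + 9 * C + 1204 + 30000000, by positivity, ?_⟩
  intro a ha hsin n N hn ε hε hε1
  have hpi1 := Real.pi_gt_d2
  have hpi2 := Real.pi_lt_d2
  have ha0 : 0 < |a| := by linarith
  have hn0 : (0:ℝ) < n := by exact_mod_cast hn
  have hn1 : (1:ℝ) ≤ n := by exact_mod_cast hn
  have hs0 : 0 < |sin (2 * π * a)| := abs_pos.2 hsin
  have hlog : 1 / 2 ≤ log |a| := log_two_half.trans (Real.log_le_log (by norm_num) ha)
  have hGG : GG a = π * |a| * |sin (2 * π * a)| := rfl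
  set u : ℝ := (n : ℝ) ^ (-(1 / 3) : ℝ) with hu
  set v : ℝ := |a| ^ (-(1 / 8) : ℝ) with hv
  have hu0 : 0 < u := Real.rpow_pos_of_pos hn0 _
  have hv0 : 0 < v := Real.rpow_pos_of_pos ha0 _
  set σ := |sin (2 * π * a)| with hσ
  have hN0 : (0:ℝ) ≤ N := Nat.cast_nonneg N
  have hT0 : 0 ≤ N * log |a| ^ 2 / (|a| ^ 3 * σ) := by positivity
  have hU0 : 0 ≤ (u + v) / ε ^ 2 := by positivity
  rcases lt_or_ge (GG a) 1024 with hG | hG
  · -- close to a resonance
    obtain ⟨B, hB1, hB2, hB3⟩ := hM a ha n N hn ε hε hε1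
    refine ⟨B, hB1, hB2.trans (ENNReal.ofReal_le_ofReal ?_), hB3⟩
    have h1 : N * log |a| / |a| ^ 2 ≤ 1000 * (N * log |a| ^ 2 / (|a| ^ 3 * σ)) := by
      rw [← mul_div_assoc, div_le_div_iff₀ (by positivity) (by positivity)]
      have h2 : |a| * σ ≤ 500 := by
        rw [hGG] at hG
        have : 3 * (|a| * σ) ≤ π * |a| * σ := by
          have : 0 ≤ |a| * σ := by positivity
          nlinarith
        linarith
      have h3 : |a| * σ ≤ 1000 * log |a| := by linarith
      calc N * log |a| * (|a| ^ 3 * σ) = N * log |a| * |a| ^ 2 * (|a| * σ) := by ring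
        _ ≤ N * log |a| * |a| ^ 2 * (1000 * log |a|) :=
            mul_le_mul_of_nonneg_left h3 (by positivity)
        _ = _ := by ring
    have h4 : C1 * ((u + v) / ε ^ 2 + N * log |a| / |a| ^ 2) ≤
        C1 * ((u + v) / ε ^ 2 + 1000 * (N * log |a| ^ 2 / (|a| ^ 3 * σ))) :=
      mul_le_mul_of_nonneg_left (by linarith) hC1.le
    refine h4.trans ?_
    have h5 : 0 ≤ C * ((u + v) / ε ^ 2) := by positivity
    have h6 : 0 ≤ C1 * ((u + v) / ε ^ 2) := by positivity
    have h7 : 0 ≤ C * (N * log |a| ^ 2 / (|a| ^ 3 * σ)) := by positivity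
    nlinarith
  have hGa := GG_le a
  have ha4 : 4 ≤ |a| := by nlinarith
  have hG0 : 0 < GG a := by linarith
  have hun : 1 / (n : ℝ) ≤ u := by
    rw [hu, one_div, ← Real.rpow_neg_one]
    exact Real.rpow_le_rpow_of_exponent_le hn1 (by norm_num)
  have hva : 1 / |a| ≤ v := by
    rw [hv, one_div, ← Real.rpow_neg_one]
    exact Real.rpow_le_rpow_of_exponent_le (by linarith) (by norm_num)
  by_cases hcase : ε / 3 ≤ 1 / (n : ℝ) + 1 / |a|
  · refine ⟨Set.univ, MeasurableSet.univ, ?_, fun x y h => absurd (Set.mem_univ _) h⟩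
    rw [measure_univ, ← ENNReal.ofReal_one]
    apply ENNReal.ofReal_le_ofReal
    have h1 : ε / 3 ≤ u + v := by linarith
    have h2 : 1 ≤ 3 * ((u + v) / ε ^ 2) := by
      rw [← mul_div_assoc, le_div_iff₀ (by positivity)]
      nlinarith
    nlinarith
  · have hcase := not_le.1 hcase
    obtain ⟨g1, g2, g3, g4⟩ := e2_facts ha4
    have hmax := maximal (S_mp a) (f := e2 a) g1 g2 (c := ε / 3) (by positivity)
    have hmax' : volume.real {p | ∃ k, ε / 3 < ergAv (S a) (e2 a) k p} ≤
        1200 * v / ε ^ 2 := by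
      refine (ENNReal.toReal_le_of_le_ofReal (by
        have h0 : 0 ≤ ∫ p, |e2 a p| := integral_nonneg fun p => abs_nonneg (e2 a p)
        positivity) hmax).trans ?_
      have h1 : ∫ q, |e2 a q| = ∫ q, e2 a q := by
        apply integral_congr_ae
        refine Filter.Eventually.of_forall fun q => ?_
        exact abs_of_nonneg (g3 q)
      rw [h1]
      have h2 : |a| ^ (-(1 / 4) : ℝ) ≤ v := by
        rw [hv]
        exact Real.rpow_le_rpow_of_exponent_le (by linarith) (by norm_num)
      calc (∫ q, e2 a q) / (ε / 3) ≤ 400 * v / (ε / 3) := by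
            apply div_le_div_of_nonneg_right _ (by positivity)
            linarith
        _ = 1200 * v / ε := by ring
        _ ≤ _ := by
            apply div_le_div_of_nonneg_left (by positivity) (by positivity)
            nlinarith
    have hS := hSU a ha n N hn (ε / 3) (by positivity) (by linarith)
    set B1 : Set T2 := {p | ∃ k, ε / 3 < ergAv (S a) (e2 a) k p} with hB1
    set B2 : Set T2 := {p : T2 | ∃ k, n ≤ k ∧ k ≤ N ∧ ε / 3 * k < |SU a k p|} with hB2
    refine ⟨toMeasurable volume (B1 ∪ (B2 ∪ B3 a N)), measurableSet_toMeasurable _ _, ?_, ?_⟩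
    · rw [measure_toMeasurable]
      have hbad := B3_le hG ha4 N
      have h1 : volume.real (B1 ∪ (B2 ∪ B3 a N)) ≤ 1200 * v / ε ^ 2 +
          (C * ((u + v) / (ε / 3) ^ 2) +
            (4 / |a| + N * (30000000 * (log |a| ^ 2 / (|a| ^ 2 * GG a))))) :=
        (measureReal_union_le _ _).trans (add_le_add hmax' ((measureReal_union_le _ _).trans
          (add_le_add hS hbad)))
      rw [← ofReal_measureReal]
      apply ENNReal.ofReal_le_ofReal
      refine h1.trans ?_
      have e1 : C * ((u + v) / (ε / 3) ^ 2) = 9 * C * ((u + v) / ε ^ 2) := by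
        field_simp
        ring
      have e2 : (N : ℝ) * (30000000 * (log |a| ^ 2 / (|a| ^ 2 * GG a))) ≤
          30000000 * (N * log |a| ^ 2 / (|a| ^ 3 * σ)) := by
        have t1 : (N : ℝ) * (30000000 * (log |a| ^ 2 / (|a| ^ 2 * GG a))) =
            30000000 * (N * log |a| ^ 2 / (|a| ^ 2 * GG a)) := by ring
        rw [t1]
        apply mul_le_mul_of_nonneg_left _ (by norm_num)
        apply div_le_div_of_nonneg_left (by positivity) (by positivity)
        rw [hGG]
        have : 0 ≤ |a| ^ 3 * σ := by positivity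
        calc |a| ^ 3 * σ ≤ π * (|a| ^ 3 * σ) := by nlinarith
          _ = _ := by ring
      have e3 : 1200 * v / ε ^ 2 ≤ 1200 * ((u + v) / ε ^ 2) := by
        rw [mul_div_assoc]
        gcongr
        linarith
      have e4 : 4 / |a| ≤ 4 * ((u + v) / ε ^ 2) := by
        have e5 : 1 / |a| ≤ (u + v) / ε ^ 2 := by
          rw [le_div_iff₀ (by positivity)]
          have : ε ^ 2 ≤ 1 := by nlinarith
          have h5 : 0 ≤ 1 / |a| := by positivity
          nlinarith
        have e6 : 4 / |a| = 4 * (1 / |a|) := by ring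
        linarith
      rw [e1]
      have h5 : 0 ≤ C1 * ((u + v) / ε ^ 2) := by positivity
      have h6 : 0 ≤ C1 * (N * log |a| ^ 2 / (|a| ^ 3 * σ)) := by positivity
      have h7 : 0 ≤ C * (N * log |a| ^ 2 / (|a| ^ 3 * σ)) := by positivity
      nlinarith
    · intro x y hxy k hk1 hk2
      set p : T2 := ((x : UnitAddCircle), (y : UnitAddCircle)) with hp
      have hnot : p ∉ B1 ∪ (B2 ∪ B3 a N) := fun h => hxy (subset_toMeasurable _ _ h)
      rw [Set.mem_union, Set.mem_union, not_or, not_or] at hnot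
      obtain ⟨c1, c2, c3⟩ := hnot
      have hk0 : (0:ℝ) < k := by
        have : (n:ℝ) ≤ k := by exact_mod_cast hk1
        linarith
      have hnk : (n:ℝ) ≤ k := by exact_mod_cast hk1
      unfold B3 at c3
      rw [Set.mem_union, not_or] at c3
      obtain ⟨c4, c5⟩ := c3
      have c4' : 4 ≤ |cc a (x : UnitAddCircle)| := not_lt.1 c4
      have c5' : ∀ c, c + 2 ≤ k → (S a)^[c + 2] p ∉ Zb a := by
        intro c hc hmem
        apply c5
        rw [Set.mem_iUnion₂]
        exact ⟨c, Finset.mem_range.2 (by omega), hmem⟩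
      have h1 := both hG ha4 x y (m := k) (by omega) c4' c5'
      rw [← hp] at h1
      have h3 : ∑ j ∈ Finset.range k, e2 a ((S a)^[j] p) ≤ ε / 3 * k := by
        by_contra hcon
        apply c1
        refine ⟨k, ?_⟩
        unfold ergAv
        rw [one_div, ← div_eq_inv_mul, lt_div_iff₀ hk0]
        exact not_le.1 hcon
      have h4 : |SU a k p| ≤ ε / 3 * k := by
        by_contra hcon
        exact c2 ⟨k, hk1, hk2, not_le.1 hcon⟩
      have h5 : ∑ j ∈ Finset.range k, hc a ((S a)^[j] p).1 = SU a k p + k * hmean a := by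
        unfold SU uc
        rw [Finset.sum_sub_distrib, Finset.sum_const, Finset.card_range, nsmul_eq_mul]
        ring
      have h6 := hmean_near (a := a) (by linarith)
      set K : ℝ := (k : ℝ) with hK
      set F := log ‖fderiv ℝ (pm a)^[k] (x, y)‖ with hF
      rw [h5] at h1
      have h7 : |F - K * log (π * |a|)| ≤ ε * K := by
        have e : F - K * log (π * |a|) = (F - (SU a k p + K * hmean a)) + SU a k p +
            K * (hmean a - log (π * |a|)) := by ring
        rw [e]
        refine (abs_add_le _ _).trans ?_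
        refine (add_le_add (abs_add_le _ _) le_rfl).trans ?_
        have h8 : |K * (hmean a - log (π * |a|))| ≤ K * (1 / |a|) := by
          rw [abs_mul, abs_of_pos hk0, abs_of_nonneg h6.1]
          exact mul_le_mul_of_nonneg_left h6.2 hk0.le
        have h9 : 1 ≤ 1 / (n : ℝ) * K := by
          rw [one_div, ← div_eq_inv_mul, le_div_iff₀ hn0]
          linarith
        have h10 : K * (1 / (n : ℝ) + 1 / |a|) ≤ K * (ε / 3) :=
          mul_le_mul_of_nonneg_left hcase.le hk0.le
        linarith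
      have e : F / K - log (π * |a|) = (F - K * log (π * |a|)) / K := by
        field_simp
      rw [e, abs_div, abs_of_pos hk0, div_le_iff₀ hk0]
      exact h7

end Pool.Agent.K7.H81.CU
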