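import Pool.Agent.K7.H47.DM.Stm4

set_option autoImplicit false

namespace Pool.Agent.K7.H81.D4

open Pool.Agent.K7.H47.DM4 Matrix

theorem blk (h : StP) : StBlk := by
  classical
  intro ι _ _ t j cl ht hcj σ hσ
  set M : Matrix ι ι ℚ :=
    Matrix.of fun r c => if cl (σ.symm r) = cl c then (((t r).choose (j c) : ℕ) : ℚ) else 0 with hM
  intro h0
  have h1 : (M.submatrix σ id).det = 0 := by
    have e : (M.submatrix σ id).det = Equiv.Perm.sign σ * M.det := Matrix.det_permute σ M
    have h0' : M.det = 0 := by convert h0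
    rw [e, h0', mul_zero]
  have hent : ∀ c' c, (M.submatrix σ id) c' c =
      if cl c' = cl c then (((t (σ c')).choose (j c) : ℕ) : ℚ) else 0 := by
    intro c' c
    simp [hM]
  have hbt : BlockTriangular (M.submatrix σ id) cl := by
    intro i k hik
    rw [hent, if_neg]
    exact ne_of_gt hik
  rw [hbt.det] at h1
  rw [Finset.prod_eq_zero_iff] at h1
  obtain ⟨a, _, ha⟩ := h1
  have hsq : (M.submatrix σ id).toSquareBlock cl a =
      Matrix.of fun (r c : {i // cl i = a}) => (((t (σ r)).choose (j c) : ℕ) : ℚ) := by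
    ext r c
    show (M.submatrix σ id) r c = _
    rw [hent, if_pos (r.2.trans c.2.symm)]
    rfl
  rw [hsq] at ha
  refine h {i // cl i = a} (fun r => t (σ r)) (fun c => j c) ?_ ?_ (fun c => hσ c) ?_
  · intro x y hxy
    exact Subtype.ext (σ.injective (ht hxy))
  · intro x y hxy
    exact Subtype.ext (hcj x y (x.2.trans y.2.symm) hxy)
  · convert ha

end Pool.Agent.K7.H81.D4
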