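import Pool.Agent.R955.FD.Defs

set_option autoImplicit false

/-!
# Characters, the distance to the integers, and the kernels `K_ℓ`
-/

namespace Pool.Agent.K7.H81.FD

open MeasureTheory Set Filter Topology Pool.Agent.R955.FD
open scoped ENNReal

/-- Lebesgue measure on `(0, 1]` -/
noncomputable abbrev m1 : Measure ℝ := volume.restrict (Ioc (0:ℝ) 1)

instance instProb : IsProbabilityMeasure m1 := ⟨by simp⟩

theorem ch_norm (ξ t : ℝ) : ‖ch ξ t‖ = 1 := by
  unfold ch
  rw [Complex.norm_exp_ofReal_mul_I]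

theorem ch_add (ξ η t : ℝ) : ch (ξ + η) t = ch ξ t * ch η t := by
  unfold ch
  rw [← Complex.exp_add]
  congr 1
  push_cast
  ring

theorem ch_add_right (ξ s t : ℝ) : ch ξ (s + t) = ch ξ s * ch ξ t := by
  unfold ch
  rw [← Complex.exp_add]
  congr 1
  push_cast
  ring

theorem ch_zero (t : ℝ) : ch 0 t = 1 := by
  unfold ch
  simp

theorem ch_neg_neg (ξ t : ℝ) : ch (-ξ) (-t) = ch ξ t := by
  unfold ch
  congr 2
  push_cast
  ring

theorem ch_neg_right (ξ t : ℝ) : ch ξ (-t) = ch (-ξ) t := by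
  unfold ch
  congr 2
  push_cast
  ring

theorem ch_mul_neg (ξ t : ℝ) : ch ξ t * ch (-ξ) t = 1 := by
  rw [← ch_add, add_neg_cancel, ch_zero]

theorem ch_cont (ξ : ℝ) : Continuous (ch ξ) := by
  unfold ch
  fun_prop

theorem ch_int_one (n : ℤ) : ch n 1 = 1 := by
  unfold ch
  have : ((2 * Real.pi * (n : ℝ) * 1 : ℝ) : ℂ) * Complex.I = n * (2 * Real.pi * Complex.I) := by
    push_cast
    ring
  rw [this, Complex.exp_int_mul_two_pi_mul_I]

theorem ch_period (n : ℤ) (t : ℝ) : ch n (t + 1) = ch n t := by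
  rw [ch_add_right, ch_int_one, mul_one]

theorem ch_pow (n : ℕ) (t : ℝ) : ch n t = ch 1 t ^ n := by
  induction n with
  | zero => rw [Nat.cast_zero, ch_zero, pow_zero]
  | succ n ih => rw [Nat.cast_add, Nat.cast_one, ch_add, ih, pow_succ]

theorem ch_hasDeriv (ξ t : ℝ) :
    HasDerivAt (ch ξ) (((2 * Real.pi * ξ : ℝ) : ℂ) * Complex.I * ch ξ t) t := by
  have h1 : HasDerivAt (fun t : ℝ => ((2 * Real.pi * ξ : ℝ) : ℂ) * Complex.I * (t : ℂ))
      (((2 * Real.pi * ξ : ℝ) : ℂ) * Complex.I) t := by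
    have := (Complex.ofRealCLM.hasDerivAt (x := t)).const_mul
      (((2 * Real.pi * ξ : ℝ) : ℂ) * Complex.I)
    simpa using this
  have h2 := h1.cexp
  have e : (fun t : ℝ => Complex.exp (((2 * Real.pi * ξ : ℝ) : ℂ) * Complex.I * (t : ℂ))) =
      ch ξ := by
    funext s
    unfold ch
    congr 1
    push_cast
    ring
  have e2 : Complex.exp (((2 * Real.pi * ξ : ℝ) : ℂ) * Complex.I * (t : ℂ)) = ch ξ t := by
    unfold ch
    congr 1
    push_cast
    ring
  rw [e, e2, mul_comm] at h2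
  exact h2

/-- the distance to the integers -/
noncomputable def dZ (u : ℝ) : ℝ := ‖(u : UnitAddCircle)‖

theorem dZ_nonneg (u : ℝ) : 0 ≤ dZ u := norm_nonneg _

theorem dZ_eq (u : ℝ) : dZ u = |u - round u| := UnitAddCircle.norm_eq

theorem dZ_neg (u : ℝ) : dZ (-u) = dZ u := by
  unfold dZ
  rw [AddCircle.coe_neg, norm_neg]

theorem dZ_le_abs (u : ℝ) : dZ u ≤ |u| := by
  have := AddCircle.norm_le_half_period (1:ℝ) (x := (u : UnitAddCircle)) one_ne_zero
  rw [dZ_eq]
  have h := round_le u 0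
  simpa using h

theorem dZ_sub (u v : ℝ) : dZ u - |v| ≤ dZ (u - v) := by
  have h1 : dZ u ≤ dZ (u - v) + dZ v := by
    unfold dZ
    have e : (u : UnitAddCircle) = ((u - v : ℝ) : UnitAddCircle) + (v : UnitAddCircle) := by
      rw [← AddCircle.coe_add]
      congr 1
      ring
    rw [e]
    exact norm_add_le _ _
  have := dZ_le_abs v
  linarith

theorem dZ_cont : Continuous dZ := by
  unfold dZ
  exact continuous_norm.comp (AddCircle.continuous_mk' 1)

theorem ch_one_round (u : ℝ) : ch 1 u = ch 1 (u - round u) := by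
  have h : u = (u - round u) + round u := by ring
  have h2 : ch 1 (round u : ℝ) = 1 := by
    have e : ch 1 ((round u : ℤ) : ℝ) = ch ((round u : ℤ) : ℝ) 1 := by
      unfold ch
      congr 2
      push_cast
      ring
    rw [e, ch_int_one]
  conv_lhs => rw [h]
  rw [ch_add_right, h2, mul_one]

theorem one_sub_ch (u : ℝ) : 4 * dZ u ≤ ‖1 - ch 1 u‖ := by
  rw [dZ_eq, ch_one_round]
  set v := u - round u with hv
  have hv1 : |v| ≤ 1 / 2 := abs_sub_round u
  have h1 : ‖1 - ch 1 v‖ = 2 * |Real.sin (Real.pi * v)| := by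
    have e : ch 1 v = Complex.exp (Complex.I * ((2 * Real.pi * v : ℝ) : ℂ)) := by
      unfold ch
      rw [mul_comm]
      congr 2
      push_cast
      ring
    rw [e, norm_sub_rev, Complex.norm_exp_I_mul_ofReal_sub_one, Real.norm_eq_abs, abs_mul,
      abs_of_pos (by norm_num : (0:ℝ) < 2)]
    congr 3
    ring
  have h2 : |Real.pi * v| ≤ Real.pi / 2 := by
    rw [abs_mul, abs_of_pos Real.pi_pos]
    nlinarith [Real.pi_pos]
  have h3 := Real.mul_abs_le_abs_sin h2
  have h4 : 2 / Real.pi * |Real.pi * v| = 2 * |v| := by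
    rw [abs_mul, abs_of_pos Real.pi_pos]
    field_simp
  rw [h4] at h3
  rw [h1]
  linarith

/-- the kernel with linearly decreasing coefficients -/
noncomputable def Kl (l : ℕ) (t : ℝ) : ℂ :=
  ∑ j ∈ Finset.range l, ((1 - j / l : ℝ) : ℂ) * ch j t

/-- its derivative -/
noncomputable def Kl' (l : ℕ) (t : ℝ) : ℂ :=
  ∑ j ∈ Finset.range l, ((1 - j / l : ℝ) : ℂ) * (((2 * Real.pi * j : ℝ) : ℂ) * Complex.I * ch j t)

theorem Kl_hasDeriv (l : ℕ) (t : ℝ) : HasDerivAt (Kl l) (Kl' l t) t := by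
  unfold Kl Kl'
  apply HasDerivAt.fun_sum
  intro j _
  exact (ch_hasDeriv _ _).const_mul _

theorem Kl_cont (l : ℕ) : Continuous (Kl l) :=
  continuous_iff_continuousAt.2 fun t => (Kl_hasDeriv l t).continuousAt

theorem sumA (z : ℂ) (l : ℕ) : (1 - z) ^ 2 * ∑ j ∈ Finset.range l, (j : ℂ) * z ^ j =
    z - l * z ^ l + (l - 1) * z ^ (l + 1) := by
  induction l with
  | zero => simp
  | succ l ih =>
    rw [Finset.sum_range_succ, mul_add, ih]
    push_cast
    ring

theorem sumB (z : ℂ) (l : ℕ) : (1 - z) ^ 2 * ∑ j ∈ Finset.range (l + 1), (j : ℂ) ^ 2 * z ^ j =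
    -z + 2 * (∑ j ∈ Finset.range l, z ^ (j + 1)) + (2 - ((l : ℂ) + 1) ^ 2) * z ^ (l + 1) +
      (l : ℂ) ^ 2 * z ^ (l + 2) := by
  induction l with
  | zero =>
    simp
    ring
  | succ l ih =>
    rw [Finset.sum_range_succ, mul_add, ih, Finset.sum_range_succ (fun j => z ^ (j + 1)) l]
    push_cast
    ring

theorem sumC (z : ℂ) (hz : ‖z‖ = 1) (l : ℕ) :
    ‖(1 - z) ^ 2 * ∑ j ∈ Finset.range (l + 1),
      ((1 - j / (l + 1 : ℕ) : ℝ) : ℂ) * ((j : ℂ) * z ^ j)‖ ≤ 4 := by
  have hl : ((l : ℂ) + 1) ≠ 0 := by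
    exact_mod_cast Nat.succ_ne_zero l
  have e : (1 - z) ^ 2 * ∑ j ∈ Finset.range (l + 1),
      ((1 - j / (l + 1 : ℕ) : ℝ) : ℂ) * ((j : ℂ) * z ^ j) =
      (1 / ((l : ℂ) + 1)) * (((l : ℂ) + 2) * z - 2 * (∑ j ∈ Finset.range l, z ^ (j + 1)) -
        2 * z ^ (l + 1) + (l : ℂ) * z ^ (l + 2)) := by
    have h1 : ∑ j ∈ Finset.range (l + 1), ((1 - j / (l + 1 : ℕ) : ℝ) : ℂ) * ((j : ℂ) * z ^ j) =
        (∑ j ∈ Finset.range (l + 1), (j : ℂ) * z ^ j) -
          (1 / ((l : ℂ) + 1)) * ∑ j ∈ Finset.range (l + 1), (j : ℂ) ^ 2 * z ^ j := by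
      rw [Finset.mul_sum, ← Finset.sum_sub_distrib]
      apply Finset.sum_congr rfl
      intro j _
      push_cast
      ring
    rw [h1, mul_sub, sumA]
    have h2 : (1 - z) ^ 2 * ((1 / ((l : ℂ) + 1)) * ∑ j ∈ Finset.range (l + 1),
        (j : ℂ) ^ 2 * z ^ j) = (1 / ((l : ℂ) + 1)) * ((1 - z) ^ 2 *
          ∑ j ∈ Finset.range (l + 1), (j : ℂ) ^ 2 * z ^ j) := by ring
    rw [h2, sumB]
    push_cast
    field_simp
    ring
  rw [e, norm_mul, norm_div, norm_one]
  have hn : ‖(l : ℂ) + 1‖ = l + 1 := by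
    have : (l : ℂ) + 1 = ((l + 1 : ℝ) : ℂ) := by push_cast; ring
    rw [this, Complex.norm_real, Real.norm_eq_abs, abs_of_pos (by positivity)]
  have hzp : ∀ k : ℕ, ‖z ^ k‖ = 1 := fun k => by rw [norm_pow, hz, one_pow]
  rw [hn]
  have h1 : ‖((l : ℂ) + 2) * z - 2 * (∑ j ∈ Finset.range l, z ^ (j + 1)) -
        2 * z ^ (l + 1) + (l : ℂ) * z ^ (l + 2)‖ ≤ (l + 2) + 2 * l + 2 + l := by
    refine (norm_add_le _ _).trans ?_
    refine add_le_add ((norm_sub_le _ _).trans (add_le_add ((norm_sub_le _ _).trans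
      (add_le_add ?_ ?_)) ?_)) ?_
    · rw [norm_mul, hz, mul_one]
      have : (l : ℂ) + 2 = ((l + 2 : ℝ) : ℂ) := by push_cast; ring
      rw [this, Complex.norm_real, Real.norm_eq_abs, abs_of_pos (by positivity)]
    · rw [norm_mul]
      have h3 : ‖∑ j ∈ Finset.range l, z ^ (j + 1)‖ ≤ l := by
        refine (norm_sum_le _ _).trans ?_
        simp_rw [hzp]
        simp
      have h4 : ‖(2:ℂ)‖ = 2 := by norm_num
      rw [h4]
      linarith
    · rw [norm_mul, hzp]
      norm_num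
    · rw [norm_mul, hzp, mul_one]
      simp
  rw [one_div, ← div_eq_inv_mul, div_le_iff₀ (by positivity)]
  linarith

theorem Kl'_le (l : ℕ) (t : ℝ) : ‖1 - ch 1 t‖ ^ 2 * ‖Kl' l t‖ ≤ 8 * Real.pi := by
  cases l with
  | zero =>
    unfold Kl'
    simp [Real.pi_pos.le]
  | succ l =>
    have e : Kl' (l + 1) t = ((2 * Real.pi : ℝ) : ℂ) * Complex.I *
        ∑ j ∈ Finset.range (l + 1), ((1 - j / (l + 1 : ℕ) : ℝ) : ℂ) * ((j : ℂ) * ch 1 t ^ j) := by
      unfold Kl'
      rw [Finset.mul_sum]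
      apply Finset.sum_congr rfl
      intro j _
      rw [ch_pow j t]
      push_cast
      ring
    rw [e, norm_mul, norm_mul, Complex.norm_I, mul_one, Complex.norm_real, Real.norm_eq_abs,
      abs_of_pos (by positivity : 0 < 2 * Real.pi)]
    have h := sumC (ch 1 t) (ch_norm 1 t) l
    rw [norm_mul, norm_pow] at h
    have hpi := Real.pi_pos
    nlinarith

theorem Kl'_le2 (l : ℕ) {t δ : ℝ} (hδ : 0 < δ) (h : δ ≤ dZ t) :
    ‖Kl' l t‖ ≤ Real.pi / (2 * δ ^ 2) := by
  have h1 := Kl'_le l t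
  have h2 := one_sub_ch t
  have h3 : (4 * δ) ^ 2 ≤ ‖1 - ch 1 t‖ ^ 2 := pow_le_pow_left₀ (by positivity) (by linarith) 2
  have h4 : (4 * δ) ^ 2 * ‖Kl' l t‖ ≤ 8 * Real.pi :=
    (mul_le_mul_of_nonneg_right h3 (norm_nonneg _)).trans h1
  rw [le_div_iff₀ (by positivity)]
  nlinarith

theorem Kl_diff (l : ℕ) {x y c δ : ℝ} (hδ : 0 < δ) (h : ∀ z ∈ uIcc c y, δ ≤ dZ (x - z)) :
    ‖Kl l (x - y) - Kl l (x - c)‖ ≤ Real.pi / (2 * δ ^ 2) * |y - c| := by
  have hd : ∀ z ∈ uIcc c y, HasDerivWithinAt (fun z => Kl l (x - z)) (Kl' l (x - z) * (-1))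
      (uIcc c y) z := by
    intro z _
    have h1 : HasDerivAt (fun z => x - z) (-1) z := by
      simpa using (hasDerivAt_id z).const_sub x
    have h2 := (Kl_hasDeriv l (x - z)).scomp z h1
    rw [neg_smul, one_smul] at h2
    have e : Kl' l (x - z) * (-1) = -Kl' l (x - z) := by ring
    rw [e]
    exact h2.hasDerivWithinAt
  have hb : ∀ z ∈ uIcc c y, ‖Kl' l (x - z) * (-1)‖ ≤ Real.pi / (2 * δ ^ 2) := by
    intro z hz
    rw [norm_mul, norm_neg, norm_one, mul_one]
    exact Kl'_le2 l hδ (h z hz)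
  have := (convex_uIcc c y).norm_image_sub_le_of_norm_hasDerivWithin_le hd hb
    left_mem_uIcc right_mem_uIcc
  rwa [Real.norm_eq_abs] at this

theorem Kl_hor_pt (l : ℕ) {x y c h : ℝ} (hh : 0 < h) (hy : |y - c| ≤ h) (hx : 2 * h ≤ dZ (x - c)) :
    ‖Kl l (x - y) - Kl l (x - c)‖ ≤ 2 * Real.pi * h / dZ (x - c) ^ 2 := by
  have hd : 0 < dZ (x - c) := by linarith
  have h1 := Kl_diff l (x := x) (y := y) (c := c) (δ := dZ (x - c) / 2) (by positivity) (by
    intro z hz
    have h2 : |z - c| ≤ |y - c| := by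
      rw [abs_sub_comm z c, abs_sub_comm y c]
      rcases le_total c y with hcy | hcy
      · rw [uIcc_of_le hcy] at hz
        rw [abs_of_nonpos (by linarith [hz.1]), abs_of_nonpos (by linarith)]
        linarith [hz.2]
      · rw [uIcc_of_ge hcy] at hz
        rw [abs_of_nonneg (by linarith [hz.2]), abs_of_nonneg (by linarith)]
        linarith [hz.1]
    have h3 := dZ_sub (x - c) (z - c)
    have e : x - c - (z - c) = x - z := by ring
    rw [e] at h3
    linarith)
  refine h1.trans ?_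
  have e : Real.pi / (2 * (dZ (x - c) / 2) ^ 2) = 2 * Real.pi / dZ (x - c) ^ 2 := by
    field_simp
  rw [e]
  have e2 : 2 * Real.pi * h / dZ (x - c) ^ 2 = 2 * Real.pi / dZ (x - c) ^ 2 * h := by ring
  rw [e2]
  exact mul_le_mul_of_nonneg_left hy (by positivity)

/-- shifts of integrals of periodic functions -/
theorem lint_shift (G : UnitAddCircle → ℝ≥0∞) (c : ℝ) :
    ∫⁻ x, G ((x - c : ℝ) : UnitAddCircle) ∂m1 =
      ∫⁻ u in Ioc (-(1 / 2) : ℝ) (1 / 2), G (u : UnitAddCircle) := by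
  have h1 := UnitAddCircle.lintegral_preimage 0 (fun b => G (b - (c : UnitAddCircle)))
  have h2 := UnitAddCircle.lintegral_preimage (-(1 / 2)) G
  rw [zero_add] at h1
  have e : (-(1 / 2) : ℝ) + 1 = 1 / 2 := by norm_num
  rw [e] at h2
  rw [h2]
  have h3 : ∫⁻ b : UnitAddCircle, G (b - (c : UnitAddCircle)) = ∫⁻ b : UnitAddCircle, G b :=
    lintegral_sub_right_eq_self G _
  rw [← h3, ← h1]
  apply lintegral_congr
  intro x
  rw [AddCircle.coe_sub]

theorem dZ_small {u : ℝ} (h : |u| ≤ 1 / 2) : dZ u = |u| := by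
  unfold dZ
  rw [AddCircle.norm_coe_eq_abs_iff (1:ℝ) one_ne_zero]
  simpa using h

theorem vol_near (c h : ℝ) :
    m1 {x | dZ (x - c) < h} ≤ ENNReal.ofReal (2 * h) := by
  have h1 := lint_shift (fun b => {b : UnitAddCircle | ‖b‖ < h}.indicator (fun _ => (1:ℝ≥0∞)) b) c
  have hm : MeasurableSet {x : ℝ | dZ (x - c) < h} :=
    (isOpen_lt (dZ_cont.comp (continuous_id.sub continuous_const)) continuous_const).measurableSet
  have e1 : m1 {x | dZ (x - c) < h} = ∫⁻ x, {b : UnitAddCircle | ‖b‖ < h}.indicator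
      (fun _ => (1:ℝ≥0∞)) ((x - c : ℝ) : UnitAddCircle) ∂m1 := by
    rw [← lintegral_indicator_one hm]
    rfl
  rw [e1, h1]
  calc ∫⁻ u in Ioc (-(1 / 2) : ℝ) (1 / 2), {b : UnitAddCircle | ‖b‖ < h}.indicator
        (fun _ => (1:ℝ≥0∞)) (u : UnitAddCircle)
      ≤ ∫⁻ u in Ioc (-(1 / 2) : ℝ) (1 / 2), (Ioo (-h) h).indicator (fun _ => (1:ℝ≥0∞)) u := by
        apply setLIntegral_mono' measurableSet_Ioc
        intro u hu
        by_cases hu2 : ‖(u : UnitAddCircle)‖ < h
        · have h3 : dZ u = |u| := dZ_small (abs_le.2 ⟨hu.1.le, hu.2⟩)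
          have h4 : |u| < h := by rw [← h3]; exact hu2
          rw [indicator_of_mem (show (u : UnitAddCircle) ∈ {b : UnitAddCircle | ‖b‖ < h} from hu2),
            indicator_of_mem (show u ∈ Ioo (-h) h from abs_lt.1 h4)]
        · rw [indicator_of_notMem (show (u : UnitAddCircle) ∉ {b : UnitAddCircle | ‖b‖ < h}
            from hu2)]
          exact zero_le
    _ ≤ ∫⁻ u, (Ioo (-h) h).indicator (fun _ => (1:ℝ≥0∞)) u := setLIntegral_le_lintegral _ _
    _ = ENNReal.ofReal (2 * h) := by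
        rw [lintegral_indicator measurableSet_Ioo, setLIntegral_one, Real.volume_Ioo]
        congr 1
        ring

theorem int_far (c : ℝ) {h : ℝ} (hh : 0 < h) :
    ∫⁻ x in {x | 2 * h ≤ dZ (x - c)}, ENNReal.ofReal (2 * Real.pi * h / dZ (x - c) ^ 2) ∂m1 ≤ 7 := by
  have hm : MeasurableSet {x : ℝ | 2 * h ≤ dZ (x - c)} :=
    (isClosed_le continuous_const (dZ_cont.comp (continuous_id.sub continuous_const))).measurableSet
  rw [← lintegral_indicator hm]
  have h1 := lint_shift (fun b => {b : UnitAddCircle | 2 * h ≤ ‖b‖}.indicator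
    (fun b => ENNReal.ofReal (2 * Real.pi * h / ‖b‖ ^ 2)) b) c
  have e1 : ∫⁻ x, {x | 2 * h ≤ dZ (x - c)}.indicator
      (fun x => ENNReal.ofReal (2 * Real.pi * h / dZ (x - c) ^ 2)) x ∂m1 =
      ∫⁻ x, {b : UnitAddCircle | 2 * h ≤ ‖b‖}.indicator
        (fun b => ENNReal.ofReal (2 * Real.pi * h / ‖b‖ ^ 2)) ((x - c : ℝ) : UnitAddCircle) ∂m1 :=
    rfl
  rw [e1, h1]
  have hint : ∀ s : ℝ, 0 < s → ∫⁻ u in Ioi s, ENNReal.ofReal (2 * Real.pi * h / u ^ 2) =
      ENNReal.ofReal (2 * Real.pi * h / s) := by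
    intro s hs
    have hi : IntegrableOn (fun u : ℝ => 2 * Real.pi * h * u ^ (-2 : ℝ)) (Ioi s) :=
      (integrableOn_Ioi_rpow_of_lt (by norm_num) hs).const_mul _
    have e : ∀ u ∈ Ioi s, ENNReal.ofReal (2 * Real.pi * h / u ^ 2) =
        ENNReal.ofReal (2 * Real.pi * h * u ^ (-2 : ℝ)) := by
      intro u hu
      have hu0 : 0 < u := hs.trans hu
      congr 1
      rw [Real.rpow_neg hu0.le, Real.rpow_two]
      rfl
    rw [setLIntegral_congr_fun measurableSet_Ioi e, ← ofReal_integral_eq_lintegral_ofReal hi (by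
      rw [Filter.EventuallyLE, ae_restrict_iff' measurableSet_Ioi]
      refine Eventually.of_forall fun u hu => ?_
      have hu0 : 0 < u := hs.trans hu
      have := Real.pi_pos
      positivity), integral_const_mul, integral_Ioi_rpow_of_lt (by norm_num) hs]
    congr 1
    have e2 : (-2 + 1 : ℝ) = -1 := by norm_num
    rw [e2, Real.rpow_neg_one]
    field_simp
  calc ∫⁻ u in Ioc (-(1 / 2) : ℝ) (1 / 2), {b : UnitAddCircle | 2 * h ≤ ‖b‖}.indicator
        (fun b => ENNReal.ofReal (2 * Real.pi * h / ‖b‖ ^ 2)) (u : UnitAddCircle)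
      ≤ ∫⁻ u in Ioc (-(1 / 2) : ℝ) (1 / 2), ((Ici (2 * h)).indicator
          (fun u => ENNReal.ofReal (2 * Real.pi * h / u ^ 2)) u +
          (Iic (-(2 * h))).indicator (fun u => ENNReal.ofReal (2 * Real.pi * h / u ^ 2)) u) := by
        apply setLIntegral_mono' measurableSet_Ioc
        intro u hu
        by_cases hu2 : 2 * h ≤ ‖(u : UnitAddCircle)‖
        · have h3 : ‖(u : UnitAddCircle)‖ = |u| := dZ_small (abs_le.2 ⟨hu.1.le, hu.2⟩)
          rw [indicator_of_mem (show (u : UnitAddCircle) ∈ {b : UnitAddCircle | 2 * h ≤ ‖b‖}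
            from hu2), h3, sq_abs]
          rw [h3] at hu2
          rcases le_abs.1 hu2 with h4 | h4
          · rw [indicator_of_mem (show u ∈ Ici (2 * h) from h4)]
            exact le_self_add
          · rw [indicator_of_mem (show u ∈ Iic (-(2 * h)) from by
              rw [mem_Iic]; linarith)]
            exact le_add_self
        · rw [indicator_of_notMem (show (u : UnitAddCircle) ∉ {b : UnitAddCircle | 2 * h ≤ ‖b‖}
            from hu2)]
          exact zero_le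
    _ ≤ ∫⁻ u, ((Ici (2 * h)).indicator
          (fun u => ENNReal.ofReal (2 * Real.pi * h / u ^ 2)) u +
          (Iic (-(2 * h))).indicator (fun u => ENNReal.ofReal (2 * Real.pi * h / u ^ 2)) u) :=
        setLIntegral_le_lintegral _ _
    _ = (∫⁻ u in Ici (2 * h), ENNReal.ofReal (2 * Real.pi * h / u ^ 2)) +
          ∫⁻ u in Iic (-(2 * h)), ENNReal.ofReal (2 * Real.pi * h / u ^ 2) := by
        rw [lintegral_add_left, lintegral_indicator measurableSet_Ici,
          lintegral_indicator measurableSet_Iic]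
        exact (Measurable.ennreal_ofReal (by fun_prop)).indicator measurableSet_Ici
    _ = ENNReal.ofReal Real.pi + ENNReal.ofReal Real.pi := by
        congr 1
        · rw [setLIntegral_congr Ioi_ae_eq_Ici.symm, hint _ (by positivity)]
          congr 1
          field_simp
        · have h5 : ∫⁻ u in Iic (-(2 * h)), ENNReal.ofReal (2 * Real.pi * h / u ^ 2) =
              ∫⁻ u in Ici (2 * h), ENNReal.ofReal (2 * Real.pi * h / u ^ 2) := by
            have h6 := (Measure.measurePreserving_neg (volume : Measure ℝ)).setLIntegral_comp_preimage_emb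
              (MeasurableEquiv.neg ℝ).measurableEmbedding
              (fun u => ENNReal.ofReal (2 * Real.pi * h / u ^ 2)) (Iic (-(2 * h)))
            rw [← h6]
            have e : (Neg.neg ⁻¹' Iic (-(2 * h)) : Set ℝ) = Ici (2 * h) := by
              ext u
              simp
            rw [e]
            apply setLIntegral_congr_fun measurableSet_Ici
            intro u _
            simp
          rw [h5, setLIntegral_congr Ioi_ae_eq_Ici.symm, hint _ (by positivity)]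
          congr 1
          field_simp
    _ ≤ 7 := by
        rw [← ENNReal.ofReal_add Real.pi_pos.le Real.pi_pos.le]
        have : ENNReal.ofReal (Real.pi + Real.pi) ≤ ENNReal.ofReal 7 := by
          apply ENNReal.ofReal_le_ofReal
          have := Real.pi_lt_d2
          linarith
        refine this.trans (le_of_eq ?_)
        norm_num

/-- the condition on the kernel: continuity, period one, and both forms of Hörmander's condition -/
structure Hor (k : ℝ → ℂ) : Prop where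
  cont : Continuous k
  per : ∀ t, k (t + 1) = k t
  fwd : ∀ c h y : ℝ, 0 < h → |y - c| ≤ h →
    ∫⁻ x in {x | 2 * h ≤ dZ (x - c)}, ‖k (x - y) - k (x - c)‖ₑ ∂m1 ≤ 7
  bwd : ∀ c h y : ℝ, 0 < h → |y - c| ≤ h →
    ∫⁻ x in {x | 2 * h ≤ dZ (x - c)}, ‖k (y - x) - k (c - x)‖ₑ ∂m1 ≤ 7

theorem Kl_per (l : ℕ) (t : ℝ) : Kl l (t + 1) = Kl l t := by
  unfold Kl
  apply Finset.sum_congr rfl
  intro j _
  have := ch_period (j : ℤ) t
  rw [Int.cast_natCast] at this
  rw [this]

theorem Kl_fwd (l : ℕ) (c h y : ℝ) (hh : 0 < h) (hy : |y - c| ≤ h) :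
    ∫⁻ x in {x | 2 * h ≤ dZ (x - c)}, ‖Kl l (x - y) - Kl l (x - c)‖ₑ ∂m1 ≤ 7 := by
  have hm : MeasurableSet {x : ℝ | 2 * h ≤ dZ (x - c)} :=
    (isClosed_le continuous_const (dZ_cont.comp (continuous_id.sub continuous_const))).measurableSet
  refine le_trans ?_ (int_far c hh)
  apply setLIntegral_mono' hm
  intro x hx
  rw [← ofReal_norm]
  exact ENNReal.ofReal_le_ofReal (Kl_hor_pt l hh hy hx)

/-- the conjugate symmetry of the kernel -/
theorem Kl_neg (l : ℕ) (t : ℝ) : Kl l (-t) = (starRingEnd ℂ) (Kl l t) := by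
  unfold Kl
  rw [map_sum]
  apply Finset.sum_congr rfl
  intro j _
  rw [map_mul, Complex.conj_ofReal]
  congr 1
  unfold ch
  rw [← Complex.exp_conj, map_mul, Complex.conj_ofReal, Complex.conj_I]
  congr 1
  push_cast
  ring

theorem Kl_bwd (l : ℕ) (c h y : ℝ) (hh : 0 < h) (hy : |y - c| ≤ h) :
    ∫⁻ x in {x | 2 * h ≤ dZ (x - c)}, ‖Kl l (y - x) - Kl l (c - x)‖ₑ ∂m1 ≤ 7 := by
  have e : ∀ x, ‖Kl l (y - x) - Kl l (c - x)‖ₑ = ‖Kl l (x - y) - Kl l (x - c)‖ₑ := by
    intro x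
    have e1 : y - x = -(x - y) := by ring
    have e2 : c - x = -(x - c) := by ring
    rw [e1, e2, Kl_neg, Kl_neg, ← map_sub, ← ofReal_norm, ← ofReal_norm, RCLike.norm_conj]
  simp_rw [e]
  exact Kl_fwd l c h y hh hy

theorem Kl_hor (l : ℕ) : Hor (Kl l) := ⟨Kl_cont l, Kl_per l, Kl_fwd l, Kl_bwd l⟩

/-- the other kernel -/
noncomputable def Km (l : ℕ) (t : ℝ) : ℂ := Kl l (-t) - 1

theorem Km_hor (l : ℕ) : Hor (Km l) := by
  refine ⟨?_, ?_, ?_, ?_⟩
  · exact ((Kl_cont l).comp continuous_neg).sub continuous_const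
  · intro t
    unfold Km
    have : -(t + 1) + 1 = -t := by ring
    rw [← Kl_per l (-(t + 1)), this]
  · intro c h y hh hy
    have e : ∀ x, ‖Km l (x - y) - Km l (x - c)‖ₑ = ‖Kl l (y - x) - Kl l (c - x)‖ₑ := by
      intro x
      unfold Km
      rw [sub_sub_sub_cancel_right, neg_sub, neg_sub]
    simp_rw [e]
    exact Kl_bwd l c h y hh hy
  · intro c h y hh hy
    have e : ∀ x, ‖Km l (y - x) - Km l (c - x)‖ₑ = ‖Kl l (x - y) - Kl l (x - c)‖ₑ := by
      intro x
      unfold Km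
      rw [sub_sub_sub_cancel_right, neg_sub, neg_sub]
    simp_rw [e]
    exact Kl_fwd l c h y hh hy

end Pool.Agent.K7.H81.FD
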