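import Pool.Agent.K7.H81.FA

set_option autoImplicit false
set_option linter.unusedSectionVars false
set_option linter.unusedVariables false

/-!
# Convolution operators with Hörmander kernels: the weak type estimate
-/

namespace Pool.Agent.K7.H81.FD

open MeasureTheory Set Filter Topology Pool.Agent.R955.FD
open scoped ENNReal

universe u

/-- `w` is constant on each of the `2^d` intervals of equal length of `(a, a + l]` -/
def Step {α : Type*} : ℕ → ℝ → ℝ → (ℝ → α) → Prop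
  | 0, a, l, w => ∃ c, ∀ x ∈ Ioc a (a + l), w x = c
  | d + 1, a, l, w => Step d a (l / 2) w ∧ Step d (a + l / 2) (l / 2) w

/-- the interval `(a, a + l]` -/
def Iv (I : ℝ × ℝ) : Set ℝ := Ioc I.1 (I.1 + I.2)

theorem Iv_meas (I : ℝ × ℝ) : MeasurableSet (Iv I) := measurableSet_Ioc

/-- the conclusion of the decomposition -/
def CZ (w : ℝ → ℝ≥0∞) (L : ℝ≥0∞) (a l : ℝ) : Prop :=
  ∃ S : Finset (ℝ × ℝ), (∀ I ∈ S, 0 < I.2 ∧ Iv I ⊆ Ioc a (a + l) ∧
    L * ENNReal.ofReal I.2 < ∫⁻ x in Iv I, w x ∧ ∫⁻ x in Iv I, w x ≤ 2 * L * ENNReal.ofReal I.2) ∧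
    (∀ I ∈ S, ∀ J ∈ S, I ≠ J → Disjoint (Iv I) (Iv J)) ∧
    ∀ x ∈ Ioc a (a + l), (∀ I ∈ S, x ∉ Iv I) → w x ≤ L

theorem half_union {a l : ℝ} (hl : 0 < l) :
    Ioc a (a + l) = Ioc a (a + l / 2) ∪ Ioc (a + l / 2) (a + l / 2 + l / 2) := by
  rw [Ioc_union_Ioc_eq_Ioc (by linarith) (by linarith)]
  congr 1
  ring

theorem cz_aux (w : ℝ → ℝ≥0∞) {L : ℝ≥0∞} (hL : L ≠ 0) (hL' : L ≠ ∞) (d : ℕ) :
    ∀ a l : ℝ, 0 < l → Step d a l w → ∫⁻ x in Ioc a (a + l), w x ≤ L * ENNReal.ofReal l →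
      CZ w L a l := by
  induction d with
  | zero =>
    intro a l hl hs hw
    obtain ⟨c, hc⟩ := hs
    refine ⟨∅, by simp, by simp, ?_⟩
    intro x hx _
    rw [hc x hx]
    have h1 : ∫⁻ x in Ioc a (a + l), w x = c * ENNReal.ofReal l := by
      rw [setLIntegral_congr_fun measurableSet_Ioc hc, setLIntegral_const, Real.volume_Ioc]
      congr 2
      ring
    rw [h1] at hw
    have h0 : ENNReal.ofReal l ≠ 0 := by
      rw [Ne, ENNReal.ofReal_eq_zero, not_le]
      exact hl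
    exact (ENNReal.mul_le_mul_iff_left h0 ENNReal.ofReal_ne_top).1 hw
  | succ d ih =>
    intro a l hl hs hw
    have hl2 : 0 < l / 2 := by positivity
    have key : ∀ b : ℝ, Step d b (l / 2) w → Ioc b (b + l / 2) ⊆ Ioc a (a + l) →
        CZ w L b (l / 2) := by
      intro b hb hsub
      by_cases h : ∫⁻ x in Ioc b (b + l / 2), w x ≤ L * ENNReal.ofReal (l / 2)
      · exact ih b (l / 2) hl2 hb h
      · refine ⟨{(b, l / 2)}, ?_, ?_, ?_⟩
        · intro I hI
          rw [Finset.mem_singleton] at hI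
          subst hI
          refine ⟨hl2, subset_rfl, not_le.1 h, ?_⟩
          refine (lintegral_mono_set hsub).trans (hw.trans (le_of_eq ?_))
          show L * ENNReal.ofReal l = 2 * L * ENNReal.ofReal (l / 2)
          have e : ENNReal.ofReal l = 2 * ENNReal.ofReal (l / 2) := by
            have : (2 : ℝ≥0∞) = ENNReal.ofReal 2 := by norm_num
            rw [this, ← ENNReal.ofReal_mul (by norm_num)]
            congr 1
            ring
          rw [e]
          ring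
        · intro I hI J hJ hne
          rw [Finset.mem_singleton] at hI hJ
          exact absurd (hI.trans hJ.symm) hne
        · intro x hx hx2
          exact absurd hx (hx2 _ (Finset.mem_singleton_self _))
    have hu := half_union (a := a) hl
    have s1 : Ioc a (a + l / 2) ⊆ Ioc a (a + l) := by rw [hu]; exact subset_union_left
    have s2 : Ioc (a + l / 2) (a + l / 2 + l / 2) ⊆ Ioc a (a + l) := by
      rw [hu]; exact subset_union_right
    obtain ⟨S1, p1, d1, c1⟩ := key a hs.1 s1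
    obtain ⟨S2, p2, d2, c2⟩ := key (a + l / 2) hs.2 s2
    have hdis : Disjoint (Ioc a (a + l / 2)) (Ioc (a + l / 2) (a + l / 2 + l / 2)) := by
      rw [Set.disjoint_left]
      intro x hx hx2
      exact absurd hx2.1 (not_lt.2 hx.2)
    classical
    refine ⟨S1 ∪ S2, ?_, ?_, ?_⟩
    · intro I hI
      rcases Finset.mem_union.1 hI with h | h
      · obtain ⟨q1, q2, q3, q4⟩ := p1 I h
        exact ⟨q1, q2.trans s1, q3, q4⟩
      · obtain ⟨q1, q2, q3, q4⟩ := p2 I h
        exact ⟨q1, q2.trans s2, q3, q4⟩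
    · intro I hI J hJ hne
      rcases Finset.mem_union.1 hI with h | h <;> rcases Finset.mem_union.1 hJ with h' | h'
      · exact d1 I h J h' hne
      · exact hdis.mono (p1 I h).2.1 (p2 J h').2.1
      · exact (hdis.mono (p1 J h').2.1 (p2 I h).2.1).symm
      · exact d2 I h J h' hne
    · intro x hx hx2
      rw [hu] at hx
      rcases hx with hx | hx
      · exact c1 x hx fun I hI => hx2 I (Finset.mem_union_left _ hI)
      · exact c2 x hx fun I hI => hx2 I (Finset.mem_union_right _ hI)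

section
variable {X : Type u} [NormedAddCommGroup X] [NormedSpace ℂ X]

/-- bounded strongly measurable functions -/
def BM (g : ℝ → X) : Prop := StronglyMeasurable g ∧ ∃ M : ℝ, ∀ x, ‖g x‖ ≤ M

/-- the `p`-th power of the norm of `L^p` -/
noncomputable def Np (p : ℝ) (g : ℝ → X) : ℝ≥0∞ := ∫⁻ x, ‖g x‖ₑ ^ p ∂m1

/-- convolution with the kernel `k` on the circle -/
noncomputable def TK (k : ℝ → ℂ) (g : ℝ → X) (x : ℝ) : X := ∫ y, k (x - y) • g y ∂m1

theorem BM.add {g h : ℝ → X} (hg : BM g) (hh : BM h) : BM (fun x => g x + h x) := by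
  obtain ⟨M, hM⟩ := hg.2
  obtain ⟨N, hN⟩ := hh.2
  exact ⟨hg.1.add hh.1, M + N, fun x => (norm_add_le _ _).trans (add_le_add (hM x) (hN x))⟩

theorem BM.sub {g h : ℝ → X} (hg : BM g) (hh : BM h) : BM (fun x => g x - h x) := by
  obtain ⟨M, hM⟩ := hg.2
  obtain ⟨N, hN⟩ := hh.2
  exact ⟨hg.1.sub hh.1, M + N, fun x => (norm_sub_le _ _).trans (add_le_add (hM x) (hN x))⟩

theorem BM.ind {g : ℝ → X} (hg : BM g) {s : Set ℝ} (hs : MeasurableSet s) :
    BM (s.indicator g) := by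
  obtain ⟨M, hM⟩ := hg.2
  refine ⟨hg.1.indicator hs, M, fun x => ?_⟩
  exact (norm_indicator_le_norm_self g x).trans (hM x)

theorem BM.sum {ι : Type*} (S : Finset ι) {g : ι → ℝ → X} (hg : ∀ i ∈ S, BM (g i)) :
    BM (fun x => ∑ i ∈ S, g i x) := by
  classical
  induction S using Finset.induction_on with
  | empty => exact ⟨by simpa using stronglyMeasurable_const, 0, fun x => by simp⟩
  | insert i S hi ih =>
    simp_rw [Finset.sum_insert hi]
    exact (hg i (Finset.mem_insert_self _ _)).add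
      (ih fun j hj => hg j (Finset.mem_insert_of_mem hj))

theorem BM.const (c : X) : BM (fun _ : ℝ => c) := ⟨stronglyMeasurable_const, ‖c‖, fun _ => le_rfl⟩

theorem BM.integrable {g : ℝ → X} (hg : BM g) : Integrable g m1 := by
  obtain ⟨M, hM⟩ := hg.2
  exact Integrable.of_bound hg.1.aestronglyMeasurable M (Eventually.of_forall hM)

theorem BM.smul {g : ℝ → X} (hg : BM g) {k : ℝ → ℂ} (hk : Continuous k) {N : ℝ}
    (hN : ∀ x, ‖k x‖ ≤ N) : BM (fun x => k x • g x) := by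
  obtain ⟨M, hM⟩ := hg.2
  refine ⟨hk.stronglyMeasurable.smul hg.1, N * M, fun x => ?_⟩
  rw [norm_smul]
  exact mul_le_mul (hN x) (hM x) (norm_nonneg _) ((norm_nonneg _).trans (hN x))

theorem Hor.bdd {k : ℝ → ℂ} (hk : Hor k) : ∃ N : ℝ, ∀ t, ‖k t‖ ≤ N := by
  obtain ⟨N, hN⟩ := (isCompact_Icc (a := (0:ℝ)) (b := 1)).exists_bound_of_continuousOn
    hk.cont.continuousOn
  refine ⟨N, fun t => ?_⟩
  have hp : Function.Periodic k 1 := hk.per
  obtain ⟨s, hs, he⟩ := hp.exists_mem_Ico₀ one_pos t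
  rw [he]
  exact hN s ⟨hs.1, hs.2.le⟩

theorem TK_int {k : ℝ → ℂ} (hk : Hor k) {g : ℝ → X} (hg : BM g) (x : ℝ) :
    BM (fun y => k (x - y) • g y) := by
  obtain ⟨N, hN⟩ := hk.bdd
  exact hg.smul (k := fun y => k (x - y)) (hk.cont.comp (continuous_const.sub continuous_id))
    fun y => hN _

theorem TK_sub {k : ℝ → ℂ} (hk : Hor k) {g h : ℝ → X} (hg : BM g) (hh : BM h) (x : ℝ) :
    TK k (fun y => g y - h y) x = TK k g x - TK k h x := by
  unfold TK
  rw [← integral_sub (TK_int hk hg x).integrable (TK_int hk hh x).integrable]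
  simp_rw [smul_sub]

theorem TK_add {k : ℝ → ℂ} (hk : Hor k) {g h : ℝ → X} (hg : BM g) (hh : BM h) (x : ℝ) :
    TK k (fun y => g y + h y) x = TK k g x + TK k h x := by
  unfold TK
  rw [← integral_add (TK_int hk hg x).integrable (TK_int hk hh x).integrable]
  simp_rw [smul_add]

theorem TK_sum {k : ℝ → ℂ} (hk : Hor k) {ι : Type*} (S : Finset ι) {g : ι → ℝ → X}
    (hg : ∀ i ∈ S, BM (g i)) (x : ℝ) :
    TK k (fun y => ∑ i ∈ S, g i y) x = ∑ i ∈ S, TK k (g i) x := by
  unfold TK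
  rw [← integral_finsetSum _ fun i hi => (TK_int hk (hg i hi) x).integrable]
  simp_rw [Finset.smul_sum]

theorem TK_cont {k : ℝ → ℂ} (hk : Hor k) {g : ℝ → X} (hg : BM g) : Continuous (TK k g) := by
  obtain ⟨N, hN⟩ := hk.bdd
  obtain ⟨M, hM⟩ := hg.2
  unfold TK
  refine continuous_of_dominated (bound := fun _ => N * M)
    (fun x => (TK_int hk hg x).1.aestronglyMeasurable) (fun x => Eventually.of_forall fun y => ?_)
    (integrable_const _) (Eventually.of_forall fun y => ?_)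
  · rw [norm_smul]
    exact mul_le_mul (hN _) (hM y) (norm_nonneg _) ((norm_nonneg _).trans (hN 0))
  · exact (hk.cont.comp (continuous_id.sub continuous_const)).smul continuous_const

theorem TK_BM {k : ℝ → ℂ} (hk : Hor k) {g : ℝ → X} (hg : BM g) : BM (TK k g) := by
  obtain ⟨N, hN⟩ := hk.bdd
  obtain ⟨M, hM⟩ := hg.2
  refine ⟨(TK_cont hk hg).stronglyMeasurable, N * M, fun x => ?_⟩
  unfold TK
  refine (norm_integral_le_of_norm_le_const (C := N * M) (Eventually.of_forall fun y => ?_)).trans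
    (by simp)
  rw [norm_smul]
  exact mul_le_mul (hN _) (hM y) (norm_nonneg _) ((norm_nonneg _).trans (hN 0))

variable [CompleteSpace X]

/-- the part of `g` on an interval, minus its mean -/
noncomputable def Bd (g : ℝ → X) (I : ℝ × ℝ) : ℝ → X :=
  (Iv I).indicator fun x => g x - (I.2)⁻¹ • ∫ y in Iv I, g y

theorem Bd_BM {g : ℝ → X} (hg : BM g) (I : ℝ × ℝ) : BM (Bd g I) :=
  BM.ind (hg.sub (BM.const _)) (Iv_meas I)

theorem Iv_vol {I : ℝ × ℝ} : volume (Iv I) = ENNReal.ofReal I.2 := by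
  unfold Iv
  rw [Real.volume_Ioc]
  congr 1
  ring

theorem Bd_int {g : ℝ → X} (hg : BM g) {I : ℝ × ℝ} (hI : 0 < I.2) (hs : Iv I ⊆ Ioc 0 1) :
    ∫ y, Bd g I y ∂m1 = 0 := by
  have h1 : ∫ y, Bd g I y ∂m1 = ∫ y in Iv I, (g y - (I.2)⁻¹ • ∫ y in Iv I, g y) := by
    unfold Bd
    rw [integral_indicator (Iv_meas I), Measure.restrict_restrict (Iv_meas I),
      inter_eq_self_of_subset_left hs]
  have hi : IntegrableOn g (Iv I) volume := by
    have h2 : IntegrableOn g (Ioc 0 1) volume := hg.integrable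
    exact h2.mono_set hs
  have hfin : volume (Iv I) ≠ ∞ := by
    rw [Iv_vol]
    exact ENNReal.ofReal_ne_top
  rw [h1, integral_sub hi (integrableOn_const hfin), setIntegral_const]
  have h3 : volume.real (Iv I) = I.2 := by
    unfold Measure.real
    rw [Iv_vol, ENNReal.toReal_ofReal hI.le]
  rw [h3, smul_smul, mul_inv_cancel₀ hI.ne', one_smul, sub_self]

theorem avg_le {g : ℝ → X} {I : ℝ × ℝ} (hI : 0 < I.2) :
    ENNReal.ofReal I.2 * ‖(I.2)⁻¹ • ∫ y in Iv I, g y‖ₑ ≤ ∫⁻ y in Iv I, ‖g y‖ₑ := by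
  rw [enorm_smul]
  have h1 : ENNReal.ofReal I.2 * ‖(I.2)⁻¹‖ₑ = 1 := by
    rw [Real.enorm_eq_ofReal (by positivity), ← ENNReal.ofReal_mul hI.le,
      mul_inv_cancel₀ hI.ne', ENNReal.ofReal_one]
  rw [← mul_assoc, h1, one_mul]
  exact enorm_integral_le_lintegral_enorm _

theorem Bd_norm {g : ℝ → X} (hg : BM g) {I : ℝ × ℝ} (hI : 0 < I.2) (hs : Iv I ⊆ Ioc 0 1) :
    ∫⁻ y, ‖Bd g I y‖ₑ ∂m1 ≤ 2 * ∫⁻ y in Iv I, ‖g y‖ₑ := by
  have h1 : ∫⁻ y, ‖Bd g I y‖ₑ ∂m1 = ∫⁻ y in Iv I, ‖g y - (I.2)⁻¹ • ∫ y in Iv I, g y‖ₑ := by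
    have e : ∀ y, ‖Bd g I y‖ₑ =
        (Iv I).indicator (fun y => ‖g y - (I.2)⁻¹ • ∫ y in Iv I, g y‖ₑ) y := by
      intro y
      unfold Bd
      rw [enorm_indicator_eq_indicator_enorm]
    simp_rw [e]
    rw [lintegral_indicator (Iv_meas I), Measure.restrict_restrict (Iv_meas I),
      inter_eq_self_of_subset_left hs]
  rw [h1]
  calc ∫⁻ y in Iv I, ‖g y - (I.2)⁻¹ • ∫ y in Iv I, g y‖ₑ
      ≤ ∫⁻ y in Iv I, (‖g y‖ₑ + ‖(I.2)⁻¹ • ∫ y in Iv I, g y‖ₑ) :=
        lintegral_mono fun y => enorm_sub_le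
    _ = (∫⁻ y in Iv I, ‖g y‖ₑ) + ENNReal.ofReal I.2 * ‖(I.2)⁻¹ • ∫ y in Iv I, g y‖ₑ := by
        rw [lintegral_add_right _ measurable_const, setLIntegral_const, Iv_vol, mul_comm]
    _ ≤ (∫⁻ y in Iv I, ‖g y‖ₑ) + ∫⁻ y in Iv I, ‖g y‖ₑ := add_le_add le_rfl (avg_le hI)
    _ = _ := (two_mul _).symm

/-- the operator applied to a piece, away from it -/
theorem TK_Bd {k : ℝ → ℂ} (hk : Hor k) {g : ℝ → X} (hg : BM g) {I : ℝ × ℝ} (hI : 0 < I.2)
    (hs : Iv I ⊆ Ioc 0 1) :
    ∫⁻ x in {x | 2 * (I.2 / 2) ≤ dZ (x - (I.1 + I.2 / 2))}, ‖TK k (Bd g I) x‖ₑ ∂m1 ≤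
      14 * ∫⁻ y in Iv I, ‖g y‖ₑ := by
  set c := I.1 + I.2 / 2 with hc
  set h := I.2 / 2 with hh
  have hh0 : 0 < h := by positivity
  have hB := Bd_BM hg I
  have hm : MeasurableSet {x : ℝ | 2 * h ≤ dZ (x - c)} :=
    (isClosed_le continuous_const (dZ_cont.comp (continuous_id.sub continuous_const))).measurableSet
  have hpt : ∀ x, ‖TK k (Bd g I) x‖ₑ ≤
      ∫⁻ y, ‖k (x - y) - k (x - c)‖ₑ * ‖Bd g I y‖ₑ ∂m1 := by
    intro x
    have e : TK k (Bd g I) x = ∫ y, (k (x - y) - k (x - c)) • Bd g I y ∂m1 := by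
      simp_rw [sub_smul]
      have i1 := (TK_int hk hB x).integrable
      have i2 : Integrable (fun y => k (x - c) • Bd g I y) m1 := hB.integrable.smul _
      rw [integral_sub i1 i2, integral_smul, Bd_int hg hI hs, smul_zero, sub_zero]
      rfl
    rw [e]
    refine (enorm_integral_le_lintegral_enorm _).trans (le_of_eq ?_)
    simp_rw [enorm_smul]
  have hm1 : Measurable (fun z : ℝ × ℝ => ‖k (z.1 - z.2) - k (z.1 - c)‖ₑ) :=
    ((hk.cont.comp (continuous_fst.sub continuous_snd)).sub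
        (hk.cont.comp (continuous_fst.sub continuous_const))).enorm.measurable
  have hm2 : Measurable (fun z : ℝ × ℝ => ‖Bd g I z.2‖ₑ) := hB.1.enorm.comp measurable_snd
  have hmeas : Measurable (fun z : ℝ × ℝ => ‖k (z.1 - z.2) - k (z.1 - c)‖ₑ * ‖Bd g I z.2‖ₑ) :=
    hm1.mul hm2
  calc ∫⁻ x in {x | 2 * h ≤ dZ (x - c)}, ‖TK k (Bd g I) x‖ₑ ∂m1
      ≤ ∫⁻ x in {x | 2 * h ≤ dZ (x - c)},
          ∫⁻ y, ‖k (x - y) - k (x - c)‖ₑ * ‖Bd g I y‖ₑ ∂m1 ∂m1 :=
        lintegral_mono fun x => hpt x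
    _ = ∫⁻ y, ∫⁻ x in {x | 2 * h ≤ dZ (x - c)}, ‖k (x - y) - k (x - c)‖ₑ * ‖Bd g I y‖ₑ ∂m1 ∂m1 :=
        lintegral_lintegral_swap hmeas.aemeasurable
    _ ≤ ∫⁻ y, 7 * ‖Bd g I y‖ₑ ∂m1 := by
        apply lintegral_mono
        intro y
        show ∫⁻ x in {x | 2 * h ≤ dZ (x - c)}, ‖k (x - y) - k (x - c)‖ₑ * ‖Bd g I y‖ₑ ∂m1 ≤
          7 * ‖Bd g I y‖ₑ
        have hm3 : Measurable (fun x : ℝ => ‖k (x - y) - k (x - c)‖ₑ) :=
          ((hk.cont.comp (continuous_id.sub continuous_const)).sub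
            (hk.cont.comp (continuous_id.sub continuous_const))).enorm.measurable
        rw [lintegral_mul_const'' _ hm3.aemeasurable]
        by_cases hy : y ∈ Iv I
        · apply mul_le_mul_of_nonneg_right _ (zero_le)
          apply hk.fwd c h y hh0
          rw [abs_le]
          have := hy.1
          have := hy.2
          constructor <;> linarith
        · have : Bd g I y = 0 := by
            unfold Bd
            exact indicator_of_notMem hy _
          rw [this]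
          simp
    _ = 7 * ∫⁻ y, ‖Bd g I y‖ₑ ∂m1 := lintegral_const_mul _ hB.1.enorm
    _ ≤ 7 * (2 * ∫⁻ y in Iv I, ‖g y‖ₑ) := by gcongr; exact Bd_norm hg hI hs
    _ = _ := by ring

theorem lint_m1 (S : Finset (ℝ × ℝ)) (w : ℝ → ℝ≥0∞) (hs : ∀ I ∈ S, Iv I ⊆ Ioc 0 1)
    (hd : ∀ I ∈ S, ∀ J ∈ S, I ≠ J → Disjoint (Iv I) (Iv J)) :
    ∑ I ∈ S, ∫⁻ x in Iv I, w x ≤ ∫⁻ x, w x ∂m1 := by
  rw [← lintegral_biUnion_finset (fun I hI J hJ hne => hd I hI J hJ hne) (fun I _ => Iv_meas I)]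
  apply lintegral_mono_set
  intro x hx
  obtain ⟨I, hI, hx⟩ := mem_iUnion₂.1 hx
  exact hs I hI hx

theorem cheb (p : ℝ) (hp : 0 < p) (g : ℝ → X) (hg : StronglyMeasurable g) {l : ℝ} (hl : 0 < l) :
    m1 {x | ENNReal.ofReal l < ‖g x‖ₑ} ≤ (ENNReal.ofReal l ^ p)⁻¹ * Np p g := by
  have hL0 : ENNReal.ofReal l ≠ 0 := by
    rw [Ne, ENNReal.ofReal_eq_zero, not_le]; exact hl
  have hLp0 : ENNReal.ofReal l ^ p ≠ 0 := by
    rw [Ne, ENNReal.rpow_eq_zero_iff]
    rintro (⟨h, _⟩ | ⟨h, _⟩)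
    · exact hL0 h
    · exact ENNReal.ofReal_ne_top h
  have hLpt : ENNReal.ofReal l ^ p ≠ ∞ := ENNReal.rpow_ne_top_of_nonneg hp.le ENNReal.ofReal_ne_top
  have h1 := mul_meas_ge_le_lintegral (μ := m1) (hg.enorm.pow_const p) (ENNReal.ofReal l ^ p)
  have h2 : {x | ENNReal.ofReal l < ‖g x‖ₑ} ⊆ {x | ENNReal.ofReal l ^ p ≤ ‖g x‖ₑ ^ p} := by
    intro x hx
    exact ENNReal.rpow_le_rpow (le_of_lt hx) hp.le
  rw [mul_comm, ← div_eq_mul_inv, ENNReal.le_div_iff_mul_le (Or.inl hLp0) (Or.inl hLpt), mul_comm]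
  exact (mul_le_mul_right (measure_mono h2) _).trans h1

/-- **the weak type estimate** -/
theorem weak {k : ℝ → ℂ} (hk : Hor k) {p : ℝ} (hp : 1 < p) {C : ℝ≥0∞}
    (hC : ∀ g : ℝ → X, BM g → Np p (TK k g) ≤ C * Np p g) {g : ℝ → X} (hg : BM g) {d : ℕ}
    (hs : Step d 0 1 fun x => ‖g x‖ₑ) {l : ℝ} (hl : 0 < l) :
    m1 {x | ENNReal.ofReal l < ‖TK k g x‖ₑ} ≤
      (2 * 4 ^ p * C + 32) * (ENNReal.ofReal l)⁻¹ * ∫⁻ x, ‖g x‖ₑ ∂m1 := by
  set L := ENNReal.ofReal l with hL
  have hL0 : L ≠ 0 := by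
    rw [hL, Ne, ENNReal.ofReal_eq_zero, not_le]; exact hl
  have hLt : L ≠ ∞ := ENNReal.ofReal_ne_top
  set W := ∫⁻ x, ‖g x‖ₑ ∂m1 with hW
  rcases lt_or_ge L W with hcase | hcase
  · have h1 : m1 {x | L < ‖TK k g x‖ₑ} ≤ 1 := prob_le_one
    have h2 : 1 ≤ L⁻¹ * W := by
      rw [← ENNReal.inv_mul_cancel hL0 hLt]
      gcongr
    calc _ ≤ 1 := h1
      _ ≤ L⁻¹ * W := h2
      _ = 1 * (L⁻¹ * W) := (one_mul _).symm
      _ ≤ (2 * 4 ^ p * C + 32) * (L⁻¹ * W) := by
          gcongr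
          refine le_trans ?_ le_add_self
          norm_num
      _ = _ := by ring
  · obtain ⟨S, hS1, hS2, hS3⟩ := cz_aux (fun x => ‖g x‖ₑ) hL0 hLt d 0 1 one_pos hs (by
      rw [zero_add, ENNReal.ofReal_one, mul_one]
      exact hcase)
    rw [zero_add] at hS1 hS3
    have hsub : ∀ I ∈ S, Iv I ⊆ Ioc 0 1 := fun I hI => (hS1 I hI).2.1
    -- good part
    set B : ℝ → X := fun x => ∑ I ∈ S, Bd g I x with hB
    set G : ℝ → X := fun x => g x - B x with hG
    have hBI : ∀ I ∈ S, BM (Bd g I) := fun I _ => Bd_BM hg I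
    have hBB : BM B := BM.sum S hBI
    have hGB : BM G := hg.sub hBB
    have hsumW : ∑ I ∈ S, ∫⁻ x in Iv I, ‖g x‖ₑ ≤ W := lint_m1 S _ hsub hS2
    have hGle : ∀ x ∈ Ioc (0:ℝ) 1, ‖G x‖ₑ ≤ 2 * L := by
      intro x hx
      by_cases hx2 : ∃ I ∈ S, x ∈ Iv I
      · obtain ⟨I, hI, hxI⟩ := hx2
        have h1 : B x = g x - (I.2)⁻¹ • ∫ y in Iv I, g y := by
          rw [hB]
          simp only
          rw [Finset.sum_eq_single I]
          · unfold Bd
            exact indicator_of_mem hxI _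
          · intro J hJ hne
            unfold Bd
            exact indicator_of_notMem (fun hxJ =>
              (Set.disjoint_left.1 (hS2 J hJ I hI hne)) hxJ hxI) _
          · intro h
            exact absurd hI h
        have h2 : G x = (I.2)⁻¹ • ∫ y in Iv I, g y := by
          rw [hG]
          simp only
          rw [h1]
          abel
        rw [h2]
        have h3 := avg_le (g := g) (hS1 I hI).1
        have h4 := (hS1 I hI).2.2.2
        have h5 : ENNReal.ofReal I.2 ≠ 0 := by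
          rw [Ne, ENNReal.ofReal_eq_zero, not_le]
          exact (hS1 I hI).1
        have h6 : ENNReal.ofReal I.2 * ‖(I.2)⁻¹ • ∫ y in Iv I, g y‖ₑ ≤
            ENNReal.ofReal I.2 * (2 * L) := by
          refine h3.trans (h4.trans (le_of_eq ?_))
          ring
        exact (ENNReal.mul_le_mul_iff_right h5 ENNReal.ofReal_ne_top).1 h6
      · push Not at hx2
        have h1 : B x = 0 := by
          rw [hB]
          simp only
          apply Finset.sum_eq_zero
          intro I hI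
          unfold Bd
          exact indicator_of_notMem (hx2 I hI) _
        have h2 : G x = g x := by
          rw [hG]
          simp only
          rw [h1, sub_zero]
        rw [h2]
        refine (hS3 x hx hx2).trans ?_
        calc L = 1 * L := (one_mul _).symm
          _ ≤ 2 * L := by gcongr; norm_num
    have hGint : ∫⁻ x, ‖G x‖ₑ ∂m1 ≤ 3 * W := by
      calc ∫⁻ x, ‖G x‖ₑ ∂m1 ≤ ∫⁻ x, (‖g x‖ₑ + ∑ I ∈ S, ‖Bd g I x‖ₑ) ∂m1 := by
            apply lintegral_mono
            intro x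
            refine enorm_sub_le.trans (add_le_add le_rfl ?_)
            exact enorm_sum_le _ _
        _ = W + ∑ I ∈ S, ∫⁻ x, ‖Bd g I x‖ₑ ∂m1 := by
            rw [lintegral_add_left hg.1.enorm, lintegral_finsetSum _ fun I hI =>
              (hBI I hI).1.enorm]
        _ ≤ W + ∑ I ∈ S, 2 * ∫⁻ x in Iv I, ‖g x‖ₑ := by
            gcongr with I hI
            exact Bd_norm hg (hS1 I hI).1 (hsub I hI)
        _ ≤ W + 2 * W := by
            rw [← Finset.mul_sum]
            gcongr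
        _ = _ := by ring
    have hNG : Np p G ≤ (2 * L) ^ (p - 1) * (3 * W) := by
      unfold Np
      calc ∫⁻ x, ‖G x‖ₑ ^ p ∂m1 ≤ ∫⁻ x, (2 * L) ^ (p - 1) * ‖G x‖ₑ ∂m1 := by
            apply lintegral_mono_ae
            rw [ae_restrict_iff' measurableSet_Ioc]
            refine Eventually.of_forall fun x hx => ?_
            have h1 : ‖G x‖ₑ ^ p = ‖G x‖ₑ ^ (p - 1) * ‖G x‖ₑ := by
              have h2 : ‖G x‖ₑ ^ ((p - 1) + 1) = ‖G x‖ₑ ^ (p - 1) * ‖G x‖ₑ ^ (1:ℝ) :=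
                ENNReal.rpow_add_of_nonneg _ _ (by linarith) (by norm_num)
              rw [sub_add_cancel, ENNReal.rpow_one] at h2
              exact h2
            rw [h1]
            exact mul_le_mul_left (ENNReal.rpow_le_rpow (hGle x hx) (by linarith)) _
        _ = (2 * L) ^ (p - 1) * ∫⁻ x, ‖G x‖ₑ ∂m1 := lintegral_const_mul _ hGB.1.enorm
        _ ≤ _ := by gcongr
    -- decomposition of the operator
    have hdec : ∀ x, TK k g x = TK k G x + ∑ I ∈ S, TK k (Bd g I) x := by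
      intro x
      rw [← TK_sum hk S hBI x, ← TK_add hk hGB hBB]
      congr 1
      funext y
      rw [hG]
      simp
    set U : Set ℝ := ⋃ I ∈ S, {x | dZ (x - (I.1 + I.2 / 2)) < 2 * (I.2 / 2)} with hU
    have hl2 : ENNReal.ofReal (l / 2) = L / 2 := by
      rw [hL, ENNReal.ofReal_div_of_pos (by norm_num)]
      norm_num
    have hincl : {x | L < ‖TK k g x‖ₑ} ⊆ {x | ENNReal.ofReal (l / 2) < ‖TK k G x‖ₑ} ∪
        (U ∪ {x | L / 2 ≤ Uᶜ.indicator (fun x => ∑ I ∈ S, ‖TK k (Bd g I) x‖ₑ) x}) := by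
      intro x hx
      by_contra hcon
      rw [mem_union, mem_union, not_or, not_or] at hcon
      obtain ⟨c1, c2, c3⟩ := hcon
      have c1 : ‖TK k G x‖ₑ ≤ ENNReal.ofReal (l / 2) := not_lt.1 c1
      have c3 : Uᶜ.indicator (fun x => ∑ I ∈ S, ‖TK k (Bd g I) x‖ₑ) x < L / 2 := not_le.1 c3
      rw [indicator_of_mem (show x ∈ Uᶜ from c2)] at c3
      rw [hl2] at c1
      have h1 : ‖TK k g x‖ₑ < L := by
        rw [hdec x]
        calc ‖TK k G x + ∑ I ∈ S, TK k (Bd g I) x‖ₑ ≤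
              ‖TK k G x‖ₑ + ∑ I ∈ S, ‖TK k (Bd g I) x‖ₑ :=
              (enorm_add_le _ _).trans (add_le_add le_rfl (enorm_sum_le _ _))
          _ < L / 2 + L / 2 := ENNReal.add_lt_add_of_le_of_lt (by
              exact ne_top_of_le_ne_top (by finiteness) c1) c1 c3
          _ = L := ENNReal.add_halves L
      exact absurd hx (not_lt.2 h1.le)
    have hUm : MeasurableSet U := by
      apply Finset.measurableSet_biUnion
      intro I _
      exact (isOpen_lt (dZ_cont.comp (continuous_id.sub continuous_const))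
        continuous_const).measurableSet
    refine (measure_mono hincl).trans ((measure_union_le _ _).trans ?_)
    have t1 : m1 {x | ENNReal.ofReal (l / 2) < ‖TK k G x‖ₑ} ≤ 4 ^ p * C * L⁻¹ * (3 / 2 * W) := by
      refine (cheb p (by linarith) _ (TK_BM hk hGB).1 (by positivity)).trans ?_
      rw [hl2]
      calc ((L / 2) ^ p)⁻¹ * Np p (TK k G) ≤ ((L / 2) ^ p)⁻¹ *
            (C * ((2 * L) ^ (p - 1) * (3 * W))) := by
            gcongr
            exact (hC G hGB).trans (by gcongr)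
        _ = 4 ^ p * C * L⁻¹ * (3 / 2 * W) := by
            have e1 : ((L / 2) ^ p)⁻¹ = 2 ^ p * (L ^ p)⁻¹ := by
              rw [ENNReal.div_rpow_of_nonneg _ _ (by linarith), ENNReal.inv_div (by
                left
                exact ENNReal.rpow_ne_top_of_nonneg (by linarith) (by norm_num)) (by
                left
                have : (2:ℝ≥0∞) ^ p ≠ 0 := by simp
                exact this), ENNReal.div_eq_inv_mul, mul_comm]
            have e2 : (2 * L) ^ (p - 1) = 2 ^ (p - 1) * L ^ (p - 1) :=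
              ENNReal.mul_rpow_of_nonneg _ _ (by linarith)
            have e3 : L ^ (p - 1) * (L ^ p)⁻¹ = L⁻¹ := by
              rw [← ENNReal.rpow_neg, ← ENNReal.rpow_add _ _ hL0 hLt]
              have : p - 1 + -p = -1 := by ring
              rw [this, ENNReal.rpow_neg_one]
            have e4 : (4:ℝ≥0∞) ^ p = 2 ^ p * 2 ^ (p - 1) * 2 := by
              have h4 : (4:ℝ≥0∞) = 2 * 2 := by norm_num
              have h5 : (2:ℝ≥0∞) ^ (p - 1) * 2 = 2 ^ p := by
                have h6 : (2:ℝ≥0∞) ^ ((p - 1) + 1) = 2 ^ (p - 1) * 2 ^ (1:ℝ) :=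
                  ENNReal.rpow_add_of_nonneg _ _ (by linarith) (by norm_num)
                rw [sub_add_cancel, ENNReal.rpow_one] at h6
                exact h6.symm
              rw [mul_assoc, h5, h4, ENNReal.mul_rpow_of_nonneg _ _ (by linarith)]
            have e5 : (2:ℝ≥0∞) * (3 / 2) = 3 := ENNReal.mul_div_cancel (by norm_num) (by norm_num)
            rw [e1, e2, e4]
            calc 2 ^ p * (L ^ p)⁻¹ * (C * (2 ^ (p - 1) * L ^ (p - 1) * (3 * W)))
                = 2 ^ p * 2 ^ (p - 1) * C * (L ^ (p - 1) * (L ^ p)⁻¹) * (3 * W) := by ring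
              _ = 2 ^ p * 2 ^ (p - 1) * C * L⁻¹ * ((2 * (3 / 2)) * W) := by rw [e3, e5]
              _ = _ := by ring
    have t2 : m1 U ≤ 2 * L⁻¹ * W := by
      calc m1 U ≤ ∑ I ∈ S, m1 {x | dZ (x - (I.1 + I.2 / 2)) < 2 * (I.2 / 2)} :=
            measure_biUnion_finset_le _ _
        _ ≤ ∑ I ∈ S, 2 * L⁻¹ * ∫⁻ x in Iv I, ‖g x‖ₑ := by
            apply Finset.sum_le_sum
            intro I hI
            refine (vol_near _ _).trans ?_
            have h1 := (hS1 I hI).2.2.1.le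
            have h2 : ENNReal.ofReal (2 * (2 * (I.2 / 2))) = 2 * ENNReal.ofReal I.2 := by
              rw [show (2 * (2 * (I.2 / 2)) : ℝ) = 2 * I.2 by ring, ENNReal.ofReal_mul (by norm_num)]
              norm_num
            rw [h2, mul_assoc]
            gcongr
            calc ENNReal.ofReal I.2 = L⁻¹ * (L * ENNReal.ofReal I.2) := by
                  rw [← mul_assoc, ENNReal.inv_mul_cancel hL0 hLt, one_mul]
              _ ≤ _ := by gcongr
        _ ≤ _ := by
            rw [← Finset.mul_sum]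
            gcongr
    have t3 : m1 {x | L / 2 ≤ Uᶜ.indicator (fun x => ∑ I ∈ S, ‖TK k (Bd g I) x‖ₑ) x} ≤
        28 * L⁻¹ * W := by
      have hmf : ∀ I ∈ S, Measurable fun x => ‖TK k (Bd g I) x‖ₑ := fun I hI =>
        (TK_BM hk (hBI I hI)).1.enorm
      have hmS : Measurable (Uᶜ.indicator (fun x => ∑ I ∈ S, ‖TK k (Bd g I) x‖ₑ)) :=
        (Finset.measurable_fun_sum S hmf).indicator hUm.compl
      have h1 := mul_meas_ge_le_lintegral (μ := m1) hmS (L / 2)
      have h2 : ∫⁻ x, Uᶜ.indicator (fun x => ∑ I ∈ S, ‖TK k (Bd g I) x‖ₑ) x ∂m1 ≤ 14 * W := by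
        rw [lintegral_indicator hUm.compl, lintegral_finsetSum _ hmf]
        calc ∑ I ∈ S, ∫⁻ x in Uᶜ, ‖TK k (Bd g I) x‖ₑ ∂m1
            ≤ ∑ I ∈ S, 14 * ∫⁻ x in Iv I, ‖g x‖ₑ := by
              apply Finset.sum_le_sum
              intro I hI
              refine le_trans (lintegral_mono_set ?_) (TK_Bd hk hg (hS1 I hI).1 (hsub I hI))
              intro x hx
              by_contra hcon
              apply hx
              rw [hU, mem_iUnion₂]
              have h9 : dZ (x - (I.1 + I.2 / 2)) < 2 * (I.2 / 2) := lt_of_not_ge hcon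
              exact ⟨I, hI, h9⟩
          _ ≤ 14 * W := by
              rw [← Finset.mul_sum]
              gcongr
      have h3 := h1.trans h2
      have h4 : L / 2 ≠ 0 := ENNReal.div_ne_zero.2 ⟨hL0, by norm_num⟩
      have h5 : L / 2 ≠ ∞ := by finiteness
      rw [mul_comm, ← ENNReal.le_div_iff_mul_le (Or.inl h4) (Or.inl h5)] at h3
      refine h3.trans (le_of_eq ?_)
      rw [ENNReal.div_eq_inv_mul, ENNReal.inv_div (by left; norm_num) (by left; norm_num),
        ENNReal.div_eq_inv_mul]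
      ring
    calc _ ≤ 4 ^ p * C * L⁻¹ * (3 / 2 * W) + (2 * L⁻¹ * W + 28 * L⁻¹ * W) :=
          add_le_add t1 ((measure_union_le _ _).trans (add_le_add t2 t3))
      _ ≤ (2 * 4 ^ p * C + 32) * L⁻¹ * W := by
          have e5 : (3:ℝ≥0∞) / 2 ≤ 2 := by
            rw [ENNReal.div_le_iff_le_mul (by left; norm_num) (by left; norm_num)]
            norm_num
          calc 4 ^ p * C * L⁻¹ * (3 / 2 * W) + (2 * L⁻¹ * W + 28 * L⁻¹ * W) ≤
                4 ^ p * C * L⁻¹ * (2 * W) + (2 * L⁻¹ * W + 30 * L⁻¹ * W) := by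
                gcongr
                norm_num
            _ = _ := by ring

end

end Pool.Agent.K7.H81.FD
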