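import Pool.Agent.K7.H81.FB

set_option autoImplicit false
set_option linter.unusedSectionVars false
set_option linter.unusedVariables false

/-!
# A dyadic maximal function and a good-lambda inequality
-/

namespace Pool.Agent.K7.H81.FD

open MeasureTheory Set Filter Topology Pool.Agent.R955.FD
open scoped ENNReal

universe u

/-- averages -/
noncomputable def Av (w : ℝ → ℝ≥0∞) (a l : ℝ) : ℝ≥0∞ :=
  (ENNReal.ofReal l)⁻¹ * ∫⁻ x in Ioc a (a + l), w x

/-- the dyadic maximal function with `d + 1` levels -/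
noncomputable def Mx (w : ℝ → ℝ≥0∞) : ℕ → ℝ → ℝ → ℝ → ℝ≥0∞
  | 0, a, l, _ => Av w a l
  | d + 1, a, l, x => max (Av w a l) (if x ≤ a + l / 2 then Mx w d a (l / 2) x else
      Mx w d (a + l / 2) (l / 2) x)

theorem Mx_meas (w : ℝ → ℝ≥0∞) (d : ℕ) : ∀ a l : ℝ, Measurable (Mx w d a l) := by
  induction d with
  | zero => intro a l; exact measurable_const
  | succ d ih =>
    intro a l
    exact measurable_const.max (Measurable.ite measurableSet_Iic (ih _ _) (ih _ _))

theorem Mx_left (w : ℝ → ℝ≥0∞) (d : ℕ) {a l x : ℝ} (hx : x ∈ Ioc a (a + l / 2)) :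
    Mx w (d + 1) a l x = max (Av w a l) (Mx w d a (l / 2) x) := by
  show max _ (if x ≤ a + l / 2 then _ else _) = _
  rw [if_pos hx.2]

theorem Mx_right (w : ℝ → ℝ≥0∞) (d : ℕ) {a l x : ℝ} (hx : x ∈ Ioc (a + l / 2) (a + l / 2 + l / 2)) :
    Mx w (d + 1) a l x = max (Av w a l) (Mx w d (a + l / 2) (l / 2) x) := by
  show max _ (if x ≤ a + l / 2 then _ else _) = _
  rw [if_neg (not_le.2 hx.1)]

theorem Av_le_Mx (w : ℝ → ℝ≥0∞) (d : ℕ) (a l x : ℝ) : Av w a l ≤ Mx w d a l x := by
  cases d with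
  | zero => exact le_rfl
  | succ d => exact le_max_left _ _

theorem vol_Ioc (a l : ℝ) : volume (Ioc a (a + l)) = ENNReal.ofReal l := by
  rw [Real.volume_Ioc]
  congr 1
  ring

theorem ofReal_ne {l : ℝ} (hl : 0 < l) : ENNReal.ofReal l ≠ 0 := by
  rw [Ne, ENNReal.ofReal_eq_zero, not_le]
  exact hl

/-- the superlevel set -/
def Sup (w : ℝ → ℝ≥0∞) (d : ℕ) (a l : ℝ) (L : ℝ≥0∞) : Set ℝ :=
  Ioc a (a + l) ∩ {x | L < Mx w d a l x}

theorem Sup_meas (w : ℝ → ℝ≥0∞) (d : ℕ) (a l : ℝ) (L : ℝ≥0∞) : MeasurableSet (Sup w d a l L) :=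
  measurableSet_Ioc.inter (measurableSet_lt measurable_const (Mx_meas w d a l))

theorem Sup_all {w : ℝ → ℝ≥0∞} (d : ℕ) {a l : ℝ} {L : ℝ≥0∞} (h : L < Av w a l) :
    Sup w d a l L = Ioc a (a + l) := by
  apply inter_eq_left.2
  intro x _
  exact h.trans_le (Av_le_Mx w d a l x)

theorem Sup_empty {w : ℝ → ℝ≥0∞} {a l : ℝ} {L : ℝ≥0∞} (h : Av w a l ≤ L) :
    Sup w 0 a l L = ∅ := by
  rw [Set.eq_empty_iff_forall_notMem]
  rintro x ⟨_, hx⟩
  exact absurd hx (not_lt.2 h)

/-- splitting a superlevel set -/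
theorem Sup_split {w : ℝ → ℝ≥0∞} (d : ℕ) {a l : ℝ} (hl : 0 < l) {L : ℝ≥0∞} (h : Av w a l ≤ L) :
    Sup w (d + 1) a l L = Sup w d a (l / 2) L ∪ Sup w d (a + l / 2) (l / 2) L := by
  ext x
  constructor
  · rintro ⟨hx, hx2⟩
    rw [half_union hl] at hx
    rcases hx with hx | hx
    · left
      refine ⟨hx, ?_⟩
      have hx2 : L < Mx w (d + 1) a l x := hx2
      rw [Mx_left w d hx, lt_max_iff] at hx2
      exact hx2.resolve_left (not_lt.2 h)
    · right
      refine ⟨hx, ?_⟩
      have hx2 : L < Mx w (d + 1) a l x := hx2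
      rw [Mx_right w d hx, lt_max_iff] at hx2
      exact hx2.resolve_left (not_lt.2 h)
  · rintro (⟨hx, hx2⟩ | ⟨hx, hx2⟩)
    · refine ⟨by rw [half_union hl]; exact Or.inl hx, ?_⟩
      show L < Mx w (d + 1) a l x
      rw [Mx_left w d hx]
      exact lt_max_of_lt_right hx2
    · refine ⟨by rw [half_union hl]; exact Or.inr hx, ?_⟩
      show L < Mx w (d + 1) a l x
      rw [Mx_right w d hx]
      exact lt_max_of_lt_right hx2

theorem half_disj (a l : ℝ) : Disjoint (Ioc a (a + l / 2)) (Ioc (a + l / 2) (a + l / 2 + l / 2)) := by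
  rw [Set.disjoint_left]
  intro x hx hx2
  exact absurd hx2.1 (not_lt.2 hx.2)

theorem Sup_sub_left (w : ℝ → ℝ≥0∞) (d : ℕ) {a l : ℝ} (hl : 0 < l) (L : ℝ≥0∞) :
    Sup w d a (l / 2) L ⊆ Sup w (d + 1) a l L ∩ Ioc a (a + l / 2) := by
  rintro x ⟨hx, hx2⟩
  refine ⟨⟨by rw [half_union hl]; exact Or.inl hx, ?_⟩, hx⟩
  show L < Mx w (d + 1) a l x
  rw [Mx_left w d hx]
  exact lt_max_of_lt_right hx2

theorem Sup_sub_right (w : ℝ → ℝ≥0∞) (d : ℕ) {a l : ℝ} (hl : 0 < l) (L : ℝ≥0∞) :
    Sup w d (a + l / 2) (l / 2) L ⊆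
      Sup w (d + 1) a l L ∩ Ioc (a + l / 2) (a + l / 2 + l / 2) := by
  rintro x ⟨hx, hx2⟩
  refine ⟨⟨by rw [half_union hl]; exact Or.inr hx, ?_⟩, hx⟩
  show L < Mx w (d + 1) a l x
  rw [Mx_right w d hx]
  exact lt_max_of_lt_right hx2

/-- the maximal inequality -/
theorem Mx_weak (w : ℝ → ℝ≥0∞) {L : ℝ≥0∞} (d : ℕ) : ∀ a l : ℝ, 0 < l →
    L * volume (Sup w d a l L) ≤ ∫⁻ x in Ioc a (a + l), w x := by
  induction d with
  | zero =>
    intro a l hl
    rcases lt_or_ge L (Av w a l) with h | h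
    · rw [Sup_all 0 h, vol_Ioc]
      unfold Av at h
      have h2 := h.le
      rw [← ENNReal.div_eq_inv_mul, ENNReal.le_div_iff_mul_le (Or.inl (ofReal_ne hl))
        (Or.inl ENNReal.ofReal_ne_top)] at h2
      exact h2
    · rw [Sup_empty h, measure_empty, mul_zero]
      exact zero_le
  | succ d ih =>
    intro a l hl
    rcases lt_or_ge L (Av w a l) with h | h
    · rw [Sup_all (d + 1) h, vol_Ioc]
      unfold Av at h
      have h2 := h.le
      rw [← ENNReal.div_eq_inv_mul, ENNReal.le_div_iff_mul_le (Or.inl (ofReal_ne hl))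
        (Or.inl ENNReal.ofReal_ne_top)] at h2
      exact h2
    · rw [Sup_split d hl h, half_union hl, lintegral_union measurableSet_Ioc (half_disj a l)]
      calc L * volume (Sup w d a (l / 2) L ∪ Sup w d (a + l / 2) (l / 2) L)
          ≤ L * (volume (Sup w d a (l / 2) L) + volume (Sup w d (a + l / 2) (l / 2) L)) := by
            gcongr
            exact measure_union_le _ _
        _ = L * volume (Sup w d a (l / 2) L) + L * volume (Sup w d (a + l / 2) (l / 2) L) :=
            mul_add _ _ _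
        _ ≤ _ := add_le_add (ih _ _ (by positivity)) (ih _ _ (by positivity))

/-- subadditivity -/
theorem Mx_sub {w z v : ℝ → ℝ≥0∞} (hz : Measurable z) {s : ℝ≥0∞} (d : ℕ) : ∀ a l : ℝ, 0 < l →
    (∀ x ∈ Ioc a (a + l), w x ≤ z x + s + v x) → ∀ x ∈ Ioc a (a + l),
      Mx w d a l x ≤ Mx z d a l x + s + Mx v d a l x := by
  have hav : ∀ a l : ℝ, 0 < l → (∀ x ∈ Ioc a (a + l), w x ≤ z x + s + v x) →
      Av w a l ≤ Av z a l + s + Av v a l := by
    intro a l hl h
    have h1 : ∫⁻ x in Ioc a (a + l), w x ≤ (∫⁻ x in Ioc a (a + l), z x) +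
        s * ENNReal.ofReal l + ∫⁻ x in Ioc a (a + l), v x := by
      calc ∫⁻ x in Ioc a (a + l), w x ≤ ∫⁻ x in Ioc a (a + l), (z x + s + v x) :=
            setLIntegral_mono' measurableSet_Ioc h
        _ = _ := by
            have hzs : Measurable fun x => z x + s := hz.add_const s
            rw [lintegral_add_left hzs, lintegral_add_left hz,
              setLIntegral_const, vol_Ioc]
    unfold Av
    calc (ENNReal.ofReal l)⁻¹ * ∫⁻ x in Ioc a (a + l), w x ≤
          (ENNReal.ofReal l)⁻¹ * ((∫⁻ x in Ioc a (a + l), z x) +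
        s * ENNReal.ofReal l + ∫⁻ x in Ioc a (a + l), v x) := by gcongr
      _ = (ENNReal.ofReal l)⁻¹ * (∫⁻ x in Ioc a (a + l), z x) +
          s * ((ENNReal.ofReal l)⁻¹ * ENNReal.ofReal l) +
          (ENNReal.ofReal l)⁻¹ * ∫⁻ x in Ioc a (a + l), v x := by ring
      _ = _ := by
          rw [ENNReal.inv_mul_cancel (ofReal_ne hl) ENNReal.ofReal_ne_top, mul_one]
  induction d with
  | zero => intro a l hl h x _; exact hav a l hl h
  | succ d ih =>
    intro a l hl h x hx
    have hx0 := hx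
    rw [half_union hl] at hx
    rcases hx with hx | hx
    · rw [Mx_left w d hx, Mx_left z d hx, Mx_left v d hx]
      apply max_le
      · refine (hav a l hl h).trans ?_
        gcongr <;> exact le_max_left _ _
      · refine (ih a (l / 2) (by positivity) (fun y hy => h y (by
          rw [half_union hl]; exact Or.inl hy)) x hx).trans ?_
        gcongr <;> exact le_max_right _ _
    · rw [Mx_right w d hx, Mx_right z d hx, Mx_right v d hx]
      apply max_le
      · refine (hav a l hl h).trans ?_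
        gcongr <;> exact le_max_left _ _
      · refine (ih (a + l / 2) (l / 2) (by positivity) (fun y hy => h y (by
          rw [half_union hl]; exact Or.inr hy)) x hx).trans ?_
        gcongr <;> exact le_max_right _ _

/-- the hypothesis of the good-lambda inequality at a dyadic interval -/
def HypR (w v : ℝ → ℝ≥0∞) (η L : ℝ≥0∞) (a l : ℝ) : Prop :=
  ∃ (s : ℝ≥0∞) (z : ℝ → ℝ≥0∞), Measurable z ∧ (∀ x ∈ Ioc a (a + l), w x ≤ z x + s + v x) ∧
    s ≤ Av w a l + Av v a l ∧ ∫⁻ x in Ioc a (a + l), z x ≤ η * L * ENNReal.ofReal l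

/-- one half of an interval in the proof of the good-lambda inequality -/
theorem goodl_half {w v : ℝ → ℝ≥0∞} {η L : ℝ≥0∞} (hL : L ≠ 0) (hL' : L ≠ ∞) {d : ℕ} {a l b : ℝ}
    (hl : 0 < l) (hH : HypR w v η L a l) (hav : Av w a l ≤ L)
    (hb : Ioc b (b + l / 2) ⊆ Ioc a (a + l))
    (hw : Sup w d b (l / 2) L ⊆ Sup w (d + 1) a l L ∩ Ioc b (b + l / 2))
    (hv : Sup v d b (l / 2) L ⊆ Sup v (d + 1) a l L ∩ Ioc b (b + l / 2))
    (ih : Av w b (l / 2) ≤ L → volume (Sup w d b (l / 2) (4 * L)) ≤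
      2 * η * volume (Sup w d b (l / 2) L) + volume (Sup v d b (l / 2) L)) :
    volume (Sup w d b (l / 2) (4 * L)) ≤
      2 * η * volume (Sup w (d + 1) a l L ∩ Ioc b (b + l / 2)) +
        volume (Sup v (d + 1) a l L ∩ Ioc b (b + l / 2)) := by
  have hl2 : 0 < l / 2 := by positivity
  by_cases h1 : Av w b (l / 2) ≤ L
  · refine (ih h1).trans ?_
    gcongr
  · have h1 := not_le.1 h1
    by_cases h2 : L < Av v a l
    · have e : Sup v (d + 1) a l L ∩ Ioc b (b + l / 2) = Ioc b (b + l / 2) := by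
        rw [Sup_all (d + 1) h2]
        exact inter_eq_right.2 hb
      rw [e]
      refine le_trans (measure_mono ?_) le_add_self
      exact inter_subset_left
    · have h2 := not_lt.1 h2
      obtain ⟨s, z, hz, hwz, hs, hzi⟩ := hH
      have hs2 : s ≤ 2 * L := by
        rw [two_mul]
        exact hs.trans (add_le_add hav h2)
      have hsub : Sup w d b (l / 2) (4 * L) ⊆ Sup z d b (l / 2) L ∪ Sup v d b (l / 2) L := by
        rintro x ⟨hx, hx2⟩
        have h3 := Mx_sub hz (s := s) (v := v) d b (l / 2) hl2 (fun y hy => hwz y (hb hy)) x hx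
        by_contra hcon
        rw [mem_union, not_or] at hcon
        have c1 : Mx z d b (l / 2) x ≤ L := by
          by_contra h4
          exact hcon.1 ⟨hx, not_le.1 h4⟩
        have c2 : Mx v d b (l / 2) x ≤ L := by
          by_contra h4
          exact hcon.2 ⟨hx, not_le.1 h4⟩
        have h5 : Mx w d b (l / 2) x ≤ 4 * L := by
          calc _ ≤ L + 2 * L + L := h3.trans (add_le_add (add_le_add c1 hs2) c2)
            _ = 4 * L := by ring
        exact absurd hx2 (not_lt.2 h5)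
      have e1 : Sup w (d + 1) a l L ∩ Ioc b (b + l / 2) = Ioc b (b + l / 2) := by
        apply Set.Subset.antisymm inter_subset_right
        have h6 := Sup_all d h1
        rw [h6] at hw
        exact hw
      rw [e1, vol_Ioc]
      have h7 := Mx_weak z (L := L) d b (l / 2) hl2
      have h8 : volume (Sup z d b (l / 2) L) ≤ 2 * η * ENNReal.ofReal (l / 2) := by
        have h9 : L * volume (Sup z d b (l / 2) L) ≤ L * (2 * η * ENNReal.ofReal (l / 2)) := by
          refine h7.trans ((lintegral_mono_set hb).trans (hzi.trans (le_of_eq ?_)))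
          have e : ENNReal.ofReal l = 2 * ENNReal.ofReal (l / 2) := by
            have : (2 : ℝ≥0∞) = ENNReal.ofReal 2 := by norm_num
            rw [this, ← ENNReal.ofReal_mul (by norm_num)]
            congr 1
            ring
          rw [e]
          ring
        exact (ENNReal.mul_le_mul_iff_right hL hL').1 h9
      calc volume (Sup w d b (l / 2) (4 * L)) ≤
            volume (Sup z d b (l / 2) L) + volume (Sup v d b (l / 2) L) :=
            (measure_mono hsub).trans (measure_union_le _ _)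
        _ ≤ _ := add_le_add h8 (measure_mono hv)

/-- **the good-lambda inequality** -/
theorem goodl {w v : ℝ → ℝ≥0∞} {η L : ℝ≥0∞} (hL : L ≠ 0) (hL' : L ≠ ∞)
    (hH : ∀ a l : ℝ, 0 < l → Ioc a (a + l) ⊆ Ioc 0 1 → HypR w v η L a l) (d : ℕ) :
    ∀ a l : ℝ, 0 < l → Ioc a (a + l) ⊆ Ioc 0 1 → Av w a l ≤ L →
      volume (Sup w d a l (4 * L)) ≤
        2 * η * volume (Sup w d a l L) + volume (Sup v d a l L) := by
  have h4 : L ≤ 4 * L := by
    calc L = 1 * L := (one_mul _).symm
      _ ≤ 4 * L := by gcongr; norm_num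
  induction d with
  | zero =>
    intro a l hl _ hav
    rw [Sup_empty (hav.trans h4), measure_empty]
    exact zero_le
  | succ d ih =>
    intro a l hl hsub hav
    have hl2 : 0 < l / 2 := by positivity
    have hu := half_union (a := a) hl
    have s1 : Ioc a (a + l / 2) ⊆ Ioc a (a + l) := by rw [hu]; exact subset_union_left
    have s2 : Ioc (a + l / 2) (a + l / 2 + l / 2) ⊆ Ioc a (a + l) := by
      rw [hu]; exact subset_union_right
    have k1 := goodl_half (d := d) (b := a) hL hL' hl (hH a l hl hsub) hav s1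
      (Sup_sub_left w d hl L) (Sup_sub_left v d hl L)
      (fun h => ih a (l / 2) hl2 (s1.trans hsub) h)
    have k2 := goodl_half (d := d) (b := a + l / 2) hL hL' hl (hH a l hl hsub) hav s2
      (Sup_sub_right w d hl L) (Sup_sub_right v d hl L)
      (fun h => ih (a + l / 2) (l / 2) hl2 (s2.trans hsub) h)
    have hsp : ∀ y : ℝ → ℝ≥0∞, volume (Sup y (d + 1) a l L ∩ Ioc a (a + l / 2)) +
        volume (Sup y (d + 1) a l L ∩ Ioc (a + l / 2) (a + l / 2 + l / 2)) =
        volume (Sup y (d + 1) a l L) := by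
      intro y
      rw [← measure_union ((half_disj a l).mono inter_subset_right inter_subset_right)
        ((Sup_meas y _ a l L).inter measurableSet_Ioc), ← inter_union_distrib_left, ← hu,
        inter_eq_left.2]
      exact inter_subset_left
    rw [Sup_split d hl (hav.trans h4)]
    refine (measure_union_le _ _).trans ((add_le_add k1 k2).trans (le_of_eq ?_))
    rw [← hsp w, ← hsp v]
    ring

/-- the maximal inequality for `p`-th powers -/
theorem Mx_weak_p {v : ℝ → ℝ≥0∞} (hv : Measurable v) {p : ℝ} (hp : 1 ≤ p) {L : ℝ≥0∞} (hL : L ≠ 0)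
    (hL' : L ≠ ∞) (d : ℕ) : volume (Sup v d 0 1 L) ≤ 2 ^ p * (L ^ p)⁻¹ * ∫⁻ x, v x ^ p ∂m1 := by
  set L2 := L / 2 with hL2
  have h20 : L2 ≠ 0 := ENNReal.div_ne_zero.2 ⟨hL, by norm_num⟩
  have h2t : L2 ≠ ∞ := by rw [hL2]; finiteness
  set z : ℝ → ℝ≥0∞ := fun x => (L2 ^ (p - 1))⁻¹ * v x ^ p with hz
  have hzm : Measurable z := (hv.pow_const p).const_mul _
  have hpt : ∀ x ∈ Ioc (0:ℝ) (0 + 1), v x ≤ z x + L2 + 0 := by
    intro x _
    rw [add_zero]
    rcases le_total (v x) L2 with h | h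
    · exact h.trans le_add_self
    · refine le_trans ?_ le_self_add
      rw [hz]
      simp only
      have e : v x ^ p = v x ^ (p - 1) * v x := by
        have h2 : v x ^ ((p - 1) + 1) = v x ^ (p - 1) * v x ^ (1:ℝ) :=
          ENNReal.rpow_add_of_nonneg _ _ (by linarith) (by norm_num)
        rw [sub_add_cancel, ENNReal.rpow_one] at h2
        exact h2
      rw [e, ← mul_assoc]
      have h3 : 1 ≤ (L2 ^ (p - 1))⁻¹ * v x ^ (p - 1) := by
        have h4 : L2 ^ (p - 1) ≤ v x ^ (p - 1) := ENNReal.rpow_le_rpow h (by linarith)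
        have h5 : L2 ^ (p - 1) ≠ 0 := by
          rw [Ne, ENNReal.rpow_eq_zero_iff]
          rintro (⟨h, _⟩ | ⟨h, _⟩)
          · exact h20 h
          · exact h2t h
        have h6 : L2 ^ (p - 1) ≠ ∞ := ENNReal.rpow_ne_top_of_nonneg (by linarith) h2t
        rw [← ENNReal.inv_mul_cancel h5 h6]
        gcongr
      calc v x = 1 * v x := (one_mul _).symm
        _ ≤ _ := by gcongr
  have hsub : Sup v d 0 1 L ⊆ Sup z d 0 1 L2 := by
    rintro x ⟨hx, hx2⟩
    refine ⟨hx, ?_⟩
    have h3 := Mx_sub (w := v) hzm (s := L2) (v := fun _ => 0) d 0 1 one_pos hpt x hx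
    have h4 : Mx (fun _ => (0:ℝ≥0∞)) d 0 1 x = 0 := by
      have : ∀ (d : ℕ) (a l x : ℝ), Mx (fun _ => (0:ℝ≥0∞)) d a l x = 0 := by
        intro d
        induction d with
        | zero => intro a l x; simp [Mx, Av]
        | succ d ih =>
          intro a l x
          show max (Av _ a l) (if x ≤ a + l / 2 then _ else _) = 0
          rw [ih, ih]
          simp [Av]
      exact this d 0 1 x
    rw [h4, add_zero] at h3
    have hx3 : L < Mx v d 0 1 x := hx2
    by_contra hcon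
    have hcon : Mx z d 0 1 x ≤ L2 := not_lt.1 hcon
    have h5 : Mx v d 0 1 x ≤ L2 + L2 := h3.trans (add_le_add hcon le_rfl)
    rw [ENNReal.add_halves] at h5
    exact absurd hx3 (not_lt.2 h5)
  have h6 := Mx_weak z (L := L2) d 0 1 one_pos
  rw [zero_add] at h6
  have h7 : ∫⁻ x in Ioc (0:ℝ) 1, z x = (L2 ^ (p - 1))⁻¹ * ∫⁻ x, v x ^ p ∂m1 :=
    lintegral_const_mul _ (hv.pow_const p)
  rw [h7] at h6
  have h8 : L2 * volume (Sup v d 0 1 L) ≤ (L2 ^ (p - 1))⁻¹ * ∫⁻ x, v x ^ p ∂m1 :=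
    (mul_le_mul_right (measure_mono hsub) _).trans h6
  rw [mul_comm, ← ENNReal.le_div_iff_mul_le (Or.inl h20) (Or.inl h2t)] at h8
  refine h8.trans (le_of_eq ?_)
  have e1 : (L2 ^ p)⁻¹ = 2 ^ p * (L ^ p)⁻¹ := by
    rw [hL2, ENNReal.div_rpow_of_nonneg _ _ (by linarith), ENNReal.inv_div (by
      left
      exact ENNReal.rpow_ne_top_of_nonneg (by linarith) (by norm_num)) (by
      left
      have : (2:ℝ≥0∞) ^ p ≠ 0 := by simp
      exact this), ENNReal.div_eq_inv_mul, mul_comm]
  have e2 : (L2 ^ (p - 1))⁻¹ * L2⁻¹ = (L2 ^ p)⁻¹ := by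
    rw [← ENNReal.rpow_neg, ← ENNReal.rpow_neg, ← ENNReal.rpow_neg_one, ← ENNReal.rpow_add _ _ h20 h2t]
    congr 1
    ring
  rw [ENNReal.div_eq_inv_mul, ← mul_assoc, mul_comm L2⁻¹, e2, e1]

end Pool.Agent.K7.H81.FD
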