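import Pool.Agent.K7.H81.FC

set_option autoImplicit false
set_option linter.unusedSectionVars false
set_option linter.unusedVariables false

/-!
# Single operators: mean oscillation, exponents above `p`
-/

namespace Pool.Agent.K7.H81.FD

open MeasureTheory Set Filter Topology Pool.Agent.R955.FD
open scoped ENNReal

universe u

/-- scaling of integrals over the half line -/
theorem scale {κ : ℝ} (hκ : 0 < κ) (G : ℝ → ℝ≥0∞) :
    ∫⁻ t in Ioi (0:ℝ), G (κ * t) = ENNReal.ofReal κ⁻¹ * ∫⁻ t in Ioi (0:ℝ), G t := by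
  have h1 := Real.map_volume_mul_left hκ.ne'
  have e : ∫⁻ t in Ioi (0:ℝ), G (κ * t) = ∫⁻ t, (Ioi (0:ℝ)).indicator G (κ * t) := by
    rw [← lintegral_indicator measurableSet_Ioi]
    apply lintegral_congr
    intro t
    by_cases ht : t ∈ Ioi (0:ℝ)
    · rw [indicator_of_mem ht, indicator_of_mem (show κ * t ∈ Ioi (0:ℝ) from mul_pos hκ ht)]
    · rw [indicator_of_notMem ht, indicator_of_notMem]
      intro h
      have h' : 0 < κ * t := h
      exact ht ((mul_pos_iff_of_pos_left hκ).1 h')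
  have h2 : ∫⁻ t, (Ioi (0:ℝ)).indicator G (κ * t) =
      ∫⁻ t, (Ioi (0:ℝ)).indicator G t ∂(Measure.map (κ * ·) volume) := by
    have he : MeasurableEmbedding (fun t : ℝ => κ * t) :=
      (Homeomorph.mulLeft₀ κ hκ.ne').measurableEmbedding
    exact (he.lintegral_map _).symm
  rw [e, h2, h1, lintegral_smul_measure, lintegral_indicator measurableSet_Ioi,
    abs_of_pos (by positivity), smul_eq_mul]

/-- a pointwise inequality -/
theorem pt_le {t L : ℝ≥0∞} {p : ℝ} (hp : 1 ≤ p) (hL : L ≠ 0) (hL' : L ≠ ∞) :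
    t ≤ L + (L ^ (p - 1))⁻¹ * t ^ p := by
  rcases le_total t L with h | h
  · exact h.trans le_self_add
  · refine le_trans ?_ le_add_self
    have e : t ^ p = t ^ (p - 1) * t := by
      have h2 : t ^ ((p - 1) + 1) = t ^ (p - 1) * t ^ (1:ℝ) :=
        ENNReal.rpow_add_of_nonneg _ _ (by linarith) (by norm_num)
      rw [sub_add_cancel, ENNReal.rpow_one] at h2
      exact h2
    rw [e, ← mul_assoc]
    have h3 : 1 ≤ (L ^ (p - 1))⁻¹ * t ^ (p - 1) := by
      have h4 : L ^ (p - 1) ≤ t ^ (p - 1) := ENNReal.rpow_le_rpow h (by linarith)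
      have h5 : L ^ (p - 1) ≠ 0 := by
        rw [Ne, ENNReal.rpow_eq_zero_iff]
        rintro (⟨h, _⟩ | ⟨h, _⟩)
        · exact hL h
        · exact hL' h
      have h6 : L ^ (p - 1) ≠ ∞ := ENNReal.rpow_ne_top_of_nonneg (by linarith) hL'
      rw [← ENNReal.inv_mul_cancel h5 h6]
      gcongr
    calc t = 1 * t := (one_mul _).symm
      _ ≤ _ := by gcongr

section
variable {X : Type u} [NormedAddCommGroup X] [NormedSpace ℂ X] [CompleteSpace X]

/-- mean oscillation around some constant -/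
theorem osc {k : ℝ → ℂ} (hk : Hor k) {p : ℝ} (hp : 1 < p) {C : ℝ≥0∞}
    (hC : ∀ g : ℝ → X, BM g → Np p (TK k g) ≤ C * Np p g) {f : ℝ → X} (hf : BM f) {A : ℝ}
    (hA : 0 < A) (hfA : ∀ x, ‖f x‖ ≤ A) {a l : ℝ} (hl : 0 < l) (hsub : Ioc a (a + l) ⊆ Ioc 0 1) :
    ∃ c : X, ∫⁻ x in Ioc a (a + l), ‖TK k f x - c‖ₑ ≤
      (8 + 2 * C) * ENNReal.ofReal A * ENNReal.ofReal l := by
  set c0 := a + l / 2 with hc0
  set h := l / 2 with hh
  have hh0 : 0 < h := by positivity
  set F : Set ℝ := {y | 2 * h ≤ dZ (y - c0)} with hF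
  have hm : MeasurableSet F :=
    (isClosed_le continuous_const (dZ_cont.comp (continuous_id.sub continuous_const))).measurableSet
  set f1 := Fᶜ.indicator f with hf1
  set f2 := F.indicator f with hf2
  have b1 : BM f1 := hf.ind hm.compl
  have b2 : BM f2 := hf.ind hm
  have hsum : f = fun y => f1 y + f2 y := by
    funext y
    rw [hf1, hf2]
    have := Set.indicator_compl_add_self_apply F f y
    exact this.symm
  set L := ENNReal.ofReal A with hL
  have hL0 : L ≠ 0 := ofReal_ne hA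
  have hLt : L ≠ ∞ := ENNReal.ofReal_ne_top
  refine ⟨TK k f2 c0, ?_⟩
  -- the far part
  have hfar : ∀ x ∈ Ioc a (a + l), ‖TK k f2 x - TK k f2 c0‖ₑ ≤ 7 * L := by
    intro x hx
    have hxc : |x - c0| ≤ h := by
      rw [abs_le]
      have := hx.1
      have := hx.2
      constructor <;> linarith
    have e : TK k f2 x - TK k f2 c0 = ∫ y, (k (x - y) - k (c0 - y)) • f2 y ∂m1 := by
      unfold TK
      rw [← integral_sub (TK_int hk b2 x).integrable (TK_int hk b2 c0).integrable]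
      simp_rw [sub_smul]
    have hmk : Measurable fun y => ‖k (x - y) - k (c0 - y)‖ₑ :=
      ((hk.cont.comp (continuous_const.sub continuous_id)).sub
        (hk.cont.comp (continuous_const.sub continuous_id))).enorm.measurable
    rw [e]
    calc ‖∫ y, (k (x - y) - k (c0 - y)) • f2 y ∂m1‖ₑ ≤
          ∫⁻ y, ‖(k (x - y) - k (c0 - y)) • f2 y‖ₑ ∂m1 := enorm_integral_le_lintegral_enorm _
      _ ≤ ∫⁻ y, F.indicator (fun y => ‖k (x - y) - k (c0 - y)‖ₑ * L) y ∂m1 := by
          apply lintegral_mono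
          intro y
          show ‖(k (x - y) - k (c0 - y)) • f2 y‖ₑ ≤ _
          rw [enorm_smul]
          by_cases hy : y ∈ F
          · rw [indicator_of_mem hy, hf2, indicator_of_mem hy]
            gcongr
            rw [← ofReal_norm]
            exact ENNReal.ofReal_le_ofReal (hfA y)
          · rw [indicator_of_notMem hy, hf2, indicator_of_notMem hy]
            simp
      _ = (∫⁻ y in F, ‖k (x - y) - k (c0 - y)‖ₑ ∂m1) * L := by
          rw [lintegral_indicator hm, lintegral_mul_const _ hmk]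
      _ ≤ 7 * L := by
          gcongr
          exact hk.bwd c0 h x hh0 hxc
  -- the near part
  have hnear : ∫⁻ x in Ioc a (a + l), ‖TK k f1 x‖ₑ ≤ (1 + 2 * C) * L * ENNReal.ofReal l := by
    have hNp : Np p f1 ≤ L ^ p * (2 * ENNReal.ofReal l) := by
      unfold Np
      calc ∫⁻ x, ‖f1 x‖ₑ ^ p ∂m1 ≤ ∫⁻ x, Fᶜ.indicator (fun _ => L ^ p) x ∂m1 := by
            apply lintegral_mono
            intro x
            show ‖f1 x‖ₑ ^ p ≤ _
            by_cases hx : x ∈ Fᶜ
            · rw [indicator_of_mem hx, hf1, indicator_of_mem hx]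
              apply ENNReal.rpow_le_rpow _ (by linarith)
              rw [← ofReal_norm]
              exact ENNReal.ofReal_le_ofReal (hfA x)
            · rw [indicator_of_notMem hx, hf1, indicator_of_notMem hx, enorm_zero,
                ENNReal.zero_rpow_of_pos (by linarith)]
        _ = L ^ p * m1 Fᶜ := by
            rw [lintegral_indicator hm.compl, setLIntegral_const]
        _ ≤ _ := by
            gcongr
            have e1 : Fᶜ = {y | dZ (y - c0) < 2 * h} := by
              ext y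
              simp [hF]
            rw [e1]
            refine (vol_near c0 (2 * h)).trans (le_of_eq ?_)
            have e2 : 2 * (2 * h) = 2 * l := by rw [hh]; ring
            rw [e2, ENNReal.ofReal_mul (by norm_num)]
            norm_num
    have hTm : Measurable fun x => ‖TK k f1 x‖ₑ := (TK_BM hk b1).1.enorm
    calc ∫⁻ x in Ioc a (a + l), ‖TK k f1 x‖ₑ ≤
          ∫⁻ x in Ioc a (a + l), (L + (L ^ (p - 1))⁻¹ * ‖TK k f1 x‖ₑ ^ p) :=
          lintegral_mono fun x => pt_le hp.le hL0 hLt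
      _ = L * ENNReal.ofReal l + (L ^ (p - 1))⁻¹ * ∫⁻ x in Ioc a (a + l), ‖TK k f1 x‖ₑ ^ p := by
          rw [lintegral_add_left measurable_const, setLIntegral_const, vol_Ioc,
            lintegral_const_mul _ (hTm.pow_const p)]
      _ ≤ L * ENNReal.ofReal l + (L ^ (p - 1))⁻¹ * (C * (L ^ p * (2 * ENNReal.ofReal l))) := by
          gcongr
          calc ∫⁻ x in Ioc a (a + l), ‖TK k f1 x‖ₑ ^ p ≤ Np p (TK k f1) :=
                lintegral_mono_set hsub
            _ ≤ C * Np p f1 := hC f1 b1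
            _ ≤ _ := by gcongr
      _ = (1 + 2 * C) * L * ENNReal.ofReal l := by
          have e3 : (L ^ (p - 1))⁻¹ * L ^ p = L := by
            rw [← ENNReal.rpow_neg, ← ENNReal.rpow_add _ _ hL0 hLt]
            have : -(p - 1) + p = 1 := by ring
            rw [this, ENNReal.rpow_one]
          calc L * ENNReal.ofReal l + (L ^ (p - 1))⁻¹ * (C * (L ^ p * (2 * ENNReal.ofReal l)))
              = L * ENNReal.ofReal l + ((L ^ (p - 1))⁻¹ * L ^ p) * (C * (2 * ENNReal.ofReal l)) := by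
                ring
            _ = _ := by rw [e3]; ring
  have hTm : Measurable fun x => ‖TK k f1 x‖ₑ := (TK_BM hk b1).1.enorm
  calc ∫⁻ x in Ioc a (a + l), ‖TK k f x - TK k f2 c0‖ₑ ≤
        ∫⁻ x in Ioc a (a + l), (‖TK k f1 x‖ₑ + 7 * L) := by
        apply setLIntegral_mono' measurableSet_Ioc
        intro x hx
        have e : TK k f x - TK k f2 c0 = TK k f1 x + (TK k f2 x - TK k f2 c0) := by
          conv_lhs => rw [hsum]
          rw [TK_add hk b1 b2]
          abel
        rw [e]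
        exact (enorm_add_le _ _).trans (add_le_add le_rfl (hfar x hx))
    _ = (∫⁻ x in Ioc a (a + l), ‖TK k f1 x‖ₑ) + 7 * L * ENNReal.ofReal l := by
        rw [lintegral_add_left hTm, setLIntegral_const, vol_Ioc]
    _ ≤ (1 + 2 * C) * L * ENNReal.ofReal l + 7 * L * ENNReal.ofReal l := by gcongr
    _ = _ := by ring

/-- the hypothesis of the good-lambda inequality -/
theorem hyp {k : ℝ → ℂ} (hk : Hor k) {p : ℝ} (hp : 1 < p) {C : ℝ≥0∞}
    (hC : ∀ g : ℝ → X, BM g → Np p (TK k g) ≤ C * Np p g) {φ ψ : ℝ → X} (hφ : BM φ) (hψ : BM ψ)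
    {A : ℝ} (hA : 0 < A) (hfA : ∀ x, ‖φ x‖ ≤ A) {η L : ℝ≥0∞}
    (hη : 2 * (8 + 2 * C) * ENNReal.ofReal A ≤ η * L) {a l : ℝ} (hl : 0 < l)
    (hsub : Ioc a (a + l) ⊆ Ioc 0 1) :
    HypR (fun x => ‖TK k (fun y => φ y + ψ y) x‖ₑ) (fun x => ‖TK k ψ x‖ₑ) η L a l := by
  obtain ⟨c, hc⟩ := osc hk hp hC hφ hA hfA hl hsub
  have hTφ := TK_BM hk hφ
  have hTψ := TK_BM hk hψ
  have hl0 := ofReal_ne hl
  have hlt : ENNReal.ofReal l ≠ ∞ := ENNReal.ofReal_ne_top
  have hIv : Ioc a (a + l) = Iv (a, l) := rfl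
  set m : X := l⁻¹ • ∫ y in Iv (a, l), TK k φ y with hm
  have hi : IntegrableOn (TK k φ) (Ioc a (a + l)) volume := by
    have h2 : IntegrableOn (TK k φ) (Ioc 0 1) volume := hTφ.integrable
    exact h2.mono_set hsub
  have hfin : volume (Ioc a (a + l)) ≠ ∞ := by
    rw [vol_Ioc]
    exact hlt
  have hmc : ENNReal.ofReal l * ‖c - m‖ₑ ≤ ∫⁻ x in Ioc a (a + l), ‖TK k φ x - c‖ₑ := by
    have e : c - m = l⁻¹ • ∫ y in Iv (a, l), (c - TK k φ y) := by
      have hcI : Integrable (fun _ : ℝ => c) (volume.restrict (Ioc a (a + l))) :=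
        integrableOn_const hfin
      rw [← hIv, integral_sub hcI hi, setIntegral_const, smul_sub, hm, ← hIv]
      have h3 : volume.real (Ioc a (a + l)) = l := by
        unfold Measure.real
        rw [vol_Ioc, ENNReal.toReal_ofReal hl.le]
      rw [h3, smul_smul, inv_mul_cancel₀ hl.ne', one_smul]
    rw [e]
    refine (avg_le (I := (a, l)) hl).trans (le_of_eq ?_)
    rw [← hIv]
    apply lintegral_congr
    intro x
    rw [← enorm_neg]
    congr 1
    abel
  have hmeas : Measurable fun x => ‖TK k φ x - c‖ₑ := (hTφ.1.sub stronglyMeasurable_const).enorm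
  refine ⟨‖m‖ₑ, fun x => ‖TK k φ x - m‖ₑ, (hTφ.1.sub stronglyMeasurable_const).enorm, ?_, ?_, ?_⟩
  · intro x _
    show ‖TK k (fun y => φ y + ψ y) x‖ₑ ≤ ‖TK k φ x - m‖ₑ + ‖m‖ₑ + ‖TK k ψ x‖ₑ
    rw [TK_add hk hφ hψ]
    have e : TK k φ x + TK k ψ x = (TK k φ x - m) + m + TK k ψ x := by abel
    rw [e]
    refine (enorm_add_le _ _).trans (add_le_add (enorm_add_le _ _) le_rfl)
  · have h1 : ENNReal.ofReal l * ‖m‖ₑ ≤ ∫⁻ y in Iv (a, l), ‖TK k φ y‖ₑ := avg_le (I := (a, l)) hl
    have h2 : ∫⁻ y in Iv (a, l), ‖TK k φ y‖ₑ ≤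
        (∫⁻ x in Ioc a (a + l), ‖TK k (fun y => φ y + ψ y) x‖ₑ) +
          ∫⁻ x in Ioc a (a + l), ‖TK k ψ x‖ₑ := by
      rw [← lintegral_add_right _ hTψ.1.enorm]
      apply lintegral_mono
      intro x
      show ‖TK k φ x‖ₑ ≤ ‖TK k (fun y => φ y + ψ y) x‖ₑ + ‖TK k ψ x‖ₑ
      rw [TK_add hk hφ hψ]
      have e : TK k φ x = (TK k φ x + TK k ψ x) - TK k ψ x := by abel
      conv_lhs => rw [e]
      exact enorm_sub_le
    have h3 := h1.trans h2
    unfold Av
    rw [← mul_add]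
    rw [← ENNReal.div_eq_inv_mul, ENNReal.le_div_iff_mul_le (Or.inl hl0) (Or.inl hlt), mul_comm]
    exact h3
  · calc ∫⁻ x in Ioc a (a + l), ‖TK k φ x - m‖ₑ ≤
          ∫⁻ x in Ioc a (a + l), (‖TK k φ x - c‖ₑ + ‖c - m‖ₑ) := by
          apply lintegral_mono
          intro x
          show ‖TK k φ x - m‖ₑ ≤ ‖TK k φ x - c‖ₑ + ‖c - m‖ₑ
          have e : TK k φ x - m = (TK k φ x - c) + (c - m) := by abel
          rw [e]
          exact enorm_add_le _ _
      _ = (∫⁻ x in Ioc a (a + l), ‖TK k φ x - c‖ₑ) + ENNReal.ofReal l * ‖c - m‖ₑ := by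
          rw [lintegral_add_left hmeas, setLIntegral_const, vol_Ioc, mul_comm]
      _ ≤ (8 + 2 * C) * ENNReal.ofReal A * ENNReal.ofReal l +
          (8 + 2 * C) * ENNReal.ofReal A * ENNReal.ofReal l := add_le_add hc (hmc.trans hc)
      _ = 2 * (8 + 2 * C) * ENNReal.ofReal A * ENNReal.ofReal l := by ring
      _ ≤ η * L * ENNReal.ofReal l := by gcongr

end

end Pool.Agent.K7.H81.FD
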