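import Pool.Agent.K7.H81.FE

set_option autoImplicit false
set_option linter.unusedSectionVars false
set_option linter.unusedVariables false

/-!
# Exponents above `p`
-/

namespace Pool.Agent.K7.H81.FD

open MeasureTheory Set Filter Topology Pool.Agent.R955.FD
open scoped ENNReal

universe u

theorem Mx_const_le {w : ℝ → ℝ≥0∞} {M : ℝ≥0∞} (hM : ∀ x, w x ≤ M) (d : ℕ) : ∀ a l x : ℝ, 0 < l →
    Mx w d a l x ≤ M := by
  have hav : ∀ a l : ℝ, 0 < l → Av w a l ≤ M := by
    intro a l hl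
    unfold Av
    rw [← ENNReal.div_eq_inv_mul]
    apply ENNReal.div_le_of_le_mul
    calc ∫⁻ x in Ioc a (a + l), w x ≤ ∫⁻ x in Ioc a (a + l), M := lintegral_mono hM
      _ = M * ENNReal.ofReal l := by rw [setLIntegral_const, vol_Ioc]
  induction d with
  | zero => intro a l x hl; exact hav a l hl
  | succ d ih =>
    intro a l x hl
    show max _ (if x ≤ a + l / 2 then _ else _) ≤ M
    apply max_le (hav a l hl)
    split_ifs
    · exact ih _ _ _ (by positivity)
    · exact ih _ _ _ (by positivity)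

theorem Mx_near (w : ℝ → ℝ≥0∞) (d : ℕ) : ∀ a l x : ℝ, 0 < l → x ∈ Ioc a (a + l) →
    ∃ b, x ∈ Ioc b (b + l / 2 ^ d) ∧ Ioc b (b + l / 2 ^ d) ⊆ Ioc a (a + l) ∧
      Av w b (l / 2 ^ d) ≤ Mx w d a l x := by
  induction d with
  | zero =>
    intro a l x hl hx
    refine ⟨a, ?_, ?_, ?_⟩
    · simpa using hx
    · simp
    · simp [Mx]
  | succ d ih =>
    intro a l x hl hx
    have e : l / 2 ^ (d + 1) = l / 2 / 2 ^ d := by
      rw [pow_succ]
      field_simp
    rw [e]
    have hu := half_union (a := a) hl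
    have hx' := hx
    rw [hu] at hx'
    rcases hx' with hx' | hx'
    · obtain ⟨b, h1, h2, h3⟩ := ih a (l / 2) x (by positivity) hx'
      refine ⟨b, h1, h2.trans (by rw [hu]; exact subset_union_left), ?_⟩
      rw [Mx_left w d hx']
      exact h3.trans (le_max_right _ _)
    · obtain ⟨b, h1, h2, h3⟩ := ih (a + l / 2) (l / 2) x (by positivity) hx'
      refine ⟨b, h1, h2.trans (by rw [hu]; exact subset_union_right), ?_⟩
      rw [Mx_right w d hx']
      exact h3.trans (le_max_right _ _)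

theorem lint_pow_le {M s : ℝ} (hM : 0 ≤ M) (hs : 0 ≤ s) :
    ∫⁻ t in Ioi (0:ℝ), (Iio M).indicator (fun t => ENNReal.ofReal (t ^ s)) t ≤
      ENNReal.ofReal (M ^ s * M) := by
  calc ∫⁻ t in Ioi (0:ℝ), (Iio M).indicator (fun t => ENNReal.ofReal (t ^ s)) t
      ≤ ∫⁻ t in Ioi (0:ℝ), (Iio M).indicator (fun t => ENNReal.ofReal (M ^ s)) t := by
        apply setLIntegral_mono' measurableSet_Ioi
        intro t ht
        by_cases h : t ∈ Iio M
        · rw [indicator_of_mem h, indicator_of_mem h]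
          exact ENNReal.ofReal_le_ofReal (Real.rpow_le_rpow (le_of_lt ht) (le_of_lt h) hs)
        · rw [indicator_of_notMem h, indicator_of_notMem h]
    _ = ENNReal.ofReal (M ^ s) * volume (Iio M ∩ Ioi 0) := by
        rw [lintegral_indicator measurableSet_Iio, setLIntegral_const,
          Measure.restrict_apply measurableSet_Iio]
    _ = _ := by
        have : Iio M ∩ Ioi (0:ℝ) = Ioo 0 M := by
          ext t
          simp only [mem_inter_iff, mem_Iio, mem_Ioi, mem_Ioo]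
          exact and_comm
        rw [this, Real.volume_Ioo, sub_zero, ENNReal.ofReal_mul (by positivity)]

section
variable {X : Type u} [NormedAddCommGroup X] [NormedSpace ℂ X] [CompleteSpace X]

theorem Np_eq {p : ℝ} (hp : 0 < p) (g : ℝ → X) :
    eLpNorm g (ENNReal.ofReal p) m1 = Np p g ^ (1 / p) := by
  rw [eLpNorm_eq_lintegral_rpow_enorm_toReal (by
    rw [Ne, ENNReal.ofReal_eq_zero, not_le]; exact hp) ENNReal.ofReal_ne_top,
    ENNReal.toReal_ofReal hp.le]
  rfl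

theorem Np_one_le {p : ℝ} (hp : 1 ≤ p) {g : ℝ → X} (hg : StronglyMeasurable g) :
    ∫⁻ x, ‖g x‖ₑ ∂m1 ≤ Np p g ^ (1 / p) := by
  rw [← Np_eq (by linarith), ← eLpNorm_one_eq_lintegral_enorm]
  apply eLpNorm_le_eLpNorm_of_exponent_le _ hg.aestronglyMeasurable
  rw [← ENNReal.ofReal_one]
  exact ENNReal.ofReal_le_ofReal hp

/-- the estimate for the distribution of the maximal function, for each number of levels -/
theorem levels {p r : ℝ} (hp : 1 < p) (hpr : p < r) (C : ℝ) (hC0 : 0 ≤ C) {k : ℝ → ℂ} (hk : Hor k)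
    (hC : ∀ g : ℝ → X, BM g → Np p (TK k g) ≤ ENNReal.ofReal C * Np p g) {f : ℝ → X} (hf : BM f)
    {c : ℝ} (hc : c = 1 / (4 ^ (r + 1) * (2 * (8 + 2 * C)))) (d : ℕ) :
    ∫⁻ t in Ioi (0:ℝ), ENNReal.ofReal (t ^ (r - 1)) *
        volume (Sup (fun x => ‖TK k f x‖ₑ) d 0 1 (ENNReal.ofReal t)) ≤
      2 * 4 ^ r * (Np p (TK k f) ^ (r / p) + 2 ^ p * ∫⁻ t in Ioi (0:ℝ),
        ENNReal.ofReal (t ^ (r - 1 - p)) * Np p (TK k ({y | c * t < ‖f y‖}.indicator f))) := by
  set w : ℝ → ℝ≥0∞ := fun x => ‖TK k f x‖ₑ with hw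
  have hTf := TK_BM hk hf
  have hwm : Measurable w := hTf.1.enorm
  obtain ⟨M0, hM0⟩ := hTf.2
  set M : ℝ := max M0 1 with hM
  have hM1 : 0 < M := by rw [hM]; positivity
  have hwM : ∀ x, w x ≤ ENNReal.ofReal M := by
    intro x
    rw [hw]
    simp only
    rw [← ofReal_norm]
    exact ENNReal.ofReal_le_ofReal ((hM0 x).trans (le_max_left _ _))
  set Φ : ℝ → ℝ≥0∞ := fun t => volume (Sup w d 0 1 (ENNReal.ofReal t)) with hΦ
  have hΦanti : Antitone Φ := by
    intro s t hst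
    apply measure_mono
    rintro x ⟨hx, hx2⟩
    exact ⟨hx, lt_of_le_of_lt (ENNReal.ofReal_le_ofReal hst) hx2⟩
  have hΦm : Measurable Φ := hΦanti.measurable
  have hΦ1 : ∀ t, Φ t ≤ 1 := by
    intro t
    calc Φ t ≤ volume (Ioc (0:ℝ) (0 + 1)) := measure_mono inter_subset_left
      _ = 1 := by rw [vol_Ioc, ENNReal.ofReal_one]
  have hΦ0 : ∀ t, M ≤ t → Φ t = 0 := by
    intro t ht
    have : Sup w d 0 1 (ENNReal.ofReal t) = ∅ := by
      rw [Set.eq_empty_iff_forall_notMem]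
      rintro x ⟨_, hx⟩
      have h1 := Mx_const_le hwM d 0 1 x one_pos
      exact absurd hx (not_lt.2 (h1.trans (ENNReal.ofReal_le_ofReal ht)))
    rw [hΦ]
    simp only
    rw [this, measure_empty]
  set J := ∫⁻ t in Ioi (0:ℝ), ENNReal.ofReal (t ^ (r - 1)) * Φ t with hJ
  have hJfin : J ≠ ∞ := by
    have h1 : J ≤ ENNReal.ofReal (M ^ (r - 1) * M) := by
      refine le_trans ?_ (lint_pow_le hM1.le (by linarith : 0 ≤ r - 1))
      apply setLIntegral_mono' measurableSet_Ioi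
      intro t _
      by_cases h : t ∈ Iio M
      · rw [indicator_of_mem h]
        calc ENNReal.ofReal (t ^ (r - 1)) * Φ t ≤ ENNReal.ofReal (t ^ (r - 1)) * 1 := by
              gcongr
              exact hΦ1 t
          _ = _ := mul_one _
      · rw [hΦ0 t (not_lt.1 h), mul_zero]
        exact zero_le
    exact ne_top_of_le_ne_top ENNReal.ofReal_ne_top h1
  -- parameters
  have h4r : (0:ℝ) < 4 ^ (r + 1) := Real.rpow_pos_of_pos (by norm_num) _
  have hc0 : 0 < c := by rw [hc]; positivity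
  set η : ℝ≥0∞ := ENNReal.ofReal (2 * (8 + 2 * C) * c) with hη
  have hAvw : Av w 0 1 = ∫⁻ x, w x ∂m1 := by
    unfold Av
    rw [ENNReal.ofReal_one, inv_one, one_mul, zero_add]
  have hAvle : Av w 0 1 ≤ Np p (TK k f) ^ (1 / p) := by
    rw [hAvw]
    exact Np_one_le hp.le hTf.1
  have hAvM : Av w 0 1 ≤ ENNReal.ofReal M := Mx_const_le hwM 0 0 1 0 one_pos
  have hAvt : Av w 0 1 ≠ ∞ := ne_top_of_le_ne_top ENNReal.ofReal_ne_top hAvM
  set l0 : ℝ := (Av w 0 1).toReal with hl0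
  have hl00 : 0 ≤ l0 := ENNReal.toReal_nonneg
  have hofl0 : ENNReal.ofReal l0 = Av w 0 1 := ENNReal.ofReal_toReal hAvt
  set b : ℝ → ℝ≥0∞ := fun t => ENNReal.ofReal (t ^ (r - 1 - p)) *
    Np p (TK k ({y | c * t < ‖f y‖}.indicator f)) with hb
  have hnm : Measurable fun y => ‖f y‖ := hf.1.norm.measurable
  -- the pointwise inequality
  have hpt : ∀ t ∈ Ioi (0:ℝ), ENNReal.ofReal (t ^ (r - 1)) * Φ (4 * t) ≤
      (Iio l0).indicator (fun t => ENNReal.ofReal (t ^ (r - 1))) t +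
        2 * η * (ENNReal.ofReal (t ^ (r - 1)) * Φ t) + 2 ^ p * b t := by
    intro t ht
    have ht : 0 < t := ht
    by_cases h : t ∈ Iio l0
    · rw [indicator_of_mem h, add_assoc]
      refine le_trans ?_ le_self_add
      calc ENNReal.ofReal (t ^ (r - 1)) * Φ (4 * t) ≤ ENNReal.ofReal (t ^ (r - 1)) * 1 := by
            gcongr
            exact hΦ1 _
        _ = _ := mul_one _
    · rw [indicator_of_notMem h, zero_add]
      have hL0 := ofReal_ne ht
      have hLt : ENNReal.ofReal t ≠ ∞ := ENNReal.ofReal_ne_top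
      set φ : ℝ → X := {y | c * t < ‖f y‖}ᶜ.indicator f with hφ
      set ψ : ℝ → X := {y | c * t < ‖f y‖}.indicator f with hψ
      have hms : MeasurableSet {y | c * t < ‖f y‖} := measurableSet_lt measurable_const hnm
      have bφ : BM φ := hf.ind hms.compl
      have bψ : BM ψ := hf.ind hms
      have hsum : f = fun y => φ y + ψ y := by
        funext y
        exact (Set.indicator_compl_add_self_apply {y | c * t < ‖f y‖} f y).symm
      have hct : 0 < c * t := by positivity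
      have hφA : ∀ x, ‖φ x‖ ≤ c * t := by
        intro x
        by_cases hx : x ∈ {y | c * t < ‖f y‖}ᶜ
        · rw [hφ, indicator_of_mem hx]
          exact not_lt.1 hx
        · rw [hφ, indicator_of_notMem hx, norm_zero]
          exact hct.le
      have hηL : 2 * (8 + 2 * ENNReal.ofReal C) * ENNReal.ofReal (c * t) ≤
          η * ENNReal.ofReal t := by
        rw [hη, ENNReal.ofReal_mul hc0.le, ENNReal.ofReal_mul (by positivity),
          ENNReal.ofReal_mul (by norm_num), ENNReal.ofReal_add (by norm_num) (by positivity),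
          ENNReal.ofReal_mul (by norm_num)]
        apply le_of_eq
        norm_num
        ring
      have hH : ∀ a l : ℝ, 0 < l → Ioc a (a + l) ⊆ Ioc 0 1 →
          HypR w (fun x => ‖TK k ψ x‖ₑ) η (ENNReal.ofReal t) a l := by
        intro a l hl hsub
        have h1 := hyp hk hp hC bφ bψ hct hφA hηL hl hsub
        rw [← hsum] at h1
        exact h1
      have h2 := goodl hL0 hLt hH d 0 1 one_pos (by rw [zero_add]) (by
        rw [← hofl0]
        exact ENNReal.ofReal_le_ofReal (not_lt.1 h))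
      have h3 := Mx_weak_p (v := fun x => ‖TK k ψ x‖ₑ) (TK_BM hk bψ).1.enorm hp.le hL0 hLt d
      have e4 : 4 * ENNReal.ofReal t = ENNReal.ofReal (4 * t) := by
        rw [ENNReal.ofReal_mul (by norm_num)]
        norm_num
      rw [e4] at h2
      have h4 : Φ (4 * t) ≤ 2 * η * Φ t + 2 ^ p * (ENNReal.ofReal t ^ p)⁻¹ * Np p (TK k ψ) :=
        h2.trans (add_le_add le_rfl h3)
      calc ENNReal.ofReal (t ^ (r - 1)) * Φ (4 * t) ≤ ENNReal.ofReal (t ^ (r - 1)) *
            (2 * η * Φ t + 2 ^ p * (ENNReal.ofReal t ^ p)⁻¹ * Np p (TK k ψ)) := by gcongr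
        _ = 2 * η * (ENNReal.ofReal (t ^ (r - 1)) * Φ t) + 2 ^ p * ((ENNReal.ofReal (t ^ (r - 1)) *
              (ENNReal.ofReal t ^ p)⁻¹) * Np p (TK k ψ)) := by ring
        _ = _ := by
            rw [hb]
            simp only
            congr 3
            rw [← ENNReal.ofReal_rpow_of_pos ht, ← ENNReal.ofReal_rpow_of_pos ht,
              ← ENNReal.rpow_neg, ← ENNReal.rpow_add _ _ hL0 hLt]
            congr 1
  -- integrate
  have hint : ∫⁻ t in Ioi (0:ℝ), ENNReal.ofReal (t ^ (r - 1)) * Φ (4 * t) ≤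
      ENNReal.ofReal (l0 ^ (r - 1) * l0) + 2 * η * J + 2 ^ p * ∫⁻ t in Ioi (0:ℝ), b t := by
    have m1' : Measurable fun t : ℝ => (Iio l0).indicator (fun t => ENNReal.ofReal (t ^ (r - 1))) t :=
      (Measurable.ennreal_ofReal (by fun_prop)).indicator measurableSet_Iio
    have m2' : Measurable fun t : ℝ => ENNReal.ofReal (t ^ (r - 1)) * Φ t :=
      (Measurable.ennreal_ofReal (by fun_prop)).mul hΦm
    calc ∫⁻ t in Ioi (0:ℝ), ENNReal.ofReal (t ^ (r - 1)) * Φ (4 * t) ≤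
          ∫⁻ t in Ioi (0:ℝ), ((Iio l0).indicator (fun t => ENNReal.ofReal (t ^ (r - 1))) t +
        2 * η * (ENNReal.ofReal (t ^ (r - 1)) * Φ t) + 2 ^ p * b t) :=
          setLIntegral_mono' measurableSet_Ioi hpt
      _ = (∫⁻ t in Ioi (0:ℝ), (Iio l0).indicator (fun t => ENNReal.ofReal (t ^ (r - 1))) t) +
          2 * η * J + 2 ^ p * ∫⁻ t in Ioi (0:ℝ), b t := by
          have m3 : Measurable fun t : ℝ => (Iio l0).indicator (fun t => ENNReal.ofReal (t ^ (r - 1))) t +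
            2 * η * (ENNReal.ofReal (t ^ (r - 1)) * Φ t) := m1'.add (m2'.const_mul _)
          rw [lintegral_add_left m3, lintegral_add_left m1', lintegral_const_mul _ m2',
            lintegral_const_mul' _ _ (by
              exact ENNReal.rpow_ne_top_of_nonneg (by linarith) (by norm_num))]
      _ ≤ _ := by
          gcongr
          exact lint_pow_le hl00 (by linarith)
  have hsc : ∫⁻ t in Ioi (0:ℝ), ENNReal.ofReal (t ^ (r - 1)) * Φ (4 * t) =
      (4 ^ r)⁻¹ * J := by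
    have h1 := scale (κ := 4) (by norm_num) (fun t => ENNReal.ofReal ((t / 4) ^ (r - 1)) * Φ t)
    have e1 : ∫⁻ t in Ioi (0:ℝ), ENNReal.ofReal ((4 * t / 4) ^ (r - 1)) * Φ (4 * t) =
        ∫⁻ t in Ioi (0:ℝ), ENNReal.ofReal (t ^ (r - 1)) * Φ (4 * t) := by
      apply lintegral_congr
      intro t
      have : 4 * t / 4 = t := by ring
      rw [this]
    have e2 : ∫⁻ t in Ioi (0:ℝ), ENNReal.ofReal ((t / 4) ^ (r - 1)) * Φ t =
        ENNReal.ofReal ((1 / 4) ^ (r - 1)) * J := by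
      rw [hJ, ← lintegral_const_mul' _ _ ENNReal.ofReal_ne_top]
      apply setLIntegral_congr_fun measurableSet_Ioi
      intro t ht
      have ht : 0 < t := ht
      simp only
      rw [← mul_assoc, ← ENNReal.ofReal_mul (by positivity)]
      congr 2
      have : t / 4 = 1 / 4 * t := by ring
      rw [this, Real.mul_rpow (by norm_num) ht.le]
    rw [e1, e2] at h1
    rw [h1, ← mul_assoc, ← ENNReal.ofReal_mul (by norm_num)]
    congr 1
    have e3 : (4:ℝ)⁻¹ * (1 / 4) ^ (r - 1) = (4 ^ r)⁻¹ := by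
      have h4 : (1 / 4 : ℝ) ^ (r - 1) = (1 / 4) ^ r * (1 / 4) ^ (-1 : ℝ) := by
        rw [← Real.rpow_add (by norm_num)]
        congr 1
      rw [h4, Real.rpow_neg_one, Real.div_rpow (by norm_num) (by norm_num), Real.one_rpow]
      field_simp
    rw [e3, ENNReal.ofReal_inv_of_pos (Real.rpow_pos_of_pos (by norm_num) _),
      ← ENNReal.ofReal_rpow_of_pos (by norm_num)]
    norm_num
  rw [hsc] at hint
  have h4r0 : (4:ℝ≥0∞) ^ r ≠ 0 := by simp
  have h4rt : (4:ℝ≥0∞) ^ r ≠ ∞ := ENNReal.rpow_ne_top_of_nonneg (by linarith) (by norm_num)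
  -- multiply by `4 ^ r`
  have hJ2 : J ≤ 4 ^ r * (ENNReal.ofReal (l0 ^ (r - 1) * l0) + 2 ^ p * ∫⁻ t in Ioi (0:ℝ), b t) +
      J / 2 := by
    calc J = 4 ^ r * ((4 ^ r)⁻¹ * J) := by
          rw [← mul_assoc, ENNReal.mul_inv_cancel h4r0 h4rt, one_mul]
      _ ≤ 4 ^ r * (ENNReal.ofReal (l0 ^ (r - 1) * l0) + 2 * η * J +
          2 ^ p * ∫⁻ t in Ioi (0:ℝ), b t) := by gcongr
      _ = 4 ^ r * (ENNReal.ofReal (l0 ^ (r - 1) * l0) + 2 ^ p * ∫⁻ t in Ioi (0:ℝ), b t) +
          (4 ^ r * (2 * η)) * J := by ring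
      _ = _ := by
          congr 1
          have e1 : (4:ℝ≥0∞) ^ r * (2 * η) = 2⁻¹ := by
            have e2 : (4:ℝ≥0∞) ^ r = ENNReal.ofReal (4 ^ r) := by
              rw [← ENNReal.ofReal_rpow_of_pos (by norm_num)]
              norm_num
            have e3 : (2:ℝ≥0∞) = ENNReal.ofReal 2 := by norm_num
            rw [e2, hη, e3, ← ENNReal.ofReal_mul (by norm_num), ← ENNReal.ofReal_mul (by positivity),
              ← ENNReal.ofReal_inv_of_pos (by norm_num)]
            congr 1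
            rw [hc, Real.rpow_add (by norm_num), Real.rpow_one]
            have : (0:ℝ) < 4 ^ r := Real.rpow_pos_of_pos (by norm_num) _
            field_simp
            norm_num
          rw [e1, ENNReal.div_eq_inv_mul]
  have hJ3 : J / 2 ≤ 4 ^ r * (ENNReal.ofReal (l0 ^ (r - 1) * l0) +
      2 ^ p * ∫⁻ t in Ioi (0:ℝ), b t) := by
    have h1 : J / 2 + J / 2 ≤ 4 ^ r * (ENNReal.ofReal (l0 ^ (r - 1) * l0) +
      2 ^ p * ∫⁻ t in Ioi (0:ℝ), b t) + J / 2 := by
      rw [ENNReal.add_halves]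
      exact hJ2
    have h2 : J / 2 ≠ ∞ := by
      rw [ENNReal.div_eq_inv_mul]
      exact ENNReal.mul_ne_top (by norm_num) hJfin
    exact (ENNReal.add_le_add_iff_right h2).1 h1
  have hl0r : ENNReal.ofReal (l0 ^ (r - 1) * l0) ≤ Np p (TK k f) ^ (r / p) := by
    have e1 : l0 ^ (r - 1) * l0 = l0 ^ r := by
      have h1 : l0 ^ ((r - 1) + 1) = l0 ^ (r - 1) * l0 ^ (1:ℝ) :=
        Real.rpow_add_of_nonneg hl00 (by linarith) (by norm_num)
      rw [sub_add_cancel, Real.rpow_one] at h1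
      exact h1.symm
    rw [e1, ← ENNReal.ofReal_rpow_of_nonneg hl00 (by linarith), hofl0]
    calc Av w 0 1 ^ r ≤ (Np p (TK k f) ^ (1 / p)) ^ r := ENNReal.rpow_le_rpow hAvle (by linarith)
      _ = _ := by
          rw [← ENNReal.rpow_mul]
          congr 1
          ring
  calc J = J / 2 + J / 2 := (ENNReal.add_halves J).symm
    _ ≤ 4 ^ r * (ENNReal.ofReal (l0 ^ (r - 1) * l0) + 2 ^ p * ∫⁻ t in Ioi (0:ℝ), b t) +
        4 ^ r * (ENNReal.ofReal (l0 ^ (r - 1) * l0) + 2 ^ p * ∫⁻ t in Ioi (0:ℝ), b t) :=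
        add_le_add hJ3 hJ3
    _ = 2 * 4 ^ r * (ENNReal.ofReal (l0 ^ (r - 1) * l0) + 2 ^ p * ∫⁻ t in Ioi (0:ℝ), b t) := by
        ring
    _ ≤ _ := by gcongr

/-- a continuous function is almost dominated by its dyadic maximal function -/
theorem dom {u : ℝ → X} (hu : Continuous u) {δ : ℝ} (hδ : 0 < δ) :
    ∃ d : ℕ, ∀ x ∈ Ioc (0:ℝ) 1, ‖u x‖ₑ ≤ Mx (fun x => ‖u x‖ₑ) d 0 1 x + ENNReal.ofReal δ := by
  have huc := isCompact_Icc.uniformContinuousOn_of_continuous (s := Icc (0:ℝ) 1) hu.continuousOn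
  rw [Metric.uniformContinuousOn_iff] at huc
  obtain ⟨ρ, hρ, h⟩ := huc δ hδ
  obtain ⟨d, hd⟩ := exists_pow_lt_of_lt_one hρ (by norm_num : (1 / 2 : ℝ) < 1)
  refine ⟨d, fun x hx => ?_⟩
  obtain ⟨b, h1, h2, h3⟩ := Mx_near (fun x => ‖u x‖ₑ) d 0 1 x one_pos (by rwa [zero_add])
  set m : ℝ := 1 / 2 ^ d with hm
  have hm0 : 0 < m := by positivity
  have hmρ : m < ρ := by
    rw [hm, ← one_div_pow]
    exact hd
  refine le_trans ?_ (add_le_add h3 le_rfl)
  unfold Av
  have h4 : ‖u x‖ₑ * ENNReal.ofReal m ≤ (∫⁻ y in Ioc b (b + m), ‖u y‖ₑ) +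
      ENNReal.ofReal δ * ENNReal.ofReal m := by
    calc ‖u x‖ₑ * ENNReal.ofReal m = ∫⁻ y in Ioc b (b + m), ‖u x‖ₑ := by
          rw [setLIntegral_const, vol_Ioc]
      _ ≤ ∫⁻ y in Ioc b (b + m), (‖u y‖ₑ + ENNReal.ofReal δ) := by
          apply setLIntegral_mono' measurableSet_Ioc
          intro y hy
          have hx1 : x ∈ Icc (0:ℝ) 1 := ⟨hx.1.le, hx.2⟩
          have hy1 : y ∈ Icc (0:ℝ) 1 := by
            have := h2 hy
            rw [zero_add] at this
            exact ⟨this.1.le, this.2⟩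
          have hxy : dist x y < ρ := by
            rw [Real.dist_eq, abs_lt]
            have := h1.1
            have := h1.2
            have := hy.1
            have := hy.2
            constructor <;> linarith
          have h5 := h x hx1 y hy1 hxy
          rw [dist_eq_norm] at h5
          have e : u x = u y + (u x - u y) := by abel
          rw [e]
          refine (enorm_add_le _ _).trans (add_le_add le_rfl ?_)
          rw [← ofReal_norm]
          exact ENNReal.ofReal_le_ofReal h5.le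
      _ = _ := by
          rw [lintegral_add_right _ measurable_const, setLIntegral_const, vol_Ioc]
  have hm0' := ofReal_ne hm0
  have hmt : ENNReal.ofReal m ≠ ∞ := ENNReal.ofReal_ne_top
  rw [← ENNReal.div_eq_inv_mul]
  calc ‖u x‖ₑ ≤ ((∫⁻ y in Ioc b (b + m), ‖u y‖ₑ) + ENNReal.ofReal δ * ENNReal.ofReal m) /
        ENNReal.ofReal m := by
        rw [ENNReal.le_div_iff_mul_le (Or.inl hm0') (Or.inl hmt)]
        exact h4
    _ = _ := by
        rw [ENNReal.add_div, ENNReal.mul_div_cancel_right hm0' hmt]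

/-- the norm of the maximal function -/
theorem Mx_norm {w : ℝ → ℝ≥0∞} {M : ℝ} (hwM : ∀ x, w x ≤ ENNReal.ofReal M) {r : ℝ} (hr : 0 < r)
    (d : ℕ) : ∫⁻ x, Mx w d 0 1 x ^ r ∂m1 = ENNReal.ofReal r *
      ∫⁻ t in Ioi (0:ℝ), ENNReal.ofReal (t ^ (r - 1)) * volume (Sup w d 0 1 (ENNReal.ofReal t)) := by
  have hfin : ∀ x, Mx w d 0 1 x ≠ ∞ := fun x =>
    ne_top_of_le_ne_top ENNReal.ofReal_ne_top (Mx_const_le hwM d 0 1 x one_pos)
  have h1 := lintegral_rpow_eq_lintegral_meas_lt_mul m1 (f := fun x => (Mx w d 0 1 x).toReal)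
    (Eventually.of_forall fun x => ENNReal.toReal_nonneg)
    (Mx_meas w d 0 1).ennreal_toReal.aemeasurable hr
  have e1 : ∀ x, ENNReal.ofReal ((Mx w d 0 1 x).toReal ^ r) = Mx w d 0 1 x ^ r := by
    intro x
    rw [← ENNReal.ofReal_rpow_of_nonneg ENNReal.toReal_nonneg hr.le, ENNReal.ofReal_toReal (hfin x)]
  simp_rw [e1] at h1
  rw [h1]
  congr 1
  apply setLIntegral_congr_fun measurableSet_Ioi
  intro t ht
  have ht : 0 < t := ht
  simp only
  rw [mul_comm]
  congr 1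
  have hms : MeasurableSet {a : ℝ | t < (Mx w d 0 1 a).toReal} :=
    measurableSet_lt measurable_const (Mx_meas w d 0 1).ennreal_toReal
  rw [Measure.restrict_apply hms]
  congr 1
  ext x
  simp only [mem_inter_iff, mem_ofPred_eq, Sup, zero_add]
  rw [and_comm, ENNReal.ofReal_lt_iff_lt_toReal ht.le (hfin x)]

/-- **exponents above `p`** -/
theorem above {p r : ℝ} (hp : 1 < p) (hpr : p < r) (C : ℝ) (hC0 : 0 ≤ C) {k : ℝ → ℂ} (hk : Hor k)
    (hC : ∀ g : ℝ → X, BM g → Np p (TK k g) ≤ ENNReal.ofReal C * Np p g) {f : ℝ → X} (hf : BM f)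
    {c : ℝ} (hc : c = 1 / (4 ^ (r + 1) * (2 * (8 + 2 * C)))) :
    Np r (TK k f) ≤ ENNReal.ofReal r * (2 * 4 ^ r * (Np p (TK k f) ^ (r / p) + 2 ^ p *
      ∫⁻ t in Ioi (0:ℝ), ENNReal.ofReal (t ^ (r - 1 - p)) *
        Np p (TK k ({y | c * t < ‖f y‖}.indicator f)))) := by
  set R := ENNReal.ofReal r * (2 * 4 ^ r * (Np p (TK k f) ^ (r / p) + 2 ^ p *
      ∫⁻ t in Ioi (0:ℝ), ENNReal.ofReal (t ^ (r - 1 - p)) *
        Np p (TK k ({y | c * t < ‖f y‖}.indicator f)))) with hR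
  have hr0 : 0 < r := by linarith
  have hTf := TK_BM hk hf
  obtain ⟨M0, hM0⟩ := hTf.2
  have hwM : ∀ x, ‖TK k f x‖ₑ ≤ ENNReal.ofReal M0 := by
    intro x
    rw [← ofReal_norm]
    exact ENNReal.ofReal_le_ofReal (hM0 x)
  have key : ∀ δ : ℝ, 0 < δ → Np r (TK k f) ^ (1 / r) ≤ R ^ (1 / r) + ENNReal.ofReal δ := by
    intro δ hδ
    obtain ⟨d, hd⟩ := dom (TK_cont hk hf) hδ
    have h1 := levels hp hpr C hC0 hk hC hf hc d
    have h2 : ∫⁻ x, Mx (fun x => ‖TK k f x‖ₑ) d 0 1 x ^ r ∂m1 ≤ R := by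
      rw [Mx_norm hwM hr0 d, hR]
      gcongr
    have h3 := ENNReal.lintegral_Lp_add_le (μ := m1) (p := r)
      (f := fun x => Mx (fun x => ‖TK k f x‖ₑ) d 0 1 x) (g := fun _ => ENNReal.ofReal δ)
      (Mx_meas _ d 0 1).aemeasurable aemeasurable_const (by linarith)
    have h4 : Np r (TK k f) ≤ ∫⁻ x, (Mx (fun x => ‖TK k f x‖ₑ) d 0 1 x +
        ENNReal.ofReal δ) ^ r ∂m1 := by
      unfold Np
      apply lintegral_mono_ae
      rw [ae_restrict_iff' measurableSet_Ioc]
      refine Eventually.of_forall fun x hx => ?_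
      exact ENNReal.rpow_le_rpow (hd x hx) hr0.le
    have h5 : (∫⁻ _, (ENNReal.ofReal δ) ^ r ∂m1) ^ (1 / r) = ENNReal.ofReal δ := by
      rw [lintegral_const, measure_univ, mul_one, ← ENNReal.rpow_mul]
      rw [mul_one_div_cancel hr0.ne', ENNReal.rpow_one]
    calc Np r (TK k f) ^ (1 / r) ≤ (∫⁻ x, (Mx (fun x => ‖TK k f x‖ₑ) d 0 1 x +
        ENNReal.ofReal δ) ^ r ∂m1) ^ (1 / r) := ENNReal.rpow_le_rpow h4 (by positivity)
      _ ≤ (∫⁻ x, Mx (fun x => ‖TK k f x‖ₑ) d 0 1 x ^ r ∂m1) ^ (1 / r) +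
          (∫⁻ _, (ENNReal.ofReal δ) ^ r ∂m1) ^ (1 / r) := h3
      _ ≤ _ := by
          rw [h5]
          gcongr
  have h6 : Np r (TK k f) ^ (1 / r) ≤ R ^ (1 / r) := by
    apply ENNReal.le_of_forall_pos_le_add
    intro ε hε _
    have := key ε hε
    rwa [ENNReal.ofReal_coe_nnreal] at this
  have h7 := ENNReal.rpow_le_rpow h6 hr0.le
  rw [← ENNReal.rpow_mul, ← ENNReal.rpow_mul, one_div_mul_cancel hr0.ne', ENNReal.rpow_one,
    ENNReal.rpow_one] at h7
  exact h7

end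

end Pool.Agent.K7.H81.FD
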