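import Pool.Agent.K7.H81.FG

set_option autoImplicit false
set_option linter.unusedSectionVars false
set_option linter.unusedVariables false

/-!
# Exponents below `p`, Tonelli lemmas, sums of integrals
-/

namespace Pool.Agent.K7.H81.FD

open MeasureTheory Set Filter Topology Pool.Agent.R955.FD
open scoped ENNReal

universe u

theorem opt {a b F K α β : ℝ} (ha : 0 ≤ a) (hb : 0 ≤ b) (hF : 0 ≤ F) (hK : 0 < K) (hα : 0 < α)
    (hβ : 0 < β) (h : ∀ κ : ℝ, 0 < κ → a ≤ K * (κ ^ α * b + κ ^ (-β) * F)) :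
    a ^ ((α + β) / β) ≤ (2 * K) ^ ((α + β) / β) * F ^ (α / β) * b := by
  rcases ha.eq_or_lt with rfl | ha
  · rw [Real.zero_rpow (by positivity)]
    positivity
  rcases hF.eq_or_lt with rfl | hF
  · exfalso
    have hκ : 0 < (a / (2 * K * (b + 1))) ^ (1 / α) := by positivity
    have h1 := h _ hκ
    have h2 : ((a / (2 * K * (b + 1))) ^ (1 / α)) ^ α = a / (2 * K * (b + 1)) := by
      rw [← Real.rpow_mul (by positivity), one_div_mul_cancel hα.ne', Real.rpow_one]
    rw [h2, mul_zero, add_zero] at h1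
    have h3 : K * (a / (2 * K * (b + 1)) * b) = a / 2 * (b / (b + 1)) := by field_simp
    have h4 : b / (b + 1) ≤ 1 := by
      rw [div_le_one (by positivity)]
      linarith
    nlinarith
  · set κ := (2 * K * F / a) ^ (1 / β) with hκd
    have hκ : 0 < κ := by positivity
    have h1 := h κ hκ
    have h2 : κ ^ β = 2 * K * F / a := by
      rw [hκd, ← Real.rpow_mul (by positivity), one_div_mul_cancel hβ.ne', Real.rpow_one]
    have h3 : κ ^ (-β) = a / (2 * K * F) := by rw [Real.rpow_neg hκ.le, h2, inv_div]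
    have h4 : κ ^ α = (2 * K * F / a) ^ (α / β) := by
      rw [hκd, ← Real.rpow_mul (by positivity)]
      congr 1
      field_simp
    have h5 : K * (κ ^ (-β) * F) = a / 2 := by
      rw [h3]
      field_simp
    have h6 : a ≤ 2 * K * (κ ^ α * b) := by nlinarith
    have h7 : a ^ ((α + β) / β) = a ^ (α / β) * a := by
      rw [← Real.rpow_add_one ha.ne']
      congr 1
      field_simp
    have h8 : (2 * K) ^ ((α + β) / β) = (2 * K) ^ (α / β) * (2 * K) := by
      rw [← Real.rpow_add_one (by positivity)]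
      congr 1
      field_simp
    rw [h7, h8]
    calc a ^ (α / β) * a ≤ a ^ (α / β) * (2 * K * (κ ^ α * b)) := by gcongr
      _ = _ := by
          rw [h4, Real.div_rpow (by positivity) ha.le, Real.mul_rpow (by positivity) hF.le]
          field_simp

theorem int_small {e M : ℝ} (he : -1 < e) (hM : 0 ≤ M) :
    ∫⁻ t in Ioi (0:ℝ), (Iio M).indicator (fun t => ENNReal.ofReal (t ^ e)) t =
      ENNReal.ofReal (M ^ (e + 1) / (e + 1)) := by
  have hi : IntegrableOn (fun t : ℝ => t ^ e) (Ioo 0 M) := by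
    have := (intervalIntegral.intervalIntegrable_rpow' (a := 0) (b := M) he)
    rw [intervalIntegrable_iff_integrableOn_Ioo_of_le hM] at this
    exact this
  have h0 : ∫⁻ t in Ioi (0:ℝ), (Iio M).indicator (fun t => ENNReal.ofReal (t ^ e)) t =
      ∫⁻ t in Ioo 0 M, ENNReal.ofReal (t ^ e) := by
    rw [lintegral_indicator measurableSet_Iio, Measure.restrict_restrict measurableSet_Iio]
    congr 2
    ext t
    simp only [mem_inter_iff, mem_Iio, mem_Ioi, mem_Ioo]
    exact and_comm
  rw [h0, ← ofReal_integral_eq_lintegral_ofReal hi]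
  · congr 1
    rw [← integral_Ioc_eq_integral_Ioo, ← intervalIntegral.integral_of_le hM,
      integral_rpow (Or.inl he), Real.zero_rpow (by linarith), sub_zero]
  · rw [EventuallyLE, ae_restrict_iff' measurableSet_Ioo]
    exact Eventually.of_forall fun t ht => Real.rpow_nonneg ht.1.le _

theorem int_large {e M : ℝ} (he : e < -1) (hM : 0 < M) :
    ∫⁻ t in Ioi (0:ℝ), (Ici M).indicator (fun t => ENNReal.ofReal (t ^ e)) t =
      ENNReal.ofReal (M ^ (e + 1) / (-(e + 1))) := by
  have hi : IntegrableOn (fun t : ℝ => t ^ e) (Ioi M) := integrableOn_Ioi_rpow_of_lt he hM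
  have h0 : ∫⁻ t in Ioi (0:ℝ), (Ici M).indicator (fun t => ENNReal.ofReal (t ^ e)) t =
      ∫⁻ t in Ici M, ENNReal.ofReal (t ^ e) := by
    rw [lintegral_indicator measurableSet_Ici, Measure.restrict_restrict measurableSet_Ici]
    congr 2
    ext t
    simp only [mem_inter_iff, mem_Ici, mem_Ioi]
    exact ⟨fun h => h.1, fun h => ⟨h, hM.trans_le h⟩⟩
  rw [h0, setLIntegral_congr Ioi_ae_eq_Ici.symm, ← ofReal_integral_eq_lintegral_ofReal hi]
  · congr 1
    rw [integral_Ioi_rpow_of_lt he hM, div_neg, neg_div]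
  · rw [EventuallyLE, ae_restrict_iff' measurableSet_Ioi]
    exact Eventually.of_forall fun t ht => Real.rpow_nonneg (hM.trans ht).le _

theorem swap {E : Set (ℝ × ℝ)} (hE : MeasurableSet E) {w : ℝ → ℝ≥0∞} (hw : Measurable w) (e : ℝ) :
    ∫⁻ t in Ioi (0:ℝ), ENNReal.ofReal (t ^ e) * ∫⁻ y, {y | (t, y) ∈ E}.indicator w y ∂m1 =
      ∫⁻ y, (w y * ∫⁻ t in Ioi (0:ℝ), {t | (t, y) ∈ E}.indicator
        (fun t => ENNReal.ofReal (t ^ e)) t) ∂m1 := by
  have hm : Measurable fun t : ℝ => ENNReal.ofReal (t ^ e) := Measurable.ennreal_ofReal (by fun_prop)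
  have h1 : ∀ t : ℝ, ENNReal.ofReal (t ^ e) * ∫⁻ y, {y | (t, y) ∈ E}.indicator w y ∂m1 =
      ∫⁻ y, E.indicator (fun z => ENNReal.ofReal (z.1 ^ e) * w z.2) (t, y) ∂m1 := by
    intro t
    rw [← lintegral_const_mul' _ _ ENNReal.ofReal_ne_top]
    apply lintegral_congr
    intro y
    by_cases h : (t, y) ∈ E
    · rw [indicator_of_mem h, indicator_of_mem (show y ∈ {y | (t, y) ∈ E} from h)]
    · rw [indicator_of_notMem h, indicator_of_notMem (show y ∉ {y | (t, y) ∈ E} from h), mul_zero]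
  have h2 : ∀ y : ℝ, w y * ∫⁻ t in Ioi (0:ℝ),
      {t | (t, y) ∈ E}.indicator (fun t => ENNReal.ofReal (t ^ e)) t =
      ∫⁻ t in Ioi (0:ℝ), E.indicator (fun z => ENNReal.ofReal (z.1 ^ e) * w z.2) (t, y) := by
    intro y
    have hms : MeasurableSet {t | (t, y) ∈ E} := hE.preimage (by fun_prop : Measurable fun t : ℝ => (t, y))
    rw [← lintegral_const_mul _ (hm.indicator hms)]
    apply lintegral_congr
    intro t
    by_cases h : (t, y) ∈ E
    · rw [indicator_of_mem h, indicator_of_mem (show t ∈ {t | (t, y) ∈ E} from h), mul_comm]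
    · rw [indicator_of_notMem h, indicator_of_notMem (show t ∉ {t | (t, y) ∈ E} from h), mul_zero]
  rw [lintegral_congr h1, lintegral_congr h2]
  apply lintegral_lintegral_swap
  apply Measurable.aemeasurable
  apply Measurable.indicator _ hE
  exact (hm.comp measurable_fst).mul (hw.comp measurable_snd)

/-- superadditivity for finite sums -/
theorem sum_lint_le {ι α : Type*} [MeasurableSpace α] {μ : Measure α} (S : Finset ι)
    (g : ι → α → ℝ≥0∞) : ∑ i ∈ S, ∫⁻ x, g i x ∂μ ≤ ∫⁻ x, ∑ i ∈ S, g i x ∂μ := by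
  classical
  induction S using Finset.induction_on with
  | empty => simp
  | insert i S hi ih =>
    simp_rw [Finset.sum_insert hi]
    exact (add_le_add le_rfl ih).trans (le_lintegral_add _ _)

/-- a form of the inequality of Minkowski, no measurability needed -/
theorem mink {ι α : Type*} [MeasurableSpace α] {μ : Measure α} (S : Finset ι)
    (g : ι → α → ℝ≥0∞) {m : ℝ} (hm : 1 ≤ m) :
    ∑ i ∈ S, (∫⁻ x, g i x ∂μ) ^ m ≤ (∫⁻ x, (∑ i ∈ S, g i x ^ m) ^ (1 / m) ∂μ) ^ m := by
  have hm0 : 0 < m := by linarith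
  set R := ∫⁻ x, (∑ i ∈ S, g i x ^ m) ^ (1 / m) ∂μ with hR
  rcases eq_or_ne R ∞ with hRt | hRt
  · rw [hRt, ENNReal.top_rpow_of_pos hm0]
    exact le_top
  rcases hm.eq_or_lt with rfl | hm1
  · simp only [ENNReal.rpow_one, hR, div_one]
    exact sum_lint_le S g
  set B := ∑ i ∈ S, (∫⁻ x, g i x ∂μ) ^ m with hB
  have hbR : ∀ i ∈ S, ∫⁻ x, g i x ∂μ ≤ R := by
    intro i hi
    apply lintegral_mono
    intro x
    calc g i x = (g i x ^ m) ^ (1 / m) := by
          rw [← ENNReal.rpow_mul, mul_one_div_cancel hm0.ne', ENNReal.rpow_one]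
      _ ≤ _ := by
          apply ENNReal.rpow_le_rpow _ (by positivity)
          exact Finset.single_le_sum (f := fun i => g i x ^ m) (fun _ _ => zero_le) hi
  have hBt : B ≠ ∞ := by
    rw [hB]
    apply (ENNReal.sum_lt_top.2 _).ne
    intro i hi
    exact ENNReal.rpow_lt_top_of_nonneg hm0.le (ne_top_of_le_ne_top hRt (hbR i hi))
  rcases eq_or_ne B 0 with hB0 | hB0
  · rw [hB0]
    exact zero_le
  have hconj : (m / (m - 1)).HolderConjugate m := by
    rw [Real.holderConjugate_iff]
    constructor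
    · rw [lt_div_iff₀ (by linarith)]
      linarith
    · have : m - 1 ≠ 0 := by linarith
      field_simp
      ring
  have h1 : B ≤ B ^ (1 - 1 / m) * R := by
    calc B = ∑ i ∈ S, (∫⁻ x, g i x ∂μ) ^ (m - 1) * ∫⁻ x, g i x ∂μ := by
          rw [hB]
          apply Finset.sum_congr rfl
          intro i _
          have h2 : (∫⁻ x, g i x ∂μ) ^ ((m - 1) + 1) = (∫⁻ x, g i x ∂μ) ^ (m - 1) *
              (∫⁻ x, g i x ∂μ) ^ (1:ℝ) := ENNReal.rpow_add_of_nonneg _ _ (by linarith) (by norm_num)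
          rw [sub_add_cancel, ENNReal.rpow_one] at h2
          exact h2
      _ ≤ ∑ i ∈ S, ∫⁻ x, (∫⁻ x, g i x ∂μ) ^ (m - 1) * g i x ∂μ :=
          Finset.sum_le_sum fun i _ => lintegral_const_mul_le _ _
      _ ≤ ∫⁻ x, ∑ i ∈ S, (∫⁻ x, g i x ∂μ) ^ (m - 1) * g i x ∂μ := sum_lint_le S _
      _ ≤ ∫⁻ x, B ^ (1 - 1 / m) * (∑ i ∈ S, g i x ^ m) ^ (1 / m) ∂μ := by
          apply lintegral_mono
          intro x
          refine (ENNReal.inner_le_Lp_mul_Lq S _ _ hconj).trans (le_of_eq ?_)
          congr 1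
          have e1 : 1 / (m / (m - 1)) = 1 - 1 / m := by
            have : m - 1 ≠ 0 := by linarith
            field_simp
          rw [e1, hB]
          congr 1
          apply Finset.sum_congr rfl
          intro i _
          rw [← ENNReal.rpow_mul]
          congr 1
          have : m - 1 ≠ 0 := by linarith
          field_simp
      _ = _ := by
          rw [lintegral_const_mul' _ _ (ENNReal.rpow_ne_top_of_nonneg (by
            rw [sub_nonneg, div_le_one hm0]
            exact hm) hBt)]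
  have hs0 : B ^ (1 - 1 / m) ≠ 0 := by
    rw [Ne, ENNReal.rpow_eq_zero_iff]
    rintro (⟨h, _⟩ | ⟨h, _⟩)
    · exact hB0 h
    · exact hBt h
  have hst : B ^ (1 - 1 / m) ≠ ∞ := ENNReal.rpow_ne_top_of_nonneg (by
            rw [sub_nonneg, div_le_one hm0]
            exact hm) hBt
  have h2 : B ^ (1 / m) ≤ R := by
    have e2 : B ^ (1 - 1 / m) * B ^ (1 / m) = B := by
      rw [← ENNReal.rpow_add_of_nonneg _ _ (by
            rw [sub_nonneg, div_le_one hm0]
            exact hm) (by positivity), sub_add_cancel, ENNReal.rpow_one]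
    rw [← e2] at h1
    conv_rhs at h1 => rw [e2]
    exact (ENNReal.mul_le_mul_iff_right hs0 hst).1 h1
  calc B = (B ^ (1 / m)) ^ m := by
        rw [← ENNReal.rpow_mul, one_div_mul_cancel hm0.ne', ENNReal.rpow_one]
    _ ≤ _ := ENNReal.rpow_le_rpow h2 hm0.le

end Pool.Agent.K7.H81.FD
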