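import Pool.Agent.K7.H81.FH

set_option autoImplicit false
set_option linter.unusedSectionVars false
set_option linter.unusedVariables false

/-!
# Exponents below `p`: single operators
-/

namespace Pool.Agent.K7.H81.FD

open MeasureTheory Set Filter Topology Pool.Agent.R955.FD
open scoped ENNReal

universe u

theorem Step.comp {α β : Type*} (φ : α → β) {w : ℝ → α} (d : ℕ) : ∀ a l : ℝ, Step d a l w →
    Step d a l fun x => φ (w x) := by
  induction d with
  | zero =>
    rintro a l ⟨c, hc⟩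
    refine ⟨φ c, fun x hx => ?_⟩
    show φ (w x) = φ c
    rw [hc x hx]
  | succ d ih =>
    rintro a l ⟨h1, h2⟩
    exact ⟨ih _ _ h1, ih _ _ h2⟩

section
variable {X : Type u} [NormedAddCommGroup X] [NormedSpace ℂ X] [CompleteSpace X]

theorem Np_lt_top {r : ℝ} (hr : 0 ≤ r) {g : ℝ → X} (hg : BM g) : Np r g < ∞ := by
  obtain ⟨M, hM⟩ := hg.2
  have hM0 : ∀ x, ‖g x‖ₑ ≤ ENNReal.ofReal M := by
    intro x
    rw [← ofReal_norm]
    exact ENNReal.ofReal_le_ofReal (hM x)
  calc Np r g ≤ ∫⁻ x, ENNReal.ofReal M ^ r ∂m1 := by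
        apply lintegral_mono
        intro x
        exact ENNReal.rpow_le_rpow (hM0 x) hr
    _ = ENNReal.ofReal M ^ r := by rw [lintegral_const, measure_univ, mul_one]
    _ < ∞ := ENNReal.rpow_lt_top_of_nonneg hr ENNReal.ofReal_ne_top

theorem Np_ind {p : ℝ} (hp : 0 < p) (f : ℝ → X) (s : Set ℝ) :
    Np p (s.indicator f) = ∫⁻ y, s.indicator (fun y => ‖f y‖ₑ ^ p) y ∂m1 := by
  unfold Np
  apply lintegral_congr
  intro y
  by_cases h : y ∈ s
  · rw [indicator_of_mem h, indicator_of_mem h]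
  · rw [indicator_of_notMem h, indicator_of_notMem h, enorm_zero, ENNReal.zero_rpow_of_pos hp]

/-- small truncations -/
theorem ton_le {p r : ℝ} (hr : 0 < r) (hrp : r < p) {f : ℝ → X} (hf : BM f) :
    ∫⁻ t in Ioi (0:ℝ), ENNReal.ofReal (t ^ (r - 1 - p)) * Np p ({y | ‖f y‖ ≤ t}.indicator f) ≤
      ENNReal.ofReal (1 / (p - r)) * Np r f := by
  have hp : 0 < p := hr.trans hrp
  have hnm : Measurable fun y => ‖f y‖ := hf.1.norm.measurable
  set E : Set (ℝ × ℝ) := {z | ‖f z.2‖ ≤ z.1} with hE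
  have hEm : MeasurableSet E := measurableSet_le (hnm.comp measurable_snd) measurable_fst
  have h1 : ∀ t : ℝ, ENNReal.ofReal (t ^ (r - 1 - p)) * Np p ({y | ‖f y‖ ≤ t}.indicator f) =
      ENNReal.ofReal (t ^ (r - 1 - p)) * ∫⁻ y, {y | (t, y) ∈ E}.indicator (fun y => ‖f y‖ₑ ^ p) y ∂m1 := by
    intro t
    rw [Np_ind hp]
    rfl
  rw [lintegral_congr h1, swap hEm (hf.1.enorm.pow_const p)]
  unfold Np
  rw [← lintegral_const_mul' _ _ ENNReal.ofReal_ne_top]
  apply lintegral_mono
  intro y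
  rcases (norm_nonneg (f y)).eq_or_lt with h | h
  · have h0 : f y = 0 := by
      rw [← norm_eq_zero]
      exact h.symm
    simp only [h0, enorm_zero]
    rw [ENNReal.zero_rpow_of_pos hp, zero_mul]
    exact zero_le
  · have e : {t : ℝ | (t, y) ∈ E} = Ici ‖f y‖ := rfl
    simp only
    rw [e, int_large (by linarith) h, ← ofReal_norm, ENNReal.ofReal_rpow_of_pos h,
      ENNReal.ofReal_rpow_of_pos h, ← ENNReal.ofReal_mul (by positivity),
      ← ENNReal.ofReal_mul (by
        have : 0 < p - r := by linarith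
        positivity)]
    apply ENNReal.ofReal_le_ofReal
    apply le_of_eq
    have e2 : r - 1 - p + 1 = r - p := by ring
    rw [e2, Real.rpow_sub h]
    have : p - r ≠ 0 := by linarith
    have h3 : ‖f y‖ ^ p ≠ 0 := (Real.rpow_pos_of_pos h _).ne'
    rw [neg_sub]
    field_simp

/-- large truncations -/
theorem ton_gt {p r c : ℝ} (hp : 0 < p) (hpr : p < r) (hc : 0 < c) {f : ℝ → X} (hf : BM f) :
    ∫⁻ t in Ioi (0:ℝ), ENNReal.ofReal (t ^ (r - 1 - p)) * Np p ({y | c * t < ‖f y‖}.indicator f) ≤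
      ENNReal.ofReal (c ^ (p - r) / (r - p)) * Np r f := by
  have hr : 0 < r := hp.trans hpr
  have hnm : Measurable fun y => ‖f y‖ := hf.1.norm.measurable
  set E : Set (ℝ × ℝ) := {z | c * z.1 < ‖f z.2‖} with hE
  have hEm : MeasurableSet E := measurableSet_lt (measurable_fst.const_mul c) (hnm.comp measurable_snd)
  have h1 : ∀ t : ℝ, ENNReal.ofReal (t ^ (r - 1 - p)) * Np p ({y | c * t < ‖f y‖}.indicator f) =
      ENNReal.ofReal (t ^ (r - 1 - p)) * ∫⁻ y, {y | (t, y) ∈ E}.indicator (fun y => ‖f y‖ₑ ^ p) y ∂m1 := by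
    intro t
    rw [Np_ind hp]
    rfl
  rw [lintegral_congr h1, swap hEm (hf.1.enorm.pow_const p)]
  unfold Np
  rw [← lintegral_const_mul' _ _ ENNReal.ofReal_ne_top]
  apply lintegral_mono
  intro y
  rcases (norm_nonneg (f y)).eq_or_lt with h | h
  · have h0 : f y = 0 := by
      rw [← norm_eq_zero]
      exact h.symm
    simp only [h0, enorm_zero]
    rw [ENNReal.zero_rpow_of_pos hp, zero_mul]
    exact zero_le
  · have e : {t : ℝ | (t, y) ∈ E} = Iio (‖f y‖ / c) := by
      ext t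
      simp only [hE, mem_ofPred_eq, mem_Iio]
      rw [lt_div_iff₀ hc, mul_comm]
    simp only
    rw [e, int_small (by linarith) (by positivity), ← ofReal_norm, ENNReal.ofReal_rpow_of_pos h,
      ENNReal.ofReal_rpow_of_pos h, ← ENNReal.ofReal_mul (by positivity),
      ← ENNReal.ofReal_mul (by
        have : 0 < r - p := by linarith
        positivity)]
    apply ENNReal.ofReal_le_ofReal
    apply le_of_eq
    have e2 : r - 1 - p + 1 = r - p := by ring
    rw [e2, Real.div_rpow h.le hc.le, Real.rpow_sub h, show p - r = -(r - p) by ring,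
      Real.rpow_neg hc.le]
    have : r - p ≠ 0 := by linarith
    have h3 : ‖f y‖ ^ p ≠ 0 := (Real.rpow_pos_of_pos h _).ne'
    field_simp

/-- layer cake -/
theorem cake {r : ℝ} (hr : 0 < r) {g : ℝ → X} (hg : StronglyMeasurable g) :
    Np r g = ENNReal.ofReal r * ∫⁻ t in Ioi (0:ℝ), ENNReal.ofReal (t ^ (r - 1)) *
      m1 {x | ENNReal.ofReal t < ‖g x‖ₑ} := by
  have h1 := lintegral_rpow_eq_lintegral_meas_lt_mul m1 (f := fun x => ‖g x‖)
    (Eventually.of_forall fun x => norm_nonneg _) hg.norm.measurable.aemeasurable hr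
  have e1 : ∀ x, ENNReal.ofReal (‖g x‖ ^ r) = ‖g x‖ₑ ^ r := by
    intro x
    rw [← ENNReal.ofReal_rpow_of_nonneg (norm_nonneg _) hr.le, ofReal_norm]
  simp_rw [e1] at h1
  unfold Np
  rw [h1]
  congr 1
  apply setLIntegral_congr_fun measurableSet_Ioi
  intro t ht
  have ht : 0 < t := ht
  simp only
  rw [mul_comm]
  congr 2
  ext x
  simp only [mem_ofPred_eq]
  rw [← ofReal_norm]
  constructor
  · intro h
    exact (ENNReal.ofReal_lt_ofReal_iff (ht.trans h)).2 h
  · intro h
    by_contra hcon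
    exact absurd h (not_lt.2 (ENNReal.ofReal_le_ofReal (not_lt.1 hcon)))

/-- the estimate before the choice of the height of truncation -/
theorem below_aux {p r : ℝ} (hr : 1 < r) (hrp : r < p) (C : ℝ≥0∞) {k : ℝ → ℂ} (hk : Hor k)
    (hC : ∀ g : ℝ → X, BM g → Np p (TK k g) ≤ C * Np p g) {f : ℝ → X} (hf : BM f) {d : ℕ}
    (hs : Step d 0 1 fun x => ‖f x‖ₑ) {κ : ℝ} (hκ : 0 < κ) :
    Np r (TK k f) ≤ ENNReal.ofReal r * (ENNReal.ofReal (2 ^ p * κ ^ (p - r)) *
        (∫⁻ t in Ioi (0:ℝ), ENNReal.ofReal (t ^ (r - 1 - p)) *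
          Np p (TK k ({y | ‖f y‖ ≤ t}.indicator f))) +
      (2 * 4 ^ p * C + 32) * ENNReal.ofReal (2 * κ ^ (1 - r) / (r - 1)) * Np r f) := by
  have hp : 1 < p := hr.trans hrp
  have hr0 : 0 < r := by linarith
  have hnm : Measurable fun y => ‖f y‖ := hf.1.norm.measurable
  set W : ℝ≥0∞ := 2 * 4 ^ p * C + 32 with hW
  set G : ℝ → ℝ≥0∞ := fun t => ENNReal.ofReal (t ^ (r - 1 - p)) *
    Np p (TK k ({y | ‖f y‖ ≤ t}.indicator f)) with hG
  set H : ℝ → ℝ≥0∞ := fun t => ENNReal.ofReal (t ^ (r - 1 - 1)) *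
    Np 1 ({y | κ * t < ‖f y‖}.indicator f) with hH
  rw [cake hr0 (TK_BM hk hf).1]
  gcongr
  have hpt : ∀ t ∈ Ioi (0:ℝ), ENNReal.ofReal (t ^ (r - 1)) * m1 {x | ENNReal.ofReal t < ‖TK k f x‖ₑ} ≤
      ENNReal.ofReal (2 ^ p * κ ^ (p - r) * κ) * G (κ * t) + 2 * W * H t := by
    intro t ht
    have ht : 0 < t := ht
    have hκt : 0 < κ * t := by positivity
    set φ : ℝ → X := {y | ‖f y‖ ≤ κ * t}.indicator f with hφ
    set ψ : ℝ → X := {y | κ * t < ‖f y‖}.indicator f with hψ
    have hms1 : MeasurableSet {y | ‖f y‖ ≤ κ * t} := measurableSet_le hnm measurable_const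
    have hms2 : MeasurableSet {y | κ * t < ‖f y‖} := measurableSet_lt measurable_const hnm
    have bφ : BM φ := hf.ind hms1
    have bψ : BM ψ := hf.ind hms2
    have hsum : f = fun y => φ y + ψ y := by
      funext y
      by_cases h : ‖f y‖ ≤ κ * t
      · rw [hφ, hψ, indicator_of_mem (show y ∈ {y | ‖f y‖ ≤ κ * t} from h),
          indicator_of_notMem (show y ∉ {y | κ * t < ‖f y‖} from not_lt.2 h), add_zero]
      · rw [hφ, hψ, indicator_of_notMem (show y ∉ {y | ‖f y‖ ≤ κ * t} from h),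
          indicator_of_mem (show y ∈ {y | κ * t < ‖f y‖} from not_le.1 h), zero_add]
    have hsψ : Step d 0 1 fun x => ‖ψ x‖ₑ := by
      have h1 := Step.comp (fun s : ℝ≥0∞ => if ENNReal.ofReal (κ * t) < s then s else 0) d 0 1 hs
      convert h1 using 2 with x
      by_cases h : κ * t < ‖f x‖
      · rw [hψ, indicator_of_mem (show x ∈ {y | κ * t < ‖f y‖} from h), if_pos]
        rw [← ofReal_norm]
        exact (ENNReal.ofReal_lt_ofReal_iff (hκt.trans h)).2 h
      · rw [hψ, indicator_of_notMem (show x ∉ {y | κ * t < ‖f y‖} from h), if_neg, enorm_zero]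
        rw [← ofReal_norm, not_lt]
        exact ENNReal.ofReal_le_ofReal (not_lt.1 h)
    have h1 := cheb p (by linarith) (TK k φ) (TK_BM hk bφ).1 (l := t / 2) (by positivity)
    have h2 := weak hk hp hC bψ hsψ (l := t / 2) (by positivity)
    have h3 : m1 {x | ENNReal.ofReal t < ‖TK k f x‖ₑ} ≤
        (ENNReal.ofReal (t / 2) ^ p)⁻¹ * Np p (TK k φ) +
          W * (ENNReal.ofReal (t / 2))⁻¹ * ∫⁻ x, ‖ψ x‖ₑ ∂m1 := by
      refine le_trans (measure_mono ?_) ((measure_union_le _ _).trans (add_le_add h1 h2))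
      intro x hx
      by_contra hcon
      simp only [mem_union, mem_ofPred_eq, not_or, not_lt] at hcon hx
      have e1 : TK k f x = TK k φ x + TK k ψ x := by
        conv_lhs => rw [hsum]
        exact TK_add hk bφ bψ x
      have e2 : ENNReal.ofReal t = ENNReal.ofReal (t / 2) + ENNReal.ofReal (t / 2) := by
        rw [← ENNReal.ofReal_add (by positivity) (by positivity)]
        congr 1
        ring
      rw [e1, e2] at hx
      exact absurd hx (not_lt.2 ((enorm_add_le _ _).trans (add_le_add hcon.1 hcon.2)))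
    calc ENNReal.ofReal (t ^ (r - 1)) * m1 {x | ENNReal.ofReal t < ‖TK k f x‖ₑ} ≤
          ENNReal.ofReal (t ^ (r - 1)) * ((ENNReal.ofReal (t / 2) ^ p)⁻¹ * Np p (TK k φ) +
          W * (ENNReal.ofReal (t / 2))⁻¹ * ∫⁻ x, ‖ψ x‖ₑ ∂m1) := by gcongr
      _ = (ENNReal.ofReal (t ^ (r - 1)) * (ENNReal.ofReal (t / 2) ^ p)⁻¹) * Np p (TK k φ) +
          W * ((ENNReal.ofReal (t ^ (r - 1)) * (ENNReal.ofReal (t / 2))⁻¹) * ∫⁻ x, ‖ψ x‖ₑ ∂m1) := by
          ring
      _ = _ := by
          have e1 : ENNReal.ofReal (t ^ (r - 1)) * (ENNReal.ofReal (t / 2) ^ p)⁻¹ =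
              ENNReal.ofReal (2 ^ p * κ ^ (p - r) * κ) * ENNReal.ofReal ((κ * t) ^ (r - 1 - p)) := by
            rw [ENNReal.ofReal_rpow_of_pos (by positivity), ← ENNReal.ofReal_inv_of_pos (by positivity),
              ← ENNReal.ofReal_mul (by positivity), ← ENNReal.ofReal_mul (by positivity)]
            congr 1
            rw [Real.div_rpow ht.le (by norm_num), Real.mul_rpow hκ.le ht.le,
              Real.rpow_sub ht (r - 1) p]
            have e9 : κ ^ (p - r) * κ * κ ^ (r - 1 - p) = 1 := by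
              rw [← Real.rpow_add_one hκ.ne', ← Real.rpow_add hκ]
              have : p - r + 1 + (r - 1 - p) = 0 := by ring
              rw [this, Real.rpow_zero]
            have h2p : (0:ℝ) < 2 ^ p := by positivity
            have htp : (0:ℝ) < t ^ p := by positivity
            calc t ^ (r - 1) * (t ^ p / 2 ^ p)⁻¹ = 2 ^ p * (t ^ (r - 1) / t ^ p) := by field_simp
              _ = 2 ^ p * (κ ^ (p - r) * κ * κ ^ (r - 1 - p)) * (t ^ (r - 1) / t ^ p) := by
                  rw [e9, mul_one]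
              _ = _ := by ring
          have e2 : ENNReal.ofReal (t ^ (r - 1)) * (ENNReal.ofReal (t / 2))⁻¹ =
              2 * ENNReal.ofReal (t ^ (r - 1 - 1)) := by
            have e0 : (2:ℝ≥0∞) = ENNReal.ofReal 2 := by norm_num
            rw [← ENNReal.ofReal_inv_of_pos (by positivity), e0,
              ← ENNReal.ofReal_mul (by positivity), ← ENNReal.ofReal_mul (by positivity)]
            congr 1
            rw [Real.rpow_sub_one ht.ne' (r - 1)]
            field_simp
          rw [e1, e2]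
          have e3 : Np 1 ψ = ∫⁻ x, ‖ψ x‖ₑ ∂m1 := by
            unfold Np
            simp_rw [ENNReal.rpow_one]
          rw [hG, hH]
          simp only
          rw [← hψ, ← hφ, e3]
          ring
  have hHanti : Antitone fun t : ℝ => Np 1 ({y | κ * t < ‖f y‖}.indicator f) := by
    intro s t hst
    simp only
    rw [Np_ind one_pos, Np_ind one_pos]
    apply lintegral_mono
    intro y
    apply Set.indicator_le_indicator_of_subset
    · intro y hy
      have hy : κ * t < ‖f y‖ := hy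
      have : κ * s ≤ κ * t := by gcongr
      exact this.trans_lt hy
    · exact fun _ => zero_le
  have hHm : Measurable H := (Measurable.ennreal_ofReal (by fun_prop)).mul hHanti.measurable
  calc ∫⁻ t in Ioi (0:ℝ), ENNReal.ofReal (t ^ (r - 1)) * m1 {x | ENNReal.ofReal t < ‖TK k f x‖ₑ} ≤
        ∫⁻ t in Ioi (0:ℝ), (ENNReal.ofReal (2 ^ p * κ ^ (p - r) * κ) * G (κ * t) + 2 * W * H t) :=
          setLIntegral_mono' measurableSet_Ioi hpt
    _ = ENNReal.ofReal (2 ^ p * κ ^ (p - r) * κ) * (∫⁻ t in Ioi (0:ℝ), G (κ * t)) +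
        2 * W * ∫⁻ t in Ioi (0:ℝ), H t := by
        rw [lintegral_add_right _ (hHm.const_mul _), lintegral_const_mul' _ _ ENNReal.ofReal_ne_top,
          lintegral_const_mul _ hHm]
    _ ≤ _ := by
        rw [scale hκ]
        have h5 := ton_gt one_pos hr hκ hf
        have e5 : ENNReal.ofReal (2 ^ p * κ ^ (p - r) * κ) *
            (ENNReal.ofReal κ⁻¹ * ∫⁻ t in Ioi (0:ℝ), G t) =
            ENNReal.ofReal (2 ^ p * κ ^ (p - r)) * ∫⁻ t in Ioi (0:ℝ), G t := by
          rw [← mul_assoc, ← ENNReal.ofReal_mul (by positivity)]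
          congr 2
          field_simp
        rw [e5]
        refine add_le_add le_rfl ?_
        calc 2 * W * ∫⁻ t in Ioi (0:ℝ), H t ≤
              2 * W * (ENNReal.ofReal (κ ^ (1 - r) / (r - 1)) * Np r f) := by gcongr
          _ = _ := by
              have e6 : 2 * κ ^ (1 - r) / (r - 1) = 2 * (κ ^ (1 - r) / (r - 1)) := by ring
              rw [e6, ENNReal.ofReal_mul (by norm_num), show ENNReal.ofReal 2 = 2 by norm_num]
              ring

/-- the constant of the estimate below `p` -/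
noncomputable def Kb (p r C : ℝ) : ℝ := r * (2 ^ p + 2 * (2 * 4 ^ p * C + 32) / (r - 1))

/-- **exponents below `p`** -/
theorem below {p r : ℝ} (hr : 1 < r) (hrp : r < p) (C : ℝ) (hC0 : 0 ≤ C) {k : ℝ → ℂ} (hk : Hor k)
    (hC : ∀ g : ℝ → X, BM g → Np p (TK k g) ≤ ENNReal.ofReal C * Np p g) {f : ℝ → X} (hf : BM f)
    {d : ℕ} (hs : Step d 0 1 fun x => ‖f x‖ₑ) :
    Np r (TK k f) ^ ((p - 1) / (r - 1)) ≤ ENNReal.ofReal ((2 * Kb p r C) ^ ((p - 1) / (r - 1))) *
      Np r f ^ ((p - r) / (r - 1)) * ∫⁻ t in Ioi (0:ℝ), ENNReal.ofReal (t ^ (r - 1 - p)) *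
          Np p (TK k ({y | ‖f y‖ ≤ t}.indicator f)) := by
  have hp : 1 < p := hr.trans hrp
  have hr0 : 0 < r := by linarith
  have hnm : Measurable fun y => ‖f y‖ := hf.1.norm.measurable
  set b := ∫⁻ t in Ioi (0:ℝ), ENNReal.ofReal (t ^ (r - 1 - p)) *
          Np p (TK k ({y | ‖f y‖ ≤ t}.indicator f)) with hb
  have hFt : Np r f ≠ ∞ := (Np_lt_top hr0.le hf).ne
  have hat : Np r (TK k f) ≠ ∞ := (Np_lt_top hr0.le (TK_BM hk hf)).ne
  have hbt : b ≠ ∞ := by
    have h1 : b ≤ ENNReal.ofReal C * (ENNReal.ofReal (1 / (p - r)) * Np r f) := by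
      calc b ≤ ∫⁻ t in Ioi (0:ℝ), ENNReal.ofReal C * (ENNReal.ofReal (t ^ (r - 1 - p)) *
          Np p ({y | ‖f y‖ ≤ t}.indicator f)) := by
            apply lintegral_mono
            intro t
            calc ENNReal.ofReal (t ^ (r - 1 - p)) * Np p (TK k ({y | ‖f y‖ ≤ t}.indicator f)) ≤
                  ENNReal.ofReal (t ^ (r - 1 - p)) *
                    (ENNReal.ofReal C * Np p ({y | ‖f y‖ ≤ t}.indicator f)) := by
                    gcongr
                    exact hC _ (hf.ind (measurableSet_le hnm measurable_const))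
              _ = _ := by ring
        _ ≤ _ := by
            rw [lintegral_const_mul' _ _ ENNReal.ofReal_ne_top]
            gcongr
            exact ton_le hr0 hrp hf
    exact ne_top_of_le_ne_top (ENNReal.mul_ne_top ENNReal.ofReal_ne_top
      (ENNReal.mul_ne_top ENNReal.ofReal_ne_top hFt)) h1
  have hK : 0 < Kb p r C := by
    unfold Kb
    have : 0 < r - 1 := by linarith
    positivity
  set a' := (Np r (TK k f)).toReal with ha'
  set b' := b.toReal with hb'
  set F' := (Np r f).toReal with hF'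
  have ea : Np r (TK k f) = ENNReal.ofReal a' := (ENNReal.ofReal_toReal hat).symm
  have eb : b = ENNReal.ofReal b' := (ENNReal.ofReal_toReal hbt).symm
  have eF : Np r f = ENNReal.ofReal F' := (ENNReal.ofReal_toReal hFt).symm
  have ha0 : 0 ≤ a' := ENNReal.toReal_nonneg
  have hb0 : 0 ≤ b' := ENNReal.toReal_nonneg
  have hF0 : 0 ≤ F' := ENNReal.toReal_nonneg
  have hr1 : 0 < r - 1 := by linarith
  have hpr : 0 < p - r := by linarith
  have hmain : ∀ κ : ℝ, 0 < κ → a' ≤ Kb p r C * (κ ^ (p - r) * b' + κ ^ (-(r - 1)) * F') := by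
    intro κ hκ
    have h1 := below_aux hr hrp (ENNReal.ofReal C) hk hC hf hs hκ
    rw [← hb, ea, eb, eF] at h1
    have e4 : (4:ℝ≥0∞) ^ p = ENNReal.ofReal (4 ^ p) := by
      rw [← ENNReal.ofReal_rpow_of_pos (by norm_num)]
      norm_num
    have e1 : (2 * 4 ^ p * ENNReal.ofReal C + 32 : ℝ≥0∞) = ENNReal.ofReal (2 * 4 ^ p * C + 32) := by
      rw [ENNReal.ofReal_add (by positivity) (by norm_num), ENNReal.ofReal_mul (by positivity),
        ENNReal.ofReal_mul (by norm_num), e4]
      norm_num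
    rw [e1, ← ENNReal.ofReal_mul (by positivity), ← ENNReal.ofReal_mul (by positivity),
      ← ENNReal.ofReal_mul (by positivity), ← ENNReal.ofReal_add (by positivity) (by positivity),
      ← ENNReal.ofReal_mul (by positivity)] at h1
    have h2 := (ENNReal.ofReal_le_ofReal_iff (by positivity)).1 h1
    refine h2.trans ?_
    unfold Kb
    have e2 : 1 - r = -(r - 1) := by ring
    rw [e2]
    have hx : 0 ≤ κ ^ (p - r) * b' := by positivity
    have hy : 0 ≤ κ ^ (-(r - 1)) * F' := by positivity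
    have hu : 0 ≤ 2 * (2 * 4 ^ p * C + 32) / (r - 1) := by positivity
    have hv : (0:ℝ) ≤ 2 ^ p := by positivity
    have hxu := mul_nonneg hx hu
    have hyv := mul_nonneg hy hv
    rw [mul_assoc r]
    apply mul_le_mul_of_nonneg_left _ hr0.le
    have e3 : (2 * 4 ^ p * C + 32) * (2 * κ ^ (-(r - 1)) / (r - 1)) * F' =
      2 * (2 * 4 ^ p * C + 32) / (r - 1) * (κ ^ (-(r - 1)) * F') := by ring
    rw [e3]
    nlinarith
  have h3 := opt ha0 hb0 hF0 hK hpr hr1 hmain
  have e1 : p - r + (r - 1) = p - 1 := by ring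
  rw [e1] at h3
  rw [ea, eb, eF, ENNReal.ofReal_rpow_of_nonneg ha0 (by
    have : 0 < p - 1 := by linarith
    positivity), ENNReal.ofReal_rpow_of_nonneg hF0 (by positivity),
    ← ENNReal.ofReal_mul (by positivity), ← ENNReal.ofReal_mul (by positivity)]
  exact ENNReal.ofReal_le_ofReal h3

end

end Pool.Agent.K7.H81.FD
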