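import Pool.Agent.K7.H81.FI

set_option autoImplicit false
set_option linter.unusedSectionVars false
set_option linter.unusedVariables false

/-!
# Families of operators
-/

namespace Pool.Agent.K7.H81.FD

open MeasureTheory Set Filter Topology Pool.Agent.R955.FD
open scoped ENNReal

universe u

theorem sum_rpow_le {ι : Type*} (S : Finset ι) (z : ι → ℝ≥0∞) {t : ℝ} (ht : 1 ≤ t) :
    ∑ i ∈ S, z i ^ t ≤ (∑ i ∈ S, z i) ^ t := by
  classical
  induction S using Finset.induction_on with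
  | empty => simp
  | insert i S hi ih =>
    rw [Finset.sum_insert hi, Finset.sum_insert hi]
    exact (add_le_add le_rfl ih).trans (ENNReal.add_rpow_le_rpow_add _ _ ht)

/-- the sharp parameter -/
noncomputable def theta (p r : ℝ) : ℝ := min (p / r) ((p / (p - 1)) / (r / (r - 1)))

theorem theta_below {p r : ℝ} (hr : 1 < r) (hrp : r < p) :
    theta p r = (p / (p - 1)) / (r / (r - 1)) := by
  apply min_eq_right
  have h1 : 0 < r - 1 := by linarith
  have h2 : 0 < p - 1 := by linarith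
  have h3 : 0 < p := by linarith
  have h4 : 0 < r := by linarith
  rw [div_div_div_eq, div_le_div_iff₀ (by positivity) (by positivity)]
  nlinarith [mul_pos h3 h4]

theorem theta_above {p r : ℝ} (hp : 1 < p) (hpr : p < r) : theta p r = p / r := by
  apply min_eq_left
  have h1 : 0 < r - 1 := by linarith
  have h2 : 0 < p - 1 := by linarith
  have h3 : 0 < p := by linarith
  have h4 : 0 < r := by linarith
  rw [div_div_div_eq, div_le_div_iff₀ (by positivity) (by positivity)]
  nlinarith [mul_pos h3 h4]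

theorem theta_self {p : ℝ} (hp : 1 < p) : theta p p = 1 := by
  unfold theta
  have h2 : 0 < p - 1 := by linarith
  have h3 : p / (p - 1) ≠ 0 := by positivity
  rw [div_self (by linarith), div_self h3, min_self]

theorem theta_pos {p r : ℝ} (hp : 1 < p) (hr : 1 < r) : 0 < theta p r := by
  have h1 : 0 < r - 1 := by linarith
  have h2 : 0 < p - 1 := by linarith
  unfold theta
  apply lt_min <;> positivity

section
variable {X : Type u} [NormedAddCommGroup X] [NormedSpace ℂ X] [CompleteSpace X]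

theorem Np_mono_exp {p r : ℝ} (hp : 0 < p) (hpr : p ≤ r) {g : ℝ → X} (hg : StronglyMeasurable g) :
    Np p g ^ (1 / p) ≤ Np r g ^ (1 / r) := by
  rw [← Np_eq hp, ← Np_eq (hp.trans_le hpr)]
  exact eLpNorm_le_eLpNorm_of_exponent_le (ENNReal.ofReal_le_ofReal hpr) hg.aestronglyMeasurable

/-- modulation -/
noncomputable def md (a : ℝ) (g : ℝ → X) (x : ℝ) : X := ch a x • g x

theorem md_enorm (a : ℝ) (g : ℝ → X) (x : ℝ) : ‖md a g x‖ₑ = ‖g x‖ₑ := by
  unfold md
  rw [enorm_smul, ← ofReal_norm, ch_norm, ENNReal.ofReal_one, one_mul]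

theorem md_norm (a : ℝ) (g : ℝ → X) (x : ℝ) : ‖md a g x‖ = ‖g x‖ := by
  unfold md
  rw [norm_smul, ch_norm, one_mul]

theorem md_Np (p a : ℝ) (g : ℝ → X) : Np p (md a g) = Np p g := by
  unfold Np
  simp_rw [md_enorm]

theorem md_BM (a : ℝ) {g : ℝ → X} (hg : BM g) : BM (md a g) := by
  refine ⟨(ch_cont a).stronglyMeasurable.smul hg.1, ?_⟩
  obtain ⟨M, hM⟩ := hg.2
  exact ⟨M, fun x => by rw [md_norm]; exact hM x⟩

theorem md_inv (a : ℝ) (g : ℝ → X) : md a (md (-a) g) = g := by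
  funext x
  unfold md
  rw [smul_smul, ← ch_add]
  have : a + -a = 0 := by ring
  rw [this, ch_zero, one_smul]

theorem md_ind (a : ℝ) (s : Set ℝ) (g : ℝ → X) : md a (s.indicator g) = s.indicator (md a g) := by
  funext x
  unfold md
  by_cases h : x ∈ s
  · rw [indicator_of_mem h, indicator_of_mem h]
  · rw [indicator_of_notMem h, indicator_of_notMem h, smul_zero]

/-- families, exponents below `p` -/
theorem fam_below {p r m : ℝ} (hr : 1 < r) (hrp : r < p) (hm : 1 ≤ m) (C : ℝ) (hC0 : 0 ≤ C)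
    {ι : Type*} (S : Finset ι) {k : ι → ℝ → ℂ} (a : ι → ℝ) (hk : ∀ i ∈ S, Hor (k i))
    (hC : ∀ g : ℝ → X, BM g → ∑ i ∈ S, Np p (TK (k i) (md (a i) g)) ^ m ≤ (ENNReal.ofReal C * Np p g) ^ m)
    {f : ℝ → X} (hf : BM f) {d : ℕ} (hs : Step d 0 1 fun x => ‖f x‖ₑ) :
    ∑ i ∈ S, (Np r (TK (k i) (md (a i) f)) ^ ((p - 1) / (r - 1))) ^ m ≤
      (ENNReal.ofReal ((2 * Kb p r C) ^ ((p - 1) / (r - 1)) * (C * (1 / (p - r)))) *
        Np r f ^ ((p - 1) / (r - 1))) ^ m := by
  have hp : 1 < p := hr.trans hrp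
  have hr0 : 0 < r := by linarith
  have hm0 : 0 < m := by linarith
  have hr1 : 0 < r - 1 := by linarith
  have hpr : 0 < p - r := by linarith
  have hnm : Measurable fun y => ‖f y‖ := hf.1.norm.measurable
  have hsingle : ∀ i ∈ S, ∀ g : ℝ → X, BM g → Np p (TK (k i) g) ≤ ENNReal.ofReal C * Np p g := by
    intro i hi g hg
    have h0 := hC (md (-a i) g) (md_BM _ hg)
    rw [md_Np] at h0
    have h1 : Np p (TK (k i) g) ^ m ≤ (ENNReal.ofReal C * Np p g) ^ m := by
      refine le_trans ?_ ((Finset.single_le_sum (f := fun j => Np p (TK (k j)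
        (md (a j) (md (-a i) g))) ^ m) (fun _ _ => zero_le) hi).trans h0)
      rw [md_inv]
    exact (ENNReal.rpow_le_rpow_iff hm0).1 h1
  set A := ENNReal.ofReal ((2 * Kb p r C) ^ ((p - 1) / (r - 1))) * Np r f ^ ((p - r) / (r - 1)) with hA
  set ft : ℝ → ℝ → X := fun t => {y | ‖f y‖ ≤ t}.indicator f with hft
  have bft : ∀ t, BM (ft t) := fun t => hf.ind (measurableSet_le hnm measurable_const)
  set w : ℝ → ℝ≥0∞ := fun t => ENNReal.ofReal (t ^ (r - 1 - p)) with hw
  have h1 : ∑ i ∈ S, (Np r (TK (k i) (md (a i) f)) ^ ((p - 1) / (r - 1))) ^ m ≤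
      ∑ i ∈ S, (A * ∫⁻ t in Ioi (0:ℝ), w t * Np p (TK (k i) (md (a i) (ft t)))) ^ m := by
    apply Finset.sum_le_sum
    intro i hi
    have hs' : Step d 0 1 fun x => ‖md (a i) f x‖ₑ := by
      simp_rw [md_enorm]
      exact hs
    have h9 := below hr hrp C hC0 (hk i hi) (hsingle i hi) (md_BM (a i) hf) hs'
    simp_rw [md_norm, ← md_ind, md_Np] at h9
    exact ENNReal.rpow_le_rpow h9 hm0.le
  refine h1.trans ?_
  simp_rw [ENNReal.mul_rpow_of_nonneg _ _ hm0.le]
  rw [← Finset.mul_sum]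
  have h2 := mink (μ := volume.restrict (Ioi (0:ℝ))) S
    (fun i t => w t * Np p (TK (k i) (md (a i) (ft t)))) hm
  have h3 : ∫⁻ t in Ioi (0:ℝ), (∑ i ∈ S, (w t * Np p (TK (k i) (md (a i) (ft t)))) ^ m) ^ (1 / m) ≤
      ENNReal.ofReal (C * (1 / (p - r))) * Np r f := by
    calc ∫⁻ t in Ioi (0:ℝ), (∑ i ∈ S, (w t * Np p (TK (k i) (md (a i) (ft t)))) ^ m) ^ (1 / m) ≤
          ∫⁻ t in Ioi (0:ℝ), ENNReal.ofReal C * (w t * Np p (ft t)) := by
          apply lintegral_mono
          intro t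
          simp_rw [ENNReal.mul_rpow_of_nonneg _ _ hm0.le]
          rw [← Finset.mul_sum, ENNReal.mul_rpow_of_nonneg _ _ (by positivity),
            ← ENNReal.rpow_mul, mul_one_div_cancel hm0.ne', ENNReal.rpow_one]
          calc w t * (∑ i ∈ S, Np p (TK (k i) (md (a i) (ft t))) ^ m) ^ (1 / m) ≤
                w t * ((ENNReal.ofReal C * Np p (ft t)) ^ m) ^ (1 / m) := by
                gcongr
                exact hC _ (bft t)
            _ = _ := by
                rw [← ENNReal.rpow_mul, mul_one_div_cancel hm0.ne', ENNReal.rpow_one]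
                ring
      _ = ENNReal.ofReal C * ∫⁻ t in Ioi (0:ℝ), w t * Np p (ft t) :=
          lintegral_const_mul' _ _ ENNReal.ofReal_ne_top
      _ ≤ ENNReal.ofReal C * (ENNReal.ofReal (1 / (p - r)) * Np r f) := by
          gcongr
          exact ton_le hr0 hrp hf
      _ = _ := by
          rw [ENNReal.ofReal_mul hC0]
          ring
  calc A ^ m * ∑ i ∈ S, (∫⁻ t in Ioi (0:ℝ), w t * Np p (TK (k i) (md (a i) (ft t)))) ^ m ≤
        A ^ m * (ENNReal.ofReal (C * (1 / (p - r))) * Np r f) ^ m := by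
        gcongr
        exact h2.trans (ENNReal.rpow_le_rpow h3 hm0.le)
    _ = (A * (ENNReal.ofReal (C * (1 / (p - r))) * Np r f)) ^ m :=
        (ENNReal.mul_rpow_of_nonneg _ _ hm0.le).symm
    _ = _ := by
        have e1 : A * (ENNReal.ofReal (C * (1 / (p - r))) * Np r f) =
            ENNReal.ofReal ((2 * Kb p r C) ^ ((p - 1) / (r - 1)) * (C * (1 / (p - r)))) *
              Np r f ^ ((p - 1) / (r - 1)) := by
          have e2 : Np r f ^ ((p - 1) / (r - 1)) = Np r f ^ ((p - r) / (r - 1)) * Np r f := by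
            have h5 : (p - 1) / (r - 1) = (p - r) / (r - 1) + 1 := by
              field_simp
              ring
            rw [h5, ENNReal.rpow_add_of_nonneg _ _ (by positivity) (by norm_num), ENNReal.rpow_one]
          have hK : 0 < Kb p r C := by
            unfold Kb
            positivity
          rw [e2, hA, ENNReal.ofReal_mul (p := (2 * Kb p r C) ^ ((p - 1) / (r - 1))) (by positivity)]
          ring
        rw [e1, ENNReal.mul_rpow_of_nonneg _ _ hm0.le]

/-- families, exponents above `p` -/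
theorem fam_above {p r m : ℝ} (hp : 1 < p) (hpr : p < r) (hm : 1 ≤ m) (C : ℝ) (hC0 : 0 ≤ C)
    {c : ℝ} (hc : c = 1 / (4 ^ (r + 1) * (2 * (8 + 2 * C))))
    {ι : Type*} (S : Finset ι) {k : ι → ℝ → ℂ} (a : ι → ℝ) (hk : ∀ i ∈ S, Hor (k i))
    (hC : ∀ g : ℝ → X, BM g → ∑ i ∈ S, Np p (TK (k i) (md (a i) g)) ^ m ≤ (ENNReal.ofReal C * Np p g) ^ m)
    {f : ℝ → X} (hf : BM f) :
    ∑ i ∈ S, Np r (TK (k i) (md (a i) f)) ^ m ≤
      (ENNReal.ofReal (r * (2 * 4 ^ r) * (C ^ (r / p) + 2 ^ p * (C * (c ^ (p - r) / (r - p))))) *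
        Np r f) ^ m := by
  have hp0 : 0 < p := by linarith
  have hr0 : 0 < r := by linarith
  have hm0 : 0 < m := by linarith
  have hr1 : 0 < r - p := by linarith
  have h4r : (0:ℝ) < 4 ^ (r + 1) := Real.rpow_pos_of_pos (by norm_num) _
  have hc0 : 0 < c := by rw [hc]; positivity
  have hnm : Measurable fun y => ‖f y‖ := hf.1.norm.measurable
  have hsingle : ∀ i ∈ S, ∀ g : ℝ → X, BM g → Np p (TK (k i) g) ≤ ENNReal.ofReal C * Np p g := by
    intro i hi g hg
    have h0 := hC (md (-a i) g) (md_BM _ hg)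
    rw [md_Np] at h0
    have h1 : Np p (TK (k i) g) ^ m ≤ (ENNReal.ofReal C * Np p g) ^ m := by
      refine le_trans ?_ ((Finset.single_le_sum (f := fun j => Np p (TK (k j)
        (md (a j) (md (-a i) g))) ^ m) (fun _ _ => zero_le) hi).trans h0)
      rw [md_inv]
    exact (ENNReal.rpow_le_rpow_iff hm0).1 h1
  set ft : ℝ → ℝ → X := fun t => {y | c * t < ‖f y‖}.indicator f with hft
  have bft : ∀ t, BM (ft t) := fun t => hf.ind (measurableSet_lt measurable_const hnm)
  set w : ℝ → ℝ≥0∞ := fun t => ENNReal.ofReal (t ^ (r - 1 - p)) with hw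
  set x : ι → ℝ≥0∞ := fun i => Np p (TK (k i) (md (a i) f)) ^ (r / p) with hx
  set y : ι → ℝ≥0∞ := fun i => 2 ^ p * ∫⁻ t in Ioi (0:ℝ), w t * Np p (TK (k i) (md (a i) (ft t))) with hy
  set D : ℝ≥0∞ := ENNReal.ofReal r * (2 * 4 ^ r) with hD
  have h1 : ∀ i ∈ S, Np r (TK (k i) (md (a i) f)) ≤ D * (x i + y i) := by
    intro i hi
    have h9 := above hp hpr C hC0 (hk i hi) (hsingle i hi) (md_BM (a i) hf) hc
    simp_rw [md_norm, ← md_ind] at h9
    refine h9.trans (le_of_eq ?_)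
    rw [hD, hx, hy, hw, hft]
    ring
  have hX : (∑ i ∈ S, x i ^ m) ^ (1 / m) ≤ ENNReal.ofReal (C ^ (r / p)) * Np r f := by
    have e1 : ∀ i ∈ S, x i ^ m = (Np p (TK (k i) (md (a i) f)) ^ m) ^ (r / p) := by
      intro i _
      rw [hx]
      simp only
      rw [← ENNReal.rpow_mul, ← ENNReal.rpow_mul, mul_comm]
    rw [Finset.sum_congr rfl e1]
 
    have h2 : ∑ i ∈ S, (Np p (TK (k i) (md (a i) f)) ^ m) ^ (r / p) ≤ ((ENNReal.ofReal C * Np p f) ^ m) ^ (r / p) :=
      (sum_rpow_le S _ (by rw [le_div_iff₀ hp0]; linarith)).trans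
        (ENNReal.rpow_le_rpow (hC f hf) (by positivity))
    calc _ ≤ (((ENNReal.ofReal C * Np p f) ^ m) ^ (r / p)) ^ (1 / m) :=
          ENNReal.rpow_le_rpow h2 (by positivity)
      _ = (ENNReal.ofReal C * Np p f) ^ (r / p) := by
          rw [← ENNReal.rpow_mul, ← ENNReal.rpow_mul]
          congr 1
          field_simp
      _ = ENNReal.ofReal (C ^ (r / p)) * (Np p f ^ (1 / p)) ^ r := by
          rw [ENNReal.mul_rpow_of_nonneg _ _ (by positivity), ENNReal.ofReal_rpow_of_nonneg hC0 (by positivity),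
            ← ENNReal.rpow_mul]
          congr 2
          field_simp
      _ ≤ ENNReal.ofReal (C ^ (r / p)) * (Np r f ^ (1 / r)) ^ r := by
          gcongr
          exact Np_mono_exp hp0 hpr.le hf.1
      _ = _ := by
          rw [← ENNReal.rpow_mul, one_div_mul_cancel hr0.ne', ENNReal.rpow_one]
  have hY : (∑ i ∈ S, y i ^ m) ^ (1 / m) ≤
      ENNReal.ofReal (2 ^ p * (C * (c ^ (p - r) / (r - p)))) * Np r f := by
    have h2 := mink (μ := volume.restrict (Ioi (0:ℝ))) S
      (fun i t => w t * Np p (TK (k i) (md (a i) (ft t)))) hm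
    have h3 : ∫⁻ t in Ioi (0:ℝ), (∑ i ∈ S, (w t * Np p (TK (k i) (md (a i) (ft t)))) ^ m) ^ (1 / m) ≤
        ENNReal.ofReal (C * (c ^ (p - r) / (r - p))) * Np r f := by
      calc ∫⁻ t in Ioi (0:ℝ), (∑ i ∈ S, (w t * Np p (TK (k i) (md (a i) (ft t)))) ^ m) ^ (1 / m) ≤
            ∫⁻ t in Ioi (0:ℝ), ENNReal.ofReal C * (w t * Np p (ft t)) := by
            apply lintegral_mono
            intro t
            simp_rw [ENNReal.mul_rpow_of_nonneg _ _ hm0.le]
            rw [← Finset.mul_sum, ENNReal.mul_rpow_of_nonneg _ _ (by positivity),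
              ← ENNReal.rpow_mul, mul_one_div_cancel hm0.ne', ENNReal.rpow_one]
            calc w t * (∑ i ∈ S, Np p (TK (k i) (md (a i) (ft t))) ^ m) ^ (1 / m) ≤
                  w t * ((ENNReal.ofReal C * Np p (ft t)) ^ m) ^ (1 / m) := by
                  gcongr
                  exact hC _ (bft t)
              _ = _ := by
                  rw [← ENNReal.rpow_mul, mul_one_div_cancel hm0.ne', ENNReal.rpow_one]
                  ring
        _ = ENNReal.ofReal C * ∫⁻ t in Ioi (0:ℝ), w t * Np p (ft t) :=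
            lintegral_const_mul' _ _ ENNReal.ofReal_ne_top
        _ ≤ ENNReal.ofReal C * (ENNReal.ofReal (c ^ (p - r) / (r - p)) * Np r f) := by
            gcongr
            exact ton_gt hp0 hpr hc0 hf
        _ = _ := by
            rw [ENNReal.ofReal_mul hC0]
            ring
    have e4 : (2:ℝ≥0∞) ^ p = ENNReal.ofReal (2 ^ p) := by
      rw [← ENNReal.ofReal_rpow_of_pos (by norm_num)]
      norm_num
    have e5 : ∑ i ∈ S, y i ^ m = ((2:ℝ≥0∞) ^ p) ^ m *
        ∑ i ∈ S, (∫⁻ t in Ioi (0:ℝ), w t * Np p (TK (k i) (md (a i) (ft t)))) ^ m := by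
      rw [Finset.mul_sum]
      apply Finset.sum_congr rfl
      intro i _
      rw [hy]
      simp only
      rw [ENNReal.mul_rpow_of_nonneg _ _ hm0.le]
    calc (∑ i ∈ S, y i ^ m) ^ (1 / m) ≤ (((2:ℝ≥0∞) ^ p) ^ m *
          (ENNReal.ofReal (C * (c ^ (p - r) / (r - p))) * Np r f) ^ m) ^ (1 / m) := by
          rw [e5]
          gcongr
          exact h2.trans (ENNReal.rpow_le_rpow h3 hm0.le)
      _ = 2 ^ p * (ENNReal.ofReal (C * (c ^ (p - r) / (r - p))) * Np r f) := by
          rw [← ENNReal.mul_rpow_of_nonneg _ _ hm0.le, ← ENNReal.rpow_mul,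
            mul_one_div_cancel hm0.ne', ENNReal.rpow_one]
      _ = _ := by
          rw [ENNReal.ofReal_mul (p := 2 ^ p) (by positivity), ← e4]
          ring
  have h5 : (∑ i ∈ S, Np r (TK (k i) (md (a i) f)) ^ m) ^ (1 / m) ≤
      ENNReal.ofReal (r * (2 * 4 ^ r) * (C ^ (r / p) + 2 ^ p * (C * (c ^ (p - r) / (r - p))))) *
        Np r f := by
    calc (∑ i ∈ S, Np r (TK (k i) (md (a i) f)) ^ m) ^ (1 / m) ≤
          (∑ i ∈ S, (D * (x i + y i)) ^ m) ^ (1 / m) := by
          apply ENNReal.rpow_le_rpow _ (by positivity)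
          exact Finset.sum_le_sum fun i hi => ENNReal.rpow_le_rpow (h1 i hi) hm0.le
      _ = D * (∑ i ∈ S, (x i + y i) ^ m) ^ (1 / m) := by
          simp_rw [ENNReal.mul_rpow_of_nonneg _ _ hm0.le]
          rw [← Finset.mul_sum, ENNReal.mul_rpow_of_nonneg _ _ (by positivity),
              ← ENNReal.rpow_mul, mul_one_div_cancel hm0.ne', ENNReal.rpow_one]
      _ ≤ D * ((∑ i ∈ S, x i ^ m) ^ (1 / m) + (∑ i ∈ S, y i ^ m) ^ (1 / m)) := by
          gcongr
          exact ENNReal.Lp_add_le S x y hm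
      _ ≤ D * (ENNReal.ofReal (C ^ (r / p)) * Np r f +
          ENNReal.ofReal (2 ^ p * (C * (c ^ (p - r) / (r - p)))) * Np r f) := by gcongr
      _ = _ := by
          have e4 : (4:ℝ≥0∞) ^ r = ENNReal.ofReal (4 ^ r) := by
            rw [← ENNReal.ofReal_rpow_of_pos (by norm_num)]
            norm_num
          rw [ENNReal.ofReal_mul (p := r * (2 * 4 ^ r)) (by positivity), ENNReal.ofReal_mul hr0.le,
            ENNReal.ofReal_mul (p := 2) (by norm_num), ← e4,
            ENNReal.ofReal_add (by positivity) (by positivity), hD,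
            show ENNReal.ofReal 2 = 2 by norm_num]
          ring
  calc ∑ i ∈ S, Np r (TK (k i) (md (a i) f)) ^ m =
        ((∑ i ∈ S, Np r (TK (k i) (md (a i) f)) ^ m) ^ (1 / m)) ^ m := by
        rw [← ENNReal.rpow_mul, one_div_mul_cancel hm0.ne', ENNReal.rpow_one]
    _ ≤ _ := ENNReal.rpow_le_rpow h5 hm0.le

/-- the norm of `L^p(0, 1)` -/
noncomputable def Nn (p : ℝ) (g : ℝ → X) : ℝ≥0∞ := Np p g ^ (1 / p)

theorem Nn_pow {p : ℝ} (hp : 0 < p) (g : ℝ → X) : Nn p g ^ p = Np p g := by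
  unfold Nn
  rw [← ENNReal.rpow_mul, one_div_mul_cancel hp.ne', ENNReal.rpow_one]

/-- **the extrapolation theorem for families** -/
theorem fam {p q r : ℝ} (hp : 1 < p) (hr : 1 < r) (hpq : p ≤ q) (C : ℝ) (hC0 : 0 ≤ C) :
    ∃ C' : ℝ, 0 ≤ C' ∧ ∀ {ι : Type} (S : Finset ι) (k : ι → ℝ → ℂ) (a : ι → ℝ), (∀ i ∈ S, Hor (k i)) →
      (∀ g : ℝ → X, BM g → ∑ i ∈ S, Nn p (TK (k i) (md (a i) g)) ^ q ≤ (ENNReal.ofReal C * Nn p g) ^ q) →
      ∀ f : ℝ → X, BM f → (∃ d, Step d 0 1 fun x => ‖f x‖ₑ) →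
        ∑ i ∈ S, Nn r (TK (k i) (md (a i) f)) ^ (q / theta p r) ≤
          (ENNReal.ofReal C' * Nn r f) ^ (q / theta p r) := by
  have hp0 : 0 < p := by linarith
  have hr0 : 0 < r := by linarith
  have hq0 : 0 < q := by linarith
  set m := q / p with hm
  have hm1 : 1 ≤ m := by
    rw [hm, le_div_iff₀ hp0]
    linarith
  have hm0 : 0 < m := by linarith
  have hconv : ∀ {ι : Type} (S : Finset ι) (k : ι → ℝ → ℂ) (a : ι → ℝ),
      (∀ g : ℝ → X, BM g → ∑ i ∈ S, Nn p (TK (k i) (md (a i) g)) ^ q ≤ (ENNReal.ofReal C * Nn p g) ^ q) →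
      ∀ g : ℝ → X, BM g → ∑ i ∈ S, Np p (TK (k i) (md (a i) g)) ^ m ≤
        (ENNReal.ofReal (C ^ p) * Np p g) ^ m := by
    intro ι S k a h g hg
    have h1 := h g hg
    have e1 : ∀ z : ℝ≥0∞, (z ^ p) ^ m = z ^ q := by
      intro z
      rw [← ENNReal.rpow_mul]
      congr 1
      rw [hm]
      field_simp
    have e2 : ENNReal.ofReal (C ^ p) * Np p g = (ENNReal.ofReal C * Nn p g) ^ p := by
      rw [ENNReal.mul_rpow_of_nonneg _ _ hp0.le, Nn_pow hp0, ENNReal.ofReal_rpow_of_nonneg hC0 hp0.le]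
    rw [e2, e1]
    refine le_trans (le_of_eq ?_) h1
    apply Finset.sum_congr rfl
    intro i _
    rw [← Nn_pow hp0, e1]
  rcases lt_trichotomy r p with h | h | h
  · -- below
    have hr1 : 0 < r - 1 := by linarith
    have hp1 : 0 < p - 1 := by linarith
    have hpr : 0 < p - r := by linarith
    set e := (p - 1) / (r - 1) with he
    have he0 : 0 < e := by rw [he]; positivity
    set K1 := (2 * Kb p r (C ^ p)) ^ e * (C ^ p * (1 / (p - r))) with hK1
    have hK : 0 < Kb p r (C ^ p) := by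
      unfold Kb
      positivity
    have hK10 : 0 ≤ K1 := by positivity
    refine ⟨(K1 ^ (1 / e)) ^ (1 / r), by positivity, ?_⟩
    intro ι S k a hk hC f hf hs
    obtain ⟨d, hd⟩ := hs
    have h1 := fam_below hr h hm1 (C ^ p) (by positivity) S a hk (hconv S k a hC) hf hd
    rw [← he, ← hK1] at h1
    have es : q / theta p r = r * e * m := by
      rw [theta_below hr h, he, hm]
      field_simp
    have e1 : ∀ z : ℝ≥0∞, ((z ^ r) ^ e) ^ m = z ^ (q / theta p r) := by
      intro z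
      rw [es, ENNReal.rpow_mul, ENNReal.rpow_mul]
    have e2 : ENNReal.ofReal K1 * Np r f ^ e =
        ((ENNReal.ofReal ((K1 ^ (1 / e)) ^ (1 / r)) * Nn r f) ^ r) ^ e := by
      rw [ENNReal.mul_rpow_of_nonneg _ _ hr0.le, Nn_pow hr0, ENNReal.mul_rpow_of_nonneg _ _ he0.le,
        ENNReal.ofReal_rpow_of_nonneg (by positivity) hr0.le,
        ENNReal.ofReal_rpow_of_nonneg (by positivity) he0.le]
      congr 2
      rw [← Real.rpow_mul (by positivity) (1 / r) r, one_div_mul_cancel hr0.ne', Real.rpow_one,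
        ← Real.rpow_mul hK10, one_div_mul_cancel he0.ne', Real.rpow_one]
    rw [e2, e1] at h1
    refine le_trans (le_of_eq ?_) h1
    apply Finset.sum_congr rfl
    intro i _
    rw [← Nn_pow hr0, e1]
  · -- equal
    refine ⟨C, hC0, ?_⟩
    intro ι S k a hk hC f hf hs
    rw [h, theta_self hp, div_one]
    exact hC f hf
  · -- above
    have hr1 : 0 < r - p := by linarith
    set c : ℝ := 1 / (4 ^ (r + 1) * (2 * (8 + 2 * C ^ p))) with hc
    have h4r : (0:ℝ) < 4 ^ (r + 1) := Real.rpow_pos_of_pos (by norm_num) _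
    have hCp : 0 ≤ C ^ p := by positivity
    have hc0 : 0 < c := by rw [hc]; positivity
    set K1 := r * (2 * 4 ^ r) * ((C ^ p) ^ (r / p) + 2 ^ p * (C ^ p * (c ^ (p - r) / (r - p)))) with hK1
    have hK10 : 0 ≤ K1 := by positivity
    refine ⟨K1 ^ (1 / r), by positivity, ?_⟩
    intro ι S k a hk hC f hf hs
    have h1 := fam_above hp h hm1 (C ^ p) (by positivity) hc S a hk (hconv S k a hC) hf
    rw [← hK1] at h1
    have es : q / theta p r = r * m := by
      rw [theta_above hp h, hm]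
      field_simp
    have e1 : ∀ z : ℝ≥0∞, (z ^ r) ^ m = z ^ (q / theta p r) := by
      intro z
      rw [es, ENNReal.rpow_mul]
    have e2 : ENNReal.ofReal K1 * Np r f = (ENNReal.ofReal (K1 ^ (1 / r)) * Nn r f) ^ r := by
      rw [ENNReal.mul_rpow_of_nonneg _ _ hr0.le, Nn_pow hr0,
        ENNReal.ofReal_rpow_of_nonneg (by positivity) hr0.le]
      congr 2
      rw [← Real.rpow_mul hK10, one_div_mul_cancel hr0.ne', Real.rpow_one]
    rw [e2, e1] at h1
    refine le_trans (le_of_eq ?_) h1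
    apply Finset.sum_congr rfl
    intro i _
    rw [← Nn_pow hr0, e1]

end

end Pool.Agent.K7.H81.FD
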