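import Pool.Agent.K7.H81.FJ

set_option autoImplicit false
set_option linter.unusedSectionVars false
set_option linter.unusedVariables false

/-!
# Fourier coefficients, the kernel of Fejér
-/

namespace Pool.Agent.K7.H81.FD

open MeasureTheory Set Filter Topology Pool.Agent.R955.FD
open scoped ENNReal

universe u

/-! ### characters -/

theorem ch_integral (n : ℤ) : ∫ y, ch (n : ℝ) y ∂m1 = if n = 0 then 1 else 0 := by
  split_ifs with h
  · rw [h, Int.cast_zero]
    simp_rw [ch_zero]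
    simp
  · have h1 : ∫ y in (0:ℝ)..1, ((2 * Real.pi * (n : ℝ) : ℝ) : ℂ) * Complex.I * ch (n : ℝ) y = 0 := by
      rw [intervalIntegral.integral_eq_sub_of_hasDerivAt (f := ch (n : ℝ))
        (fun x _ => ch_hasDeriv (n : ℝ) x)]
      · have h2 : ch (n : ℝ) 0 = 1 := by unfold ch; simp
        rw [ch_int_one, h2, sub_self]
      · exact (continuous_const.mul (ch_cont _)).intervalIntegrable _ _
    rw [intervalIntegral.integral_const_mul, intervalIntegral.integral_of_le zero_le_one] at h1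
    rcases mul_eq_zero.1 h1 with h2 | h2
    · exfalso
      rcases mul_eq_zero.1 h2 with h3 | h3
      · rw [Complex.ofReal_eq_zero] at h3
        have := Real.pi_pos
        have h4 : (n : ℝ) ≠ 0 := by exact_mod_cast h
        have h5 : 2 * Real.pi * (n : ℝ) ≠ 0 := by positivity
        exact h5 h3
      · exact Complex.I_ne_zero h3
    · exact h2

section
variable {X : Type u} [NormedAddCommGroup X] [NormedSpace ℂ X] [CompleteSpace X]

/-- the Fourier coefficients -/
noncomputable def co (g : ℝ → X) (n : ℤ) : X := ∫ y, ch (-(n : ℝ)) y • g y ∂m1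

theorem ch_smul_BM (a : ℝ) {g : ℝ → X} (hg : BM g) : BM (fun y => ch a y • g y) := md_BM a hg

theorem co_sub {g h : ℝ → X} (hg : BM g) (hh : BM h) (n : ℤ) :
    co (fun y => g y - h y) n = co g n - co h n := by
  unfold co
  rw [← integral_sub (ch_smul_BM _ hg).integrable (ch_smul_BM _ hh).integrable]
  simp_rw [smul_sub]

theorem co_add {g h : ℝ → X} (hg : BM g) (hh : BM h) (n : ℤ) :
    co (fun y => g y + h y) n = co g n + co h n := by
  unfold co
  rw [← integral_add (ch_smul_BM _ hg).integrable (ch_smul_BM _ hh).integrable]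
  simp_rw [smul_add]

theorem co_sum {ι : Type*} (S : Finset ι) {g : ι → ℝ → X} (hg : ∀ i ∈ S, BM (g i)) (n : ℤ) :
    co (fun y => ∑ i ∈ S, g i y) n = ∑ i ∈ S, co (g i) n := by
  unfold co
  rw [← integral_finsetSum _ fun i hi => (ch_smul_BM _ (hg i hi)).integrable]
  simp_rw [Finset.smul_sum]

theorem co_md (a : ℤ) (g : ℝ → X) (n : ℤ) : co (md (a : ℝ) g) n = co g (n - a) := by
  unfold co md
  apply integral_congr_ae
  refine Eventually.of_forall fun y => ?_
  simp only
  rw [smul_smul, ← ch_add]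
  congr 2
  push_cast
  ring

theorem co_ch (m n : ℤ) (x : X) : co (fun y => ch (m : ℝ) y • x) n = if m = n then x else 0 := by
  unfold co
  have h1 : ∀ y, ch (-(n : ℝ)) y • ch (m : ℝ) y • x = ch ((m - n : ℤ) : ℝ) y • x := by
    intro y
    rw [smul_smul, ← ch_add]
    congr 2
    push_cast
    ring
  simp_rw [h1]
  rw [integral_smul_const, ch_integral]
  by_cases h : m = n
  · rw [if_pos h, if_pos (by omega), one_smul]
  · rw [if_neg h, if_neg (by omega), zero_smul]

theorem ch_const_BM (a : ℝ) (x : X) : BM (fun y => ch a y • x) := ch_smul_BM a (BM.const x)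

theorem trig_eq (c : ℤ →₀ X) (t : ℝ) : trig c t = ∑ n ∈ c.support, ch (n : ℝ) t • c n := rfl

theorem trig_BM (c : ℤ →₀ X) : BM (trig c) := by
  have : trig c = fun t => ∑ n ∈ c.support, ch (n : ℝ) t • c n := rfl
  rw [this]
  exact BM.sum _ fun n _ => ch_const_BM _ _

theorem trig_cont (c : ℤ →₀ X) : Continuous (trig c) := by
  have : trig c = fun t => ∑ n ∈ c.support, ch (n : ℝ) t • c n := rfl
  rw [this]
  exact continuous_finsetSum _ fun n _ => (ch_cont _).smul continuous_const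

theorem co_trig (c : ℤ →₀ X) (n : ℤ) : co (trig c) n = c n := by
  have : trig c = fun t => ∑ m ∈ c.support, ch (m : ℝ) t • c m := rfl
  rw [this, co_sum _ fun n _ => ch_const_BM _ _]
  simp_rw [co_ch]
  rw [Finset.sum_ite_eq']
  split_ifs with h
  · rfl
  · rw [Finsupp.notMem_support_iff] at h
    exact h.symm

/-- the part of the Fourier series with frequencies `a, …, a + l - 1` -/
noncomputable def DI (a : ℤ) (l : ℕ) (g : ℝ → X) (x : ℝ) : X :=
  ∑ j ∈ Finset.range l, ch ((a + j : ℤ) : ℝ) x • co g (a + j)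

theorem DI_BM (a : ℤ) (l : ℕ) (g : ℝ → X) : BM (DI a l g) := by
  unfold DI
  exact BM.sum _ fun n _ => ch_const_BM _ _

theorem DI_cont (a : ℤ) (l : ℕ) (g : ℝ → X) : Continuous (DI a l g) := by
  unfold DI
  exact continuous_finsetSum _ fun n _ => (ch_cont _).smul continuous_const

theorem sum_Ico_range (a : ℤ) (l : ℕ) (φ : ℤ → X) :
    ∑ n ∈ Finset.Ico a (a + l), φ n = ∑ j ∈ Finset.range l, φ (a + j) := by
  symm
  apply Finset.sum_nbij (fun j : ℕ => a + (j : ℤ))
  · intro j hj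
    rw [Finset.mem_range] at hj
    rw [Finset.mem_Ico]
    constructor <;> omega
  · intro i _ j _ h
    simp only at h
    omega
  · intro n hn
    rw [Finset.coe_Ico, mem_Ico] at hn
    refine ⟨(n - a).toNat, ?_, ?_⟩
    · rw [Finset.coe_range, mem_Iio]
      omega
    · simp only
      omega
  · intro j _
    rfl

theorem DT_eq (I : Set ℤ) (A : Finset ℤ) (hA : ∀ n, n ∈ A ↔ n ∈ I) (c : ℤ →₀ X) (x : ℝ) :
    DT I c x = ∑ n ∈ A, ch (n : ℝ) x • c n := by
  classical
  unfold DT trig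
  rw [Finsupp.sum_of_support_subset (s := A)]
  · apply Finset.sum_congr rfl
    intro n hn
    rw [Finsupp.filter_apply_pos _ _ ((hA n).1 hn)]
  · intro n hn
    rw [Finsupp.support_filter, Finset.mem_filter] at hn
    exact (hA n).2 hn.2
  · intro n _
    rw [smul_zero]

theorem DT_Ico (a : ℤ) (l : ℕ) (c : ℤ →₀ X) (x : ℝ) :
    DT (Set.Ico a (a + l)) c x = ∑ j ∈ Finset.range l, ch ((a + j : ℤ) : ℝ) x • c (a + j) := by
  rw [DT_eq _ (Finset.Ico a (a + l)) (fun n => by rw [Finset.mem_Ico, Set.mem_Ico]) c x]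
  exact sum_Ico_range a l fun n => ch (n : ℝ) x • c n

theorem DI_trig (a : ℤ) (l : ℕ) (c : ℤ →₀ X) : DI a l (trig c) = DT (Set.Ico a (a + l)) c := by
  funext x
  rw [DT_Ico]
  unfold DI
  simp_rw [co_trig]

/-! ### kernels with finitely many frequencies -/

theorem TK_ch (w : ℂ) (n : ℤ) (g : ℝ → X) (x : ℝ) :
    ∫ y, (w * ch (n : ℝ) (x - y)) • g y ∂m1 = (w * ch (n : ℝ) x) • co g n := by
  unfold co
  rw [← integral_smul]
  apply integral_congr_ae
  refine Eventually.of_forall fun y => ?_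
  simp only
  rw [smul_smul]
  congr 1
  rw [sub_eq_add_neg, ch_add_right, ch_neg_right]
  ring

theorem int_ch (w : ℂ) (n : ℤ) {g : ℝ → X} (hg : BM g) (x : ℝ) :
    Integrable (fun y => (w * ch (n : ℝ) (x - y)) • g y) m1 := by
  have h1 : BM (fun y => (w * ch (n : ℝ) (x - y)) • g y) := by
    apply hg.smul (N := ‖w‖)
    · exact continuous_const.mul ((ch_cont _).comp (continuous_const.sub continuous_id))
    · intro y
      rw [norm_mul, ch_norm, mul_one]
  exact h1.integrable

theorem TK_Kl (l : ℕ) {g : ℝ → X} (hg : BM g) (x : ℝ) :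
    TK (Kl l) g x = ∑ j ∈ Finset.range l, (((1 - j / l : ℝ) : ℂ) * ch ((j : ℤ) : ℝ) x) • co g j := by
  unfold TK Kl
  simp_rw [Finset.sum_smul]
  have e : ∀ j : ℕ, ((j : ℤ) : ℝ) = (j : ℝ) := fun j => by push_cast; rfl
  rw [integral_finsetSum]
  · apply Finset.sum_congr rfl
    intro j _
    have h1 := TK_ch ((1 - j / l : ℝ) : ℂ) (j : ℤ) g x
    rw [← h1]
    simp_rw [e]
  · intro j _
    have h1 := int_ch ((1 - j / l : ℝ) : ℂ) (j : ℤ) hg x
    simp_rw [e] at h1
    exact h1

theorem TK_Km (l : ℕ) {g : ℝ → X} (hg : BM g) (x : ℝ) :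
    TK (Km l) g x = ∑ j ∈ Finset.range l, (((1 - j / l : ℝ) : ℂ) * ch ((-(j : ℤ) : ℤ) : ℝ) x) •
      co g (-(j : ℤ)) - co g 0 := by
  have h0 : ∀ y, Km l (x - y) • g y = (∑ j ∈ Finset.range l,
      (((1 - j / l : ℝ) : ℂ) * ch ((-(j : ℤ) : ℤ) : ℝ) (x - y)) • g y) -
      (1 * ch ((0 : ℤ) : ℝ) (x - y)) • g y := by
    intro y
    unfold Km Kl
    rw [sub_smul, Finset.sum_smul]
    congr 1
    · apply Finset.sum_congr rfl
      intro j _
      rw [ch_neg_right]
      congr 3
      push_cast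
      rfl
    · rw [Int.cast_zero, ch_zero, one_mul]
  unfold TK
  simp_rw [h0]
  rw [integral_sub (integrable_finsetSum _ fun j _ => int_ch _ _ hg x) (int_ch _ _ hg x),
    integral_finsetSum _ fun j _ => int_ch _ _ hg x]
  simp_rw [TK_ch]
  congr 1
  rw [Int.cast_zero, ch_zero, one_mul, one_smul]

/-! ### the kernel of Fejér -/

/-- the kernel of Fejér -/
noncomputable def Fj (N : ℕ) (t : ℝ) : ℂ := Kl N t + Km N t

theorem Fj_prod (N : ℕ) (t : ℝ) : ∑ j ∈ Finset.range N, ((N - j : ℝ) : ℂ) * ch (j : ℝ) t +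
    ∑ j ∈ Finset.range N, ((N - j : ℝ) : ℂ) * ch (-(j : ℝ)) t - N =
      (∑ j ∈ Finset.range N, ch (j : ℝ) t) * ∑ j ∈ Finset.range N, ch (-(j : ℝ)) t := by
  induction N with
  | zero => simp
  | succ N ih =>
    have h1 : ∀ s : ℝ → ℝ, ∑ j ∈ Finset.range (N + 1), (((N + 1 : ℕ) - j : ℝ) : ℂ) * ch (s j) t =
        ∑ j ∈ Finset.range N, ((N - j : ℝ) : ℂ) * ch (s j) t + ∑ j ∈ Finset.range (N + 1), ch (s j) t := by
      intro s
      rw [Finset.sum_range_succ, Finset.sum_range_succ, ← add_assoc, ← Finset.sum_add_distrib]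
      congr 1
      · apply Finset.sum_congr rfl
        intro j _
        push_cast
        ring
      · push_cast
        ring
    have h2 := h1 (fun s => s)
    have h3 := h1 (fun s => -s)
    rw [h2, h3]
    rw [Finset.sum_range_succ (fun j : ℕ => ch (j : ℝ) t), Finset.sum_range_succ
      (fun j : ℕ => ch (-(j : ℝ)) t)]
    set S := ∑ j ∈ Finset.range N, ch (j : ℝ) t with hS
    set S' := ∑ j ∈ Finset.range N, ch (-(j : ℝ)) t with hS'
    have h4 : S * ch (-(N : ℝ)) t = S' + ch (-(N : ℝ)) t - 1 := by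
      have h5 : S' + ch (-(N : ℝ)) t = ∑ j ∈ Finset.range (N + 1), ch (-(j : ℝ)) t := by
        rw [Finset.sum_range_succ]
      rw [h5, Finset.sum_range_succ', hS, Finset.sum_mul, Nat.cast_zero, neg_zero, ch_zero,
        add_sub_cancel_right, ← Finset.sum_range_reflect]
      apply Finset.sum_congr rfl
      intro j hj
      rw [Finset.mem_range] at hj
      rw [← ch_add]
      congr 1
      have : ((N - 1 - j : ℕ) : ℝ) = N - 1 - j := by
        rw [Nat.cast_sub (by omega), Nat.cast_sub (by omega)]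
        push_cast
        ring
      rw [this]
      push_cast
      ring
    have h6 : ch (N : ℝ) t * S' = S + ch (N : ℝ) t - 1 := by
      have h5 : S + ch (N : ℝ) t = ∑ j ∈ Finset.range (N + 1), ch (j : ℝ) t := by
        rw [Finset.sum_range_succ]
      rw [h5, Finset.sum_range_succ', hS', Finset.mul_sum, Nat.cast_zero, ch_zero,
        add_sub_cancel_right, ← Finset.sum_range_reflect]
      apply Finset.sum_congr rfl
      intro j hj
      rw [Finset.mem_range] at hj
      rw [← ch_add]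
      congr 1
      have : ((N - 1 - j : ℕ) : ℝ) = N - 1 - j := by
        rw [Nat.cast_sub (by omega), Nat.cast_sub (by omega)]
        push_cast
        ring
      rw [this]
      push_cast
      ring
    have h7 : ch (N : ℝ) t * ch (-(N : ℝ)) t = 1 := ch_mul_neg _ _
    push_cast at ih ⊢
    linear_combination ih - h4 - h6 - h7

theorem Fj_eq {N : ℕ} (hN : 0 < N) (t : ℝ) :
    Fj N t = ((‖∑ j ∈ Finset.range N, ch (j : ℝ) t‖ ^ 2 / N : ℝ) : ℂ) := by
  have hN' : (N : ℂ) ≠ 0 := by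
    exact_mod_cast hN.ne'
  have h1 := Fj_prod N t
  have h2 : ∑ j ∈ Finset.range N, ch (-(j : ℝ)) t =
      (starRingEnd ℂ) (∑ j ∈ Finset.range N, ch (j : ℝ) t) := by
    rw [map_sum]
    apply Finset.sum_congr rfl
    intro j _
    unfold ch
    rw [← Complex.exp_conj, map_mul, Complex.conj_I, Complex.conj_ofReal]
    congr 1
    push_cast
    ring
  rw [h2, Complex.mul_conj, Complex.normSq_eq_norm_sq] at h1
  unfold Fj Km Kl
  have h3 : ((‖∑ j ∈ Finset.range N, ch (j : ℝ) t‖ ^ 2 / N : ℝ) : ℂ) =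
      ((‖∑ j ∈ Finset.range N, ch (j : ℝ) t‖ ^ 2 : ℝ) : ℂ) / N := by push_cast; rfl
  rw [h3, ← h1, eq_div_iff hN']
  have h4 : ∀ s : ℕ → ℂ, (∑ j ∈ Finset.range N, ((1 - j / N : ℝ) : ℂ) * s j) * N =
      ∑ j ∈ Finset.range N, ((N - j : ℝ) : ℂ) * s j := by
    intro s
    rw [Finset.sum_mul]
    apply Finset.sum_congr rfl
    intro j _
    push_cast
    field_simp
  have h5 := h4 (fun j => ch (j : ℝ) t)
  have h6 := h4 (fun j => ch (j : ℝ) (-t))
  have h7 : ∀ j : ℕ, ch (j : ℝ) (-t) = ch (-(j : ℝ)) t := fun j => ch_neg_right _ _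
  simp_rw [h7] at h6 ⊢
  linear_combination h5 + h6

theorem Fj_per (N : ℕ) (t : ℝ) : Fj N (t + 1) = Fj N t := by
  unfold Fj
  rw [(Kl_hor N).per, (Km_hor N).per]

theorem Fj_cont (N : ℕ) : Continuous (Fj N) := (Kl_hor N).cont.add (Km_hor N).cont

theorem Fj_int {N : ℕ} (hN : 0 < N) : ∫ y, Fj N y ∂m1 = 1 := by
  have hN' : (N : ℝ) ≠ 0 := by
    exact_mod_cast hN.ne'
  have h1 : TK (Kl N) (fun _ => (1:ℂ)) 0 = 1 := by
    rw [TK_Kl N (BM.const 1)]
    have h2 : ∀ j : ℕ, co (fun _ : ℝ => (1:ℂ)) (j : ℤ) = if (0 : ℤ) = j then 1 else 0 := by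
      intro j
      rw [← co_ch 0 j (1:ℂ)]
      congr 1
      funext y
      rw [Int.cast_zero, ch_zero, one_smul]
    simp_rw [h2]
    rw [Finset.sum_eq_single 0]
    · simp [ch_zero]
    · intro j _ hj
      rw [if_neg (by omega), smul_zero]
    · intro h
      exact absurd (Finset.mem_range.2 hN) h
  have h3 : TK (Km N) (fun _ => (1:ℂ)) 0 = 0 := by
    rw [TK_Km N (BM.const 1)]
    have h2 : ∀ j : ℕ, co (fun _ : ℝ => (1:ℂ)) (-(j : ℤ)) = if (0 : ℤ) = -(j : ℤ) then 1 else 0 := by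
      intro j
      rw [← co_ch 0 (-(j : ℤ)) (1:ℂ)]
      congr 1
      funext y
      rw [Int.cast_zero, ch_zero, one_smul]
    have h2' : co (fun _ : ℝ => (1:ℂ)) 0 = 1 := by
      have := h2 0
      simpa using this
    simp_rw [h2, h2']
    rw [Finset.sum_eq_single 0]
    · simp [ch_zero]
    · intro j _ hj
      rw [if_neg (by omega), smul_zero]
    · intro h
      exact absurd (Finset.mem_range.2 hN) h
  -- from `y` to `-y`
  have h4 : ∫ y, Fj N (0 - y) ∂m1 = 1 := by
    have h5 : ∫ y, (Kl N (0 - y) + Km N (0 - y)) ∂m1 = TK (Kl N) (fun _ => (1:ℂ)) 0 +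
        TK (Km N) (fun _ => (1:ℂ)) 0 := by
      unfold TK
      rw [integral_add]
      · simp_rw [smul_eq_mul, mul_one]
      · have := (TK_int (Kl_hor N) (BM.const (1:ℂ)) 0).integrable
        simpa using this
      · have := (TK_int (Km_hor N) (BM.const (1:ℂ)) 0).integrable
        simpa using this
    unfold Fj
    rw [h5, h1, h3, add_zero]
  rw [← h4]
  have h8 : ∀ y, Fj N (0 - y) = Fj N y := by
    intro y
    rw [Fj_eq hN, Fj_eq hN]
    congr 3
    have h9 : ∑ j ∈ Finset.range N, ch (j : ℝ) (0 - y) =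
        (starRingEnd ℂ) (∑ j ∈ Finset.range N, ch (j : ℝ) y) := by
      rw [map_sum]
      apply Finset.sum_congr rfl
      intro j _
      rw [zero_sub, ch_neg_right]
      unfold ch
      rw [← Complex.exp_conj, map_mul, Complex.conj_I, Complex.conj_ofReal]
      congr 1
      push_cast
      ring
    rw [h9, RCLike.norm_conj]
  simp_rw [h8]

theorem Fj_lint {N : ℕ} (hN : 0 < N) : ∫⁻ y, ‖Fj N y‖ₑ ∂m1 = 1 := by
  set φ : ℝ → ℝ := fun y => ‖∑ j ∈ Finset.range N, ch (j : ℝ) y‖ ^ 2 / N with hφ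
  have hφ0 : ∀ y, 0 ≤ φ y := fun y => by rw [hφ]; positivity
  have hφc : Continuous φ := by
    rw [hφ]
    exact ((continuous_finsetSum _ fun n _ => ch_cont _).norm.pow 2).div_const _
  have h1 : ∀ y, ‖Fj N y‖ₑ = ENNReal.ofReal (φ y) := by
    intro y
    rw [Fj_eq hN, ← ofReal_norm, Complex.norm_real, Real.norm_of_nonneg (hφ0 y)]
  have h2 : ∫ y, Fj N y ∂m1 = ((∫ y, φ y ∂m1 : ℝ) : ℂ) := by
    rw [← integral_complex_ofReal]
    apply integral_congr_ae
    exact Eventually.of_forall fun y => Fj_eq hN y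
  have h3 : ∫ y, φ y ∂m1 = 1 := by
    have := Fj_int hN
    rw [h2] at this
    exact_mod_cast this
  have hi : Integrable φ m1 := by
    have : IntegrableOn φ (Ioc 0 1) volume :=
      (hφc.continuousOn.integrableOn_compact isCompact_Icc).mono_set Ioc_subset_Icc_self
    exact this
  simp_rw [h1]
  rw [← ofReal_integral_eq_lintegral_ofReal hi (Eventually.of_forall hφ0), h3, ENNReal.ofReal_one]

end

end Pool.Agent.K7.H81.FD
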