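import Pool.Agent.K7.H81.FK

set_option autoImplicit false
set_option linter.unusedSectionVars false
set_option linter.unusedVariables false

/-!
# Lower decompositions for bounded functions
-/

namespace Pool.Agent.K7.H81.FD

open MeasureTheory Set Filter Topology Pool.Agent.R955.FD
open scoped ENNReal

universe u

theorem lint_per {k : ℝ → ℂ} (hper : ∀ t, k (t + 1) = k t) (c : ℝ) :
    ∫⁻ x, ‖k (x - c)‖ₑ ∂m1 = ∫⁻ x, ‖k x‖ₑ ∂m1 := by
  have hp : Function.Periodic k 1 := hper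
  have h1 := lint_shift (fun u : UnitAddCircle => ‖hp.lift u‖ₑ) c
  have h2 := lint_shift (fun u : UnitAddCircle => ‖hp.lift u‖ₑ) 0
  rw [← h2] at h1
  simp only [Function.Periodic.lift_coe, sub_zero] at h1
  exact h1

/-- limits in sums -/
theorem lim_sum {ι : Type*} {S : Finset ι} {x : ι → ℝ≥0∞} {y ε : ℕ → ι → ℝ≥0∞} {b : ℕ → ℝ≥0∞}
    {β : ℝ≥0∞} (hε : ∀ i ∈ S, Tendsto (fun N => ε N i) atTop (𝓝 0))
    (h : ∀ N, ∀ i ∈ S, x i ≤ y N i + ε N i) {q : ℝ} (hq : 0 < q)
    (hB : ∀ N, ∑ i ∈ S, y N i ^ q ≤ b N ^ q) (hb : Tendsto b atTop (𝓝 β)) :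
    ∑ i ∈ S, x i ^ q ≤ β ^ q := by
  have h1 : Tendsto (fun N => ∑ i ∈ S, (x i - ε N i) ^ q) atTop (𝓝 (∑ i ∈ S, x i ^ q)) := by
    apply tendsto_finsetSum
    intro i hi
    have h2 : Tendsto (fun N => x i - ε N i) atTop (𝓝 (x i - 0)) :=
      ENNReal.Tendsto.sub tendsto_const_nhds (hε i hi) (Or.inr ENNReal.zero_ne_top)
    rw [tsub_zero] at h2
    exact (ENNReal.continuous_rpow_const.tendsto _).comp h2
  have h3 : Tendsto (fun N => b N ^ q) atTop (𝓝 (β ^ q)) :=
    (ENNReal.continuous_rpow_const.tendsto _).comp hb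
  refine le_of_tendsto_of_tendsto' h1 h3 fun N => ?_
  refine le_trans ?_ (hB N)
  apply Finset.sum_le_sum
  intro i hi
  apply ENNReal.rpow_le_rpow _ hq.le
  rw [tsub_le_iff_right]
  exact h N i hi

section
variable {X : Type u} [NormedAddCommGroup X] [NormedSpace ℂ X]

theorem trig_add (c d : ℤ →₀ X) (t : ℝ) : trig (c + d) t = trig c t + trig d t := by
  unfold trig
  exact Finsupp.sum_add_index' (fun n => smul_zero _) (fun n x y => smul_add _ _ _)

theorem trig_zero (t : ℝ) : trig (0 : ℤ →₀ X) t = 0 := by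
  unfold trig
  exact Finsupp.sum_zero_index

theorem trig_single (n : ℤ) (x : X) (t : ℝ) : trig (Finsupp.single n x) t = ch (n : ℝ) t • x := by
  unfold trig
  exact Finsupp.sum_single_index (smul_zero _)

theorem trig_sum {ι : Type*} (S : Finset ι) (c : ι → ℤ →₀ X) (t : ℝ) :
    trig (∑ i ∈ S, c i) t = ∑ i ∈ S, trig (c i) t := by
  classical
  induction S using Finset.induction_on with
  | empty => simp [trig_zero]
  | insert i S hi ih => rw [Finset.sum_insert hi, Finset.sum_insert hi, trig_add, ih]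

/-- the estimate for finitely many disjoint finite intervals -/
theorem low_fin {p q : ℝ} (hq : 0 < q) {L : ℝ}
    (hL : ∀ J : ℕ → Set ℤ, IsIntPart J → ∀ c : ℤ →₀ X,
      lq (ENNReal.ofReal q) (fun i => nT (ENNReal.ofReal p) (DT (J i) c)) ≤
        ENNReal.ofReal L * nT (ENNReal.ofReal p) (trig c)) (S : Finset ℕ) (a : ℕ → ℤ) (l : ℕ → ℕ)
    (hd : ∀ i ∈ S, ∀ j ∈ S, i ≠ j → Disjoint (Set.Ico (a i) (a i + l i)) (Set.Ico (a j) (a j + l j)))
    (c : ℤ →₀ X) :
    ∑ i ∈ S, nT (ENNReal.ofReal p) (DT (Set.Ico (a i) (a i + l i)) c) ^ q ≤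
      (ENNReal.ofReal L * nT (ENNReal.ofReal p) (trig c)) ^ q := by
  classical
  set e := Equiv.intEquivNat.symm with he
  set U : Set ℤ := ⋃ i ∈ S, Set.Ico (a i) (a i + l i) with hU
  set J : ℕ → Set ℤ := fun n => if n % 2 = 0 then
    (if n / 2 ∈ S then Set.Ico (a (n / 2)) (a (n / 2) + l (n / 2)) else ∅) else {e (n / 2)} \ U with hJ
  have hJsub : ∀ n, n % 2 = 0 → J n ⊆ U := by
    intro n hn x hx
    rw [hJ] at hx
    simp only at hx
    rw [if_pos hn] at hx
    split_ifs at hx with h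
    · exact mem_iUnion₂.2 ⟨n / 2, h, hx⟩
    · exact absurd hx (Set.notMem_empty x)
  have hJodd : ∀ n, n % 2 ≠ 0 → J n = {e (n / 2)} \ U := by
    intro n hn
    rw [hJ]
    simp only
    rw [if_neg hn]
  have hJev : ∀ i ∈ S, J (2 * i) = Set.Ico (a i) (a i + l i) := by
    intro i hi
    rw [hJ]
    simp only
    have h1 : 2 * i % 2 = 0 := by omega
    have h2 : 2 * i / 2 = i := by omega
    rw [if_pos h1, h2, if_pos hi]
  have hpart : IsIntPart J := by
    refine ⟨?_, ?_, ?_⟩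
    · intro n
      by_cases hn : n % 2 = 0
      · rw [hJ]
        simp only
        rw [if_pos hn]
        split_ifs
        · exact Set.ordConnected_Ico
        · exact Set.ordConnected_empty
      · rw [hJodd n hn]
        refine ⟨fun x hx y hy z hz => ?_⟩
        have hx1 : x = e (n / 2) := hx.1
        have hy1 : y = e (n / 2) := hy.1
        have hz1 : z = x := le_antisymm (hz.2.trans (by rw [hy1, hx1])) hz.1
        rw [hz1]
        exact hx
    · intro m n hmn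
      by_cases hm : m % 2 = 0
      · by_cases hn : n % 2 = 0
        · rw [hJ]
          simp only
          rw [if_pos hm, if_pos hn]
          split_ifs with h1 h2
          · exact hd _ h1 _ h2 (by omega)
          · exact disjoint_bot_right
          · exact disjoint_bot_left
          · exact disjoint_bot_left
        · rw [hJodd n hn]
          exact Set.disjoint_left.2 fun x hx hx2 => hx2.2 (hJsub m hm hx)
      · by_cases hn : n % 2 = 0
        · rw [hJodd m hm]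
          exact Set.disjoint_left.2 fun x hx hx2 => hx.2 (hJsub n hn hx2)
        · rw [hJodd m hm, hJodd n hn]
          apply Set.disjoint_left.2
          intro x hx hx2
          have h1 : e (m / 2) = e (n / 2) := by rw [← hx.1, ← hx2.1]
          have h2 := e.injective h1
          omega
    · intro x
      by_cases hx : x ∈ U
      · obtain ⟨i, hi, hxi⟩ := mem_iUnion₂.1 hx
        exact ⟨2 * i, by rw [hJev i hi]; exact hxi⟩
      · refine ⟨2 * (e.symm x) + 1, ?_⟩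
        rw [hJodd _ (by omega)]
        have h1 : (2 * (e.symm x) + 1) / 2 = e.symm x := by omega
        rw [h1, Equiv.apply_symm_apply]
        exact ⟨rfl, hx⟩
  have h1 := hL J hpart c
  unfold lq at h1
  rw [if_neg ENNReal.ofReal_ne_top, ENNReal.toReal_ofReal hq.le] at h1
  have h2 : ∑' i, nT (ENNReal.ofReal p) (DT (J i) c) ^ q ≤
      (ENNReal.ofReal L * nT (ENNReal.ofReal p) (trig c)) ^ q := by
    have h3 := ENNReal.rpow_le_rpow h1 hq.le
    rw [← ENNReal.rpow_mul, one_div_mul_cancel hq.ne', ENNReal.rpow_one] at h3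
    exact h3
  refine le_trans ?_ h2
  have h4 : ∑ i ∈ S, nT (ENNReal.ofReal p) (DT (Set.Ico (a i) (a i + l i)) c) ^ q =
      ∑ n ∈ S.map ⟨fun i => 2 * i, fun i j h => by simp only at h; omega⟩,
        nT (ENNReal.ofReal p) (DT (J n) c) ^ q := by
    rw [Finset.sum_map]
    apply Finset.sum_congr rfl
    intro i hi
    simp only [Function.Embedding.coeFn_mk]
    rw [hJev i hi]
  rw [h4]
  exact ENNReal.sum_le_tsum _

variable [CompleteSpace X]

/-- convolution with a kernel of norm one in `L^1` is a contraction -/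
theorem young {k : ℝ → ℂ} (hkc : Continuous k) (hper : ∀ t, k (t + 1) = k t)
    (h1 : ∫⁻ y, ‖k y‖ₑ ∂m1 ≤ 1)
    (h1' : ∫⁻ y, ‖k (-y)‖ₑ ∂m1 ≤ 1) {p : ℝ} (hp : 1 < p) {g : ℝ → X} (hg : BM g) :
    Np p (TK k g) ≤ Np p g := by
  have hp0 : 0 < p := by linarith
  set p' := p / (p - 1) with hp'
  have hp1 : 0 < p - 1 := by linarith
  have hconj : p'.HolderConjugate p := by
    rw [Real.holderConjugate_iff]
    constructor
    · rw [hp', lt_div_iff₀ hp1]
      linarith
    · rw [hp']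
      field_simp
      ring
  have hp'0 : 0 < p' := by rw [hp']; positivity
  have hper' : ∀ t, (fun y => k (-y)) (t + 1) = (fun y => k (-y)) t := by
    intro t
    simp only
    rw [← hper (-(t + 1))]
    congr 1
    ring
  have hx1 : ∀ x, ∫⁻ y, ‖k (x - y)‖ₑ ∂m1 ≤ 1 := by
    intro x
    have := lint_per (k := fun y => k (-y)) hper' x
    simp only [neg_sub] at this
    rw [this]
    exact h1'
  have hpt : ∀ x, ‖TK k g x‖ₑ ^ p ≤ ∫⁻ y, ‖k (x - y)‖ₑ * ‖g y‖ₑ ^ p ∂m1 := by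
    intro x
    have hkm : Measurable fun y => ‖k (x - y)‖ₑ :=
      (hkc.comp (continuous_const.sub continuous_id)).enorm.measurable
    have hgm : Measurable fun y => ‖g y‖ₑ := hg.1.enorm
    have h2 : ‖TK k g x‖ₑ ≤ ∫⁻ y, ‖k (x - y)‖ₑ * ‖g y‖ₑ ∂m1 := by
      unfold TK
      refine (enorm_integral_le_lintegral_enorm _).trans (le_of_eq ?_)
      apply lintegral_congr
      intro y
      rw [enorm_smul]
    have h3 := ENNReal.lintegral_mul_le_Lp_mul_Lq m1 hconj
      (f := fun y => ‖k (x - y)‖ₑ ^ (1 / p')) (g := fun y => ‖k (x - y)‖ₑ ^ (1 / p) * ‖g y‖ₑ)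
      (hkm.pow_const _).aemeasurable ((hkm.pow_const _).mul hgm).aemeasurable
    have e1 : ∀ y, ((fun y => ‖k (x - y)‖ₑ ^ (1 / p')) * fun y => ‖k (x - y)‖ₑ ^ (1 / p) * ‖g y‖ₑ) y =
        ‖k (x - y)‖ₑ * ‖g y‖ₑ := by
      intro y
      simp only [Pi.mul_apply]
      rw [← mul_assoc, ← ENNReal.rpow_add_of_nonneg _ _ (by positivity) (by positivity)]
      have h4 : 1 / p' + 1 / p = 1 := by
        have := hconj.inv_add_inv_eq_one
        simpa using this
      rw [h4, ENNReal.rpow_one]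
    have e2 : ∀ y, (‖k (x - y)‖ₑ ^ (1 / p')) ^ p' = ‖k (x - y)‖ₑ := by
      intro y
      rw [← ENNReal.rpow_mul, one_div_mul_cancel hp'0.ne', ENNReal.rpow_one]
    have e3 : ∀ y, (‖k (x - y)‖ₑ ^ (1 / p) * ‖g y‖ₑ) ^ p = ‖k (x - y)‖ₑ * ‖g y‖ₑ ^ p := by
      intro y
      rw [ENNReal.mul_rpow_of_nonneg _ _ hp0.le, ← ENNReal.rpow_mul, one_div_mul_cancel hp0.ne',
        ENNReal.rpow_one]
    simp_rw [e1, e2, e3] at h3
    calc ‖TK k g x‖ₑ ^ p ≤ ((∫⁻ y, ‖k (x - y)‖ₑ ∂m1) ^ (1 / p') *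
          (∫⁻ y, ‖k (x - y)‖ₑ * ‖g y‖ₑ ^ p ∂m1) ^ (1 / p)) ^ p :=
          ENNReal.rpow_le_rpow (h2.trans h3) hp0.le
      _ ≤ (1 * (∫⁻ y, ‖k (x - y)‖ₑ * ‖g y‖ₑ ^ p ∂m1) ^ (1 / p)) ^ p := by
          gcongr
          calc (∫⁻ y, ‖k (x - y)‖ₑ ∂m1) ^ (1 / p') ≤ 1 ^ (1 / p') :=
                ENNReal.rpow_le_rpow (hx1 x) (by positivity)
            _ = 1 := ENNReal.one_rpow _
      _ = _ := by
          rw [one_mul, ← ENNReal.rpow_mul, one_div_mul_cancel hp0.ne', ENNReal.rpow_one]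
  unfold Np
  calc ∫⁻ x, ‖TK k g x‖ₑ ^ p ∂m1 ≤ ∫⁻ x, ∫⁻ y, ‖k (x - y)‖ₑ * ‖g y‖ₑ ^ p ∂m1 ∂m1 :=
        lintegral_mono hpt
    _ = ∫⁻ y, ∫⁻ x, ‖k (x - y)‖ₑ * ‖g y‖ₑ ^ p ∂m1 ∂m1 := by
        apply lintegral_lintegral_swap
        apply Measurable.aemeasurable
        apply Measurable.mul
        · exact (hkc.comp (continuous_fst.sub continuous_snd)).enorm.measurable
        · exact (hg.1.enorm.comp measurable_snd).pow_const p
    _ ≤ ∫⁻ y, ‖g y‖ₑ ^ p ∂m1 := by
        apply lintegral_mono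
        intro y
        simp only
        rw [lintegral_mul_const]
        · rw [lint_per hper]
          calc _ ≤ 1 * ‖g y‖ₑ ^ p := by gcongr
            _ = _ := one_mul _
        · exact (hkc.comp (continuous_id.sub continuous_const)).enorm.measurable

theorem Fj_neg {N : ℕ} (hN : 0 < N) (y : ℝ) : Fj N (-y) = Fj N y := by
  rw [Fj_eq hN, Fj_eq hN]
  congr 3
  have h9 : ∑ j ∈ Finset.range N, ch (j : ℝ) (-y) =
      (starRingEnd ℂ) (∑ j ∈ Finset.range N, ch (j : ℝ) y) := by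
    rw [map_sum]
    apply Finset.sum_congr rfl
    intro j _
    rw [ch_neg_right]
    unfold ch
    rw [← Complex.exp_conj, map_mul, Complex.conj_I, Complex.conj_ofReal]
    congr 1
    push_cast
    ring
  rw [h9, RCLike.norm_conj]

theorem TK_Fj (N : ℕ) {g : ℝ → X} (hg : BM g) (x : ℝ) :
    TK (Fj N) g x = TK (Kl N) g x + TK (Km N) g x := by
  unfold TK Fj
  rw [← integral_add (TK_int (Kl_hor N) hg x).integrable (TK_int (Km_hor N) hg x).integrable]
  simp_rw [add_smul]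

theorem Fj_young {N : ℕ} (hN : 0 < N) {p : ℝ} (hp : 1 < p) {g : ℝ → X} (hg : BM g) :
    Np p (TK (Fj N) g) ≤ Np p g := by
  apply young (Fj_cont N) (Fj_per N) (Fj_lint hN).le _ hp hg
  simp_rw [Fj_neg hN]
  exact (Fj_lint hN).le

/-- the coefficients of the mean of Fejér -/
noncomputable def cf (g : ℝ → X) (N : ℕ) : ℤ →₀ X :=
  ∑ j ∈ Finset.range N, Finsupp.single (j : ℤ) (((1 - j / N : ℝ) : ℂ) • co g j) +
    ∑ j ∈ Finset.range N, Finsupp.single (-(j : ℤ)) (((1 - j / N : ℝ) : ℂ) • co g (-(j : ℤ))) +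
    Finsupp.single 0 (-co g 0)

theorem trig_cf {g : ℝ → X} (hg : BM g) (N : ℕ) (x : ℝ) : trig (cf g N) x = TK (Fj N) g x := by
  unfold cf
  rw [trig_add, trig_add, trig_sum, trig_sum, TK_Fj N hg, TK_Kl N hg, TK_Km N hg]
  simp_rw [trig_single]
  rw [add_assoc, Int.cast_zero, ch_zero, one_smul, ← sub_eq_add_neg]
  congr 1
  · apply Finset.sum_congr rfl
    intro j _
    rw [smul_smul, mul_comm]
  · congr 1
    apply Finset.sum_congr rfl
    intro j _
    rw [smul_smul, mul_comm]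

theorem cf_apply (g : ℝ → X) {N : ℕ} {n : ℤ} (h : n.natAbs < N) :
    cf g N n = ((1 - (n.natAbs : ℝ) / N : ℝ) : ℂ) • co g n := by
  classical
  have hN : 0 < N := by omega
  unfold cf
  rw [Finsupp.add_apply, Finsupp.add_apply, Finsupp.finsetSum_apply, Finsupp.finsetSum_apply]
  simp_rw [Finsupp.single_apply]
  have h1 : ∀ m : ℤ, m.natAbs < N → 0 ≤ m → ∀ φ : ℕ → X,
      ∑ j ∈ Finset.range N, (if (j : ℤ) = m then φ j else 0) = φ m.natAbs := by
    intro m hm hm0 φ
    rw [Finset.sum_eq_single m.natAbs]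
    · rw [if_pos (by omega)]
    · intro j _ hj
      rw [if_neg (by omega)]
    · intro h
      exact absurd (Finset.mem_range.2 hm) h
  have h2 : ∀ m : ℤ, m < 0 → ∀ φ : ℕ → X,
      ∑ j ∈ Finset.range N, (if (j : ℤ) = m then φ j else 0) = 0 := by
    intro m hm0 φ
    apply Finset.sum_eq_zero
    intro j _
    rw [if_neg (by omega)]
  have h3 : ∀ j : ℕ, (-(j : ℤ) = n) ↔ ((j : ℤ) = -n) := by
    intro j
    constructor <;> intro h <;> omega
  simp_rw [h3]
  rcases lt_trichotomy n 0 with hn | hn | hn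
  · rw [h2 n hn, h1 (-n) (by omega) (by omega), if_neg (by omega), zero_add, add_zero]
    have e1 : (-n).natAbs = n.natAbs := by omega
    have e2 : -(n.natAbs : ℤ) = n := by omega
    rw [e1, e2]
  · subst hn
    have hz := h1 0 h le_rfl
    rw [neg_zero, hz, hz]
    simp
  · rw [h1 n h hn.le, h2 (-n) (by omega), if_neg (by omega), add_zero, add_zero]
    have e2 : (n.natAbs : ℤ) = n := by omega
    rw [e2]

theorem cf_tendsto (g : ℝ → X) (n : ℤ) : Tendsto (fun N => cf g N n) atTop (𝓝 (co g n)) := by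
  have h1 : Tendsto (fun N : ℕ => ((1 - (n.natAbs : ℝ) / N : ℝ) : ℂ) • co g n) atTop
      (𝓝 (((1 - 0 : ℝ) : ℂ) • co g n)) := by
    apply Tendsto.smul _ tendsto_const_nhds
    apply (Complex.continuous_ofReal.tendsto _).comp
    exact tendsto_const_nhds.sub (tendsto_const_div_atTop_nhds_zero_nat _)
  rw [sub_zero, Complex.ofReal_one, one_smul] at h1
  apply h1.congr'
  filter_upwards [eventually_gt_atTop n.natAbs] with N hN
  exact (cf_apply g hN).symm

theorem nT_eq {p : ℝ} (hp : 0 < p) (f : ℝ → X) : nT (ENNReal.ofReal p) f = Nn p f :=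
  Np_eq hp f

theorem Nn_mono {p : ℝ} (hp : 0 < p) {f g : ℝ → X} (h : ∀ x, ‖f x‖ₑ ≤ ‖g x‖ₑ) : Nn p f ≤ Nn p g := by
  unfold Nn Np
  apply ENNReal.rpow_le_rpow _ (by positivity)
  apply lintegral_mono
  intro x
  exact ENNReal.rpow_le_rpow (h x) hp.le

theorem Nn_add {p : ℝ} (hp : 1 ≤ p) {f g : ℝ → X} (hf : StronglyMeasurable f)
    (hg : StronglyMeasurable g) : Nn p (fun x => f x + g x) ≤ Nn p f + Nn p g := by
  have hp0 : 0 < p := by linarith
  unfold Nn
  rw [← Np_eq hp0, ← Np_eq hp0, ← Np_eq hp0]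
  apply eLpNorm_add_le hf.aestronglyMeasurable hg.aestronglyMeasurable
  rw [← ENNReal.ofReal_one]
  exact ENNReal.ofReal_le_ofReal hp

theorem Nn_const_le {p : ℝ} (hp : 0 < p) {f : ℝ → X} {δ : ℝ≥0∞}
    (h : ∀ x ∈ Ioc (0:ℝ) 1, ‖f x‖ₑ ≤ δ) : Nn p f ≤ δ := by
  unfold Nn Np
  calc (∫⁻ x, ‖f x‖ₑ ^ p ∂m1) ^ (1 / p) ≤ (∫⁻ x, δ ^ p ∂m1) ^ (1 / p) := by
        apply ENNReal.rpow_le_rpow _ (by positivity)
        apply setLIntegral_mono' measurableSet_Ioc
        intro x hx
        exact ENNReal.rpow_le_rpow (h x hx) hp.le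
    _ = δ := by
        rw [lintegral_const, measure_univ, mul_one, ← ENNReal.rpow_mul, mul_one_div_cancel hp.ne',
          ENNReal.rpow_one]

theorem Nn_close {p : ℝ} (hp : 1 ≤ p) {f g : ℝ → X} (hf : StronglyMeasurable f)
    (hg : StronglyMeasurable g) {δ : ℝ≥0∞} (h : ∀ x ∈ Ioc (0:ℝ) 1, ‖f x - g x‖ₑ ≤ δ) :
    Nn p f ≤ Nn p g + δ := by
  have e : f = fun x => g x + (f x - g x) := by
    funext x
    abel
  calc Nn p f = Nn p (fun x => g x + (f x - g x)) := by rw [← e]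
    _ ≤ Nn p g + Nn p (fun x => f x - g x) := Nn_add hp hg (hf.sub hg)
    _ ≤ _ := by
        gcongr
        exact Nn_const_le (by linarith) h

/-- **the lower estimate for bounded functions** -/
theorem low_BM {p q : ℝ} (hp : 1 < p) (hq : 0 < q) {L : ℝ}
    (hL : ∀ J : ℕ → Set ℤ, IsIntPart J → ∀ c : ℤ →₀ X,
      lq (ENNReal.ofReal q) (fun i => nT (ENNReal.ofReal p) (DT (J i) c)) ≤
        ENNReal.ofReal L * nT (ENNReal.ofReal p) (trig c)) (S : Finset ℕ) (a : ℕ → ℤ) (l : ℕ → ℕ)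
    (hd : ∀ i ∈ S, ∀ j ∈ S, i ≠ j → Disjoint (Set.Ico (a i) (a i + l i)) (Set.Ico (a j) (a j + l j)))
    {g : ℝ → X} (hg : BM g) :
    ∑ i ∈ S, Nn p (DI (a i) (l i) g) ^ q ≤ (ENNReal.ofReal L * Nn p g) ^ q := by
  have hp0 : 0 < p := by linarith
  set ε : ℕ → ℕ → ℝ≥0∞ := fun N i => ∑ j ∈ Finset.range (l i),
    ‖co g (a i + j) - cf g (N + 1) (a i + j)‖ₑ with hε
  apply lim_sum (y := fun N i => nT (ENNReal.ofReal p)
      (DT (Set.Ico (a i) (a i + l i)) (cf g (N + 1)))) (ε := ε) (b := fun _ => ENNReal.ofReal L * Nn p g)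
  · intro i _
    rw [← Finset.sum_const_zero (s := Finset.range (l i))]
    apply tendsto_finsetSum
    intro j _
    have h1 := (cf_tendsto g (a i + j)).comp (tendsto_add_atTop_nat 1)
    have h2 : Tendsto (fun N => co g (a i + j) - cf g (N + 1) (a i + j)) atTop
        (𝓝 (co g (a i + j) - co g (a i + j))) := tendsto_const_nhds.sub h1
    rw [sub_self] at h2
    have h3 := h2.enorm
    rw [enorm_zero] at h3
    exact h3
  · intro N i _
    rw [nT_eq hp0, ← DI_trig]
    apply Nn_close hp.le (DI_BM _ _ _).1 (DI_BM _ _ _).1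
    intro x _
    unfold DI
    rw [← Finset.sum_sub_distrib, hε]
    refine (enorm_sum_le _ _).trans (Finset.sum_le_sum fun j _ => ?_)
    rw [← smul_sub, enorm_smul, co_trig, ← ofReal_norm, ch_norm, ENNReal.ofReal_one, one_mul]
  · exact hq
  · intro N
    refine (low_fin hq hL S a l hd _).trans ?_
    rw [nT_eq hp0]
    apply ENNReal.rpow_le_rpow _ hq.le
    gcongr
    unfold Nn
    apply ENNReal.rpow_le_rpow _ (by positivity)
    have e : trig (cf g (N + 1)) = TK (Fj (N + 1)) g := by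
      funext x
      exact trig_cf hg _ x
    rw [e]
    exact Fj_young (by omega) hp hg
  · exact tendsto_const_nhds

end

end Pool.Agent.K7.H81.FD
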