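import Pool.Agent.K7.H81.FL

set_option autoImplicit false
set_option linter.unusedSectionVars false
set_option linter.unusedVariables false

/-!
# The two triangular pieces of an interval; step approximation
-/

namespace Pool.Agent.K7.H81.FD

open MeasureTheory Set Filter Topology Pool.Agent.R955.FD
open scoped ENNReal

universe u

/-- functions of `⌈c x⌉` are dyadic step functions -/
theorem step_ceil {α : Type*} (φ : ℤ → α) {c : ℝ} (hc : 0 < c) (d : ℕ) : ∀ (a l : ℝ) (m : ℤ),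
    a * c = m → l * c = 2 ^ d → Step d a l fun x => φ ⌈x * c⌉ := by
  induction d with
  | zero =>
    intro a l m ha hl
    refine ⟨φ (m + 1), fun x hx => ?_⟩
    simp only
    congr 1
    rw [pow_zero] at hl
    rw [Int.ceil_eq_iff]
    push_cast
    have h1 : a * c < x * c := mul_lt_mul_of_pos_right hx.1 hc
    have h2 : x * c ≤ (a + l) * c := mul_le_mul_of_nonneg_right hx.2 hc.le
    constructor <;> nlinarith
  | succ d ih =>
    intro a l m ha hl
    have h1 : l / 2 * c = 2 ^ d := by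
      rw [pow_succ] at hl
      linarith
    refine ⟨ih a (l / 2) m ha h1, ih (a + l / 2) (l / 2) (m + 2 ^ d) ?_ h1⟩
    push_cast
    rw [add_mul, ha, h1]

section
variable {X : Type u} [NormedAddCommGroup X] [NormedSpace ℂ X]

/-- the step approximation -/
noncomputable def sa (f : ℝ → X) (N : ℕ) (x : ℝ) : X := f ((⌈x * 2 ^ N⌉ : ℝ) / 2 ^ N)

theorem sa_BM {f : ℝ → X} (hf : BM f) (N : ℕ) : BM (sa f N) := by
  obtain ⟨M, hM⟩ := hf.2
  refine ⟨?_, M, fun x => hM _⟩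
  have h1 : StronglyMeasurable fun n : ℤ => f ((n : ℝ) / 2 ^ N) := StronglyMeasurable.of_discrete
  have h2 : Measurable fun x : ℝ => ⌈x * 2 ^ N⌉ := Int.measurable_ceil.comp (by fun_prop)
  exact h1.comp_measurable h2

theorem sa_step (f : ℝ → X) (N : ℕ) : Step N 0 1 (sa f N) := by
  exact step_ceil (fun n => f ((n : ℝ) / 2 ^ N)) (by positivity) N 0 1 0 (by simp) (by simp)

/-- the distance of the step approximation -/
noncomputable def sd (f : ℝ → X) (N : ℕ) : ℝ≥0∞ := ⨆ x ∈ Ioc (0:ℝ) 1, ‖f x - sa f N x‖ₑ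

theorem sa_close (f : ℝ → X) (N : ℕ) {x : ℝ} (hx : x ∈ Ioc (0:ℝ) 1) : ‖f x - sa f N x‖ₑ ≤ sd f N :=
  le_iSup₂ (f := fun x (_ : x ∈ Ioc (0:ℝ) 1) => ‖f x - sa f N x‖ₑ) x hx

theorem sd_tendsto {f : ℝ → X} (hf : Continuous f) : Tendsto (sd f) atTop (𝓝 0) := by
  rw [ENNReal.tendsto_nhds_zero]
  intro ε hε
  have huc : UniformContinuousOn f (Icc 0 1) :=
    isCompact_Icc.uniformContinuousOn_of_continuous hf.continuousOn
  rcases eq_or_ne ε ∞ with rfl | hεt
  · exact Eventually.of_forall fun _ => le_top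
  have hε' : 0 < ε.toReal := ENNReal.toReal_pos hε.ne' hεt
  obtain ⟨δ, hδ, h⟩ := Metric.uniformContinuousOn_iff.1 huc _ hε'
  obtain ⟨N0, hN0⟩ := exists_pow_lt_of_lt_one hδ (by norm_num : (1 / 2 : ℝ) < 1)
  filter_upwards [eventually_ge_atTop N0] with N hN
  apply iSup₂_le
  intro x hx
  unfold sa
  set y := (⌈x * 2 ^ N⌉ : ℝ) / 2 ^ N with hy
  have h2 : (0:ℝ) < 2 ^ N := by positivity
  have hc1 : x * 2 ^ N ≤ ⌈x * 2 ^ N⌉ := Int.le_ceil _
  have hc2 : (⌈x * 2 ^ N⌉ : ℝ) < x * 2 ^ N + 1 := Int.ceil_lt_add_one _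
  have hy1 : x ≤ y := by
    rw [hy, le_div_iff₀ h2]
    exact hc1
  have hy2 : y < x + 1 / 2 ^ N := by
    rw [hy, div_lt_iff₀ h2, add_mul, one_div, inv_mul_cancel₀ h2.ne']
    exact hc2
  have hy3 : y ≤ 1 := by
    rw [hy, div_le_one h2]
    have : ⌈x * 2 ^ N⌉ ≤ (2 ^ N : ℤ) := by
      rw [Int.ceil_le]
      push_cast
      nlinarith [hx.2]
    exact_mod_cast this
  have hlt : (1 / 2 : ℝ) ^ N ≤ (1 / 2) ^ N0 := pow_le_pow_of_le_one (by norm_num) (by norm_num) hN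
  have hd : dist x y < δ := by
    rw [Real.dist_eq, abs_sub_comm, abs_of_nonneg (by linarith)]
    have : (1 / 2 : ℝ) ^ N = 1 / 2 ^ N := by rw [one_div_pow]
    linarith
  have h3 := h x ⟨hx.1.le, hx.2⟩ y ⟨by linarith [hx.1], hy3⟩ hd
  rw [dist_eq_norm] at h3
  rw [← ofReal_norm]
  calc ENNReal.ofReal ‖f x - f y‖ ≤ ENNReal.ofReal ε.toReal := ENNReal.ofReal_le_ofReal h3.le
    _ = ε := ENNReal.ofReal_toReal hεt

variable [CompleteSpace X]

theorem TK_close {k : ℝ → ℂ} (hk : Hor k) (a : ℝ) {B : ℝ} (hB : ∀ t, ‖k t‖ ≤ B) {f g : ℝ → X}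
    (hf : BM f) (hg : BM g) {δ : ℝ≥0∞} (h : ∀ x ∈ Ioc (0:ℝ) 1, ‖f x - g x‖ₑ ≤ δ) (x : ℝ) :
    ‖TK k (md a f) x - TK k (md a g) x‖ₑ ≤ ENNReal.ofReal B * δ := by
  rw [← TK_sub hk (md_BM a hf) (md_BM a hg)]
  unfold TK
  refine (enorm_integral_le_lintegral_enorm _).trans ?_
  calc ∫⁻ y, ‖k (x - y) • (md a f y - md a g y)‖ₑ ∂m1 ≤ ∫⁻ y, ENNReal.ofReal B * δ ∂m1 := by
        apply setLIntegral_mono' measurableSet_Ioc
        intro y hy
        rw [enorm_smul]
        have e : md a f y - md a g y = md a (fun y => f y - g y) y := by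
          unfold md
          rw [smul_sub]
        rw [e, md_enorm]
        gcongr
        · rw [← ofReal_norm]
          exact ENNReal.ofReal_le_ofReal (hB _)
        · exact h y hy
    _ = _ := by rw [lintegral_const, measure_univ, mul_one]

/-- **the extrapolation theorem for families and continuous functions** -/
theorem fam_cont {p q r : ℝ} (hp : 1 < p) (hr : 1 < r) (hpq : p ≤ q) (C : ℝ) (hC0 : 0 ≤ C) :
    ∃ C' : ℝ, 0 ≤ C' ∧ ∀ {ι : Type} (S : Finset ι) (k : ι → ℝ → ℂ) (a : ι → ℝ), (∀ i ∈ S, Hor (k i)) →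
      (∀ g : ℝ → X, BM g → ∑ i ∈ S, Nn p (TK (k i) (md (a i) g)) ^ q ≤ (ENNReal.ofReal C * Nn p g) ^ q) →
      ∀ f : ℝ → X, BM f → Continuous f →
        ∑ i ∈ S, Nn r (TK (k i) (md (a i) f)) ^ (q / theta p r) ≤
          (ENNReal.ofReal C' * Nn r f) ^ (q / theta p r) := by
  obtain ⟨C', hC'0, hfam⟩ := fam (X := X) hp hr hpq C hC0
  refine ⟨C', hC'0, ?_⟩
  intro ι S k a hk hC f hf hfc
  have hθ := theta_pos hp hr
  have hq0 : 0 < q := by linarith
  have hs0 : 0 < q / theta p r := by positivity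
  have hex : ∀ i, ∃ B : ℝ, i ∈ S → ∀ t, ‖k i t‖ ≤ B := by
    intro i
    by_cases hi : i ∈ S
    · obtain ⟨B, hB⟩ := (hk i hi).bdd
      exact ⟨B, fun _ => hB⟩
    · exact ⟨0, fun h => absurd h hi⟩
  choose B hB using hex
  apply lim_sum (y := fun N i => Nn r (TK (k i) (md (a i) (sa f N))))
    (ε := fun N i => ENNReal.ofReal (B i) * sd f N)
    (b := fun N => ENNReal.ofReal C' * (Nn r f + sd f N)) _ _ hs0
  · intro N
    refine (hfam S k a hk hC (sa f N) (sa_BM hf N) ⟨N, ?_⟩).trans ?_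
    · exact Step.comp (fun x : X => ‖x‖ₑ) N 0 1 (sa_step f N)
    · apply ENNReal.rpow_le_rpow _ hs0.le
      gcongr
      apply Nn_close hr.le (sa_BM hf N).1 hf.1
      intro x hx
      rw [← enorm_neg, neg_sub]
      exact sa_close f N hx
  · have h1 : Tendsto (fun N => ENNReal.ofReal C' * (Nn r f + sd f N)) atTop
        (𝓝 (ENNReal.ofReal C' * (Nn r f + 0))) :=
      ENNReal.Tendsto.const_mul (tendsto_const_nhds.add (sd_tendsto hfc))
        (Or.inr ENNReal.ofReal_ne_top)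
    rw [add_zero] at h1
    exact h1
  · intro i _
    have h1 : Tendsto (fun N => ENNReal.ofReal (B i) * sd f N) atTop
        (𝓝 (ENNReal.ofReal (B i) * 0)) :=
      ENNReal.Tendsto.const_mul (sd_tendsto hfc) (Or.inr ENNReal.ofReal_ne_top)
    rw [mul_zero] at h1
    exact h1
  · intro N i hi
    apply Nn_close hr.le (TK_BM (hk i hi) (md_BM _ hf)).1 (TK_BM (hk i hi) (md_BM _ (sa_BM hf N))).1
    intro x _
    exact TK_close (hk i hi) (a i) (hB i hi) hf (sa_BM hf N) (fun x hx => sa_close f N hx) x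

/-! ### the triangular pieces -/

/-- the decreasing piece -/
noncomputable def PP (a : ℤ) (l : ℕ) (g : ℝ → X) (x : ℝ) : X :=
  ∑ j ∈ Finset.range l, ((1 - j / l : ℝ) : ℂ) • ch ((a + j : ℤ) : ℝ) x • co g (a + j)

theorem PP_BM (a : ℤ) (l : ℕ) (g : ℝ → X) : BM (PP a l g) := by
  unfold PP
  refine BM.sum _ fun n _ => ?_
  have : ∀ x, ((1 - n / l : ℝ) : ℂ) • ch ((a + n : ℤ) : ℝ) x • co g (a + n) =
    ch ((a + n : ℤ) : ℝ) x • ((1 - n / l : ℝ) : ℂ) • co g (a + n) := fun x => smul_comm _ _ _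
  simp_rw [this]
  exact ch_const_BM _ _

theorem PP_eq (a : ℤ) (l : ℕ) {g : ℝ → X} (hg : BM g) (x : ℝ) :
    ch (a : ℝ) x • TK (Kl l) (md ((-a : ℤ) : ℝ) g) x = PP a l g x := by
  rw [TK_Kl l (md_BM _ hg)]
  unfold PP
  rw [Finset.smul_sum]
  apply Finset.sum_congr rfl
  intro j _
  rw [co_md, smul_smul, smul_smul]
  have e1 : (j : ℤ) - -a = a + j := by ring
  rw [e1]
  congr 1
  have e2 : ((a + j : ℤ) : ℝ) = (a : ℝ) + ((j : ℤ) : ℝ) := by push_cast; rfl
  rw [e2, ch_add]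
  ring

theorem PP_avg (a : ℤ) {l : ℕ} (hl : 0 < l) (g : ℝ → X) (x : ℝ) :
    PP a l g x = ((1 / l : ℝ) : ℂ) • ∑ k ∈ Finset.range l, DI a (k + 1) g x := by
  have h1 : ∀ (v : ℕ → X) (n : ℕ), ∑ k ∈ Finset.range n, ∑ j ∈ Finset.range (k + 1), v j =
      ∑ j ∈ Finset.range n, ((n - j : ℝ) : ℂ) • v j := by
    intro v n
    induction n with
    | zero => simp
    | succ n ih =>
      rw [Finset.sum_range_succ, ih, Finset.sum_range_succ, Finset.sum_range_succ
        (fun j => (((n + 1 : ℕ) - j : ℝ) : ℂ) • v j), ← add_assoc, ← Finset.sum_add_distrib]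
      congr 1
      · apply Finset.sum_congr rfl
        intro j _
        have : ((((n + 1 : ℕ) : ℝ) - j : ℝ) : ℂ) = ((n - j : ℝ) : ℂ) + 1 := by push_cast; ring
        rw [this, add_smul, one_smul]
      · have : ((((n + 1 : ℕ) : ℝ) - n : ℝ) : ℂ) = 1 := by push_cast; ring
        rw [this, one_smul]
  unfold DI
  rw [h1, Finset.smul_sum]
  unfold PP
  apply Finset.sum_congr rfl
  intro j _
  rw [smul_smul ((1 / l : ℝ) : ℂ)]
  congr 1
  rw [← Complex.ofReal_mul]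
  congr 1
  have : (l : ℝ) ≠ 0 := by exact_mod_cast hl.ne'
  field_simp

theorem PM_eq (a : ℤ) {l : ℕ} (hl : 0 < l) {g : ℝ → X} (hg : BM g) (x : ℝ) :
    ch ((a + l : ℤ) : ℝ) x • TK (Km l) (md ((-(a + l) : ℤ) : ℝ) g) x = DI a l g x - PP a l g x := by
  have hl' : (l : ℝ) ≠ 0 := by exact_mod_cast hl.ne'
  rw [TK_Km l (md_BM _ hg)]
  set v : ℕ → X := fun j => ch ((a + j : ℤ) : ℝ) x • co g (a + j) with hv
  have h1 : ch ((a + l : ℤ) : ℝ) x • (∑ j ∈ Finset.range l,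
      (((1 - j / l : ℝ) : ℂ) * ch ((-(j : ℤ) : ℤ) : ℝ) x) • co (md ((-(a + l) : ℤ) : ℝ) g) (-(j : ℤ)) -
      co (md ((-(a + l) : ℤ) : ℝ) g) 0) =
      ∑ j ∈ Finset.range l, ((1 - j / l : ℝ) : ℂ) • v (l - j) - v l := by
    rw [smul_sub, Finset.smul_sum]
    congr 1
    · apply Finset.sum_congr rfl
      intro j hj
      rw [Finset.mem_range] at hj
      rw [co_md, smul_smul, hv]
      simp only
      have e1 : -(j : ℤ) - -(a + l) = a + ((l - j : ℕ) : ℤ) := by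
        push_cast [Nat.cast_sub hj.le]
        ring
      rw [e1, smul_smul]
      congr 1
      have e2 : ((a + ((l - j : ℕ) : ℤ) : ℤ) : ℝ) = ((a + l : ℤ) : ℝ) + ((-(j : ℤ) : ℤ) : ℝ) := by
        push_cast [Nat.cast_sub hj.le]
        ring
      rw [e2, ch_add]
      ring
    · rw [co_md, hv]
      simp only
      have e1 : 0 - -(a + (l : ℤ)) = a + l := by ring
      rw [e1]
  rw [h1]
  have h2 : DI a l g x - PP a l g x = ∑ j ∈ Finset.range l, ((j / l : ℝ) : ℂ) • v j := by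
    unfold DI PP
    rw [← Finset.sum_sub_distrib]
    apply Finset.sum_congr rfl
    intro j _
    rw [hv]
    simp only
    have : ((1 - j / l : ℝ) : ℂ) = 1 - ((j / l : ℝ) : ℂ) := by push_cast; ring
    rw [this, sub_smul, one_smul, sub_sub_cancel]
  rw [h2]
  have h3 : ∑ j ∈ Finset.range (l + 1), ((1 - j / l : ℝ) : ℂ) • v (l - j) =
      ∑ j ∈ Finset.range (l + 1), ((j / l : ℝ) : ℂ) • v j := by
    rw [← Finset.sum_range_reflect]
    apply Finset.sum_congr rfl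
    intro j hj
    rw [Finset.mem_range] at hj
    have e1 : l + 1 - 1 - j = l - j := by omega
    have e2 : l - (l - j) = j := by omega
    rw [e1, e2]
    congr 2
    rw [Nat.cast_sub (by omega)]
    field_simp
    ring
  rw [Finset.sum_range_succ, Finset.sum_range_succ] at h3
  have e4 : ((1 - l / l : ℝ) : ℂ) = 0 := by rw [div_self hl']; simp
  have e5 : ((l / l : ℝ) : ℂ) = 1 := by rw [div_self hl']; simp
  rw [e4, zero_smul, add_zero, e5, one_smul] at h3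
  rw [h3, add_sub_cancel_right]

theorem co_DI (a : ℤ) {l i : ℕ} (hi : i < l) (g : ℝ → X) : co (DI a l g) (a + i) = co g (a + i) := by
  unfold DI
  rw [co_sum _ fun n _ => ch_const_BM _ _]
  simp_rw [co_ch]
  rw [Finset.sum_eq_single i]
  · rw [if_pos rfl]
  · intro j _ hj
    rw [if_neg (by omega)]
  · intro h
    exact absurd (Finset.mem_range.2 hi) h

theorem DI_DI (a : ℤ) {k l : ℕ} (hk : k ≤ l) (g : ℝ → X) : DI a k (DI a l g) = DI a k g := by
  funext x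
  unfold DI
  apply Finset.sum_congr rfl
  intro j hj
  rw [Finset.mem_range] at hj
  have h1 := co_DI a (show j < l by omega) g
  unfold DI at h1
  rw [h1]

theorem Nn_sum_le {p : ℝ} (hp : 1 ≤ p) {ι : Type*} (S : Finset ι) {f : ι → ℝ → X}
    (hf : ∀ i ∈ S, StronglyMeasurable (f i)) :
    Nn p (fun x => ∑ i ∈ S, f i x) ≤ ∑ i ∈ S, Nn p (f i) := by
  have hp0 : 0 < p := by linarith
  unfold Nn
  simp_rw [← Np_eq hp0]
  have e : (fun x => ∑ i ∈ S, f i x) = ∑ i ∈ S, f i := by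
    funext x
    rw [Finset.sum_apply]
  rw [e]
  apply eLpNorm_sum_le (fun i hi => (hf i hi).aestronglyMeasurable)
  rw [← ENNReal.ofReal_one]
  exact ENNReal.ofReal_le_ofReal hp

theorem Nn_smul {p : ℝ} (hp : 0 < p) (c : ℂ) (f : ℝ → X) :
    Nn p (fun x => c • f x) = ‖c‖ₑ * Nn p f := by
  unfold Nn
  rw [← Np_eq hp, ← Np_eq hp]
  exact eLpNorm_const_smul c f _ _

theorem Nn_congr_norm {p : ℝ} {f g : ℝ → X} (h : ∀ x, ‖f x‖ₑ = ‖g x‖ₑ) : Nn p f = Nn p g := by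
  unfold Nn Np
  simp_rw [h]

theorem ch_enorm (a x : ℝ) : ‖ch a x‖ₑ = 1 := by
  rw [← ofReal_norm, ch_norm, ENNReal.ofReal_one]

theorem PP_Nn {p : ℝ} (hp : 1 < p) {L : ℝ≥0∞}
    (hL : ∀ (a : ℤ) (l : ℕ) (g : ℝ → X), BM g → Nn p (DI a l g) ≤ L * Nn p g) (a : ℤ) {l : ℕ}
    (hl : 0 < l) (g : ℝ → X) : Nn p (PP a l g) ≤ L * Nn p (DI a l g) := by
  have hp0 : 0 < p := by linarith
  have hl' : (0 : ℝ) < l := by exact_mod_cast hl
  have e : PP a l g = fun x => ((1 / l : ℝ) : ℂ) • ∑ k ∈ Finset.range l, DI a (k + 1) g x := by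
    funext x
    exact PP_avg a hl g x
  rw [e, Nn_smul hp0]
  calc ‖((1 / l : ℝ) : ℂ)‖ₑ * Nn p (fun x => ∑ k ∈ Finset.range l, DI a (k + 1) g x) ≤
        ‖((1 / l : ℝ) : ℂ)‖ₑ * ∑ k ∈ Finset.range l, Nn p (DI a (k + 1) g) := by
        gcongr
        exact Nn_sum_le hp.le _ fun k _ => (DI_BM _ _ _).1
    _ ≤ ‖((1 / l : ℝ) : ℂ)‖ₑ * ∑ k ∈ Finset.range l, L * Nn p (DI a l g) := by
        gcongr with k hk
        rw [Finset.mem_range] at hk
        rw [← DI_DI a (show k + 1 ≤ l by omega) g]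
        exact hL _ _ _ (DI_BM _ _ _)
    _ = _ := by
        rw [Finset.sum_const, Finset.card_range, nsmul_eq_mul, ← mul_assoc]
        have e1 : ‖((1 / l : ℝ) : ℂ)‖ₑ * (l : ℝ≥0∞) = 1 := by
          rw [← ofReal_norm, Complex.norm_real, Real.norm_of_nonneg (by positivity),
            ← ENNReal.ofReal_natCast l, ← ENNReal.ofReal_mul (by positivity),
            one_div_mul_cancel hl'.ne', ENNReal.ofReal_one]
        rw [e1, one_mul]

end

end Pool.Agent.K7.H81.FD
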