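import Pool.Agent.K7.H81.FM

set_option autoImplicit false
set_option linter.unusedSectionVars false
set_option linter.unusedVariables false

/-!
# Necessity of `p ≤ q`; the extrapolation theorem for lower decompositions
-/

namespace Pool.Agent.K7.H81.FD

open MeasureTheory Set Filter Topology Pool.Agent.R955.FD
open scoped ENNReal

universe u

theorem theta_le_one {p r : ℝ} (hp : 1 < p) (hr : 1 < r) : theta p r ≤ 1 := by
  have h1 : 0 < r - 1 := by linarith
  have h2 : 0 < p - 1 := by linarith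
  have h3 : 0 < r := by linarith
  have h4 : 0 < p := by linarith
  rcases lt_trichotomy r p with h | h | h
  · rw [theta_below hr h, div_div_div_eq, div_le_one (by positivity)]
    nlinarith
  · rw [h, theta_self hp]
  · rw [theta_above hp h, div_le_one h3]
    exact h.le

section
variable {X : Type u} [NormedAddCommGroup X] [NormedSpace ℂ X] [CompleteSpace X]

/-- the hypothesis on lower decompositions, with a constant -/
def LowL (X : Type u) [NormedAddCommGroup X] [NormedSpace ℂ X] (p q L : ℝ) : Prop :=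
  ∀ J : ℕ → Set ℤ, IsIntPart J → ∀ c : ℤ →₀ X,
      lq (ENNReal.ofReal q) (fun i => nT (ENNReal.ofReal p) (DT (J i) c)) ≤
        ENNReal.ofReal L * nT (ENNReal.ofReal p) (trig c)

theorem LowL.single {p q L : ℝ} (hL : LowL X p q L) (hp : 1 < p) (hq : 0 < q) (a : ℤ) (l : ℕ)
    {g : ℝ → X} (hg : BM g) : Nn p (DI a l g) ≤ ENNReal.ofReal L * Nn p g := by
  have h1 := low_BM hp hq hL {0} (fun _ => a) (fun _ => l) (by
    intro i hi j hj hij
    rw [Finset.mem_singleton] at hi hj
    exact absurd (hi.trans hj.symm) hij) hg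
  rw [Finset.sum_singleton] at h1
  exact (ENNReal.rpow_le_rpow_iff hq).1 h1

/-- the estimate for finite families of intervals and the exponent `r` -/
theorem low_r {p q r : ℝ} (hp : 1 < p) (hr : 1 < r) (hpq : p ≤ q) {L : ℝ} (hL0 : 0 ≤ L)
    (hL : LowL X p q L) : ∃ C' : ℝ, 0 ≤ C' ∧ ∀ (S : Finset ℕ) (a : ℕ → ℤ) (l : ℕ → ℕ),
      (∀ i ∈ S, 0 < l i) →
      (∀ i ∈ S, ∀ j ∈ S, i ≠ j →
        Disjoint (Set.Ico (a i) (a i + l i)) (Set.Ico (a j) (a j + l j))) →
      ∀ f : ℝ → X, BM f → Continuous f →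
        ∑ i ∈ S, Nn r (DI (a i) (l i) f) ^ (q / theta p r) ≤
          (ENNReal.ofReal C' * Nn r f) ^ (q / theta p r) := by
  have hp0 : 0 < p := by linarith
  have hq0 : 0 < q := by linarith
  have hθ := theta_pos hp hr
  have hθ1 := theta_le_one hp hr
  set s := q / theta p r with hs
  have hs1 : 1 ≤ s := by
    rw [hs, le_div_iff₀ hθ]
    linarith
  have hs0 : 0 < s := by linarith
  obtain ⟨C', hC'0, hfam⟩ := fam_cont (X := X) hp hr hpq ((1 + L) * L) (by positivity)
  refine ⟨2 * C', by positivity, ?_⟩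
  intro S a l hl hd f hf hfc
  have hsg : ∀ (a : ℤ) (l : ℕ) (g : ℝ → X), BM g → Nn p (DI a l g) ≤ ENNReal.ofReal L * Nn p g :=
    fun a l g hg => hL.single hp hq0 a l hg
  have eL : (1:ℝ≥0∞) + ENNReal.ofReal L = ENNReal.ofReal (1 + L) := by
    rw [ENNReal.ofReal_add (by norm_num) hL0, ENNReal.ofReal_one]
  have hbase : ∀ (T : ℕ → (ℝ → X) → ℝ → X), (∀ i ∈ S, ∀ g : ℝ → X, BM g →
      Nn p (T i g) ≤ ENNReal.ofReal (1 + L) * Nn p (DI (a i) (l i) g)) →
      ∀ g : ℝ → X, BM g → ∑ i ∈ S, Nn p (T i g) ^ q ≤ (ENNReal.ofReal ((1 + L) * L) * Nn p g) ^ q := by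
    intro T hT g hg
    calc ∑ i ∈ S, Nn p (T i g) ^ q ≤
          ∑ i ∈ S, (ENNReal.ofReal (1 + L) * Nn p (DI (a i) (l i) g)) ^ q :=
          Finset.sum_le_sum fun i hi => ENNReal.rpow_le_rpow (hT i hi g hg) hq0.le
      _ = ENNReal.ofReal (1 + L) ^ q * ∑ i ∈ S, Nn p (DI (a i) (l i) g) ^ q := by
          simp_rw [ENNReal.mul_rpow_of_nonneg _ _ hq0.le]
          rw [← Finset.mul_sum]
      _ ≤ ENNReal.ofReal (1 + L) ^ q * (ENNReal.ofReal L * Nn p g) ^ q := by
          gcongr
          exact low_BM hp hq0 hL S a l hd hg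
      _ = _ := by
          rw [← ENNReal.mul_rpow_of_nonneg _ _ hq0.le, ENNReal.ofReal_mul (by positivity), mul_assoc]
  have hPP : ∀ i ∈ S, ∀ g : ℝ → X, BM g → Nn p (PP (a i) (l i) g) ≤
      ENNReal.ofReal L * Nn p (DI (a i) (l i) g) := fun i hi g _ => PP_Nn hp hsg (a i) (hl i hi) g
  have n1 : ∀ i, ∀ g : ℝ → X, BM g → ∀ x, ‖TK (Kl (l i)) (md ((-a i : ℤ) : ℝ) g) x‖ₑ =
      ‖PP (a i) (l i) g x‖ₑ := by
    intro i g hg x
    rw [← PP_eq _ _ hg, enorm_smul, ch_enorm, one_mul]
  have n2 : ∀ i ∈ S, ∀ g : ℝ → X, BM g → ∀ x,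
      ‖TK (Km (l i)) (md ((-(a i + l i) : ℤ) : ℝ) g) x‖ₑ =
      ‖DI (a i) (l i) g x - PP (a i) (l i) g x‖ₑ := by
    intro i hi g hg x
    rw [← PM_eq _ (hl i hi) hg, enorm_smul, ch_enorm, one_mul]
  have h1 := hfam S (fun i => Kl (l i)) (fun i => ((-a i : ℤ) : ℝ)) (fun i _ => Kl_hor _)
    (hbase (fun i g => TK (Kl (l i)) (md ((-a i : ℤ) : ℝ) g)) (by
      intro i hi g hg
      rw [Nn_congr_norm (n1 i g hg)]
      refine (hPP i hi g hg).trans ?_
      gcongr
      linarith)) f hf hfc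
  have h2 := hfam S (fun i => Km (l i)) (fun i => ((-(a i + l i) : ℤ) : ℝ)) (fun i _ => Km_hor _)
    (hbase (fun i g => TK (Km (l i)) (md ((-(a i + l i) : ℤ) : ℝ) g)) (by
      intro i hi g hg
      rw [Nn_congr_norm (n2 i hi g hg)]
      have e1 : (fun x => DI (a i) (l i) g x - PP (a i) (l i) g x) =
          fun x => DI (a i) (l i) g x + (-PP (a i) (l i) g x) := by
        funext x
        rw [sub_eq_add_neg]
      have e2 : Nn p (fun x => -PP (a i) (l i) g x) = Nn p (PP (a i) (l i) g) :=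
        Nn_congr_norm fun x => enorm_neg _
      calc Nn p (fun x => DI (a i) (l i) g x - PP (a i) (l i) g x) ≤
            Nn p (DI (a i) (l i) g) + Nn p (fun x => -PP (a i) (l i) g x) := by
            rw [e1]
            exact Nn_add hp.le (DI_BM _ _ _).1 (PP_BM _ _ _).1.neg
        _ ≤ Nn p (DI (a i) (l i) g) + ENNReal.ofReal L * Nn p (DI (a i) (l i) g) := by
            rw [e2]
            gcongr
            exact hPP i hi g hg
        _ = _ := by
            rw [← eL]
            ring)) f hf hfc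
  rw [← hs] at h1 h2
  have h3 : ∀ i ∈ S, Nn r (DI (a i) (l i) f) ≤
      Nn r (TK (Kl (l i)) (md ((-a i : ℤ) : ℝ) f)) +
        Nn r (TK (Km (l i)) (md ((-(a i + l i) : ℤ) : ℝ) f)) := by
    intro i hi
    rw [Nn_congr_norm (n1 i f hf), Nn_congr_norm (n2 i hi f hf)]
    have e : DI (a i) (l i) f = fun x => PP (a i) (l i) f x +
        (DI (a i) (l i) f x - PP (a i) (l i) f x) := by
      funext x
      abel
    calc Nn r (DI (a i) (l i) f) = Nn r (fun x => PP (a i) (l i) f x +
        (DI (a i) (l i) f x - PP (a i) (l i) f x)) := by rw [← e]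
      _ ≤ _ := Nn_add hr.le (PP_BM _ _ _).1 ((DI_BM _ _ _).1.sub (PP_BM _ _ _).1)
  have h4 : (∑ i ∈ S, Nn r (DI (a i) (l i) f) ^ s) ^ (1 / s) ≤ ENNReal.ofReal (2 * C') * Nn r f := by
    calc (∑ i ∈ S, Nn r (DI (a i) (l i) f) ^ s) ^ (1 / s) ≤
          (∑ i ∈ S, (Nn r (TK (Kl (l i)) (md ((-a i : ℤ) : ℝ) f)) +
        Nn r (TK (Km (l i)) (md ((-(a i + l i) : ℤ) : ℝ) f))) ^ s) ^ (1 / s) := by
          apply ENNReal.rpow_le_rpow _ (by positivity)
          exact Finset.sum_le_sum fun i hi => ENNReal.rpow_le_rpow (h3 i hi) hs0.le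
      _ ≤ _ := ENNReal.Lp_add_le S _ _ hs1
      _ ≤ ((ENNReal.ofReal C' * Nn r f) ^ s) ^ (1 / s) + ((ENNReal.ofReal C' * Nn r f) ^ s) ^ (1 / s) := by
          gcongr
      _ = _ := by
          rw [← ENNReal.rpow_mul, mul_one_div_cancel hs0.ne', ENNReal.rpow_one,
            ENNReal.ofReal_mul (by norm_num), show ENNReal.ofReal 2 = 2 by norm_num]
          ring
  calc ∑ i ∈ S, Nn r (DI (a i) (l i) f) ^ s = ((∑ i ∈ S, Nn r (DI (a i) (l i) f) ^ s) ^ (1 / s)) ^ s := by
        rw [← ENNReal.rpow_mul, one_div_mul_cancel hs0.ne', ENNReal.rpow_one]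
    _ ≤ _ := ENNReal.rpow_le_rpow h4 hs0.le

/-- from finite families of intervals to partitions -/
theorem low_of_fin {r s : ℝ} (hr : 0 < r) (hs0 : 0 < s) {C : ℝ}
    (h : ∀ (S : Finset ℕ) (a : ℕ → ℤ) (l : ℕ → ℕ), (∀ i ∈ S, 0 < l i) →
      (∀ i ∈ S, ∀ j ∈ S, i ≠ j →
        Disjoint (Set.Ico (a i) (a i + l i)) (Set.Ico (a j) (a j + l j))) →
      ∀ f : ℝ → X, BM f → Continuous f →
        ∑ i ∈ S, Nn r (DI (a i) (l i) f) ^ s ≤ (ENNReal.ofReal C * Nn r f) ^ s) :
    LowL X r s C := by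
  classical
  intro J hJ c
  obtain ⟨hJ1, hJ2, hJ3⟩ := hJ
  unfold lq
  rw [if_neg ENNReal.ofReal_ne_top, ENNReal.toReal_ofReal hs0.le]
  have key : ∑' i, nT (ENNReal.ofReal r) (DT (J i) c) ^ s ≤
      (ENNReal.ofReal C * nT (ENNReal.ofReal r) (trig c)) ^ s := by
    rw [ENNReal.tsum_eq_iSup_sum]
    apply iSup_le
    intro S
    -- the bounded intervals
    set K : ℕ → Finset ℤ := fun i => c.support.filter fun n => n ∈ J i with hK
    have hex : ∀ i, ∃ (a : ℤ) (l : ℕ), (K i).Nonempty → 0 < l ∧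
        (K i : Set ℤ) ⊆ Set.Ico a (a + l) ∧ Set.Ico a (a + l) ⊆ J i := by
      intro i
      by_cases hne : (K i).Nonempty
      · refine ⟨(K i).min' hne, ((K i).max' hne + 1 - (K i).min' hne).toNat, fun _ => ?_⟩
        have hle := Finset.min'_le_max' (K i) hne
        have e : (K i).min' hne + (((K i).max' hne + 1 - (K i).min' hne).toNat : ℤ) =
            (K i).max' hne + 1 := by omega
        rw [e]
        refine ⟨by omega, ?_, ?_⟩
        · intro x hx
          have h1 := Finset.min'_le (K i) x hx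
          have h2 := Finset.le_max' (K i) x hx
          exact ⟨h1, by omega⟩
        · have hmin := Finset.min'_mem (K i) hne
          have hmax := Finset.max'_mem (K i) hne
          have hmin2 : (K i).min' hne ∈ J i := (Finset.mem_filter.1 hmin).2
          have hmax2 : (K i).max' hne ∈ J i := (Finset.mem_filter.1 hmax).2
          intro x hx
          exact (hJ1 i).out hmin2 hmax2 ⟨hx.1, by have := hx.2; omega⟩
      · exact ⟨0, 0, fun h => absurd h hne⟩
    choose a l hal using hex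
    set S' := S.filter fun i => (K i).Nonempty with hS'
    have hS'mem : ∀ i ∈ S', (K i).Nonempty := fun i hi => (Finset.mem_filter.1 hi).2
    have h1 := h S' a l (fun i hi => (hal i (hS'mem i hi)).1) (by
      intro i hi j hj hij
      exact (hJ2 i j hij).mono (hal i (hS'mem i hi)).2.2 (hal j (hS'mem j hj)).2.2)
      (trig c) (trig_BM c) (trig_cont c)
    rw [nT_eq hr]
    refine le_trans ?_ h1
    rw [← Finset.sum_subset (Finset.filter_subset (fun i => (K i).Nonempty) S)]
    · apply le_of_eq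
      apply Finset.sum_congr rfl
      intro i hi
      rw [nT_eq hr, DI_trig]
      congr 2
      funext x
      obtain ⟨h2, h3, h4⟩ := hal i (hS'mem i hi)
      rw [DT_eq (Set.Ico (a i) (a i + l i)) (Finset.Ico (a i) (a i + l i))
        (fun n => by rw [Finset.mem_Ico, Set.mem_Ico])]
      unfold DT trig
      rw [Finsupp.sum_of_support_subset (s := Finset.Ico (a i) (a i + l i))]
      · apply Finset.sum_congr rfl
        intro n hn
        rw [Finsupp.filter_apply_pos]
        rw [Finset.mem_Ico, ← Set.mem_Ico] at hn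
        exact h4 hn
      · intro n hn
        rw [Finsupp.support_filter] at hn
        have h5 := h3 hn
        rw [Finset.mem_Ico]
        exact h5
      · intro n _
        rw [smul_zero]
    · intro i hi hi2
      have h2 : K i = ∅ := by
        by_contra hcon
        exact hi2 (Finset.mem_filter.2 ⟨hi, Finset.nonempty_iff_ne_empty.2 hcon⟩)
      have h3 : DT (J i) c = fun _ => 0 := by
        funext x
        unfold DT trig
        apply Finset.sum_eq_zero
        intro n hn
        exfalso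
        rw [Finsupp.support_filter] at hn
        have h4 : n ∈ K i := hn
        rw [h2] at h4
        exact absurd h4 (Finset.notMem_empty n)
      rw [nT_eq hr, h3]
      unfold Nn Np
      simp only [enorm_zero]
      rw [ENNReal.zero_rpow_of_pos hr, lintegral_zero, ENNReal.zero_rpow_of_pos (by positivity),
        ENNReal.zero_rpow_of_pos hs0]
  calc (∑' i, nT (ENNReal.ofReal r) (DT (J i) c) ^ s) ^ (1 / s) ≤
        ((ENNReal.ofReal C * nT (ENNReal.ofReal r) (trig c)) ^ s) ^ (1 / s) :=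
        ENNReal.rpow_le_rpow key (by positivity)
    _ = _ := by rw [← ENNReal.rpow_mul, mul_one_div_cancel hs0.ne', ENNReal.rpow_one]

end

end Pool.Agent.K7.H81.FD
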