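import Pool.Agent.K7.H81.FN

set_option autoImplicit false
set_option linter.unusedSectionVars false
set_option linter.unusedVariables false

/-!
# Necessity of `p ≤ q`; the extrapolation theorem for lower decompositions
-/

namespace Pool.Agent.K7.H81.FD

open MeasureTheory Set Filter Topology Pool.Agent.R955.FD
open scoped ENNReal

universe u

/-- the density of the kernel of Fejér -/
noncomputable def fr (N : ℕ) (y : ℝ) : ℝ := ‖∑ j ∈ Finset.range N, ch (j : ℝ) y‖ ^ 2 / N

theorem fr_nonneg (N : ℕ) (y : ℝ) : 0 ≤ fr N y := by unfold fr; positivity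

theorem fr_cont (N : ℕ) : Continuous (fr N) := by
  unfold fr
  exact ((continuous_finsetSum _ fun n _ => ch_cont _).norm.pow 2).div_const _

theorem fr_ge {N : ℕ} (hN : 0 < N) {y : ℝ} (hy : |y| ≤ 1 / (8 * N)) : (N : ℝ) / 4 ≤ fr N y := by
  have hN' : (0:ℝ) < N := by exact_mod_cast hN
  have h1 : ∀ j ∈ Finset.range N, (1 / 2 : ℝ) ≤ (ch (j : ℝ) y).re := by
    intro j hj
    rw [Finset.mem_range] at hj
    have hj' : (j : ℝ) ≤ N := by exact_mod_cast hj.le
    unfold ch
    rw [Complex.exp_ofReal_mul_I_re]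
    have h2 := Real.one_sub_sq_div_two_le_cos (x := 2 * Real.pi * j * y)
    have h3 : |2 * Real.pi * j * y| ≤ 1 := by
      rw [abs_mul, abs_of_nonneg (by positivity)]
      have hpi : 2 * Real.pi ≤ 8 := by have := Real.pi_lt_d2; linarith
      calc 2 * Real.pi * j * |y| ≤ 8 * N * (1 / (8 * N)) := by gcongr
        _ = 1 := by field_simp
    have h4 : (2 * Real.pi * j * y) ^ 2 ≤ 1 := by
      rw [← sq_abs]
      have := abs_nonneg (2 * Real.pi * j * y)
      nlinarith
    linarith
  have h5 : (N : ℝ) / 2 ≤ ‖∑ j ∈ Finset.range N, ch (j : ℝ) y‖ := by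
    calc (N : ℝ) / 2 = ∑ j ∈ Finset.range N, (1 / 2 : ℝ) := by
          rw [Finset.sum_const, Finset.card_range, nsmul_eq_mul]
          ring
      _ ≤ ∑ j ∈ Finset.range N, (ch (j : ℝ) y).re := Finset.sum_le_sum h1
      _ = (∑ j ∈ Finset.range N, ch (j : ℝ) y).re := by rw [Complex.re_sum]
      _ ≤ _ := Complex.re_le_norm _
  unfold fr
  rw [le_div_iff₀ hN']
  have : (N : ℝ) / 4 * N = (N / 2) ^ 2 := by ring
  rw [this]
  gcongr

section
variable {X : Type u} [NormedAddCommGroup X] [NormedSpace ℂ X]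

theorem cf_out (g : ℝ → X) {N : ℕ} {n : ℤ} (h : N ≤ n.natAbs) (hN : 0 < N) : cf g N n = 0 := by
  classical
  unfold cf
  rw [Finsupp.add_apply, Finsupp.add_apply, Finsupp.finsetSum_apply, Finsupp.finsetSum_apply]
  simp_rw [Finsupp.single_apply]
  rw [Finset.sum_eq_zero, Finset.sum_eq_zero, if_neg (by omega), add_zero, add_zero]
  · intro j hj
    rw [Finset.mem_range] at hj
    rw [if_neg (by omega)]
  · intro j hj
    rw [Finset.mem_range] at hj
    rw [if_neg (by omega)]

variable [CompleteSpace X]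

theorem Fj_lint_shift {N : ℕ} (hN : 0 < N) (x : ℝ) : ∫⁻ y, ‖Fj N (x - y)‖ₑ ∂m1 = 1 := by
  have h1 : ∀ y, Fj N (x - y) = Fj N (y - x) := by
    intro y
    rw [← Fj_neg hN (x - y), neg_sub]
  simp_rw [h1]
  rw [lint_per (Fj_per N), Fj_lint hN]

/-- the intervals of the example -/
def Aj (N j : ℕ) : Set ℝ := Ioc ((j : ℝ) / N) ((j + 1) / N)

theorem Aj_disj {N : ℕ} (hN : 0 < N) {i j : ℕ} {y : ℝ} (hi : y ∈ Aj N i) (hj : y ∈ Aj N j) : i = j := by
  have hN' : (0:ℝ) < N := by exact_mod_cast hN
  have h1 := hi.1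
  have h2 := hi.2
  have h3 := hj.1
  have h4 := hj.2
  rw [div_lt_iff₀ hN'] at h1 h3
  rw [le_div_iff₀ hN'] at h2 h4
  have h5 : (i : ℝ) < j + 1 := by linarith
  have h6 : (j : ℝ) < i + 1 := by linarith
  have h7 : i < j + 1 := by exact_mod_cast h5
  have h8 : j < i + 1 := by exact_mod_cast h6
  omega

/-- the pieces of the example, before modulation -/
noncomputable def hj (v : X) (N j : ℕ) : ℝ → X := (Aj N j).indicator fun _ => v

theorem hj_BM (v : X) (N j : ℕ) : BM (hj v N j) := (BM.const v).ind measurableSet_Ioc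

/-- the example -/
noncomputable def gx (v : X) (N : ℕ) (x : ℝ) : X :=
  ∑ j ∈ Finset.range N, md ((2 * N * j : ℤ) : ℝ) (trig (cf (hj v N j) N)) x

theorem gx_BM (v : X) (N : ℕ) : BM (gx v N) := by
  unfold gx
  exact BM.sum _ fun j _ => md_BM _ (trig_BM _)

theorem gx_le (v : X) {N : ℕ} (hN : 0 < N) (x : ℝ) : ‖gx v N x‖ₑ ≤ ‖v‖ₑ := by
  have hm : ∀ j, Measurable fun y => ‖Fj N (x - y)‖ₑ * ‖hj v N j y‖ₑ := by
    intro j
    exact ((Fj_cont N).comp (continuous_const.sub continuous_id)).enorm.measurable.mul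
      (hj_BM v N j).1.enorm
  calc ‖gx v N x‖ₑ ≤ ∑ j ∈ Finset.range N, ‖TK (Fj N) (hj v N j) x‖ₑ := by
        unfold gx
        refine (enorm_sum_le _ _).trans (le_of_eq ?_)
        apply Finset.sum_congr rfl
        intro j _
        rw [md_enorm, trig_cf (hj_BM v N j)]
    _ ≤ ∑ j ∈ Finset.range N, ∫⁻ y, ‖Fj N (x - y)‖ₑ * ‖hj v N j y‖ₑ ∂m1 := by
        apply Finset.sum_le_sum
        intro j _
        unfold TK
        refine (enorm_integral_le_lintegral_enorm _).trans (le_of_eq ?_)
        simp_rw [enorm_smul]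
    _ = ∫⁻ y, ∑ j ∈ Finset.range N, ‖Fj N (x - y)‖ₑ * ‖hj v N j y‖ₑ ∂m1 := by
        rw [lintegral_finsetSum _ fun j _ => hm j]
    _ ≤ ∫⁻ y, ‖Fj N (x - y)‖ₑ * ‖v‖ₑ ∂m1 := by
        apply lintegral_mono
        intro y
        simp only
        rw [← Finset.mul_sum]
        gcongr
        by_cases hex : ∃ j ∈ Finset.range N, y ∈ Aj N j
        · obtain ⟨j, hjr, hy⟩ := hex
          rw [Finset.sum_eq_single j]
          · unfold hj
            rw [indicator_of_mem hy]
          · intro i _ hij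
            unfold hj
            rw [indicator_of_notMem (fun h => hij (Aj_disj hN h hy)), enorm_zero]
          · intro h
            exact absurd hjr h
        · rw [Finset.sum_eq_zero]
          · exact zero_le
          · intro j hjr
            unfold hj
            rw [indicator_of_notMem (fun h => hex ⟨j, hjr, h⟩), enorm_zero]
    _ = _ := by
        have hmk : Measurable fun y => ‖Fj N (x - y)‖ₑ :=
          ((Fj_cont N).comp (continuous_const.sub continuous_id)).enorm.measurable
        rw [lintegral_mul_const _ hmk, Fj_lint_shift hN, one_mul]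

theorem gx_DI (v : X) {N : ℕ} (hN : 0 < N) {j : ℕ} (hjN : j < N) :
    DI (2 * N * j - N) (2 * N) (gx v N) = md ((2 * N * j : ℤ) : ℝ) (trig (cf (hj v N j) N)) := by
  have hco : ∀ t < 2 * N, co (gx v N) (2 * N * j - N + t) = cf (hj v N j) N (-N + t) := by
    intro t ht
    unfold gx
    rw [co_sum _ fun i _ => md_BM _ (trig_BM _)]
    simp_rw [co_md, co_trig]
    rw [Finset.sum_eq_single j]
    · congr 1
      ring
    · intro i _ hij
      apply cf_out _ _ hN
      rcases lt_or_gt_of_ne hij with h | h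
      · have h1 : (i : ℤ) + 1 ≤ j := by exact_mod_cast h
        have h2 : (2 * N : ℤ) * (i + 1) ≤ 2 * N * j := by
          apply mul_le_mul_of_nonneg_left h1
          positivity
        have h3 : (2 * N : ℤ) * (i + 1) = 2 * N * i + 2 * N := by ring
        omega
      · have h1 : (j : ℤ) + 1 ≤ i := by exact_mod_cast h
        have h2 : (2 * N : ℤ) * (j + 1) ≤ 2 * N * i := by
          apply mul_le_mul_of_nonneg_left h1
          positivity
        have h3 : (2 * N : ℤ) * (j + 1) = 2 * N * j + 2 * N := by ring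
        omega
    · intro h
      exact absurd (Finset.mem_range.2 hjN) h
  funext x
  have h1 : trig (cf (hj v N j) N) x = ∑ t ∈ Finset.range (2 * N), ch ((-N + t : ℤ) : ℝ) x •
      cf (hj v N j) N (-N + t) := by
    rw [← sum_Ico_range (-(N : ℤ)) (2 * N) (fun n => ch (n : ℝ) x • cf (hj v N j) N n)]
    unfold trig
    rw [Finsupp.sum_of_support_subset (s := Finset.Ico (-(N : ℤ)) (-N + (2 * N : ℕ)))]
    · intro n hn
      rw [Finset.mem_Ico]
      by_contra hcon
      apply Finsupp.mem_support_iff.1 hn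
      apply cf_out _ _ hN
      omega
    · intro n _
      rw [smul_zero]
  unfold DI md
  rw [h1, Finset.smul_sum]
  apply Finset.sum_congr rfl
  intro t ht
  rw [Finset.mem_range] at ht
  rw [hco t ht, smul_smul]
  congr 1
  have e : ((2 * N * j - N + t : ℤ) : ℝ) = ((2 * N * j : ℤ) : ℝ) + ((-N + t : ℤ) : ℝ) := by
    push_cast
    ring
  rw [e, ch_add]

theorem hj_ge (v : X) {N : ℕ} (hN : 0 < N) {j : ℕ} (hjN : j < N) {x : ℝ}
    (hx : x ∈ Ioc ((j : ℝ) / N) (j / N + 1 / (2 * N))) :
    ENNReal.ofReal (‖v‖ / 32) ≤ ‖trig (cf (hj v N j) N) x‖ₑ := by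
  have hN' : (0:ℝ) < N := by exact_mod_cast hN
  have hj' : (j : ℝ) + 1 ≤ N := by exact_mod_cast hjN
  rw [trig_cf (hj_BM v N j)]
  have e1 : TK (Fj N) (hj v N j) x = ((∫ y, (Aj N j).indicator (fun y => fr N (x - y)) y ∂m1 : ℝ) : ℂ) • v := by
    unfold TK
    rw [← integral_complex_ofReal, ← integral_smul_const]
    apply integral_congr_ae
    refine Eventually.of_forall fun y => ?_
    simp only
    unfold hj
    by_cases hy : y ∈ Aj N j
    · rw [indicator_of_mem hy, indicator_of_mem hy, Fj_eq hN]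
      rfl
    · rw [indicator_of_notMem hy, indicator_of_notMem hy, smul_zero, Complex.ofReal_zero, zero_smul]
  have hfc : Continuous fun y => fr N (x - y) := (fr_cont N).comp (continuous_const.sub continuous_id)
  have hfi : Integrable (fun y => fr N (x - y)) m1 := by
    have : IntegrableOn (fun y => fr N (x - y)) (Ioc 0 1) volume :=
      (hfc.continuousOn.integrableOn_compact isCompact_Icc).mono_set Ioc_subset_Icc_self
    exact this
  have hsub : Ioc x (x + 1 / (8 * N)) ⊆ Aj N j := by
    intro y hy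
    refine ⟨hx.1.trans hy.1, hy.2.trans ?_⟩
    have h1 := hx.2
    calc x + 1 / (8 * N) ≤ j / N + 1 / (2 * N) + 1 / (8 * N) := by linarith
      _ ≤ (j + 1) / N := by
          rw [div_add_div _ _ hN'.ne' (by positivity), div_add_div _ _ (by positivity) (by positivity),
            div_le_div_iff₀ (by positivity) (by positivity)]
          nlinarith [pow_pos hN' 3]
  have hsub1 : Ioc x (x + 1 / (8 * N)) ⊆ Ioc 0 1 := by
    intro y hy
    have h1 := hsub hy
    have h2 := h1.1
    have h3 := h1.2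
    constructor
    · have : (0:ℝ) ≤ j / N := by positivity
      linarith
    · rw [le_div_iff₀ hN'] at h3
      nlinarith
  have e2 : 1 / 32 ≤ ∫ y, (Aj N j).indicator (fun y => fr N (x - y)) y ∂m1 := by
    calc (1 / 32 : ℝ) = ∫ y, (Ioc x (x + 1 / (8 * N))).indicator (fun _ => (N : ℝ) / 4) y ∂m1 := by
          rw [integral_indicator_const _ measurableSet_Ioc, measureReal_restrict_apply measurableSet_Ioc,
            inter_eq_left.2 hsub1, Real.volume_real_Ioc, smul_eq_mul, max_eq_left (by
              have : (0:ℝ) < 1 / (8 * N) := by positivity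
              linarith)]
          field_simp
          ring
      _ ≤ _ := by
          apply integral_mono
          · exact (integrable_const _).indicator measurableSet_Ioc
          · exact hfi.indicator measurableSet_Ioc
          · intro y
            simp only
            by_cases hy : y ∈ Ioc x (x + 1 / (8 * N))
            · rw [indicator_of_mem hy, indicator_of_mem (hsub hy)]
              apply fr_ge hN
              rw [abs_sub_comm, abs_of_nonneg (by linarith [hy.1])]
              linarith [hy.2]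
            · rw [indicator_of_notMem hy]
              apply indicator_nonneg
              intro z _
              exact fr_nonneg _ _
  rw [e1, ← ofReal_norm, norm_smul, Complex.norm_real]
  apply ENNReal.ofReal_le_ofReal
  have h3 := le_abs_self (∫ y, (Aj N j).indicator (fun y => fr N (x - y)) y ∂m1)
  rw [← Real.norm_eq_abs] at h3
  have := norm_nonneg v
  nlinarith

theorem hj_Nn (v : X) {N : ℕ} (hN : 0 < N) {j : ℕ} (hjN : j < N) {p : ℝ} (hp : 0 < p) :
    ENNReal.ofReal (‖v‖ / 32 * (1 / (2 * N)) ^ (1 / p)) ≤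
      Nn p (md ((2 * N * j : ℤ) : ℝ) (trig (cf (hj v N j) N))) := by
  have hN' : (0:ℝ) < N := by exact_mod_cast hN
  have hj' : (j : ℝ) + 1 ≤ N := by exact_mod_cast hjN
  have hsub1 : Ioc ((j : ℝ) / N) (j / N + 1 / (2 * N)) ⊆ Ioc 0 1 := by
    intro y hy
    constructor
    · have : (0:ℝ) ≤ j / N := by positivity
      linarith [hy.1]
    · refine hy.2.trans ?_
      rw [div_add_div _ _ hN'.ne' (by positivity), div_le_one (by positivity)]
      nlinarith
  unfold Nn
  have h1 : ENNReal.ofReal (‖v‖ / 32) ^ p * ENNReal.ofReal (1 / (2 * N)) ≤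
      Np p (md ((2 * N * j : ℤ) : ℝ) (trig (cf (hj v N j) N))) := by
    unfold Np
    simp_rw [md_enorm]
    calc ENNReal.ofReal (‖v‖ / 32) ^ p * ENNReal.ofReal (1 / (2 * N)) =
          ∫⁻ x in Ioc ((j : ℝ) / N) (j / N + 1 / (2 * N)), ENNReal.ofReal (‖v‖ / 32) ^ p := by
          rw [setLIntegral_const, Real.volume_Ioc]
          congr 2
          ring
      _ ≤ ∫⁻ x in Ioc ((j : ℝ) / N) (j / N + 1 / (2 * N)), ‖trig (cf (hj v N j) N) x‖ₑ ^ p := by
          apply setLIntegral_mono' measurableSet_Ioc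
          intro x hx
          exact ENNReal.rpow_le_rpow (hj_ge v hN hjN hx) hp.le
      _ ≤ _ := lintegral_mono_set hsub1
  calc ENNReal.ofReal (‖v‖ / 32 * (1 / (2 * N)) ^ (1 / p)) =
        (ENNReal.ofReal (‖v‖ / 32) ^ p * ENNReal.ofReal (1 / (2 * N))) ^ (1 / p) := by
        rw [ENNReal.mul_rpow_of_nonneg _ _ (by positivity), ← ENNReal.rpow_mul,
          mul_one_div_cancel hp.ne', ENNReal.rpow_one, ENNReal.ofReal_mul (by positivity),
          ENNReal.ofReal_rpow_of_pos (x := 1 / (2 * (N : ℝ))) (by positivity)]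
    _ ≤ _ := ENNReal.rpow_le_rpow h1 (by positivity)

/-- lower decompositions of a nonzero space need `p ≤ q` -/
theorem p_le_q {p q L : ℝ} (hp : 1 < p) (hq : 0 < q) (hL0 : 0 ≤ L) (hL : LowL X p q L) {v : X}
    (hv : v ≠ 0) : p ≤ q := by
  have hp0 : 0 < p := by linarith
  have hv0 : 0 < ‖v‖ := norm_pos_iff.2 hv
  by_contra hcon
  rw [not_le] at hcon
  have hqp : 0 < 1 - q / p := by
    rw [sub_pos, div_lt_one hp0]
    exact hcon
  have key : ∀ N : ℕ, 0 < N → (N : ℝ) ^ (1 - q / p) ≤ (32 * L) ^ q * 2 ^ (q / p) := by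
    intro N hN
    have hN' : (0:ℝ) < N := by exact_mod_cast hN
    have h1 := low_BM hp hq hL (Finset.range N) (fun j => 2 * N * j - N) (fun _ => 2 * N) (by
      intro i _ j _ hij
      rw [Set.disjoint_left]
      intro x hx hx2
      have h1 := hx.1
      have h2 := hx.2
      have h3 := hx2.1
      have h4 := hx2.2
      push_cast at h2 h4
      rcases lt_or_gt_of_ne hij with h | h
      · have h1 : (i : ℤ) + 1 ≤ j := by exact_mod_cast h
        have h2 : (2 * N : ℤ) * (i + 1) ≤ 2 * N * j := by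
          apply mul_le_mul_of_nonneg_left h1
          positivity
        have h3 : (2 * N : ℤ) * (i + 1) = 2 * N * i + 2 * N := by ring
        omega
      · have h1 : (j : ℤ) + 1 ≤ i := by exact_mod_cast h
        have h2 : (2 * N : ℤ) * (j + 1) ≤ 2 * N * i := by
          apply mul_le_mul_of_nonneg_left h1
          positivity
        have h3 : (2 * N : ℤ) * (j + 1) = 2 * N * j + 2 * N := by ring
        omega) (gx_BM v N)
    have h2 : ∑ j ∈ Finset.range N, ENNReal.ofReal (‖v‖ / 32 * (1 / (2 * N)) ^ (1 / p)) ^ q ≤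
        (ENNReal.ofReal L * ‖v‖ₑ) ^ q := by
      calc _ ≤ ∑ j ∈ Finset.range N, Nn p (DI (2 * N * j - N) (2 * N) (gx v N)) ^ q := by
            apply Finset.sum_le_sum
            intro j hj
            rw [Finset.mem_range] at hj
            rw [gx_DI v hN hj]
            exact ENNReal.rpow_le_rpow (hj_Nn v hN hj hp0) hq.le
        _ ≤ _ := h1
        _ ≤ _ := by
            apply ENNReal.rpow_le_rpow _ hq.le
            gcongr
            exact Nn_const_le hp0 fun x _ => gx_le v hN x
    rw [Finset.sum_const, Finset.card_range, nsmul_eq_mul, ← ofReal_norm,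
      ← ENNReal.ofReal_mul hL0, ENNReal.ofReal_rpow_of_nonneg (by positivity) hq.le,
      ENNReal.ofReal_rpow_of_nonneg (by positivity) hq.le, ← ENNReal.ofReal_natCast,
      ← ENNReal.ofReal_mul hN'.le] at h2
    have h3 := (ENNReal.ofReal_le_ofReal_iff (by positivity)).1 h2
    rw [Real.mul_rpow (by positivity) (by positivity), Real.mul_rpow hL0 hv0.le,
      Real.div_rpow hv0.le (by norm_num), ← Real.rpow_mul (by positivity)] at h3
    have e1 : 1 / p * q = q / p := by ring
    rw [e1, Real.div_rpow (by norm_num) (by positivity), Real.one_rpow,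
      Real.mul_rpow (by norm_num) hN'.le] at h3
    rw [Real.rpow_sub hN', Real.rpow_one, Real.mul_rpow (by norm_num) hL0]
    have hvq : 0 < ‖v‖ ^ q := Real.rpow_pos_of_pos hv0 _
    have h32 : (0:ℝ) < 32 ^ q := Real.rpow_pos_of_pos (by norm_num) _
    have h2q : (0:ℝ) < 2 ^ (q / p) := Real.rpow_pos_of_pos (by norm_num) _
    have hNq : (0:ℝ) < (N : ℝ) ^ (q / p) := Real.rpow_pos_of_pos hN' _
    have e2 : (N : ℝ) * (‖v‖ ^ q / 32 ^ q * (1 / (2 ^ (q / p) * (N : ℝ) ^ (q / p)))) =
        (‖v‖ ^ q / (32 ^ q * 2 ^ (q / p))) * (N / (N : ℝ) ^ (q / p)) := by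
      field_simp
    rw [e2] at h3
    have e3 : L ^ q * ‖v‖ ^ q = (‖v‖ ^ q / (32 ^ q * 2 ^ (q / p))) * (32 ^ q * L ^ q * 2 ^ (q / p)) := by
      field_simp
    rw [e3] at h3
    exact le_of_mul_le_mul_left h3 (by positivity)
  have h1 : Tendsto (fun N : ℕ => (N : ℝ) ^ (1 - q / p)) atTop atTop :=
    (tendsto_rpow_atTop hqp).comp tendsto_natCast_atTop_atTop
  obtain ⟨N, hN1, hN2⟩ := ((h1.eventually_gt_atTop ((32 * L) ^ q * 2 ^ (q / p))).and
    (eventually_gt_atTop 0)).exists
  exact absurd (key N hN2) (not_le.2 hN1)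

/-- **sharp extrapolation of lower decompositions, with constants** -/
theorem LowL_extrap {p q r : ℝ} (hp : 1 < p) (hq : 1 < q) (hr : 1 < r) {L : ℝ} (hL0 : 0 ≤ L)
    (hL : LowL X p q L) : ∃ C' : ℝ, 0 < C' ∧ LowL X r (q / theta p r) C' := by
  have hp0 : 0 < p := by linarith
  have hr0 : 0 < r := by linarith
  have hq0 : 0 < q := by linarith
  have hθ := theta_pos hp hr
  have hs0 : 0 < q / theta p r := by positivity
  by_cases hX : ∃ v : X, v ≠ 0
  · obtain ⟨v, hv⟩ := hX
    have hpq := p_le_q hp hq0 hL0 hL hv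
    obtain ⟨C', hC'0, h⟩ := low_r hp hr hpq hL0 hL
    refine ⟨C' + 1, by positivity, ?_⟩
    apply low_of_fin hr0 hs0
    intro S a l hl hd f hf hfc
    refine (h S a l hl hd f hf hfc).trans ?_
    apply ENNReal.rpow_le_rpow _ hs0.le
    gcongr
    linarith
  · push Not at hX
    refine ⟨1, one_pos, ?_⟩
    intro J _ c
    have h0 : ∀ i, nT (ENNReal.ofReal r) (DT (J i) c) = 0 := by
      intro i
      have : DT (J i) c = fun _ => 0 := by
        funext x
        exact hX _
      rw [nT_eq hr0, this]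
      unfold Nn Np
      simp only [enorm_zero]
      rw [ENNReal.zero_rpow_of_pos hr0, lintegral_zero, ENNReal.zero_rpow_of_pos (by positivity)]
    unfold lq
    rw [if_neg ENNReal.ofReal_ne_top, ENNReal.toReal_ofReal hs0.le]
    simp_rw [h0]
    rw [ENNReal.zero_rpow_of_pos hs0, tsum_zero, ENNReal.zero_rpow_of_pos (by positivity)]
    exact zero_le

/-- **sharp extrapolation of lower decompositions** -/
theorem lower_extrap {p q r : ℝ} (hp : 1 < p) (hq : 1 < q) (hr : 1 < r)
    (h : LowerT X (ENNReal.ofReal p) (ENNReal.ofReal q)) :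
    LowerT X (ENNReal.ofReal r) (ENNReal.ofReal (q / theta p r)) := by
  obtain ⟨L, hL0, hL⟩ := h
  exact LowL_extrap hp hq hr hL0.le hL

end

end Pool.Agent.K7.H81.FD
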