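import Pool.Agent.K7.H81.FO

set_option autoImplicit false
set_option linter.unusedSectionVars false
set_option linter.unusedVariables false

/-!
# Duality
-/

namespace Pool.Agent.K7.H81.FD

open MeasureTheory Set Filter Topology Pool.Agent.R955.FD
open scoped ENNReal

universe u v

section
variable {E : Type u} [NormedAddCommGroup E] [NormedSpace ℂ E] [CompleteSpace E]
  {F : Type v} [NormedAddCommGroup F] [NormedSpace ℂ F] [CompleteSpace F]

/-- a norming pairing -/
structure Prg (B : E →L[ℂ] F →L[ℂ] ℂ) : Prop where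
  le : ∀ e f, ‖B e f‖ ≤ ‖e‖ * ‖f‖
  norming : ∀ (e : E) (η : ℝ), 0 < η → η < 1 → ∃ f : F, ‖f‖ ≤ 1 ∧ ∃ t : ℝ, η * ‖e‖ ≤ t ∧ B e f = t

/-- conjugate exponent -/
noncomputable def cj (p : ℝ) : ℝ := p / (p - 1)

theorem cj_gt {p : ℝ} (hp : 1 < p) : 1 < cj p := by
  unfold cj
  rw [lt_div_iff₀ (by linarith)]
  linarith

theorem cj_cj {p : ℝ} (hp : 1 < p) : cj (cj p) = p := by
  unfold cj
  have : p - 1 ≠ 0 := by linarith
  field_simp
  ring

theorem cj_hold {p : ℝ} (hp : 1 < p) : p.HolderConjugate (cj p) := by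
  rw [Real.holderConjugate_iff]
  refine ⟨hp, ?_⟩
  unfold cj
  have h1 : p - 1 ≠ 0 := by linarith
  have h2 : p ≠ 0 := by linarith
  field_simp
  ring

theorem pair_BM {B : E →L[ℂ] F →L[ℂ] ℂ} (hB : Prg B) {f : ℝ → E} {g : ℝ → F} (hf : BM f)
    (hg : BM g) : BM (fun x => B (f x) (g x)) := by
  obtain ⟨M, hM⟩ := hf.2
  obtain ⟨N, hN⟩ := hg.2
  refine ⟨?_, M * N, fun x => (hB.le _ _).trans ?_⟩
  · have h1 : Continuous fun z : E × F => B z.1 z.2 :=
      (B.continuous.comp continuous_fst).clm_apply continuous_snd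
    exact h1.comp_stronglyMeasurable (hf.1.prodMk hg.1)
  · exact mul_le_mul (hM x) (hN x) (norm_nonneg _) ((norm_nonneg _).trans (hM x))

/-- the pairing of functions -/
noncomputable def pr (B : E →L[ℂ] F →L[ℂ] ℂ) (f : ℝ → E) (g : ℝ → F) : ℂ := ∫ y, B (f y) (g y) ∂m1

theorem pr_add_left {B : E →L[ℂ] F →L[ℂ] ℂ} (hB : Prg B) {f f' : ℝ → E} {g : ℝ → F} (hf : BM f)
    (hf' : BM f') (hg : BM g) : pr B (fun x => f x + f' x) g = pr B f g + pr B f' g := by
  unfold pr
  rw [← integral_add (pair_BM hB hf hg).integrable (pair_BM hB hf' hg).integrable]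
  simp_rw [map_add, ContinuousLinearMap.add_apply]

theorem pr_sum_left {B : E →L[ℂ] F →L[ℂ] ℂ} (hB : Prg B) {ι : Type*} (S : Finset ι)
    {f : ι → ℝ → E} {g : ℝ → F} (hf : ∀ i ∈ S, BM (f i)) (hg : BM g) :
    pr B (fun x => ∑ i ∈ S, f i x) g = ∑ i ∈ S, pr B (f i) g := by
  unfold pr
  rw [← integral_finsetSum _ fun i hi => (pair_BM hB (hf i hi) hg).integrable]
  simp_rw [map_sum, ContinuousLinearMap.sum_apply]

theorem pr_sum_right {B : E →L[ℂ] F →L[ℂ] ℂ} (hB : Prg B) {ι : Type*} (S : Finset ι)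
    {f : ℝ → E} {g : ι → ℝ → F} (hf : BM f) (hg : ∀ i ∈ S, BM (g i)) :
    pr B f (fun x => ∑ i ∈ S, g i x) = ∑ i ∈ S, pr B f (g i) := by
  unfold pr
  rw [← integral_finsetSum _ fun i hi => (pair_BM hB hf (hg i hi)).integrable]
  simp_rw [map_sum]

theorem pr_smul_right {B : E →L[ℂ] F →L[ℂ] ℂ} (c : ℂ) (f : ℝ → E) (g : ℝ → F) :
    pr B f (fun x => c • g x) = c * pr B f g := by
  unfold pr
  simp_rw [map_smul, smul_eq_mul]
  rw [integral_const_mul]

theorem pr_smul_left {B : E →L[ℂ] F →L[ℂ] ℂ} (c : ℂ) (f : ℝ → E) (g : ℝ → F) :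
    pr B (fun x => c • f x) g = c * pr B f g := by
  unfold pr
  simp_rw [map_smul, ContinuousLinearMap.smul_apply, smul_eq_mul]
  rw [integral_const_mul]

theorem pr_le_lint {B : E →L[ℂ] F →L[ℂ] ℂ} (hB : Prg B) (f : ℝ → E) (g : ℝ → F) :
    ‖pr B f g‖ₑ ≤ ∫⁻ y, ‖f y‖ₑ * ‖g y‖ₑ ∂m1 := by
  unfold pr
  refine (enorm_integral_le_lintegral_enorm _).trans (lintegral_mono fun y => ?_)
  rw [← ofReal_norm, ← ofReal_norm, ← ofReal_norm, ← ENNReal.ofReal_mul (norm_nonneg _)]
  exact ENNReal.ofReal_le_ofReal (hB.le _ _)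

/-- Hölder's inequality -/
theorem pr_hold {B : E →L[ℂ] F →L[ℂ] ℂ} (hB : Prg B) {p : ℝ} (hp : 1 < p) {f : ℝ → E} {g : ℝ → F}
    (hf : BM f) (hg : BM g) : ‖pr B f g‖ₑ ≤ Nn p f * Nn (cj p) g := by
  refine (pr_le_lint hB f g).trans ?_
  have h1 := ENNReal.lintegral_mul_le_Lp_mul_Lq m1 (cj_hold hp) (f := fun y => ‖f y‖ₑ)
    (g := fun y => ‖g y‖ₑ) hf.1.enorm.aemeasurable hg.1.enorm.aemeasurable
  exact h1

/-- norming functions -/
theorem nrm1 {B : E →L[ℂ] F →L[ℂ] ℂ} (hB : Prg B) {p : ℝ} (hp : 1 < p) {u : ℝ → E} (hu : BM u)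
    (huc : Continuous u) {M : ℝ≥0∞}
    (h : ∀ g : ℝ → F, BM g → ‖pr B u g‖ₑ ≤ M * Nn (cj p) g) : Nn p u ≤ M := by
  have hp0 : 0 < p := by linarith
  have hp1 : 0 < p - 1 := by linarith
  have hq1 := cj_gt hp
  have hq0 : 0 < cj p := by linarith
  rcases eq_or_ne M ∞ with rfl | hMt
  · exact le_top
  -- for each step approximation
  have hstep : ∀ η : ℝ, 0 < η → η < 1 → ∀ N : ℕ,
      ENNReal.ofReal η * Nn p (sa u N) ≤ M + sd u N := by
    intro η hη0 hη1 N
    choose σ hσ1 τ hσ2 hσ3 using fun e : E => hB.norming e η hη0 hη1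
    set w := sa u N with hw
    have hwB : BM w := sa_BM hu N
    set g : ℝ → F := fun x => ((‖w x‖ ^ (p - 1) : ℝ) : ℂ) • σ (w x) with hg
    have hgB : BM g := by
      refine ⟨?_, ?_⟩
      · have h1 : StronglyMeasurable fun n : ℤ =>
            ((‖u ((n : ℝ) / 2 ^ N)‖ ^ (p - 1) : ℝ) : ℂ) • σ (u ((n : ℝ) / 2 ^ N)) :=
          StronglyMeasurable.of_discrete
        have h2 : Measurable fun x : ℝ => ⌈x * 2 ^ N⌉ := Int.measurable_ceil.comp (by fun_prop)
        exact h1.comp_measurable h2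
      · obtain ⟨K, hK⟩ := hwB.2
        refine ⟨K ^ (p - 1) * 1, fun x => ?_⟩
        rw [hg]
        simp only
        rw [norm_smul, Complex.norm_real, Real.norm_of_nonneg (by positivity)]
        apply mul_le_mul _ (hσ1 _) (norm_nonneg _)
        · exact Real.rpow_nonneg ((norm_nonneg _).trans (hK 0)) _
        · exact Real.rpow_le_rpow (norm_nonneg _) (hK x) hp1.le
    have hgn : ∀ x, ‖g x‖ₑ ≤ ‖w x‖ₑ ^ (p - 1) := by
      intro x
      rw [hg]
      simp only
      rw [← ofReal_norm, norm_smul, Complex.norm_real, Real.norm_of_nonneg (by positivity),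
        ← ofReal_norm, ENNReal.ofReal_rpow_of_nonneg (norm_nonneg _) hp1.le]
      apply ENNReal.ofReal_le_ofReal
      have := hσ1 (w x)
      have h9 : 0 ≤ ‖w x‖ ^ (p - 1) := by positivity
      nlinarith
    have hNg : Nn (cj p) g ≤ Np p w ^ (1 / cj p) := by
      unfold Nn
      apply ENNReal.rpow_le_rpow _ (by positivity)
      unfold Np
      apply lintegral_mono
      intro x
      simp only
      calc ‖g x‖ₑ ^ cj p ≤ (‖w x‖ₑ ^ (p - 1)) ^ cj p := ENNReal.rpow_le_rpow (hgn x) hq0.le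
        _ = _ := by
            rw [← ENNReal.rpow_mul]
            congr 1
            unfold cj
            field_simp
    -- the pairing with the step function
    have hre : ENNReal.ofReal η * Np p w ≤ ‖pr B w g‖ₑ := by
      have hpt : ∀ x, η * ‖w x‖ ^ p ≤ (B (w x) (g x)).re := by
        intro x
        rw [hg]
        simp only
        rw [map_smul, hσ3, smul_eq_mul, ← Complex.ofReal_mul, Complex.ofReal_re]
        have h1 : ‖w x‖ ^ p = ‖w x‖ ^ (p - 1) * ‖w x‖ := by
          rcases (norm_nonneg (w x)).eq_or_lt with h0 | h0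
          · rw [← h0, mul_zero, Real.zero_rpow hp0.ne']
          · rw [← Real.rpow_add_one h0.ne', sub_add_cancel]
        rw [h1]
        have h2 := hσ2 (w x)
        have h9 : 0 ≤ ‖w x‖ ^ (p - 1) := by positivity
        nlinarith
      have hwp : Integrable (fun x => (‖w x‖ ^ p : ℝ)) m1 := by
        obtain ⟨K, hK⟩ := hwB.2
        refine Integrable.of_bound
          (hwB.1.norm.measurable.pow_const p).stronglyMeasurable.aestronglyMeasurable (K ^ p)
          (Eventually.of_forall fun x => ?_)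
        rw [Real.norm_of_nonneg (by positivity)]
        exact Real.rpow_le_rpow (norm_nonneg _) (hK x) hp0.le
      have h3 : η * ∫ x, ‖w x‖ ^ p ∂m1 ≤ (pr B w g).re := by
        unfold pr
        rw [← integral_const_mul]
        have h4 := integral_re (𝕜 := ℂ) (pair_BM hB hwB hgB).integrable
        have h5 : RCLike.re (∫ y, B (w y) (g y) ∂m1) = (∫ y, B (w y) (g y) ∂m1).re := rfl
        rw [← h5, ← h4]
        apply integral_mono
        · exact hwp.const_mul _
        · exact (pair_BM hB hwB hgB).integrable.re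
        · exact hpt
      have h6 : Np p w = ENNReal.ofReal (∫ x, ‖w x‖ ^ p ∂m1) := by
        rw [ofReal_integral_eq_lintegral_ofReal hwp
          (Eventually.of_forall fun x => by positivity)]
        unfold Np
        apply lintegral_congr
        intro x
        rw [← ofReal_norm, ENNReal.ofReal_rpow_of_nonneg (norm_nonneg _) hp0.le]
      rw [h6, ← ENNReal.ofReal_mul hη0.le, ← ofReal_norm]
      exact ENNReal.ofReal_le_ofReal (h3.trans (Complex.re_le_norm _))
    have hclose : ‖pr B w g‖ₑ ≤ ‖pr B u g‖ₑ + sd u N * Nn (cj p) g := by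
      have e1 : w = fun x => u x + (w x - u x) := by
        funext x
        abel
      have h7 : pr B w g = pr B u g + pr B (fun x => w x - u x) g := by
        conv_lhs => rw [e1]
        exact pr_add_left hB hu (hwB.sub hu) hgB
      rw [h7]
      refine (enorm_add_le _ _).trans (add_le_add le_rfl ?_)
      refine (pr_hold hB hp (hwB.sub hu) hgB).trans ?_
      gcongr
      apply Nn_const_le hp0
      intro x hx
      rw [← enorm_neg, neg_sub]
      exact sa_close u N hx
    have h8 : ENNReal.ofReal η * Np p w ≤ (M + sd u N) * Np p w ^ (1 / cj p) := by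
      calc ENNReal.ofReal η * Np p w ≤ ‖pr B u g‖ₑ + sd u N * Nn (cj p) g := hre.trans hclose
        _ ≤ M * Nn (cj p) g + sd u N * Nn (cj p) g := by
            gcongr
            exact h g hgB
        _ = (M + sd u N) * Nn (cj p) g := by ring
        _ ≤ _ := by gcongr
    have hwt : Np p w ≠ ∞ := (Np_lt_top hp0.le hwB).ne
    rcases eq_or_ne (Np p w) 0 with h0 | h0
    · unfold Nn
      rw [h0, ENNReal.zero_rpow_of_pos (by positivity), mul_zero]
      exact zero_le
    · have h9 : Np p w = Nn p w * Np p w ^ (1 / cj p) := by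
        unfold Nn
        rw [← ENNReal.rpow_add _ _ h0 hwt]
        have : 1 / p + 1 / cj p = 1 := by
          unfold cj
          field_simp
          ring
        rw [this, ENNReal.rpow_one]
      have h10 : Np p w ^ (1 / cj p) ≠ 0 := by
        rw [Ne, ENNReal.rpow_eq_zero_iff]
        rintro (⟨h, _⟩ | ⟨h, _⟩)
        · exact h0 h
        · exact hwt h
      have h11 : Np p w ^ (1 / cj p) ≠ ∞ := ENNReal.rpow_ne_top_of_nonneg (by positivity) hwt
      rw [h9, ← mul_assoc] at h8
      have h12 : Nn p w * Np p w ^ (1 / cj p) = Np p w := h9.symm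
      rw [h12] at h8
      exact (ENNReal.mul_le_mul_iff_left h10 h11).1 h8
  -- limits
  have h2 : ∀ η : ℝ, 0 < η → η < 1 → ENNReal.ofReal η * Nn p u ≤ M := by
    intro η hη0 hη1
    have h3 : ∀ N, ENNReal.ofReal η * Nn p u ≤ M + (sd u N + sd u N) := by
      intro N
      calc ENNReal.ofReal η * Nn p u ≤ ENNReal.ofReal η * (Nn p (sa u N) + sd u N) := by
            gcongr
            exact Nn_close hp.le hu.1 (sa_BM hu N).1 fun x hx => sa_close u N hx
        _ = ENNReal.ofReal η * Nn p (sa u N) + ENNReal.ofReal η * sd u N := mul_add _ _ _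
        _ ≤ (M + sd u N) + 1 * sd u N := by
            gcongr
            · exact hstep η hη0 hη1 N
            · rw [← ENNReal.ofReal_one]
              exact ENNReal.ofReal_le_ofReal hη1.le
        _ = _ := by ring
    have h4 : Tendsto (fun N => M + (sd u N + sd u N)) atTop (𝓝 (M + (0 + 0))) :=
      tendsto_const_nhds.add ((sd_tendsto huc).add (sd_tendsto huc))
    rw [add_zero, add_zero] at h4
    exact ge_of_tendsto' h4 h3
  have h5 : Tendsto (fun n : ℕ => ENNReal.ofReal (1 - 1 / (n + 2)) * Nn p u) atTop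
      (𝓝 (ENNReal.ofReal (1 - 0) * Nn p u)) := by
    apply ENNReal.Tendsto.mul_const
    · apply ENNReal.tendsto_ofReal
      apply tendsto_const_nhds.sub
      have h6 := tendsto_one_div_add_atTop_nhds_zero_nat (𝕜 := ℝ)
      have h7 := h6.comp (tendsto_add_atTop_nat 1)
      refine h7.congr fun n => ?_
      simp only [Function.comp_apply]
      push_cast
      congr 1
      ring
    · left
      rw [sub_zero, ENNReal.ofReal_one]
      exact one_ne_zero
  rw [sub_zero, ENNReal.ofReal_one, one_mul] at h5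
  apply le_of_tendsto' h5
  intro n
  apply h2
  · have : (0:ℝ) < (n:ℝ) + 2 := by positivity
    rw [sub_pos, div_lt_one this]
    linarith
  · have : (0:ℝ) < 1 / ((n:ℝ) + 2) := by positivity
    linarith

/-- existence of norming functions -/
theorem nrm2 {B : E →L[ℂ] F →L[ℂ] ℂ} (hB : Prg B) {p : ℝ} (hp : 1 < p) {u : ℝ → E} (hu : BM u)
    (huc : Continuous u) {η : ℝ} (hη0 : 0 < η) (hη1 : η < 1) :
    ∃ g : ℝ → F, BM g ∧ Nn (cj p) g ≤ 1 ∧ ∃ t : ℝ, 0 ≤ t ∧ pr B u g = t ∧
      ENNReal.ofReal η * Nn p u ≤ ENNReal.ofReal t := by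
  have hp0 : 0 < p := by linarith
  have hq1 := cj_gt hp
  have hq0 : 0 < cj p := by linarith
  have hut : Nn p u ≠ ∞ := by
    unfold Nn
    exact ENNReal.rpow_ne_top_of_nonneg (by positivity) (Np_lt_top hp0.le hu).ne
  rcases eq_or_ne (Nn p u) 0 with h0 | h0
  · refine ⟨fun _ => 0, BM.const 0, ?_, 0, le_rfl, ?_, ?_⟩
    · refine (Nn_const_le hq0 (δ := 0) fun x _ => ?_).trans zero_le
      simp
    · unfold pr
      simp
    · rw [h0, mul_zero]
      exact zero_le
  by_contra hcon
  have h1 : Nn p u ≤ ENNReal.ofReal η * Nn p u := by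
    apply nrm1 hB hp hu huc
    intro g hg
    by_contra hlt
    rw [not_le] at hlt
    have hgt : Nn (cj p) g ≠ ∞ := by
      unfold Nn
      exact ENNReal.rpow_ne_top_of_nonneg (by positivity) (Np_lt_top hq0.le hg).ne
    have hg0 : Nn (cj p) g ≠ 0 := by
      intro hg0
      have h2 := pr_hold hB hp hu hg
      rw [hg0, mul_zero] at h2 hlt
      exact absurd hlt (not_lt.2 h2)
    set z := pr B u g with hz
    have hz0 : z ≠ 0 := by
      intro h
      rw [h, enorm_zero] at hlt
      exact absurd hlt (not_lt.2 zero_le)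
    have hzn : 0 < ‖z‖ := norm_pos_iff.2 hz0
    set G := (Nn (cj p) g).toReal with hG
    have hG0 : 0 < G := ENNReal.toReal_pos hg0 hgt
    have eG : Nn (cj p) g = ENNReal.ofReal G := (ENNReal.ofReal_toReal hgt).symm
    set c : ℂ := (starRingEnd ℂ z / ‖z‖) * ((1 / G : ℝ) : ℂ) with hc
    have hcn : ‖c‖ = 1 / G := by
      rw [hc, norm_mul, norm_div, RCLike.norm_conj, Complex.norm_real, Complex.norm_real,
        Real.norm_of_nonneg hzn.le, div_self hzn.ne', one_mul, Real.norm_of_nonneg (by positivity)]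
    apply hcon
    refine ⟨fun x => c • g x, hg.smul (k := fun _ => c) continuous_const (fun _ => le_rfl), ?_,
      ‖z‖ / G, by positivity, ?_, ?_⟩
    · rw [Nn_smul hq0, eG, ← ofReal_norm, hcn, ← ENNReal.ofReal_mul (by positivity),
        one_div_mul_cancel hG0.ne', ENNReal.ofReal_one]
    · rw [pr_smul_right, ← hz, hc]
      have h3 : starRingEnd ℂ z * z = ((‖z‖ ^ 2 : ℝ) : ℂ) := by
        rw [mul_comm, Complex.mul_conj, Complex.normSq_eq_norm_sq]
      have h4 : (‖z‖ : ℂ) ≠ 0 := by exact_mod_cast hzn.ne'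
      have h5 : (G : ℂ) ≠ 0 := by exact_mod_cast hG0.ne'
      push_cast at h3 ⊢
      field_simp
      linear_combination h3
    · rw [← ofReal_norm, eG] at hlt
      have hlt' := hlt.le
      have h6 : ENNReal.ofReal (‖z‖ / G) = ENNReal.ofReal ‖z‖ / ENNReal.ofReal G :=
        ENNReal.ofReal_div_of_pos hG0
      rw [h6]
      rw [ENNReal.le_div_iff_mul_le (Or.inl (by
        rw [Ne, ENNReal.ofReal_eq_zero, not_le]; exact hG0)) (Or.inl ENNReal.ofReal_ne_top)]
      exact hlt'
  have h2 : ENNReal.ofReal η * Nn p u < Nn p u := by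
    calc ENNReal.ofReal η * Nn p u < 1 * Nn p u := by
          apply ENNReal.mul_lt_mul_left h0 hut
          rw [← ENNReal.ofReal_one]
          exact (ENNReal.ofReal_lt_ofReal_iff one_pos).2 hη1
      _ = _ := one_mul _
  exact absurd h1 (not_le.2 h2)

/-- the pairing of a partial sum -/
theorem pr_DI {B : E →L[ℂ] F →L[ℂ] ℂ} (hB : Prg B) {f : ℝ → E} {g : ℝ → F} (hf : BM f) (hg : BM g)
    (a : ℤ) (l : ℕ) : pr B (DI a l f) g = pr B f (DI (-(a + l) + 1) l g) := by
  have h1 : ∀ (n : ℤ) (x : E), pr B (fun y => ch (n : ℝ) y • x) g = B x (co g (-n)) := by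
    intro n x
    unfold pr co
    rw [← ContinuousLinearMap.integral_comp_comm (B x) (ch_smul_BM _ hg).integrable]
    apply integral_congr_ae
    refine Eventually.of_forall fun y => ?_
    simp only
    rw [map_smul, map_smul, ContinuousLinearMap.smul_apply, Int.cast_neg, neg_neg]
  have h2 : ∀ (n : ℤ) (x : F), pr B f (fun y => ch (n : ℝ) y • x) = B (co f (-n)) x := by
    intro n x
    unfold pr co
    have h3 := ContinuousLinearMap.integral_comp_comm (B.flip x) (ch_smul_BM (-((-n : ℤ) : ℝ)) hf).integrable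
    simp only [ContinuousLinearMap.flip_apply] at h3
    rw [← h3]
    apply integral_congr_ae
    refine Eventually.of_forall fun y => ?_
    simp only
    rw [map_smul, map_smul, ContinuousLinearMap.smul_apply, Int.cast_neg, neg_neg]
  have e1 : pr B (DI a l f) g = ∑ j ∈ Finset.range l, B (co f (a + j)) (co g (-(a + j))) := by
    unfold DI
    rw [pr_sum_left hB _ (fun n _ => ch_const_BM _ _) hg]
    exact Finset.sum_congr rfl fun j _ => h1 _ _
  have e2 : pr B f (DI (-(a + l) + 1) l g) = ∑ j ∈ Finset.range l,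
      B (co f (-(-(a + l) + 1 + j))) (co g (-(a + l) + 1 + j)) := by
    unfold DI
    rw [pr_sum_right hB _ hf (fun n _ => ch_const_BM _ _)]
    exact Finset.sum_congr rfl fun j _ => h2 _ _
  rw [e1, e2, ← Finset.sum_range_reflect]
  apply Finset.sum_congr rfl
  intro j hj
  rw [Finset.mem_range] at hj
  have e3 : a + ((l - 1 - j : ℕ) : ℤ) = -(-(a + l) + 1 + j) := by
    rw [Nat.cast_sub (by omega), Nat.cast_sub (by omega)]
    push_cast
    ring
  rw [e3, neg_neg]

end

/-! ### the pairings of a space with its dual -/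

section
variable (X : Type u) [NormedAddCommGroup X] [NormedSpace ℂ X]

/-- the pairing of `X'` and `X` -/
noncomputable def B1 : (StrongDual ℂ X) →L[ℂ] X →L[ℂ] ℂ := ContinuousLinearMap.id ℂ (StrongDual ℂ X)

/-- the pairing of `X` and `X'` -/
noncomputable def B2 : X →L[ℂ] (StrongDual ℂ X) →L[ℂ] ℂ := (B1 X).flip

theorem B1_prg : Prg (B1 X) := by
  refine ⟨fun e f => ContinuousLinearMap.le_opNorm e f, ?_⟩
  intro e η hη0 hη1
  rcases eq_or_ne e 0 with rfl | he
  · exact ⟨0, by simp, 0, by simp, by simp⟩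
  have he0 : 0 < ‖e‖ := norm_pos_iff.2 he
  have h1 : η * ‖e‖ < ‖e‖ := by nlinarith
  obtain ⟨x, hx1, hx2⟩ := ContinuousLinearMap.exists_lt_apply_of_lt_opNorm e h1
  have hex : 0 < ‖e x‖ := lt_of_le_of_lt (by positivity) hx2
  set c : ℂ := starRingEnd ℂ (e x) / ‖e x‖ with hc
  have hcn : ‖c‖ = 1 := by
    rw [hc, norm_div, RCLike.norm_conj, Complex.norm_real, Real.norm_of_nonneg hex.le,
      div_self hex.ne']
  refine ⟨c • x, ?_, ‖e x‖, hx2.le, ?_⟩
  · rw [norm_smul, hcn, one_mul]
    exact hx1.le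
  · show e (c • x) = _
    rw [map_smul, smul_eq_mul, hc]
    have h3 : starRingEnd ℂ (e x) * e x = ((‖e x‖ ^ 2 : ℝ) : ℂ) := by
      rw [mul_comm, Complex.mul_conj, Complex.normSq_eq_norm_sq]
    have h4 : (‖e x‖ : ℂ) ≠ 0 := by exact_mod_cast hex.ne'
    push_cast at h3
    field_simp
    linear_combination h3

theorem B2_prg : Prg (B2 X) := by
  refine ⟨fun e f => ?_, ?_⟩
  · show ‖f e‖ ≤ _
    rw [mul_comm]
    exact ContinuousLinearMap.le_opNorm f e
  · intro e η hη0 hη1
    obtain ⟨f, hf1, hf2⟩ := exists_dual_vector'' ℂ e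
    refine ⟨f, hf1, ‖e‖, ?_, ?_⟩
    · have := norm_nonneg e
      nlinarith
    · show f e = _
      rw [hf2]
      rfl

end

end Pool.Agent.K7.H81.FD
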