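import Pool.Agent.K7.H81.FP

set_option autoImplicit false
set_option linter.unusedSectionVars false
set_option linter.unusedVariables false

/-!
# Duality between upper and lower decompositions
-/

namespace Pool.Agent.K7.H81.FD

open MeasureTheory Set Filter Topology Pool.Agent.R955.FD
open scoped ENNReal

universe u v

/-- extension of a finite disjoint family of intervals to a partition -/
theorem ext_part (S : Finset ℕ) (a : ℕ → ℤ) (l : ℕ → ℕ)
    (hd : ∀ i ∈ S, ∀ j ∈ S, i ≠ j → Disjoint (Set.Ico (a i) (a i + l i)) (Set.Ico (a j) (a j + l j))) :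
    ∃ J : ℕ → Set ℤ, IsIntPart J ∧ (∀ i ∈ S, J (2 * i) = Set.Ico (a i) (a i + l i)) ∧
      ∀ n, (∀ i ∈ S, n ≠ 2 * i) → ∀ i ∈ S, Disjoint (J n) (Set.Ico (a i) (a i + l i)) := by
  classical
  set e := Equiv.intEquivNat.symm with he
  set U : Set ℤ := ⋃ i ∈ S, Set.Ico (a i) (a i + l i) with hU
  set J : ℕ → Set ℤ := fun n => if n % 2 = 0 then
    (if n / 2 ∈ S then Set.Ico (a (n / 2)) (a (n / 2) + l (n / 2)) else ∅) else {e (n / 2)} \ U with hJ
  have hJsub : ∀ n, n % 2 = 0 → J n ⊆ U := by
    intro n hn x hx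
    rw [hJ] at hx
    simp only at hx
    rw [if_pos hn] at hx
    split_ifs at hx with h
    · exact mem_iUnion₂.2 ⟨n / 2, h, hx⟩
    · exact absurd hx (Set.notMem_empty x)
  have hJodd : ∀ n, n % 2 ≠ 0 → J n = {e (n / 2)} \ U := by
    intro n hn
    rw [hJ]
    simp only
    rw [if_neg hn]
  have hJev : ∀ i ∈ S, J (2 * i) = Set.Ico (a i) (a i + l i) := by
    intro i hi
    rw [hJ]
    simp only
    have h1 : 2 * i % 2 = 0 := by omega
    have h2 : 2 * i / 2 = i := by omega
    rw [if_pos h1, h2, if_pos hi]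
  refine ⟨J, ?_, hJev, ?_⟩
  · refine ⟨?_, ?_, ?_⟩
    · intro n
      by_cases hn : n % 2 = 0
      · rw [hJ]
        simp only
        rw [if_pos hn]
        split_ifs
        · exact Set.ordConnected_Ico
        · exact Set.ordConnected_empty
      · rw [hJodd n hn]
        refine ⟨fun x hx y hy z hz => ?_⟩
        have hx1 : x = e (n / 2) := hx.1
        have hy1 : y = e (n / 2) := hy.1
        have hz1 : z = x := le_antisymm (hz.2.trans (by rw [hy1, hx1])) hz.1
        rw [hz1]
        exact hx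
    · intro m n hmn
      by_cases hm : m % 2 = 0
      · by_cases hn : n % 2 = 0
        · rw [hJ]
          simp only
          rw [if_pos hm, if_pos hn]
          split_ifs with h1 h2
          · exact hd _ h1 _ h2 (by omega)
          · exact disjoint_bot_right
          · exact disjoint_bot_left
          · exact disjoint_bot_left
        · rw [hJodd n hn]
          exact Set.disjoint_left.2 fun x hx hx2 => hx2.2 (hJsub m hm hx)
      · by_cases hn : n % 2 = 0
        · rw [hJodd m hm]
          exact Set.disjoint_left.2 fun x hx hx2 => hx.2 (hJsub n hn hx2)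
        · rw [hJodd m hm, hJodd n hn]
          apply Set.disjoint_left.2
          intro x hx hx2
          have h1 : e (m / 2) = e (n / 2) := by rw [← hx.1, ← hx2.1]
          have h2 := e.injective h1
          omega
    · intro x
      by_cases hx : x ∈ U
      · obtain ⟨i, hi, hxi⟩ := mem_iUnion₂.1 hx
        exact ⟨2 * i, by rw [hJev i hi]; exact hxi⟩
      · refine ⟨2 * (e.symm x) + 1, ?_⟩
        rw [hJodd _ (by omega)]
        have h1 : (2 * (e.symm x) + 1) / 2 = e.symm x := by omega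
        rw [h1, Equiv.apply_symm_apply]
        exact ⟨rfl, hx⟩
  · intro n hn i hi
    by_cases h2 : n % 2 = 0
    · rw [hJ]
      simp only
      rw [if_pos h2]
      split_ifs with h3
      · exact absurd (by omega : n = 2 * (n / 2)) (hn _ h3)
      · exact disjoint_bot_left
    · rw [hJodd n h2]
      apply Set.disjoint_left.2
      intro x hx hx2
      exact hx.2 (mem_iUnion₂.2 ⟨i, hi, hx2⟩)

theorem eta_lim {x M : ℝ≥0∞} (h : ∀ η : ℝ, 0 < η → η < 1 → ENNReal.ofReal η * x ≤ M) : x ≤ M := by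
  have h5 : Tendsto (fun n : ℕ => ENNReal.ofReal (1 - 1 / (n + 2)) * x) atTop
      (𝓝 (ENNReal.ofReal (1 - 0) * x)) := by
    apply ENNReal.Tendsto.mul_const
    · apply ENNReal.tendsto_ofReal
      apply tendsto_const_nhds.sub
      have h6 := tendsto_one_div_add_atTop_nhds_zero_nat (𝕜 := ℝ)
      have h7 := h6.comp (tendsto_add_atTop_nat 1)
      refine h7.congr fun n => ?_
      simp only [Function.comp_apply]
      push_cast
      congr 1
      ring
    · left
      rw [sub_zero, ENNReal.ofReal_one]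
      exact one_ne_zero
  rw [sub_zero, ENNReal.ofReal_one, one_mul] at h5
  apply le_of_tendsto' h5
  intro n
  apply h
  · have : (0:ℝ) < (n:ℝ) + 2 := by positivity
    rw [sub_pos, div_lt_one this]
    linarith
  · have : (0:ℝ) < 1 / ((n:ℝ) + 2) := by positivity
    linarith

theorem theta_cj {p r : ℝ} (hp : 1 < p) (hr : 1 < r) : theta (cj p) (cj r) = theta p r := by
  unfold theta
  have h1 : cj p / (cj p - 1) = p := cj_cj hp
  have h2 : cj r / (cj r - 1) = r := cj_cj hr
  rw [h1, h2, min_comm]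
  rfl

section
variable {X : Type u} [NormedAddCommGroup X] [NormedSpace ℂ X]

theorem DT_zero {I : Set ℤ} {c : ℤ →₀ X} (h : ∀ n ∈ I, c n = 0) : DT I c = fun _ => 0 := by
  classical
  have : (c.filter fun n => n ∈ I) = 0 := by
    ext n
    by_cases hn : n ∈ I
    · rw [Finsupp.filter_apply_pos _ _ hn, h n hn]
      rfl
    · rw [Finsupp.filter_apply_neg _ _ hn]
      rfl
  funext x
  unfold DT
  have h2 : (c.filter fun n => n ∈ I) = 0 := this
  convert trig_zero (X := X) x

theorem Nn_zero {p : ℝ} (hp : 0 < p) : Nn p (fun _ : ℝ => (0 : X)) = 0 := by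
  unfold Nn Np
  simp only [enorm_zero]
  rw [ENNReal.zero_rpow_of_pos hp, lintegral_zero, ENNReal.zero_rpow_of_pos (by positivity)]

variable [CompleteSpace X]

theorem co_DI_out (a : ℤ) (l : ℕ) (g : ℝ → X) {n : ℤ} (hn : n ∉ Set.Ico a (a + l)) :
    co (DI a l g) n = 0 := by
  unfold DI
  rw [co_sum _ fun n _ => ch_const_BM _ _]
  simp_rw [co_ch]
  apply Finset.sum_eq_zero
  intro j hj
  rw [Finset.mem_range] at hj
  rw [if_neg]
  intro h
  apply hn
  rw [← h]
  constructor <;> omega

theorem co_DI_in (a : ℤ) (l : ℕ) (g : ℝ → X) {n : ℤ} (hn : n ∈ Set.Ico a (a + l)) :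
    co (DI a l g) n = co g n := by
  obtain ⟨h1, h2⟩ := hn
  have e : n = a + ((n - a).toNat : ℤ) := by omega
  rw [e]
  exact co_DI a (by omega) g

/-- upper decompositions with a constant -/
def UppU (X : Type u) [NormedAddCommGroup X] [NormedSpace ℂ X] (p q U : ℝ) : Prop :=
  ∀ J : ℕ → Set ℤ, IsIntPart J → ∀ c : ℤ →₀ X,
    nT (ENNReal.ofReal p) (trig c) ≤
      ENNReal.ofReal U * lq (ENNReal.ofReal q) (fun i => nT (ENNReal.ofReal p) (DT (J i) c))

/-- boundedness of the partial sum operators -/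
def HB (X : Type u) [NormedAddCommGroup X] [NormedSpace ℂ X] [CompleteSpace X] (p Bc : ℝ) : Prop :=
  ∀ (a : ℤ) (l : ℕ) (g : ℝ → X), BM g → Nn p (DI a l g) ≤ ENNReal.ofReal Bc * Nn p g

theorem up_fin {p q U : ℝ} (hp : 1 < p) (hq : 0 < q) (hU : UppU X p q U) (S : Finset ℕ) (a : ℕ → ℤ)
    (l : ℕ → ℕ)
    (hd : ∀ i ∈ S, ∀ j ∈ S, i ≠ j → Disjoint (Set.Ico (a i) (a i + l i)) (Set.Ico (a j) (a j + l j)))
    (f : ℕ → ℝ → X) :
    Nn p (fun x => ∑ i ∈ S, DI (a i) (l i) (f i) x) ≤
      ENNReal.ofReal U * (∑ i ∈ S, Nn p (DI (a i) (l i) (f i)) ^ q) ^ (1 / q) := by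
  classical
  have hp0 : 0 < p := by linarith
  obtain ⟨J, hJ, hJ1, hJ2⟩ := ext_part S a l hd
  set c : ℤ →₀ X := ∑ i ∈ S, ∑ j ∈ Finset.range (l i),
    Finsupp.single (a i + j) (co (f i) (a i + j)) with hc
  have h1 : trig c = fun x => ∑ i ∈ S, DI (a i) (l i) (f i) x := by
    funext x
    rw [hc, trig_sum]
    apply Finset.sum_congr rfl
    intro i _
    rw [trig_sum]
    unfold DI
    apply Finset.sum_congr rfl
    intro j _
    rw [trig_single]
  have hcn : ∀ n, c n = ∑ i ∈ S, co (DI (a i) (l i) (f i)) n := by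
    intro n
    rw [← co_trig c n, h1, co_sum _ fun i _ => DI_BM _ _ _]
  have h2 : ∀ i ∈ S, DT (J (2 * i)) c = DI (a i) (l i) (f i) := by
    intro i hi
    rw [hJ1 i hi]
    funext x
    rw [DT_Ico]
    unfold DI
    apply Finset.sum_congr rfl
    intro j hj
    rw [Finset.mem_range] at hj
    congr 1
    rw [hcn, Finset.sum_eq_single i]
    · exact co_DI _ hj _
    · intro k hk hki
      apply co_DI_out
      intro h
      exact Set.disjoint_left.1 (hd k hk i hi hki) h ⟨by omega, by omega⟩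
    · intro h
      exact absurd hi h
  have h3 : ∀ n, (∀ i ∈ S, n ≠ 2 * i) → DT (J n) c = fun _ => 0 := by
    intro n hn
    apply DT_zero
    intro m hm
    rw [hcn]
    apply Finset.sum_eq_zero
    intro i hi
    apply co_DI_out
    intro h
    exact Set.disjoint_left.1 (hJ2 n hn i hi) hm h
  have h4 := hU J hJ c
  rw [nT_eq hp0, h1] at h4
  refine h4.trans ?_
  unfold lq
  rw [if_neg ENNReal.ofReal_ne_top, ENNReal.toReal_ofReal hq.le]
  gcongr
  apply le_of_eq
  rw [tsum_eq_sum (s := S.map ⟨fun i => 2 * i, fun i j h => by simp only at h; omega⟩)]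
  · rw [Finset.sum_map]
    apply Finset.sum_congr rfl
    intro i hi
    simp only [Function.Embedding.coeFn_mk]
    rw [nT_eq hp0, h2 i hi]
  · intro n hn
    simp only
    rw [h3, nT_eq hp0, Nn_zero hp0, ENNReal.zero_rpow_of_pos hq]
    intro i hi hni
    apply hn
    rw [Finset.mem_map]
    exact ⟨i, hi, hni.symm⟩

/-- upper decompositions of `X` give lower decompositions of the dual -/
theorem up_low {p q U Bc : ℝ} (hp : 1 < p) (hq : 1 < q) (hU0 : 0 ≤ U) (hB0 : 0 ≤ Bc)
    (hU : UppU X p q U) (hB : HB X p Bc) : LowL (StrongDual ℂ X) (cj p) (cj q) (U * Bc) := by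
  have hp0 : 0 < p := by linarith
  have hq0 : 0 < q := by linarith
  have hp1 := cj_gt hp
  have hq1 := cj_gt hq
  have hp1' : 0 < cj p := by linarith
  have hq1' : 0 < cj q := by linarith
  apply low_of_fin hp1' hq1'
  intro S a l hl hd h hh hhc
  have key : (∑ i ∈ S, Nn (cj p) (DI (a i) (l i) h) ^ cj q) ^ (1 / cj q) ≤
      ENNReal.ofReal (U * Bc) * Nn (cj p) h := by
    apply eta_lim
    intro η hη0 hη1
    have hex : ∀ i, ∃ g : ℝ → X, BM g ∧ Nn (cj (cj p)) g ≤ 1 ∧ ∃ t : ℝ, 0 ≤ t ∧
        pr (B1 X) (DI (a i) (l i) h) g = t ∧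
        ENNReal.ofReal η * Nn (cj p) (DI (a i) (l i) h) ≤ ENNReal.ofReal t :=
      fun i => nrm2 (B1_prg X) hp1 (DI_BM _ _ _) (DI_cont _ _ _) hη0 hη1
    choose g hg1 hg2 t ht0 ht1 ht2 using hex
    rw [cj_cj hp] at hg2
    set a' : ℕ → ℤ := fun i => -(a i + l i) + 1 with ha'
    have hd' : ∀ i ∈ S, ∀ j ∈ S, i ≠ j →
        Disjoint (Set.Ico (a' i) (a' i + l i)) (Set.Ico (a' j) (a' j + l j)) := by
      intro i hi j hj hij
      rw [Set.disjoint_left]
      intro x hx hx2
      have h1 : -x ∈ Set.Ico (a i) (a i + l i) := by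
        obtain ⟨u1, u2⟩ := hx
        simp only [ha'] at u1 u2
        constructor <;> omega
      have h2 : -x ∈ Set.Ico (a j) (a j + l j) := by
        obtain ⟨u1, u2⟩ := hx2
        simp only [ha'] at u1 u2
        constructor <;> omega
      exact Set.disjoint_left.1 (hd i hi j hj hij) h1 h2
    set f : ℕ → ℝ → X := fun i x => ((t i ^ (cj q - 1) : ℝ) : ℂ) • g i x with hf
    have hfB : ∀ i, BM (f i) := fun i =>
      (hg1 i).smul (k := fun _ => ((t i ^ (cj q - 1) : ℝ) : ℂ)) continuous_const (fun _ => le_rfl)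
    set T : ℝ := ∑ i ∈ S, t i ^ cj q with hT
    have hT0 : 0 ≤ T := Finset.sum_nonneg fun i _ => Real.rpow_nonneg (ht0 i) _
    have h1 : pr (B1 X) h (fun x => ∑ i ∈ S, DI (a' i) (l i) (f i) x) = (T : ℂ) := by
      rw [pr_sum_right (B1_prg X) _ hh fun i _ => DI_BM _ _ _, hT]
      push_cast
      apply Finset.sum_congr rfl
      intro i _
      rw [← pr_DI (B1_prg X) hh (hfB i), hf]
      simp only
      rw [pr_smul_right, ht1, ← Complex.ofReal_mul]
      congr 1
      rcases (ht0 i).eq_or_lt with h0 | h0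
      · rw [← h0, mul_zero, Real.zero_rpow hq1'.ne']
      · rw [← Real.rpow_add_one h0.ne', sub_add_cancel]
    have h2 : ENNReal.ofReal T ≤ Nn (cj p) h * (ENNReal.ofReal U *
        (ENNReal.ofReal Bc * ENNReal.ofReal T ^ (1 / q))) := by
      have h3 := pr_hold (B1_prg X) hp1 hh (BM.sum S fun i _ => DI_BM (a' i) (l i) (f i))
      rw [h1, cj_cj hp, ← ofReal_norm, Complex.norm_real, Real.norm_of_nonneg hT0] at h3
      refine h3.trans ?_
      gcongr
      refine (up_fin hp hq0 hU S a' l hd' f).trans ?_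
      gcongr
      calc (∑ i ∈ S, Nn p (DI (a' i) (l i) (f i)) ^ q) ^ (1 / q) ≤
            (∑ i ∈ S, (ENNReal.ofReal Bc * ENNReal.ofReal (t i ^ (cj q - 1))) ^ q) ^ (1 / q) := by
            apply ENNReal.rpow_le_rpow _ (by positivity)
            apply Finset.sum_le_sum
            intro i _
            apply ENNReal.rpow_le_rpow _ hq0.le
            refine (hB (a' i) (l i) (f i) (hfB i)).trans ?_
            gcongr
            rw [hf]
            simp only
            rw [Nn_smul hp0, ← ofReal_norm, Complex.norm_real,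
              Real.norm_of_nonneg (Real.rpow_nonneg (ht0 i) _)]
            calc _ ≤ ENNReal.ofReal (t i ^ (cj q - 1)) * 1 := by
                  gcongr
                  exact hg2 i
              _ = _ := mul_one _
        _ = _ := by
            have e1 : ∀ i ∈ S, (ENNReal.ofReal Bc * ENNReal.ofReal (t i ^ (cj q - 1))) ^ q =
                ENNReal.ofReal Bc ^ q * ENNReal.ofReal (t i ^ cj q) := by
              intro i _
              rw [ENNReal.mul_rpow_of_nonneg _ _ hq0.le, ENNReal.ofReal_rpow_of_nonneg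
                (Real.rpow_nonneg (ht0 i) _) hq0.le, ← Real.rpow_mul (ht0 i)]
              congr 3
              unfold cj
              have : q - 1 ≠ 0 := by linarith
              field_simp
              ring
            rw [Finset.sum_congr rfl e1, ← Finset.mul_sum,
              ← ENNReal.ofReal_sum_of_nonneg (fun i _ => Real.rpow_nonneg (ht0 i) _), ← hT,
              ENNReal.mul_rpow_of_nonneg _ _ (by positivity), ← ENNReal.rpow_mul,
              mul_one_div_cancel hq0.ne', ENNReal.rpow_one]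
    have h4 : ENNReal.ofReal T ^ (1 / cj q) ≤ ENNReal.ofReal (U * Bc) * Nn (cj p) h := by
      rcases eq_or_ne T 0 with hT00 | hT00
      · rw [hT00, ENNReal.ofReal_zero, ENNReal.zero_rpow_of_pos (by positivity)]
        exact zero_le
      · have hTp : 0 < T := lt_of_le_of_ne hT0 (Ne.symm hT00)
        have hTe0 : ENNReal.ofReal T ≠ 0 := by
          rw [Ne, ENNReal.ofReal_eq_zero, not_le]; exact hTp
        have e2 : ENNReal.ofReal T = ENNReal.ofReal T ^ (1 / cj q) * ENNReal.ofReal T ^ (1 / q) := by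
          rw [← ENNReal.rpow_add _ _ hTe0 ENNReal.ofReal_ne_top]
          have : 1 / cj q + 1 / q = 1 := by
            unfold cj
            field_simp
            ring
          rw [this, ENNReal.rpow_one]
        have h5 : ENNReal.ofReal T ^ (1 / cj q) * ENNReal.ofReal T ^ (1 / q) ≤
            (ENNReal.ofReal (U * Bc) * Nn (cj p) h) * ENNReal.ofReal T ^ (1 / q) := by
          rw [← e2]
          refine h2.trans (le_of_eq ?_)
          rw [ENNReal.ofReal_mul hU0]
          ring
        refine (ENNReal.mul_le_mul_iff_left ?_ ?_).1 h5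
        · rw [ENNReal.ofReal_rpow_of_pos hTp, Ne, ENNReal.ofReal_eq_zero, not_le]
          positivity
        · exact ENNReal.rpow_ne_top_of_nonneg (by positivity) ENNReal.ofReal_ne_top
    refine le_trans ?_ h4
    have h6 : ENNReal.ofReal η = (ENNReal.ofReal η ^ cj q) ^ (1 / cj q) := by
      rw [← ENNReal.rpow_mul, mul_one_div_cancel hq1'.ne', ENNReal.rpow_one]
    rw [h6, ← ENNReal.mul_rpow_of_nonneg _ _ (by positivity)]
    apply ENNReal.rpow_le_rpow _ (by positivity)
    rw [Finset.mul_sum, hT, ENNReal.ofReal_sum_of_nonneg (fun i _ => Real.rpow_nonneg (ht0 i) _)]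
    apply Finset.sum_le_sum
    intro i _
    rw [← ENNReal.mul_rpow_of_nonneg _ _ hq1'.le, ← ENNReal.ofReal_rpow_of_nonneg (ht0 i) hq1'.le]
    exact ENNReal.rpow_le_rpow (ht2 i) hq1'.le
  have h7 := ENNReal.rpow_le_rpow key hq1'.le
  rw [← ENNReal.rpow_mul, one_div_mul_cancel hq1'.ne', ENNReal.rpow_one] at h7
  exact h7

/-- the parts of a trigonometric polynomial belonging to a partition -/
theorem part_fin {J : ℕ → Set ℤ} (hJ : IsIntPart J) (c : ℤ →₀ X) :
    ∃ (S : Finset ℕ) (a : ℕ → ℤ) (l : ℕ → ℕ),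
      (∀ i ∈ S, ∀ j ∈ S, i ≠ j →
        Disjoint (Set.Ico (a i) (a i + l i)) (Set.Ico (a j) (a j + l j))) ∧
      (∀ i ∈ S, DT (J i) c = DI (a i) (l i) (trig c)) ∧
      ∀ x, trig c x = ∑ i ∈ S, DI (a i) (l i) (trig c) x := by
  classical
  obtain ⟨hJ1, hJ2, hJ3⟩ := hJ
  set K : ℕ → Finset ℤ := fun i => c.support.filter fun n => n ∈ J i with hK
  have hex : ∀ i, ∃ (a : ℤ) (l : ℕ), (K i).Nonempty → 0 < l ∧
      (K i : Set ℤ) ⊆ Set.Ico a (a + l) ∧ Set.Ico a (a + l) ⊆ J i := by
    intro i
    by_cases hne : (K i).Nonempty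
    · refine ⟨(K i).min' hne, ((K i).max' hne + 1 - (K i).min' hne).toNat, fun _ => ?_⟩
      have hle := Finset.min'_le_max' (K i) hne
      have e : (K i).min' hne + (((K i).max' hne + 1 - (K i).min' hne).toNat : ℤ) =
          (K i).max' hne + 1 := by omega
      rw [e]
      refine ⟨by omega, ?_, ?_⟩
      · intro x hx
        have h1 := Finset.min'_le (K i) x hx
        have h2 := Finset.le_max' (K i) x hx
        exact ⟨h1, by omega⟩
      · have hmin := Finset.min'_mem (K i) hne
        have hmax := Finset.max'_mem (K i) hne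
        have hmin2 : (K i).min' hne ∈ J i := (Finset.mem_filter.1 hmin).2
        have hmax2 : (K i).max' hne ∈ J i := (Finset.mem_filter.1 hmax).2
        intro x hx
        exact (hJ1 i).out hmin2 hmax2 ⟨hx.1, by have := hx.2; omega⟩
    · exact ⟨0, 0, fun h => absurd h hne⟩
  choose a l hal using hex
  choose ι hι using hJ3
  set S := c.support.image ι with hS
  have hne : ∀ i ∈ S, (K i).Nonempty := by
    intro i hi
    rw [hS, Finset.mem_image] at hi
    obtain ⟨n, hn, rfl⟩ := hi
    exact ⟨n, Finset.mem_filter.2 ⟨hn, hι n⟩⟩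
  have hDI : ∀ i ∈ S, ∀ x, DI (a i) (l i) (trig c) x = ∑ n ∈ K i, ch (n : ℝ) x • c n := by
    intro i hi x
    obtain ⟨h2, h3, h4⟩ := hal i (hne i hi)
    rw [DI_trig, DT_eq (Set.Ico (a i) (a i + l i)) (Finset.Ico (a i) (a i + l i))
      (fun n => by rw [Finset.mem_Ico, Set.mem_Ico])]
    symm
    apply Finset.sum_subset
    · intro n hn
      rw [Finset.mem_Ico]
      exact h3 hn
    · intro n hn hn2
      have h5 : c n = 0 := by
        by_contra hcon
        apply hn2
        rw [hK, Finset.mem_filter]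
        refine ⟨Finsupp.mem_support_iff.2 hcon, h4 ?_⟩
        rw [Finset.mem_Ico] at hn
        exact hn
      rw [h5, smul_zero]
  refine ⟨S, a, l, ?_, ?_, ?_⟩
  · intro i hi j hj hij
    exact (hJ2 i j hij).mono (hal i (hne i hi)).2.2 (hal j (hne j hj)).2.2
  · intro i hi
    funext x
    rw [hDI i hi]
    unfold DT trig
    rw [Finsupp.sum_of_support_subset (s := K i)]
    · apply Finset.sum_congr rfl
      intro n hn
      rw [Finsupp.filter_apply_pos]
      exact (Finset.mem_filter.1 hn).2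
    · intro n hn
      rw [Finsupp.support_filter] at hn
      exact hn
    · intro n _
      rw [smul_zero]
  · intro x
    rw [Finset.sum_congr rfl fun i hi => hDI i hi x]
    rw [← Finset.sum_biUnion]
    · rw [trig_eq]
      apply Finset.sum_congr _ fun _ _ => rfl
      ext n
      rw [Finset.mem_biUnion]
      constructor
      · intro hn
        exact ⟨ι n, Finset.mem_image_of_mem _ hn, Finset.mem_filter.2 ⟨hn, hι n⟩⟩
      · rintro ⟨i, _, hn⟩
        exact (Finset.mem_filter.1 hn).1
    · intro i _ j _ hij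
      rw [Function.onFun, Finset.disjoint_left]
      intro n hn hn2
      exact Set.disjoint_left.1 (hJ2 i j hij) (Finset.mem_filter.1 hn).2 (Finset.mem_filter.1 hn2).2

/-- lower decompositions of the dual give upper decompositions -/
theorem low_up {p q L : ℝ} (hp : 1 < p) (hq : 1 < q)
    (hL : LowL (StrongDual ℂ X) (cj p) (cj q) L) : UppU X p q L := by
  have hp0 : 0 < p := by linarith
  have hq0 : 0 < q := by linarith
  have hp1 := cj_gt hp
  have hq1 := cj_gt hq
  have hp1' : 0 < cj p := by linarith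
  have hq1' : 0 < cj q := by linarith
  intro J hJ c
  obtain ⟨S, a, l, hd, h1, h2⟩ := part_fin hJ c
  rw [nT_eq hp0]
  have h3 : (∑ i ∈ S, Nn p (DI (a i) (l i) (trig c)) ^ q) ^ (1 / q) ≤
      lq (ENNReal.ofReal q) (fun i => nT (ENNReal.ofReal p) (DT (J i) c)) := by
    unfold lq
    rw [if_neg ENNReal.ofReal_ne_top, ENNReal.toReal_ofReal hq0.le]
    apply ENNReal.rpow_le_rpow _ (by positivity)
    refine le_trans (le_of_eq ?_) (ENNReal.sum_le_tsum S)
    apply Finset.sum_congr rfl
    intro i hi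
    simp only
    rw [h1 i hi, nT_eq hp0]
  refine le_trans ?_ (mul_le_mul_right h3 _)
  apply nrm1 (B2_prg X) hp (trig_BM c) (trig_cont c)
  intro g hg
  set a' : ℕ → ℤ := fun i => -(a i + l i) + 1 with ha'
  have hd' : ∀ i ∈ S, ∀ j ∈ S, i ≠ j →
      Disjoint (Set.Ico (a' i) (a' i + l i)) (Set.Ico (a' j) (a' j + l j)) := by
    intro i hi j hj hij
    rw [Set.disjoint_left]
    intro x hx hx2
    have h1 : -x ∈ Set.Ico (a i) (a i + l i) := by
      obtain ⟨u1, u2⟩ := hx
      simp only [ha'] at u1 u2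
      constructor <;> omega
    have h2 : -x ∈ Set.Ico (a j) (a j + l j) := by
      obtain ⟨u1, u2⟩ := hx2
      simp only [ha'] at u1 u2
      constructor <;> omega
    exact Set.disjoint_left.1 (hd i hi j hj hij) h1 h2
  have e1 : pr (B2 X) (trig c) g = ∑ i ∈ S, pr (B2 X) (DI (a i) (l i) (trig c))
      (DI (a' i) (l i) g) := by
    have e2 : trig c = fun x => ∑ i ∈ S, DI (a i) (l i) (trig c) x := by
      funext x
      exact h2 x
    conv_lhs => rw [e2]
    rw [pr_sum_left (B2_prg X) _ (fun i _ => DI_BM _ _ _) hg]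
    apply Finset.sum_congr rfl
    intro i _
    rw [← pr_DI (B2_prg X) (DI_BM _ _ _) hg, DI_DI _ le_rfl]
  rw [e1]
  calc ‖∑ i ∈ S, pr (B2 X) (DI (a i) (l i) (trig c)) (DI (a' i) (l i) g)‖ₑ ≤
        ∑ i ∈ S, Nn p (DI (a i) (l i) (trig c)) * Nn (cj p) (DI (a' i) (l i) g) := by
        refine (enorm_sum_le _ _).trans (Finset.sum_le_sum fun i _ => ?_)
        exact pr_hold (B2_prg X) hp (DI_BM _ _ _) (DI_BM _ _ _)
    _ ≤ (∑ i ∈ S, Nn p (DI (a i) (l i) (trig c)) ^ q) ^ (1 / q) *
          (∑ i ∈ S, Nn (cj p) (DI (a' i) (l i) g) ^ cj q) ^ (1 / cj q) :=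
        ENNReal.inner_le_Lp_mul_Lq S _ _ (cj_hold hq)
    _ ≤ (∑ i ∈ S, Nn p (DI (a i) (l i) (trig c)) ^ q) ^ (1 / q) *
          ((ENNReal.ofReal L * Nn (cj p) g) ^ cj q) ^ (1 / cj q) := by
        gcongr
        exact low_BM hp1 hq1' hL S a' l hd' hg
    _ = _ := by
        rw [← ENNReal.rpow_mul, mul_one_div_cancel hq1'.ne', ENNReal.rpow_one]
        ring

/-- **sharp extrapolation of upper decompositions for spaces with bounded partial sum operators** -/
theorem upper_extrap_HB {p q r s : ℝ} (hp : 1 < p) (hq : 1 < q) (hr : 1 < r) (hs : 1 < s)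
    (hsq : cj s = cj q / theta p r) {Bc : ℝ} (hB0 : 0 ≤ Bc) (hB : HB X p Bc)
    (h : UpperT X (ENNReal.ofReal p) (ENNReal.ofReal q)) :
    UpperT X (ENNReal.ofReal r) (ENNReal.ofReal s) := by
  obtain ⟨U, hU0, hU⟩ := h
  have h1 := up_low hp hq hU0.le hB0 hU hB
  obtain ⟨C', hC'0, h2⟩ := LowL_extrap (cj_gt hp) (cj_gt hq) (cj_gt hr) (by positivity) h1
  rw [theta_cj hp hr, ← hsq] at h2
  exact ⟨C', hC'0, low_up hr hs h2⟩

end

end Pool.Agent.K7.H81.FD
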