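import Pool.Agent.K7.H81.FQ

set_option autoImplicit false
set_option linter.unusedSectionVars false
set_option linter.unusedVariables false

/-!
# Bounded partial sum operators: from trigonometric polynomials to bounded functions
-/

namespace Pool.Agent.K7.H81.FD

open MeasureTheory Set Filter Topology Pool.Agent.R955.FD
open scoped ENNReal

universe u

section
variable {X : Type u} [NormedAddCommGroup X] [NormedSpace ℂ X] [CompleteSpace X]

theorem HB_of_trig {p C : ℝ} (hp : 1 < p)
    (h : ∀ (a : ℤ) (l : ℕ) (c : ℤ →₀ X), nT (ENNReal.ofReal p) (DT (Set.Ico a (a + l)) c) ≤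
      ENNReal.ofReal C * nT (ENNReal.ofReal p) (trig c)) : HB X p C := by
  have hp0 : 0 < p := by linarith
  intro a l g hg
  set ε : ℕ → ℕ → ℝ≥0∞ := fun N _ => ∑ j ∈ Finset.range l,
    ‖co g (a + j) - cf g (N + 1) (a + j)‖ₑ with hε
  have key : ∑ i ∈ ({0} : Finset ℕ), Nn p (DI a l g) ^ (1:ℝ) ≤ (ENNReal.ofReal C * Nn p g) ^ (1:ℝ) := by
    apply lim_sum (y := fun N _ => nT (ENNReal.ofReal p)
        (DT (Set.Ico a (a + l)) (cf g (N + 1)))) (ε := ε) (b := fun _ => ENNReal.ofReal C * Nn p g)
    · intro i _
      rw [← Finset.sum_const_zero (s := Finset.range l)]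
      apply tendsto_finsetSum
      intro j _
      have h1 := (cf_tendsto g (a + j)).comp (tendsto_add_atTop_nat 1)
      have h2 : Tendsto (fun N => co g (a + j) - cf g (N + 1) (a + j)) atTop
          (𝓝 (co g (a + j) - co g (a + j))) := tendsto_const_nhds.sub h1
      rw [sub_self] at h2
      have h3 := h2.enorm
      rw [enorm_zero] at h3
      exact h3
    · intro N i _
      rw [nT_eq hp0, ← DI_trig]
      apply Nn_close hp.le (DI_BM _ _ _).1 (DI_BM _ _ _).1
      intro x _
      unfold DI
      rw [← Finset.sum_sub_distrib, hε]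
      refine (enorm_sum_le _ _).trans (Finset.sum_le_sum fun j _ => ?_)
      rw [← smul_sub, enorm_smul, co_trig, ← ofReal_norm, ch_norm, ENNReal.ofReal_one, one_mul]
    · exact one_pos
    · intro N
      rw [Finset.sum_singleton, ENNReal.rpow_one, ENNReal.rpow_one]
      refine (h a l _).trans ?_
      rw [nT_eq hp0]
      gcongr
      unfold Nn
      apply ENNReal.rpow_le_rpow _ (by positivity)
      have e : trig (cf g (N + 1)) = TK (Fj (N + 1)) g := by
        funext x
        exact trig_cf hg _ x
      rw [e]
      exact Fj_young (by omega) hp hg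
    · exact tendsto_const_nhds
  rw [Finset.sum_singleton, ENNReal.rpow_one, ENNReal.rpow_one] at key
  exact key

end

end Pool.Agent.K7.H81.FD
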