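import Pool.Agent.K7.H81.SMB

set_option autoImplicit false

/-!
# Sequences of independent noise
-/

namespace Pool.Agent.K7.H81.NZ

open Real MeasureTheory Function Set Filter Topology
open scoped ENNReal

/-- the shift of a sequence -/
def sh (w : ℕ → ℝ) : ℕ → ℝ := fun n => w (n + 1)

/-- a first term in front of a sequence -/
def cn (t : ℝ) (w : ℕ → ℝ) : ℕ → ℝ
  | 0 => t
  | n + 1 => w n

theorem cn_zero (t : ℝ) (w : ℕ → ℝ) : cn t w 0 = t := rfl

theorem cn_succ (t : ℝ) (w : ℕ → ℝ) (n : ℕ) : cn t w (n + 1) = w n := rfl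

theorem sh_cn (t : ℝ) (w : ℕ → ℝ) : sh (cn t w) = w := rfl

theorem sh_cont : Continuous sh := continuous_pi fun n => continuous_apply (n + 1)

theorem cn_meas : Measurable (fun q : ℝ × (ℕ → ℝ) => cn q.1 q.2) := by
  rw [measurable_pi_iff]
  intro n
  cases n with
  | zero => exact measurable_fst
  | succ n => exact (measurable_pi_apply n).comp measurable_snd

/-- the law of the noise -/
noncomputable abbrev Nz (ν : Measure ℝ) : Measure (ℕ → ℝ) := Measure.infinitePi fun _ : ℕ => ν

theorem cn_mp (ν : Measure ℝ) [IsProbabilityMeasure ν] :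
    MeasurePreserving (fun q : ℝ × (ℕ → ℝ) => cn q.1 q.2) (ν.prod (Nz ν)) (Nz ν) := by
  refine ⟨cn_meas, ?_⟩
  apply Measure.eq_infinitePi
  intro s t ht
  classical
  rw [Measure.map_apply cn_meas (MeasurableSet.pi s.countable_toSet fun i _ => ht i)]
  obtain ⟨m, hm⟩ : ∃ m : ℕ, s ⊆ Finset.range (m + 1) := by
    refine ⟨s.sup id, fun i hi => ?_⟩
    rw [Finset.mem_range]
    have : i ≤ s.sup id := Finset.le_sup (f := id) hi
    omega
  set T : ℕ → Set ℝ := fun i => if i ∈ s then t i else univ with hT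
  have hTm : ∀ i, MeasurableSet (T i) := by
    intro i
    rw [hT]
    simp only
    split_ifs
    · exact ht i
    · exact MeasurableSet.univ
  have e1 : (fun q : ℝ × (ℕ → ℝ) => cn q.1 q.2) ⁻¹' (Set.pi (s : Set ℕ) t) =
      T 0 ×ˢ (Set.pi (Finset.range m : Set ℕ) fun i => T (i + 1)) := by
    ext q
    simp only [Set.mem_preimage, Set.mem_pi, Set.mem_prod, Finset.mem_coe]
    constructor
    · intro h
      refine ⟨?_, fun i hi => ?_⟩
      · rw [hT]
        simp only
        split_ifs with h0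
        · exact h 0 h0
        · exact Set.mem_univ _
      · rw [hT]
        simp only
        split_ifs with h0
        · exact h (i + 1) h0
        · exact Set.mem_univ _
    · rintro ⟨h0, h1⟩ i hi
      cases i with
      | zero =>
        rw [hT] at h0
        simp only [if_pos hi] at h0
        exact h0
      | succ i =>
        have h2 := h1 i (by
          have := Finset.mem_range.1 (hm hi)
          exact Finset.mem_range.2 (by omega))
        rw [hT] at h2
        simp only [if_pos hi] at h2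
        exact h2
  have e2 : ∏ i ∈ s, ν (t i) = ∏ i ∈ Finset.range (m + 1), ν (T i) := by
    rw [← Finset.prod_subset hm]
    · refine Finset.prod_congr rfl fun i hi => ?_
      rw [hT]
      simp only [if_pos hi]
    · intro i _ hi
      rw [hT]
      simp only [if_neg hi]
      exact measure_univ
  rw [e1, Measure.prod_prod, Measure.infinitePi_pi (fun _ : ℕ => ν) (fun i _ => hTm (i + 1)), e2,
    Finset.prod_range_succ', mul_comm]

/-- integration over the first term -/
theorem lint_cn (ν : Measure ℝ) [IsProbabilityMeasure ν] {f : (ℕ → ℝ) → ℝ≥0∞}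
    (hf : Measurable f) : ∫⁻ w, f w ∂(Nz ν) = ∫⁻ t, ∫⁻ w, f (cn t w) ∂(Nz ν) ∂ν := by
  rw [← (cn_mp ν).lintegral_comp hf, lintegral_prod]
  exact (hf.comp cn_meas).aemeasurable

theorem int_cn (ν : Measure ℝ) [IsProbabilityMeasure ν] {f : (ℕ → ℝ) → ℝ}
    (hf : Measurable f) {K : ℝ} (hK : ∀ w, |f w| ≤ K) :
    ∫ w, f w ∂(Nz ν) = ∫ t, ∫ w, f (cn t w) ∂(Nz ν) ∂ν := by
  have h1 : ∫ w, f w ∂(Nz ν) = ∫ q, f (cn q.1 q.2) ∂(ν.prod (Nz ν)) := by
    rw [← integral_map cn_meas.aemeasurable hf.aestronglyMeasurable, (cn_mp ν).map_eq]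
  rw [h1, integral_prod]
  refine Integrable.of_bound (hf.comp cn_meas).aestronglyMeasurable K (Eventually.of_forall ?_)
  intro q
  exact hK _

/-- the iterated shift -/
def shk (m : ℕ) (w : ℕ → ℝ) : ℕ → ℝ := fun n => w (n + m)

theorem shk_zero (w : ℕ → ℝ) : shk 0 w = w := rfl

theorem shk_succ (m : ℕ) (w : ℕ → ℝ) : shk (m + 1) w = shk m (sh w) := by
  funext n
  show w (n + (m + 1)) = w (n + m + 1)
  rfl

theorem shk_cn (m : ℕ) (t : ℝ) (w : ℕ → ℝ) : shk (m + 1) (cn t w) = shk m w := by
  rw [shk_succ, sh_cn]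

theorem shk_cont (m : ℕ) : Continuous (shk m) := continuous_pi fun n => continuous_apply (n + m)

end Pool.Agent.K7.H81.NZ
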