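import Pool.Agent.K7.H81.NZA

set_option autoImplicit false

/-!
# The randomly perturbed standard map and its derivative cocycle
-/

namespace Pool.Agent.K7.H81.NZ

open Real MeasureTheory Function Set Filter Topology
open Pool.Agent.TH705.SM Pool.Agent.V1152.SMI Pool.Agent.K7.H81.SM
open scoped ENNReal

/-- one step with the noise `t` -/
noncomputable def st (a t : ℝ) (p : T2) : T2 := (phi a p.1 - p.2 + (t : UnitAddCircle), p.1)

/-- the linear map `(u, v) ↦ (c u - v, u)` -/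
noncomputable def Am (c : ℝ) : ℝ × ℝ →L[ℝ] ℝ × ℝ :=
  (c • ContinuousLinearMap.fst ℝ ℝ ℝ - ContinuousLinearMap.snd ℝ ℝ ℝ).prod
    (ContinuousLinearMap.fst ℝ ℝ ℝ)

theorem Am_apply (c : ℝ) (v : ℝ × ℝ) : Am c v = (c * v.1 - v.2, v.1) := rfl

/-- the orbit -/
noncomputable def ob (a : ℝ) : ℕ → (ℕ → ℝ) → T2 → T2
  | 0, _, p => p
  | n + 1, w, p => ob a n (sh w) (st a (w 0) p)

/-- the derivative cocycle -/
noncomputable def Mn (a : ℝ) : ℕ → (ℕ → ℝ) → T2 → (ℝ × ℝ →L[ℝ] ℝ × ℝ)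
  | 0, _, _ => ContinuousLinearMap.id ℝ (ℝ × ℝ)
  | n + 1, w, p => (Mn a n (sh w) (st a (w 0) p)).comp (Am (cc a p.1))

theorem ob_succ (a : ℝ) (n : ℕ) (w : ℕ → ℝ) (p : T2) :
    ob a (n + 1) w p = ob a n (sh w) (st a (w 0) p) := rfl

theorem Mn_succ (a : ℝ) (n : ℕ) (w : ℕ → ℝ) (p : T2) :
    Mn a (n + 1) w p = (Mn a n (sh w) (st a (w 0) p)).comp (Am (cc a p.1)) := rfl

theorem ob_add (a : ℝ) (n : ℕ) (m : ℕ) : ∀ (w : ℕ → ℝ) (p : T2),
    ob a (m + n) w p = ob a n (shk m w) (ob a m w p) := by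
  induction m with
  | zero =>
    intro w p
    rw [Nat.zero_add]
    rfl
  | succ m ih =>
    intro w p
    rw [show m + 1 + n = (m + n) + 1 by omega, ob_succ, ih, ob_succ, shk_succ]

theorem Mn_add (a : ℝ) (n : ℕ) (m : ℕ) : ∀ (w : ℕ → ℝ) (p : T2),
    Mn a (m + n) w p = (Mn a n (shk m w) (ob a m w p)).comp (Mn a m w p) := by
  induction m with
  | zero =>
    intro w p
    rw [Nat.zero_add]
    rfl
  | succ m ih =>
    intro w p
    rw [show m + 1 + n = (m + n) + 1 by omega, Mn_succ, ih, ob_succ, shk_succ, Mn_succ,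
      ContinuousLinearMap.comp_assoc]

theorem st_cont (a : ℝ) : Continuous (fun q : ℝ × T2 => st a q.1 q.2) := by
  have h1 := phi_cont a
  have h2 : Continuous (fun t : ℝ => (t : UnitAddCircle)) := AddCircle.continuous_mk' 1
  unfold st
  fun_prop

theorem Am_cont : Continuous Am := by
  have e : Am = fun c : ℝ => c • ((ContinuousLinearMap.fst ℝ ℝ ℝ).prod
      (0 : ℝ × ℝ →L[ℝ] ℝ)) + (-(ContinuousLinearMap.snd ℝ ℝ ℝ)).prod
      (ContinuousLinearMap.fst ℝ ℝ ℝ) := by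
    funext c
    ext <;> simp [Am_apply]
  rw [e]
  fun_prop

theorem ob_cont (a : ℝ) (n : ℕ) : Continuous (fun q : (ℕ → ℝ) × T2 => ob a n q.1 q.2) := by
  induction n with
  | zero => exact continuous_snd
  | succ n ih =>
    have h1 : Continuous (fun q : (ℕ → ℝ) × T2 => (sh q.1, st a (q.1 0) q.2)) := by
      have h0 : Continuous (fun q : (ℕ → ℝ) × T2 => ((q.1 0 : ℝ), q.2)) := by fun_prop
      exact (sh_cont.comp continuous_fst).prodMk ((st_cont a).comp h0)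
    exact ih.comp h1

theorem Mn_cont (a : ℝ) (n : ℕ) : Continuous (fun q : (ℕ → ℝ) × T2 => Mn a n q.1 q.2) := by
  induction n with
  | zero => exact continuous_const
  | succ n ih =>
    have h1 : Continuous (fun q : (ℕ → ℝ) × T2 => (sh q.1, st a (q.1 0) q.2)) := by
      have h0 : Continuous (fun q : (ℕ → ℝ) × T2 => ((q.1 0 : ℝ), q.2)) := by fun_prop
      exact (sh_cont.comp continuous_fst).prodMk ((st_cont a).comp h0)
    have h2 : Continuous (fun q : (ℕ → ℝ) × T2 => Am (cc a q.2.1)) :=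
      Am_cont.comp ((cc_cont a).comp (continuous_fst.comp continuous_snd))
    exact (ih.comp h1).clm_comp h2

theorem st_mp (a t : ℝ) : MeasurePreserving (st a t) volume volume := by
  have e : st a t = (fun p : T2 => (p.1 + (t : UnitAddCircle), p.2)) ∘ S a := by
    funext p
    rfl
  rw [e]
  refine MeasurePreserving.comp ?_ (S_mp a)
  have h1 : MeasurePreserving (fun x : UnitAddCircle => x + (t : UnitAddCircle)) volume volume :=
    measurePreserving_add_right volume _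
  exact h1.prod (MeasurePreserving.id _)

/-- the orbit of a random point is random -/
theorem ob_mp (a : ℝ) (n : ℕ) : ∀ w : ℕ → ℝ, MeasurePreserving (ob a n w) volume volume := by
  induction n with
  | zero =>
    intro w
    exact MeasurePreserving.id _
  | succ n ih =>
    intro w
    exact (ih (sh w)).comp (st_mp a (w 0))

/-! ### bounds -/

/-- the bound for one step -/
noncomputable def KK (a : ℝ) : ℝ := 9 * |a|

theorem KK_ge {a : ℝ} (ha : 2 ≤ |a|) : 18 ≤ KK a := by unfold KK; linarith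

theorem cc_KK {a : ℝ} (ha : 2 ≤ |a|) (x : UnitAddCircle) : 1 + |cc a x| ≤ KK a := by
  have := cc_lt ha x
  unfold KK
  linarith

theorem Am_up {c K : ℝ} (hK : 1 + |c| ≤ K) (v : ℝ × ℝ) : ‖Am c v‖ ≤ K * ‖v‖ := by
  rw [Am_apply, Prod.norm_def, Real.norm_eq_abs, Real.norm_eq_abs]
  have h1 : |v.1| ≤ ‖v‖ := norm_fst_le v
  have h2 : |v.2| ≤ ‖v‖ := norm_snd_le v
  have h3 : 0 ≤ ‖v‖ := norm_nonneg v
  have h4 : (1 + |c|) * ‖v‖ ≤ K * ‖v‖ := mul_le_mul_of_nonneg_right hK h3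
  have h5 : |c| * |v.1| ≤ |c| * ‖v‖ := mul_le_mul_of_nonneg_left h1 (abs_nonneg c)
  have h6 : 0 ≤ |c| * ‖v‖ := by positivity
  apply max_le
  · refine (abs_sub _ _).trans ?_
    rw [abs_mul]
    linarith
  · linarith

theorem Am_low {c K : ℝ} (hK : 1 + |c| ≤ K) (v : ℝ × ℝ) : ‖v‖ ≤ K * ‖Am c v‖ := by
  have h1 : |c * v.1 - v.2| ≤ ‖Am c v‖ := norm_fst_le (Am c v)
  have h2 : |v.1| ≤ ‖Am c v‖ := norm_snd_le (Am c v)
  have h3 : 0 ≤ ‖Am c v‖ := norm_nonneg _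
  have h4 : (1 + |c|) * ‖Am c v‖ ≤ K * ‖Am c v‖ := mul_le_mul_of_nonneg_right hK h3
  have h5 : |c| * |v.1| ≤ |c| * ‖Am c v‖ := mul_le_mul_of_nonneg_left h2 (abs_nonneg c)
  have h6 : 0 ≤ |c| * ‖Am c v‖ := by positivity
  rw [Prod.norm_def v, Real.norm_eq_abs, Real.norm_eq_abs]
  apply max_le
  · linarith
  · have h7 : |v.2| ≤ |c * v.1| + |c * v.1 - v.2| := by
      have : v.2 = c * v.1 - (c * v.1 - v.2) := by ring
      calc |v.2| = |c * v.1 - (c * v.1 - v.2)| := by rw [← this]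
        _ ≤ |c * v.1| + |c * v.1 - v.2| := abs_sub _ _
    rw [abs_mul] at h7
    linarith

theorem Mn_up {a : ℝ} (ha : 2 ≤ |a|) (n : ℕ) : ∀ (w : ℕ → ℝ) (p : T2) (v : ℝ × ℝ),
    ‖Mn a n w p v‖ ≤ KK a ^ n * ‖v‖ := by
  have hK := KK_ge ha
  induction n with
  | zero =>
    intro w p v
    rw [pow_zero, one_mul]
    exact le_rfl
  | succ n ih =>
    intro w p v
    rw [Mn_succ, ContinuousLinearMap.comp_apply]
    refine (ih _ _ _).trans ?_
    rw [pow_succ, mul_assoc]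
    exact mul_le_mul_of_nonneg_left (Am_up (cc_KK ha _) v) (by positivity)

theorem Mn_low {a : ℝ} (ha : 2 ≤ |a|) (n : ℕ) : ∀ (w : ℕ → ℝ) (p : T2) (v : ℝ × ℝ),
    ‖v‖ ≤ KK a ^ n * ‖Mn a n w p v‖ := by
  have hK := KK_ge ha
  induction n with
  | zero =>
    intro w p v
    rw [pow_zero, one_mul]
    exact le_rfl
  | succ n ih =>
    intro w p v
    rw [Mn_succ, ContinuousLinearMap.comp_apply]
    refine (Am_low (cc_KK ha p.1) v).trans ?_
    rw [pow_succ, mul_comm (KK a ^ n) (KK a), mul_assoc]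
    exact mul_le_mul_of_nonneg_left (ih _ _ _) (by linarith)

theorem Mn_ne {a : ℝ} (ha : 2 ≤ |a|) (n : ℕ) (w : ℕ → ℝ) (p : T2) {v : ℝ × ℝ} (hv : v ≠ 0) :
    Mn a n w p v ≠ 0 := by
  intro h
  have h1 := Mn_low ha n w p v
  rw [h, norm_zero, mul_zero] at h1
  exact hv (norm_le_zero_iff.1 h1)

/-- the logarithm of the growth of a vector is bounded -/
theorem log_Mn {a : ℝ} (ha : 2 ≤ |a|) (n : ℕ) (w : ℕ → ℝ) (p : T2) {v : ℝ × ℝ} (hv : v ≠ 0) :
    |log ‖Mn a n w p v‖ - log ‖v‖| ≤ n * log (KK a) := by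
  have hK := KK_ge ha
  have hK0 : 0 < KK a := by linarith
  have h0 : 0 < ‖v‖ := norm_pos_iff.2 hv
  have h1 : 0 < ‖Mn a n w p v‖ := norm_pos_iff.2 (Mn_ne ha n w p hv)
  have h2 := Real.log_le_log h1 (Mn_up ha n w p v)
  have h3 := Real.log_le_log h0 (Mn_low ha n w p v)
  rw [Real.log_mul (by positivity) h0.ne', Real.log_pow] at h2
  rw [Real.log_mul (by positivity) h1.ne', Real.log_pow] at h3
  rw [abs_le]
  constructor <;> linarith

theorem nMn_ge {a : ℝ} (ha : 2 ≤ |a|) (n : ℕ) (w : ℕ → ℝ) (p : T2) :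
    1 ≤ KK a ^ n * ‖Mn a n w p‖ := by
  have hK := KK_ge ha
  have h1 := Mn_low ha n w p (1, 0)
  have h2 := (Mn a n w p).le_opNorm (1, 0)
  have n1 : ‖((1, 0) : ℝ × ℝ)‖ = 1 := by simp [Prod.norm_def]
  rw [n1] at h1 h2
  rw [mul_one] at h2
  exact h1.trans (mul_le_mul_of_nonneg_left h2 (by positivity))

theorem nMn_pos {a : ℝ} (ha : 2 ≤ |a|) (n : ℕ) (w : ℕ → ℝ) (p : T2) : 0 < ‖Mn a n w p‖ := by
  by_contra h
  have h1 : ‖Mn a n w p‖ = 0 := le_antisymm (not_lt.1 h) (norm_nonneg _)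
  have h2 := nMn_ge ha n w p
  rw [h1, mul_zero] at h2
  linarith

theorem nMn_le {a : ℝ} (ha : 2 ≤ |a|) (n : ℕ) (w : ℕ → ℝ) (p : T2) : ‖Mn a n w p‖ ≤ KK a ^ n := by
  have hK := KK_ge ha
  exact ContinuousLinearMap.opNorm_le_bound _ (by positivity) fun v => Mn_up ha n w p v

theorem log_nMn {a : ℝ} (ha : 2 ≤ |a|) (n : ℕ) (w : ℕ → ℝ) (p : T2) :
    |log ‖Mn a n w p‖| ≤ n * log (KK a) := by
  have hK := KK_ge ha
  have hK0 : 0 < KK a := by linarith
  have h1 := nMn_pos ha n w p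
  have h2 := Real.log_le_log h1 (nMn_le ha n w p)
  have h3 := Real.log_le_log one_pos (nMn_ge ha n w p)
  rw [Real.log_pow] at h2
  rw [Real.log_one, Real.log_mul (by positivity) h1.ne', Real.log_pow] at h3
  rw [abs_le]
  constructor <;> linarith

/-- the logarithm of the norm is continuous -/
theorem log_nMn_cont {a : ℝ} (ha : 2 ≤ |a|) (n : ℕ) :
    Continuous (fun q : (ℕ → ℝ) × T2 => log ‖Mn a n q.1 q.2‖) :=
  (Mn_cont a n).norm.log fun q => (nMn_pos ha n q.1 q.2).ne'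

theorem log_Mn_cont {a : ℝ} (ha : 2 ≤ |a|) (n : ℕ) {v : ℝ × ℝ} (hv : v ≠ 0) :
    Continuous (fun q : (ℕ → ℝ) × T2 => log ‖Mn a n q.1 q.2 v‖) := by
  refine ((Mn_cont a n).clm_apply continuous_const).norm.log fun q => ?_
  exact (norm_pos_iff.2 (Mn_ne ha n q.1 q.2 hv)).ne'

/-- subadditivity, pointwise -/
theorem log_sub {a : ℝ} (ha : 2 ≤ |a|) (m n : ℕ) (w : ℕ → ℝ) (p : T2) :
    log ‖Mn a (m + n) w p‖ ≤ log ‖Mn a m w p‖ + log ‖Mn a n (shk m w) (ob a m w p)‖ := by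
  rw [← Real.log_mul (nMn_pos ha m w p).ne' (nMn_pos ha n _ _).ne']
  apply Real.log_le_log (nMn_pos ha _ w p)
  rw [Mn_add, mul_comm]
  exact ContinuousLinearMap.opNorm_comp_le _ _

end Pool.Agent.K7.H81.NZ
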