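import Pool.Agent.K7.H81.NZB

set_option autoImplicit false

/-!
# The Markov property, stationarity, and the Lyapunov exponent
-/

namespace Pool.Agent.K7.H81.NZ

open Real MeasureTheory Function Set Filter Topology
open Pool.Agent.TH705.SM Pool.Agent.V1152.SMI Pool.Agent.K7.H81.SM
open scoped ENNReal

variable (ν : Measure ℝ) [IsProbabilityMeasure ν]

theorem sh_mp : MeasurePreserving sh (Nz ν) (Nz ν) := by
  refine ⟨sh_cont.measurable, ?_⟩
  conv_lhs => rw [← (cn_mp ν).map_eq]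
  rw [Measure.map_map sh_cont.measurable cn_meas]
  have e : (sh ∘ fun q : ℝ × (ℕ → ℝ) => cn q.1 q.2) = Prod.snd := by
    funext q
    rfl
  rw [e]
  exact measurePreserving_snd.map_eq

theorem shk_mp (m : ℕ) : MeasurePreserving (shk m) (Nz ν) (Nz ν) := by
  induction m with
  | zero => exact MeasurePreserving.id _
  | succ m ih =>
    have e : shk (m + 1) = shk m ∘ sh := by
      funext w
      exact shk_succ m w
    rw [e]
    exact ih.comp (sh_mp ν)

/-- the state at time `m` -/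
noncomputable def sta (a : ℝ) (m : ℕ) (p : T2) (v : ℝ × ℝ) (w : ℕ → ℝ) : T2 × (ℝ × ℝ) :=
  (ob a m w p, Mn a m w p v)

theorem sta_cont (a : ℝ) (m : ℕ) (p : T2) (v : ℝ × ℝ) : Continuous (sta a m p v) := by
  have h1 : Continuous (fun w : ℕ → ℝ => (w, p)) := by fun_prop
  exact ((ob_cont a m).comp h1).prodMk (((Mn_cont a m).comp h1).clm_apply continuous_const)

theorem sta_succ (a : ℝ) (m : ℕ) (p : T2) (v : ℝ × ℝ) (t : ℝ) (w : ℕ → ℝ) :
    sta a (m + 1) p v (cn t w) = sta a m (st a t p) (Am (cc a p.1) v) w := rfl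

theorem markov_l (a : ℝ) (m : ℕ) : ∀ (p : T2) (v : ℝ × ℝ)
    {g : (T2 × (ℝ × ℝ)) × (ℕ → ℝ) → ℝ≥0∞} (_ : Measurable g),
    ∫⁻ w, g (sta a m p v w, shk m w) ∂(Nz ν) =
      ∫⁻ w, ∫⁻ w', g (sta a m p v w, w') ∂(Nz ν) ∂(Nz ν) := by
  induction m with
  | zero =>
    intro p v g hg
    have e : ∀ w, sta a 0 p v w = (p, v) := fun w => rfl
    simp_rw [e, shk_zero]
    rw [lintegral_const, measure_univ, mul_one]
  | succ m ih =>
    intro p v g hg
    have h1 : Measurable (fun w => g (sta a (m + 1) p v w, shk (m + 1) w)) :=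
      hg.comp ((sta_cont a (m + 1) p v).measurable.prodMk (shk_cont (m + 1)).measurable)
    have h2 : Measurable (fun w => ∫⁻ w', g (sta a (m + 1) p v w, w') ∂(Nz ν)) := by
      apply Measurable.lintegral_prod_right' (f := fun q : (ℕ → ℝ) × (ℕ → ℝ) =>
        g (sta a (m + 1) p v q.1, q.2))
      exact hg.comp (((sta_cont a (m + 1) p v).measurable.comp measurable_fst).prodMk
        measurable_snd)
    rw [lint_cn ν h1, lint_cn ν h2]
    refine lintegral_congr fun t => ?_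
    simp_rw [sta_succ, shk_cn]
    exact ih _ _ hg

theorem markov (a : ℝ) (m : ℕ) (p : T2) (v : ℝ × ℝ) {G : (T2 × (ℝ × ℝ)) × (ℕ → ℝ) → ℝ}
    (hG : Measurable G) {K : ℝ} (hK : ∀ w w', |G (sta a m p v w, w')| ≤ K) :
    ∫ w, G (sta a m p v w, shk m w) ∂(Nz ν) =
      ∫ w, ∫ w', G (sta a m p v w, w') ∂(Nz ν) ∂(Nz ν) := by
  have m1 : Measurable (fun w => (sta a m p v w, shk m w)) :=
    (sta_cont a m p v).measurable.prodMk (shk_cont m).measurable
  have m2 : Measurable (fun q : (ℕ → ℝ) × (ℕ → ℝ) => (sta a m p v q.1, q.2)) :=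
    ((sta_cont a m p v).measurable.comp measurable_fst).prodMk measurable_snd
  have key : Measure.map (fun w => (sta a m p v w, shk m w)) (Nz ν) =
      Measure.map (fun q : (ℕ → ℝ) × (ℕ → ℝ) => (sta a m p v q.1, q.2))
        ((Nz ν).prod (Nz ν)) := by
    ext s hs
    have hg : Measurable (s.indicator (1 : (T2 × (ℝ × ℝ)) × (ℕ → ℝ) → ℝ≥0∞)) :=
      measurable_one.indicator hs
    have h1 := markov_l ν a m p v hg
    rw [← lintegral_map hg m1, lintegral_indicator_one hs] at h1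
    rw [h1]
    have h2 : ∫⁻ w, ∫⁻ w', s.indicator (1 : (T2 × (ℝ × ℝ)) × (ℕ → ℝ) → ℝ≥0∞)
        (sta a m p v w, w') ∂(Nz ν) ∂(Nz ν) = ∫⁻ q, s.indicator
        (1 : (T2 × (ℝ × ℝ)) × (ℕ → ℝ) → ℝ≥0∞) (sta a m p v q.1, q.2) ∂((Nz ν).prod (Nz ν)) := by
      rw [lintegral_prod]
      exact (hg.comp m2).aemeasurable
    rw [h2, ← lintegral_map hg m2, lintegral_indicator_one hs]
  have h1 : ∫ w, G (sta a m p v w, shk m w) ∂(Nz ν) =
      ∫ x, G x ∂(Measure.map (fun w => (sta a m p v w, shk m w)) (Nz ν)) :=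
    (integral_map m1.aemeasurable hG.aestronglyMeasurable).symm
  rw [h1, key, integral_map m2.aemeasurable hG.aestronglyMeasurable, integral_prod]
  refine Integrable.of_bound (hG.comp m2).aestronglyMeasurable K (Eventually.of_forall ?_)
  intro q
  exact hK _ _

/-- the mean growth of a vector -/
noncomputable def U (a : ℝ) (n : ℕ) (p : T2) (v : ℝ × ℝ) : ℝ :=
  ∫ w, log ‖Mn a n w p v‖ ∂(Nz ν)

theorem bd_log {a : ℝ} (ha : 2 ≤ |a|) (n : ℕ) (w : ℕ → ℝ) (p : T2) {v : ℝ × ℝ} (hv : v ≠ 0) :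
    |log ‖Mn a n w p v‖| ≤ |log ‖v‖| + n * log (KK a) := by
  have h1 := log_Mn ha n w p hv
  have h2 : log ‖Mn a n w p v‖ = log ‖v‖ + (log ‖Mn a n w p v‖ - log ‖v‖) := by ring
  rw [h2]
  exact (abs_add_le _ _).trans (by linarith)

theorem U_markov {a : ℝ} (ha : 2 ≤ |a|) (m n : ℕ) (p : T2) {v : ℝ × ℝ} (hv : v ≠ 0) :
    U ν a (m + n) p v = ∫ w, U ν a n (ob a m w p) (Mn a m w p v) ∂(Nz ν) := by
  have hG : Measurable (fun x : (T2 × (ℝ × ℝ)) × (ℕ → ℝ) => log ‖Mn a n x.2 x.1.1 x.1.2‖) := by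
    apply Real.measurable_log.comp
    apply Continuous.measurable
    apply Continuous.norm
    apply Continuous.clm_apply
    · exact (Mn_cont a n).comp (continuous_snd.prodMk (continuous_fst.comp continuous_fst))
    · exact continuous_snd.comp continuous_fst
  have h1 := markov ν a m p v hG (K := |log ‖v‖| + m * log (KK a) + n * log (KK a)) (by
    intro w w'
    have h2 := bd_log ha n w' (ob a m w p) (Mn_ne ha m w p hv)
    have h3 := bd_log ha m w p hv
    refine h2.trans ?_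
    linarith)
  have e : ∀ w, log ‖Mn a n (shk m w) (ob a m w p) (Mn a m w p v)‖ =
      log ‖Mn a (m + n) w p v‖ := by
    intro w
    rw [Mn_add]
    rfl
  have e2 : ∫ w, log ‖Mn a n (shk m w) (ob a m w p) (Mn a m w p v)‖ ∂(Nz ν) =
      U ν a (m + n) p v := by
    unfold U
    simp_rw [e]
  rw [← e2]
  exact h1

/-! ### the Lyapunov exponent -/

/-- the mean of the logarithm of the norm -/
noncomputable def AN (a : ℝ) (n : ℕ) : ℝ := ∫ w, (∫ p : T2, log ‖Mn a n w p‖) ∂(Nz ν)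

theorem int_log {a : ℝ} (ha : 2 ≤ |a|) (n : ℕ) : Integrable
    (fun q : (ℕ → ℝ) × T2 => log ‖Mn a n q.1 q.2‖) ((Nz ν).prod volume) :=
  Integrable.of_bound (log_nMn_cont ha n).measurable.aestronglyMeasurable (n * log (KK a))
    (Eventually.of_forall fun q => log_nMn ha n q.1 q.2)

theorem AN_prod {a : ℝ} (ha : 2 ≤ |a|) (n : ℕ) :
    AN ν a n = ∫ q : (ℕ → ℝ) × T2, log ‖Mn a n q.1 q.2‖ ∂((Nz ν).prod volume) :=
  (integral_prod _ (int_log ν ha n)).symm

theorem skew_mp (a : ℝ) (m : ℕ) : MeasurePreserving (fun q : (ℕ → ℝ) × T2 =>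
    (shk m q.1, ob a m q.1 q.2)) ((Nz ν).prod volume) ((Nz ν).prod volume) := by
  refine MeasurePreserving.skew_product (f := shk m) (g := fun w p => ob a m w p)
    (shk_mp ν m) ?_ ?_
  · exact (ob_cont a m).measurable
  · exact Eventually.of_forall fun w => (ob_mp a m w).map_eq

theorem AN_sub {a : ℝ} (ha : 2 ≤ |a|) (m n : ℕ) : AN ν a (m + n) ≤ AN ν a m + AN ν a n := by
  rw [AN_prod ν ha, AN_prod ν ha, AN_prod ν ha]
  have hmp := skew_mp ν a m
  have h1 : ∫ q : (ℕ → ℝ) × T2, log ‖Mn a n q.1 q.2‖ ∂((Nz ν).prod volume) =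
      ∫ q : (ℕ → ℝ) × T2, log ‖Mn a n (shk m q.1) (ob a m q.1 q.2)‖ ∂((Nz ν).prod volume) := by
    conv_lhs => rw [← hmp.map_eq]
    rw [integral_map hmp.measurable.aemeasurable (log_nMn_cont ha n).measurable.aestronglyMeasurable]
  have hi : Integrable (fun q : (ℕ → ℝ) × T2 => log ‖Mn a n (shk m q.1) (ob a m q.1 q.2)‖)
      ((Nz ν).prod volume) :=
    Integrable.of_bound ((log_nMn_cont ha n).measurable.comp hmp.measurable).aestronglyMeasurable
      (n * log (KK a)) (Eventually.of_forall fun q => log_nMn ha n _ _)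
  rw [h1, ← integral_add (int_log ν ha m) hi]
  exact integral_mono (int_log ν ha (m + n)) ((int_log ν ha m).add hi)
    fun q => log_sub ha m n q.1 q.2

theorem AN_bdd {a : ℝ} (ha : 2 ≤ |a|) (n : ℕ) : |AN ν a n| ≤ n * log (KK a) := by
  rw [AN_prod ν ha]
  have h1 := norm_integral_le_of_norm_le_const (μ := (Nz ν).prod (volume : Measure T2))
    (f := fun q : (ℕ → ℝ) × T2 => log ‖Mn a n q.1 q.2‖) (C := n * log (KK a))
    (Eventually.of_forall fun q => log_nMn ha n q.1 q.2)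
  rw [probReal_univ, mul_one] at h1
  exact h1

theorem sub_AN {a : ℝ} (ha : 2 ≤ |a|) : Subadditive (AN ν a) := fun m n => AN_sub ν ha m n

theorem bddBelow_AN {a : ℝ} (ha : 2 ≤ |a|) : BddBelow (range fun n => AN ν a n / n) := by
  refine ⟨-log (KK a), ?_⟩
  rintro _ ⟨n, rfl⟩
  have hK := KK_ge ha
  have hl : 0 ≤ log (KK a) := Real.log_nonneg (by linarith)
  have h1 := (abs_le.1 (AN_bdd ν ha n)).1
  show -log (KK a) ≤ AN ν a n / n
  rcases Nat.eq_zero_or_pos n with h | h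
  · subst h
    simp only [Nat.cast_zero, div_zero]
    linarith
  · have hn : (0:ℝ) < n := Nat.cast_pos.2 h
    rw [le_div_iff₀ hn]
    linarith

/-- the exponent exists -/
theorem lim_AN {a : ℝ} (ha : 2 ≤ |a|) :
    Tendsto (fun n => AN ν a n / n) atTop (𝓝 (sub_AN ν ha).lim) :=
  (sub_AN ν ha).tendsto_lim (bddBelow_AN ν ha)

/-- lower bound of the exponent from the growth of one vector along multiples of `k` -/
theorem lim_ge {a : ℝ} (ha : 2 ≤ |a|) {k : ℕ} (hk : 1 ≤ k) {G : ℝ}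
    (h : ∀ r : ℕ, r * G ≤ AN ν a (r * k)) : G / k ≤ (sub_AN ν ha).lim := by
  have h1 := lim_AN ν ha
  have h2 : Tendsto (fun r : ℕ => r * k) atTop atTop := tendsto_id.atTop_mul_const' (by omega)
  have h3 := h1.comp h2
  refine ge_of_tendsto h3 ?_
  filter_upwards [eventually_ge_atTop 1] with r hr
  have hr0 : (0:ℝ) < r := Nat.cast_pos.2 hr
  have hk0 : (0:ℝ) < k := Nat.cast_pos.2 hk
  show G / k ≤ AN ν a (r * k) / ((r * k : ℕ) : ℝ)
  rw [Nat.cast_mul, div_le_div_iff₀ hk0 (by positivity)]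
  have h4 := mul_le_mul_of_nonneg_right (h r) hk0.le
  linarith

/-- upper bound of the exponent -/
theorem lim_le {a : ℝ} (ha : 2 ≤ |a|) {c d : ℝ} (h : ∀ n : ℕ, AN ν a n ≤ d + n * c) :
    (sub_AN ν ha).lim ≤ c := by
  have h1 := lim_AN ν ha
  have h2 : Tendsto (fun n : ℕ => d / n + c) atTop (𝓝 (0 + c)) :=
    (tendsto_const_div_atTop_nhds_zero_nat d).add_const c
  rw [zero_add] at h2
  refine le_of_tendsto_of_tendsto h1 h2 ?_
  filter_upwards [eventually_ge_atTop 1] with n hn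
  have hn0 : (0:ℝ) < n := Nat.cast_pos.2 hn
  rw [div_le_iff₀ hn0, add_mul, div_mul_cancel₀ _ hn0.ne']
  have := h n
  linarith

end Pool.Agent.K7.H81.NZ
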