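import Pool.Agent.K7.H81.NZC

set_option autoImplicit false

/-!
# Summation over the blocks
-/

namespace Pool.Agent.K7.H81.NZ

open Real MeasureTheory Function Set Filter Topology
open Pool.Agent.TH705.SM Pool.Agent.V1152.SMI Pool.Agent.K7.H81.SM
open scoped ENNReal

variable (ν : Measure ℝ) [IsProbabilityMeasure ν]

theorem bdi {α : Type*} [MeasurableSpace α] {μ : Measure α} [IsProbabilityMeasure μ] {f : α → ℝ}
    (hf : Measurable f) {K : ℝ} (hK : ∀ x, |f x| ≤ K) : Integrable f μ :=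
  Integrable.of_bound hf.aestronglyMeasurable K (Eventually.of_forall hK)

theorem abs_int_le' {α : Type*} [MeasurableSpace α] {μ : Measure α} [IsProbabilityMeasure μ]
    {f : α → ℝ} {K : ℝ} (hK : ∀ x, |f x| ≤ K) : |∫ x, f x ∂μ| ≤ K := by
  have h1 := norm_integral_le_of_norm_le_const (μ := μ) (f := f) (C := K)
    (Eventually.of_forall fun q => hK q)
  rw [probReal_univ, mul_one] at h1
  exact h1

theorem logM_meas (a : ℝ) (n : ℕ) : Measurable (fun x : (T2 × (ℝ × ℝ)) × (ℕ → ℝ) =>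
    log ‖Mn a n x.2 x.1.1 x.1.2‖) := by
  apply Real.measurable_log.comp
  apply Continuous.measurable
  apply Continuous.norm
  apply Continuous.clm_apply
  · exact (Mn_cont a n).comp (continuous_snd.prodMk (continuous_fst.comp continuous_fst))
  · exact continuous_snd.comp continuous_fst

theorem U_meas (a : ℝ) (n : ℕ) : Measurable (fun x : T2 × (ℝ × ℝ) => U ν a n x.1 x.2) := by
  have h : StronglyMeasurable (fun q : (T2 × (ℝ × ℝ)) × (ℕ → ℝ) =>
    log ‖Mn a n q.2 q.1.1 q.1.2‖) := (logM_meas a n).stronglyMeasurable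
  exact (h.integral_prod_right (ν := Nz ν)).measurable

theorem U_bd {a : ℝ} (ha : 2 ≤ |a|) (n : ℕ) (p : T2) {v : ℝ × ℝ} (hv : v ≠ 0) :
    |U ν a n p v| ≤ |log ‖v‖| + n * log (KK a) :=
  abs_int_le' fun w => bd_log ha n w p hv

theorem e1_ne : ((1, 0) : ℝ × ℝ) ≠ 0 := by simp

theorem log_e1 : log ‖((1, 0) : ℝ × ℝ)‖ = 0 := by
  have n1 : ‖((1, 0) : ℝ × ℝ)‖ = 1 := by simp [Prod.norm_def]
  rw [n1, Real.log_one]

theorem U_state_meas (a : ℝ) (m k : ℕ) (p : T2) (v : ℝ × ℝ) :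
    Measurable (fun w => U ν a k (ob a m w p) (Mn a m w p v)) := by
  have h1 := (U_meas ν a k).comp (sta_cont a m p v).measurable
  exact h1

theorem tele_step {a : ℝ} (ha : 2 ≤ |a|) {k : ℕ} {H : T2 → ℝ} (hH : Measurable H) {K : ℝ}
    (hK : ∀ p, |H p| ≤ K) (h : ∀ (p : T2) (v : ℝ × ℝ), v ≠ 0 → log ‖v‖ + H p ≤ U ν a k p v)
    (m : ℕ) : (∫ p : T2, U ν a m p (1, 0)) + ∫ p, H p ≤ ∫ p : T2, U ν a (m + k) p (1, 0) := by
  have hKK := KK_ge ha
  have hl : 0 ≤ log (KK a) := Real.log_nonneg (by linarith)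
  have hbd : ∀ n w p, |log ‖Mn a n w p (1, 0)‖| ≤ n * log (KK a) := by
    intro n w p
    have := bd_log ha n w p e1_ne
    rwa [log_e1, abs_zero, zero_add] at this
  have hUb : ∀ n p, |U ν a n p (1, 0)| ≤ n * log (KK a) := fun n p =>
    abs_int_le' fun w => hbd n w p
  have hUm : ∀ n, Measurable (fun p : T2 => U ν a n p (1, 0)) := by
    intro n
    exact (U_meas ν a n).comp (measurable_id.prodMk measurable_const)
  have hHm : Measurable (fun q : (ℕ → ℝ) × T2 => H (ob a m q.1 q.2)) :=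
    hH.comp (ob_cont a m).measurable
  have h1 : ∀ p : T2, U ν a m p (1, 0) + ∫ w, H (ob a m w p) ∂(Nz ν) ≤
      U ν a (m + k) p (1, 0) := by
    intro p
    rw [U_markov ν ha m k p e1_ne]
    have i1 : Integrable (fun w => log ‖Mn a m w p (1, 0)‖) (Nz ν) := by
      refine bdi ?_ (hbd m · p)
      exact (log_Mn_cont ha m e1_ne).measurable.comp (measurable_id.prodMk measurable_const)
    have i2 : Integrable (fun w => H (ob a m w p)) (Nz ν) := by
      refine bdi ?_ (fun w => hK _)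
      exact hHm.comp (measurable_id.prodMk measurable_const)
    have e2 : U ν a m p (1, 0) + ∫ w, H (ob a m w p) ∂(Nz ν) =
        ∫ w, (log ‖Mn a m w p (1, 0)‖ + H (ob a m w p)) ∂(Nz ν) := (integral_add i1 i2).symm
    rw [e2]
    refine integral_mono (i1.add i2) ?_ fun w => h _ _ (Mn_ne ha m w p e1_ne)
    refine bdi (K := m * log (KK a) + k * log (KK a)) (U_state_meas ν a m k p (1, 0)) ?_
    intro w
    refine (U_bd ν ha k (ob a m w p) (Mn_ne ha m w p e1_ne)).trans ?_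
    have := hbd m w p
    linarith
  have i3 : Integrable (fun p : T2 => ∫ w, H (ob a m w p) ∂(Nz ν)) := by
    refine bdi (K := K) ?_ fun p => abs_int_le' fun w => hK _
    have h5 : StronglyMeasurable (fun q : T2 × (ℕ → ℝ) => H (ob a m q.2 q.1)) :=
      (hHm.comp measurable_swap).stronglyMeasurable
    exact (h5.integral_prod_right (ν := Nz ν)).measurable
  have i4 : Integrable (fun p : T2 => U ν a m p (1, 0)) := bdi (hUm m) (hUb m)
  have h2 : ∫ p : T2, (U ν a m p (1, 0) + ∫ w, H (ob a m w p) ∂(Nz ν)) ≤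
      ∫ p : T2, U ν a (m + k) p (1, 0) :=
    integral_mono (i4.add i3) (bdi (hUm _) (hUb _)) h1
  rw [integral_add i4 i3] at h2
  have h3 : ∫ p : T2, ∫ w, H (ob a m w p) ∂(Nz ν) = ∫ p, H p := by
    have i5 : Integrable (fun q : (ℕ → ℝ) × T2 => H (ob a m q.1 q.2)) ((Nz ν).prod volume) :=
      bdi hHm fun q => hK _
    have e3 := integral_integral_swap (μ := Nz ν) (ν := (volume : Measure T2))
      (f := fun w p => H (ob a m w p)) i5
    rw [← e3]
    have e4 : ∀ w, ∫ p, H (ob a m w p) = ∫ p, H p := by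
      intro w
      have h6 := ob_mp a m w
      conv_rhs => rw [← h6.map_eq]
      rw [integral_map h6.measurable.aemeasurable hH.aestronglyMeasurable]
    simp_rw [e4]
    rw [integral_const, probReal_univ, one_smul]
  rw [h3] at h2
  exact h2

theorem tele {a : ℝ} (ha : 2 ≤ |a|) {k : ℕ} {H : T2 → ℝ} (hH : Measurable H) {K : ℝ}
    (hK : ∀ p, |H p| ≤ K) (h : ∀ (p : T2) (v : ℝ × ℝ), v ≠ 0 → log ‖v‖ + H p ≤ U ν a k p v)
    (r : ℕ) : r * ∫ p, H p ≤ ∫ p : T2, U ν a (r * k) p (1, 0) := by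
  induction r with
  | zero =>
    rw [Nat.cast_zero, zero_mul, Nat.zero_mul]
    have e : ∀ p : T2, U ν a 0 p (1, 0) = 0 := by
      intro p
      show ∫ w, log ‖((1, 0) : ℝ × ℝ)‖ ∂(Nz ν) = 0
      rw [log_e1, integral_zero]
    simp_rw [e]
    rw [integral_zero]
  | succ r ih =>
    have h1 := tele_step ν ha hH hK h (r * k)
    rw [show (r + 1) * k = r * k + k by ring]
    push_cast
    linarith

/-- the growth of the norm and of a vector -/
theorem AN_ge {a : ℝ} (ha : 2 ≤ |a|) (n : ℕ) : ∫ p : T2, U ν a n p (1, 0) ≤ AN ν a n := by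
  have hbd : ∀ w p, |log ‖Mn a n w p (1, 0)‖| ≤ n * log (KK a) := by
    intro w p
    have := bd_log ha n w p e1_ne
    rwa [log_e1, abs_zero, zero_add] at this
  have i5 : Integrable (fun q : (ℕ → ℝ) × T2 => log ‖Mn a n q.1 q.2 (1, 0)‖)
      ((Nz ν).prod volume) := bdi (log_Mn_cont ha n e1_ne).measurable fun q => hbd _ _
  have e3 := integral_integral_swap (μ := Nz ν) (ν := (volume : Measure T2))
    (f := fun w p => log ‖Mn a n w p (1, 0)‖) i5
  have e5 : ∫ p : T2, U ν a n p (1, 0) =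
      ∫ p : T2, ∫ w, log ‖Mn a n w p (1, 0)‖ ∂(Nz ν) := rfl
  have e6 : ∫ w, (∫ p : T2, log ‖Mn a n w p (1, 0)‖) ∂(Nz ν) =
      ∫ q : (ℕ → ℝ) × T2, log ‖Mn a n q.1 q.2 (1, 0)‖ ∂((Nz ν).prod volume) :=
    (integral_prod _ i5).symm
  rw [e5, ← e3, e6, AN_prod ν ha]
  refine integral_mono i5 (int_log ν ha n) fun q => ?_
  have h1 := (Mn a n q.1 q.2).le_opNorm (1, 0)
  have n1 : ‖((1, 0) : ℝ × ℝ)‖ = 1 := by simp [Prod.norm_def]
  rw [n1, mul_one] at h1
  exact Real.log_le_log (norm_pos_iff.2 (Mn_ne ha n _ _ e1_ne)) h1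

/-- the lower bound of the exponent from one block -/
theorem lim_ge_block {a : ℝ} (ha : 2 ≤ |a|) {k : ℕ} (hk : 1 ≤ k) {H : T2 → ℝ}
    (hH : Measurable H) {K : ℝ} (hK : ∀ p, |H p| ≤ K)
    (h : ∀ (p : T2) (v : ℝ × ℝ), v ≠ 0 → log ‖v‖ + H p ≤ U ν a k p v) :
    (∫ p, H p) / k ≤ (sub_AN ν ha).lim :=
  lim_ge ν ha hk fun r => (tele ν ha hH hK h r).trans (AN_ge ν ha _)

end Pool.Agent.K7.H81.NZ
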