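import Pool.Agent.K7.H81.NZD

set_option autoImplicit false

/-!
# The direction of a vector after two random steps
-/

namespace Pool.Agent.K7.H81.NZ

open Real MeasureTheory Function Set Filter Topology
open Pool.Agent.TH705.SM Pool.Agent.V1152.SMI Pool.Agent.K7.H81.SM
open scoped ENNReal

theorem sin_norm (u : ℝ) : 2 * ‖(u : UnitAddCircle)‖ ≤ |sin (π * u)| := by
  rw [UnitAddCircle.norm_eq]
  have h1 : |sin (π * u)| = |sin (π * (u - round u))| := by
    have e : π * (u - round u) = π * u - (round u) * π := by ring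
    rw [e, sin_sub_int_mul_pi, abs_mul, abs_zpow, abs_neg, abs_one, one_zpow, one_mul]
  rw [h1]
  have hpi := pi_pos
  have h2 : |u - round u| ≤ 1 / 2 := abs_sub_round u
  have h3 : |π * (u - round u)| ≤ π / 2 := by
    rw [abs_mul, abs_of_pos hpi]
    have := mul_le_mul_of_nonneg_left h2 hpi.le
    linarith
  have h4 := mul_abs_le_abs_sin h3
  rw [abs_mul (a := π) (b := u - round u), abs_of_pos hpi] at h4
  have e : 2 / π * (π * |u - (round u : ℝ)|) = 2 * |u - (round u : ℝ)| := by
    field_simp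
  rw [e] at h4
  exact h4

theorem cos_clamp (c : ℝ) : ∃ y : ℝ, ∀ x : ℝ,
    |cos (2 * π * x) - cos (2 * π * y)| ≤ |cos (2 * π * x) - c| := by
  have hpi := pi_pos
  rcases lt_or_ge 1 c with h | h
  · refine ⟨0, fun x => ?_⟩
    have h1 := cos_le_one (2 * π * x)
    rw [mul_zero, cos_zero, abs_of_nonpos (by linarith), abs_of_nonpos (by linarith)]
    linarith
  rcases lt_or_ge c (-1) with h' | h'
  · refine ⟨1 / 2, fun x => ?_⟩
    have h1 := neg_one_le_cos (2 * π * x)
    have e : 2 * π * (1 / 2) = π := by ring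
    rw [e, cos_pi, abs_of_nonneg (by linarith), abs_of_nonneg (by linarith)]
    linarith
  · refine ⟨arccos c / (2 * π), fun x => ?_⟩
    have e : 2 * π * (arccos c / (2 * π)) = arccos c := by
      field_simp
    rw [e, cos_arccos h' h]

theorem vol_level {a : ℝ} (ha : 0 < |a|) (c : ℝ) {η : ℝ} (hη : 0 ≤ η) :
    volume {x : UnitAddCircle | |cc a x - c| < 4 * π * |a| * η ^ 2} ≤ ENNReal.ofReal (2 * η) := by
  have hpi := pi_pos
  have ha' : a ≠ 0 := abs_pos.1 ha
  obtain ⟨y, hy⟩ := cos_clamp ((c - 2) / (2 * π * a))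
  have hsub : {x : UnitAddCircle | |cc a x - c| < 4 * π * |a| * η ^ 2} ⊆
      Metric.closedBall (((-y : ℝ)) : UnitAddCircle) (η / 2) ∪
      Metric.closedBall ((y : ℝ) : UnitAddCircle) (η / 2) := by
    intro x hx
    induction x using QuotientAddGroup.induction_on with
    | H x =>
      have hx : |cc a (x : UnitAddCircle) - c| < 4 * π * |a| * η ^ 2 := hx
      rw [cc_coe] at hx
      have e : L a x - c = 2 * π * a * (cos (2 * π * x) - (c - 2) / (2 * π * a)) := by
        unfold L
        field_simp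
        ring
      rw [e, abs_mul, abs_mul, abs_of_pos (by positivity : 0 < 2 * π)] at hx
      have h1 : |cos (2 * π * x) - (c - 2) / (2 * π * a)| < 2 * η ^ 2 := by
        have h2 : 0 < 2 * π * |a| := by positivity
        have h3 : 2 * π * |a| * |cos (2 * π * x) - (c - 2) / (2 * π * a)| <
            2 * π * |a| * (2 * η ^ 2) := by
          calc _ < 4 * π * |a| * η ^ 2 := hx
            _ = _ := by ring
        exact lt_of_mul_lt_mul_left h3 h2.le
      have h2 := (hy x).trans_lt h1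
      rw [cos_sub_cos, abs_mul, abs_mul] at h2
      have e1 : (2 * π * x + 2 * π * y) / 2 = π * (x - -y) := by ring
      have e2 : (2 * π * x - 2 * π * y) / 2 = π * (x - y) := by ring
      rw [e1, e2, abs_neg, abs_of_pos (by norm_num : (0:ℝ) < 2)] at h2
      have g1 := sin_norm (x - -y)
      have g2 := sin_norm (x - y)
      rw [mem_union, Metric.mem_closedBall, Metric.mem_closedBall, dist_eq_norm, dist_eq_norm,
        ← AddCircle.coe_sub, ← AddCircle.coe_sub]
      by_contra hcon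
      rw [not_or, not_le, not_le] at hcon
      obtain ⟨c1, c2⟩ := hcon
      have d1 : η < |sin (π * (x - -y))| := by linarith
      have d2 : η < |sin (π * (x - y))| := by linarith
      nlinarith
  refine (measure_mono hsub).trans ((measure_union_le _ _).trans ?_)
  rw [AddCircle.volume_closedBall, AddCircle.volume_closedBall]
  have h3 : ENNReal.ofReal (min 1 (2 * (η / 2))) ≤ ENNReal.ofReal η :=
    ENNReal.ofReal_le_ofReal ((min_le_right _ _).trans (by linarith))
  refine (add_le_add h3 h3).trans ?_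
  rw [← ENNReal.ofReal_add hη hη]
  exact ENNReal.ofReal_le_ofReal (by linarith)

theorem lin_level {a : ℝ} (ha : 2 ≤ |a|) (B D : ℝ) {κ : ℝ} (hκ : 0 ≤ κ) :
    volume {x : UnitAddCircle | |B * cc a x + D| < κ ^ 2 * max |B| |D|} ≤
      ENNReal.ofReal (4 * κ) := by
  have hpi := pi_gt_three
  have ha0 : 0 < |a| := by linarith
  by_cases hB : 16 * |a| * |B| ≤ |D|
  · by_cases hκ2 : 1 / 2 ≤ κ
    · refine prob_le_one.trans ?_
      rw [← ENNReal.ofReal_one]
      exact ENNReal.ofReal_le_ofReal (by linarith)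
    · rw [not_le] at hκ2
      have h0 : {x : UnitAddCircle | |B * cc a x + D| < κ ^ 2 * max |B| |D|} = ∅ := by
        rw [Set.eq_empty_iff_forall_notMem]
        intro x hx
        have hx : |B * cc a x + D| < κ ^ 2 * max |B| |D| := hx
        have h1 : |B| ≤ |D| := by
          have := abs_nonneg B
          nlinarith
        rw [max_eq_right h1] at hx
        have h2 := cc_lt ha x
        have h3 : |B * cc a x| ≤ |B| * (8 * |a|) := by
          rw [abs_mul]
          exact mul_le_mul_of_nonneg_left h2.le (abs_nonneg B)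
        have h4 : |D| - |B * cc a x| ≤ |B * cc a x + D| := by
          have := abs_sub_abs_le_abs_sub D (-(B * cc a x))
          rw [abs_neg, sub_neg_eq_add, add_comm] at this
          exact this
        have h5 : 0 ≤ |D| := abs_nonneg D
        have h6 : κ ^ 2 * |D| ≤ 1 / 4 * |D| := by
          apply mul_le_mul_of_nonneg_right _ h5
          nlinarith
        linarith
      rw [h0, measure_empty]
      exact zero_le
  · rw [not_le] at hB
    have hB0 : 0 < |B| := by
      by_contra hcon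
      have : |B| = 0 := le_antisymm (not_lt.1 hcon) (abs_nonneg _)
      rw [this, mul_zero] at hB
      exact absurd hB (not_lt.2 (abs_nonneg D))
    have hB' : B ≠ 0 := abs_pos.1 hB0
    refine (measure_mono ?_).trans ((vol_level ha0 (-(D / B)) (η := 2 * κ) (by linarith)).trans
      (ENNReal.ofReal_le_ofReal (by linarith)))
    intro x hx
    have hx : |B * cc a x + D| < κ ^ 2 * max |B| |D| := hx
    show |cc a x - -(D / B)| < 4 * π * |a| * (2 * κ) ^ 2
    have h1 : max |B| |D| ≤ 16 * |a| * |B| := by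
      apply max_le _ hB.le
      nlinarith
    have e : B * cc a x + D = B * (cc a x - -(D / B)) := by
      field_simp
      ring
    rw [e, abs_mul] at hx
    have h2 : |B| * |cc a x - -(D / B)| < |B| * (16 * |a| * κ ^ 2) := by
      refine hx.trans_le ?_
      have := mul_le_mul_of_nonneg_left h1 (sq_nonneg κ)
      linarith
    have h3 := lt_of_mul_lt_mul_left h2 hB0.le
    refine h3.trans_le ?_
    have h4 : 0 ≤ |a| * κ ^ 2 := by positivity
    nlinarith

/-- the value of a functional on the vector after two steps -/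
noncomputable def vl (a : ℝ) (R V : ℝ × ℝ) (x1 x2 : UnitAddCircle) : ℝ :=
  R.1 * (Am (cc a x2) (Am (cc a x1) V)).1 + R.2 * (Am (cc a x2) (Am (cc a x1) V)).2

theorem vl_eq (a : ℝ) (R V : ℝ × ℝ) (x1 x2 : UnitAddCircle) :
    vl a R V x1 x2 = (R.1 * (V.1 * cc a x1 - V.2)) * cc a x2 +
      (R.2 * (V.1 * cc a x1 - V.2) - R.1 * V.1) := by
  unfold vl
  simp only [Am_apply]
  ring

theorem coef_low {R V : ℝ × ℝ} {W s : ℝ} (hs0 : 0 ≤ s) (hs1 : s ≤ 1)
    (hW : 4 * s ^ 2 * ‖V‖ ≤ |W|) :
    s ^ 4 * (‖R‖ * ‖V‖) ≤ max |R.1 * W| |R.2 * W - R.1 * V.1| := by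
  have hR0 := norm_nonneg R
  have hV0 := norm_nonneg V
  have hRV : 0 ≤ ‖R‖ * ‖V‖ := mul_nonneg hR0 hV0
  have hs2 : s ^ 2 ≤ 1 := by nlinarith
  have hs20 : 0 ≤ s ^ 2 := sq_nonneg s
  have hs4 : s ^ 4 = s ^ 2 * s ^ 2 := by ring
  rcases le_or_gt (s ^ 2 * ‖R‖) |R.1| with h | h
  · refine le_trans ?_ (le_max_left _ _)
    rw [abs_mul]
    have h1 : s ^ 2 * ‖R‖ * (4 * s ^ 2 * ‖V‖) ≤ |R.1| * |W| :=
      mul_le_mul h hW (by positivity) (abs_nonneg _)
    have h2 : 0 ≤ s ^ 4 * (‖R‖ * ‖V‖) := by positivity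
    have e : s ^ 2 * ‖R‖ * (4 * s ^ 2 * ‖V‖) = 4 * (s ^ 4 * (‖R‖ * ‖V‖)) := by ring
    linarith
  · refine le_trans ?_ (le_max_right _ _)
    have hR1 : |R.1| < ‖R‖ := by
      refine h.trans_le ?_
      have := mul_le_mul_of_nonneg_right hs2 hR0
      linarith
    have hR2 : ‖R‖ = |R.2| := by
      rw [Prod.norm_def, Real.norm_eq_abs, Real.norm_eq_abs]
      apply max_eq_right
      by_contra hcon
      rw [not_le] at hcon
      rw [Prod.norm_def, Real.norm_eq_abs, Real.norm_eq_abs, max_eq_left hcon.le] at hR1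
      exact lt_irrefl _ hR1
    have h1 : ‖R‖ * (4 * s ^ 2 * ‖V‖) ≤ |R.2 * W| := by
      rw [abs_mul, ← hR2]
      exact mul_le_mul_of_nonneg_left hW hR0
    have h2 : |R.1 * V.1| ≤ s ^ 2 * ‖R‖ * ‖V‖ := by
      rw [abs_mul]
      exact mul_le_mul h.le (norm_fst_le V) (abs_nonneg _) (by positivity)
    have h3 := abs_sub_abs_le_abs_sub (R.2 * W) (R.1 * V.1)
    have h4 : s ^ 4 * (‖R‖ * ‖V‖) ≤ s ^ 2 * (‖R‖ * ‖V‖) := by
      apply mul_le_mul_of_nonneg_right _ hRV
      rw [hs4]
      nlinarith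
    have h5 : 0 ≤ s ^ 2 * (‖R‖ * ‖V‖) := by positivity
    have e1 : ‖R‖ * (4 * s ^ 2 * ‖V‖) = 4 * (s ^ 2 * (‖R‖ * ‖V‖)) := by ring
    have e2 : s ^ 2 * ‖R‖ * ‖V‖ = s ^ 2 * (‖R‖ * ‖V‖) := by ring
    linarith

/-- the vector after two random steps is rarely close to the kernel of a functional -/
theorem two_level {a : ℝ} (ha : 2 ≤ |a|) (R : ℝ × ℝ) {V : ℝ × ℝ} {s : ℝ}
    (hs0 : 0 ≤ s) (hs1 : s ≤ 1) :
    ∫⁻ x1, volume {x2 : UnitAddCircle | |vl a R V x1 x2| < s ^ 8 * (‖R‖ * ‖V‖)} ≤
      ENNReal.ofReal (12 * s) := by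
  set A : Set UnitAddCircle := {x | |V.1 * cc a x + (-V.2)| < (2 * s) ^ 2 * max |V.1| |(-V.2)|}
    with hA
  have hAm : MeasurableSet A := by
    apply IsOpen.measurableSet
    have := cc_cont a
    exact isOpen_lt (by fun_prop) continuous_const
  have h1 : ∀ x1, volume {x2 : UnitAddCircle | |vl a R V x1 x2| < s ^ 8 * (‖R‖ * ‖V‖)} ≤
      A.indicator 1 x1 + ENNReal.ofReal (4 * s ^ 2) := by
    intro x1
    by_cases hx : x1 ∈ A
    · rw [Set.indicator_of_mem hx, Pi.one_apply]
      exact prob_le_one.trans (le_self_add)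
    · rw [Set.indicator_of_notMem hx, zero_add]
      have hx' : (2 * s) ^ 2 * max |V.1| |(-V.2)| ≤ |V.1 * cc a x1 + (-V.2)| := not_lt.1 hx
      have eV : max |V.1| |(-V.2)| = ‖V‖ := by
        rw [abs_neg, Prod.norm_def, Real.norm_eq_abs, Real.norm_eq_abs]
      rw [eV, ← sub_eq_add_neg] at hx'
      have h2 := coef_low (R := R) (V := V) (W := V.1 * cc a x1 - V.2) hs0 hs1 (by
        calc 4 * s ^ 2 * ‖V‖ = (2 * s) ^ 2 * ‖V‖ := by ring
          _ ≤ _ := hx')
      refine (measure_mono ?_).trans (lin_level ha (R.1 * (V.1 * cc a x1 - V.2))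
        (R.2 * (V.1 * cc a x1 - V.2) - R.1 * V.1) (κ := s ^ 2) (sq_nonneg s))
      intro x2 h3
      have h3 : |vl a R V x1 x2| < s ^ 8 * (‖R‖ * ‖V‖) := h3
      rw [vl_eq] at h3
      refine h3.trans_le ?_
      calc s ^ 8 * (‖R‖ * ‖V‖) = (s ^ 2) ^ 2 * (s ^ 4 * (‖R‖ * ‖V‖)) := by ring
        _ ≤ _ := mul_le_mul_of_nonneg_left h2 (by positivity)
  refine (lintegral_mono h1).trans ?_
  rw [lintegral_add_right _ measurable_const, lintegral_indicator_one hAm, lintegral_const,
    measure_univ, mul_one]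
  have h2 := lin_level ha V.1 (-V.2) (κ := 2 * s) (by linarith)
  refine (add_le_add_left h2 _).trans ?_
  rw [← ENNReal.ofReal_add (by positivity) (by positivity)]
  apply ENNReal.ofReal_le_ofReal
  nlinarith

end Pool.Agent.K7.H81.NZ
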