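import Pool.Agent.K7.H81.NZE

set_option autoImplicit false

/-!
# Lower bound of the growth of an arbitrary vector by the growth of a functional
-/

namespace Pool.Agent.K7.H81.NZ

open Real MeasureTheory Function Set Filter Topology
open Pool.Agent.TH705.SM Pool.Agent.V1152.SMI Pool.Agent.K7.H81.SM
open scoped ENNReal

/-- the first row of a matrix -/
noncomputable def rw1 (M : ℝ × ℝ →L[ℝ] ℝ × ℝ) : ℝ × ℝ := ((M (1, 0)).1, (M (0, 1)).1)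

theorem rw1_apply (M : ℝ × ℝ →L[ℝ] ℝ × ℝ) (u : ℝ × ℝ) :
    (M u).1 = (rw1 M).1 * u.1 + (rw1 M).2 * u.2 := by
  have h : u = u.1 • ((1, 0) : ℝ × ℝ) + u.2 • ((0, 1) : ℝ × ℝ) := by
    ext <;> simp
  conv_lhs => rw [h]
  rw [map_add, map_smul, map_smul]
  unfold rw1
  simp only [Prod.fst_add, Prod.smul_fst, smul_eq_mul]
  ring

theorem rw1_cont : Continuous rw1 := by
  unfold rw1
  fun_prop

theorem rw1_comp (M : ℝ × ℝ →L[ℝ] ℝ × ℝ) (c : ℝ) :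
    rw1 (M.comp (Am c)) = (c * (rw1 M).1 + (rw1 M).2, -(rw1 M).1) := by
  have h1 : (rw1 (M.comp (Am c))).1 = c * (rw1 M).1 + (rw1 M).2 := by
    show (M (Am c (1, 0))).1 = _
    rw [rw1_apply, Am_apply]
    simp only
    ring
  have h2 : (rw1 (M.comp (Am c))).2 = -(rw1 M).1 := by
    show (M (Am c (0, 1))).1 = _
    rw [rw1_apply, Am_apply]
    simp only
    ring
  exact Prod.ext h1 h2

theorem rw1_low {c K : ℝ} (hK : 1 + |c| ≤ K) (M : ℝ × ℝ →L[ℝ] ℝ × ℝ) :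
    ‖rw1 M‖ ≤ K * ‖rw1 (M.comp (Am c))‖ := by
  rw [rw1_comp]
  set r := rw1 M
  set z : ℝ × ℝ := (c * r.1 + r.2, -r.1) with hz
  have h1 : |c * r.1 + r.2| ≤ ‖z‖ := norm_fst_le z
  have h2 : |r.1| ≤ ‖z‖ := by
    have := norm_snd_le z
    rw [hz] at this
    simp only [norm_neg] at this
    exact this
  have h3 : 0 ≤ ‖z‖ := norm_nonneg _
  have h4 : (1 + |c|) * ‖z‖ ≤ K * ‖z‖ := mul_le_mul_of_nonneg_right hK h3
  have h5 : |c| * |r.1| ≤ |c| * ‖z‖ := mul_le_mul_of_nonneg_left h2 (abs_nonneg c)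
  have h6 : 0 ≤ |c| * ‖z‖ := by positivity
  rw [Prod.norm_def r, Real.norm_eq_abs, Real.norm_eq_abs]
  apply max_le
  · linarith
  · have h7 : |r.2| ≤ |c * r.1 + r.2| + |c * r.1| := by
      have : r.2 = (c * r.1 + r.2) - c * r.1 := by ring
      calc |r.2| = |(c * r.1 + r.2) - c * r.1| := by rw [← this]
        _ ≤ _ := abs_sub _ _
    rw [abs_mul] at h7
    linarith

theorem rw1_le (M : ℝ × ℝ →L[ℝ] ℝ × ℝ) : ‖rw1 M‖ ≤ ‖M‖ := by
  have n1 : ‖((1, 0) : ℝ × ℝ)‖ = 1 := by simp [Prod.norm_def]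
  have n2 : ‖((0, 1) : ℝ × ℝ)‖ = 1 := by simp [Prod.norm_def]
  have h1 := M.le_opNorm (1, 0)
  have h2 := M.le_opNorm (0, 1)
  rw [n1, mul_one] at h1
  rw [n2, mul_one] at h2
  rw [Prod.norm_def (rw1 M)]
  exact max_le ((norm_fst_le (M (1, 0))).trans h1) ((norm_fst_le (M (0, 1))).trans h2)

/-- the first row of the cocycle -/
noncomputable def ro (a : ℝ) (n : ℕ) (w : ℕ → ℝ) (p : T2) : ℝ × ℝ := rw1 (Mn a n w p)

theorem ro_cont (a : ℝ) (n : ℕ) : Continuous (fun q : (ℕ → ℝ) × T2 => ro a n q.1 q.2) :=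
  rw1_cont.comp (Mn_cont a n)

theorem ro_ge {a : ℝ} (ha : 2 ≤ |a|) (n : ℕ) : ∀ (w : ℕ → ℝ) (p : T2),
    1 ≤ KK a ^ n * ‖ro a n w p‖ := by
  have hK := KK_ge ha
  induction n with
  | zero =>
    intro w p
    have e : ro a 0 w p = (1, 0) := by
      unfold ro rw1
      show (((1, 0) : ℝ × ℝ).1, ((0, 1) : ℝ × ℝ).1) = (1, 0)
      rfl
    rw [e, pow_zero, one_mul]
    simp [Prod.norm_def]
  | succ n ih =>
    intro w p
    refine (ih (sh w) (st a (w 0) p)).trans ?_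
    rw [pow_succ, mul_assoc]
    exact mul_le_mul_of_nonneg_left (rw1_low (cc_KK ha p.1) _) (by positivity)

theorem ro_pos {a : ℝ} (ha : 2 ≤ |a|) (n : ℕ) (w : ℕ → ℝ) (p : T2) : 0 < ‖ro a n w p‖ := by
  by_contra h
  have h1 : ‖ro a n w p‖ = 0 := le_antisymm (not_lt.1 h) (norm_nonneg _)
  have h2 := ro_ge ha n w p
  rw [h1, mul_zero] at h2
  linarith

theorem log_ro {a : ℝ} (ha : 2 ≤ |a|) (n : ℕ) (w : ℕ → ℝ) (p : T2) :
    |log ‖ro a n w p‖| ≤ n * log (KK a) := by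
  have hK := KK_ge ha
  have hK0 : 0 < KK a := by linarith
  have h1 := ro_pos ha n w p
  have h2 := Real.log_le_log h1 ((rw1_le _).trans (nMn_le ha n w p))
  have h3 := Real.log_le_log one_pos (ro_ge ha n w p)
  rw [Real.log_pow] at h2
  rw [Real.log_one, Real.log_mul (by positivity) h1.ne', Real.log_pow] at h3
  rw [abs_le]
  constructor <;> linarith

theorem log_ro_cont {a : ℝ} (ha : 2 ≤ |a|) (n : ℕ) :
    Continuous (fun q : (ℕ → ℝ) × T2 => log ‖ro a n q.1 q.2‖) :=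
  (ro_cont a n).norm.log fun q => (ro_pos ha n q.1 q.2).ne'

/-! ### the domination of the noise by the uniform distribution -/

variable (ν : Measure ℝ) [IsProbabilityMeasure ν]

/-- the noise has a density at most `B` on the circle -/
def Spr (B : ℝ≥0∞) : Prop := ∀ (g : UnitAddCircle → ℝ≥0∞), Measurable g → ∀ c : UnitAddCircle,
  ∫⁻ t, g (c + (t : UnitAddCircle)) ∂ν ≤ B * ∫⁻ y, g y

theorem dom1 {B : ℝ≥0∞} (hB : Spr ν B) {F : UnitAddCircle → (ℕ → ℝ) → ℝ≥0∞}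
    (hF : Measurable (uncurry F)) (c : UnitAddCircle) :
    ∫⁻ w, F (c + (w 0 : UnitAddCircle)) (sh w) ∂(Nz ν) ≤ B * ∫⁻ y, ∫⁻ w, F y w ∂(Nz ν) := by
  have hco : Measurable (fun t : ℝ => (t : UnitAddCircle)) :=
    (AddCircle.continuous_mk' 1).measurable
  have h0 : Measurable (fun w : ℕ → ℝ => w 0) := measurable_pi_apply 0
  have h1 : Measurable (fun w : ℕ → ℝ => F (c + (w 0 : UnitAddCircle)) (sh w)) :=
    hF.comp (((hco.comp h0).const_add c).prodMk sh_cont.measurable)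
  rw [lint_cn ν h1]
  have h2 : Measurable (fun y => ∫⁻ w, F y w ∂(Nz ν)) :=
    Measurable.lintegral_prod_right' (f := uncurry F) hF
  exact hB _ h2 c

theorem dom4 (a : ℝ) {B : ℝ≥0∞} (hB : Spr ν B) (p : T2)
    {G : UnitAddCircle → UnitAddCircle → UnitAddCircle → UnitAddCircle → (ℕ → ℝ) → ℝ≥0∞}
    (hG : Measurable (fun x : UnitAddCircle × UnitAddCircle × UnitAddCircle × UnitAddCircle ×
      (ℕ → ℝ) => G x.1 x.2.1 x.2.2.1 x.2.2.2.1 x.2.2.2.2)) :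
    ∫⁻ w, G (ob a 1 w p).1 (ob a 2 w p).1 (ob a 3 w p).1 (ob a 4 w p).1 (shk 4 w) ∂(Nz ν) ≤
      B ^ 4 * ∫⁻ y1, ∫⁻ y2, ∫⁻ y3, ∫⁻ y4, ∫⁻ w, G y1 y2 y3 y4 w ∂(Nz ν) := by
  have hphi := (phi_cont a).measurable
  have hco : Measurable (fun t : ℝ => (t : UnitAddCircle)) :=
    (AddCircle.continuous_mk' 1).measurable
  have h0 : Measurable (fun w : ℕ → ℝ => (w 0 : UnitAddCircle)) :=
    hco.comp (measurable_pi_apply 0)
  have hsh : Measurable sh := sh_cont.measurable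
  set F3 : UnitAddCircle → UnitAddCircle → UnitAddCircle → (ℕ → ℝ) → ℝ≥0∞ :=
    fun y1 y2 y3 w => G y1 y2 y3 (phi a y3 - y2 + (w 0 : UnitAddCircle)) (sh w) with hF3
  set F2 : UnitAddCircle → UnitAddCircle → (ℕ → ℝ) → ℝ≥0∞ :=
    fun y1 y2 w => F3 y1 y2 (phi a y2 - y1 + (w 0 : UnitAddCircle)) (sh w) with hF2
  set F1 : UnitAddCircle → (ℕ → ℝ) → ℝ≥0∞ :=
    fun y1 w => F2 y1 (phi a y1 - p.1 + (w 0 : UnitAddCircle)) (sh w) with hF1
  have m3 : Measurable (fun x : UnitAddCircle × UnitAddCircle × UnitAddCircle × (ℕ → ℝ) =>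
      F3 x.1 x.2.1 x.2.2.1 x.2.2.2) := by
    refine hG.comp (f := fun x : UnitAddCircle × UnitAddCircle × UnitAddCircle × (ℕ → ℝ) =>
      (x.1, x.2.1, x.2.2.1, phi a x.2.2.1 - x.2.1 + (x.2.2.2 0 : UnitAddCircle),
        sh x.2.2.2)) ?_
    fun_prop
  have m2 : Measurable (fun x : UnitAddCircle × UnitAddCircle × (ℕ → ℝ) =>
      F2 x.1 x.2.1 x.2.2) := by
    refine m3.comp (f := fun x : UnitAddCircle × UnitAddCircle × (ℕ → ℝ) =>
      (x.1, x.2.1, phi a x.2.1 - x.1 + (x.2.2 0 : UnitAddCircle), sh x.2.2)) ?_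
    fun_prop
  have m1 : Measurable (uncurry F1) := by
    refine m2.comp (f := fun x : UnitAddCircle × (ℕ → ℝ) =>
      (x.1, phi a x.1 - p.1 + (x.2 0 : UnitAddCircle), sh x.2)) ?_
    fun_prop
  have e0 : ∀ w, G (ob a 1 w p).1 (ob a 2 w p).1 (ob a 3 w p).1 (ob a 4 w p).1 (shk 4 w) =
      F1 (phi a p.1 - p.2 + (w 0 : UnitAddCircle)) (sh w) := fun w => rfl
  simp_rw [e0]
  refine (dom1 ν hB m1 _).trans ?_
  have s2 : ∀ y1, ∫⁻ w, F1 y1 w ∂(Nz ν) ≤ B * ∫⁻ y2, ∫⁻ w, F2 y1 y2 w ∂(Nz ν) := by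
    intro y1
    refine dom1 ν hB (F := F2 y1) ?_ _
    exact m2.comp (f := fun x : UnitAddCircle × (ℕ → ℝ) => (y1, x.1, x.2)) (by fun_prop)
  have s3 : ∀ y1 y2, ∫⁻ w, F2 y1 y2 w ∂(Nz ν) ≤ B * ∫⁻ y3, ∫⁻ w, F3 y1 y2 y3 w ∂(Nz ν) := by
    intro y1 y2
    refine dom1 ν hB (F := F3 y1 y2) ?_ _
    exact m3.comp (f := fun x : UnitAddCircle × (ℕ → ℝ) => (y1, y2, x.1, x.2)) (by fun_prop)
  have s4 : ∀ y1 y2 y3, ∫⁻ w, F3 y1 y2 y3 w ∂(Nz ν) ≤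
      B * ∫⁻ y4, ∫⁻ w, G y1 y2 y3 y4 w ∂(Nz ν) := by
    intro y1 y2 y3
    refine dom1 ν hB (F := G y1 y2 y3) ?_ _
    exact hG.comp (f := fun x : UnitAddCircle × (ℕ → ℝ) => (y1, y2, y3, x.1, x.2)) (by fun_prop)
  have mG4 : Measurable (fun x : UnitAddCircle × UnitAddCircle × UnitAddCircle × UnitAddCircle =>
      ∫⁻ w, G x.1 x.2.1 x.2.2.1 x.2.2.2 w ∂(Nz ν)) := by
    apply Measurable.lintegral_prod_right' (f := fun q : (UnitAddCircle × UnitAddCircle ×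
      UnitAddCircle × UnitAddCircle) × (ℕ → ℝ) => G q.1.1 q.1.2.1 q.1.2.2.1 q.1.2.2.2 q.2)
    exact hG.comp (f := fun q : (UnitAddCircle × UnitAddCircle × UnitAddCircle ×
      UnitAddCircle) × (ℕ → ℝ) => (q.1.1, q.1.2.1, q.1.2.2.1, q.1.2.2.2, q.2)) (by fun_prop)
  have mG3 : Measurable (fun x : UnitAddCircle × UnitAddCircle × UnitAddCircle =>
      ∫⁻ y4, ∫⁻ w, G x.1 x.2.1 x.2.2 y4 w ∂(Nz ν)) := by
    apply Measurable.lintegral_prod_right' (f := fun q : (UnitAddCircle × UnitAddCircle ×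
      UnitAddCircle) × UnitAddCircle => ∫⁻ w, G q.1.1 q.1.2.1 q.1.2.2 q.2 w ∂(Nz ν))
    exact mG4.comp (f := fun q : (UnitAddCircle × UnitAddCircle × UnitAddCircle) ×
      UnitAddCircle => (q.1.1, q.1.2.1, q.1.2.2, q.2)) (by fun_prop)
  have mG2 : Measurable (fun x : UnitAddCircle × UnitAddCircle =>
      ∫⁻ y3, ∫⁻ y4, ∫⁻ w, G x.1 x.2 y3 y4 w ∂(Nz ν)) := by
    apply Measurable.lintegral_prod_right' (f := fun q : (UnitAddCircle × UnitAddCircle) ×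
      UnitAddCircle => ∫⁻ y4, ∫⁻ w, G q.1.1 q.1.2 q.2 y4 w ∂(Nz ν))
    exact mG3.comp (f := fun q : (UnitAddCircle × UnitAddCircle) × UnitAddCircle =>
      (q.1.1, q.1.2, q.2)) (by fun_prop)
  have mG1 : Measurable (fun x : UnitAddCircle =>
      ∫⁻ y2, ∫⁻ y3, ∫⁻ y4, ∫⁻ w, G x y2 y3 y4 w ∂(Nz ν)) :=
    Measurable.lintegral_prod_right' (f := fun q : UnitAddCircle × UnitAddCircle =>
      ∫⁻ y3, ∫⁻ y4, ∫⁻ w, G q.1 q.2 y3 y4 w ∂(Nz ν)) mG2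
  have r3 : ∀ y1 y2, ∫⁻ w, F2 y1 y2 w ∂(Nz ν) ≤
      B ^ 2 * ∫⁻ y3, ∫⁻ y4, ∫⁻ w, G y1 y2 y3 y4 w ∂(Nz ν) := by
    intro y1 y2
    refine (s3 y1 y2).trans ?_
    rw [pow_two, mul_assoc]
    gcongr
    refine (lintegral_mono (s4 y1 y2)).trans (le_of_eq ?_)
    apply lintegral_const_mul
    exact mG3.comp (f := fun q : UnitAddCircle => (y1, y2, q)) (by fun_prop)
  have r2 : ∀ y1, ∫⁻ w, F1 y1 w ∂(Nz ν) ≤
      B ^ 3 * ∫⁻ y2, ∫⁻ y3, ∫⁻ y4, ∫⁻ w, G y1 y2 y3 y4 w ∂(Nz ν) := by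
    intro y1
    refine (s2 y1).trans ?_
    rw [pow_succ', mul_assoc]
    gcongr
    refine (lintegral_mono (r3 y1)).trans (le_of_eq ?_)
    apply lintegral_const_mul
    exact mG2.comp (f := fun q : UnitAddCircle => (y1, q)) (by fun_prop)
  rw [pow_succ' B 3, mul_assoc]
  gcongr
  refine (lintegral_mono r2).trans (le_of_eq ?_)
  exact lintegral_const_mul _ mG1

end Pool.Agent.K7.H81.NZ
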