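import Pool.Agent.K7.H81.NZF

set_option autoImplicit false

/-!
# The growth of an arbitrary vector over one block
-/

namespace Pool.Agent.K7.H81.NZ

open Real MeasureTheory Function Set Filter Topology
open Pool.Agent.TH705.SM Pool.Agent.V1152.SMI Pool.Agent.K7.H81.SM
open scoped ENNReal

/-- five variables -/
abbrev X5 := UnitAddCircle × UnitAddCircle × UnitAddCircle × UnitAddCircle × (ℕ → ℝ)

/-- the functional in terms of the positions -/
noncomputable def rf (a : ℝ) (N : ℕ) (y3 y4 : UnitAddCircle) (w : ℕ → ℝ) : ℝ × ℝ :=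
  rw1 ((Mn a N w (y4, y3)).comp (Am (cc a y3)))

theorem rf_meas (a : ℝ) (N : ℕ) :
    Measurable (fun x : X5 => rf a N x.2.2.1 x.2.2.2.1 x.2.2.2.2) := by
  have h1 : Measurable (fun q : (ℕ → ℝ) × T2 => ro a N q.1 q.2) := (ro_cont a N).measurable
  have h2 : Measurable (fun x : X5 => ro a N x.2.2.2.2 (x.2.2.2.1, x.2.2.1)) :=
    h1.comp (f := fun x : X5 => (x.2.2.2.2, ((x.2.2.2.1, x.2.2.1) : T2))) (by fun_prop)
  have h3 : Measurable (fun x : X5 => cc a x.2.2.1) :=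
    (cc_cont a).measurable.comp (by fun_prop)
  have e : (fun x : X5 => rf a N x.2.2.1 x.2.2.2.1 x.2.2.2.2) = fun x : X5 =>
      (cc a x.2.2.1 * (ro a N x.2.2.2.2 (x.2.2.2.1, x.2.2.1)).1 +
        (ro a N x.2.2.2.2 (x.2.2.2.1, x.2.2.1)).2,
        -(ro a N x.2.2.2.2 (x.2.2.2.1, x.2.2.1)).1) := by
    funext x
    exact rw1_comp _ _
  rw [e]
  exact ((h3.mul h2.fst).add h2.snd).prodMk h2.fst.neg

theorem vl_cont (a : ℝ) (V : ℝ × ℝ) : Continuous (fun x : (ℝ × ℝ) × UnitAddCircle × UnitAddCircle =>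
    vl a x.1 V x.2.1 x.2.2) := by
  have := cc_cont a
  simp_rw [vl_eq]
  fun_prop

/-- the exceptional set -/
def Es (a s : ℝ) (N : ℕ) (V : ℝ × ℝ) : Set X5 :=
  {x | |vl a (rf a N x.2.2.1 x.2.2.2.1 x.2.2.2.2) V x.1 x.2.1| <
    s ^ 8 * (‖rf a N x.2.2.1 x.2.2.2.1 x.2.2.2.2‖ * ‖V‖)}

theorem Es_meas (a s : ℝ) (N : ℕ) (V : ℝ × ℝ) : MeasurableSet (Es a s N V) := by
  have h1 := rf_meas a N
  have h2 : Measurable (fun x : X5 => vl a (rf a N x.2.2.1 x.2.2.2.1 x.2.2.2.2) V x.1 x.2.1) :=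
    (vl_cont a V).measurable.comp (h1.prodMk (measurable_fst.prodMk
      (measurable_fst.comp measurable_snd)))
  exact measurableSet_lt h2.abs ((h1.norm.mul_const _).const_mul _)

variable (ν : Measure ℝ) [IsProbabilityMeasure ν]

theorem prob_E {a : ℝ} (ha : 2 ≤ |a|) {B : ℝ≥0∞} (hB : Spr ν B) (N : ℕ) (p : T2) (V : ℝ × ℝ)
    {s : ℝ} (hs0 : 0 ≤ s) (hs1 : s ≤ 1) :
    Nz ν {w | |vl a (ro a (N + 1) (shk 3 w) (ob a 3 w p)) V (ob a 1 w p).1 (ob a 2 w p).1| <
      s ^ 8 * (‖ro a (N + 1) (shk 3 w) (ob a 3 w p)‖ * ‖V‖)} ≤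
      B ^ 4 * ENNReal.ofReal (12 * s) := by
  set E := {w | |vl a (ro a (N + 1) (shk 3 w) (ob a 3 w p)) V (ob a 1 w p).1 (ob a 2 w p).1| <
      s ^ 8 * (‖ro a (N + 1) (shk 3 w) (ob a 3 w p)‖ * ‖V‖)} with hE
  have hEs := Es_meas a s N V
  set G : UnitAddCircle → UnitAddCircle → UnitAddCircle → UnitAddCircle → (ℕ → ℝ) → ℝ≥0∞ :=
    fun y1 y2 y3 y4 w => (Es a s N V).indicator 1 (y1, y2, y3, y4, w) with hG
  have hGm : Measurable (fun x : X5 => G x.1 x.2.1 x.2.2.1 x.2.2.2.1 x.2.2.2.2) :=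
    measurable_one.indicator hEs
  have obm : ∀ n, Measurable (fun w => (ob a n w p).1) := fun n =>
    measurable_fst.comp ((ob_cont a n).measurable.comp (measurable_id.prodMk measurable_const))
  have hmap : Measurable (fun w : ℕ → ℝ => (((ob a 1 w p).1, (ob a 2 w p).1, (ob a 3 w p).1,
      (ob a 4 w p).1, shk 4 w) : X5)) :=
    (obm 1).prodMk ((obm 2).prodMk ((obm 3).prodMk ((obm 4).prodMk (shk_cont 4).measurable)))
  have hEE : E = (fun w : ℕ → ℝ => (((ob a 1 w p).1, (ob a 2 w p).1, (ob a 3 w p).1,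
      (ob a 4 w p).1, shk 4 w) : X5)) ⁻¹' (Es a s N V) := rfl
  have hEm : MeasurableSet E := by
    rw [hEE]
    exact hmap hEs
  have h1 := dom4 ν a hB p hGm
  have h2 : Nz ν E = ∫⁻ w, G (ob a 1 w p).1 (ob a 2 w p).1 (ob a 3 w p).1 (ob a 4 w p).1
      (shk 4 w) ∂(Nz ν) := by
    rw [← lintegral_indicator_one hEm]
    rfl
  rw [h2]
  refine h1.trans ?_
  gcongr
  -- exchange the order of integration
  set μ3 : Measure (UnitAddCircle × UnitAddCircle × (ℕ → ℝ)) :=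
    (volume : Measure UnitAddCircle).prod ((volume : Measure UnitAddCircle).prod (Nz ν)) with hμ3
  have e1 : ∀ y1 y2, ∫⁻ y3, ∫⁻ y4, ∫⁻ w, G y1 y2 y3 y4 w ∂(Nz ν) =
      ∫⁻ z, G y1 y2 z.1 z.2.1 z.2.2 ∂μ3 := by
    intro y1 y2
    have m1 : Measurable (fun z : UnitAddCircle × UnitAddCircle × (ℕ → ℝ) =>
        G y1 y2 z.1 z.2.1 z.2.2) :=
      hGm.comp (f := fun z : UnitAddCircle × UnitAddCircle × (ℕ → ℝ) =>
        (y1, y2, z.1, z.2.1, z.2.2)) (by fun_prop)
    rw [hμ3, lintegral_prod _ m1.aemeasurable]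
    refine lintegral_congr fun y3 => ?_
    rw [lintegral_prod]
    exact (m1.comp (f := fun z : UnitAddCircle × (ℕ → ℝ) => (y3, z.1, z.2))
      (by fun_prop)).aemeasurable
  simp_rw [e1]
  have e2 : ∀ y1, ∫⁻ y2, (∫⁻ z, G y1 y2 z.1 z.2.1 z.2.2 ∂μ3) =
      ∫⁻ z, (∫⁻ y2, G y1 y2 z.1 z.2.1 z.2.2) ∂μ3 := by
    intro y1
    apply lintegral_lintegral_swap
    exact (hGm.comp (f := fun x : UnitAddCircle × (UnitAddCircle × UnitAddCircle × (ℕ → ℝ)) =>
      (y1, x.1, x.2.1, x.2.2.1, x.2.2.2)) (by fun_prop)).aemeasurable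
  simp_rw [e2]
  rw [lintegral_lintegral_swap]
  · refine (lintegral_mono (g := fun _ => ENNReal.ofReal (12 * s)) fun z => ?_).trans ?_
    · have h3 := two_level ha (rf a N z.1 z.2.1 z.2.2) (V := V) hs0 hs1
      refine (lintegral_mono fun y1 => ?_).trans h3
      have hms : MeasurableSet {x2 : UnitAddCircle | |vl a (rf a N z.1 z.2.1 z.2.2) V y1 x2| <
          s ^ 8 * (‖rf a N z.1 z.2.1 z.2.2‖ * ‖V‖)} := by
        have : Measurable (fun x2 : UnitAddCircle => ((y1, x2, z.1, z.2.1, z.2.2) : X5)) := by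
          fun_prop
        exact this hEs
      rw [← lintegral_indicator_one hms]
      exact le_rfl
    · rw [lintegral_const, measure_univ, mul_one]
  · have m5 : Measurable (fun q : (UnitAddCircle × (UnitAddCircle × UnitAddCircle × (ℕ → ℝ))) ×
        UnitAddCircle => G q.1.1 q.2 q.1.2.1 q.1.2.2.1 q.1.2.2.2) :=
      hGm.comp (f := fun q : (UnitAddCircle × (UnitAddCircle × UnitAddCircle × (ℕ → ℝ))) ×
        UnitAddCircle => (q.1.1, q.2, q.1.2.1, q.1.2.2.1, q.1.2.2.2)) (by fun_prop)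
    exact (Measurable.lintegral_prod_right' m5).aemeasurable

/-- the value of the first coordinate -/
theorem val_eq (a : ℝ) (N : ℕ) (w : ℕ → ℝ) (p : T2) (v : ℝ × ℝ) :
    (Mn a (N + 4) w p v).1 = vl a (ro a (N + 1) (shk 3 w) (ob a 3 w p)) (Am (cc a p.1) v)
      (ob a 1 w p).1 (ob a 2 w p).1 := by
  have e : N + 4 = 3 + (N + 1) := by omega
  rw [e, Mn_add, ContinuousLinearMap.comp_apply, rw1_apply]
  rfl

theorem int_lb {Ω : Type*} [MeasurableSpace Ω] {μ : Measure Ω} [IsProbabilityMeasure μ]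
    {f g : Ω → ℝ} {E : Set Ω} (hE : MeasurableSet E) (hf : Integrable f μ) (hg : Integrable g μ)
    {c1 c2 c3 : ℝ} (h : ∀ w, c1 + (f w + c2 - c3 * E.indicator (fun _ => (1:ℝ)) w) ≤ g w) :
    c1 + ((∫ w, f w ∂μ) + c2 - c3 * μ.real E) ≤ ∫ w, g w ∂μ := by
  have i2 : Integrable (fun w => E.indicator (fun _ => (1:ℝ)) w) μ :=
    (integrable_const 1).indicator hE
  have i4 : Integrable (fun w => f w + c2) μ := hf.add (integrable_const _)
  have i5 : Integrable (fun w => c3 * E.indicator (fun _ => (1:ℝ)) w) μ := i2.const_mul _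
  have i6 : Integrable (fun w => f w + c2 - c3 * E.indicator (fun _ => (1:ℝ)) w) μ := i4.sub i5
  have i7 : Integrable (fun w => c1 + (f w + c2 - c3 * E.indicator (fun _ => (1:ℝ)) w)) μ :=
    (integrable_const _).add i6
  have h1 := integral_mono i7 hg h
  rw [integral_add (integrable_const _) i6, integral_sub i4 i5,
    integral_add hf (integrable_const _), integral_const_mul, integral_indicator hE] at h1
  simpa only [integral_const, probReal_univ, one_smul, one_mul, smul_eq_mul, mul_one,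
      measureReal_restrict_apply_univ] using h1

theorem logMw_int {a : ℝ} (ha : 2 ≤ |a|) (n : ℕ) (p : T2) {v : ℝ × ℝ} (hv : v ≠ 0) :
    Integrable (fun w => log ‖Mn a n w p v‖) (Nz ν) := by
  have h7 : Measurable (fun w => log ‖Mn a n w p v‖) :=
    (log_Mn_cont ha n hv).measurable.comp (measurable_id.prodMk measurable_const)
  exact bdi (K := |log ‖v‖| + n * log (KK a)) h7 fun w => bd_log ha n w p hv

theorem point {a : ℝ} (ha : 2 ≤ |a|) {b : ℝ} (hb : 0 ≤ b) (hB : Spr ν (ENNReal.ofReal b)) (N : ℕ)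
    {s : ℝ} (hs0 : 0 < s) (hs1 : s ≤ 1) (p : T2) {v : ℝ × ℝ} (hv : v ≠ 0) :
    log ‖v‖ + ((∫ w, log ‖ro a (N + 1) (shk 3 w) (ob a 3 w p)‖ ∂(Nz ν)) + (8 * log s -
      log (KK a) - (2 * N + 5) * log (KK a) * (b ^ 4 * (12 * s)))) ≤ U ν a (N + 4) p v := by
  have hK := KK_ge ha
  have hK0 : 0 < KK a := by linarith
  have hl : 0 ≤ log (KK a) := Real.log_nonneg (by linarith)
  have hls : log s ≤ 0 := Real.log_nonpos hs0.le hs1
  set V := Am (cc a p.1) v with hV
  set R : (ℕ → ℝ) → ℝ × ℝ := fun w => ro a (N + 1) (shk 3 w) (ob a 3 w p) with hR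
  set E := {w | |vl a (ro a (N + 1) (shk 3 w) (ob a 3 w p)) V (ob a 1 w p).1 (ob a 2 w p).1| <
      s ^ 8 * (‖ro a (N + 1) (shk 3 w) (ob a 3 w p)‖ * ‖V‖)} with hE
  have obm : ∀ n, Measurable (fun w => ob a n w p) := fun n =>
    (ob_cont a n).measurable.comp (measurable_id.prodMk measurable_const)
  have hRm : Measurable R :=
    (ro_cont a (N + 1)).measurable.comp ((shk_cont 3).measurable.prodMk (obm 3))
  have hEm : MeasurableSet E := by
    have h1 : Measurable (fun w => vl a (R w) V (ob a 1 w p).1 (ob a 2 w p).1) :=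
      (vl_cont a V).measurable.comp (hRm.prodMk ((measurable_fst.comp (obm 1)).prodMk
        (measurable_fst.comp (obm 2))))
    exact measurableSet_lt h1.abs ((hRm.norm.mul_const _).const_mul _)
  have hv0 : 0 < ‖v‖ := norm_pos_iff.2 hv
  have hVl := Am_low (cc_KK ha p.1) v
  have hV0 : 0 < ‖V‖ := by
    by_contra hcon
    have : ‖V‖ = 0 := le_antisymm (not_lt.1 hcon) (norm_nonneg _)
    rw [← hV, this, mul_zero] at hVl
    linarith
  have hlV : log ‖v‖ ≤ log (KK a) + log ‖V‖ := by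
    rw [← Real.log_mul hK0.ne' hV0.ne']
    exact Real.log_le_log hv0 hVl
  -- the pointwise inequality
  have hpt : ∀ w, log ‖v‖ + (log ‖R w‖ + (8 * log s - log (KK a)) -
      (2 * N + 5) * log (KK a) * E.indicator (fun _ => (1:ℝ)) w) ≤
      log ‖Mn a (N + 4) w p v‖ := by
    intro w
    have hRp : 0 < ‖R w‖ := ro_pos ha _ _ _
    by_cases hw : w ∈ E
    · rw [Set.indicator_of_mem hw, mul_one]
      have h1 := (abs_le.1 (log_Mn ha (N + 4) w p hv)).1
      have h2 := (abs_le.1 (log_ro ha (N + 1) (shk 3 w) (ob a 3 w p))).2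
      have h3 : log ‖R w‖ ≤ ((N + 1 : ℕ) : ℝ) * log (KK a) := h2
      push_cast at h1 h3
      linarith
    · rw [Set.indicator_of_notMem hw, mul_zero, sub_zero]
      have h1 : s ^ 8 * (‖R w‖ * ‖V‖) ≤ |vl a (R w) V (ob a 1 w p).1 (ob a 2 w p).1| := not_lt.1 hw
      have h2 : |(Mn a (N + 4) w p v).1| ≤ ‖Mn a (N + 4) w p v‖ :=
        norm_fst_le (Mn a (N + 4) w p v)
      rw [val_eq] at h2
      have h3 := Real.log_le_log (by positivity) (h1.trans h2)
      rw [Real.log_mul (by positivity) (by positivity), Real.log_pow,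
        Real.log_mul hRp.ne' hV0.ne'] at h3
      push_cast at h3
      linarith
  have i1 : Integrable (fun w => log ‖R w‖) (Nz ν) := by
    exact bdi (K := ((N + 1 : ℕ) : ℝ) * log (KK a)) (Real.measurable_log.comp hRm.norm)
      fun w => log_ro ha (N + 1) (shk 3 w) (ob a 3 w p)
  have i3 : Integrable (fun w => log ‖Mn a (N + 4) w p v‖) (Nz ν) := logMw_int ν ha (N + 4) p hv
  have hint := int_lb (μ := Nz ν) hEm i1 i3 hpt
  have hPE : (Nz ν).real E ≤ b ^ 4 * (12 * s) := by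
    have h1 := prob_E ν ha hB N p V hs0.le hs1
    have e : ENNReal.ofReal b ^ 4 * ENNReal.ofReal (12 * s) =
        ENNReal.ofReal (b ^ 4 * (12 * s)) := by
      rw [← ENNReal.ofReal_pow hb, ← ENNReal.ofReal_mul (by positivity)]
    rw [e] at h1
    exact ENNReal.toReal_le_of_le_ofReal (by positivity) h1
  have h5 : (2 * N + 5) * log (KK a) * (Nz ν).real E ≤
      (2 * N + 5) * log (KK a) * (b ^ 4 * (12 * s)) :=
    mul_le_mul_of_nonneg_left hPE (by positivity)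
  have e1 : (∫ w, log ‖ro a (N + 1) (shk 3 w) (ob a 3 w p)‖ ∂(Nz ν)) =
      ∫ w, log ‖R w‖ ∂(Nz ν) := rfl
  have e2 : U ν a (N + 4) p v = ∫ w, log ‖Mn a (N + 4) w p v‖ ∂(Nz ν) := rfl
  rw [e1, e2]
  linarith

end Pool.Agent.K7.H81.NZ
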