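import Pool.Agent.K7.H81.NZG
import Pool.Agent.TH705.SM.CltQ

set_option autoImplicit false

/-!
# The mean growth over one block
-/

namespace Pool.Agent.K7.H81.NZ

open Real MeasureTheory Function Set Filter Topology
open Pool.Agent.TH705.SM Pool.Agent.V1152.SMI Pool.Agent.K7.H81.SM
open scoped ENNReal

theorem ob_last (a : ℝ) (j : ℕ) (w : ℕ → ℝ) (q : T2) :
    ob a (j + 1) w q = st a (w j) (ob a j w q) := by
  rw [ob_add a 1 j]
  show st a (shk j w 0) (ob a j w q) = _
  unfold shk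
  rw [Nat.zero_add]

theorem ob_snd (a : ℝ) (j : ℕ) (w : ℕ → ℝ) (q : T2) : (ob a (j + 1) w q).2 = (ob a j w q).1 := by
  rw [ob_last]
  rfl

theorem Mn_last (a : ℝ) (k : ℕ) (w : ℕ → ℝ) (q : T2) (v : ℝ × ℝ) :
    Mn a (k + 1) w q v = Am (cc a (ob a k w q).1) (Mn a k w q v) := by
  rw [Mn_add a 1 k]
  rfl

/-- the bad event -/
def Bd (a : ℝ) (m : ℕ) : Set ((ℕ → ℝ) × T2) :=
  {q | |cc a q.2.1| < 1} ∪ ⋃ j ∈ Finset.range m,
    {q | |cc a (ob a (j + 1) q.1 q.2).1 * cc a (ob a (j + 1) q.1 q.2).2| < 16}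

theorem hc_le {a : ℝ} (ha : 2 ≤ |a|) (x : UnitAddCircle) : hc a x ≤ log (KK a) := by
  rw [hc_eq]
  have hK := KK_ge ha
  have h1 := cc_KK ha x
  have h2 : 1 + cc a x ^ 2 ≤ KK a ^ 2 := by
    rw [← sq_abs (cc a x)]
    have := abs_nonneg (cc a x)
    nlinarith
  have h3 := Real.log_le_log (by positivity) h2
  rw [Real.log_pow] at h3
  push_cast at h3
  linarith

theorem ro_growth {a : ℝ} (ha : 2 ≤ |a|) (m : ℕ) (q : (ℕ → ℝ) × T2) :
    (∑ j ∈ Finset.range (m + 1), (hc a (ob a j q.1 q.2).1 - er a (ob a j q.1 q.2).1)) -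
      (∑ j ∈ Finset.range m, er2 a (ob a (j + 1) q.1 q.2)) -
      2 * (m + 1) * log (KK a) * (Bd a m).indicator (fun _ => (1:ℝ)) q ≤
      log ‖ro a (m + 1) q.1 q.2‖ := by
  have hK := KK_ge ha
  have hlK : 0 ≤ log (KK a) := Real.log_nonneg (by linarith)
  have hE1 : 0 ≤ ∑ j ∈ Finset.range (m + 1), er a (ob a j q.1 q.2).1 :=
    Finset.sum_nonneg fun _ _ => er_nonneg ha _
  have hE2 : 0 ≤ ∑ j ∈ Finset.range m, er2 a (ob a (j + 1) q.1 q.2) :=
    Finset.sum_nonneg fun _ _ => er2_nonneg _ _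
  rw [Finset.sum_sub_distrib]
  by_cases hq : q ∈ Bd a m
  · rw [Set.indicator_of_mem hq, mul_one]
    have h1 := (abs_le.1 (log_ro ha (m + 1) q.1 q.2)).1
    have h2 : ∑ j ∈ Finset.range (m + 1), hc a (ob a j q.1 q.2).1 ≤ (m + 1) * log (KK a) := by
      refine (Finset.sum_le_sum fun j _ => hc_le ha _).trans (le_of_eq ?_)
      rw [Finset.sum_const, Finset.card_range, nsmul_eq_mul]
      push_cast
      ring
    push_cast at h1
    linarith
  · rw [Set.indicator_of_notMem hq, mul_zero, sub_zero]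
    unfold Bd at hq
    rw [mem_union, not_or, mem_iUnion₂] at hq
    obtain ⟨hq0, hq1⟩ := hq
    set l : ℕ → ℝ := fun j => cc a (ob a j q.1 q.2).1 with hl
    set d : ℕ → ℝ := fun k => match k with
      | 0 => 0
      | k + 1 => (Mn a k q.1 q.2 (1, 0)).1 with hd
    have hd0 : d 0 = 0 := rfl
    have hd1 : d 1 = 1 := rfl
    have hG2 : ∀ k, (Mn a k q.1 q.2 (1, 0)).2 = d k := by
      intro k
      cases k with
      | zero => rfl
      | succ k =>
        rw [Mn_last]
        rfl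
    have hrec : ∀ k, d (k + 2) = l k * d (k + 1) - d k := by
      intro k
      show (Mn a (k + 1) q.1 q.2 (1, 0)).1 = l k * (Mn a k q.1 q.2 (1, 0)).1 - d k
      rw [← hG2 k, Mn_last]
      rfl
    have hl00 : 1 ≤ |l 0| := not_lt.1 hq0
    have hl0 : l 0 ≠ 0 := abs_pos.1 (lt_of_lt_of_le one_pos hl00)
    have hsnd : ∀ j, cc a (ob a (j + 1) q.1 q.2).2 = l j := by
      intro j
      rw [ob_snd]
    have hll' : ∀ j < m, 16 ≤ |cc a (ob a (j + 1) q.1 q.2).1 * cc a (ob a (j + 1) q.1 q.2).2| := by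
      intro j hj
      by_contra hcon
      exact hq1 ⟨j, Finset.mem_range.2 hj, not_le.1 hcon⟩
    have hll : ∀ j < m, 16 ≤ |l j * l (j + 1)| := by
      intro j hj
      have := hll' j hj
      rw [hsnd j] at this
      rw [mul_comm]
      exact this
    obtain ⟨c1, c2, c3, c4⟩ := chain hd0 hd1 hrec hl0 m hll
    have ha0 : 0 < |a| := by linarith
    have hl1 : ∀ j ≤ m, 1 ≤ |a| * |l j| := by
      intro j hj
      cases j with
      | zero => nlinarith
      | succ j =>
        have h1 := hll j (by omega)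
        rw [abs_mul] at h1
        have h2 : |l j| < 8 * |a| := cc_lt ha _
        have h3 := abs_nonneg (l (j + 1))
        nlinarith
    have hN : |d (m + 2)| ≤ ‖ro a (m + 1) q.1 q.2‖ := by
      have e : d (m + 2) = (ro a (m + 1) q.1 q.2).1 := rfl
      rw [e]
      exact norm_fst_le (ro a (m + 1) q.1 q.2)
    have hdn : 0 < |d (m + 2)| := by
      have h1 : 0 < |l m| * |d (m + 1)| := mul_pos (abs_pos.2 c1) (abs_pos.2 c2)
      linarith
    have h5 := Real.log_le_log hdn hN
    have h6 : ∑ j ∈ Finset.range (m + 1), (hc a (ob a j q.1 q.2).1 - er a (ob a j q.1 q.2).1) ≤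
        ∑ j ∈ Finset.range (m + 1), log |l j| := by
      apply Finset.sum_le_sum
      intro j hj
      have hj' : j ≤ m := by
        have := Finset.mem_range.1 hj
        omega
      exact er_low ha (hl1 j hj')
    have h7 : 3 * ∑ j ∈ Finset.range m, 1 / |l j * l (j + 1)| ≤
        ∑ j ∈ Finset.range m, er2 a (ob a (j + 1) q.1 q.2) := by
      rw [Finset.mul_sum]
      apply Finset.sum_le_sum
      intro j hj
      have h8 := er2_low ha (p := ob a (j + 1) q.1 q.2) (hll' j (Finset.mem_range.1 hj))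
      have e : l j * l (j + 1) =
          cc a (ob a (j + 1) q.1 q.2).1 * cc a (ob a (j + 1) q.1 q.2).2 := by
        rw [hsnd j, mul_comm]
      rw [e]
      exact h8
    have h9 := (abs_le.1 c4).1
    rw [Finset.sum_sub_distrib] at h6
    linarith

variable (ν : Measure ℝ) [IsProbabilityMeasure ν]

theorem ob_mpP (a : ℝ) (m : ℕ) : MeasurePreserving (fun q : (ℕ → ℝ) × T2 => ob a m q.1 q.2)
    ((Nz ν).prod volume) volume := by
  have h1 : MeasurePreserving (Prod.snd : (ℕ → ℝ) × T2 → T2) ((Nz ν).prod volume) volume :=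
    measurePreserving_snd
  exact h1.comp (skew_mp ν a m)

theorem int_ob (a : ℝ) (m : ℕ) {f : T2 → ℝ} (hf : Measurable f) :
    ∫ q : (ℕ → ℝ) × T2, f (ob a m q.1 q.2) ∂((Nz ν).prod volume) = ∫ p, f p := by
  have h6 := ob_mpP ν a m
  conv_rhs => rw [← h6.map_eq]
  rw [integral_map h6.measurable.aemeasurable hf.aestronglyMeasurable]

theorem int_ob1 (a : ℝ) (m : ℕ) {f : UnitAddCircle → ℝ} (hf : Measurable f) :
    ∫ q : (ℕ → ℝ) × T2, f (ob a m q.1 q.2).1 ∂((Nz ν).prod volume) = ∫ x, f x := by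
  rw [int_ob ν a m (f := fun p => f p.1) (hf.comp measurable_fst)]
  have h6 : MeasurePreserving (Prod.fst : T2 → UnitAddCircle) volume volume :=
    measurePreserving_fst
  conv_rhs => rw [← h6.map_eq]
  rw [integral_map h6.measurable.aemeasurable hf.aestronglyMeasurable]

theorem Bd_meas (a : ℝ) (m : ℕ) : MeasurableSet (Bd a m) := by
  unfold Bd
  refine MeasurableSet.union ?_ (Finset.measurableSet_biUnion _ fun j _ => ?_)
  · have h : Measurable (fun q : (ℕ → ℝ) × T2 => q.2.1) := by fun_prop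
    exact h (strip_meas a 1)
  · exact (ob_cont a (j + 1)).measurable (prod_meas a 16)

theorem vol_Bd {a : ℝ} (ha : 2 ≤ |a|) (m : ℕ) : ((Nz ν).prod volume).real (Bd a m) ≤
    1 / |a| + m * (480 * log |a| / |a| ^ 2) := by
  unfold Bd
  refine (measureReal_union_le _ _).trans (add_le_add ?_ ?_)
  · have h1 := strip ha (t := 1) one_pos
    refine le_trans (le_of_eq ?_) h1
    have h2 := ob_mpP ν a 0
    have h3 : MeasurePreserving (Prod.fst : T2 → UnitAddCircle) volume volume :=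
      measurePreserving_fst
    have h4 := (h3.comp h2).measureReal_preimage (strip_meas a 1).nullMeasurableSet
    rw [← h4]
    rfl
  · refine (measureReal_biUnion_finset_le _ _).trans ?_
    have h1 : ∀ j ∈ Finset.range m, ((Nz ν).prod volume).real
        {q | |cc a (ob a (j + 1) q.1 q.2).1 * cc a (ob a (j + 1) q.1 q.2).2| < 16} ≤
        480 * log |a| / |a| ^ 2 := by
      intro j _
      have h2 := (ob_mpP ν a (j + 1)).measureReal_preimage (prod_meas a 16).nullMeasurableSet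
      have h3 := prod_strip ha (M := 16) (by norm_num)
      rw [← h2] at h3
      refine h3.trans (le_of_eq ?_)
      ring
    refine (Finset.sum_le_sum h1).trans (le_of_eq ?_)
    rw [Finset.sum_const, Finset.card_range, nsmul_eq_mul]

/-- the error per step -/
noncomputable def ea (a : ℝ) : ℝ :=
  3 / 2 * log |a| / √|a| + 1 / (2 * |a|) + (6 * log |a| / |a| + 3 / |a|)

theorem block {a : ℝ} (ha : 2 ≤ |a|) (m : ℕ) : (m + 1) * (log (π * |a|) - ea a) -
    2 * (m + 1) * log (KK a) * (1 / |a| + m * (480 * log |a| / |a| ^ 2)) ≤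
    ∫ q : (ℕ → ℝ) × T2, log ‖ro a (m + 1) q.1 q.2‖ ∂((Nz ν).prod volume) := by
  have hK := KK_ge ha
  have hlK : 0 ≤ log (KK a) := Real.log_nonneg (by linarith)
  have ha0 : 0 < |a| := by linarith
  have hlog : 0 ≤ log |a| := Real.log_nonneg (by linarith)
  obtain ⟨e1, e2, e3⟩ := er_facts ha
  obtain ⟨f1, f2, f3⟩ := er2_facts ha
  have hcm : Measurable (hc a) := by
    have : hc a = fun x => log (1 + cc a x ^ 2) / 2 := funext (hc_eq a)
    rw [this]
    have := (cc_cont a).measurable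
    fun_prop
  have hcb : ∀ x, |hc a x| ≤ log (KK a) := by
    intro x
    rw [abs_of_nonneg]
    · exact hc_le ha x
    · rw [hc_eq]
      have : 0 ≤ log (1 + cc a x ^ 2) := Real.log_nonneg (by nlinarith [sq_nonneg (cc a x)])
      linarith
  have mob : ∀ j, Measurable (fun q : (ℕ → ℝ) × T2 => ob a j q.1 q.2) := fun j =>
    (ob_cont a j).measurable
  have i1 : ∀ j, Integrable (fun q : (ℕ → ℝ) × T2 => hc a (ob a j q.1 q.2).1)
      ((Nz ν).prod volume) := fun j => bdi (hcm.comp (measurable_fst.comp (mob j))) fun _ => hcb _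
  have i2 : ∀ j, Integrable (fun q : (ℕ → ℝ) × T2 => er a (ob a j q.1 q.2).1)
      ((Nz ν).prod volume) := fun j => bdi (e1.comp (measurable_fst.comp (mob j))) fun _ => e2 _
  have i3 : ∀ j, Integrable (fun q : (ℕ → ℝ) × T2 => er2 a (ob a j q.1 q.2))
      ((Nz ν).prod volume) := fun j => bdi (f1.comp (mob j)) fun _ => f2 _
  have i4 : Integrable (fun q : (ℕ → ℝ) × T2 => (Bd a m).indicator (fun _ => (1:ℝ)) q)
      ((Nz ν).prod volume) := (integrable_const 1).indicator (Bd_meas a m)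
  have i12 : ∀ j, Integrable (fun q : (ℕ → ℝ) × T2 =>
      hc a (ob a j q.1 q.2).1 - er a (ob a j q.1 q.2).1) ((Nz ν).prod volume) :=
    fun j => (i1 j).sub (i2 j)
  have i5 : Integrable (fun q : (ℕ → ℝ) × T2 => ∑ j ∈ Finset.range (m + 1),
      (hc a (ob a j q.1 q.2).1 - er a (ob a j q.1 q.2).1)) ((Nz ν).prod volume) :=
    integrable_finsetSum _ fun j _ => (i1 j).sub (i2 j)
  have i6 : Integrable (fun q : (ℕ → ℝ) × T2 => ∑ j ∈ Finset.range m,
      er2 a (ob a (j + 1) q.1 q.2)) ((Nz ν).prod volume) :=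
    integrable_finsetSum _ fun j _ => i3 (j + 1)
  have i7 : Integrable (fun q : (ℕ → ℝ) × T2 => log ‖ro a (m + 1) q.1 q.2‖)
      ((Nz ν).prod volume) :=
    bdi (log_ro_cont ha (m + 1)).measurable fun q => log_ro ha (m + 1) q.1 q.2
  have i56 : Integrable (fun q : (ℕ → ℝ) × T2 => (∑ j ∈ Finset.range (m + 1),
      (hc a (ob a j q.1 q.2).1 - er a (ob a j q.1 q.2).1)) -
      ∑ j ∈ Finset.range m, er2 a (ob a (j + 1) q.1 q.2)) ((Nz ν).prod volume) := i5.sub i6
  have h1 := integral_mono (i56.sub (i4.const_mul (2 * (m + 1) * log (KK a)))) i7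
    fun q => ro_growth ha m q
  have h2 : ∫ q : (ℕ → ℝ) × T2, ((∑ j ∈ Finset.range (m + 1),
      (hc a (ob a j q.1 q.2).1 - er a (ob a j q.1 q.2).1)) -
      (∑ j ∈ Finset.range m, er2 a (ob a (j + 1) q.1 q.2)) -
      2 * (m + 1) * log (KK a) * (Bd a m).indicator (fun _ => (1:ℝ)) q) ∂((Nz ν).prod volume) =
      (m + 1) * (hmean a - ∫ x, er a x) - m * (∫ p, er2 a p) -
        2 * (m + 1) * log (KK a) * ((Nz ν).prod volume).real (Bd a m) := by
    rw [integral_sub i56 (i4.const_mul _), integral_sub i5 i6,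
      integral_finsetSum _ (fun j _ => i12 j),
      integral_finsetSum _ (fun j _ => i3 (j + 1)), integral_const_mul,
      integral_indicator (Bd_meas a m)]
    have g1 : ∀ j ∈ Finset.range (m + 1), ∫ q : (ℕ → ℝ) × T2,
        (hc a (ob a j q.1 q.2).1 - er a (ob a j q.1 q.2).1) ∂((Nz ν).prod volume) =
        hmean a - ∫ x, er a x := by
      intro j _
      rw [integral_sub (i1 j) (i2 j), int_ob1 ν a j hcm, int_ob1 ν a j e1]
      congr 1
      rw [← UnitAddCircle.intervalIntegral_preimage 0, zero_add]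
      rfl
    have g2 : ∀ j ∈ Finset.range m, ∫ q : (ℕ → ℝ) × T2, er2 a (ob a (j + 1) q.1 q.2)
        ∂((Nz ν).prod volume) = ∫ p, er2 a p := fun j _ => int_ob ν a (j + 1) f1
    rw [Finset.sum_congr rfl g1, Finset.sum_congr rfl g2, Finset.sum_const, Finset.sum_const,
      Finset.card_range, Finset.card_range, nsmul_eq_mul, nsmul_eq_mul]
    simp only [integral_const, smul_eq_mul, mul_one, measureReal_restrict_apply_univ]
    push_cast
    ring
  have h3 : (m + 1) * (hmean a - ∫ x, er a x) - m * (∫ p, er2 a p) -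
        2 * (m + 1) * log (KK a) * ((Nz ν).prod volume).real (Bd a m) ≤
      ∫ q : (ℕ → ℝ) × T2, log ‖ro a (m + 1) q.1 q.2‖ ∂((Nz ν).prod volume) := by
    rw [← h2]
    exact h1
  refine le_trans ?_ h3
  have hm0 : (0:ℝ) ≤ m := Nat.cast_nonneg m
  have hmn := (hmean_near (a := a) (by linarith)).1
  have hv := mul_le_mul_of_nonneg_left (vol_Bd ν ha m)
    (by positivity : (0:ℝ) ≤ 2 * (m + 1) * log (KK a))
  have h4 : (m + 1) * (log (π * |a|) - (3 / 2 * log |a| / √|a| + 1 / (2 * |a|))) ≤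
      (m + 1) * (hmean a - ∫ x, er a x) :=
    mul_le_mul_of_nonneg_left (by linarith) (by positivity)
  have h5 : m * (∫ p, er2 a p) ≤ (m + 1) * (6 * log |a| / |a| + 3 / |a|) := by
    have h6 : m * (∫ p, er2 a p) ≤ m * (6 * log |a| / |a| + 3 / |a|) :=
      mul_le_mul_of_nonneg_left f3 hm0
    have h7 : 0 ≤ 6 * log |a| / |a| + 3 / |a| := by positivity
    linarith
  unfold ea
  linarith

end Pool.Agent.K7.H81.NZ
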