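import Pool.Agent.K7.H81.NZH

set_option autoImplicit false

/-!
# Bounds for the Lyapunov exponent
-/

namespace Pool.Agent.K7.H81.NZ

open Real MeasureTheory Function Set Filter Topology
open Pool.Agent.TH705.SM Pool.Agent.V1152.SMI Pool.Agent.K7.H81.SM
open scoped ENNReal

variable (ν : Measure ℝ) [IsProbabilityMeasure ν]

/-- the exponent -/
noncomputable def lam {a : ℝ} (ha : 2 ≤ |a|) : ℝ := (sub_AN ν ha).lim

theorem lam_low0 {a : ℝ} (ha : 2 ≤ |a|) {k : ℕ} (hk : 1 ≤ k) {h : T2 → ℝ} (hhm : Measurable h)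
    {K : ℝ} (hhb : ∀ p, |h p| ≤ K) {c : ℝ}
    (hp : ∀ (p : T2) (v : ℝ × ℝ), v ≠ 0 → log ‖v‖ + (h p + c) ≤ U ν a k p v) :
    ((∫ p, h p) + c) / k ≤ lam ν ha := by
  have hH : ∫ p, (h p + c) = (∫ p, h p) + c := by
    rw [integral_add (bdi hhm hhb) (integrable_const _), integral_const, probReal_univ, one_smul]
  have h1 := lim_ge_block ν ha hk (H := fun p => h p + c) (hhm.add_const c) (K := K + |c|)
    (fun p => (abs_add_le _ _).trans (add_le_add_left (hhb p) _)) hp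
  rw [hH] at h1
  exact h1

/-- the mean growth of the functional after three steps -/
noncomputable def hr (a : ℝ) (N : ℕ) (p : T2) : ℝ :=
  ∫ w, log ‖ro a (N + 1) (shk 3 w) (ob a 3 w p)‖ ∂(Nz ν)

theorem hr_gen {a : ℝ} (ha : 2 ≤ |a|) (n m : ℕ) :
    Measurable (fun p => ∫ w, log ‖ro a n (shk m w) (ob a m w p)‖ ∂(Nz ν)) ∧
    (∀ p, |∫ w, log ‖ro a n (shk m w) (ob a m w p)‖ ∂(Nz ν)| ≤ n * log (KK a)) ∧
    ∫ p : T2, (∫ w, log ‖ro a n (shk m w) (ob a m w p)‖ ∂(Nz ν)) =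
      ∫ q : (ℕ → ℝ) × T2, log ‖ro a n q.1 q.2‖ ∂((Nz ν).prod volume) := by
  have hro : Measurable (fun q : (ℕ → ℝ) × T2 => log ‖ro a n q.1 q.2‖) :=
    (log_ro_cont ha n).measurable
  have hsk := skew_mp ν a m
  have hm1 : Measurable (fun q : (ℕ → ℝ) × T2 =>
      log ‖ro a n (shk m q.1) (ob a m q.1 q.2)‖) := hro.comp hsk.measurable
  have hb1 : ∀ w p, |log ‖ro a n (shk m w) (ob a m w p)‖| ≤ n * log (KK a) :=
    fun w p => log_ro ha n (shk m w) (ob a m w p)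
  refine ⟨?_, fun p => abs_int_le' fun w => hb1 w p, ?_⟩
  · have h5 : StronglyMeasurable (fun q : T2 × (ℕ → ℝ) =>
        log ‖ro a n (shk m q.2) (ob a m q.2 q.1)‖) :=
      (hm1.comp measurable_swap).stronglyMeasurable
    exact (h5.integral_prod_right (ν := Nz ν)).measurable
  · have i1 : Integrable (fun q : (ℕ → ℝ) × T2 =>
        log ‖ro a n (shk m q.1) (ob a m q.1 q.2)‖) ((Nz ν).prod volume) :=
      bdi hm1 fun q => hb1 _ _
    have e3 := integral_integral_swap (μ := Nz ν) (ν := (volume : Measure T2))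
      (f := fun w p => log ‖ro a n (shk m w) (ob a m w p)‖) i1
    have e5 : ∫ w, (∫ p : T2, log ‖ro a n (shk m w) (ob a m w p)‖) ∂(Nz ν) =
      ∫ q : (ℕ → ℝ) × T2, log ‖ro a n (shk m q.1) (ob a m q.1 q.2)‖
        ∂((Nz ν).prod volume) := (integral_prod _ i1).symm
    rw [← e3, e5]
    conv_rhs => rw [← hsk.map_eq]
    rw [integral_map hsk.measurable.aemeasurable hro.aestronglyMeasurable]

theorem lam_low1 {a : ℝ} (ha : 2 ≤ |a|) {b : ℝ} (hb : 0 ≤ b) (hB : Spr ν (ENNReal.ofReal b))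
    (N : ℕ) {s : ℝ} (hs0 : 0 < s) (hs1 : s ≤ 1) :
    ((N + 1) * (log (π * |a|) - ea a) -
      2 * (N + 1) * log (KK a) * (1 / |a| + N * (480 * log |a| / |a| ^ 2)) +
      (8 * log s - log (KK a) - (2 * N + 5) * log (KK a) * (b ^ 4 * (12 * s)))) / (N + 4) ≤
      lam ν ha := by
  obtain ⟨g1, g2, g3⟩ := hr_gen ν ha (N + 1) 3
  have h1 := lam_low0 ν ha (k := N + 4) (by omega) g1 g2
    (fun p v hv => point ν ha hb hB N hs0 hs1 p hv)
  rw [g3] at h1
  refine le_trans ?_ h1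
  have h2 := block ν ha N
  push_cast
  apply div_le_div_of_nonneg_right _ (by positivity)
  linarith

theorem num_alg {A S ℓ β K P ε N Lg : ℝ} (hA : 2 ≤ A) (hS : S * S = A) (hS1 : 1 ≤ S)
    (hℓ : 1 / 2 ≤ ℓ) (hℓS : ℓ ≤ 2 * S) (hβ : 0 ≤ β) (hK0 : 0 ≤ K) (hK : K ≤ 6 * ℓ)
    (hP : P ≤ 4 * ℓ) (hε : ε = 3 / 2 * ℓ / S + 1 / (2 * A) + (6 * ℓ / A + 3 / A))
    (hN : 0 < N) (hN1 : A * (1 + β) ≤ ℓ * N) (hN2 : ℓ * N ≤ 2 * (A * (1 + β)))
    (hL : Lg ≤ 3 + 4 * β ^ 2 + 19 * ℓ + β) :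
    P - 12000 * ℓ * (β / A + 1 / S) ≤ ((N + 1) * (P - ε) -
      2 * (N + 1) * K * (1 / A + N * (480 * ℓ / A ^ 2)) + (-(8 * Lg) - K - 1)) / (N + 4) := by
  have hA0 : 0 < A := by linarith
  have hS0 : 0 < S := by linarith
  have hℓ0 : 0 < ℓ := by linarith
  have hD0 : 0 < N + 4 := by linarith
  set u : ℝ := 1 / S with hu
  set t : ℝ := 1 / A with ht
  have hu0 : 0 < u := by positivity
  have ht0 : 0 < t := by positivity
  have htu : t ≤ u := one_div_le_one_div_of_le hS0 (by nlinarith)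
  have hAt : A * t = 1 := by rw [ht]; field_simp
  have hAu : A * u = S := by
    rw [hu, ← hS]
    field_simp
  have e1 : β / A = β * t := by rw [ht]; ring
  have e2 : ε = 3 / 2 * (ℓ * u) + 1 / 2 * t + (6 * (ℓ * t) + 3 * t) := by
    rw [hε, ht, hu]
    field_simp
  have e3 : N * (480 * ℓ / A ^ 2) = 480 * ((ℓ * N) * t) * t := by
    rw [ht]
    field_simp
  have hlt : ℓ * t ≤ ℓ * u := mul_le_mul_of_nonneg_left htu hℓ0.le
  have htl : t ≤ 2 * (ℓ * u) := by nlinarith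
  have hε1 : ε ≤ 15 * (ℓ * u) := by
    rw [e2]
    linarith
  have hε0 : 0 ≤ ε := by
    rw [e2]
    positivity
  have hw : 0 ≤ ℓ * (β * t + u) := by positivity
  -- first term
  have g1 : (N + 1) * ε ≤ (N + 4) * (15 * (ℓ * (β * t + u))) := by
    have : ε ≤ 15 * (ℓ * (β * t + u)) := by
      have : 0 ≤ ℓ * (β * t) := by positivity
      linarith
    calc (N + 1) * ε ≤ (N + 4) * ε := mul_le_mul_of_nonneg_right (by linarith) hε0
      _ ≤ _ := mul_le_mul_of_nonneg_left this hD0.le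
  have hKt : K * t ≤ 6 * (ℓ * (β * t + u)) := by
    have h1 : K * t ≤ 6 * ℓ * t := mul_le_mul_of_nonneg_right hK ht0.le
    have : 0 ≤ ℓ * (β * t) := by positivity
    linarith
  have g2 : 2 * (N + 1) * (K * t) ≤ (N + 4) * (12 * (ℓ * (β * t + u))) := by
    have h0 : 0 ≤ K * t := by positivity
    calc 2 * (N + 1) * (K * t) ≤ 2 * (N + 4) * (K * t) :=
          mul_le_mul_of_nonneg_right (by linarith) h0
      _ ≤ 2 * (N + 4) * (6 * (ℓ * (β * t + u))) := mul_le_mul_of_nonneg_left hKt (by linarith)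
      _ = _ := by ring
  have hNt : (ℓ * N) * t ≤ 2 * (1 + β) := by
    have h1 : (ℓ * N) * t ≤ 2 * (A * (1 + β)) * t := mul_le_mul_of_nonneg_right hN2 ht0.le
    have h2 : 2 * (A * (1 + β)) * t = 2 * (1 + β) * (A * t) := by ring
    rw [h2, hAt, mul_one] at h1
    exact h1
  have hK3 : K * (480 * ((ℓ * N) * t) * t) ≤ 5760 * (ℓ * (β * t + u)) := by
    have h0 : 0 ≤ (ℓ * N) * t := by positivity
    have h1 : 480 * ((ℓ * N) * t) * t ≤ 480 * (2 * (1 + β)) * t :=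
      mul_le_mul_of_nonneg_right (by linarith) ht0.le
    have h2 : K * (480 * ((ℓ * N) * t) * t) ≤ 6 * ℓ * (480 * (2 * (1 + β)) * t) :=
      mul_le_mul hK h1 (by positivity) (by positivity)
    have h3 : 6 * ℓ * (480 * (2 * (1 + β)) * t) = 5760 * (ℓ * (β * t + t)) := by ring
    rw [h3] at h2
    have h4 : ℓ * (β * t + t) ≤ ℓ * (β * t + u) := mul_le_mul_of_nonneg_left (by linarith) hℓ0.le
    linarith
  have g3 : 2 * (N + 1) * (K * (480 * ((ℓ * N) * t) * t)) ≤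
      (N + 4) * (11520 * (ℓ * (β * t + u))) := by
    have h0 : 0 ≤ K * (480 * ((ℓ * N) * t) * t) := by positivity
    calc 2 * (N + 1) * (K * (480 * ((ℓ * N) * t) * t)) ≤
          2 * (N + 4) * (K * (480 * ((ℓ * N) * t) * t)) :=
          mul_le_mul_of_nonneg_right (by linarith) h0
      _ ≤ 2 * (N + 4) * (5760 * (ℓ * (β * t + u))) := mul_le_mul_of_nonneg_left hK3 (by linarith)
      _ = _ := by ring
  -- the remaining terms
  have g4 : 3 * P + 8 * Lg + K + 1 ≤ (N + 4) * (440 * (ℓ * (β * t + u))) := by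
    have h1 : 3 * P + 8 * Lg + K + 1 ≤ 440 * S + 32 * β ^ 2 + 8 * β := by linarith
    have h2 : 440 * S + 32 * β ^ 2 + 8 * β ≤ 440 * ((1 + β) * (β + S)) := by
      have : 0 ≤ β * S := by positivity
      nlinarith
    have h3 : (1 + β) * (β + S) = (A * (1 + β)) * (β * t + u) := by
      have : (A * (1 + β)) * (β * t + u) = (1 + β) * (β * (A * t) + A * u) := by ring
      rw [this, hAt, hAu, mul_one]
    have h4 : (A * (1 + β)) * (β * t + u) ≤ (ℓ * (N + 4)) * (β * t + u) := by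
      apply mul_le_mul_of_nonneg_right _ (by positivity)
      linarith
    have h5 : (ℓ * (N + 4)) * (β * t + u) = (N + 4) * (ℓ * (β * t + u)) := by ring
    rw [h3] at h2
    linarith
  have g5 : 0 ≤ (N + 4) * (ℓ * (β * t + u)) := mul_nonneg hD0.le hw
  rw [le_div_iff₀ hD0, e1, e3]
  have e4 : (P - 12000 * ℓ * (β * t + u)) * (N + 4) = P * (N + 4) -
      12000 * ((N + 4) * (ℓ * (β * t + u))) := by ring
  rw [e4]
  linarith

theorem num_basic {A : ℝ} (hA : 2 ≤ A) : 1 / 2 ≤ log A ∧ log A ≤ A - 1 ∧ log A ≤ 2 * √A ∧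
    2 ≤ log (9 * A) ∧ log (9 * A) ≤ 6 * log A ∧ log (π * A) ≤ 4 * log A := by
  have hA0 : 0 < A := by linarith
  have hl2 := Real.log_two_gt_d9
  have hℓ1 : log 2 ≤ log A := Real.log_le_log (by norm_num) hA
  have hsA0 : 0 < √A := Real.sqrt_pos.2 hA0
  have h9 : log 9 = 2 * log 3 := by
    rw [show (9:ℝ) = 3 ^ 2 by norm_num, Real.log_pow]
    norm_num
  have h3l : 1 ≤ log 3 := by
    rw [Real.le_log_iff_exp_le (by norm_num)]
    have := Real.exp_one_lt_d9
    linarith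
  have h3u : log 3 ≤ 1.25 := by
    rw [Real.log_le_iff_le_exp (by norm_num)]
    have h1 := Real.quadratic_le_exp_of_nonneg (show (0:ℝ) ≤ 1.25 by norm_num)
    linarith
  refine ⟨by linarith, Real.log_le_sub_one_of_pos hA0, ?_, ?_, ?_, ?_⟩
  · have h1 : log A = 2 * log √A := by
      rw [Real.log_sqrt hA0.le]
      ring
    rw [h1]
    have := Real.log_le_sub_one_of_pos hsA0
    linarith
  · rw [Real.log_mul (by norm_num) hA0.ne']
    linarith
  · rw [Real.log_mul (by norm_num) hA0.ne']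
    linarith
  · rw [Real.log_mul Real.pi_pos.ne' hA0.ne']
    have h1 : log π ≤ log 4 := Real.log_le_log Real.pi_pos Real.pi_le_four
    have h2 : log 4 = 2 * log 2 := by
      rw [show (4:ℝ) = 2 ^ 2 by norm_num, Real.log_pow]
      norm_num
    linarith

/-- numerical part -/
theorem num {A β : ℝ} (hA : 2 ≤ A) (hβ : 0 ≤ β) : ∃ N : ℕ, ∃ s : ℝ, 0 < s ∧ s ≤ 1 ∧
    log (π * A) - 12000 * log A * (β / A + 1 / √A) ≤
    ((N + 1) * (log (π * A) - (3 / 2 * log A / √A + 1 / (2 * A) + (6 * log A / A + 3 / A))) -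
      2 * (N + 1) * log (9 * A) * (1 / A + N * (480 * log A / A ^ 2)) +
      (8 * log s - log (9 * A) - (2 * N + 5) * log (9 * A) * (exp (β ^ 2) ^ 4 * (12 * s)))) /
      (N + 4) := by
  obtain ⟨hℓ1, hℓA, hℓs, hK2, hK1, hpi⟩ := num_basic hA
  set ℓ := log A with hℓ
  set K := log (9 * A) with hK
  have hA0 : 0 < A := by linarith
  have hℓ0 : 0 < ℓ := by linarith
  have hsA0 : 0 < √A := Real.sqrt_pos.2 hA0
  have hsq : √A * √A = A := Real.mul_self_sqrt hA0.le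
  have hsA1 : 1 ≤ √A := by
    apply Real.le_sqrt_of_sq_le
    linarith
  set N : ℕ := ⌈A * (1 + β) / ℓ⌉₊ with hN
  have hq0 : 0 < A * (1 + β) / ℓ := by positivity
  have hN1 : A * (1 + β) / ℓ ≤ N := Nat.le_ceil _
  have hN2 : (N:ℝ) < A * (1 + β) / ℓ + 1 := Nat.ceil_lt_add_one hq0.le
  have hq1 : 1 ≤ A * (1 + β) / ℓ := by
    rw [le_div_iff₀ hℓ0]
    nlinarith
  have hNpos : (0:ℝ) < N := lt_of_lt_of_le hq0 hN1
  have hN1' : A * (1 + β) ≤ ℓ * N := by
    rw [div_le_iff₀ hℓ0] at hN1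
    linarith
  have hN3 : ℓ * N ≤ 2 * (A * (1 + β)) := by
    have h1 : (N:ℝ) ≤ 2 * (A * (1 + β) / ℓ) := by linarith
    have h2 := mul_le_mul_of_nonneg_left h1 hℓ0.le
    have h3 : ℓ * (2 * (A * (1 + β) / ℓ)) = 2 * (A * (1 + β)) := by
      field_simp
    rw [h3] at h2
    exact h2
  set s : ℝ := 1 / (12 * exp (β ^ 2) ^ 4 * (2 * N + 5) * K) with hs
  have hE0 : 0 < exp (β ^ 2) := Real.exp_pos _
  have hE1 : 1 ≤ exp (β ^ 2) := Real.one_le_exp (sq_nonneg β)
  have hK0 : 0 < K := by linarith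
  have hs0 : 0 < s := by positivity
  have hs1 : s ≤ 1 := by
    rw [hs, div_le_one (by positivity)]
    have h1 : 1 ≤ exp (β ^ 2) ^ 4 := one_le_pow₀ hE1
    have h2 : (1:ℝ) ≤ 2 * N + 5 := by linarith
    calc (1:ℝ) ≤ 12 * 1 * 1 * 1 := by norm_num
      _ ≤ 12 * exp (β ^ 2) ^ 4 * (2 * N + 5) * K := by
        apply mul_le_mul _ (by linarith) (by norm_num) (by positivity)
        apply mul_le_mul _ h2 (by norm_num) (by positivity)
        linarith
  refine ⟨N, s, hs0, hs1, ?_⟩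
  have hs2 : (2 * N + 5) * K * (exp (β ^ 2) ^ 4 * (12 * s)) = 1 := by
    rw [hs]
    field_simp
  have hls : log s = -(log 12 + 4 * β ^ 2 + log (2 * N + 5) + log K) := by
    rw [hs, one_div, Real.log_inv, Real.log_mul (by positivity) hK0.ne',
      Real.log_mul (by positivity) (by positivity), Real.log_mul (by norm_num) (by positivity),
      Real.log_pow, Real.log_exp]
    push_cast
    ring
  have he3 : 20 ≤ exp 3 := by
    have h3 : exp 3 = exp 1 * exp 1 * exp 1 := by rw [← Real.exp_add, ← Real.exp_add]; norm_num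
    have h4 := Real.exp_one_gt_d9
    rw [h3]
    have h5 : 7.38 ≤ exp 1 * exp 1 := by nlinarith
    nlinarith
  have hl12 : log 12 ≤ 3 := by
    rw [Real.log_le_iff_le_exp (by norm_num)]
    linarith
  have hl18 : log 18 ≤ 3 := by
    rw [Real.log_le_iff_le_exp (by norm_num)]
    linarith
  have hlK : log K ≤ K - 1 := Real.log_le_sub_one_of_pos hK0
  have hlN : log (2 * N + 5) ≤ 3 + ℓ + β := by
    have h1 : 2 * (N:ℝ) + 5 ≤ 18 * A * (1 + β) := by
      have h2 : A * (1 + β) / ℓ ≤ A * (1 + β) * 2 := by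
        rw [div_le_iff₀ hℓ0]
        have : 0 < A * (1 + β) := by positivity
        nlinarith
      nlinarith
    have h2 := Real.log_le_log (by positivity) h1
    rw [Real.log_mul (by positivity) (by positivity), Real.log_mul (by norm_num) hA0.ne'] at h2
    have h3 : log (1 + β) ≤ 1 + β - 1 := Real.log_le_sub_one_of_pos (by linarith)
    linarith
  have h := num_alg (A := A) (S := √A) (ℓ := ℓ) (β := β) (K := K) (P := log (π * A)) (N := N)
    (Lg := log 12 + 4 * β ^ 2 + log (2 * N + 5) + log K) hA hsq hsA1 hℓ1 hℓs hβ hK0.le hK1 hpi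
    rfl hNpos hN1' hN3 (by linarith)
  rw [hs2, hls]
  refine h.trans (le_of_eq ?_)
  congr 1
  ring

/-- **Lower bound of the exponent.** -/
theorem lam_low {a : ℝ} (ha : 2 ≤ |a|) {β : ℝ} (hβ : 0 ≤ β)
    (hB : Spr ν (ENNReal.ofReal (exp (β ^ 2)))) :
    log (π * |a|) - 12000 * log |a| * (β / |a| + 1 / √|a|) ≤ lam ν ha := by
  obtain ⟨N, s, hs0, hs1, h⟩ := num ha hβ
  exact h.trans (lam_low1 ν ha (Real.exp_pos _).le hB N hs0 hs1)

end Pool.Agent.K7.H81.NZ
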