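import Pool.Agent.K7.H81.NZI

set_option autoImplicit false

/-!
# The upper bound, the lift to the plane, and the noise
-/

namespace Pool.Agent.K7.H81.NZ

open Real MeasureTheory Function Set Filter Topology
open Pool.Agent.TH705.SM Pool.Agent.V1152.SMI Pool.Agent.K7.H81.SM
open scoped ENNReal

/-! ### the upper bound -/

theorem sq_step (c : ℝ) (v : ℝ × ℝ) :
    (Am c v).1 ^ 2 + (Am c v).2 ^ 2 ≤ (2 + c ^ 2) * (v.1 ^ 2 + v.2 ^ 2) := by
  rw [Am_apply]
  simp only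
  nlinarith [sq_nonneg (v.1 + c * v.2), sq_nonneg v.1, sq_nonneg v.2]

theorem sq_growth (a : ℝ) (w : ℕ → ℝ) (p : T2) (v : ℝ × ℝ) (n : ℕ) :
    (Mn a n w p v).1 ^ 2 + (Mn a n w p v).2 ^ 2 ≤
      (∏ j ∈ Finset.range n, (2 + cc a (ob a j w p).1 ^ 2)) * (v.1 ^ 2 + v.2 ^ 2) := by
  induction n with
  | zero =>
    rw [Finset.prod_range_zero, one_mul]
    exact le_rfl
  | succ n ih =>
    rw [Mn_last, Finset.prod_range_succ]
    refine (sq_step _ _).trans ?_
    calc (2 + cc a (ob a n w p).1 ^ 2) * ((Mn a n w p v).1 ^ 2 + (Mn a n w p v).2 ^ 2) ≤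
          (2 + cc a (ob a n w p).1 ^ 2) *
          ((∏ j ∈ Finset.range n, (2 + cc a (ob a j w p).1 ^ 2)) * (v.1 ^ 2 + v.2 ^ 2)) :=
          mul_le_mul_of_nonneg_left ih (by positivity)
      _ = _ := by ring

theorem log_up {a : ℝ} (ha : 2 ≤ |a|) (w : ℕ → ℝ) (p : T2) (n : ℕ) :
    log ‖Mn a n w p‖ ≤ log 2 / 2 + ∑ j ∈ Finset.range n,
      (hc a (ob a j w p).1 + er a (ob a j w p).1) := by
  set Q : ℝ := ∏ j ∈ Finset.range n, (2 + cc a (ob a j w p).1 ^ 2) with hQ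
  have hQ0 : 0 < Q := Finset.prod_pos fun j _ => by positivity
  have h1 : ‖Mn a n w p‖ ≤ √(2 * Q) := by
    apply ContinuousLinearMap.opNorm_le_bound _ (Real.sqrt_nonneg _)
    intro v
    have h2 := sq_growth a w p v n
    rw [← hQ] at h2
    have hv1 : |v.1| ≤ ‖v‖ := norm_fst_le v
    have hv2 : |v.2| ≤ ‖v‖ := norm_snd_le v
    have hv0 := norm_nonneg v
    have h3 : v.1 ^ 2 + v.2 ^ 2 ≤ 2 * ‖v‖ ^ 2 := by
      have a1 : v.1 ^ 2 ≤ ‖v‖ ^ 2 := by rw [← sq_abs]; exact pow_le_pow_left₀ (abs_nonneg _) hv1 2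
      have a2 : v.2 ^ 2 ≤ ‖v‖ ^ 2 := by rw [← sq_abs]; exact pow_le_pow_left₀ (abs_nonneg _) hv2 2
      linarith
    have h4 : (Mn a n w p v).1 ^ 2 + (Mn a n w p v).2 ^ 2 ≤ 2 * Q * ‖v‖ ^ 2 := by
      refine h2.trans ?_
      have := mul_le_mul_of_nonneg_left h3 hQ0.le
      linarith
    have h5 : √(2 * Q) * ‖v‖ = √(2 * Q * ‖v‖ ^ 2) := by
      conv_rhs => rw [Real.sqrt_mul (by positivity), Real.sqrt_sq hv0]
    rw [h5, Prod.norm_def, Real.norm_eq_abs, Real.norm_eq_abs]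
    apply max_le
    · apply Real.abs_le_sqrt
      nlinarith [sq_nonneg (Mn a n w p v).2]
    · apply Real.abs_le_sqrt
      nlinarith [sq_nonneg (Mn a n w p v).1]
  have h6 := Real.log_le_log (nMn_pos ha n w p) h1
  rw [Real.log_sqrt (by positivity), Real.log_mul (by norm_num) hQ0.ne', hQ, Real.log_prod
    (fun j _ => by positivity)] at h6
  refine h6.trans ?_
  rw [add_div, Finset.sum_div]
  refine add_le_add_right (Finset.sum_le_sum fun j _ => ?_) _
  have := er_up ha (ob a j w p).1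
  linarith

variable (ν : Measure ℝ) [IsProbabilityMeasure ν]

theorem hmean_int (a : ℝ) : ∫ x, hc a x = hmean a := by
  rw [← UnitAddCircle.intervalIntegral_preimage 0, zero_add]
  rfl

theorem hc_meas (a : ℝ) : Measurable (hc a) := by
  have h : hc a = fun x => log (1 + cc a x ^ 2) / 2 := funext (hc_eq a)
  rw [h]
  have := (cc_cont a).measurable
  fun_prop

theorem hc_bd {a : ℝ} (ha : 2 ≤ |a|) (x : UnitAddCircle) : |hc a x| ≤ log (KK a) := by
  rw [abs_of_nonneg]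
  · exact hc_le ha x
  · rw [hc_eq]
    have : 0 ≤ log (1 + cc a x ^ 2) := Real.log_nonneg (by nlinarith [sq_nonneg (cc a x)])
    linarith

theorem AN_up {a : ℝ} (ha : 2 ≤ |a|) (n : ℕ) :
    AN ν a n ≤ log 2 / 2 + n * (hmean a + ∫ x, er a x) := by
  obtain ⟨e1, e2, e3⟩ := er_facts ha
  have hcm := hc_meas a
  have mob : ∀ j, Measurable (fun q : (ℕ → ℝ) × T2 => ob a j q.1 q.2) := fun j =>
    (ob_cont a j).measurable
  have i1 : ∀ j, Integrable (fun q : (ℕ → ℝ) × T2 => hc a (ob a j q.1 q.2).1)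
      ((Nz ν).prod volume) :=
    fun j => bdi (hcm.comp (measurable_fst.comp (mob j))) fun _ => hc_bd ha _
  have i2 : ∀ j, Integrable (fun q : (ℕ → ℝ) × T2 => er a (ob a j q.1 q.2).1)
      ((Nz ν).prod volume) := fun j => bdi (e1.comp (measurable_fst.comp (mob j))) fun _ => e2 _
  have i12 : ∀ j, Integrable (fun q : (ℕ → ℝ) × T2 =>
      hc a (ob a j q.1 q.2).1 + er a (ob a j q.1 q.2).1) ((Nz ν).prod volume) :=
    fun j => (i1 j).add (i2 j)
  have i5 : Integrable (fun q : (ℕ → ℝ) × T2 => ∑ j ∈ Finset.range n,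
      (hc a (ob a j q.1 q.2).1 + er a (ob a j q.1 q.2).1)) ((Nz ν).prod volume) :=
    integrable_finsetSum _ fun j _ => i12 j
  rw [AN_prod ν ha]
  have h1 := integral_mono (int_log ν ha n) ((integrable_const (log 2 / 2)).add i5)
    fun q => log_up ha q.1 q.2 n
  refine h1.trans (le_of_eq ?_)
  have h2 : ∫ q : (ℕ → ℝ) × T2, (log 2 / 2 + ∑ j ∈ Finset.range n,
      (hc a (ob a j q.1 q.2).1 + er a (ob a j q.1 q.2).1)) ∂((Nz ν).prod volume) =
      log 2 / 2 + n * (hmean a + ∫ x, er a x) := by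
    rw [integral_add (integrable_const _) i5, integral_finsetSum _ (fun j _ => i12 j)]
    have g1 : ∀ j ∈ Finset.range n, ∫ q : (ℕ → ℝ) × T2,
        (hc a (ob a j q.1 q.2).1 + er a (ob a j q.1 q.2).1) ∂((Nz ν).prod volume) =
        hmean a + ∫ x, er a x := by
      intro j _
      rw [integral_add (i1 j) (i2 j), int_ob1 ν a j hcm, int_ob1 ν a j e1, hmean_int]
    rw [Finset.sum_congr rfl g1, Finset.sum_const, Finset.card_range, nsmul_eq_mul,
      integral_const, probReal_univ, one_smul]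
  exact h2

theorem lam_up {a : ℝ} (ha : 2 ≤ |a|) :
    lam ν ha ≤ log (π * |a|) + 12000 * log |a| * (1 / √|a|) := by
  have h1 := lim_le ν ha (AN_up ν ha)
  obtain ⟨e1, e2, e3⟩ := er_facts ha
  obtain ⟨hℓ1, hℓA, hℓs, hK2, hK1, hpi⟩ := num_basic ha
  have hmn := (hmean_near (a := a) (by linarith)).2
  have hA0 : 0 < |a| := by linarith
  have hS0 : 0 < √|a| := Real.sqrt_pos.2 hA0
  have hS1 : 1 ≤ √|a| := by
    apply Real.le_sqrt_of_sq_le
    linarith
  have hsq : √|a| * √|a| = |a| := Real.mul_self_sqrt hA0.le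
  have i1 : 1 / |a| ≤ 1 / √|a| := by
    apply one_div_le_one_div_of_le hS0
    nlinarith
  have i2 : 0 < 1 / √|a| := by positivity
  have j1 : 1 / |a| ≤ 2 * (log |a| * (1 / √|a|)) := by nlinarith
  have e5 : 3 / 2 * log |a| / √|a| = 3 / 2 * (log |a| * (1 / √|a|)) := by ring
  have e6 : 1 / (2 * |a|) = 1 / 2 * (1 / |a|) := by field_simp
  rw [e5, e6] at e3
  have h0 : 0 ≤ log |a| * (1 / √|a|) := by positivity
  have h2 : lam ν ha ≤ hmean a + ∫ x, er a x := h1
  have e7 : 12000 * log |a| * (1 / √|a|) = 12000 * (log |a| * (1 / √|a|)) := by ring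
  rw [e7]
  linarith

/-! ### the lift to the plane -/

/-- the randomly perturbed map of the plane -/
noncomputable def pl (a t : ℝ) (p : ℝ × ℝ) : ℝ × ℝ :=
  (2 * p.1 - p.2 + a * sin (2 * π * p.1) + t, p.1)

/-- its random iterates -/
noncomputable def ol (a : ℝ) (w : ℕ → ℝ) : ℕ → ℝ × ℝ → ℝ × ℝ
  | 0, p => p
  | n + 1, p => pl a (w n) (ol a w n p)

theorem pl_hasFDeriv (a t : ℝ) (q : ℝ × ℝ) : HasFDerivAt (pl a t) (Am (L a q.1)) q := by
  have h1 := pm_hasFDeriv a q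
  have h2 : HasFDerivAt (fun _ : ℝ × ℝ => ((t, 0) : ℝ × ℝ)) (0 : ℝ × ℝ →L[ℝ] ℝ × ℝ) q :=
    hasFDerivAt_const _ _
  have h3 := h1.add h2
  have e : pl a t = fun p => pm a p + ((t, 0) : ℝ × ℝ) := by
    funext p
    unfold pl pm
    ext <;> simp
  rw [e]
  refine h3.congr_fderiv ?_
  rw [add_zero]
  rfl

/-- the projection to the torus -/
def toT (p : ℝ × ℝ) : T2 := ((p.1 : UnitAddCircle), (p.2 : UnitAddCircle))

theorem pl_toT (a t : ℝ) (p : ℝ × ℝ) : toT (pl a t p) = st a t (toT p) := by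
  unfold toT pl st
  simp only [phi_coe]
  rw [← AddCircle.coe_sub, ← AddCircle.coe_add]
  congr 2
  ring

theorem Mn_last' (a : ℝ) (k : ℕ) (w : ℕ → ℝ) (q : T2) :
    Mn a (k + 1) w q = (Am (cc a (ob a k w q).1)).comp (Mn a k w q) := by
  apply ContinuousLinearMap.ext
  intro v
  exact Mn_last a k w q v

theorem ol_facts (a : ℝ) (w : ℕ → ℝ) (n : ℕ) (p : ℝ × ℝ) :
    toT (ol a w n p) = ob a n w (toT p) ∧ HasFDerivAt (ol a w n) (Mn a n w (toT p)) p := by
  induction n with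
  | zero => exact ⟨rfl, hasFDerivAt_id p⟩
  | succ n ih =>
    obtain ⟨h1, h2⟩ := ih
    refine ⟨?_, ?_⟩
    · rw [ob_last, ← h1, ← pl_toT]
      rfl
    · rw [Mn_last']
      have h3 := (pl_hasFDeriv a (w n) (ol a w n p)).comp p h2
      have e : cc a (ob a n w (toT p)).1 = L a (ol a w n p).1 := by
        rw [← h1]
        exact cc_coe a _
      rw [e]
      exact h3

theorem box_mp : MeasurePreserving toT
    ((volume : Measure (ℝ × ℝ)).restrict (Set.Ioc (0:ℝ) 1 ×ˢ Set.Ioc (0:ℝ) 1)) volume := by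
  have hmp := UnitAddCircle.measurePreserving_mk 0
  rw [zero_add] at hmp
  have hprod := hmp.prod hmp
  rw [Measure.prod_restrict] at hprod
  exact hprod

theorem int_box {f : T2 → ℝ} (hf : Measurable f) :
    ∫ p in Set.Ioc (0:ℝ) 1 ×ˢ Set.Ioc (0:ℝ) 1, f (toT p) = ∫ q, f q := by
  have h3 := integral_map (μ := (volume : Measure (ℝ × ℝ)).restrict
    (Set.Ioc (0:ℝ) 1 ×ˢ Set.Ioc (0:ℝ) 1)) box_mp.measurable.aemeasurable
    hf.aestronglyMeasurable
  rw [box_mp.map_eq] at h3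
  exact h3.symm

theorem logMn_meas2 {a : ℝ} (ha : 2 ≤ |a|) (n : ℕ) (w : ℕ → ℝ) :
    Measurable (fun q : T2 => log ‖Mn a n w q‖) := by
  have h0 : Continuous (fun q : T2 => ((w, q) : (ℕ → ℝ) × T2)) := by fun_prop
  have h1 := (log_nMn_cont ha n).comp h0
  have h2 : (fun q : T2 => log ‖Mn a n w q‖) =
      ((fun q : (ℕ → ℝ) × T2 => log ‖Mn a n q.1 q.2‖) ∘ fun q => (w, q)) := by
    funext q
    rfl
  rw [h2]
  exact h1.measurable

theorem fderiv_ol (a : ℝ) (w : ℕ → ℝ) (n : ℕ) :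
    (fun p => log ‖fderiv ℝ (ol a w n) p‖) = fun p => log ‖Mn a n w (toT p)‖ := by
  funext p
  rw [(ol_facts a w n p).2.fderiv]

theorem mean_eq1 {a : ℝ} (ha : 2 ≤ |a|) (n : ℕ) (w : ℕ → ℝ) :
    ∫ p in Set.Ioc (0:ℝ) 1 ×ˢ Set.Ioc (0:ℝ) 1, log ‖fderiv ℝ (ol a w n) p‖ =
      ∫ q : T2, log ‖Mn a n w q‖ := by
  rw [fderiv_ol]
  exact int_box (logMn_meas2 ha n w)

omit [IsProbabilityMeasure ν] in
theorem mean_eq {a : ℝ} (ha : 2 ≤ |a|) (n : ℕ) :
    ∫ w, (∫ p in Set.Ioc (0:ℝ) 1 ×ˢ Set.Ioc (0:ℝ) 1, log ‖fderiv ℝ (ol a w n) p‖) ∂(Nz ν) =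
      AN ν a n := by
  have h : (fun w => ∫ p in Set.Ioc (0:ℝ) 1 ×ˢ Set.Ioc (0:ℝ) 1, log ‖fderiv ℝ (ol a w n) p‖) =
      fun w => ∫ q : T2, log ‖Mn a n w q‖ := funext fun w => mean_eq1 ha n w
  rw [h]
  rfl

/-! ### the noise -/

omit [IsProbabilityMeasure ν] in
theorem spr_of_le {B : ℝ≥0∞}
    (h : ν.map (fun t : ℝ => (t : UnitAddCircle)) ≤ B • (volume : Measure UnitAddCircle)) :
    Spr ν B := by
  intro g hg c
  have hco : Measurable (fun t : ℝ => (t : UnitAddCircle)) :=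
    (AddCircle.continuous_mk' 1).measurable
  have hg' : Measurable (fun y : UnitAddCircle => g (c + y)) := hg.comp (measurable_const_add c)
  calc ∫⁻ t, g (c + (t : UnitAddCircle)) ∂ν =
        ∫⁻ y, g (c + y) ∂(ν.map (fun t : ℝ => (t : UnitAddCircle))) := (lintegral_map hg' hco).symm
    _ ≤ ∫⁻ y, g (c + y) ∂(B • (volume : Measure UnitAddCircle)) := lintegral_mono' h le_rfl
    _ = B * ∫⁻ y, g (c + y) := by rw [lintegral_smul_measure, smul_eq_mul]
    _ = B * ∫⁻ y, g y := by rw [lintegral_add_left_eq_self]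

theorem one_le_of_le {B : ℝ}
    (h : ν.map (fun t : ℝ => (t : UnitAddCircle)) ≤
      ENNReal.ofReal B • (volume : Measure UnitAddCircle)) : 1 ≤ B := by
  have hco : Measurable (fun t : ℝ => (t : UnitAddCircle)) :=
    (AddCircle.continuous_mk' 1).measurable
  have h1 := h Set.univ
  rw [Measure.map_apply hco MeasurableSet.univ, preimage_univ, measure_univ, Measure.smul_apply,
    measure_univ, smul_eq_mul, mul_one] at h1
  rwa [ENNReal.one_le_ofReal] at h1

/-- the uniform distribution on `[-ε, ε]` -/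
noncomputable def uni (ε : ℝ) : Measure ℝ :=
  (ENNReal.ofReal (2 * ε))⁻¹ • (volume : Measure ℝ).restrict (Set.Icc (-ε) ε)

theorem uni_prob {ε : ℝ} (hε : 0 < ε) : IsProbabilityMeasure (uni ε) := by
  constructor
  unfold uni
  rw [Measure.smul_apply, Measure.restrict_apply MeasurableSet.univ, univ_inter, Real.volume_Icc,
    smul_eq_mul, show ε - -ε = 2 * ε by ring]
  apply ENNReal.inv_mul_cancel
  · rw [ne_eq, ENNReal.ofReal_eq_zero, not_le]
    linarith
  · exact ENNReal.ofReal_ne_top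

theorem uni_le {ε : ℝ} (hε : 0 < ε) (hε1 : ε ≤ 1 / 2) :
    (uni ε).map (fun t : ℝ => (t : UnitAddCircle)) ≤
      ENNReal.ofReal (1 / (2 * ε)) • (volume : Measure UnitAddCircle) := by
  have hco : Measurable (fun t : ℝ => (t : UnitAddCircle)) :=
    (AddCircle.continuous_mk' 1).measurable
  have hmp := UnitAddCircle.measurePreserving_mk (-(1 / 2))
  rw [show -(1 / 2 : ℝ) + 1 = 1 / 2 by norm_num] at hmp
  rw [Measure.le_iff]
  intro s hs
  rw [Measure.map_apply hco hs, Measure.smul_apply, smul_eq_mul]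
  unfold uni
  rw [Measure.smul_apply, smul_eq_mul, one_div, ENNReal.ofReal_inv_of_pos (by linarith)]
  gcongr
  rw [Measure.restrict_apply (hco hs), ← hmp.measure_preimage hs.nullMeasurableSet,
    Measure.restrict_congr_set Ioc_ae_eq_Icc, Measure.restrict_apply (hco hs)]
  apply measure_mono
  refine inter_subset_inter_right _ (Icc_subset_Icc ?_ hε1)
  linarith

end Pool.Agent.K7.H81.NZ
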