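import Pool.Agent.Y332.SM.Fin

set_option autoImplicit false

/-!
# Full crossing curves for the standard map when no product of consecutive derivatives is small
-/

namespace Pool.Agent.K7.H81.SL

open Real MeasureTheory Function Set Filter Topology
open Pool.Agent.TH705.SM Pool.Agent.Y332.SM

/-- the products of consecutive derivatives are at least 15, the last five derivatives are large, and
the derivatives that are large at `t` are large at `v` -/
structure Gp (a M s : ℝ) (n : ℕ) (t v : ℝ) : Prop where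
  prod : ∀ k, 1 ≤ k → k + 1 ≤ n → 15 ≤ |L a (X a s k v) * L a (X a s (k + 1) v)|
  late : ∀ k, 1 ≤ k → k ≤ n → n ≤ k + 4 → 10 * M ≤ |L a (X a s k v)|
  big : ∀ k, 1 ≤ k → k ≤ n → 2 * M < |L a (X a s k t)| → M ≤ |L a (X a s k v)|

theorem Gp.ne {a M s t v : ℝ} (hM : 16 ≤ M) {n : ℕ} (hg : Gp a M s n t v) {k : ℕ} (hk : 1 ≤ k)
    (hkn : k ≤ n) : L a (X a s k v) ≠ 0 := by
  intro h0
  rcases hkn.lt_or_eq with h | h
  · have h1 := hg.prod k hk h
    rw [h0, zero_mul, abs_zero] at h1
    norm_num at h1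
  · have h1 := hg.late k hk hkn (by omega)
    rw [h0, abs_zero] at h1
    linarith

theorem growthG {a M s t v : ℝ} (hM : 16 ≤ M) {n : ℕ} (hg : Gp a M s n t v) (k : ℕ) :
    1 ≤ k → k ≤ n → D a s k v ≠ 0 ∧ D a s (k + 1) v ≠ 0 ∧
      6 * (|L a (X a s k v)| * |D a s k v|) ≤ 7 * |D a s (k + 1) v| := by
  induction k with
  | zero => omega
  | succ k ih =>
    intro _ hk
    have hP := hg.ne hM (k := k + 1) (by omega) hk
    have e : D a s (k + 1 + 1) v = L a (X a s (k + 1) v) * D a s (k + 1) v - D a s k v := rfl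
    rcases Nat.eq_zero_or_pos k with h0 | h0
    · subst h0
      have e1 : D a s (0 + 1) v = 1 := rfl
      have e0 : D a s 0 v = 0 := rfl
      rw [e, e1, e0, mul_one, sub_zero]
      refine ⟨one_ne_zero, hP, ?_⟩
      rw [abs_one, mul_one]
      have := abs_nonneg (L a (X a s (0 + 1) v))
      linarith
    · obtain ⟨h1, h2, h3⟩ := ih h0 (by omega)
      have h4 := hg.prod k h0 hk
      rw [abs_mul] at h4
      have hP0 : 0 < |L a (X a s (k + 1) v)| := abs_pos.2 hP
      have hy0 : 0 < |D a s (k + 1) v| := abs_pos.2 h2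
      have hx0 := abs_nonneg (D a s k v)
      set P := |L a (X a s (k + 1) v)| with hPd
      set Q := |L a (X a s k v)| with hQd
      set x := |D a s k v| with hx
      set y := |D a s (k + 1) v| with hy
      have h5 : 15 * x ≤ Q * P * x := mul_le_mul_of_nonneg_right h4 hx0
      have h6 : P * (6 * (Q * x)) ≤ P * (7 * y) := mul_le_mul_of_nonneg_left h3 hP0.le
      have h7 : 90 * x ≤ 7 * (P * y) := by nlinarith
      have h8 : P * y - x ≤ |D a s (k + 1 + 1) v| := by
        rw [e, hPd, hy, ← abs_mul]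
        exact abs_sub_abs_le_abs_sub _ _
      have h9 : 0 < P * y := mul_pos hP0 hy0
      have h10 : 6 * (P * y) ≤ 7 * |D a s (k + 1 + 1) v| := by linarith
      refine ⟨h2, ?_, h10⟩
      intro h11
      rw [h11, abs_zero] at h10
      linarith

theorem twoG {a M s t v : ℝ} (hM : 16 ≤ M) {n : ℕ} (hg : Gp a M s n t v) {k : ℕ} (h1 : 1 ≤ k)
    (h2 : k + 1 ≤ n) : |D a s k v| ≤ |D a s (k + 2) v| := by
  obtain ⟨_, _, h3⟩ := growthG hM hg k h1 (by omega)
  obtain ⟨_, _, h4⟩ := growthG hM hg (k + 1) (by omega) h2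
  have h5 := hg.prod k h1 h2
  rw [abs_mul] at h5
  have hx0 := abs_nonneg (D a s k v)
  have hP0 := abs_nonneg (L a (X a s (k + 1) v))
  set P := |L a (X a s (k + 1) v)| with hPd
  set Q := |L a (X a s k v)| with hQd
  set x := |D a s k v| with hx
  set y := |D a s (k + 1) v| with hy
  have h6 : 15 * x ≤ Q * P * x := mul_le_mul_of_nonneg_right h5 hx0
  have h7 : P * (6 * (Q * x)) ≤ P * (7 * y) := mul_le_mul_of_nonneg_left h3 hP0
  have h8 : 36 * (Q * P * x) ≤ 49 * |D a s (k + 1 + 1) v| := by nlinarith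
  show x ≤ |D a s (k + 1 + 1) v|
  linarith

theorem oneG {a M s t v : ℝ} (hM : 16 ≤ M) {n : ℕ} (hg : Gp a M s n t v) {k : ℕ} (h1 : 1 ≤ k)
    (h2 : k ≤ n) (h3 : n ≤ k + 4) : |D a s k v| ≤ 1 / (8 * M) * |D a s (k + 1) v| := by
  obtain ⟨_, _, h4⟩ := growthG hM hg k h1 h2
  have h5 := hg.late k h1 h2 h3
  have hx0 := abs_nonneg (D a s k v)
  have h6 : 10 * M * |D a s k v| ≤ |L a (X a s k v)| * |D a s k v| :=
    mul_le_mul_of_nonneg_right h5 hx0
  rw [one_div, ← div_eq_inv_mul, le_div_iff₀ (by linarith)]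
  nlinarith

/-- the bound for the displacement at time `k` -/
noncomputable def rr (M : ℝ) (n k : ℕ) : ℝ := (1 / (8 * M)) ^ (min 4 (n + 1 - k))

theorem rr_pos {M : ℝ} (hM : 16 ≤ M) (n k : ℕ) : 0 < rr M n k := by
  unfold rr
  have : 0 < M := by linarith
  positivity

/-- growth of the derivatives over several steps -/
theorem remG {a M s t v : ℝ} (hM : 16 ≤ M) {n : ℕ} (hg : Gp a M s n t v) (j : ℕ) :
    ∀ k, k + j = n + 1 → |D a s k v| ≤ rr M n k * |D a s (n + 1) v| := by
  induction j using Nat.strong_induction_on with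
  | _ j ih =>
    intro k hk
    rcases Nat.eq_zero_or_pos k with h0 | h0
    · subst h0
      show |(0:ℝ)| ≤ _
      rw [abs_zero]
      exact mul_nonneg (rr_pos hM n 0).le (abs_nonneg _)
    rcases Nat.eq_zero_or_pos j with hj | hj
    · have e : k = n + 1 := by omega
      subst e
      unfold rr
      rw [Nat.sub_self, min_eq_right (by omega), pow_zero, one_mul]
    by_cases h5 : j ≤ 5
    · have h1 := ih (j - 1) (by omega) (k + 1) (by omega)
      have h2 := oneG hM hg h0 (show k ≤ n by omega) (by omega)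
      have h3 : 0 < 1 / (8 * M) := by
        have : 0 < M := by linarith
        positivity
      have h4 : 1 / (8 * M) * rr M n (k + 1) ≤ rr M n k := by
        unfold rr
        rw [mul_comm, ← pow_succ]
        apply pow_le_pow_of_le_one h3.le
        · rw [div_le_one (by linarith)]
          linarith
        · omega
      calc |D a s k v| ≤ 1 / (8 * M) * |D a s (k + 1) v| := h2
        _ ≤ 1 / (8 * M) * (rr M n (k + 1) * |D a s (n + 1) v|) :=
          mul_le_mul_of_nonneg_left h1 h3.le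
        _ = 1 / (8 * M) * rr M n (k + 1) * |D a s (n + 1) v| := by ring
        _ ≤ _ := mul_le_mul_of_nonneg_right h4 (abs_nonneg _)
    · have h1 := ih (j - 2) (by omega) (k + 2) (by omega)
      have h2 := twoG hM hg h0 (show k + 1 ≤ n by omega)
      have e : rr M n (k + 2) = rr M n k := by
        unfold rr
        congr 1
        omega
      rw [e] at h1
      exact h2.trans h1

theorem D_neG {a M s t v : ℝ} (hM : 16 ≤ M) {n : ℕ} (hn : 1 ≤ n) (hg : Gp a M s n t v) :
    D a s (n + 1) v ≠ 0 := (growthG hM hg n hn le_rfl).2.1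

/-- increments of the earlier coordinates against the last one -/
theorem X_incrG {a M s t : ℝ} (hM : 16 ≤ M) {n : ℕ} (hn : 1 ≤ n) {c d : ℝ} (hcd : c ≤ d)
    (hg : ∀ v ∈ Icc c d, Gp a M s n t v) {k : ℕ} (hk : k ≤ n + 1) :
    |X a s k d - X a s k c| ≤ rr M n k * |X a s (n + 1) d - X a s (n + 1) c| := by
  refine incr hcd (fun x => X_hasDeriv a s (n + 1) x) (fun x => X_hasDeriv a s k x)
    (D_cont a s (n + 1)) (fun x hx => D_neG hM hn (hg x hx)) fun x hx => ?_
  exact remG hM (hg x hx) (n + 1 - k) k (by omega)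

/-- a lower bound for sums when small terms are compensated by the next ones -/
theorem sums {e : ℕ → ℝ} {b : ℕ → Prop} [DecidablePred b] {ℓ : ℝ} (hℓ : 0 ≤ ℓ) {n : ℕ}
    (h1 : ∀ k, 1 ≤ k → k + 1 ≤ n → 0 ≤ e k + e (k + 1))
    (h2 : ∀ k, 1 ≤ k → k ≤ n → ¬ b k → ℓ ≤ e k) (k : ℕ) : 1 ≤ k → k ≤ n →
    (0 ≤ e k → ((k:ℝ) - 2 * ((Finset.Icc 1 k).filter b).card) * ℓ ≤ ∑ j ∈ Finset.Icc 1 k, e j) ∧
    (e k < 0 → ((k:ℝ) + 1 - 2 * ((Finset.Icc 1 k).filter b).card) * ℓ + e k ≤
      ∑ j ∈ Finset.Icc 1 k, e j) := by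
  induction k with
  | zero => omega
  | succ k ih =>
    intro _ hk
    have hI : Finset.Icc 1 (k + 1) = insert (k + 1) (Finset.Icc 1 k) := by
      ext x
      simp only [Finset.mem_Icc, Finset.mem_insert]
      omega
    have hnot : k + 1 ∉ Finset.Icc 1 k := by simp
    have hsum : ∑ j ∈ Finset.Icc 1 (k + 1), e j = e (k + 1) + ∑ j ∈ Finset.Icc 1 k, e j := by
      rw [hI, Finset.sum_insert hnot]
    have hc1 : b (k + 1) → ((Finset.Icc 1 (k + 1)).filter b).card =
        ((Finset.Icc 1 k).filter b).card + 1 := by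
      intro hb
      rw [hI, Finset.filter_insert, if_pos hb, Finset.card_insert_of_notMem]
      intro h
      exact hnot (Finset.mem_filter.1 h).1
    have hc0 : ¬ b (k + 1) → ((Finset.Icc 1 (k + 1)).filter b).card =
        ((Finset.Icc 1 k).filter b).card := by
      intro hb
      rw [hI, Finset.filter_insert, if_neg hb]
    rw [hsum]
    rcases Nat.eq_zero_or_pos k with h0 | h0
    · subst h0
      have e0 : ∑ j ∈ Finset.Icc 1 0, e j = 0 := by simp
      have e1 : ((Finset.Icc 1 0).filter b).card = 0 := by simp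
      rw [e0]
      by_cases hb : b (0 + 1)
      · rw [hc1 hb, e1]
        push_cast
        constructor
        · intro h
          linarith
        · intro h
          linarith
      · have h3 := h2 (0 + 1) le_rfl hk hb
        rw [hc0 hb, e1]
        push_cast
        constructor
        · intro h
          linarith
        · intro h
          linarith
    · obtain ⟨g1, g2⟩ := ih h0 (by omega)
      have h3 := h1 k h0 hk
      set S := ∑ j ∈ Finset.Icc 1 k, e j with hS
      set c := ((Finset.Icc 1 k).filter b).card with hc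
      by_cases hb : b (k + 1)
      · rw [hc1 hb]
        push_cast
        constructor
        · intro h
          by_cases h4 : 0 ≤ e k
          · have := g1 h4
            linarith
          · have := g2 (not_le.1 h4)
            linarith
        · intro h
          have h4 : 0 ≤ e k := by linarith
          have := g1 h4
          linarith
      · have h5 := h2 (k + 1) (by omega) hk hb
        rw [hc0 hb]
        push_cast
        constructor
        · intro h
          by_cases h4 : 0 ≤ e k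
          · have := g1 h4
            linarith
          · have := g2 (not_le.1 h4)
            linarith
        · intro h
          linarith

/-- the number of small derivatives at `t` -/
noncomputable def cnt (a M s : ℝ) (n : ℕ) (t : ℝ) : ℕ :=
  ((Finset.Icc 1 n).filter fun k => |L a (X a s k t)| ≤ 2 * M).card

/-- the final derivative is exponentially large -/
theorem D_large {a M s t v : ℝ} (hM : 16 ≤ M) {n : ℕ} (hn : 1 ≤ n) (hg : Gp a M s n t v)
    (hc : 8 * cnt a M s n t ≤ n) : √M ^ n ≤ |D a s (n + 1) v| := by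
  classical
  have hM0 : 0 < M := by linarith
  set e : ℕ → ℝ := fun k => log |L a (X a s k v)| with he
  have hℓ : 2 < log M := by
    have h1 : log 16 ≤ log M := Real.log_le_log (by norm_num) hM
    have h2 : log 16 = 4 * log 2 := by
      rw [show (16:ℝ) = 2 ^ 4 by norm_num, Real.log_pow]
      norm_num
    have := Real.log_two_gt_d9
    linarith
  have h1 : ∀ k, 1 ≤ k → k + 1 ≤ n → 0 ≤ e k + e (k + 1) := by
    intro k hk hk2
    have h3 := hg.prod k hk hk2
    have h4 := abs_pos.2 (hg.ne hM hk (by omega))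
    have h5 := abs_pos.2 (hg.ne hM (k := k + 1) (by omega) hk2)
    rw [he]
    simp only
    rw [← Real.log_mul h4.ne' h5.ne', ← abs_mul]
    exact Real.log_nonneg (by linarith)
  have h2 : ∀ k, 1 ≤ k → k ≤ n → ¬ |L a (X a s k t)| ≤ 2 * M → log M ≤ e k := by
    intro k hk hk2 h
    exact Real.log_le_log hM0 (hg.big k hk hk2 (not_le.1 h))
  obtain ⟨g1, _⟩ := sums (b := fun k => |L a (X a s k t)| ≤ 2 * M) (by linarith : 0 ≤ log M) h1 h2 n
    hn le_rfl
  have h3 : 0 ≤ e n := by
    have := hg.late n hn le_rfl (by omega)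
    exact Real.log_nonneg (by linarith)
  have h4 := g1 h3
  have hcn : ((Finset.Icc 1 n).filter fun k => |L a (X a s k t)| ≤ 2 * M).card =
      cnt a M s n t := rfl
  rw [hcn] at h4
  have h5 : ∀ k, k ≤ n → ∑ j ∈ Finset.Icc 1 k, e j - k * (1 / 6) ≤ log |D a s (k + 1) v| := by
    intro k
    induction k with
    | zero =>
      intro _
      have e1 : D a s (0 + 1) v = 1 := rfl
      rw [e1]
      simp
    | succ k ih =>
      intro hk
      have h6 := ih (by omega)
      obtain ⟨q1, q2, q3⟩ := growthG hM hg (k + 1) (by omega) hk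
      have hI : Finset.Icc 1 (k + 1) = insert (k + 1) (Finset.Icc 1 k) := by
        ext x
        simp only [Finset.mem_Icc, Finset.mem_insert]
        omega
      have hnot : k + 1 ∉ Finset.Icc 1 k := by simp
      rw [hI, Finset.sum_insert hnot]
      have p1 := abs_pos.2 q1
      have p2 := abs_pos.2 (hg.ne hM (k := k + 1) (by omega) hk)
      have h7 : log (6 * (|L a (X a s (k + 1) v)| * |D a s (k + 1) v|)) ≤
          log (7 * |D a s (k + 1 + 1) v|) := Real.log_le_log (by positivity) q3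
      rw [Real.log_mul (by norm_num) (by positivity), Real.log_mul p2.ne' p1.ne',
        Real.log_mul (by norm_num) (abs_pos.2 q2).ne'] at h7
      have h8 : log 7 - log 6 ≤ 1 / 6 := by
        rw [← Real.log_div (by norm_num) (by norm_num)]
        refine (Real.log_le_sub_one_of_pos (by norm_num)).trans ?_
        norm_num
      have e1 : e (k + 1) = log |L a (X a s (k + 1) v)| := rfl
      rw [e1]
      push_cast
      linarith
  have h6 := h5 n le_rfl
  have h7 : (cnt a M s n t : ℝ) * 8 ≤ n := by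
    have : ((8 * cnt a M s n t : ℕ) : ℝ) ≤ n := Nat.cast_le.2 hc
    push_cast at this
    linarith
  have hn0 : (0:ℝ) ≤ n := Nat.cast_nonneg n
  have h8 : (n:ℝ) * (log M / 2) ≤ log |D a s (n + 1) v| := by
    have h9 : ((n:ℝ) * (3 / 4)) * log M ≤ ((n:ℝ) - 2 * cnt a M s n t) * log M :=
      mul_le_mul_of_nonneg_right (by linarith) (by linarith)
    have h10 : (n:ℝ) * 2 ≤ n * log M := mul_le_mul_of_nonneg_left hℓ.le hn0
    linarith
  have h9 : log (√M ^ n) = n * (log M / 2) := by
    rw [Real.log_pow, Real.log_sqrt hM0.le]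
  rw [← Real.log_le_log_iff (by positivity) (abs_pos.2 (D_neG hM hn hg)), h9]
  exact h8

theorem time_incrG {a M s t : ℝ} (hM : 16 ≤ M) {n : ℕ} (hn : 1 ≤ n) {c d : ℝ} (hcd : c ≤ d)
    (hg : ∀ v ∈ Icc c d, Gp a M s n t v) (hc : 8 * cnt a M s n t ≤ n) :
    |d - c| ≤ (1 / √M) ^ n * |X a s (n + 1) d - X a s (n + 1) c| := by
  have hM0 : 0 < M := by linarith
  have hs0 : 0 < √M := Real.sqrt_pos.2 hM0
  refine incr (f := fun x => x) (f' := fun _ => 1) hcd (fun x => X_hasDeriv a s (n + 1) x)
    (fun x => hasDerivAt_id x)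
    (D_cont a s (n + 1)) (fun x hx => D_neG hM hn (hg x hx)) fun x hx => ?_
  have h1 := D_large hM hn (hg x hx) hc
  rw [abs_one, div_pow, one_pow, one_div, ← div_eq_inv_mul, le_div_iff₀ (by positivity), one_mul]
  exact h1

/-- the strong form of `Gp` -/
structure Sp (a M s : ℝ) (n : ℕ) (t : ℝ) : Prop where
  prod : ∀ k, 1 ≤ k → k + 1 ≤ n → 16 ≤ |L a (X a s k t) * L a (X a s (k + 1) t)|
  late : ∀ k, 1 ≤ k → k ≤ n → n ≤ k + 4 → 15 * M < |L a (X a s k t)|
  count : 8 * cnt a M s n t ≤ n

theorem L_le (a x : ℝ) : |L a x| ≤ 2 + 2 * π * |a| := by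
  unfold L
  refine (abs_add_le _ _).trans ?_
  rw [abs_of_pos (by norm_num : (0:ℝ) < 2), abs_mul, abs_mul, abs_of_pos (by positivity : 0 < 2 * π)]
  have := abs_cos_le_one (2 * π * x)
  have h2 : 2 * π * |a| * |cos (2 * π * x)| ≤ 2 * π * |a| * 1 :=
    mul_le_mul_of_nonneg_left this (by positivity)
  linarith

/-- strict inequalities at near points -/
structure Nr (a M s : ℝ) (n : ℕ) (t v : ℝ) : Prop where
  prod : ∀ k, 1 ≤ k → k + 1 ≤ n → 15 < |L a (X a s k v) * L a (X a s (k + 1) v)|
  late : ∀ k, 1 ≤ k → k ≤ n → n ≤ k + 4 → 10 * M < |L a (X a s k v)|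
  big : ∀ k, 1 ≤ k → k ≤ n → 2 * M < |L a (X a s k t)| → M < |L a (X a s k v)|

theorem Nr.gp {a M s : ℝ} {n : ℕ} {t v : ℝ} (h : Nr a M s n t v) : Gp a M s n t v :=
  ⟨fun k h1 h2 => (h.prod k h1 h2).le, fun k h1 h2 h3 => (h.late k h1 h2 h3).le,
    fun k h1 h2 h3 => (h.big k h1 h2 h3).le⟩

theorem near {a M s t v : ℝ} (hM : 16 ≤ M) (haM : |a| = M ^ 2) {n : ℕ}
    (hs : Sp a M s n t) (hd : ∀ k, 1 ≤ k → k ≤ n → |X a s k v - X a s k t| ≤ rr M n k) :
    Nr a M s n t v := by
  have hM0 : 0 < M := by linarith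
  have hpi := Real.pi_pos
  have hpi2 := Real.pi_lt_d2
  have hpi3 : π ^ 2 < 10 := by nlinarith
  have hdL : ∀ k, 1 ≤ k → k ≤ n →
      |L a (X a s k v) - L a (X a s k t)| ≤ 4 * π ^ 2 * M ^ 2 * rr M n k := by
    intro k h1 h2
    have h3 := L_lip a (X a s k v) (X a s k t)
    rw [haM] at h3
    exact h3.trans (mul_le_mul_of_nonneg_left (hd k h1 h2) (by positivity))
  have h8 : 0 < 1 / (8 * M) := by positivity
  have h8' : 1 / (8 * M) ≤ 1 := by
    rw [div_le_one (by linarith)]
    linarith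
  -- all times
  have hall : ∀ k, 1 ≤ k → k ≤ n → |L a (X a s k v) - L a (X a s k t)| < 5 * M := by
    intro k h1 h2
    refine (hdL k h1 h2).trans_lt ?_
    have h3 : rr M n k ≤ 1 / (8 * M) := by
      unfold rr
      have : (1 / (8 * M)) ^ (min 4 (n + 1 - k)) ≤ (1 / (8 * M)) ^ 1 :=
        pow_le_pow_of_le_one h8.le h8' (by omega)
      rwa [pow_one] at this
    calc 4 * π ^ 2 * M ^ 2 * rr M n k ≤ 4 * π ^ 2 * M ^ 2 * (1 / (8 * M)) :=
          mul_le_mul_of_nonneg_left h3 (by positivity)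
      _ = π ^ 2 * M / 2 := by field_simp; ring
      _ < 5 * M := by nlinarith
  -- early times
  have hearly : ∀ k, 1 ≤ k → k ≤ n → k + 3 ≤ n →
      |L a (X a s k v) - L a (X a s k t)| ≤ 1 / (100 * M ^ 2) := by
    intro k h1 h2 h3
    refine (hdL k h1 h2).trans ?_
    have h4 : rr M n k = (1 / (8 * M)) ^ 4 := by
      unfold rr
      congr 1
      omega
    rw [h4]
    have h5 : 4 * π ^ 2 * M ^ 2 * (1 / (8 * M)) ^ 4 = π ^ 2 / 10.24 * (1 / (100 * M ^ 2)) := by
      field_simp
      norm_num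
    rw [h5]
    have h6 : 0 < 1 / (100 * M ^ 2) := by positivity
    have h7 : π ^ 2 / 10.24 ≤ 1 := by
      rw [div_le_one (by norm_num)]
      linarith
    exact mul_le_of_le_one_left h6.le h7
  have hlate : ∀ k, 1 ≤ k → k ≤ n → n ≤ k + 4 → 10 * M < |L a (X a s k v)| := by
    intro k h1 h2 h3
    have h4 := hall k h1 h2
    have h5 := hs.late k h1 h2 h3
    have h6 := abs_sub_abs_le_abs_sub (L a (X a s k t)) (L a (X a s k v))
    rw [abs_sub_comm] at h6
    linarith
  refine ⟨?_, hlate, ?_⟩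
  · intro k h1 h2
    by_cases h3 : n ≤ k + 4
    · have h4 := hlate k h1 (by omega) h3
      have h5 := hlate (k + 1) (by omega) h2 (by omega)
      rw [abs_mul]
      nlinarith
    · have h4 := hearly k h1 (by omega) (by omega)
      have h5 := hearly (k + 1) (by omega) h2 (by omega)
      have h6 := hs.prod k h1 h2
      have h7 : |L a (X a s (k + 1) v)| ≤ 7 * M ^ 2 := by
        have := L_le a (X a s (k + 1) v)
        rw [haM] at this
        nlinarith
      have h9 : |L a (X a s k t)| ≤ 7 * M ^ 2 := by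
        have := L_le a (X a s k t)
        rw [haM] at this
        nlinarith
      set P := L a (X a s k v)
      set Q := L a (X a s (k + 1) v)
      set P' := L a (X a s k t)
      set Q' := L a (X a s (k + 1) t)
      have h10 : |P * Q - P' * Q'| ≤ 1 / 2 := by
        have e1 : P * Q - P' * Q' = (P - P') * Q + P' * (Q - Q') := by ring
        rw [e1]
        refine (abs_add_le _ _).trans ?_
        rw [abs_mul, abs_mul]
        have h0 : 0 < 1 / (100 * M ^ 2) := by positivity
        have q1 : |P - P'| * |Q| ≤ 1 / (100 * M ^ 2) * (7 * M ^ 2) :=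
          mul_le_mul h4 h7 (abs_nonneg _) h0.le
        have q2 : |P'| * |Q - Q'| ≤ 7 * M ^ 2 * (1 / (100 * M ^ 2)) :=
          mul_le_mul h9 h5 (abs_nonneg _) (by positivity)
        have q3 : 1 / (100 * M ^ 2) * (7 * M ^ 2) = 7 / 100 := by
          field_simp
        have q4 : 7 * M ^ 2 * (1 / (100 * M ^ 2)) = 7 / 100 := by
          field_simp
        rw [q3] at q1
        rw [q4] at q2
        linarith
      have h11 := abs_sub_abs_le_abs_sub (P' * Q') (P * Q)
      rw [abs_sub_comm] at h11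
      linarith
  · intro k h1 h2 h3
    by_cases h4 : n ≤ k + 4
    · have := hlate k h1 h2 h4
      linarith
    · have h5 := hearly k h1 h2 (by omega)
      have h6 := abs_sub_abs_le_abs_sub (L a (X a s k t)) (L a (X a s k v))
      rw [abs_sub_comm] at h6
      have h7 : 1 / (100 * M ^ 2) ≤ 1 := by
        rw [div_le_one (by positivity)]
        nlinarith
      linarith

theorem gp_closed (a M s : ℝ) (n : ℕ) (t : ℝ) : IsClosed {v | Gp a M s n t v} := by
  have h : {v | Gp a M s n t v} =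
      (⋂ k, ⋂ (_ : 1 ≤ k), ⋂ (_ : k + 1 ≤ n),
        {v | 15 ≤ |L a (X a s k v) * L a (X a s (k + 1) v)|}) ∩
      ((⋂ k, ⋂ (_ : 1 ≤ k), ⋂ (_ : k ≤ n), ⋂ (_ : n ≤ k + 4), {v | 10 * M ≤ |L a (X a s k v)|}) ∩
      (⋂ k, ⋂ (_ : 1 ≤ k), ⋂ (_ : k ≤ n), ⋂ (_ : 2 * M < |L a (X a s k t)|),
        {v | M ≤ |L a (X a s k v)|})) := by
    ext v
    simp only [Set.mem_ofPred_eq, Set.mem_iInter, Set.mem_inter_iff]
    exact ⟨fun h => ⟨h.prod, h.late, h.big⟩, fun h => ⟨h.1, h.2.1, h.2.2⟩⟩
  have hc : ∀ k, Continuous fun v => L a (X a s k v) := fun k => (L_cont a).comp (Xt_cont a s k)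
  rw [h]
  refine IsClosed.inter ?_ (IsClosed.inter ?_ ?_)
  · refine isClosed_iInter fun k => isClosed_iInter fun _ => isClosed_iInter fun _ => ?_
    exact isClosed_le continuous_const ((hc k).mul (hc (k + 1))).abs
  · refine isClosed_iInter fun k => isClosed_iInter fun _ => isClosed_iInter fun _ =>
      isClosed_iInter fun _ => ?_
    exact isClosed_le continuous_const (hc k).abs
  · refine isClosed_iInter fun k => isClosed_iInter fun _ => isClosed_iInter fun _ =>
      isClosed_iInter fun _ => ?_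
    exact isClosed_le continuous_const (hc k).abs

theorem Nr.eventually {a M s : ℝ} {n : ℕ} {t x : ℝ} (h : Nr a M s n t x) :
    ∀ᶠ v in 𝓝 x, Gp a M s n t v := by
  have hc : ∀ k, Continuous fun v => L a (X a s k v) := fun k => (L_cont a).comp (Xt_cont a s k)
  have h1 : ∀ k ∈ Finset.Icc 1 n, ∀ᶠ v in 𝓝 x,
      (k + 1 ≤ n → 15 ≤ |L a (X a s k v) * L a (X a s (k + 1) v)|) ∧
      (n ≤ k + 4 → 10 * M ≤ |L a (X a s k v)|) ∧
      (2 * M < |L a (X a s k t)| → M ≤ |L a (X a s k v)|) := by
    intro k hk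
    rw [Finset.mem_Icc] at hk
    have e1 : ∀ᶠ v in 𝓝 x, (k + 1 ≤ n → 15 ≤ |L a (X a s k v) * L a (X a s (k + 1) v)|) := by
      by_cases h2 : k + 1 ≤ n
      · have h3 : ContinuousAt (fun v => |L a (X a s k v) * L a (X a s (k + 1) v)|) x :=
          (((hc k).mul (hc (k + 1))).abs).continuousAt
        exact (h3.eventually (lt_mem_nhds (h.prod k hk.1 h2))).mono fun v hv _ => hv.le
      · exact Eventually.of_forall fun v hv => absurd hv h2
    have e2 : ∀ᶠ v in 𝓝 x, (n ≤ k + 4 → 10 * M ≤ |L a (X a s k v)|) := by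
      by_cases h2 : n ≤ k + 4
      · have h3 : ContinuousAt (fun v => |L a (X a s k v)|) x := (hc k).abs.continuousAt
        exact (h3.eventually (lt_mem_nhds (h.late k hk.1 hk.2 h2))).mono fun v hv _ => hv.le
      · exact Eventually.of_forall fun v hv => absurd hv h2
    have e3 : ∀ᶠ v in 𝓝 x, (2 * M < |L a (X a s k t)| → M ≤ |L a (X a s k v)|) := by
      by_cases h2 : 2 * M < |L a (X a s k t)|
      · have h3 : ContinuousAt (fun v => |L a (X a s k v)|) x := (hc k).abs.continuousAt
        exact (h3.eventually (lt_mem_nhds (h.big k hk.1 hk.2 h2))).mono fun v hv _ => hv.le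
      · exact Eventually.of_forall fun v hv => absurd hv h2
    exact e1.and (e2.and e3)
  have h2 := (Filter.eventually_all_finset (Finset.Icc 1 n)).2 h1
  refine h2.mono fun v hv => ⟨fun k q1 q2 => ?_, fun k q1 q2 q3 => ?_, fun k q1 q2 q3 => ?_⟩
  · exact (hv k (Finset.mem_Icc.2 ⟨q1, by omega⟩)).1 q2
  · exact (hv k (Finset.mem_Icc.2 ⟨q1, q2⟩)).2.1 q3
  · exact (hv k (Finset.mem_Icc.2 ⟨q1, q2⟩)).2.2 q3

theorem Sp.gp {a M s t : ℝ} (hM : 16 ≤ M) (haM : |a| = M ^ 2) {n : ℕ} (hs : Sp a M s n t) :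
    Gp a M s n t t := (near hM haM hs fun k _ _ => by
      rw [sub_self, abs_zero]
      exact (rr_pos hM n k).le).gp

/-- as long as the last coordinate moves by at most one, the orbit stays good -/
theorem stayG {a M s t u : ℝ} (hM : 16 ≤ M) (haM : |a| = M ^ 2) {n : ℕ} (hn : 1 ≤ n)
    (hs : Sp a M s n t) (htu : t ≤ u)
    (h1 : ∀ v ∈ Icc t u, |X a s (n + 1) v - X a s (n + 1) t| ≤ 1) :
    ∀ v ∈ Icc t u, Gp a M s n t v := by
  set Q : Set ℝ := {v | ∀ w ∈ Icc t v, Gp a M s n t w} with hQ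
  have hmain : Icc t u ⊆ Q := by
    apply IsClosed.Icc_subset_of_forall_mem_nhdsWithin
    · rw [← isSeqClosed_iff_isClosed]
      intro v x hv hx
      have hxI : x ∈ Icc t u := isClosed_Icc.mem_of_tendsto hx
        (Eventually.of_forall fun n => (hv n).2)
      refine ⟨?_, hxI⟩
      intro w hw
      rcases hw.2.lt_or_eq with h | h
      · obtain ⟨m, hm⟩ := (hx.eventually (lt_mem_nhds h)).exists
        exact (hv m).1 w ⟨hw.1, hm.le⟩
      · rw [h]
        apply (gp_closed a M s n t).mem_of_tendsto hx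
        exact Eventually.of_forall fun m => (hv m).1 (v m) (right_mem_Icc.2 (hv m).2.1)
    · intro w hw
      rw [Icc_self, mem_singleton_iff] at hw
      rw [hw]
      exact hs.gp hM haM
    · intro x hx
      obtain ⟨hxQ, hxI⟩ := hx
      have hxI' : x ∈ Icc t u := ⟨hxI.1, hxI.2.le⟩
      have hnr : Nr a M s n t x := by
        refine near hM haM hs fun k hk1 hk2 => ?_
        have h2 := X_incrG hM hn hxI.1 hxQ (k := k) (by omega)
        have h3 := h1 x hxI'
        refine h2.trans ?_
        have := rr_pos hM n k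
        nlinarith
      have hev := hnr.eventually
      obtain ⟨δ, hδ, hball⟩ := Metric.eventually_nhds_iff.1 hev
      have : Ioo x (x + δ) ∈ 𝓝[>] x := Ioo_mem_nhdsGT (by linarith)
      refine Filter.mem_of_superset this fun v hv w hw => ?_
      rcases le_or_gt w x with h | h
      · exact hxQ w ⟨hw.1, h⟩
      · apply hball
        rw [Real.dist_eq, abs_lt]
        constructor <;> linarith [hw.2, hv.2]
  intro v hv
  exact hmain (right_mem_Icc.2 htu) v hv

/-- the crossing to the right -/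
theorem rightG {a M s t : ℝ} (hM : 16 ≤ M) (haM : |a| = M ^ 2) {n : ℕ} (hn : 1 ≤ n)
    (hs : Sp a M s n t) :
    ∃ u, t ≤ u ∧ u ≤ t + (1 / √M) ^ n ∧ (∀ v ∈ Icc t u, Gp a M s n t v) ∧
      |X a s (n + 1) u - X a s (n + 1) t| = 1 := by
  have hM0 : 0 < M := by linarith
  have hs0 : 0 < √M := Real.sqrt_pos.2 hM0
  set r : ℝ := (1 / √M) ^ n with hr
  have hr0 : 0 < r := by positivity
  set h : ℝ → ℝ := fun v => |X a s (n + 1) v - X a s (n + 1) t| with hh
  have hc : Continuous h := ((Xt_cont a s (n + 1)).sub continuous_const).abs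
  have h0 : h t = 0 := by simp [hh]
  by_cases hcase : ∃ v ∈ Icc t (t + r), 1 ≤ h v
  · obtain ⟨v, hv, hv1⟩ := hcase
    have hK : IsCompact (Icc t (t + r) ∩ h ⁻¹' (Ici 1)) :=
      isCompact_Icc.inter_right (isClosed_Ici.preimage hc)
    obtain ⟨u, ⟨huI, hu1⟩, hmin⟩ := hK.exists_isLeast ⟨v, hv, hv1⟩
    have hlt : ∀ w ∈ Icc t u, w ≠ u → h w < 1 := by
      intro w hw hne
      by_contra hcon
      rw [not_lt] at hcon
      have := hmin ⟨⟨hw.1, hw.2.trans huI.2⟩, hcon⟩
      exact hne (le_antisymm hw.2 this)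
    have htu : t < u := by
      rcases huI.1.lt_or_eq with h2 | h2
      · exact h2
      · rw [← h2] at hu1
        have : (1:ℝ) ≤ h t := hu1
        rw [h0] at this
        linarith
    have hu2 : h u ≤ 1 := by
      apply le_of_tendsto (f := h) (x := 𝓝[<] u) (hc.continuousAt.tendsto.mono_left
        nhdsWithin_le_nhds)
      have : Ioo t u ∈ 𝓝[<] u := Ioo_mem_nhdsLT htu
      exact Filter.mem_of_superset this fun w hw => (hlt w ⟨hw.1.le, hw.2.le⟩ hw.2.ne).le
    have hle : ∀ w ∈ Icc t u, |X a s (n + 1) w - X a s (n + 1) t| ≤ 1 := by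
      intro w hw
      by_cases hwu : w = u
      · rw [hwu]; exact hu2
      · exact (hlt w hw hwu).le
    exact ⟨u, huI.1, huI.2, stayG hM haM hn hs huI.1 hle, le_antisymm hu2 hu1⟩
  · push Not at hcase
    exfalso
    have hgood := stayG hM haM hn hs (by linarith : t ≤ t + r) fun v hv => (hcase v hv).le
    have h1 := time_incrG hM hn (by linarith : t ≤ t + r) hgood hs.count
    have h2 := hcase (t + r) (right_mem_Icc.2 (by linarith))
    have e : |t + r - t| = r := by rw [add_sub_cancel_left, abs_of_pos hr0]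
    rw [e, ← hr] at h1
    have h3 : r * h (t + r) < r * 1 := mul_lt_mul_of_pos_left h2 hr0
    have h4 : h (t + r) = |X a s (n + 1) (t + r) - X a s (n + 1) t| := rfl
    rw [← h4] at h1
    linarith

theorem gp_neg {a M s t v : ℝ} {n : ℕ} : Gp a M (-s) n (-t) (-v) ↔ Gp a M s n t v := by
  constructor
  · intro h
    refine ⟨fun k h1 h2 => ?_, fun k h1 h2 h3 => ?_, fun k h1 h2 h3 => ?_⟩
    · have := h.prod k h1 h2
      simpa only [X_neg, L_neg] using this
    · have := h.late k h1 h2 h3
      simpa only [X_neg, L_neg] using this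
    · have := h.big k h1 h2
      simp only [X_neg, L_neg] at this
      exact this h3
  · intro h
    refine ⟨fun k h1 h2 => ?_, fun k h1 h2 h3 => ?_, fun k h1 h2 h3 => ?_⟩
    · simp only [X_neg, L_neg]
      exact h.prod k h1 h2
    · simp only [X_neg, L_neg]
      exact h.late k h1 h2 h3
    · simp only [X_neg, L_neg] at h3 ⊢
      exact h.big k h1 h2 h3

theorem sp_neg {a M s t : ℝ} {n : ℕ} (h : Sp a M s n t) : Sp a M (-s) n (-t) := by
  refine ⟨fun k h1 h2 => ?_, fun k h1 h2 h3 => ?_, ?_⟩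
  · simp only [X_neg, L_neg]
    exact h.prod k h1 h2
  · simp only [X_neg, L_neg]
    exact h.late k h1 h2 h3
  · have e : cnt a M (-s) n (-t) = cnt a M s n t := by
      unfold cnt
      simp only [X_neg, L_neg]
    rw [e]
    exact h.count

/-- the crossing to the left -/
theorem leftG {a M s t : ℝ} (hM : 16 ≤ M) (haM : |a| = M ^ 2) {n : ℕ} (hn : 1 ≤ n)
    (hs : Sp a M s n t) :
    ∃ u, t - (1 / √M) ^ n ≤ u ∧ u ≤ t ∧ (∀ v ∈ Icc u t, Gp a M s n t v) ∧
      |X a s (n + 1) u - X a s (n + 1) t| = 1 := by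
  obtain ⟨u, h1, h2, h3, h4⟩ := rightG hM haM hn (sp_neg hs)
  refine ⟨-u, by linarith, by linarith, ?_, ?_⟩
  · intro v hv
    have := h3 (-v) ⟨by linarith [hv.2], by linarith [hv.1]⟩
    exact gp_neg.1 this
  · have e : X a (-s) (n + 1) u = -X a s (n + 1) (-u) := by
      rw [← X_neg, neg_neg]
    rw [e, X_neg] at h4
    rw [← h4, ← abs_neg]
    congr 1
    ring

/-- the image of a short segment contains a full crossing -/
theorem curveG {a M s t : ℝ} (hM : 16 ≤ M) (haM : |a| = M ^ 2) {n : ℕ} (hn : 1 ≤ n)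
    (hs : Sp a M s n t) : HasCurve ((S a)^[n] '' seg ((1 / √M) ^ n) t s) := by
  obtain ⟨c, hc1, hc2, hc3, hc4⟩ := leftG hM haM hn hs
  obtain ⟨d, hd1, hd2, hd3, hd4⟩ := rightG hM haM hn hs
  have hcd : c ≤ d := hc2.trans hd1
  have hgood : ∀ v ∈ Icc c d, Gp a M s n t v := by
    intro v hv
    rcases le_total v t with h | h
    · exact hc3 v ⟨hv.1, h⟩
    · exact hd3 v ⟨h, hv.2⟩
  set Y : ℝ → ℝ := X a s (n + 1) with hY
  have hne : Y c ≠ Y d := by
    intro he
    have h1 := time_incrG hM hn hcd hgood hs.count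
    rw [← hY, he, sub_self, abs_zero, mul_zero] at h1
    have h2 : d = c := by
      have := abs_nonneg (d - c)
      have h3 : |d - c| = 0 := le_antisymm h1 this
      rw [abs_eq_zero] at h3
      linarith
    have h3 : t = c := by linarith
    rw [h3, sub_self, abs_zero] at hc4
    norm_num at hc4
  have hsub : Icc (Y t - 1) (Y t + 1) ⊆ Y '' Icc c d := by
    have h1 := intermediate_value_uIcc (a := c) (b := d) (f := Y)
      (Xt_cont a s (n + 1)).continuousOn
    rw [uIcc_of_le hcd] at h1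
    refine subset_trans ?_ h1
    have hc5 : Y c - Y t = 1 ∨ Y c - Y t = -1 := (abs_eq zero_le_one).1 hc4
    have hd5 : Y d - Y t = 1 ∨ Y d - Y t = -1 := (abs_eq zero_le_one).1 hd4
    rcases hc5 with h5 | h5 <;> rcases hd5 with h6 | h6
    · exact absurd (by linarith) hne
    · have e1 : Y c = Y t + 1 := by linarith
      have e2 : Y d = Y t - 1 := by linarith
      rw [e1, e2, uIcc_of_ge (by linarith)]
    · have e1 : Y c = Y t - 1 := by linarith
      have e2 : Y d = Y t + 1 := by linarith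
      rw [e1, e2, uIcc_of_le (by linarith)]
    · exact absurd (by linarith) hne
  have hsub' : ∀ x ∈ Icc (Y t - 1) (Y t + 1), ∃ u, u ∈ Icc c d ∧ Y u = x :=
    fun x hx => hsub hx
  choose! τ hτ using hsub'
  refine ⟨Y t, fun x => X a s n (τ x), ?_, ?_⟩
  · intro x hx
    have h1 := (hτ x hx).1
    have h2 : ((τ x : UnitAddCircle), (s : UnitAddCircle)) ∈ seg ((1 / √M) ^ n) t s := by
      refine ⟨τ x, ?_, rfl⟩
      rw [abs_le]
      constructor <;> linarith [h1.1, h1.2]
    refine ⟨_, h2, ?_⟩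
    rw [iter_coe]
    have h4 : X a s (n + 1) (τ x) = x := (hτ x hx).2
    rw [h4]
  · have key : ∀ x ∈ Icc (Y t - 1) (Y t + 1), ∀ y ∈ Icc (Y t - 1) (Y t + 1), τ x ≤ τ y →
        |X a s n (τ y) - X a s n (τ x)| ≤ 1 / 8 * |y - x| := by
      intro x hx y hy hxy
      have h1 := X_incrG hM hn hxy (fun v hv => hgood v ⟨(hτ x hx).1.1.trans hv.1,
        hv.2.trans (hτ y hy).1.2⟩) (k := n) (by omega)
      have h4 : X a s (n + 1) (τ x) = x := (hτ x hx).2
      have h5 : X a s (n + 1) (τ y) = y := (hτ y hy).2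
      rw [h4, h5] at h1
      refine h1.trans (mul_le_mul_of_nonneg_right ?_ (abs_nonneg _))
      unfold rr
      rw [show min 4 (n + 1 - n) = 1 by omega, pow_one]
      apply one_div_le_one_div_of_le (by norm_num)
      linarith
    intro x hx y hy
    rcases le_total (τ x) (τ y) with h | h
    · rw [abs_sub_comm, abs_sub_comm x y]
      exact key x hx y hy h
    · exact key y hy x hx h

end Pool.Agent.K7.H81.SL
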