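import Pool.Agent.K7.H81.SMA

set_option autoImplicit false

/-!
# The measure of the set where a product of two consecutive traces is small
-/

namespace Pool.Agent.K7.H81.SM

open Real MeasureTheory Function Pool.Agent.TH705.SM Pool.Agent.V1152.SMI

theorem cos_small {a x : ℝ} (ha : 2 ≤ |a|) (hx : |L a x| < |a|) : |cos (2 * π * x)| < 1 / 2 := by
  have ha0 : 0 < |a| := by linarith
  have hpi := Real.pi_gt_three
  have h3 : |cos (2 * π * x)| * (2 * π * |a|) = |L a x - 2| := by
    unfold L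
    rw [add_sub_cancel_left, abs_mul, abs_mul, abs_of_pos (by positivity : 0 < 2 * π)]
    ring
  have h4 : |L a x - 2| ≤ |L a x| + 2 := by
    have := abs_sub (L a x) 2
    rwa [abs_of_pos (by norm_num : (0:ℝ) < 2)] at this
  have h5 : |cos (2 * π * x)| * (2 * π * |a|) < 2 * |a| := by linarith
  by_contra hcon
  have h6 := not_lt.1 hcon
  have h7 : 1 / 2 * (2 * π * |a|) ≤ |cos (2 * π * x)| * (2 * π * |a|) :=
    mul_le_mul_of_nonneg_right h6 (by positivity)
  nlinarith

theorem x_mid {x : ℝ} (h0 : 0 ≤ x) (h1 : x ≤ 1 / 2) (hx : |cos (2 * π * x)| < 1 / 2) :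
    1 / 6 ≤ x ∧ x ≤ 1 / 3 := by
  have hpi := Real.pi_pos
  obtain ⟨c1, c2⟩ := abs_lt.1 hx
  constructor
  · by_contra hcon
    have h2 : cos (π / 3) ≤ cos (2 * π * x) :=
      Real.cos_le_cos_of_nonneg_of_le_pi (by positivity) (by linarith) (by nlinarith)
    rw [Real.cos_pi_div_three] at h2
    linarith
  · by_contra hcon
    have h2 : cos (2 * π * x) ≤ cos (π - π / 3) :=
      Real.cos_le_cos_of_nonneg_of_le_pi (by linarith) (by nlinarith) (by nlinarith)
    rw [Real.cos_pi_sub, Real.cos_pi_div_three] at h2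
    linarith

theorem close {a t x y : ℝ} (ha : 2 ≤ |a|) (ht : t ≤ |a|) (hx0 : 0 ≤ x) (hx1 : x ≤ 1 / 2)
    (hy0 : 0 ≤ y) (hy1 : y ≤ 1 / 2) (hx : |L a x| < t) (hy : |L a y| < t) :
    |x - y| ≤ t / (2 * |a|) := by
  have ha0 : 0 < |a| := by linarith
  have hpi := Real.pi_gt_three
  obtain ⟨x1, x2⟩ := x_mid hx0 hx1 (cos_small ha (hx.trans_le ht))
  obtain ⟨y1, y2⟩ := x_mid hy0 hy1 (cos_small ha (hy.trans_le ht))
  have h1 : |cos (2 * π * x) - cos (2 * π * y)| * (2 * π * |a|) = |L a x - L a y| := by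
    have e : L a x - L a y = (2 * π * a) * (cos (2 * π * x) - cos (2 * π * y)) := by
      unfold L
      ring
    rw [e, abs_mul, abs_mul, abs_of_pos (by positivity : 0 < 2 * π)]
    ring
  have h2 : |L a x - L a y| ≤ |L a x| + |L a y| := abs_sub _ _
  have h3 : cos (2 * π * x) - cos (2 * π * y) = -2 * sin (π * (x + y)) * sin (π * (x - y)) := by
    rw [Real.cos_sub_cos]
    congr 2
    · congr 1
      ring_nf
    · ring_nf
  have h4 : |π * (x - y)| ≤ π / 2 := by
    rw [abs_le]
    constructor <;> nlinarith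
  have h5 := mul_abs_le_abs_sin h4
  have h6 : 2 / π * |π * (x - y)| = 2 * |x - y| := by
    rw [abs_mul, abs_of_pos Real.pi_pos]
    field_simp
  rw [h6] at h5
  have h7 : 1 / 2 ≤ sin (π * (x + y)) := by
    rw [← Real.cos_pi_div_two_sub, ← Real.cos_abs, ← Real.cos_pi_div_three]
    apply Real.cos_le_cos_of_nonneg_of_le_pi (abs_nonneg _) (by linarith)
    rw [abs_le]
    constructor <;> nlinarith
  have h8 : 2 * |x - y| ≤ |cos (2 * π * x) - cos (2 * π * y)| := by
    rw [h3, abs_mul, abs_mul, abs_neg, abs_of_pos (by norm_num : (0:ℝ) < 2),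
      abs_of_pos (by linarith : 0 < sin (π * (x + y)))]
    have := abs_nonneg (sin (π * (x - y)))
    nlinarith
  rw [le_div_iff₀ (by positivity)]
  have h9 : 2 * |x - y| * (2 * π * |a|) ≤ 2 * t := by
    calc 2 * |x - y| * (2 * π * |a|) ≤ |cos (2 * π * x) - cos (2 * π * y)| * (2 * π * |a|) :=
          mul_le_mul_of_nonneg_right h8 (by positivity)
      _ ≤ 2 * t := by rw [h1]; linarith
  have h10 := abs_nonneg (x - y)
  have h11 : 0 ≤ |x - y| * |a| := by positivity
  nlinarith

theorem L_refl (a x : ℝ) : L a (1 - x) = L a x := by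
  unfold L
  have : 2 * π * (1 - x) = 2 * π - 2 * π * x := by ring
  rw [this, Real.cos_two_pi_sub]

theorem vol_half {a t : ℝ} (ha : 2 ≤ |a|) (ht0 : 0 < t) (ht : t ≤ |a|) {s : Set ℝ}
    (hs : ∀ x ∈ s, ∀ y ∈ s, |x - y| ≤ t / (2 * |a|)) :
    volume s ≤ ENNReal.ofReal (t / (2 * |a|)) := by
  refine (Real.volume_le_diam s).trans ?_
  apply Metric.ediam_le
  intro x hx y hy
  rw [edist_dist, Real.dist_eq]
  exact ENNReal.ofReal_le_ofReal (hs x hx y hy)

theorem strip_meas (a t : ℝ) : MeasurableSet {x : UnitAddCircle | |cc a x| < t} :=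
  (isOpen_lt (cc_cont a).abs continuous_const).measurableSet

/-- the measure of a strip -/
theorem strip {a t : ℝ} (ha : 2 ≤ |a|) (ht0 : 0 < t) :
    volume.real {x : UnitAddCircle | |cc a x| < t} ≤ t / |a| := by
  have ha0 : 0 < |a| := by linarith
  rcases le_total |a| t with h | h
  · refine measureReal_le_one.trans ?_
    rw [le_div_iff₀ ha0, one_mul]
    exact h
  have hmp := UnitAddCircle.measurePreserving_mk 0
  rw [zero_add] at hmp
  have h1 : volume {x : UnitAddCircle | |cc a x| < t} =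
      volume ({x : ℝ | |L a x| < t} ∩ Set.Ioc 0 1) := by
    rw [← hmp.measure_preimage (strip_meas a t).nullMeasurableSet,
      Measure.restrict_apply (hmp.measurable (strip_meas a t))]
    rfl
  have h2 : {x : ℝ | |L a x| < t} ∩ Set.Ioc 0 1 ⊆
      {x : ℝ | |L a x| < t ∧ 0 ≤ x ∧ x ≤ 1 / 2} ∪ {x : ℝ | |L a x| < t ∧ 1 / 2 ≤ x ∧ x ≤ 1} := by
    rintro x ⟨hx, hx0, hx1⟩
    rcases le_total x (1 / 2) with h | h
    · exact Or.inl ⟨hx, hx0.le, h⟩
    · exact Or.inr ⟨hx, h, hx1⟩
  have h3 := vol_half ha ht0 h (s := {x : ℝ | |L a x| < t ∧ 0 ≤ x ∧ x ≤ 1 / 2})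
    (fun x hx y hy => close ha h hx.2.1 hx.2.2 hy.2.1 hy.2.2 hx.1 hy.1)
  have h4 := vol_half ha ht0 h (s := {x : ℝ | |L a x| < t ∧ 1 / 2 ≤ x ∧ x ≤ 1})
    (fun x hx y hy => by
      have := close (x := 1 - x) (y := 1 - y) ha h (by linarith [hx.2.2]) (by linarith [hx.2.1])
        (by linarith [hy.2.2]) (by linarith [hy.2.1]) (by rw [L_refl]; exact hx.1)
        (by rw [L_refl]; exact hy.1)
      have e : 1 - x - (1 - y) = -(x - y) := by ring
      rwa [e, abs_neg] at this)
  have h5 : volume {x : UnitAddCircle | |cc a x| < t} ≤ ENNReal.ofReal (t / |a|) := by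
    rw [h1]
    refine (measure_mono h2).trans ((measure_union_le _ _).trans ((add_le_add h3 h4).trans ?_))
    rw [← ENNReal.ofReal_add (by positivity) (by positivity)]
    apply ENNReal.ofReal_le_ofReal
    apply le_of_eq
    field_simp
    norm_num
  exact ENNReal.toReal_le_of_le_ofReal (by positivity) h5

theorem first_fail {f : ℕ → Prop} (h0 : f 0) {I : ℕ} (hI : ¬ f I) :
    ∃ i, i < I ∧ f i ∧ ¬ f (i + 1) := by
  induction I with
  | zero => exact absurd h0 hI
  | succ I ih =>
    by_cases h : f I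
    · exact ⟨I, Nat.lt_succ_self I, h, hI⟩
    · obtain ⟨i, h1, h2, h3⟩ := ih h
      exact ⟨i, by omega, h2, h3⟩

theorem prod_meas (a M : ℝ) : MeasurableSet {p : T2 | |cc a p.1 * cc a p.2| < M} :=
  (isOpen_lt (((cc_cont a).comp continuous_fst).mul
    ((cc_cont a).comp continuous_snd)).abs continuous_const).measurableSet

/-- the measure of the set where the product of two traces is small -/
theorem prod_strip {a M : ℝ} (ha : 2 ≤ |a|) (hM : 1 ≤ M) :
    volume.real {p : T2 | |cc a p.1 * cc a p.2| < M} ≤ 30 * M * log |a| / |a| ^ 2 := by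
  have ha0 : 0 < |a| := by linarith
  have hM0 : 0 < M := by linarith
  have hlog : 1 / 2 ≤ log |a| := log_two_half.trans (Real.log_le_log (by norm_num) ha)
  set I : ℕ := ⌈3 * log |a|⌉₊ with hI
  have hI1 : (I : ℝ) < 3 * log |a| + 1 := Nat.ceil_lt_add_one (by linarith)
  have hI2 : 3 * log |a| ≤ I := Nat.le_ceil _
  have hI3 : |a| ^ 2 ≤ 2 ^ I := by
    have h1 : (2:ℝ) ^ I = exp (I * log 2) := by
      rw [← Real.rpow_natCast, Real.rpow_def_of_pos (by norm_num), mul_comm]
    have h2 : |a| ^ 2 = exp (2 * log |a|) := by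
      rw [two_mul, Real.exp_add, Real.exp_log ha0]
      ring
    rw [h1, h2]
    apply Real.exp_le_exp.2
    have := Real.log_two_gt_d9
    nlinarith
  have hsub : {p : T2 | |cc a p.1 * cc a p.2| < M} ⊆
      (⋃ i ∈ Finset.range I, {x : UnitAddCircle | |cc a x| < M * 2 ^ (i + 1) / (8 * |a|)} ×ˢ
        {x : UnitAddCircle | |cc a x| < 8 * |a| / 2 ^ i}) ∪
      Set.univ ×ˢ {x : UnitAddCircle | |cc a x| < 8 * |a| / 2 ^ I} := by
    intro p hp
    have hp : |cc a p.1 * cc a p.2| < M := hp
    by_cases hv : |cc a p.2| < 8 * |a| / 2 ^ I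
    · right
      exact ⟨Set.mem_univ _, hv⟩
    · left
      obtain ⟨i, h1, h2, h3⟩ := first_fail (f := fun i => |cc a p.2| < 8 * |a| / 2 ^ i) (by
        simpa using cc_lt ha p.2) hv
      rw [Set.mem_iUnion₂]
      refine ⟨i, Finset.mem_range.2 h1, ?_, h2⟩
      show |cc a p.1| < M * 2 ^ (i + 1) / (8 * |a|)
      have h4 := not_lt.1 h3
      rw [abs_mul] at hp
      rw [div_le_iff₀ (by positivity)] at h4
      rw [lt_div_iff₀ (by positivity)]
      have h5 := abs_nonneg (cc a p.1)
      calc |cc a p.1| * (8 * |a|) ≤ |cc a p.1| * (|cc a p.2| * 2 ^ (i + 1)) :=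
            mul_le_mul_of_nonneg_left h4 h5
        _ = |cc a p.1| * |cc a p.2| * 2 ^ (i + 1) := by ring
        _ < M * 2 ^ (i + 1) := mul_lt_mul_of_pos_right hp (by positivity)
  have hprod : ∀ s t : Set UnitAddCircle, (volume : Measure T2).real (s ×ˢ t) =
      volume.real s * volume.real t := by
    intro s t
    rw [vol_T2]
    exact measureReal_prod_prod s t
  have h1 : volume.real {p : T2 | |cc a p.1 * cc a p.2| < M} ≤
      (∑ i ∈ Finset.range I, 2 * M / |a| ^ 2) + 8 / 2 ^ I := by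
    refine (measureReal_mono hsub).trans ((measureReal_union_le _ _).trans (add_le_add ?_ ?_))
    · refine (measureReal_biUnion_finset_le _ _).trans (Finset.sum_le_sum fun i _ => ?_)
      rw [hprod]
      have b1 := strip (a := a) (t := M * 2 ^ (i + 1) / (8 * |a|)) ha (by positivity)
      have b2 := strip (a := a) (t := 8 * |a| / 2 ^ i) ha (by positivity)
      calc _ ≤ M * 2 ^ (i + 1) / (8 * |a|) / |a| * (8 * |a| / 2 ^ i / |a|) :=
            mul_le_mul b1 b2 measureReal_nonneg (by positivity)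
        _ = 2 * M / |a| ^ 2 := by
            rw [pow_succ]
            field_simp
    · rw [hprod]
      have b2 := strip (a := a) (t := 8 * |a| / 2 ^ I) ha (by positivity)
      calc volume.real Set.univ * volume.real {x : UnitAddCircle | |cc a x| < 8 * |a| / 2 ^ I} ≤
            1 * (8 * |a| / 2 ^ I / |a|) :=
            mul_le_mul measureReal_le_one b2 measureReal_nonneg (by norm_num)
        _ = 8 / 2 ^ I := by field_simp
  rw [Finset.sum_const, Finset.card_range, nsmul_eq_mul] at h1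
  refine h1.trans ?_
  have h2 : (8:ℝ) / 2 ^ I ≤ 8 / |a| ^ 2 :=
    div_le_div_of_nonneg_left (by norm_num) (by positivity) hI3
  have h3 : (I : ℝ) * (2 * M / |a| ^ 2) ≤ (3 * log |a| + 1) * (2 * M / |a| ^ 2) :=
    mul_le_mul_of_nonneg_right hI1.le (by positivity)
  calc (I : ℝ) * (2 * M / |a| ^ 2) + 8 / 2 ^ I ≤
        (3 * log |a| + 1) * (2 * M / |a| ^ 2) + 8 / |a| ^ 2 := add_le_add h3 h2
    _ = ((3 * log |a| + 1) * (2 * M) + 8) / |a| ^ 2 := by ring
    _ ≤ 30 * M * log |a| / |a| ^ 2 := by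
        apply div_le_div_of_nonneg_right _ (by positivity)
        nlinarith

/-- integrals of functions of one coordinate along the orbit -/
theorem int_fst {a : ℝ} (j : ℕ) {f : UnitAddCircle → ℝ} (hf : Measurable f) {K : ℝ}
    (hK : ∀ x, |f x| ≤ K) :
    Integrable (fun p : T2 => f ((S a)^[j] p).1) ∧ ∫ p : T2, f ((S a)^[j] p).1 = ∫ x, f x := by
  have hm : Measurable (fun p : T2 => f ((S a)^[j] p).1) :=
    hf.comp (measurable_fst.comp (iter_mp a j).measurable)
  refine ⟨hint hm K fun p => hK _, ?_⟩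
  have h1 : ∫ p : T2, f ((S a)^[j] p).1 = ∫ p : T2, f p.1 := by
    have h2 := (iter_mp a j).map_eq
    have h3 : ∫ q, f q.1 ∂(Measure.map ((S a)^[j]) volume) = ∫ p : T2, f ((S a)^[j] p).1 :=
      integral_map (iter_mp a j).measurable.aemeasurable
        (hf.comp measurable_fst).aestronglyMeasurable
    rw [h2] at h3
    exact h3.symm
  rw [h1]
  have h7 : MeasurePreserving (Prod.fst : T2 → UnitAddCircle)
      ((volume : Measure UnitAddCircle).prod volume) volume := measurePreserving_fst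
  have h8 : ∫ x, f x ∂(Measure.map (Prod.fst : T2 → UnitAddCircle)
      ((volume : Measure UnitAddCircle).prod volume)) = ∫ p : T2, f p.1 := by
    rw [integral_map h7.measurable.aemeasurable hf.aestronglyMeasurable]
    rfl
  rw [← h8, h7.map_eq]

theorem int_iter {a : ℝ} (j : ℕ) {f : T2 → ℝ} (hf : Measurable f) {K : ℝ} (hK : ∀ x, |f x| ≤ K) :
    Integrable (fun p : T2 => f ((S a)^[j] p)) ∧ ∫ p : T2, f ((S a)^[j] p) = ∫ p, f p := by
  have hm : Measurable (fun p : T2 => f ((S a)^[j] p)) := hf.comp (iter_mp a j).measurable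
  refine ⟨hint hm K fun p => hK _, ?_⟩
  have h2 := (iter_mp a j).map_eq
  have h3 : ∫ q, f q ∂(Measure.map ((S a)^[j]) volume) = ∫ p : T2, f ((S a)^[j] p) :=
    integral_map (iter_mp a j).measurable.aemeasurable hf.aestronglyMeasurable
  rw [h2] at h3
  exact h3.symm

theorem ind_le_one {α : Type*} (s : Set α) (x : α) : |s.indicator (fun _ => (1:ℝ)) x| ≤ 1 := by
  by_cases h : x ∈ s
  · rw [Set.indicator_of_mem h, abs_one]
  · rw [Set.indicator_of_notMem h, abs_zero]
    norm_num

theorem er_facts {a : ℝ} (ha : 2 ≤ |a|) : Measurable (er a) ∧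
    (∀ x, |er a x| ≤ 3 / 2 * log |a| + 1 / (2 * |a|)) ∧
    ∫ x, er a x ≤ 3 / 2 * log |a| / √|a| + 1 / (2 * |a|) := by
  have ha0 : 0 < |a| := by linarith
  have hlog : 0 ≤ log |a| := Real.log_nonneg (by linarith)
  have hms := strip_meas a (√|a|)
  have hmi : Measurable ({z : UnitAddCircle | |cc a z| < √|a|}.indicator (fun _ => (1:ℝ))) :=
    measurable_const.indicator hms
  refine ⟨?_, ?_, ?_⟩
  · exact (measurable_const.mul hmi).add_const _
  · intro x
    unfold er
    refine (abs_add_le _ _).trans (add_le_add ?_ (le_of_eq (abs_of_pos (by positivity))))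
    rw [abs_mul, abs_of_nonneg (by positivity : 0 ≤ 3 / 2 * log |a|)]
    have := mul_le_mul_of_nonneg_left (ind_le_one {z : UnitAddCircle | |cc a z| < √|a|} x)
      (by positivity : 0 ≤ 3 / 2 * log |a|)
    rwa [mul_one] at this
  · unfold er
    have hi : Integrable ({z : UnitAddCircle | |cc a z| < √|a|}.indicator (fun _ => (1:ℝ))) :=
      (integrable_const 1).indicator hms
    rw [integral_add (hi.const_mul _) (integrable_const _), integral_const_mul,
      integral_indicator hms, integral_const]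
    simp only [integral_const, smul_eq_mul, mul_one, measureReal_restrict_apply_univ,
      probReal_univ, one_mul]
    have h1 := strip (a := a) (t := √|a|) ha (by positivity)
    have h2 : √|a| / |a| = 1 / √|a| := by
      have := Real.mul_self_sqrt ha0.le
      field_simp
      rw [Real.sq_sqrt ha0.le]
    rw [h2] at h1
    have h3 := mul_le_mul_of_nonneg_left h1 (by positivity : 0 ≤ 3 / 2 * log |a|)
    have h4 : 3 / 2 * log |a| * (1 / √|a|) = 3 / 2 * log |a| / √|a| := by ring
    linarith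

theorem er2_facts {a : ℝ} (ha : 2 ≤ |a|) : Measurable (er2 a) ∧
    (∀ x, |er2 a x| ≤ 3 / 16 + 3 / |a|) ∧
    ∫ x, er2 a x ≤ 6 * log |a| / |a| + 3 / |a| := by
  have ha0 : 0 < |a| := by linarith
  have hlog : 0 ≤ log |a| := Real.log_nonneg (by linarith)
  have hms := prod_meas a |a|
  have hmi : Measurable ({q : T2 | |cc a q.1 * cc a q.2| < |a|}.indicator (fun _ => (1:ℝ))) :=
    measurable_const.indicator hms
  refine ⟨?_, ?_, ?_⟩
  · exact (measurable_const.mul hmi).add_const _
  · intro x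
    unfold er2
    refine (abs_add_le _ _).trans (add_le_add ?_ (le_of_eq (abs_of_pos (by positivity))))
    rw [abs_mul, abs_of_nonneg (by norm_num : (0:ℝ) ≤ 3 / 16)]
    have := mul_le_mul_of_nonneg_left (ind_le_one {q : T2 | |cc a q.1 * cc a q.2| < |a|} x)
      (by norm_num : (0:ℝ) ≤ 3 / 16)
    rwa [mul_one] at this
  · unfold er2
    have hi : Integrable ({q : T2 | |cc a q.1 * cc a q.2| < |a|}.indicator (fun _ => (1:ℝ))) :=
      (integrable_const 1).indicator hms
    rw [integral_add (hi.const_mul _) (integrable_const _), integral_const_mul,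
      integral_indicator hms, integral_const]
    simp only [integral_const, smul_eq_mul, mul_one, measureReal_restrict_apply_univ,
      probReal_univ, one_mul]
    have h1 := prod_strip (a := a) (M := |a|) ha (by linarith)
    have h2 : 30 * |a| * log |a| / |a| ^ 2 = 30 * (log |a| / |a|) := by
      field_simp
    rw [h2] at h1
    have h3 : 0 ≤ log |a| / |a| := by positivity
    have h4 : 6 * log |a| / |a| = 6 * (log |a| / |a|) := by ring
    rw [h4]
    linarith

/-- the mean of the total error -/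
theorem Er_facts {a : ℝ} (ha : 2 ≤ |a|) (m : ℕ) : Integrable (Er a m) ∧ (∀ p, 0 ≤ Er a m p) ∧
    ∫ p, Er a m p ≤ (m + 1) * (40 * |a| ^ (-(1 / 4) : ℝ)) := by
  have ha0 : 0 < |a| := by linarith
  obtain ⟨m1, k1, i1⟩ := er_facts ha
  obtain ⟨m2, k2, i2⟩ := er2_facts ha
  have hlog : 0 ≤ log |a| := Real.log_nonneg (by linarith)
  have f1 : ∀ j ∈ Finset.range (m + 1), Integrable (fun p : T2 => er a ((S a)^[j] p).1) :=
    fun j _ => (int_fst j m1 k1).1
  have f2 : ∀ j ∈ Finset.range m, Integrable (fun p : T2 => er2 a ((S a)^[j + 1] p)) :=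
    fun j _ => (int_iter (j + 1) m2 k2).1
  refine ⟨?_, ?_, ?_⟩
  · exact (integrable_finsetSum _ f1).add (integrable_finsetSum _ f2)
  · intro p
    exact add_nonneg (Finset.sum_nonneg fun _ _ => er_nonneg ha _)
      (Finset.sum_nonneg fun _ _ => er2_nonneg a _)
  · have h1 : ∫ p, Er a m p = (∑ j ∈ Finset.range (m + 1), ∫ x, er a x) +
        ∑ j ∈ Finset.range m, ∫ p, er2 a p := by
      unfold Er
      rw [integral_add (integrable_finsetSum _ f1) (integrable_finsetSum _ f2),
        integral_finsetSum _ f1, integral_finsetSum _ f2]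
      congr 1
      · exact Finset.sum_congr rfl fun j _ => (int_fst j m1 k1).2
      · exact Finset.sum_congr rfl fun j _ => (int_iter (j + 1) m2 k2).2
    rw [h1, Finset.sum_const, Finset.sum_const, Finset.card_range, Finset.card_range,
      nsmul_eq_mul, nsmul_eq_mul]
    set q : ℝ := |a| ^ (-(1 / 4) : ℝ) with hq
    have hq0 : 0 < q := Real.rpow_pos_of_pos ha0 _
    -- `log |a| ≤ 4 |a|^(1/4)`
    have hl : log |a| ≤ 4 * |a| ^ ((1 / 4 : ℝ)) := by
      have := Real.log_le_rpow_div ha0.le (show (0:ℝ) < 1 / 4 by norm_num)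
      linarith
    have e1 : log |a| / √|a| ≤ 4 * q := by
      rw [Real.sqrt_eq_rpow, div_le_iff₀ (Real.rpow_pos_of_pos ha0 _), hq, mul_assoc,
        ← Real.rpow_add ha0]
      norm_num at hl ⊢
      exact hl
    have hqa : 1 / |a| ≤ q := by
      rw [hq, one_div, ← Real.rpow_neg_one]
      exact Real.rpow_le_rpow_of_exponent_le (by linarith) (by norm_num)
    have e2 : log |a| / |a| ≤ 4 * q := by
      refine le_trans ?_ e1
      apply div_le_div_of_nonneg_left hlog (by positivity)
      rw [Real.sqrt_le_left ha0.le]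
      nlinarith
    have g1 : ∫ x, er a x ≤ 7 * q := by
      have : 3 / 2 * log |a| / √|a| = 3 / 2 * (log |a| / √|a|) := by ring
      have h8 : 1 / (2 * |a|) = 1 / |a| / 2 := by field_simp
      rw [this, h8] at i1
      linarith
    have g2 : ∫ x, er2 a x ≤ 27 * q := by
      have : 6 * log |a| / |a| = 6 * (log |a| / |a|) := by ring
      have h8 : 3 / |a| = 3 * (1 / |a|) := by ring
      rw [this, h8] at i2
      linarith
    have hm : (0:ℝ) ≤ m := Nat.cast_nonneg m
    have g3 : ((m + 1 : ℕ) : ℝ) * ∫ x, er a x ≤ ((m + 1 : ℕ) : ℝ) * (7 * q) :=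
      mul_le_mul_of_nonneg_left g1 (Nat.cast_nonneg _)
    have g4 : (m : ℝ) * ∫ x, er2 a x ≤ (m : ℝ) * (27 * q) := mul_le_mul_of_nonneg_left g2 hm
    push_cast at g3 ⊢
    have g5 : 0 ≤ (m : ℝ) * q := by positivity
    nlinarith

/-- the bad points are rare -/
theorem bad_le {a : ℝ} (ha : 2 ≤ |a|) (m : ℕ) :
    volume.real {p : T2 | ¬ Gd a m p} ≤ 1 / |a| + m * (480 * log |a| / |a| ^ 2) := by
  have hsub : {p : T2 | ¬ Gd a m p} ⊆ {p : T2 | |cc a p.1| < 1} ∪
      ⋃ j ∈ Finset.range m, ((S a)^[j + 1]) ⁻¹' {p : T2 | |cc a p.1 * cc a p.2| < 16} := by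
    intro p hp
    have hp : ¬ Gd a m p := hp
    unfold Gd at hp
    rw [not_and_or] at hp
    rcases hp with h | h
    · left
      exact not_le.1 h
    · right
      push Not at h
      obtain ⟨j, hj, h2⟩ := h
      rw [Set.mem_iUnion₂]
      exact ⟨j, Finset.mem_range.2 hj, h2⟩
  refine (measureReal_mono hsub).trans ((measureReal_union_le _ _).trans (add_le_add ?_ ?_))
  · have h1 := strip (a := a) (t := 1) ha one_pos
    have h2 : {p : T2 | |cc a p.1| < 1} = {x : UnitAddCircle | |cc a x| < 1} ×ˢ Set.univ := by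
      ext p
      simp
    rw [h2, vol_T2, measureReal_prod_prod]
    have h3 : (volume : Measure UnitAddCircle).real Set.univ ≤ 1 := measureReal_le_one
    calc _ ≤ 1 / |a| * 1 := mul_le_mul h1 h3 measureReal_nonneg (by positivity)
      _ = 1 / |a| := mul_one _
  · refine (measureReal_biUnion_finset_le _ _).trans ?_
    have h1 : ∀ j ∈ Finset.range m, volume.real (((S a)^[j + 1]) ⁻¹'
        {p : T2 | |cc a p.1 * cc a p.2| < 16}) ≤ 480 * log |a| / |a| ^ 2 := by
      intro j _
      have h2 := (iter_mp a (j + 1)).measureReal_preimage (prod_meas a 16).nullMeasurableSet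
      rw [h2]
      refine (prod_strip ha (by norm_num)).trans (le_of_eq ?_)
      ring
    refine (Finset.sum_le_sum h1).trans (le_of_eq ?_)
    rw [Finset.sum_const, Finset.card_range, nsmul_eq_mul]

end Pool.Agent.K7.H81.SM
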