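import Pool.Agent.K7.H81.SLA
import Pool.Agent.K7.H81.SMB

set_option autoImplicit false

/-!
# The exceptional set
-/

namespace Pool.Agent.K7.H81.SL

open Real MeasureTheory Function Set Filter Topology
open Pool.Agent.TH705.SM Pool.Agent.Y332.SM Pool.Agent.V1152.SMI
open scoped ENNReal

theorem Lc_cc (a : ℝ) (x : UnitAddCircle) : Lc a x = cc a x := by
  induction x using QuotientAddGroup.induction_on with
  | H x =>
    have h1 : Lc a (x : UnitAddCircle) = L a x := Lc_coe a x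
    have h2 : cc a (x : UnitAddCircle) = L a x := cc_coe a x
    exact h1.trans h2.symm

/-- a small product of consecutive derivatives -/
def b1 (a : ℝ) (n : ℕ) : Set T2 :=
  {p | ∃ k, 1 ≤ k ∧ k + 1 ≤ n ∧ |Lc a (((S a)^[k - 1] p).1) * Lc a (((S a)^[k] p).1)| < 16}

/-- a small derivative at one of the last five times -/
def b2 (a M : ℝ) (n : ℕ) : Set T2 :=
  {p | ∃ k, 1 ≤ k ∧ k ≤ n ∧ n ≤ k + 4 ∧ |Lc a (((S a)^[k - 1] p).1)| ≤ 15 * M}

/-- too many small derivatives -/
def b3 (a M : ℝ) (n : ℕ) : Set T2 :=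
  {p | (n:ℝ≥0∞) / 8 ≤ ∑ k ∈ Finset.Icc 1 n, (low a M).indicator 1 ((S a)^[k - 1] p)}

/-- the exceptional set of time `n` -/
def bd (a M : ℝ) (n : ℕ) : Set T2 := b1 a n ∪ (b2 a M n ∪ b3 a M n)

theorem good_pt {a M t s : ℝ} {n : ℕ}
    (h : ((t : UnitAddCircle), (s : UnitAddCircle)) ∉ bd a M n) : Sp a M s n t := by
  unfold bd at h
  rw [mem_union, mem_union, not_or, not_or] at h
  obtain ⟨h1, h2, h3⟩ := h
  refine ⟨fun k q1 q2 => ?_, fun k q1 q2 q3 => ?_, ?_⟩
  · by_contra hcon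
    apply h1
    refine ⟨k, q1, q2, ?_⟩
    have e := X_of_iter (a := a) (t := t) (s := s) (k := k + 1) (by omega)
    rw [Nat.add_sub_cancel] at e
    rw [X_of_iter q1, e, Lc_coe, Lc_coe]
    exact not_le.1 hcon
  · by_contra hcon
    apply h2
    refine ⟨k, q1, q2, q3, ?_⟩
    rw [X_of_iter q1, Lc_coe]
    exact not_lt.1 hcon
  · by_contra hcon
    rw [not_le] at hcon
    apply h3
    unfold b3
    rw [Set.mem_ofPred_eq]
    have h4 : ∑ k ∈ Finset.Icc 1 n, (low a M).indicator (1 : T2 → ℝ≥0∞)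
        ((S a)^[k - 1] ((t : UnitAddCircle), (s : UnitAddCircle))) =
        (cnt a M s n t : ℝ≥0∞) := by
      unfold cnt
      rw [Finset.card_filter, Nat.cast_sum]
      refine Finset.sum_congr rfl fun k hk => ?_
      rw [Finset.mem_Icc] at hk
      by_cases hL : |L a (X a s k t)| ≤ 2 * M
      · rw [if_pos hL, Set.indicator_of_mem]
        · simp
        · unfold low
          rw [Set.mem_ofPred_eq, X_of_iter hk.1, Lc_coe]
          exact hL
      · rw [if_neg hL, Set.indicator_of_notMem]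
        · simp
        · unfold low
          rw [Set.mem_ofPred_eq, X_of_iter hk.1, Lc_coe]
          exact hL
    rw [h4, ENNReal.div_le_iff (by norm_num) (by norm_num)]
    have h5 : n ≤ cnt a M s n t * 8 := by omega
    exact_mod_cast h5

theorem vol_b1 {a : ℝ} (ha : 2 ≤ |a|) (n : ℕ) :
    volume (b1 a n) ≤ ENNReal.ofReal (480 * n * log |a| / |a| ^ 2) := by
  have hlog : 0 ≤ log |a| := Real.log_nonneg (by linarith)
  have h1 : b1 a n ⊆ ⋃ k ∈ Finset.range n,
      ((S a)^[k]) ⁻¹' {p : T2 | |cc a p.1 * cc a p.2| < 16} := by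
    rintro p ⟨k, hk1, hk2, hk⟩
    simp only [mem_iUnion]
    refine ⟨k, Finset.mem_range.2 (by omega), ?_⟩
    show |cc a ((S a)^[k] p).1 * cc a ((S a)^[k] p).2| < 16
    have h2 : ((S a)^[k] p).2 = ((S a)^[k - 1] p).1 := by
      obtain ⟨j, rfl⟩ := Nat.exists_eq_add_of_le' hk1
      rw [Nat.add_sub_cancel]
      exact S_snd a j p
    rw [h2, ← Lc_cc, ← Lc_cc, mul_comm]
    exact hk
  have h3 : volume (b1 a n) ≤ ∑ k ∈ Finset.range n,
      ENNReal.ofReal (480 * log |a| / |a| ^ 2) := by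
    refine (measure_mono h1).trans ((measure_biUnion_finset_le _ _).trans
      (Finset.sum_le_sum fun k _ => ?_))
    rw [(iter_mp a k).measure_preimage (SM.prod_meas a 16).nullMeasurableSet]
    have h4 := SM.prod_strip ha (M := 16) (by norm_num)
    rw [← ofReal_measureReal (measure_ne_top _ _)]
    refine ENNReal.ofReal_le_ofReal (h4.trans (le_of_eq ?_))
    ring
  refine h3.trans ?_
  rw [Finset.sum_const, Finset.card_range, nsmul_eq_mul]
  have e : (n:ℝ≥0∞) = ENNReal.ofReal n := by simp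
  rw [e, ← ENNReal.ofReal_mul (Nat.cast_nonneg n)]
  apply ENNReal.ofReal_le_ofReal
  apply le_of_eq
  ring

theorem vol_b2 {a M : ℝ} (hM : 16 ≤ M) (haM : |a| = M ^ 2) (n : ℕ) :
    volume (b2 a M n) ≤ ENNReal.ofReal (12.1 / M) := by
  have hM0 : 0 < M := by linarith
  have ha : 0 < |a| := by rw [haM]; positivity
  have hpi := pi_pos
  have hpi3 := pi_gt_d2
  have h1 : b2 a M n ⊆ ⋃ i ∈ Finset.range 5,
      {p : T2 | |Lc a (((S a)^[n - 1 - i] p).1)| ≤ 15 * M} := by
    rintro p ⟨k, hk1, hk2, hk3, hk⟩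
    simp only [mem_iUnion]
    refine ⟨n - k, Finset.mem_range.2 (by omega), ?_⟩
    rw [Set.mem_ofPred_eq, show n - 1 - (n - k) = k - 1 by omega]
    exact hk
  have h3 : volume (b2 a M n) ≤ ∑ i ∈ Finset.range 5,
      ENNReal.ofReal ((15 * M + 2) / (2 * π * |a|)) :=
    (measure_mono h1).trans ((measure_biUnion_finset_le _ _).trans
      (Finset.sum_le_sum fun i _ => vol_level ha (by positivity) _))
  refine h3.trans ?_
  rw [Finset.sum_const, Finset.card_range, nsmul_eq_mul]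
  have e : ((5:ℕ):ℝ≥0∞) = ENNReal.ofReal 5 := by norm_num
  rw [e, ← ENNReal.ofReal_mul (by norm_num)]
  apply ENNReal.ofReal_le_ofReal
  rw [haM, ← mul_div_assoc, div_le_div_iff₀ (by positivity) hM0]
  have h0 : 0 < M ^ 2 := by positivity
  have h5 : 3.14 * M ^ 2 ≤ π * M ^ 2 := mul_le_mul_of_nonneg_right hpi3.le h0.le
  nlinarith

theorem vol_b3 {a M : ℝ} (hM : 16 ≤ M) (haM : |a| = M ^ 2) {n : ℕ} (hn : 1 ≤ n) :
    volume (b3 a M n) ≤ ENNReal.ofReal (2.8 / M) := by
  have hM0 : 0 < M := by linarith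
  have ha : 0 < |a| := by rw [haM]; positivity
  have hpi := pi_pos
  have hpi3 := pi_gt_d2
  have hlow : MeasurableSet (low a M) := by
    apply IsClosed.measurableSet
    exact isClosed_le ((Lc_cont a).comp continuous_fst).abs continuous_const
  have hmeas : ∀ k, Measurable (fun p : T2 => (low a M).indicator (1 : T2 → ℝ≥0∞)
      ((S a)^[k - 1] p)) := by
    intro k
    exact (measurable_one.indicator hlow).comp ((S_cont a).iterate (k - 1)).measurable
  have h1 : (n:ℝ≥0∞) / 8 * volume (b3 a M n) ≤ ∫⁻ p : T2, ∑ k ∈ Finset.Icc 1 n,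
      (low a M).indicator (1 : T2 → ℝ≥0∞) ((S a)^[k - 1] p) := by
    apply mul_meas_ge_le_lintegral
    exact Finset.measurable_sum _ fun k _ => hmeas k
  rw [lintegral_finsetSum _ fun k _ => hmeas k] at h1
  have h2 : ∀ k, ∫⁻ p : T2, (low a M).indicator (1 : T2 → ℝ≥0∞) ((S a)^[k - 1] p) ≤
      ENNReal.ofReal ((2 * M + 2) / (2 * π * |a|)) := by
    intro k
    have h3 : ∀ p : T2, (low a M).indicator (1 : T2 → ℝ≥0∞) ((S a)^[k - 1] p) =
        ({p : T2 | |Lc a (((S a)^[k - 1] p).1)| ≤ 2 * M}).indicator 1 p := by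
      intro p
      rfl
    simp_rw [h3]
    rw [lintegral_indicator_one₀]
    · exact vol_level ha (by positivity) _
    · have : {p : T2 | |Lc a (((S a)^[k - 1] p).1)| ≤ 2 * M} = (S a)^[k - 1] ⁻¹' low a M := rfl
      rw [this]
      exact (((S_cont a).iterate (k - 1)).measurable hlow).nullMeasurableSet
  have h4 : (n:ℝ≥0∞) / 8 * volume (b3 a M n) ≤
      n * ENNReal.ofReal ((2 * M + 2) / (2 * π * |a|)) := by
    refine h1.trans ((Finset.sum_le_sum fun k _ => h2 k).trans ?_)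
    rw [Finset.sum_const, Nat.card_Icc, nsmul_eq_mul, Nat.add_sub_cancel]
  have hn0 : (n:ℝ≥0∞) ≠ 0 := by
    simp only [ne_eq, Nat.cast_eq_zero]
    omega
  have h5 : volume (b3 a M n) ≤ 8 * ENNReal.ofReal ((2 * M + 2) / (2 * π * |a|)) := by
    have h6 : (n:ℝ≥0∞) * (8⁻¹ * volume (b3 a M n)) ≤
        n * ENNReal.ofReal ((2 * M + 2) / (2 * π * |a|)) := by
      rw [← mul_assoc, ← div_eq_mul_inv]
      exact h4
    rw [ENNReal.mul_le_mul_iff_right hn0 (ENNReal.natCast_ne_top n)] at h6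
    have h7 : volume (b3 a M n) = 8 * (8⁻¹ * volume (b3 a M n)) := by
      rw [← mul_assoc, ENNReal.mul_inv_cancel (by norm_num) (by norm_num), one_mul]
    rw [h7]
    gcongr
  refine h5.trans ?_
  have e2 : (8:ℝ≥0∞) = ENNReal.ofReal 8 := by norm_num
  rw [e2, ← ENNReal.ofReal_mul (by norm_num)]
  apply ENNReal.ofReal_le_ofReal
  rw [haM, ← mul_div_assoc, div_le_div_iff₀ (by positivity) hM0]
  have h0 : 0 < M ^ 2 := by positivity
  have h6 : 3.14 * M ^ 2 ≤ π * M ^ 2 := mul_le_mul_of_nonneg_right hpi3.le h0.le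
  nlinarith

theorem vol_bd {a M : ℝ} (hM : 16 ≤ M) (haM : |a| = M ^ 2) {n : ℕ} (hn : 1 ≤ n) :
    volume (bd a M n) ≤ ENNReal.ofReal (480 * n * log |a| / |a| ^ 2 + 15 / M) := by
  have hM0 : 0 < M := by linarith
  have ha2 : 2 ≤ |a| := by rw [haM]; nlinarith
  have hlog : 0 ≤ log |a| := Real.log_nonneg (by linarith)
  refine (measure_union_le _ _).trans ((add_le_add (vol_b1 ha2 n)
    ((measure_union_le _ _).trans (add_le_add (vol_b2 hM haM n) (vol_b3 hM haM hn)))).trans ?_)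
  rw [← ENNReal.ofReal_add (by positivity) (by positivity),
    ← ENNReal.ofReal_add (by positivity) (by positivity)]
  apply ENNReal.ofReal_le_ofReal
  have : (15:ℝ) / M = 12.1 / M + 2.8 / M + 0.1 / M := by
    field_simp
    norm_num
  have h2 : 0 < 0.1 / M := by positivity
  linarith

end Pool.Agent.K7.H81.SL
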