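import Pool.Agent.K7.H81.SLB

set_option autoImplicit false

/-!
# Invariant sets and finite-scale mixing up to times of order `a² / log |a|`
-/

namespace Pool.Agent.K7.H81.SL

open Real MeasureTheory Function Set Filter Topology
open Pool.Agent.TH705.SM Pool.Agent.Y332.SM
open scoped ENNReal

/-- the error -/
noncomputable def er (a M : ℝ) (n : ℕ) : ℝ := 480 * n * log |a| / |a| ^ 2 + 15 / M

theorem rad_pos {M : ℝ} (hM : 16 ≤ M) (n : ℕ) : 0 < (1 / √M) ^ n := by
  have hs0 : 0 < √M := Real.sqrt_pos.2 (by linarith)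
  positivity

/-- an invariant set with no full crossing is small -/
theorem vol_le' {a M : ℝ} (hM : 16 ≤ M) (haM : |a| = M ^ 2) {n : ℕ} (hn : 1 ≤ n) {B : Set T2}
    (hB : S a ⁻¹' B = B) (hno : ¬ HasCurve B) : volume B ≤
    ENNReal.ofReal (er a M n) + volume (hnbd ((1 / √M) ^ n) (frontier B)) := by
  have h1 : B ⊆ bd a M n ∪ hnbd ((1 / √M) ^ n) (frontier B) := by
    intro p hp
    by_contra hcon
    rw [mem_union, not_or] at hcon
    obtain ⟨hcon1, hcon2⟩ := hcon
    obtain ⟨p1, p2⟩ := p
    induction p1 using QuotientAddGroup.induction_on with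
    | H t =>
      induction p2 using QuotientAddGroup.induction_on with
      | H s =>
        have h3 := good_pt hcon1
        have h5 := seg_sub (rad_pos hM n).le hp hcon2
        refine hno ((curveG hM haM hn h3).mono ?_)
        rintro _ ⟨q, hq, rfl⟩
        exact iter_mem hB (h5 hq) n
  exact (measure_mono h1).trans ((measure_union_le _ _).trans
    (add_le_add_left (vol_bd hM haM hn) _))

/-- the horizontal or the vertical neighbourhood of the boundary is large -/
theorem alt' {a M : ℝ} (hM : 16 ≤ M) (haM : |a| = M ^ 2) {n : ℕ} (hn : 1 ≤ n) {A : Set T2}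
    (hA : S a ⁻¹' A = A) :
    volume A ≤ ENNReal.ofReal (er a M n) + volume (hnbd ((1 / √M) ^ n) (frontier A)) ∨
    volume Aᶜ ≤ ENNReal.ofReal (er a M n) +
      volume (hnbd ((1 / √M) ^ n) (Prod.swap ⁻¹' frontier A)) := by
  by_cases h1 : HasCurve A
  · right
    have h2 : ¬ HasCurve (Prod.swap ⁻¹' Aᶜ) := by
      intro h2
      obtain ⟨p, hp1, hp2⟩ := meet h1 h2
      exact hp2 hp1
    have h3 := vol_le' hM haM hn (swap_inv hA) h2
    rw [vol_swap, front_swap] at h3
    exact h3
  · left
    exact vol_le' hM haM hn hA h1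

/-- the two error terms against the length of the boundary -/
theorem alt_len' {a M : ℝ} (hM : 16 ≤ M) (haM : |a| = M ^ 2) {n : ℕ} (hn : 1 ≤ n) {A : Set T2}
    (hA : S a ⁻¹' A = A) {η : ℝ≥0∞} (h1 : η ≤ volume A) (h2 : η ≤ volume Aᶜ) :
    η ≤ ENNReal.ofReal (er a M n) +
      ENNReal.ofReal (4 * (1 / √M) ^ n) * Measure.hausdorffMeasure 1 (frontier A) := by
  have hr := rad_pos hM n
  rcases alt' hM haM hn hA with h | h
  · refine h1.trans (h.trans (add_le_add_right (vol_hnbd hr _) _))
  · refine h2.trans (h.trans (add_le_add_right ((vol_hnbd hr _).trans ?_) _))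
    exact mul_le_mul_right (haus_swap _) _

theorem alt_thick' {a M : ℝ} (hM : 16 ≤ M) (haM : |a| = M ^ 2) {n : ℕ} (hn : 1 ≤ n) {A : Set T2}
    (hA : S a ⁻¹' A = A) {η : ℝ≥0∞} (h1 : η ≤ volume A) (h2 : η ≤ volume Aᶜ) :
    η ≤ ENNReal.ofReal (er a M n) +
      volume (Metric.cthickening ((1 / √M) ^ n) (frontier A)) := by
  rcases alt' hM haM hn hA with h | h
  · exact h1.trans (h.trans (add_le_add_right (vol_hnbd_thick _ _).1 _))
  · exact h2.trans (h.trans (add_le_add_right (vol_hnbd_thick _ _).2 _))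

/-- the exponential lower bound -/
theorem length' {a M : ℝ} (hM : 16 ≤ M) (haM : |a| = M ^ 2) {A : Set T2}
    (hA : S a ⁻¹' A = A) {η : ℝ} (h1 : ENNReal.ofReal η ≤ volume A)
    (h2 : ENNReal.ofReal η ≤ volume Aᶜ) :
    ENNReal.ofReal (exp ((η * M ^ 4 - 20 * M ^ 3) / 1920)) ≤
      1 + 2 * Measure.hausdorffMeasure 1 (frontier A) := by
  have hM0 : 0 < M := by linarith
  have ha0 : 0 < |a| := by rw [haM]; positivity
  have ha1 : 1 < |a| := by rw [haM]; nlinarith
  have hla : 0 < log |a| := Real.log_pos ha1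
  have hs0 : 0 < √M := Real.sqrt_pos.2 hM0
  have hlogM : log |a| = 2 * log M := by rw [haM, Real.log_pow]; push_cast; ring
  have hlog : log √M = log |a| / 4 := by rw [Real.log_sqrt hM0.le, hlogM]; ring
  have hla5 : 5.5 < log |a| := by
    have h3 : log 256 ≤ log |a| := Real.log_le_log (by norm_num) (by rw [haM]; nlinarith)
    have h4 : log 256 = 8 * log 2 := by
      rw [show (256:ℝ) = 2 ^ 8 by norm_num, Real.log_pow]
      norm_num
    have := Real.log_two_gt_d9
    linarith
  by_cases htop : Measure.hausdorffMeasure 1 (frontier A) = (⊤ : ℝ≥0∞)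
  · rw [htop]
    have : (1:ℝ≥0∞) + 2 * ⊤ = ⊤ := by
      rw [ENNReal.mul_top (by norm_num)]
      simp
    rw [this]
    exact le_top
  · set ℓ : ℝ := (Measure.hausdorffMeasure 1 (frontier A)).toReal with hℓ
    have hℓ0 : 0 ≤ ℓ := ENNReal.toReal_nonneg
    have hℓe : Measure.hausdorffMeasure 1 (frontier A) = ENNReal.ofReal ℓ :=
      (ENNReal.ofReal_toReal htop).symm
    set g : ℝ := log (1 + 2 * ℓ) with hg
    have hg0 : 0 ≤ g := Real.log_nonneg (by linarith)
    set k : ℕ := ⌈4 * g / log |a|⌉₊ with hk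
    have hk1 : 4 * g / log |a| ≤ k := Nat.le_ceil _
    have hk2 : (k:ℝ) < 4 * g / log |a| + 1 := Nat.ceil_lt_add_one (by positivity)
    have h3 := alt_len' hM haM (n := k + 3) (by omega) hA h1 h2
    have her : 0 ≤ er a M (k + 3) := by
      unfold er
      positivity
    rw [hℓe, ← ENNReal.ofReal_mul (by positivity), ← ENNReal.ofReal_add her
      (by positivity), ENNReal.ofReal_le_ofReal_iff (by positivity)] at h3
    -- the last term
    have h4 : 1 + 2 * ℓ ≤ √M ^ k := by
      rw [← Real.log_le_log_iff (by positivity) (by positivity), Real.log_pow, hlog, ← hg]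
      rw [div_le_iff₀ hla] at hk1
      linarith
    have hsq : √M ^ 2 = M := Real.sq_sqrt hM0.le
    have hs4 : 4 ≤ √M := by
      apply Real.le_sqrt_of_sq_le
      linarith
    have h5 : 4 * (1 / √M) ^ (k + 3) * ℓ ≤ 1 / M := by
      have e : (1 / √M) ^ (k + 3) = (1 / √M ^ k) * (1 / M) * (1 / √M) := by
        rw [div_pow, one_pow, pow_add, show √M ^ 3 = √M ^ 2 * √M by ring, hsq]
        field_simp
      rw [e]
      have h6 : (1 / √M ^ k) * (2 * ℓ) ≤ 1 := by
        rw [one_div, ← div_eq_inv_mul, div_le_one (by positivity)]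
        linarith
      have h7 : 1 / √M ≤ 1 / 4 := one_div_le_one_div_of_le (by norm_num) hs4
      have e2 : 4 * ((1 / √M ^ k) * (1 / M) * (1 / √M)) * ℓ =
          ((1 / √M ^ k) * (2 * ℓ)) * (2 * (1 / √M)) * (1 / M) := by
        ring
      rw [e2]
      have h8 : (1 / √M ^ k) * (2 * ℓ) * (2 * (1 / √M)) ≤ 1 := by
        have h9 : 0 ≤ (1 / √M ^ k) * (2 * ℓ) := by positivity
        have h10 : 2 * (1 / √M) ≤ 1 := by linarith
        have h11 : 0 ≤ 2 * (1 / √M) := by positivity
        exact mul_le_one₀ h6 h11 h10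
      exact mul_le_of_le_one_left (by positivity) h8
    have h6 : η ≤ 480 * ((k + 3 : ℕ) : ℝ) * log |a| / |a| ^ 2 + 15 / M + 1 / M := by
      have : er a M (k + 3) = 480 * ((k + 3 : ℕ) : ℝ) * log |a| / |a| ^ 2 + 15 / M := rfl
      linarith
    push_cast at h6
    have h7 : η * M ^ 4 ≤ 480 * (k + 3) * log |a| + 16 * M ^ 3 := by
      have h8 := mul_le_mul_of_nonneg_right h6 (by positivity : 0 ≤ M ^ 4)
      have e : (480 * ((k:ℝ) + 3) * log |a| / |a| ^ 2 + 15 / M + 1 / M) * M ^ 4 =
          480 * (k + 3) * log |a| + 16 * M ^ 3 := by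
        rw [haM]
        field_simp
        ring
      rw [e] at h8
      exact h8
    have hlM : log |a| ≤ 0.5 * M := by
      rw [hlogM]
      have h9 : log (M / 16) ≤ M / 16 - 1 := Real.log_le_sub_one_of_pos (by positivity)
      have h10 : log (M / 16) = log M - 4 * log 2 := by
        rw [Real.log_div hM0.ne' (by norm_num), show (16:ℝ) = 2 ^ 4 by norm_num, Real.log_pow]
        norm_num
      have := Real.log_two_lt_d9
      linarith
    have h8 : (η * M ^ 4 - 20 * M ^ 3) / 1920 ≤ g := by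
      rw [div_le_iff₀ (by norm_num)]
      have h9 : (k:ℝ) * log |a| ≤ 4 * g + log |a| := by
        have := mul_le_mul_of_nonneg_right hk2.le hla.le
        have e : (4 * g / log |a| + 1) * log |a| = 4 * g + log |a| := by
          field_simp
        rw [e] at this
        exact this
      have h10 : 480 * ((k:ℝ) + 3) * log |a| ≤ 480 * (4 * g + 4 * log |a|) := by linarith
      have h11 : 1920 * log |a| ≤ 4 * M ^ 3 := by
        have : 960 * M ≤ 4 * M ^ 3 := by nlinarith [mul_nonneg hM0.le (sq_nonneg (M - 16))]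
        linarith
      linarith
    have h9 : exp ((η * M ^ 4 - 20 * M ^ 3) / 1920) ≤ 1 + 2 * ℓ := by
      rw [← Real.exp_log (show (0:ℝ) < 1 + 2 * ℓ by positivity)]
      exact Real.exp_le_exp.2 h8
    rw [hℓe]
    have e1 : (1:ℝ≥0∞) = ENNReal.ofReal 1 := by norm_num
    have e2 : (2:ℝ≥0∞) = ENNReal.ofReal 2 := by norm_num
    rw [e1, e2, ← ENNReal.ofReal_mul (by norm_num), ← ENNReal.ofReal_add (by norm_num)
      (by positivity)]
    exact ENNReal.ofReal_le_ofReal h9

/-- finite-scale mixing -/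
theorem mixing' {a M : ℝ} (hM : 16 ≤ M) (haM : |a| = M ^ 2) {n m : ℕ} (hn : 1 ≤ n) (hm : 1 ≤ m)
    {p q : T2} (hp : p ∉ bd a M n) (hq : Prod.swap q ∉ bd a M m) :
    ∃ p' q' : T2, dist p p' ≤ (1 / √M) ^ n ∧ dist q q' ≤ (1 / √M) ^ m ∧
      (S a)^[n + m] p' = q' := by
  have hseg : ∀ {r t s : ℝ} {x : T2}, x ∈ seg r t s →
      dist ((t : UnitAddCircle), (s : UnitAddCircle)) x ≤ r := by
    rintro r t s x ⟨u, hu, rfl⟩
    rw [Prod.dist_eq]
    simp only [dist_self]
    have h1 : dist (t : UnitAddCircle) (u : UnitAddCircle) ≤ r := by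
      rw [dist_eq_norm, ← AddCircle.coe_sub]
      refine (norm_coe_le _).trans ?_
      rw [abs_sub_comm]
      exact hu
    exact max_le h1 (dist_nonneg.trans h1)
  obtain ⟨p1, p2⟩ := p
  obtain ⟨q1, q2⟩ := q
  induction p1 using QuotientAddGroup.induction_on with
  | H t =>
    induction p2 using QuotientAddGroup.induction_on with
    | H s =>
      induction q1 using QuotientAddGroup.induction_on with
      | H s' =>
        induction q2 using QuotientAddGroup.induction_on with
        | H t' =>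
          have h1 := good_pt hp
          have h3 : Sp a M s' m t' := good_pt hq
          have c1 := curveG hM haM hn h1
          have c2 := curveG hM haM hm h3
          have c3 : HasCurve (Prod.swap ⁻¹' ((Si a)^[m] '' (Prod.swap ''
              seg ((1 / √M) ^ m) t' s'))) := by
            refine c2.mono ?_
            rintro _ ⟨x, hx, rfl⟩
            refine ⟨Prod.swap x, ⟨x, hx, rfl⟩, ?_⟩
            rw [swap_S_iter]
          obtain ⟨z, ⟨x, hx, hxz⟩, ⟨_, ⟨y, hy, rfl⟩, hyz⟩⟩ := meet c1 c3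
          refine ⟨x, Prod.swap y, hseg hx, ?_, ?_⟩
          · have h5 := hseg hy
            rw [Prod.dist_eq] at h5 ⊢
            rw [max_comm]
            exact h5
          · rw [add_comm, iterate_add_apply, hxz, ← hyz, S_iter_Si]

end Pool.Agent.K7.H81.SL
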