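import Pool.Agent.V1152.SMIJ

set_option autoImplicit false

/-!
# Growth of the derivative cocycle when no product of two consecutive traces is small
-/

namespace Pool.Agent.K7.H81.SM

open Real MeasureTheory Function Pool.Agent.TH705.SM Pool.Agent.V1152.SMI

/-- a second order recurrence -/
theorem chain {l d : ℕ → ℝ} (h0 : d 0 = 0) (h1 : d 1 = 1)
    (hd : ∀ k, d (k + 2) = l k * d (k + 1) - d k) (hl0 : l 0 ≠ 0) (m : ℕ)
    (hl : ∀ j < m, 16 ≤ |l j * l (j + 1)|) :
    l m ≠ 0 ∧ d (m + 1) ≠ 0 ∧ 13 * (|l m| * |d (m + 1)|) ≤ 14 * |d (m + 2)| ∧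
      |log |d (m + 2)| - (∑ j ∈ Finset.range (m + 1), log |l j|)| ≤
        3 * ∑ j ∈ Finset.range m, 1 / |l j * l (j + 1)| := by
  induction m with
  | zero =>
    have h2 : d 2 = l 0 := by
      have := hd 0
      rw [this, h0, h1]
      ring
    refine ⟨hl0, ?_, ?_, ?_⟩
    · show d 1 ≠ 0
      rw [h1]
      norm_num
    · show 13 * (|l 0| * |d 1|) ≤ 14 * |d 2|
      rw [h1, h2]
      have := abs_nonneg (l 0)
      rw [abs_one]
      linarith
    · show |log |d 2| - (∑ j ∈ Finset.range 1, log |l j|)| ≤ _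
      rw [h2]
      simp
  | succ m ih =>
    obtain ⟨a1, a2, a3, a4⟩ := ih fun j hj => hl j (by omega)
    have hPQ := hl m (by omega)
    have e3 : d (m + 1 + 2) = l (m + 1) * d (m + 2) - d (m + 1) := hd (m + 1)
    set P := l m with hP
    set Q := l (m + 1) with hQ
    set x := d (m + 1) with hx
    set y := d (m + 2) with hy
    rw [abs_mul] at hPQ
    have hP0 : 0 < |P| := abs_pos.2 a1
    have hx0 : 0 < |x| := abs_pos.2 a2
    have hQ0 : 0 < |Q| := by
      by_contra hcon
      have : |Q| = 0 := le_antisymm (not_lt.1 hcon) (abs_nonneg _)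
      rw [this] at hPQ
      norm_num at hPQ
    have hy0 : 0 < |y| := by
      have : 0 < |P| * |x| := by positivity
      nlinarith
    have hQn : Q ≠ 0 := abs_pos.1 hQ0
    have hyn : y ≠ 0 := abs_pos.1 hy0
    have b1 : 16 * |x| ≤ |P| * |Q| * |x| := mul_le_mul_of_nonneg_right hPQ hx0.le
    have b2 : 13 * (|P| * |Q| * |x|) ≤ 14 * (|Q| * |y|) := by
      have := mul_le_mul_of_nonneg_left a3 hQ0.le
      nlinarith
    have b3 : 208 * |x| ≤ 14 * (|Q| * |y|) := by linarith
    have hz : |Q| * |y| - |x| ≤ |d (m + 1 + 2)| := by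
      rw [e3, ← abs_mul]
      exact abs_sub_abs_le_abs_sub _ _
    have hQy : 0 < |Q| * |y| := by positivity
    refine ⟨hQn, hyn, ?_, ?_⟩
    · show 13 * (|Q| * |y|) ≤ 14 * |d (m + 1 + 2)|
      linarith
    · set u := x / (Q * y) with hu
      have hu1 : |u| = |x| / (|Q| * |y|) := by rw [hu, abs_div, abs_mul]
      have hu2 : |u| ≤ 1 / 2 := by
        rw [hu1, div_le_iff₀ hQy]
        linarith
      have hu3 : |u| ≤ 14 / 13 * (1 / |P * Q|) := by
        rw [hu1, abs_mul, div_le_iff₀ hQy]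
        have : 14 / 13 * (1 / (|P| * |Q|)) * (|Q| * |y|) = 14 / 13 * |y| / |P| := by
          field_simp
        rw [this, le_div_iff₀ hP0]
        linarith
      have hz2 : d (m + 1 + 2) = Q * y * (1 - u) := by
        rw [e3, hu]
        field_simp
      have h1u : 0 < 1 - u := by
        have := (abs_le.1 hu2).2
        linarith
      have hlog : log |d (m + 1 + 2)| = log |Q| + log |y| + log (1 - u) := by
        rw [hz2, abs_mul, abs_mul, Real.log_mul hQy.ne' (abs_pos.2 h1u.ne').ne',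
          Real.log_mul hQ0.ne' hy0.ne', abs_of_pos h1u]
      have hlu := log_one_sub hu2
      rw [hlog, Finset.sum_range_succ (fun j => log |l j|) (m + 1),
        Finset.sum_range_succ (fun j => 1 / |l j * l (j + 1)|) m]
      have e5 : log |Q| + log |y| + log (1 - u) -
          (∑ j ∈ Finset.range (m + 1), log |l j| + log |l (m + 1)|) =
          (log |y| - ∑ j ∈ Finset.range (m + 1), log |l j|) + log (1 - u) := by
        rw [← hQ]
        ring
      rw [e5]
      refine (abs_add_le _ _).trans ?_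
      rw [mul_add]
      refine add_le_add a4 (hlu.trans ?_)
      have h6 : 0 ≤ 1 / |P * Q| := by positivity
      show 2 * |u| ≤ 3 * (1 / |P * Q|)
      linarith

/-- the derivative of the iterates in terms of the cocycle -/
theorem pm_G (a : ℝ) (x y : ℝ) (v : ℝ × ℝ) (n : ℕ) :
    fderiv ℝ (pm a)^[n] (x, y) v = G a v n ((x : UnitAddCircle), (y : UnitAddCircle)) := by
  induction n with
  | zero =>
    have : fderiv ℝ (pm a)^[0] (x, y) = ContinuousLinearMap.id ℝ (ℝ × ℝ) := fderiv_id
    rw [this]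
    rfl
  | succ n ih =>
    have ho : (pm a)^[n] (x, y) = (X a y (n + 1) x, X a y n x) := iter_plane a y x n
    rw [(pm_iter_fderiv a (x, y) n).2, ContinuousLinearMap.comp_apply, ih, ho]
    show _ = (cc a ((S a)^[n] _).1 * (G a v n _).1 - (G a v n _).2, (G a v n _).1)
    rw [iter_coe, cc_coe]
    unfold pm'
    simp only [ContinuousLinearMap.prod_apply, sub_apply,
      smul_apply, ContinuousLinearMap.coe_fst', ContinuousLinearMap.coe_snd',
      smul_eq_mul]

/-- the function `hh` on the circle -/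
noncomputable def hc (a : ℝ) : UnitAddCircle → ℝ := (hh_period a).lift

theorem hc_coe (a x : ℝ) : hc a (x : UnitAddCircle) = hh a x := Function.Periodic.lift_coe _ x

theorem hc_eq (a : ℝ) (x : UnitAddCircle) : hc a x = log (1 + cc a x ^ 2) / 2 := by
  induction x using QuotientAddGroup.induction_on with
  | H x =>
    have h1 : hc a (x : UnitAddCircle) = hh a x := hc_coe a x
    have h2 : cc a (x : UnitAddCircle) = L a x := cc_coe a x
    rw [h1, h2]
    rfl

/-- the error at one point -/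
noncomputable def er (a : ℝ) (x : UnitAddCircle) : ℝ :=
  3 / 2 * log |a| * {z : UnitAddCircle | |cc a z| < √|a|}.indicator (fun _ => (1:ℝ)) x +
    1 / (2 * |a|)

/-- the error at two consecutive points -/
noncomputable def er2 (a : ℝ) (p : T2) : ℝ :=
  3 / 16 * {q : T2 | |cc a q.1 * cc a q.2| < |a|}.indicator (fun _ => (1:ℝ)) p + 3 / |a|

theorem er_nonneg {a : ℝ} (ha : 2 ≤ |a|) (x : UnitAddCircle) : 0 ≤ er a x := by
  unfold er
  have h1 : 0 ≤ log |a| := Real.log_nonneg (by linarith)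
  have h2 : 0 ≤ {z : UnitAddCircle | |cc a z| < √|a|}.indicator (fun _ => (1:ℝ)) x :=
    Set.indicator_nonneg (fun _ _ => zero_le_one) x
  have h3 : 0 ≤ 1 / (2 * |a|) := by positivity
  have h4 := mul_nonneg (mul_nonneg (by norm_num : (0:ℝ) ≤ 3 / 2) h1) h2
  linarith

theorem er2_nonneg (a : ℝ) (p : T2) : 0 ≤ er2 a p := by
  unfold er2
  have h2 : 0 ≤ {q : T2 | |cc a q.1 * cc a q.2| < |a|}.indicator (fun _ => (1:ℝ)) p :=
    Set.indicator_nonneg (fun _ _ => zero_le_one) p
  have h3 : 0 ≤ 3 / |a| := by positivity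
  linarith

theorem log_two_half : 1 / 2 ≤ log 2 := by
  have := Real.log_two_gt_d9
  linarith

theorem er_up {a : ℝ} (ha : 2 ≤ |a|) (x : UnitAddCircle) :
    log (2 + cc a x ^ 2) / 2 - hc a x ≤ er a x := by
  rw [hc_eq]
  have ha0 : 0 < |a| := by linarith
  set L := cc a x with hL
  have h3 : 0 < 1 + L ^ 2 := by positivity
  have h4 : log (2 + L ^ 2) - log (1 + L ^ 2) ≤ 1 / (1 + L ^ 2) := by
    rw [← Real.log_div (by positivity) (by positivity)]
    refine (Real.log_le_sub_one_of_pos (by positivity)).trans (le_of_eq ?_)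
    field_simp
    ring
  unfold er
  by_cases hx : |cc a x| < √|a|
  · rw [Set.indicator_of_mem (show x ∈ {z : UnitAddCircle | |cc a z| < √|a|} from hx)]
    have h5 : log 2 ≤ log |a| := Real.log_le_log (by norm_num) ha
    have h6 := log_two_half
    have h7 : 1 / (1 + L ^ 2) ≤ 1 := by
      rw [div_le_one h3]
      nlinarith [sq_nonneg L]
    have h8 : 0 ≤ 1 / (2 * |a|) := by positivity
    linarith
  · rw [Set.indicator_of_notMem (show x ∉ {z : UnitAddCircle | |cc a z| < √|a|} from hx)]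
    have h5 : |a| ≤ L ^ 2 := by
      have h6 := pow_le_pow_left₀ (Real.sqrt_nonneg _) (not_lt.1 hx) 2
      rw [Real.sq_sqrt ha0.le, sq_abs] at h6
      exact h6
    have h7 : 1 / (1 + L ^ 2) ≤ 1 / |a| := one_div_le_one_div_of_le ha0 (by linarith)
    have h8 : 1 / (2 * |a|) = 1 / |a| / 2 := by field_simp
    rw [h8]
    linarith

theorem er_low {a : ℝ} (ha : 2 ≤ |a|) {x : UnitAddCircle} (hx : 1 ≤ |a| * |cc a x|) :
    hc a x - er a x ≤ log |cc a x| := by
  rw [hc_eq]
  have ha0 : 0 < |a| := by linarith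
  set L := cc a x with hL
  have hL0 : 0 < |L| := by
    by_contra hcon
    have : |L| = 0 := le_antisymm (not_lt.1 hcon) (abs_nonneg _)
    rw [this, mul_zero] at hx
    norm_num at hx
  have hL2 : 0 < L ^ 2 := by
    rw [← sq_abs]
    positivity
  have h1 : log |L| = log (L ^ 2) / 2 := by
    rw [← sq_abs, Real.log_pow]
    push_cast
    ring
  have h2 : log (1 + L ^ 2) = log (L ^ 2) + log (1 + 1 / L ^ 2) := by
    rw [← Real.log_mul hL2.ne' (by positivity)]
    congr 1
    rw [mul_add, mul_one, mul_one_div, div_self hL2.ne']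
    ring
  rw [h1, h2]
  unfold er
  by_cases hx2 : |cc a x| < √|a|
  · rw [Set.indicator_of_mem (show x ∈ {z : UnitAddCircle | |cc a z| < √|a|} from hx2)]
    have h3 : 1 / L ^ 2 ≤ |a| ^ 2 := by
      rw [div_le_iff₀ hL2]
      have := pow_le_pow_left₀ (by norm_num) hx 2
      rw [mul_pow, sq_abs L] at this
      linarith
    have h4 : 1 + 1 / L ^ 2 ≤ |a| ^ 3 := by
      nlinarith [sq_nonneg (|a|), sq_nonneg (|a| - 2)]
    have h5 : log (1 + 1 / L ^ 2) ≤ 3 * log |a| := by
      have := Real.log_le_log (by positivity) h4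
      rw [Real.log_pow] at this
      exact_mod_cast this
    have h8 : 0 ≤ 1 / (2 * |a|) := by positivity
    linarith
  · rw [Set.indicator_of_notMem (show x ∉ {z : UnitAddCircle | |cc a z| < √|a|} from hx2)]
    have h5 : |a| ≤ L ^ 2 := by
      have h6 := pow_le_pow_left₀ (Real.sqrt_nonneg _) (not_lt.1 hx2) 2
      rw [Real.sq_sqrt ha0.le, sq_abs] at h6
      exact h6
    have h6 := Real.log_le_sub_one_of_pos (show 0 < 1 + 1 / L ^ 2 by positivity)
    have h7 : 1 / L ^ 2 ≤ 1 / |a| := one_div_le_one_div_of_le ha0 h5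
    have h8 : 1 / (2 * |a|) = 1 / |a| / 2 := by field_simp
    rw [h8]
    linarith

theorem er2_low {a : ℝ} (ha : 2 ≤ |a|) {p : T2} (hp : 16 ≤ |cc a p.1 * cc a p.2|) :
    3 * (1 / |cc a p.1 * cc a p.2|) ≤ er2 a p := by
  have ha0 : 0 < |a| := by linarith
  unfold er2
  by_cases hx : |cc a p.1 * cc a p.2| < |a|
  · rw [Set.indicator_of_mem (show p ∈ {q : T2 | |cc a q.1 * cc a q.2| < |a|} from hx)]
    have h1 : 1 / |cc a p.1 * cc a p.2| ≤ 1 / 16 := one_div_le_one_div_of_le (by norm_num) hp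
    have h3 : 0 ≤ 3 / |a| := by positivity
    linarith
  · rw [Set.indicator_of_notMem (show p ∉ {q : T2 | |cc a q.1 * cc a q.2| < |a|} from hx)]
    have h1 : 1 / |cc a p.1 * cc a p.2| ≤ 1 / |a| := one_div_le_one_div_of_le ha0 (not_lt.1 hx)
    have h3 : 3 / |a| = 3 * (1 / |a|) := by ring
    rw [h3]
    linarith

/-- the good points -/
def Gd (a : ℝ) (m : ℕ) (p : T2) : Prop :=
  1 ≤ |cc a p.1| ∧ ∀ j < m, 16 ≤ |cc a ((S a)^[j + 1] p).1 * cc a ((S a)^[j + 1] p).2|

/-- the total error -/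
noncomputable def Er (a : ℝ) (m : ℕ) (p : T2) : ℝ :=
  (∑ j ∈ Finset.range (m + 1), er a ((S a)^[j] p).1) +
    ∑ j ∈ Finset.range m, er2 a ((S a)^[j + 1] p)

theorem cc_lt {a : ℝ} (ha : 2 ≤ |a|) (x : UnitAddCircle) : |cc a x| < 8 * |a| := by
  have h1 := cc_le a x
  have h2 := Real.pi_lt_d2
  nlinarith

/-- the logarithm of the norm of the derivative -/
theorem norm_log {a : ℝ} (ha : 2 ≤ |a|) (x y : ℝ) (m : ℕ)
    (hg : Gd a m ((x : UnitAddCircle), (y : UnitAddCircle))) :
    |log ‖fderiv ℝ (pm a)^[m + 1] (x, y)‖ - ∑ j ∈ Finset.range (m + 1),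
      hc a ((S a)^[j] ((x : UnitAddCircle), (y : UnitAddCircle))).1| ≤
      1 + Er a m ((x : UnitAddCircle), (y : UnitAddCircle)) := by
  set p : T2 := ((x : UnitAddCircle), (y : UnitAddCircle)) with hp
  have ha0 : 0 < |a| := by linarith
  set l : ℕ → ℝ := fun j => cc a ((S a)^[j] p).1 with hl
  have hE2 : 0 ≤ ∑ j ∈ Finset.range m, er2 a ((S a)^[j + 1] p) :=
    Finset.sum_nonneg fun _ _ => er2_nonneg _ _
  -- upper bound
  have hup : log ‖fderiv ℝ (pm a)^[m + 1] (x, y)‖ ≤ 1 + ∑ j ∈ Finset.range (m + 1),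
      (hc a ((S a)^[j] p).1 + er a ((S a)^[j] p).1) := by
    have h1 := norm_bound a (x, y) (m + 1)
    have h2 : log 2 / 2 ≤ 1 := by
      have := Real.log_two_lt_d9
      linarith
    refine h1.trans (add_le_add h2 (Finset.sum_le_sum fun j _ => ?_))
    have ho : (pm a)^[j] (x, y) = (X a y (j + 1) x, X a y j x) := iter_plane a y x j
    have h3 : cc a ((S a)^[j] p).1 = L a ((pm a)^[j] (x, y)).1 := by
      rw [hp, iter_coe, ho, cc_coe]
    have h4 := er_up ha ((S a)^[j] p).1
    unfold ff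
    rw [h3] at h4
    linarith
  -- lower bound
  have hlow : (∑ j ∈ Finset.range (m + 1), hc a ((S a)^[j] p).1) - Er a m p ≤
      log ‖fderiv ℝ (pm a)^[m + 1] (x, y)‖ := by
    set d : ℕ → ℝ := fun k => match k with
      | 0 => 0
      | k + 1 => (G a (1, 0) k p).1 with hd
    have hd0 : d 0 = 0 := rfl
    have hd1 : d 1 = 1 := rfl
    have hG2 : ∀ k, (G a (1, 0) k p).2 = d k := by
      intro k
      cases k with
      | zero => rfl
      | succ k => rfl
    have hrec : ∀ k, d (k + 2) = l k * d (k + 1) - d k := by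
      intro k
      show (G a (1, 0) (k + 1) p).1 = l k * (G a (1, 0) k p).1 - d k
      rw [← hG2 k]
      rfl
    have hl0 : l 0 ≠ 0 := by
      have h1 := hg.1
      have h2 : 0 < |l 0| := lt_of_lt_of_le one_pos h1
      exact abs_pos.1 h2
    have hsnd : ∀ j, cc a ((S a)^[j + 1] p).2 = l j := by
      intro j
      show cc a ((S a)^[j + 1] p).2 = cc a ((S a)^[j] p).1
      rw [S_snd]
    have hll : ∀ j < m, 16 ≤ |l j * l (j + 1)| := by
      intro j hj
      have := hg.2 j hj
      rw [hsnd j] at this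
      rw [mul_comm]
      exact this
    obtain ⟨c1, c2, c3, c4⟩ := chain hd0 hd1 hrec hl0 m hll
    have hl1 : ∀ j ≤ m, 1 ≤ |a| * |l j| := by
      intro j hj
      cases j with
      | zero =>
        have h1 : 1 ≤ |l 0| := hg.1
        nlinarith
      | succ j =>
        have h1 := hll j (by omega)
        rw [abs_mul] at h1
        have h2 : |l j| < 8 * |a| := cc_lt ha _
        have h3 := abs_nonneg (l (j + 1))
        nlinarith
    have hN : |d (m + 2)| ≤ ‖fderiv ℝ (pm a)^[m + 1] (x, y)‖ := by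
      have h1 := (fderiv ℝ (pm a)^[m + 1] (x, y)).le_opNorm (1, 0)
      have n1 : ‖((1, 0) : ℝ × ℝ)‖ = 1 := by simp [Prod.norm_def]
      rw [n1, mul_one, pm_G] at h1
      exact (norm_fst_le _).trans h1
    have hdn : 0 < |d (m + 2)| := by
      have h1 : 0 < |l m| * |d (m + 1)| := mul_pos (abs_pos.2 c1) (abs_pos.2 c2)
      linarith
    have h5 : log |d (m + 2)| ≤ log ‖fderiv ℝ (pm a)^[m + 1] (x, y)‖ := Real.log_le_log hdn hN
    have h6 : ∑ j ∈ Finset.range (m + 1), (hc a ((S a)^[j] p).1 - er a ((S a)^[j] p).1) ≤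
        ∑ j ∈ Finset.range (m + 1), log |l j| := by
      apply Finset.sum_le_sum
      intro j hj
      have hj' : j ≤ m := by
        have := Finset.mem_range.1 hj
        omega
      exact er_low ha (hl1 j hj')
    have h7 : 3 * ∑ j ∈ Finset.range m, 1 / |l j * l (j + 1)| ≤
        ∑ j ∈ Finset.range m, er2 a ((S a)^[j + 1] p) := by
      rw [Finset.mul_sum]
      apply Finset.sum_le_sum
      intro j hj
      have h8 := er2_low ha (p := (S a)^[j + 1] p) (hg.2 j (Finset.mem_range.1 hj))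
      have e : l j * l (j + 1) = cc a ((S a)^[j + 1] p).1 * cc a ((S a)^[j + 1] p).2 := by
        rw [hsnd j, mul_comm]
      rw [e]
      exact h8
    have h9 := (abs_le.1 c4).1
    rw [Finset.sum_sub_distrib] at h6
    unfold Er
    linarith
  rw [Finset.sum_add_distrib] at hup
  have hEr : Er a m p = (∑ j ∈ Finset.range (m + 1), er a ((S a)^[j] p).1) +
    ∑ j ∈ Finset.range m, er2 a ((S a)^[j + 1] p) := rfl
  rw [abs_le]
  constructor <;> linarith

end Pool.Agent.K7.H81.SM
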