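import Pool.Agent.K7.H81.SMB

set_option autoImplicit false

/-!
# The law of large numbers for the logarithm of the trace, for all times
-/

namespace Pool.Agent.K7.H81.SM

open Real MeasureTheory Function Pool.Agent.TH705.SM Pool.Agent.V1152.SMI

/-- the centred function -/
noncomputable def uc (a : ℝ) (x : UnitAddCircle) : ℝ := hc a x - hmean a

theorem hc_cont (a : ℝ) : Continuous (hc a) := lift_cont (hh_period a) (hh_cont a)

theorem uc_cont (a : ℝ) : Continuous (uc a) := (hc_cont a).sub continuous_const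

theorem uc_bd {a : ℝ} (ha : 2 ≤ |a|) (x : UnitAddCircle) : |uc a x| ≤ 3 * (1 + log |a|) := by
  induction x using QuotientAddGroup.induction_on with
  | H x => exact ctr_bound (by linarith) x

theorem uc_int (a : ℝ) : ∫ x, uc a x = 0 := by
  have h := UnitAddCircle.intervalIntegral_preimage 0 (uc a)
  rw [zero_add] at h
  rw [← h]
  exact ctr_int a

theorem uc_sq_int (a : ℝ) : ∫ x, uc a x ^ 2 = hvar a := by
  have h := UnitAddCircle.intervalIntegral_preimage 0 (fun x => uc a x ^ 2)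
  rw [zero_add] at h
  rw [← h]
  rfl

theorem hvar_le {a : ℝ} (ha : 2 ≤ |a|) : 0 ≤ hvar a ∧ hvar a ≤ 4 := by
  constructor
  · unfold hvar
    exact intervalIntegral.integral_nonneg zero_le_one fun x _ => sq_nonneg _
  · obtain ⟨w, w0, w1, -, -, -, hs⟩ := mean_var (a := a) (by linarith)
    have h2 := hasSum_zeta_two.mul_left 2
    have h3 := hasSum_le (fun n => ?_) hs h2
    · refine h3.trans ?_
      have := Real.pi_lt_d2
      nlinarith [Real.pi_pos]
    · have h4 : ((w ^ 2) ^ n).re ≤ 1 := by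
        refine (Complex.re_le_norm _).trans ?_
        rw [norm_pow, norm_pow]
        exact pow_le_one₀ (by positivity) (pow_le_one₀ (norm_nonneg _) w1.le)
      have h5 : (‖w‖ ^ 2) ^ n ≤ 1 :=
        pow_le_one₀ (by positivity) (pow_le_one₀ (norm_nonneg _) w1.le)
      have h6 : 2 * (1 / (n : ℝ) ^ 2) = 2 / (n : ℝ) ^ 2 := by ring
      rw [h6]
      exact div_le_div_of_nonneg_right (by linarith) (by positivity)

/-- lag one: no correlation -/
theorem cov_one (a : ℝ) : ∫ p : T2, uc a ((S a)^[1] p).1 * uc a p.1 = 0 := by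
  have hc1 : Continuous (fun p : T2 => uc a ((S a)^[1] p).1 * uc a p.1) :=
    ((uc_cont a).comp (continuous_fst.comp ((S_cont a).iterate 1))).mul
      ((uc_cont a).comp continuous_fst)
  have h1 : ∫ p : T2, uc a ((S a)^[1] p).1 * uc a p.1 =
      ∫ x : UnitAddCircle, ∫ y : UnitAddCircle, uc a ((S a)^[1] (x, y)).1 * uc a (x, y).1 :=
    integral_prod _ (integrable_cont hc1)
  rw [h1]
  have h2 : ∀ x : UnitAddCircle,
      ∫ y : UnitAddCircle, uc a ((S a)^[1] (x, y)).1 * uc a (x, y).1 = 0 := by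
    intro x
    have h3 : ∀ y : UnitAddCircle, uc a ((S a)^[1] (x, y)).1 * uc a (x, y).1 =
        uc a (phi a x - y) * uc a x := fun y => rfl
    simp_rw [h3]
    rw [integral_mul_const, integral_sub_left_eq_self (uc a) volume (phi a x), uc_int, zero_mul]
  simp_rw [h2]
  simp

/-- the constant -/
noncomputable def CA : ℝ := 208 * KK * π ^ 2 + 2

theorem CA_pos : 2 ≤ CA := by
  unfold CA
  have := KK_one
  have h : 0 ≤ 208 * KK * π ^ 2 := by positivity
  linarith

/-- all lags, for long times -/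
theorem cov_all {a : ℝ} (ha : 2 ≤ |a|) (hl : l0 ≤ |a| ^ ((1 / 3 : ℝ))) {k : ℕ} (hk : 1 ≤ k)
    (hk2 : (k : ℝ) ≤ |a| ^ ((1 / 3 : ℝ))) :
    |∫ p : T2, uc a ((S a)^[k] p).1 * uc a p.1| ≤
      (3 * (1 + log |a|)) ^ 2 * (CA * |a| ^ (-(1 / 3) : ℝ)) := by
  have ha0 : 0 < |a| := by linarith
  have hlog : 0 ≤ log |a| := Real.log_nonneg (by linarith)
  set l : ℝ := |a| ^ ((1 / 3 : ℝ)) with hldef
  have hl0 : 0 < l := Real.rpow_pos_of_pos ha0 _
  have hr0 : 0 < |a| ^ (-(1 / 3) : ℝ) := Real.rpow_pos_of_pos ha0 _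
  have hCA := CA_pos
  set K : ℝ := 3 * (1 + log |a|) with hK
  have hK0 : 0 < K := by positivity
  rcases Nat.lt_or_ge k 2 with h2 | h2
  · have : k = 1 := by omega
    subst this
    rw [cov_one, abs_zero]
    positivity
  · obtain ⟨m, rfl⟩ : ∃ m, k = m + 1 := ⟨k - 1, by omega⟩
    have hm : 1 ≤ m := by omega
    have hone : Periodic (fun _ : ℝ => (1:ℝ)) 1 := fun _ => rfl
    have hzero : Periodic (fun _ : ℝ => (0:ℝ)) 1 := fun _ => rfl
    have honel : ∀ y : UnitAddCircle, hone.lift y = 1 := by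
      intro y
      induction y using QuotientAddGroup.induction_on with
      | H t => rfl
    have hla : l ≤ |a| := by
      rw [hldef]
      calc |a| ^ ((1 / 3 : ℝ)) ≤ |a| ^ (1:ℝ) :=
            Real.rpow_le_rpow_of_exponent_le (by linarith) (by norm_num)
        _ = |a| := Real.rpow_one _
    set g : UnitAddCircle → ℝ := fun x => uc a x / K with hg
    have hgc : Continuous g := (uc_cont a).div_const K
    have hg1 : ∀ x, |g x| ≤ 1 := by
      intro x
      rw [hg]
      simp only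
      rw [abs_div, abs_of_pos hK0, div_le_one hK0]
      exact uc_bd ha x
    have hgi : ∫ x, g x = 0 := by
      rw [hg]
      simp only
      rw [integral_div, uc_int, zero_div]
    have t := corr hl hla (m := m) hm hgc hgc hg1 hg1 (H1 := fun _ => 1) (H1' := fun _ => 0)
      (fun x => hasDerivAt_const x 1) continuous_const hone hzero (fun _ => by norm_num)
      (H2 := fun _ => 1) (H2' := fun _ => 0)
      (fun x => hasDerivAt_const x 1) continuous_const hone hzero (fun _ => by norm_num)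
    simp only [honel, mul_one, abs_zero, intervalIntegral.integral_zero, add_zero,
      hgi, sub_zero, mul_zero] at t
    have e : ∀ p : T2, uc a ((S a)^[m + 1] p).1 * uc a p.1 =
        K ^ 2 * (g ((S a)^[m + 1] p).1 * g p.1) := by
      intro p
      rw [hg]
      simp only
      field_simp
    simp_rw [e]
    rw [integral_const_mul, abs_mul, abs_of_nonneg (sq_nonneg K)]
    apply mul_le_mul_of_nonneg_left _ (sq_nonneg K)
    refine t.trans ?_
    have e1 : 1 / l = |a| ^ (-(1 / 3) : ℝ) := by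
      rw [hldef, one_div, ← Real.rpow_neg ha0.le]
    have e2 : l * (l / |a|) = |a| ^ (-(1 / 3) : ℝ) := by
      have h3 : l * l * l = |a| := by
        rw [hldef, ← Real.rpow_add ha0, ← Real.rpow_add ha0]
        norm_num
      rw [← e1]
      field_simp
      nlinarith
    have h5 : 208 * KK * π ^ 2 / l = 208 * KK * π ^ 2 * |a| ^ (-(1 / 3) : ℝ) := by
      rw [← e1]
      ring
    have h6 : 2 * (m : ℝ) * (l / |a|) ≤ 2 * |a| ^ (-(1 / 3) : ℝ) := by
      rw [← e2]
      have h7 : (m : ℝ) ≤ l := by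
        push_cast at hk2
        linarith
      have h8 : 0 ≤ l / |a| := by positivity
      nlinarith
    rw [h5]
    unfold CA
    linarith

/-- partial sums along the orbit -/
noncomputable def SU (a : ℝ) (n : ℕ) (p : T2) : ℝ := ∑ j ∈ Finset.range n, uc a ((S a)^[j] p).1

/-- second moments -/
noncomputable def ZZ (a : ℝ) (n : ℕ) : ℝ := ∫ p, SU a n p ^ 2

theorem SU_cont (a : ℝ) (n : ℕ) : Continuous (SU a n) :=
  continuous_finsetSum _ fun j _ =>
    (uc_cont a).comp (continuous_fst.comp ((S_cont a).iterate j))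

theorem SU_add (a : ℝ) (n m : ℕ) (p : T2) : SU a (n + m) p = SU a n p + SU a m ((S a)^[n] p) := by
  unfold SU
  rw [Finset.sum_range_add]
  congr 1
  apply Finset.sum_congr rfl
  intro j _
  rw [← iterate_add_apply, Nat.add_comm]

theorem ZZ_shift (a : ℝ) (n m : ℕ) : ∫ p, SU a m ((S a)^[n] p) ^ 2 = ZZ a m := by
  have h2 := (iter_mp a n).map_eq
  have h3 : ∫ q, SU a m q ^ 2 ∂(Measure.map ((S a)^[n]) volume) =
      ∫ p : T2, SU a m ((S a)^[n] p) ^ 2 :=
    integral_map (iter_mp a n).measurable.aemeasurable ((SU_cont a m).pow 2).aestronglyMeasurable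
  rw [h2] at h3
  exact h3.symm

theorem ZZ_nonneg (a : ℝ) (n : ℕ) : 0 ≤ ZZ a n := integral_nonneg fun _ => sq_nonneg _

theorem ZZ_zero (a : ℝ) : ZZ a 0 = 0 := by
  unfold ZZ SU
  simp

/-- subadditivity -/
theorem ZZ_add (a : ℝ) (n m : ℕ) :
    ZZ a (n + m) / (n + m : ℕ) ≤ ZZ a n / n + ZZ a m / m := by
  rcases Nat.eq_zero_or_pos n with hn | hn
  · subst hn
    rw [Nat.zero_add, ZZ_zero, zero_div, zero_add]
  rcases Nat.eq_zero_or_pos m with hm | hm
  · subst hm
    rw [Nat.add_zero, ZZ_zero, zero_div, add_zero]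
  have hn' : (0:ℝ) < n := by exact_mod_cast hn
  have hm' : (0:ℝ) < m := by exact_mod_cast hm
  have hc1 : Continuous fun p : T2 => SU a n p ^ 2 := (SU_cont a n).pow 2
  have hc2 : Continuous fun p : T2 => SU a m ((S a)^[n] p) ^ 2 :=
    ((SU_cont a m).comp ((S_cont a).iterate n)).pow 2
  have hpt : ∀ p : T2, SU a (n + m) p ^ 2 ≤
      (n + m) / n * SU a n p ^ 2 + (n + m) / m * SU a m ((S a)^[n] p) ^ 2 := by
    intro p
    rw [SU_add]
    set A := SU a n p
    set B := SU a m ((S a)^[n] p)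
    have e : (n + m) / n * A ^ 2 + (n + m) / m * B ^ 2 - (A + B) ^ 2 =
        (m * A - n * B) ^ 2 / (n * m) := by
      field_simp
      ring
    have h : 0 ≤ (m * A - n * B) ^ 2 / ((n : ℝ) * m) := by positivity
    linarith
  have h1 : ZZ a (n + m) ≤ (n + m) / n * ZZ a n + (n + m) / m * ZZ a m := by
    calc ZZ a (n + m) ≤ ∫ p : T2, ((n + m) / n * SU a n p ^ 2 +
          (n + m) / m * SU a m ((S a)^[n] p) ^ 2) := by
          apply integral_mono (integrable_cont ((SU_cont a (n + m)).pow 2))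
            (integrable_cont ((continuous_const.mul hc1).add (continuous_const.mul hc2)))
          exact hpt
      _ = _ := by
          have i1 : Integrable fun p : T2 => ((n : ℝ) + m) / n * SU a n p ^ 2 :=
            (integrable_cont hc1).const_mul _
          have i2 : Integrable fun p : T2 => ((n : ℝ) + m) / m * SU a m ((S a)^[n] p) ^ 2 :=
            (integrable_cont hc2).const_mul _
          rw [integral_add i1 i2, integral_const_mul, integral_const_mul, ZZ_shift]
          rfl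
  push_cast
  rw [div_le_iff₀ (by positivity)]
  refine h1.trans (le_of_eq ?_)
  field_simp

theorem ZZ_mul (a : ℝ) (m r q : ℕ) :
    ZZ a (q * m + r) / (q * m + r : ℕ) ≤ q * (ZZ a m / m) + ZZ a r / r := by
  induction q with
  | zero => simp
  | succ q ih =>
    have e : (q + 1) * m + r = m + (q * m + r) := by ring
    rw [e]
    refine (ZZ_add a m (q * m + r)).trans ?_
    push_cast at ih ⊢
    linarith

theorem ZZ_one (a : ℝ) : ZZ a 1 = hvar a := by
  unfold ZZ SU
  simp only [Finset.range_one, Finset.sum_singleton, iterate_zero, id_eq]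
  have h7 : MeasurePreserving (Prod.fst : T2 → UnitAddCircle)
      ((volume : Measure UnitAddCircle).prod volume) volume := measurePreserving_fst
  have hm : Continuous fun x => uc a x ^ 2 := (uc_cont a).pow 2
  have h8 : ∫ x, uc a x ^ 2 ∂(Measure.map (Prod.fst : T2 → UnitAddCircle)
      ((volume : Measure UnitAddCircle).prod volume)) = ∫ p : T2, uc a p.1 ^ 2 := by
    rw [integral_map h7.measurable.aemeasurable hm.aestronglyMeasurable]
    rfl
  rw [← h8, h7.map_eq, uc_sq_int]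

theorem ZZ_triv {a : ℝ} (ha : 2 ≤ |a|) (n : ℕ) : ZZ a n ≤ n ^ 2 * 4 := by
  rcases Nat.eq_zero_or_pos n with hn | hn
  · subst hn
    rw [ZZ_zero]
    simp
  have h1 := ZZ_mul a 1 0 n
  rw [Nat.mul_one, Nat.add_zero, ZZ_zero, ZZ_one, zero_div, add_zero, Nat.cast_one,
    div_one] at h1
  have hn' : (0:ℝ) < n := by exact_mod_cast hn
  rw [div_le_iff₀ hn'] at h1
  have := (hvar_le ha).2
  have h2 : (n : ℝ) * hvar a * n ≤ n * 4 * n := by gcongr
  linarith

/-- short windows -/
theorem ZZ_short {a : ℝ} (ha : 2 ≤ |a|) (hl : l0 ≤ |a| ^ ((1 / 3 : ℝ))) {n : ℕ}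
    (hn : (n : ℝ) ≤ |a| ^ ((1 / 3 : ℝ))) :
    ZZ a n ≤ n * 4 + n ^ 2 * ((3 * (1 + log |a|)) ^ 2 * (CA * |a| ^ (-(1 / 3) : ℝ))) := by
  have ha0 : 0 < |a| := by linarith
  set ρ : ℝ := (3 * (1 + log |a|)) ^ 2 * (CA * |a| ^ (-(1 / 3) : ℝ)) with hρ
  have hρ0 : 0 ≤ ρ := by
    have := CA_pos
    positivity
  have hcont : ∀ i : ℕ, Continuous fun p : T2 => uc a ((S a)^[i] p).1 := fun i =>
    (uc_cont a).comp (continuous_fst.comp ((S_cont a).iterate i))
  have hexp : ZZ a n = ∑ i ∈ Finset.range n, ∑ j ∈ Finset.range n,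
      ∫ p : T2, uc a ((S a)^[i] p).1 * uc a ((S a)^[j] p).1 := by
    unfold ZZ SU
    have h1 : ∀ p : T2, (∑ j ∈ Finset.range n, uc a ((S a)^[j] p).1) ^ 2 =
        ∑ i ∈ Finset.range n, ∑ j ∈ Finset.range n,
          uc a ((S a)^[i] p).1 * uc a ((S a)^[j] p).1 := by
      intro p
      rw [sq, Finset.sum_mul_sum]
    simp_rw [h1]
    have k1 : ∀ i j : ℕ, Integrable fun p : T2 => uc a ((S a)^[i] p).1 * uc a ((S a)^[j] p).1 :=
      fun i j => integrable_cont ((hcont i).mul (hcont j))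
    have k2 : ∀ i ∈ Finset.range n, Integrable fun p : T2 =>
        ∑ j ∈ Finset.range n, uc a ((S a)^[i] p).1 * uc a ((S a)^[j] p).1 :=
      fun i _ => integrable_finsetSum _ fun j _ => k1 i j
    rw [integral_finsetSum _ k2]
    apply Finset.sum_congr rfl
    intro i _
    rw [integral_finsetSum _ fun j _ => k1 i j]
  have hshift : ∀ i k : ℕ, ∫ p : T2, uc a ((S a)^[i + k] p).1 * uc a ((S a)^[i] p).1 =
      ∫ p : T2, uc a ((S a)^[k] p).1 * uc a p.1 := by
    intro i k
    have h2 := (iter_mp a i).map_eq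
    have hc : Continuous fun p : T2 => uc a ((S a)^[k] p).1 * uc a p.1 := (hcont k).mul (hcont 0)
    have h3 : ∫ q, uc a ((S a)^[k] q).1 * uc a q.1 ∂(Measure.map ((S a)^[i]) volume) =
        ∫ p : T2, uc a ((S a)^[k] ((S a)^[i] p)).1 * uc a ((S a)^[i] p).1 :=
      integral_map (iter_mp a i).measurable.aemeasurable hc.aestronglyMeasurable
    rw [h2] at h3
    rw [h3]
    apply integral_congr_ae
    refine Filter.Eventually.of_forall fun p => ?_
    show uc a ((S a)^[i + k] p).1 * uc a ((S a)^[i] p).1 =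
      uc a ((S a)^[k] ((S a)^[i] p)).1 * uc a ((S a)^[i] p).1
    rw [← iterate_add_apply, Nat.add_comm i k]
  have hbd : ∀ i ∈ Finset.range n, ∀ j ∈ Finset.range n,
      ∫ p : T2, uc a ((S a)^[i] p).1 * uc a ((S a)^[j] p).1 ≤ (if i = j then 4 else 0) + ρ := by
    intro i hi j hj
    have hi' := Finset.mem_range.1 hi
    have hj' := Finset.mem_range.1 hj
    have key : ∀ i j : ℕ, i < n → j < i →
        ∫ p : T2, uc a ((S a)^[i] p).1 * uc a ((S a)^[j] p).1 ≤ ρ := by
      intro i j hi hj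
      obtain ⟨k, rfl⟩ : ∃ k, i = j + k := ⟨i - j, by omega⟩
      rw [hshift j k]
      have hkn : (k : ℝ) ≤ |a| ^ ((1 / 3 : ℝ)) := by
        refine le_trans ?_ hn
        exact_mod_cast (by omega : k ≤ n)
      exact (le_abs_self _).trans (cov_all ha hl (by omega) hkn)
    rcases lt_trichotomy i j with h | h | h
    · rw [if_neg (by omega), zero_add]
      have h1 := key j i hj' h
      simp_rw [mul_comm (uc a ((S a)^[i] _).1)]
      exact h1
    · subst h
      rw [if_pos rfl]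
      have h1 := hshift i 0
      rw [Nat.add_zero] at h1
      rw [h1]
      have h2 : ∫ p : T2, uc a ((S a)^[0] p).1 * uc a p.1 = hvar a := by
        rw [← ZZ_one]
        unfold ZZ SU
        simp only [Finset.range_one, Finset.sum_singleton, iterate_zero, id_eq, sq]
      rw [h2]
      have := (hvar_le ha).2
      linarith
    · rw [if_neg (by omega), zero_add]
      exact key i j hi' h
  rw [hexp]
  calc _ ≤ ∑ i ∈ Finset.range n, ∑ j ∈ Finset.range n, ((if i = j then 4 else 0) + ρ) :=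
        Finset.sum_le_sum fun i hi => Finset.sum_le_sum fun j hj => hbd i hi j hj
    _ = n * 4 + n ^ 2 * ρ := by
        have h1 : ∀ i ∈ Finset.range n,
            ∑ j ∈ Finset.range n, ((if i = j then (4:ℝ) else 0) + ρ) = 4 + n * ρ := by
          intro i hi
          rw [Finset.sum_add_distrib, Finset.sum_ite_eq, if_pos hi, Finset.sum_const,
            Finset.card_range, nsmul_eq_mul]
        rw [Finset.sum_congr rfl h1, Finset.sum_const, Finset.card_range, nsmul_eq_mul]
        ring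

theorem sq_log_le {a : ℝ} (ha : 2 ≤ |a|) :
    (3 * (1 + log |a|)) ^ 2 * |a| ^ (-(1 / 3) : ℝ) ≤ 5625 * |a| ^ (-(1 / 4) : ℝ) := by
  have ha0 : 0 < |a| := by linarith
  have h1 : log |a| ≤ 24 * |a| ^ ((1 / 24 : ℝ)) := by
    have := Real.log_le_rpow_div ha0.le (show (0:ℝ) < 1 / 24 by norm_num)
    linarith
  have h2 : 1 ≤ |a| ^ ((1 / 24 : ℝ)) := Real.one_le_rpow (by linarith) (by norm_num)
  have h0 : 0 ≤ log |a| := Real.log_nonneg (by linarith)
  have h3 : 3 * (1 + log |a|) ≤ 75 * |a| ^ ((1 / 24 : ℝ)) := by linarith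
  have h4 := pow_le_pow_left₀ (by positivity) h3 2
  have h5 : (75 * |a| ^ ((1 / 24 : ℝ))) ^ 2 = 5625 * |a| ^ ((1 / 12 : ℝ)) := by
    rw [mul_pow, ← Real.rpow_natCast (|a| ^ ((1 / 24 : ℝ))) 2, ← Real.rpow_mul ha0.le]
    norm_num
  rw [h5] at h4
  have h6 : 0 < |a| ^ (-(1 / 3) : ℝ) := Real.rpow_pos_of_pos ha0 _
  calc _ ≤ 5625 * |a| ^ ((1 / 12 : ℝ)) * |a| ^ (-(1 / 3) : ℝ) :=
        mul_le_mul_of_nonneg_right h4 h6.le
    _ = _ := by
        rw [mul_assoc, ← Real.rpow_add ha0]
        norm_num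

/-- **second moments of the sums, for all times** -/
theorem ZZ_all : ∃ C : ℝ, 0 < C ∧ ∀ a : ℝ, 2 ≤ |a| → ∀ n : ℕ, 1 ≤ n →
    ZZ a n ≤ n ^ 2 * (C * (1 / n + |a| ^ (-(1 / 4) : ℝ))) := by
  have hl0 := l0_ge
  have hCA := CA_pos
  refine ⟨4 * l0 ^ 3 + 12 + 11250 * CA, by positivity, ?_⟩
  intro a ha n hn
  have ha0 : 0 < |a| := by linarith
  have hn' : (0:ℝ) < n := by exact_mod_cast hn
  have hq0 : 0 < |a| ^ (-(1 / 4) : ℝ) := Real.rpow_pos_of_pos ha0 _
  rcases lt_or_ge (|a| ^ ((1 / 3 : ℝ))) l0 with h | h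
  · have h1 := ZZ_triv ha n
    refine h1.trans ?_
    apply mul_le_mul_of_nonneg_left _ (by positivity)
    have h2 : |a| ≤ l0 ^ 3 := by
      have h3 := pow_le_pow_left₀ (by positivity) h.le 3
      have h4 : (|a| ^ ((1 / 3 : ℝ))) ^ 3 = |a| := by
        rw [← Real.rpow_natCast, ← Real.rpow_mul ha0.le]
        norm_num
      rwa [h4] at h3
    have h5 : 1 / |a| ≤ |a| ^ (-(1 / 4) : ℝ) := by
      rw [one_div, ← Real.rpow_neg_one]
      exact Real.rpow_le_rpow_of_exponent_le (by linarith) (by norm_num)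
    have h6 : 1 ≤ l0 ^ 3 * |a| ^ (-(1 / 4) : ℝ) := by
      have h7 : 1 ≤ l0 ^ 3 * (1 / |a|) := by
        rw [mul_one_div, le_div_iff₀ ha0, one_mul]
        exact h2
      exact h7.trans (mul_le_mul_of_nonneg_left h5 (by positivity))
    have h8 : 0 ≤ 1 / (n : ℝ) := by positivity
    have h9 : 0 ≤ (4 * l0 ^ 3 + 12 + 11250 * CA) * (1 / (n : ℝ)) := by positivity
    have h10 : 0 ≤ (12 + 11250 * CA) * |a| ^ (-(1 / 4) : ℝ) := by positivity
    nlinarith
  · set L3 : ℝ := |a| ^ ((1 / 3 : ℝ)) with hL3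
    set m : ℕ := ⌊L3⌋₊ with hm
    have hL1 : 1 ≤ L3 := by linarith
    have hm1 : 1 ≤ m := Nat.one_le_floor_iff _ |>.2 hL1
    have hm2 : (m : ℝ) ≤ L3 := Nat.floor_le (by linarith)
    have hm3 : L3 < m + 1 := Nat.lt_floor_add_one L3
    have hm1' : (1:ℝ) ≤ m := by exact_mod_cast hm1
    set ρ : ℝ := (3 * (1 + log |a|)) ^ 2 * (CA * |a| ^ (-(1 / 3) : ℝ)) with hρ
    have hρ0 : 0 ≤ ρ := by positivity
    have hρ1 : ρ ≤ 5625 * CA * |a| ^ (-(1 / 4) : ℝ) := by
      have := mul_le_mul_of_nonneg_left (sq_log_le ha) (by linarith : 0 ≤ CA)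
      calc ρ = CA * ((3 * (1 + log |a|)) ^ 2 * |a| ^ (-(1 / 3) : ℝ)) := by rw [hρ]; ring
        _ ≤ _ := this
        _ = _ := by ring
    set r : ℕ := n % m with hr
    set q : ℕ := n / m with hq
    have hnqr : q * m + r = n := Nat.div_add_mod' n m
    have hrm : r < m := Nat.mod_lt _ (by omega)
    have hr2 : (r : ℝ) ≤ L3 := by
      refine le_trans ?_ hm2
      exact_mod_cast hrm.le
    have h1 := ZZ_mul a m r q
    rw [hnqr] at h1
    have hZm := ZZ_short ha h hm2
    have hZr := ZZ_short ha h hr2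
    have hm0 : (0:ℝ) < m := by linarith
    have h2 : ZZ a m / m ≤ 4 + m * ρ := by
      rw [div_le_iff₀ hm0]
      refine hZm.trans (le_of_eq ?_)
      ring
    have h3 : ZZ a r / r ≤ 4 + r * ρ := by
      rcases Nat.eq_zero_or_pos r with h0 | h0
      · rw [h0, ZZ_zero, zero_div]
        positivity
      · have h0' : (0:ℝ) < r := by exact_mod_cast h0
        rw [div_le_iff₀ h0']
        refine hZr.trans (le_of_eq ?_)
        ring
    have hq0 : (0:ℝ) ≤ q := Nat.cast_nonneg q
    have hqm : (q : ℝ) * m + r = n := by exact_mod_cast hnqr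
    have hr0 : (0:ℝ) ≤ r := Nat.cast_nonneg r
    have h4 : ZZ a n / n ≤ q * (4 + m * ρ) + (4 + r * ρ) := by
      refine h1.trans (add_le_add (mul_le_mul_of_nonneg_left h2 hq0) h3)
    have h5 : q * (4 + m * ρ) + (4 + r * ρ) = 4 * q + 4 + n * ρ := by
      rw [← hqm]
      ring
    have h6 : (q : ℝ) ≤ n / m := by
      rw [le_div_iff₀ hm0]
      linarith
    have h7 : 1 / (m : ℝ) ≤ 2 * |a| ^ (-(1 / 4) : ℝ) := by
      have h8 : L3 ≤ 2 * m := by linarith
      have h9 : 1 / L3 ≤ |a| ^ (-(1 / 4) : ℝ) := by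
        rw [hL3, one_div, ← Real.rpow_neg ha0.le]
        exact Real.rpow_le_rpow_of_exponent_le (by linarith) (by norm_num)
      have h10 : 1 / (m : ℝ) ≤ 2 * (1 / L3) := by
        rw [mul_one_div, div_le_div_iff₀ hm0 (by linarith)]
        linarith
      linarith
    rw [h5, div_le_iff₀ hn'] at h4
    refine h4.trans ?_
    have h8 : (4 * (q : ℝ) + 4 + n * ρ) * n ≤
        n ^ 2 * (8 * |a| ^ (-(1 / 4) : ℝ) + 4 * (1 / n) + 5625 * CA * |a| ^ (-(1 / 4) : ℝ)) := by
      have h11 : (n : ℝ) / m = n * (1 / m) := by ring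
      have h12 : 4 * (q : ℝ) ≤ n * (8 * |a| ^ (-(1 / 4) : ℝ)) := by
        have := mul_le_mul_of_nonneg_left h7 hn'.le
        rw [h11] at h6
        linarith
      have h13 : (n : ℝ) * ρ ≤ n * (5625 * CA * |a| ^ (-(1 / 4) : ℝ)) :=
        mul_le_mul_of_nonneg_left hρ1 hn'.le
      have h14 : (4:ℝ) = n * (4 * (1 / n)) := by field_simp
      calc (4 * (q : ℝ) + 4 + n * ρ) * n ≤ (n * (8 * |a| ^ (-(1 / 4) : ℝ)) + n * (4 * (1 / n)) +
            n * (5625 * CA * |a| ^ (-(1 / 4) : ℝ))) * n := by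
            apply mul_le_mul_of_nonneg_right _ hn'.le
            linarith
        _ = _ := by ring
    refine h8.trans ?_
    apply mul_le_mul_of_nonneg_left _ (by positivity)
    have h15 : 0 ≤ 1 / (n : ℝ) := by positivity
    have h16 : 0 ≤ (4 * l0 ^ 3 + 8 + 11250 * CA) * (1 / (n : ℝ)) := by positivity
    have h17 : 0 ≤ (4 * l0 ^ 3 + 4 + 5625 * CA) * |a| ^ (-(1 / 4) : ℝ) := by positivity
    nlinarith

end Pool.Agent.K7.H81.SM
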