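import Pool.Agent.K7.H81.SMC

set_option autoImplicit false

/-!
# The law of large numbers for the logarithm of the trace, uniformly in time
-/

namespace Pool.Agent.K7.H81.SM

open Real MeasureTheory Function Pool.Agent.TH705.SM Pool.Agent.V1152.SMI
open Pool.Agent.V11103 (ergAv maximal)

/-- averages of the partial sums -/
noncomputable def hB (a : ℝ) (m : ℕ) (p : T2) : ℝ := (∑ i ∈ Finset.range m, SU a i p) / m

theorem hB_cont (a : ℝ) (m : ℕ) : Continuous (hB a m) :=
  (continuous_finsetSum _ fun i _ => SU_cont a i).div_const _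

theorem SU_comm (a : ℝ) (i n : ℕ) (p : T2) :
    SU a n ((S a)^[i] p) = SU a n p + SU a i ((S a)^[n] p) - SU a i p := by
  have h1 := SU_add a i n p
  have h2 := SU_add a n i p
  rw [Nat.add_comm] at h2
  linarith

theorem SU_avg (a : ℝ) {m : ℕ} (hm : 1 ≤ m) (n : ℕ) (p : T2) :
    (∑ j ∈ Finset.range n, SU a m ((S a)^[j] p)) / m =
      SU a n p + hB a m ((S a)^[n] p) - hB a m p := by
  have hm0 : (0:ℝ) < m := by exact_mod_cast hm
  have h1 : ∑ j ∈ Finset.range n, SU a m ((S a)^[j] p) =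
      ∑ i ∈ Finset.range m, SU a n ((S a)^[i] p) := by
    unfold SU
    rw [Finset.sum_comm]
    apply Finset.sum_congr rfl
    intro i _
    apply Finset.sum_congr rfl
    intro j _
    rw [← iterate_add_apply, ← iterate_add_apply, Nat.add_comm]
  rw [h1]
  simp_rw [SU_comm a _ n p]
  rw [Finset.sum_sub_distrib, Finset.sum_add_distrib, Finset.sum_const, Finset.card_range,
    nsmul_eq_mul]
  unfold hB
  field_simp

/-- the second moment of the boundary term -/
theorem hB_sq {a C : ℝ} (ha : 2 ≤ |a|) (hC : 0 < C) (hZ : ∀ n : ℕ, 1 ≤ n →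
    ZZ a n ≤ n ^ 2 * (C * (1 / n + |a| ^ (-(1 / 4) : ℝ)))) {m : ℕ} (hm : 1 ≤ m)
    (hma : (m : ℝ) ≤ |a| ^ ((1 / 4 : ℝ))) : ∫ p, hB a m p ^ 2 ≤ 2 * C * m := by
  have hm0 : (0:ℝ) < m := by exact_mod_cast hm
  have ha0 : 0 < |a| := by linarith
  have hpt : ∀ p : T2, hB a m p ^ 2 ≤ (∑ i ∈ Finset.range m, SU a i p ^ 2) / m := by
    intro p
    unfold hB
    have h := sq_sum_le_card_mul_sum_sq (s := Finset.range m) (f := fun i => SU a i p)
    rw [Finset.card_range] at h
    rw [div_pow, div_le_div_iff₀ (by positivity) hm0]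
    have := mul_le_mul_of_nonneg_right h hm0.le
    nlinarith
  have hint1 : ∀ i ∈ Finset.range m, Integrable fun p : T2 => SU a i p ^ 2 :=
    fun i _ => integrable_cont ((SU_cont a i).pow 2)
  have h1 : ∫ p, hB a m p ^ 2 ≤ (∑ i ∈ Finset.range m, ZZ a i) / m := by
    calc ∫ p, hB a m p ^ 2 ≤ ∫ p, (∑ i ∈ Finset.range m, SU a i p ^ 2) / m :=
          integral_mono (integrable_cont ((hB_cont a m).pow 2))
            ((integrable_finsetSum _ hint1).div_const _) hpt
      _ = _ := by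
          rw [integral_div, integral_finsetSum _ hint1]
          rfl
  refine h1.trans ?_
  rw [div_le_iff₀ hm0]
  have h2 : ∀ i ∈ Finset.range m, ZZ a i ≤ 2 * C * m := by
    intro i hi
    have him : i < m := Finset.mem_range.1 hi
    rcases Nat.eq_zero_or_pos i with h0 | h0
    · subst h0
      rw [ZZ_zero]
      positivity
    · refine (hZ i h0).trans ?_
      have hi0 : (0:ℝ) < i := by exact_mod_cast h0
      have him' : (i:ℝ) ≤ m := by exact_mod_cast him.le
      have e : (i:ℝ) ^ 2 * (C * (1 / i + |a| ^ (-(1 / 4) : ℝ))) =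
          C * i + C * i * (i * |a| ^ (-(1 / 4) : ℝ)) := by
        field_simp
      rw [e]
      have h3 : i * |a| ^ (-(1 / 4) : ℝ) ≤ 1 := by
        calc i * |a| ^ (-(1 / 4) : ℝ) ≤ |a| ^ ((1 / 4 : ℝ)) * |a| ^ (-(1 / 4) : ℝ) :=
              mul_le_mul_of_nonneg_right (him'.trans hma) (Real.rpow_nonneg ha0.le _)
          _ = 1 := by
              rw [← Real.rpow_add ha0]
              norm_num
      have h4 : C * i * (i * |a| ^ (-(1 / 4) : ℝ)) ≤ C * i * 1 :=
        mul_le_mul_of_nonneg_left h3 (by positivity)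
      have h5 : C * i ≤ C * m := mul_le_mul_of_nonneg_left him' hC.le
      linarith
  refine (Finset.sum_le_sum h2).trans (le_of_eq ?_)
  rw [Finset.sum_const, Finset.card_range, nsmul_eq_mul]
  ring

/-- Chebyshev -/
theorem cheb {f : T2 → ℝ} (hf : Continuous f) {c : ℝ} (hc : 0 < c) :
    volume.real {p | c < |f p|} ≤ (∫ p, f p ^ 2) / c ^ 2 := by
  have h1 := mul_meas_ge_le_integral_of_nonneg (μ := (volume : Measure T2))
    (Filter.Eventually.of_forall fun p => sq_nonneg (f p)) (integrable_cont (hf.pow 2)) (c ^ 2)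
  rw [le_div_iff₀ (by positivity), mul_comm]
  refine le_trans ?_ h1
  apply mul_le_mul_of_nonneg_left _ (by positivity)
  refine measureReal_mono (fun p hp => ?_) (measure_ne_top _ _)
  have hp : c < |f p| := hp
  show c ^ 2 ≤ f p ^ 2
  rw [← sq_abs (f p)]
  exact pow_le_pow_left₀ hc.le hp.le 2

theorem abs_int_le {a : ℝ} {m : ℕ} : ∫ p, |SU a m p| ≤ √(ZZ a m) := by
  apply Real.le_sqrt_of_sq_le
  have hc : Continuous fun p => |SU a m p| := (SU_cont a m).abs
  have hi : Integrable fun p => |SU a m p| := integrable_cont hc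
  set I := ∫ p, |SU a m p| with hI
  have h1 : 0 ≤ ∫ p, (|SU a m p| - I) ^ 2 := integral_nonneg fun _ => sq_nonneg _
  have h2 : ∀ p, (|SU a m p| - I) ^ 2 = SU a m p ^ 2 - 2 * I * |SU a m p| + I ^ 2 := by
    intro p
    rw [← sq_abs (SU a m p)]
    ring
  simp_rw [h2] at h1
  have i1 : Integrable fun p => SU a m p ^ 2 := integrable_cont ((SU_cont a m).pow 2)
  have i2 : Integrable fun p => 2 * I * |SU a m p| := hi.const_mul _
  have i3 : Integrable fun p => SU a m p ^ 2 - 2 * I * |SU a m p| := i1.sub i2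
  rw [integral_add i3 (integrable_const _), integral_sub i1 i2, integral_const_mul,
    ← hI, integral_const, probReal_univ, smul_eq_mul, one_mul] at h1
  have h3 : ∫ p, SU a m p ^ 2 = ZZ a m := rfl
  rw [h3] at h1
  nlinarith

theorem sum_inv_sq {n N : ℕ} (hn : 1 ≤ n) :
    ∑ k ∈ Finset.Icc n N, 1 / (k : ℝ) ^ 2 ≤ 2 / (n : ℝ) := by
  have hn0 : (0:ℝ) < n := by exact_mod_cast hn
  have key : ∀ M : ℕ, ∑ k ∈ Finset.Icc n (n + M), 1 / (k : ℝ) ^ 2 ≤
      2 / (n : ℝ) - 1 / ((n + M : ℕ) : ℝ) := by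
    intro M
    induction M with
    | zero =>
      simp only [Nat.add_zero, Finset.Icc_self, Finset.sum_singleton]
      have h1 : 1 / (n : ℝ) ^ 2 ≤ 1 / n := by
        apply one_div_le_one_div_of_le hn0
        have : (1:ℝ) ≤ n := by exact_mod_cast hn
        nlinarith
      have h2 : 2 / (n : ℝ) = 2 * (1 / n) := by ring
      rw [h2]
      linarith
    | succ M ih =>
      have e : n + (M + 1) = (n + M) + 1 := by ring
      rw [e, Finset.sum_Icc_succ_top (by omega)]
      have hx : (0:ℝ) < ((n + M : ℕ) : ℝ) := by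
        push_cast
        positivity
      have h1 : 1 / (((n + M) + 1 : ℕ) : ℝ) ^ 2 ≤
          1 / ((n + M : ℕ) : ℝ) - 1 / (((n + M) + 1 : ℕ) : ℝ) := by
        push_cast at hx ⊢
        rw [div_sub_div _ _ hx.ne' (by positivity), div_le_div_iff₀ (by positivity) (by positivity)]
        nlinarith
      linarith
  rcases Nat.lt_or_ge N n with h | h
  · rw [Finset.Icc_eq_empty (by omega), Finset.sum_empty]
    positivity
  · obtain ⟨M, rfl⟩ := Nat.exists_eq_add_of_le h
    refine (key M).trans ?_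
    have : (0:ℝ) ≤ 1 / ((n + M : ℕ) : ℝ) := by positivity
    linarith

/-- **the sums are small, uniformly in time** -/
theorem SU_unif : ∃ C : ℝ, 0 < C ∧ ∀ a : ℝ, 2 ≤ |a| → ∀ n N : ℕ, 1 ≤ n → ∀ ε : ℝ, 0 < ε → ε ≤ 1 →
    volume.real {p : T2 | ∃ k, n ≤ k ∧ k ≤ N ∧ ε * k < |SU a k p|} ≤
      C * (((n : ℝ) ^ (-(1 / 3) : ℝ) + |a| ^ (-(1 / 8) : ℝ)) / ε ^ 2) := by
  obtain ⟨C, hC, hZ⟩ := ZZ_all
  refine ⟨2 * √(3 * C) + 96 * C, by positivity, ?_⟩
  intro a ha n N hn ε hε hε1
  have ha0 : 0 < |a| := by linarith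
  have hn0 : (0:ℝ) < n := by exact_mod_cast hn
  have hn1 : (1:ℝ) ≤ n := by exact_mod_cast hn
  set b : ℝ := min ((n : ℝ) ^ ((2 / 3 : ℝ))) (|a| ^ ((1 / 4 : ℝ))) with hb
  have hb1 : 1 ≤ b := le_min (Real.one_le_rpow hn1 (by norm_num))
    (Real.one_le_rpow (by linarith) (by norm_num))
  set m : ℕ := ⌊b⌋₊ with hm
  have hm1 : 1 ≤ m := Nat.one_le_floor_iff _ |>.2 hb1
  have hmb : (m : ℝ) ≤ b := Nat.floor_le (by linarith)
  have hmb2 : b < m + 1 := Nat.lt_floor_add_one b
  have hm1' : (1:ℝ) ≤ m := by exact_mod_cast hm1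
  have hm0 : (0:ℝ) < m := by linarith
  have hmn : (m : ℝ) ≤ (n : ℝ) ^ ((2 / 3 : ℝ)) := hmb.trans (min_le_left _ _)
  have hma : (m : ℝ) ≤ |a| ^ ((1 / 4 : ℝ)) := hmb.trans (min_le_right _ _)
  set u : ℝ := (n : ℝ) ^ (-(1 / 3) : ℝ) with hu
  set v : ℝ := |a| ^ (-(1 / 8) : ℝ) with hv
  have hu0 : 0 < u := Real.rpow_pos_of_pos hn0 _
  have hv0 : 0 < v := Real.rpow_pos_of_pos ha0 _
  have hu2 : u ^ 2 = (n : ℝ) ^ (-(2 / 3) : ℝ) := by
    rw [hu, ← Real.rpow_natCast, ← Real.rpow_mul hn0.le]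
    norm_num
  have hv2 : v ^ 2 = |a| ^ (-(1 / 4) : ℝ) := by
    rw [hv, ← Real.rpow_natCast, ← Real.rpow_mul ha0.le]
    norm_num
  -- inverse of the length of the window
  have hinv : 1 / (m : ℝ) ≤ 2 * (u ^ 2 + v ^ 2) := by
    have h1 : 1 / (m : ℝ) ≤ 2 * (1 / b) := by
      rw [mul_one_div, div_le_div_iff₀ hm0 (by linarith)]
      linarith
    have h2 : 1 / b ≤ u ^ 2 + v ^ 2 := by
      rcases min_choice ((n : ℝ) ^ ((2 / 3 : ℝ))) (|a| ^ ((1 / 4 : ℝ))) with h | h
      · rw [hb, h, hu2, one_div, ← Real.rpow_neg hn0.le]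
        have := sq_nonneg v
        linarith
      · rw [hb, h, hv2, one_div, ← Real.rpow_neg ha0.le]
        have := sq_nonneg u
        linarith
    linarith
  have hZm := hZ a ha m hm1
  rw [← hv2] at hZm
  have hsq : √(ZZ a m) / m ≤ √(3 * C) * (u + v) := by
    rw [div_le_iff₀ hm0]
    apply Real.sqrt_le_iff.2
    refine ⟨by positivity, hZm.trans ?_⟩
    rw [mul_pow, mul_pow, Real.sq_sqrt (by positivity)]
    have h1 : 1 / (m : ℝ) + v ^ 2 ≤ 3 * (u + v) ^ 2 := by
      have h2 : 0 ≤ u * v := by positivity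
      nlinarith [sq_nonneg u, sq_nonneg v]
    calc (m : ℝ) ^ 2 * (C * (1 / m + v ^ 2)) ≤ (m : ℝ) ^ 2 * (C * (3 * (u + v) ^ 2)) := by
          gcongr
      _ = _ := by ring
  -- the boundary term
  have hBs := hB_sq ha hC (hZ a ha) hm1 hma
  have hmn3 : (m : ℝ) / n ≤ u := by
    rw [div_le_iff₀ hn0, hu]
    refine hmn.trans (le_of_eq ?_)
    have : (n : ℝ) ^ (-(1 / 3) : ℝ) * n = (n : ℝ) ^ (-(1 / 3) : ℝ) * (n : ℝ) ^ (1 : ℝ) := by
      rw [Real.rpow_one]
    rw [this, ← Real.rpow_add hn0]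
    norm_num
  -- inclusion
  have hsub : {p : T2 | ∃ k, n ≤ k ∧ k ≤ N ∧ ε * k < |SU a k p|} ⊆
      {p | ∃ k, ε / 2 < ergAv (S a) (fun q => |SU a m q| / m) k p} ∪
      ((⋃ k ∈ Finset.Icc n N, (S a)^[k] ⁻¹' {p | ε * k / 4 < |hB a m p|}) ∪
      {p | ε * n / 4 < |hB a m p|}) := by
    rintro p ⟨k, hk1, hk2, hk3⟩
    by_cases h1 : ε / 2 < ergAv (S a) (fun q => |SU a m q| / m) k p
    · exact Or.inl ⟨k, h1⟩
    by_cases h2 : ε * k / 4 < |hB a m ((S a)^[k] p)|
    · right
      left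
      rw [Set.mem_iUnion₂]
      exact ⟨k, Finset.mem_Icc.2 ⟨hk1, hk2⟩, h2⟩
    by_cases h3 : ε * n / 4 < |hB a m p|
    · exact Or.inr (Or.inr h3)
    exfalso
    have h1 := not_lt.1 h1
    have h2 := not_lt.1 h2
    have h3 := not_lt.1 h3
    have hk0 : (0:ℝ) < k := by
      have : (n:ℝ) ≤ k := by exact_mod_cast hk1
      linarith
    have hnk : (n:ℝ) ≤ k := by exact_mod_cast hk1
    have h4 := SU_avg a hm1 k p
    have h5 : SU a k p = (∑ j ∈ Finset.range k, SU a m ((S a)^[j] p)) / m -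
        hB a m ((S a)^[k] p) + hB a m p := by linarith
    have h6 : |SU a k p| ≤ |(∑ j ∈ Finset.range k, SU a m ((S a)^[j] p)) / m| +
        |hB a m ((S a)^[k] p)| + |hB a m p| := by
      rw [h5]
      refine (abs_add_le _ _).trans (add_le_add (abs_sub _ _) le_rfl)
    have h7 : |(∑ j ∈ Finset.range k, SU a m ((S a)^[j] p)) / m| ≤ ε / 2 * k := by
      unfold ergAv at h1
      rw [one_div, ← div_eq_inv_mul, div_le_iff₀ hk0] at h1
      refine le_trans ?_ h1
      rw [Finset.sum_div]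
      refine (Finset.abs_sum_le_sum_abs _ _).trans (Finset.sum_le_sum fun j _ => ?_)
      rw [abs_div, abs_of_pos hm0]
    have h8 : ε * n / 4 ≤ ε * k / 4 := by gcongr
    linarith
  have hmeasSU : Measurable fun q => |SU a m q| / m := ((SU_cont a m).abs.div_const _).measurable
  have hmax := maximal (S_mp a) (f := fun q => |SU a m q| / m) hmeasSU
    (integrable_cont ((SU_cont a m).abs.div_const _)) (c := ε / 2) (by positivity)
  have hmax' : volume.real {p | ∃ k, ε / 2 < ergAv (S a) (fun q => |SU a m q| / m) k p} ≤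
      2 * √(3 * C) * (u + v) / ε := by
    refine (ENNReal.toReal_le_of_le_ofReal (by positivity) hmax).trans ?_
    have h1 : ∫ q, |(|SU a m q| / m)| = (∫ q, |SU a m q|) / m := by
      rw [← integral_div]
      apply integral_congr_ae
      refine Filter.Eventually.of_forall fun q => ?_
      show |(|SU a m q| / m)| = |SU a m q| / m
      rw [abs_of_nonneg (by positivity)]
    rw [h1]
    have h2 : (∫ q, |SU a m q|) / m ≤ √(3 * C) * (u + v) :=
      (div_le_div_of_nonneg_right abs_int_le hm0.le).trans hsq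
    calc (∫ q, |SU a m q|) / m / (ε / 2) ≤ √(3 * C) * (u + v) / (ε / 2) :=
          div_le_div_of_nonneg_right h2 (by positivity)
      _ = _ := by field_simp
  have hb3 : ∀ k : ℕ, n ≤ k → volume.real {p | ε * k / 4 < |hB a m p|} ≤
      32 * C * m / ε ^ 2 * (1 / (k : ℝ) ^ 2) := by
    intro k hk
    have hk0 : (0:ℝ) < k := by
      have : (n:ℝ) ≤ k := by exact_mod_cast hk
      linarith
    refine (cheb (hB_cont a m) (by positivity)).trans ?_
    calc (∫ p, hB a m p ^ 2) / (ε * k / 4) ^ 2 ≤ 2 * C * m / (ε * k / 4) ^ 2 :=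
          div_le_div_of_nonneg_right hBs (by positivity)
      _ = _ := by
          field_simp
          ring
  have hmB : ∀ k : ℕ, MeasurableSet {p | ε * k / 4 < |hB a m p|} := fun k =>
    (isOpen_lt continuous_const (hB_cont a m).abs).measurableSet
  refine (measureReal_mono hsub).trans ((measureReal_union_le _ _).trans ?_)
  have h2 : volume.real ((⋃ k ∈ Finset.Icc n N, (S a)^[k] ⁻¹' {p | ε * k / 4 < |hB a m p|}) ∪
      {p | ε * n / 4 < |hB a m p|}) ≤ 96 * C * u / ε ^ 2 := by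
    refine (measureReal_union_le _ _).trans ?_
    have h3 : volume.real (⋃ k ∈ Finset.Icc n N, (S a)^[k] ⁻¹' {p | ε * k / 4 < |hB a m p|}) ≤
        32 * C * m / ε ^ 2 * (2 / n) := by
      refine (measureReal_biUnion_finset_le _ _).trans ?_
      calc _ ≤ ∑ k ∈ Finset.Icc n N, 32 * C * m / ε ^ 2 * (1 / (k : ℝ) ^ 2) := by
            apply Finset.sum_le_sum
            intro k hk
            rw [(iter_mp a k).measureReal_preimage (hmB k).nullMeasurableSet]
            exact hb3 k (Finset.mem_Icc.1 hk).1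
        _ = 32 * C * m / ε ^ 2 * ∑ k ∈ Finset.Icc n N, 1 / (k : ℝ) ^ 2 := by
            rw [Finset.mul_sum]
        _ ≤ _ := mul_le_mul_of_nonneg_left (sum_inv_sq hn) (by positivity)
    have h4 := hb3 n le_rfl
    have h5 : 32 * C * m / ε ^ 2 * (1 / (n : ℝ) ^ 2) ≤ 32 * C * m / ε ^ 2 * (1 / n) := by
      apply mul_le_mul_of_nonneg_left _ (by positivity)
      apply one_div_le_one_div_of_le hn0
      nlinarith
    have h6 : 32 * C * m / ε ^ 2 * (2 / n) + 32 * C * m / ε ^ 2 * (1 / n) =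
        96 * C / ε ^ 2 * (m / n) := by
      field_simp
      ring
    have h7 : 96 * C / ε ^ 2 * (m / n) ≤ 96 * C / ε ^ 2 * u :=
      mul_le_mul_of_nonneg_left hmn3 (by positivity)
    have h8 : 96 * C / ε ^ 2 * u = 96 * C * u / ε ^ 2 := by ring
    linarith
  have h9 : 2 * √(3 * C) * (u + v) / ε ≤ 2 * √(3 * C) * (u + v) / ε ^ 2 := by
    apply div_le_div_of_nonneg_left (by positivity) (by positivity)
    nlinarith
  have h10 : 96 * C * u / ε ^ 2 ≤ 96 * C * (u + v) / ε ^ 2 := by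
    apply div_le_div_of_nonneg_right _ (by positivity)
    have : 0 ≤ 96 * C * v := by positivity
    linarith
  calc _ ≤ 2 * √(3 * C) * (u + v) / ε ^ 2 + 96 * C * (u + v) / ε ^ 2 := by
        exact add_le_add (hmax'.trans h9) (h2.trans h10)
    _ = _ := by ring

/-- the error in one step -/
noncomputable def eg (a : ℝ) (p : T2) : ℝ := er a p.1 + er2 a (S a p)

theorem eg_facts {a : ℝ} (ha : 2 ≤ |a|) : Measurable (eg a) ∧ Integrable (eg a) ∧
    (∀ p, 0 ≤ eg a p) ∧ ∫ p, eg a p ≤ 40 * |a| ^ (-(1 / 4) : ℝ) := by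
  have ha0 : 0 < |a| := by linarith
  obtain ⟨m1, k1, i1⟩ := er_facts ha
  obtain ⟨m2, k2, i2⟩ := er2_facts ha
  have hlog : 0 ≤ log |a| := Real.log_nonneg (by linarith)
  have f1 := int_fst (a := a) 0 m1 k1
  have f2 := int_iter (a := a) 1 m2 k2
  have j1 : Integrable fun p : T2 => er a p.1 := f1.1
  have j2 : Integrable fun p : T2 => er2 a (S a p) := f2.1
  refine ⟨?_, ?_, ?_, ?_⟩
  · exact (m1.comp measurable_fst).add (m2.comp (S_cont a).measurable)
  · exact j1.add j2
  · intro p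
    exact add_nonneg (er_nonneg ha _) (er2_nonneg a _)
  · have h1 : ∫ p, eg a p = (∫ x, er a x) + ∫ p, er2 a p := by
      unfold eg
      rw [integral_add j1 j2]
      congr 1
      · exact f1.2
      · exact f2.2
    rw [h1]
    set q : ℝ := |a| ^ (-(1 / 4) : ℝ) with hq
    have hq0 : 0 < q := Real.rpow_pos_of_pos ha0 _
    have hl : log |a| ≤ 4 * |a| ^ ((1 / 4 : ℝ)) := by
      have := Real.log_le_rpow_div ha0.le (show (0:ℝ) < 1 / 4 by norm_num)
      linarith
    have e1 : log |a| / √|a| ≤ 4 * q := by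
      rw [Real.sqrt_eq_rpow, div_le_iff₀ (Real.rpow_pos_of_pos ha0 _), hq, mul_assoc,
        ← Real.rpow_add ha0]
      norm_num at hl ⊢
      exact hl
    have hqa : 1 / |a| ≤ q := by
      rw [hq, one_div, ← Real.rpow_neg_one]
      exact Real.rpow_le_rpow_of_exponent_le (by linarith) (by norm_num)
    have e2 : log |a| / |a| ≤ 4 * q := by
      refine le_trans ?_ e1
      apply div_le_div_of_nonneg_left hlog (by positivity)
      rw [Real.sqrt_le_left ha0.le]
      nlinarith
    have t1 : 3 / 2 * log |a| / √|a| = 3 / 2 * (log |a| / √|a|) := by ring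
    have t2 : 1 / (2 * |a|) = 1 / |a| / 2 := by field_simp
    have t3 : 6 * log |a| / |a| = 6 * (log |a| / |a|) := by ring
    have t4 : 3 / |a| = 3 * (1 / |a|) := by ring
    rw [t1, t2] at i1
    rw [t3, t4] at i2
    linarith

theorem Er_eg {a : ℝ} (m : ℕ) (p : T2) :
    Er a m p ≤ ∑ j ∈ Finset.range (m + 1), eg a ((S a)^[j] p) := by
  unfold Er eg
  rw [Finset.sum_add_distrib]
  have h1 : ∑ j ∈ Finset.range m, er2 a ((S a)^[j + 1] p) ≤
      ∑ j ∈ Finset.range (m + 1), er2 a (S a ((S a)^[j] p)) := by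
    rw [Finset.sum_range_succ]
    have e : ∀ j, er2 a (S a ((S a)^[j] p)) = er2 a ((S a)^[j + 1] p) := by
      intro j
      rw [iterate_succ_apply']
    simp_rw [e]
    have := er2_nonneg a ((S a)^[m + 1] p)
    linarith
  linarith

theorem Gd_mono {a : ℝ} {m n : ℕ} (h : m ≤ n) {p : T2} (hg : Gd a n p) : Gd a m p :=
  ⟨hg.1, fun j hj => hg.2 j (by omega)⟩

/-- the set of points with a bad exponent at some time in a window, on the torus -/
theorem main_torus : ∃ C : ℝ, 0 < C ∧ ∀ a : ℝ, 2 ≤ |a| → ∀ n N : ℕ, 1 ≤ n → ∀ ε : ℝ, 0 < ε →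
    ε ≤ 1 → ∃ B : Set T2, MeasurableSet B ∧
      volume B ≤ ENNReal.ofReal (C * (((n : ℝ) ^ (-(1 / 3) : ℝ) + |a| ^ (-(1 / 8) : ℝ)) / ε ^ 2 +
        N * log |a| / |a| ^ 2)) ∧
      ∀ x y : ℝ, ((x : UnitAddCircle), (y : UnitAddCircle)) ∉ B → ∀ k, n ≤ k → k ≤ N →
        |log ‖fderiv ℝ (pm a)^[k] (x, y)‖ / k - log (π * |a|)| ≤ ε := by
  obtain ⟨C, hC, hSU⟩ := SU_unif
  refine ⟨9 * C + 124 + 480, by positivity, ?_⟩
  intro a ha n N hn ε hε hε1
  have ha0 : 0 < |a| := by linarith
  have hn0 : (0:ℝ) < n := by exact_mod_cast hn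
  have hn1 : (1:ℝ) ≤ n := by exact_mod_cast hn
  have hlog : 1 / 2 ≤ log |a| := log_two_half.trans (Real.log_le_log (by norm_num) ha)
  set u : ℝ := (n : ℝ) ^ (-(1 / 3) : ℝ) with hu
  set v : ℝ := |a| ^ (-(1 / 8) : ℝ) with hv
  have hu0 : 0 < u := Real.rpow_pos_of_pos hn0 _
  have hv0 : 0 < v := Real.rpow_pos_of_pos ha0 _
  have hun : 1 / (n : ℝ) ≤ u := by
    rw [hu, one_div, ← Real.rpow_neg_one]
    exact Real.rpow_le_rpow_of_exponent_le hn1 (by norm_num)
  have hva : 1 / |a| ≤ v := by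
    rw [hv, one_div, ← Real.rpow_neg_one]
    exact Real.rpow_le_rpow_of_exponent_le (by linarith) (by norm_num)
  have hN0 : 0 ≤ N * log |a| / |a| ^ 2 := by positivity
  by_cases hcase : ε / 3 ≤ 1 / (n : ℝ) + 1 / |a|
  · refine ⟨Set.univ, MeasurableSet.univ, ?_, fun x y h => absurd (Set.mem_univ _) h⟩
    rw [measure_univ, ← ENNReal.ofReal_one]
    apply ENNReal.ofReal_le_ofReal
    have h1 : ε / 3 ≤ u + v := by linarith
    have h2 : 1 ≤ 3 * ((u + v) / ε ^ 2) := by
      rw [← mul_div_assoc, le_div_iff₀ (by positivity)]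
      nlinarith
    have h3 : 0 ≤ (u + v) / ε ^ 2 := by positivity
    nlinarith
  · have hcase := not_le.1 hcase
    obtain ⟨g1, g2, g3, g4⟩ := eg_facts ha
    have hmax := maximal (S_mp a) (f := eg a) g1 g2 (c := ε / 3) (by positivity)
    have hmax' : volume.real {p | ∃ k, ε / 3 < ergAv (S a) (eg a) k p} ≤
        120 * v / ε ^ 2 := by
      refine (ENNReal.toReal_le_of_le_ofReal (by
        have h0 : 0 ≤ ∫ p, |eg a p| := integral_nonneg fun p => abs_nonneg (eg a p)
        positivity) hmax).trans ?_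
      have h1 : ∫ q, |eg a q| = ∫ q, eg a q := by
        apply integral_congr_ae
        refine Filter.Eventually.of_forall fun q => ?_
        exact abs_of_nonneg (g3 q)
      rw [h1]
      have h2 : |a| ^ (-(1 / 4) : ℝ) ≤ v := by
        rw [hv]
        exact Real.rpow_le_rpow_of_exponent_le (by linarith) (by norm_num)
      calc (∫ q, eg a q) / (ε / 3) ≤ 40 * v / (ε / 3) := by
            apply div_le_div_of_nonneg_right _ (by positivity)
            linarith
        _ = 120 * v / ε := by ring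
        _ ≤ _ := by
            apply div_le_div_of_nonneg_left (by positivity) (by positivity)
            nlinarith
    have hS := hSU a ha n N hn (ε / 3) (by positivity) (by linarith)
    set B1 : Set T2 := {p | ∃ k, ε / 3 < ergAv (S a) (eg a) k p} with hB1
    set B2 : Set T2 := {p : T2 | ∃ k, n ≤ k ∧ k ≤ N ∧ ε / 3 * k < |SU a k p|} with hB2
    set B3 : Set T2 := {p : T2 | ¬ Gd a N p} with hB3
    refine ⟨toMeasurable volume (B1 ∪ (B2 ∪ B3)), measurableSet_toMeasurable _ _, ?_, ?_⟩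
    · rw [measure_toMeasurable]
      have hbad := bad_le ha N
      have h1 : volume.real (B1 ∪ (B2 ∪ B3)) ≤ 120 * v / ε ^ 2 +
          (C * ((u + v) / (ε / 3) ^ 2) + (1 / |a| + N * (480 * log |a| / |a| ^ 2))) :=
        (measureReal_union_le _ _).trans (add_le_add hmax' ((measureReal_union_le _ _).trans
          (add_le_add hS hbad)))
      rw [← ofReal_measureReal]
      apply ENNReal.ofReal_le_ofReal
      refine h1.trans ?_
      have e1 : C * ((u + v) / (ε / 3) ^ 2) = 9 * C * ((u + v) / ε ^ 2) := by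
        field_simp
        ring
      have e2 : (N : ℝ) * (480 * log |a| / |a| ^ 2) = 480 * (N * log |a| / |a| ^ 2) := by ring
      have e3 : 120 * v / ε ^ 2 ≤ 120 * ((u + v) / ε ^ 2) := by
        rw [mul_div_assoc]
        gcongr
        linarith
      have e4 : 1 / |a| ≤ (u + v) / ε ^ 2 := by
        rw [le_div_iff₀ (by positivity)]
        have : ε ^ 2 ≤ 1 := by nlinarith
        have h5 : 0 ≤ 1 / |a| := by positivity
        nlinarith
      have e5 : 0 ≤ (u + v) / ε ^ 2 := by positivity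
      rw [e1, e2]
      nlinarith
    · intro x y hxy k hk1 hk2
      set p : T2 := ((x : UnitAddCircle), (y : UnitAddCircle)) with hp
      have hnot : p ∉ B1 ∪ (B2 ∪ B3) := fun h => hxy (subset_toMeasurable _ _ h)
      rw [Set.mem_union, Set.mem_union, not_or, not_or] at hnot
      obtain ⟨c1, c2, c3⟩ := hnot
      have c3' : Gd a N p := by
        by_contra h
        exact c3 h
      have hk0 : (0:ℝ) < k := by
        have : (n:ℝ) ≤ k := by exact_mod_cast hk1
        linarith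
      have hnk : (n:ℝ) ≤ k := by exact_mod_cast hk1
      obtain ⟨m, rfl⟩ : ∃ m, k = m + 1 := ⟨k - 1, by omega⟩
      have hgd : Gd a m p := Gd_mono (by omega) c3'
      have h1 := norm_log ha x y m hgd
      rw [← hp] at h1
      have h2 := Er_eg (a := a) m p
      have h3 : ∑ j ∈ Finset.range (m + 1), eg a ((S a)^[j] p) ≤ ε / 3 * (m + 1 : ℕ) := by
        by_contra hcon
        apply c1
        refine ⟨m + 1, ?_⟩
        unfold ergAv
        rw [one_div, ← div_eq_inv_mul, lt_div_iff₀ hk0]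
        exact not_le.1 hcon
      have h4 : |SU a (m + 1) p| ≤ ε / 3 * (m + 1 : ℕ) := by
        by_contra hcon
        exact c2 ⟨m + 1, hk1, hk2, not_le.1 hcon⟩
      have h5 : ∑ j ∈ Finset.range (m + 1), hc a ((S a)^[j] p).1 =
          SU a (m + 1) p + (m + 1 : ℕ) * hmean a := by
        unfold SU uc
        rw [Finset.sum_sub_distrib, Finset.sum_const, Finset.card_range, nsmul_eq_mul]
        ring
      have h6 := hmean_near (a := a) (by linarith)
      set K : ℝ := ((m + 1 : ℕ) : ℝ) with hK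
      set F := log ‖fderiv ℝ (pm a)^[m + 1] (x, y)‖ with hF
      rw [h5] at h1
      have h7 : |F - K * log (π * |a|)| ≤ ε * K := by
        have e : F - K * log (π * |a|) = (F - (SU a (m + 1) p + K * hmean a)) + SU a (m + 1) p +
            K * (hmean a - log (π * |a|)) := by ring
        rw [e]
        refine (abs_add_le _ _).trans ?_
        refine (add_le_add (abs_add_le _ _) le_rfl).trans ?_
        have h8 : |K * (hmean a - log (π * |a|))| ≤ K * (1 / |a|) := by
          rw [abs_mul, abs_of_pos hk0, abs_of_nonneg h6.1]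
          exact mul_le_mul_of_nonneg_left h6.2 hk0.le
        have h9 : 1 ≤ 1 / (n : ℝ) * K := by
          rw [one_div, ← div_eq_inv_mul, le_div_iff₀ hn0]
          linarith
        have h10 : K * (1 / (n : ℝ) + 1 / |a|) ≤ K * (ε / 3) :=
          mul_le_mul_of_nonneg_left hcase.le hk0.le
        linarith
      have e : F / K - log (π * |a|) = (F - K * log (π * |a|)) / K := by
        field_simp
      rw [e, abs_div, abs_of_pos hk0, div_le_iff₀ hk0]
      exact h7

end Pool.Agent.K7.H81.SM
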