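import Pool.Agent.K7.H81.FR

set_option autoImplicit false
set_option linter.unusedSectionVars false
set_option linter.unusedVariables false

/-!
# The UMD property on finite spaces
-/

namespace Pool.Agent.K7.H81.FD

open MeasureTheory Set Filter Topology Pool.Agent.R955.FD
open scoped ENNReal

universe u

/-- the inequality defining UMD, with exponent and constant -/
def UMDp (X : Type u) [NormedAddCommGroup X] [NormedSpace ℂ X] (p β : ℝ) : Prop :=
  ∀ (Ω : Type) (m0 : MeasurableSpace Ω) (μ : Measure Ω) (_ : IsProbabilityMeasure μ)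
    (ℱ : Filtration ℕ m0) (M : ℕ → Ω → X), Martingale M ℱ μ → (∀ n, MemLp (M n) (ENNReal.ofReal p) μ) →
    ∀ ε : ℕ → ℝ, (∀ n, ε n = 1 ∨ ε n = -1) → ∀ N : ℕ,
      eLpNorm (fun ω => ε 0 • M 0 ω + ∑ n ∈ Finset.range N, ε (n + 1) • (M (n + 1) ω - M n ω))
        (ENNReal.ofReal p) μ ≤ ENNReal.ofReal β * eLpNorm (M N) (ENNReal.ofReal p) μ

section
variable {X : Type u} [NormedAddCommGroup X] [NormedSpace ℂ X] [CompleteSpace X]

/-- functions on a finite space that are constant on the fibres of a map -/
theorem sm_fib {Ω S : Type} [Fintype Ω] (π : Ω → S) (f : Ω → X)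
    (h : ∀ ω ω', π ω = π ω' → f ω = f ω') :
    @StronglyMeasurable Ω X _ (MeasurableSpace.comap π ⊤) f := by
  letI m : MeasurableSpace Ω := MeasurableSpace.comap π ⊤
  have hm : ∀ x, MeasurableSet (f ⁻¹' {x}) := by
    intro x
    refine ⟨π '' (f ⁻¹' {x}), trivial, ?_⟩
    ext ω
    constructor
    · rintro ⟨ω', h1, h2⟩
      have h3 : f ω' = x := h1
      show f ω = x
      rw [← h3]
      exact (h _ _ h2).symm
    · intro h1
      exact ⟨ω, h1, rfl⟩
  exact (SimpleFunc.mk f hm (Set.toFinite _)).stronglyMeasurable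

/-- **the UMD inequality on finite spaces** -/
theorem umd_fin {p β : ℝ} (hp : 1 < p) (hU : UMDp X p β) {Ω : Type} [Fintype Ω] [Nonempty Ω]
    {S : Type} (π : ℕ → Ω → S) (hπ : ∀ t ω ω', π (t + 1) ω = π (t + 1) ω' → π t ω = π t ω')
    (d : ℕ → Ω → X) (n : ℕ) (hd : ∀ t < n, ∀ ω ω', π (t + 1) ω = π (t + 1) ω' → d t ω = d t ω')
    (τ : ℕ → Ω ≃ Ω) (hτπ : ∀ t < n, ∀ ω, π t (τ t ω) = π t ω)
    (hτd : ∀ t < n, ∀ ω, d t (τ t ω) = -d t ω) (ε : ℕ → ℝ) (hε : ∀ n, ε n = 1 ∨ ε n = -1) :
    ∑ ω, ‖∑ t ∈ Finset.range n, ε t • d t ω‖ₑ ^ p ≤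
      ENNReal.ofReal β ^ p * ∑ ω, ‖∑ t ∈ Finset.range n, d t ω‖ₑ ^ p := by
  classical
  have hp0 : 0 < p := by linarith
  letI m0 : MeasurableSpace Ω := ⊤
  haveI : MeasurableSingletonClass Ω := ⟨fun _ => trivial⟩
  set K : ℝ≥0∞ := (Fintype.card Ω : ℝ≥0∞) with hK
  have hK0 : K ≠ 0 := by
    rw [hK]
    exact_mod_cast Fintype.card_ne_zero
  have hKt : K ≠ ∞ := ENNReal.natCast_ne_top _
  set μ : Measure Ω := K⁻¹ • Measure.count with hμ
  have hμ1 : ∀ ω, μ {ω} = K⁻¹ := by
    intro ω
    rw [hμ, Measure.smul_apply, Measure.count_singleton, smul_eq_mul, mul_one]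
  haveI hprob : IsProbabilityMeasure μ := by
    constructor
    rw [hμ, Measure.smul_apply, Measure.count_univ, smul_eq_mul, ENat.card_eq_coe_fintype_card]
    exact ENNReal.inv_mul_cancel hK0 hKt
  -- the filtration
  have hmono : Monotone fun t => MeasurableSpace.comap (π t) ⊤ := by
    apply monotone_nat_of_le_succ
    intro t s hs
    obtain ⟨B, -, rfl⟩ := hs
    refine ⟨π (t + 1) '' (π t ⁻¹' B), trivial, ?_⟩
    ext ω
    constructor
    · rintro ⟨ω', h1, h2⟩
      show π t ω ∈ B
      rw [← hπ t ω' ω h2]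
      exact h1
    · intro h1
      exact ⟨ω, h1, rfl⟩
  set ℱ : Filtration ℕ m0 := ⟨fun t => MeasurableSpace.comap (π t) ⊤, hmono, fun _ _ _ => trivial⟩
    with hℱ
  have hmeas : ∀ f : Ω → X, StronglyMeasurable f := fun f =>
    (SimpleFunc.mk f (fun _ => trivial) (Set.toFinite _)).stronglyMeasurable
  have hLp : ∀ (f : Ω → X) (q : ℝ≥0∞), MemLp f q μ := by
    intro f q
    obtain ⟨C, hC⟩ : ∃ C : ℝ, ∀ ω, ‖f ω‖ ≤ C := by
      refine ⟨∑ ω, ‖f ω‖, fun ω => ?_⟩
      exact Finset.single_le_sum (f := fun ω => ‖f ω‖) (fun _ _ => norm_nonneg _) (Finset.mem_univ ω)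
    exact MemLp.of_bound (hmeas f).aestronglyMeasurable C (Eventually.of_forall hC)
  have hint : ∀ f : Ω → X, Integrable f μ := fun f => memLp_one_iff_integrable.1 (hLp f 1)
  set d' : ℕ → Ω → X := fun t => if t < n then d t else 0 with hd'
  set M : ℕ → Ω → X := fun t ω => ∑ s ∈ Finset.range t, d' s ω with hM
  have hπm : ∀ s t : ℕ, s ≤ t → ∀ ω ω', π t ω = π t ω' → π s ω = π s ω' := by
    intro s t hst
    induction t, hst using Nat.le_induction with
    | base => exact fun _ _ h => h
    | succ t _ ih => exact fun ω ω' h => ih ω ω' (hπ t ω ω' h)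
  have hd'π : ∀ t ω ω', π (t + 1) ω = π (t + 1) ω' → d' t ω = d' t ω' := by
    intro t ω ω' h
    rw [hd']
    by_cases ht : t < n
    · simp only [if_pos ht]
      exact hd t ht ω ω' h
    · simp only [if_neg ht]
      rfl
  have hmart : Martingale M ℱ μ := by
    apply martingale_nat
    · intro t
      apply sm_fib
      intro ω ω' h
      rw [hM]
      simp only
      apply Finset.sum_congr rfl
      intro s hs
      rw [Finset.mem_range] at hs
      exact hd'π s ω ω' (hπm (s + 1) t hs ω ω' h)
    · intro t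
      exact hint _
    · intro t
      apply ae_eq_condExp_of_forall_setIntegral_eq (ℱ.le t) (hint _)
      · intro s _ _
        exact (hint _).integrableOn
      · intro s hs _
        obtain ⟨B, -, hB⟩ := hs
        have e1 : M (t + 1) = fun ω => M t ω + d' t ω := by
          funext ω
          rw [hM]
          simp only
          rw [Finset.sum_range_succ]
        rw [e1, integral_add (hint _).integrableOn (hint _).integrableOn]
        have h0 : ∫ ω in s, d' t ω ∂μ = 0 := by
          by_cases ht : t < n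
          · have e2 : d' t = d t := by
              rw [hd']
              simp only [if_pos ht]
            have hsm : MeasurableSet s := trivial
            rw [e2, ← integral_indicator hsm, integral_fintype (hint _)]
            have hμr : ∀ ω, μ.real {ω} = (K⁻¹).toReal := by
              intro ω
              rw [Measure.real, hμ1]
            simp_rw [hμr]
            rw [← Finset.smul_sum]
            have h1 : ∑ ω, s.indicator (d t) ω = -∑ ω, s.indicator (d t) ω := by
              conv_lhs => rw [← Equiv.sum_comp (τ t)]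
              rw [← Finset.sum_neg_distrib]
              apply Finset.sum_congr rfl
              intro ω _
              have h2 : τ t ω ∈ s ↔ ω ∈ s := by
                rw [← hB]
                show π t (τ t ω) ∈ B ↔ π t ω ∈ B
                rw [hτπ t ht]
              by_cases h3 : ω ∈ s
              · rw [indicator_of_mem h3, indicator_of_mem (h2.2 h3), hτd t ht]
              · rw [indicator_of_notMem h3, indicator_of_notMem (fun h => h3 (h2.1 h)), neg_zero]
            have h4 : ∑ ω, s.indicator (d t) ω = 0 := by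
              have h5 : (2:ℂ) • ∑ ω, s.indicator (d t) ω = 0 := by
                rw [two_smul]
                nth_rewrite 1 [h1]
                exact neg_add_cancel _
              exact (smul_eq_zero.1 h5).resolve_left (by norm_num)
            rw [h4, smul_zero]
          · have e2 : d' t = 0 := by
              rw [hd']
              simp only [if_neg ht]
            rw [e2]
            simp
        rw [h0, add_zero]
      · apply StronglyMeasurable.aestronglyMeasurable
        apply sm_fib
        intro ω ω' h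
        rw [hM]
        simp only
        apply Finset.sum_congr rfl
        intro s hs
        rw [Finset.mem_range] at hs
        exact hd'π s ω ω' (hπm (s + 1) t hs ω ω' h)
  set ε' : ℕ → ℝ := fun t => if t = 0 then 1 else ε (t - 1) with hε'
  have h1 := hU Ω m0 μ hprob ℱ M hmart (fun t => hLp _ _) ε' (by
    intro t
    rw [hε']
    by_cases ht : t = 0
    · simp only [if_pos ht]
      exact Or.inl trivial
    · simp only [if_neg ht]
      exact hε _) n
  have e3 : ∀ f : Ω → X, eLpNorm f (ENNReal.ofReal p) μ = (K⁻¹ * ∑ ω, ‖f ω‖ₑ ^ p) ^ (1 / p) := by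
    intro f
    rw [eLpNorm_eq_lintegral_rpow_enorm_toReal (by
      rw [Ne, ENNReal.ofReal_eq_zero, not_le]; exact hp0) ENNReal.ofReal_ne_top,
      ENNReal.toReal_ofReal hp0.le, lintegral_fintype]
    simp_rw [hμ1]
    rw [← Finset.sum_mul, mul_comm]
  have e4 : (fun ω => ε' 0 • M 0 ω + ∑ t ∈ Finset.range n, ε' (t + 1) • (M (t + 1) ω - M t ω)) =
      fun ω => ∑ t ∈ Finset.range n, ε t • d t ω := by
    funext ω
    have h2 : M 0 ω = 0 := by
      rw [hM]
      simp
    rw [h2, smul_zero, zero_add]
    apply Finset.sum_congr rfl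
    intro t ht
    rw [Finset.mem_range] at ht
    have h3 : M (t + 1) ω - M t ω = d t ω := by
      rw [hM]
      simp only
      rw [Finset.sum_range_succ, add_sub_cancel_left, hd']
      simp only [if_pos ht]
    rw [h3, hε']
    simp
  have e5 : M n = fun ω => ∑ t ∈ Finset.range n, d t ω := by
    funext ω
    rw [hM]
    simp only
    apply Finset.sum_congr rfl
    intro t ht
    rw [Finset.mem_range] at ht
    rw [hd']
    simp only [if_pos ht]
  rw [e4, e5, e3, e3] at h1
  have h2 := ENNReal.rpow_le_rpow h1 hp0.le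
  rw [ENNReal.mul_rpow_of_nonneg _ _ hp0.le, ← ENNReal.rpow_mul, ← ENNReal.rpow_mul,
    one_div_mul_cancel hp0.ne', ENNReal.rpow_one, ENNReal.rpow_one] at h2
  have hKi0 : K⁻¹ ≠ 0 := ENNReal.inv_ne_zero.2 hKt
  have hKit : K⁻¹ ≠ ∞ := ENNReal.inv_ne_top.2 hK0
  have h3 : K⁻¹ * ∑ ω, ‖∑ t ∈ Finset.range n, ε t • d t ω‖ₑ ^ p ≤
      K⁻¹ * (ENNReal.ofReal β ^ p * ∑ ω, ‖∑ t ∈ Finset.range n, d t ω‖ₑ ^ p) := by
    refine h2.trans (le_of_eq ?_)
    ring
  exact (ENNReal.mul_le_mul_iff_right hKi0 hKit).1 h3

end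

end Pool.Agent.K7.H81.FD
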