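import Pool.Agent.K7.H81.UA

set_option autoImplicit false
set_option linter.unusedSectionVars false
set_option linter.unusedVariables false

/-!
# Decoupling
-/

namespace Pool.Agent.K7.H81.FD

open MeasureTheory Set Filter Topology Pool.Agent.R955.FD
open scoped ENNReal

universe u

theorem sum_two {M : Type*} [AddCommMonoid M] (F : ℕ → M) (N : ℕ) :
    ∑ t ∈ Finset.range (2 * N), F t = ∑ k ∈ Finset.range N, (F (2 * k) + F (2 * k + 1)) := by
  induction N with
  | zero => simp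
  | succ N ih =>
    rw [Finset.sum_range_succ, ← ih, show 2 * (N + 1) = 2 * N + 1 + 1 by ring, Finset.sum_range_succ,
      Finset.sum_range_succ, add_assoc]

section
variable {A : Type} [Fintype A] [AddCommGroup A] [DecidableEq A]

/-- the coordinates of a path -/
def cd {N : ℕ} (k : ℕ) (ω : Fin N → A × A) : A × A := if h : k < N then ω ⟨k, h⟩ else 0

/-- the exchange of the two components of one coordinate -/
def swp {N : ℕ} (k : Fin N) : (Fin N → A × A) ≃ (Fin N → A × A) :=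
  Equiv.piCongrRight fun j => if j = k then Equiv.prodComm A A else Equiv.refl _

theorem swp_self {N : ℕ} (k : Fin N) (ω : Fin N → A × A) : swp k ω k = ((ω k).2, (ω k).1) := by
  show (if k = k then Equiv.prodComm A A else Equiv.refl _) (ω k) = _
  rw [if_pos rfl]
  rfl

theorem swp_other {N : ℕ} {k j : Fin N} (h : j ≠ k) (ω : Fin N → A × A) : swp k ω j = ω j := by
  show (if j = k then Equiv.prodComm A A else Equiv.refl _) (ω j) = _
  rw [if_neg h]
  rfl

/-- translation of one coordinate -/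
def trs {N : ℕ} (k : Fin N) (c : A × A) : (Fin N → A × A) ≃ (Fin N → A × A) :=
  Equiv.addRight (Pi.single k c)

theorem trs_self {N : ℕ} (k : Fin N) (c : A × A) (ω : Fin N → A × A) : trs k c ω k = ω k + c := by
  show (ω + Pi.single k c : Fin N → A × A) k = _
  rw [Pi.add_apply, Pi.single_eq_same]

theorem trs_other {N : ℕ} {k j : Fin N} (h : j ≠ k) (c : A × A) (ω : Fin N → A × A) :
    trs k c ω j = ω j := by
  show (ω + Pi.single k c : Fin N → A × A) j = _
  rw [Pi.add_apply, Pi.single_eq_of_ne h, add_zero]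

variable {X : Type u} [NormedAddCommGroup X] [NormedSpace ℂ X] [CompleteSpace X]

/-- predictable linear coefficients -/
def Prd {N : ℕ} (w : ℕ → (Fin N → A × A) → ℂ →ₗ[ℝ] X) : Prop :=
  ∀ k ω ω', (∀ j : Fin N, j.val < k → (ω j).1 = (ω' j).1) → w k ω = w k ω'

/-- the increments of the decoupling argument -/
noncomputable def dd {N : ℕ} (ξ : A → ℂ) (w : ℕ → (Fin N → A × A) → ℂ →ₗ[ℝ] X) (t : ℕ)
    (ω : Fin N → A × A) : X :=
  if t % 2 = 0 then w (t / 2) ω ((ξ (cd (t / 2) ω).1 + ξ (cd (t / 2) ω).2) / 2)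
  else w (t / 2) ω ((ξ (cd (t / 2) ω).1 - ξ (cd (t / 2) ω).2) / 2)

/-- the signs of the decoupling argument -/
def sg (t : ℕ) : ℝ := if t % 2 = 0 then 1 else -1

theorem dd_plus {N : ℕ} (ξ : A → ℂ) (w : ℕ → (Fin N → A × A) → ℂ →ₗ[ℝ] X) (ω : Fin N → A × A) :
    ∑ t ∈ Finset.range (2 * N), dd ξ w t ω = ∑ k ∈ Finset.range N, w k ω (ξ (cd k ω).1) := by
  rw [sum_two]
  apply Finset.sum_congr rfl
  intro k _
  unfold dd
  have h1 : 2 * k % 2 = 0 := by omega
  have h2 : 2 * k / 2 = k := by omega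
  have h3 : (2 * k + 1) % 2 ≠ 0 := by omega
  have h4 : (2 * k + 1) / 2 = k := by omega
  rw [if_pos h1, if_neg h3, h2, h4, ← map_add]
  congr 1
  ring

theorem dd_minus {N : ℕ} (ξ : A → ℂ) (w : ℕ → (Fin N → A × A) → ℂ →ₗ[ℝ] X) (ω : Fin N → A × A) :
    ∑ t ∈ Finset.range (2 * N), sg t • dd ξ w t ω = ∑ k ∈ Finset.range N, w k ω (ξ (cd k ω).2) := by
  rw [sum_two]
  apply Finset.sum_congr rfl
  intro k _
  unfold dd sg
  have h1 : 2 * k % 2 = 0 := by omega
  have h2 : 2 * k / 2 = k := by omega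
  have h3 : (2 * k + 1) % 2 ≠ 0 := by omega
  have h4 : (2 * k + 1) / 2 = k := by omega
  rw [if_pos h1, if_neg h3, if_pos h1, if_neg h3, h2, h4, one_smul, neg_smul, one_smul, ← map_neg,
    ← map_add]
  congr 1
  ring

/-- the two forms of the decoupling inequality -/
theorem dec {p β : ℝ} (hp : 1 < p) (hU : UMDp X p β) {N : ℕ} {ξ : A → ℂ} {ν : A}
    (hν : ∀ a, ξ (a + ν) = -ξ a) {w : ℕ → (Fin N → A × A) → ℂ →ₗ[ℝ] X} (hw : Prd w)
    (η : ℕ → ℝ) (hη : ∀ n, η n = 1 ∨ η n = -1) :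
    ∑ ω, ‖∑ t ∈ Finset.range (2 * N), sg t • η t • dd ξ w t ω‖ₑ ^ p ≤
      ENNReal.ofReal β ^ p * ∑ ω, ‖∑ t ∈ Finset.range (2 * N), η t • dd ξ w t ω‖ₑ ^ p := by
  classical
  set π : ℕ → (Fin N → A × A) → (Fin N → A × A) × ℂ := fun t ω =>
    (fun j => if j.val < t / 2 then ω j else 0,
      if t % 2 = 1 then ξ (cd (t / 2) ω).1 + ξ (cd (t / 2) ω).2 else 0) with hπ
  have hπ1 : ∀ t ω ω', π t ω = π t ω' → ∀ j : Fin N, j.val < t / 2 → ω j = ω' j := by
    intro t ω ω' h j hj
    have h1 := congrFun (congrArg Prod.fst h) j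
    rw [hπ] at h1
    simp only [if_pos hj] at h1
    exact h1
  have hcd : ∀ (k : ℕ) (ω ω' : Fin N → A × A), (∀ j : Fin N, j.val < k + 1 → ω j = ω' j) →
      cd k ω = cd k ω' := by
    intro k ω ω' h
    unfold cd
    by_cases hk : k < N
    · rw [dif_pos hk, dif_pos hk, h ⟨k, hk⟩ (by simp)]
    · rw [dif_neg hk, dif_neg hk]
  have hcomp : ∀ (k : ℕ) (ω ω' : Fin N → A × A), (∀ j : Fin N, j.val < k → ω j = ω' j) →
      w k ω = w k ω' := by
    intro k ω ω' h
    apply hw
    intro j hj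
    rw [h j hj]
  set τ : ℕ → (Fin N → A × A) ≃ (Fin N → A × A) := fun t =>
    if h : t / 2 < N then (if t % 2 = 0 then trs ⟨t / 2, h⟩ (ν, ν) else swp ⟨t / 2, h⟩)
    else Equiv.refl _ with hτ
  have hτo : ∀ t < 2 * N, ∀ ω : Fin N → A × A, ∀ j : Fin N, j.val ≠ t / 2 → τ t ω j = ω j := by
    intro t ht ω j hj
    have h : t / 2 < N := by omega
    rw [hτ]
    simp only [dif_pos h]
    have hne : j ≠ ⟨t / 2, h⟩ := fun he => hj (congrArg Fin.val he)
    split_ifs
    · exact trs_other hne _ _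
    · exact swp_other hne _
  have hτe : ∀ t < 2 * N, t % 2 = 0 → ∀ ω : Fin N → A × A, cd (t / 2) (τ t ω) = cd (t / 2) ω + (ν, ν) := by
    intro t ht h2 ω
    have h : t / 2 < N := by omega
    unfold cd
    rw [dif_pos h, dif_pos h, hτ]
    simp only [dif_pos h, if_pos h2]
    exact trs_self _ _ _
  have hτd : ∀ t < 2 * N, ¬ t % 2 = 0 → ∀ ω : Fin N → A × A, cd (t / 2) (τ t ω) =
      ((cd (t / 2) ω).2, (cd (t / 2) ω).1) := by
    intro t ht h2 ω
    have h : t / 2 < N := by omega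
    unfold cd
    rw [dif_pos h, dif_pos h, hτ]
    simp only [dif_pos h, if_neg h2]
    exact swp_self _ _
  apply umd_fin hp hU π _ (fun t ω => η t • dd ξ w t ω) (2 * N) _ τ
  · intro t ht ω
    rw [hπ]
    simp only
    congr 1
    · funext j
      by_cases hj : j.val < t / 2
      · rw [if_pos hj, if_pos hj, hτo t ht ω j (by omega)]
      · rw [if_neg hj, if_neg hj]
    · by_cases h2 : t % 2 = 1
      · rw [if_pos h2, if_pos h2, hτd t ht (by omega)]
        simp only
        ring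
      · rw [if_neg h2, if_neg h2]
  · intro t ht ω
    have hwe : w (t / 2) (τ t ω) = w (t / 2) ω := by
      apply hcomp
      intro j hj
      exact hτo t ht ω j (by omega)
    rw [← smul_neg]
    congr 1
    unfold dd
    by_cases h2 : t % 2 = 0
    · rw [if_pos h2, if_pos h2, hwe, hτe t ht h2, ← map_neg]
      congr 1
      rw [Prod.fst_add, Prod.snd_add, hν, hν]
      ring
    · rw [if_neg h2, if_neg h2, hwe, hτd t ht h2, ← map_neg]
      congr 1
      ring
  · intro t
    unfold sg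
    split_ifs
    · exact Or.inl rfl
    · exact Or.inr rfl
  · intro t ω ω' h
    have h1 := hπ1 (t + 1) ω ω' h
    rw [hπ]
    simp only
    congr 1
    · funext j
      by_cases hj : j.val < t / 2
      · rw [if_pos hj, if_pos hj, h1 j (by omega)]
      · rw [if_neg hj, if_neg hj]
    · by_cases h2 : t % 2 = 1
      · rw [if_pos h2, if_pos h2, hcd (t / 2) ω ω' fun j hj => h1 j (by omega)]
      · rw [if_neg h2, if_neg h2]
  · intro t ht ω ω' h
    have h1 := hπ1 (t + 1) ω ω' h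
    congr 1
    unfold dd
    by_cases h2 : t % 2 = 0
    · rw [if_pos h2, if_pos h2, hcomp (t / 2) ω ω' fun j hj => h1 j (by omega)]
      congr 2
      have h3 := congrArg Prod.snd h
      rw [hπ] at h3
      simp only at h3
      have h4 : (t + 1) % 2 = 1 := by omega
      have h5 : (t + 1) / 2 = t / 2 := by omega
      rw [if_pos h4, if_pos h4, h5] at h3
      exact h3
    · rw [if_neg h2, if_neg h2, hcomp (t / 2) ω ω' fun j hj => h1 j (by omega),
        hcd (t / 2) ω ω' fun j hj => h1 j (by omega)]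

/-- **the rotation inequality** -/
theorem rot_ineq {p β : ℝ} (hp : 1 < p) (hU : UMDp X p β) {N : ℕ} {ξ : A → ℂ} {ν ρ : A}
    (hν : ∀ a, ξ (a + ν) = -ξ a) (hρ : ∀ a, ξ (a + ρ) = Complex.I * ξ a)
    {w : ℕ → (Fin N → A × A) → ℂ →ₗ[ℝ] X} (hw : Prd w) :
    ∑ ω, ‖∑ k ∈ Finset.range N, w k ω (Complex.I * ξ (cd k ω).1)‖ₑ ^ p ≤
      ENNReal.ofReal β ^ p * (ENNReal.ofReal β ^ p *
        ∑ ω, ‖∑ k ∈ Finset.range N, w k ω (ξ (cd k ω).1)‖ₑ ^ p) := by
  classical
  set w' : ℕ → (Fin N → A × A) → ℂ →ₗ[ℝ] X := fun k ω =>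
    (w k ω).comp (LinearMap.mulLeft ℝ Complex.I) with hw'
  have hw'P : Prd w' := by
    intro k ω ω' h
    rw [hw']
    simp only
    rw [hw k ω ω' h]
  have hw'a : ∀ k ω h, w' k ω h = w k ω (Complex.I * h) := fun _ _ _ => rfl
  -- first inequality: from `a` to `b`
  have h1 := dec hp hU hν hw (fun _ => 1) (fun _ => Or.inl rfl)
  simp_rw [one_smul] at h1
  simp_rw [dd_plus, dd_minus] at h1
  -- second inequality: from `b` to `a`, for the rotated coefficients
  have h2 := dec hp hU hν hw'P sg (by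
    intro t
    unfold sg
    split_ifs
    · exact Or.inl rfl
    · exact Or.inr rfl)
  have e1 : ∀ t : ℕ, ∀ x : X, sg t • sg t • x = x := by
    intro t x
    rw [smul_smul]
    unfold sg
    split_ifs
    · rw [one_mul, one_smul]
    · rw [neg_mul_neg, one_mul, one_smul]
  simp_rw [e1] at h2
  simp_rw [dd_plus, dd_minus] at h2
  simp_rw [hw'a] at h2
  refine h2.trans ?_
  gcongr
  refine le_trans (le_of_eq ?_) h1
  -- rotation of the second components
  set R : (Fin N → A × A) ≃ (Fin N → A × A) := Equiv.addRight fun _ => ((0 : A), ρ) with hR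
  rw [← Equiv.sum_comp R fun ω => ‖∑ k ∈ Finset.range N, w k ω (ξ (cd k ω).2)‖ₑ ^ p]
  apply Finset.sum_congr rfl
  intro ω _
  congr 2
  apply Finset.sum_congr rfl
  intro k hk
  rw [Finset.mem_range] at hk
  have e2 : w k (R ω) = w k ω := by
    apply hw
    intro j _
    show (ω j + (0, ρ)).1 = _
    rw [Prod.fst_add, add_zero]
  have e3 : cd k (R ω) = cd k ω + (0, ρ) := by
    unfold cd
    rw [dif_pos hk, dif_pos hk]
    rfl
  rw [e2, e3, Prod.snd_add, hρ]

end

end Pool.Agent.K7.H81.FD
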