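import Pool.Agent.K7.H81.UB

set_option autoImplicit false
set_option linter.unusedSectionVars false
set_option linter.unusedVariables false

/-!
# Monomials and the random walk in the disc
-/

namespace Pool.Agent.K7.H81.FD

open MeasureTheory Set Filter Topology Pool.Agent.R955.FD
open scoped ENNReal

universe u

/-! ### roots of unity -/

/-- the properties of the steps -/
structure Rt {A : Type} [Fintype A] [AddCommGroup A] (ξ : A → ℂ) (M : ℕ) (ν ρ : A) : Prop where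
  norm : ∀ a, ‖ξ a‖ = 1
  sum : ∀ j, 0 < j → j < M → ∑ a, ξ a ^ j = 0
  neg : ∀ a, ξ (a + ν) = -ξ a
  rot : ∀ a, ξ (a + ρ) = Complex.I * ξ a

theorem exists_Rt (m : ℕ) (hm : 0 < m) : ∃ (n : ℕ) (_ : NeZero n) (ξ : ZMod n → ℂ) (ν ρ : ZMod n),
    Rt ξ m ν ρ := by
  haveI : NeZero (4 * m) := ⟨by omega⟩
  have hm' : (m : ℂ) ≠ 0 := by exact_mod_cast hm.ne'
  refine ⟨4 * m, inferInstance, fun a => ZMod.stdAddChar a, ((2 * m : ℤ) : ZMod (4 * m)),
    ((m : ℤ) : ZMod (4 * m)), ?_, ?_, ?_, ?_⟩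
  · intro a
    exact AddChar.norm_apply _ _
  · intro j hj0 hjm
    have h1 := AddChar.sum_mulShift ((j : ℕ) : ZMod (4 * m)) (ZMod.isPrimitive_stdAddChar (4 * m))
    have h2 : ((j : ℕ) : ZMod (4 * m)) ≠ 0 := by
      rw [Ne, ZMod.natCast_eq_zero_iff]
      intro h
      exact absurd (Nat.le_of_dvd hj0 h) (by omega)
    rw [if_neg h2, Nat.cast_zero] at h1
    rw [← h1]
    apply Finset.sum_congr rfl
    intro a _
    rw [← AddChar.map_nsmul_eq_pow, nsmul_eq_mul, mul_comm ((j : ℕ) : ZMod (4 * m)) a]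
  · intro a
    rw [AddChar.map_add_eq_mul, ZMod.stdAddChar_coe]
    have e : 2 * (Real.pi : ℂ) * Complex.I * ((2 * m : ℤ) : ℂ) / ((4 * m : ℕ) : ℂ) = Real.pi * Complex.I := by
      push_cast
      field_simp
      ring
    rw [e, Complex.exp_pi_mul_I, mul_neg_one]
  · intro a
    rw [AddChar.map_add_eq_mul, ZMod.stdAddChar_coe]
    have e : 2 * (Real.pi : ℂ) * Complex.I * ((m : ℤ) : ℂ) / ((4 * m : ℕ) : ℂ) = Real.pi / 2 * Complex.I := by
      push_cast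
      field_simp
      ring
    rw [e, Complex.exp_pi_div_two_mul_I, mul_comm]

/-! ### monomials -/

/-- the remainder of the first order expansion of a power -/
noncomputable def pw (n : ℕ) (z h : ℂ) : ℂ := (z + h) ^ n - z ^ n - n * z ^ (n - 1) * h

theorem pw_succ (n : ℕ) (z h : ℂ) : pw (n + 1) z h = (z + h) * pw n z h + n * z ^ (n - 1) * h ^ 2 := by
  unfold pw
  rw [Nat.add_sub_cancel]
  rcases Nat.eq_zero_or_pos n with rfl | hn
  · simp
  · have e : z ^ n = z * z ^ (n - 1) := by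
      rw [← pow_succ', Nat.sub_add_cancel hn]
    push_cast
    rw [pow_succ (z + h), pow_succ z, e]
    ring

theorem pw_le (n : ℕ) {z h : ℂ} (hz : ‖z‖ ≤ 1) (hzh : ‖z + h‖ ≤ 1) : ‖pw n z h‖ ≤ n ^ 2 * ‖h‖ ^ 2 := by
  induction n with
  | zero => unfold pw; simp
  | succ n ih =>
    rw [pw_succ]
    calc ‖(z + h) * pw n z h + n * z ^ (n - 1) * h ^ 2‖ ≤
          ‖(z + h) * pw n z h‖ + ‖(n : ℂ) * z ^ (n - 1) * h ^ 2‖ := norm_add_le _ _
      _ ≤ 1 * (n ^ 2 * ‖h‖ ^ 2) + n * 1 * ‖h‖ ^ 2 := by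
          rw [norm_mul, norm_mul, norm_mul, norm_pow, norm_pow, Complex.norm_natCast]
          gcongr
          exact pow_le_one₀ (norm_nonneg _) hz
      _ ≤ _ := by
          push_cast
          have : 0 ≤ ‖h‖ ^ 2 := by positivity
          have hn : (0:ℝ) ≤ n := by positivity
          nlinarith

/-- harmonic monomials -/
noncomputable def mo (ν : ℤ) (z : ℂ) : ℂ := if 0 ≤ ν then z ^ ν.natAbs else (starRingEnd ℂ z) ^ ν.natAbs

/-- their linear parts -/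
noncomputable def ln (ν : ℤ) (z h : ℂ) : ℂ :=
  if 0 ≤ ν then (ν.natAbs : ℂ) * z ^ (ν.natAbs - 1) * h
  else (ν.natAbs : ℂ) * (starRingEnd ℂ z) ^ (ν.natAbs - 1) * starRingEnd ℂ h

/-- the remainders -/
noncomputable def rem (ν : ℤ) (z h : ℂ) : ℂ := mo ν (z + h) - mo ν z - ln ν z h

theorem rem_le (ν : ℤ) {z h : ℂ} (hz : ‖z‖ ≤ 1) (hzh : ‖z + h‖ ≤ 1) :
    ‖rem ν z h‖ ≤ (ν.natAbs : ℝ) ^ 2 * ‖h‖ ^ 2 := by
  unfold rem mo ln
  split_ifs
  · exact pw_le _ hz hzh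
  · have h1 := pw_le ν.natAbs (z := starRingEnd ℂ z) (h := starRingEnd ℂ h)
      (by rw [RCLike.norm_conj]; exact hz) (by rw [← map_add, RCLike.norm_conj]; exact hzh)
    rw [RCLike.norm_conj] at h1
    unfold pw at h1
    rw [← map_add] at h1
    exact h1

theorem mo_zero {ν : ℤ} (hν : ν ≠ 0) : mo ν 0 = 0 := by
  unfold mo
  have : ν.natAbs ≠ 0 := by omega
  split_ifs
  · exact zero_pow this
  · rw [map_zero]
    exact zero_pow this

theorem mo_norm_le (ν : ℤ) {z : ℂ} (hz : ‖z‖ ≤ 1) : ‖mo ν z‖ ≤ 1 := by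
  unfold mo
  split_ifs
  · rw [norm_pow]
    exact pow_le_one₀ (norm_nonneg _) hz
  · rw [norm_pow, RCLike.norm_conj]
    exact pow_le_one₀ (norm_nonneg _) hz

theorem mo_mul (ν : ℤ) (w z : ℂ) : mo ν (w * z) = mo ν w * mo ν z := by
  unfold mo
  split_ifs
  · rw [mul_pow]
  · rw [map_mul, mul_pow]

theorem ch_conj (ξ t : ℝ) : starRingEnd ℂ (ch ξ t) = ch (-ξ) t := by
  unfold ch
  rw [← Complex.exp_conj, map_mul, Complex.conj_I, Complex.conj_ofReal]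
  congr 1
  push_cast
  ring

theorem mo_ch (ν : ℤ) (t : ℝ) : mo ν (ch 1 t) = ch (ν : ℝ) t := by
  unfold mo
  split_ifs with h
  · rw [← ch_pow]
    congr 1
    have : (ν.natAbs : ℤ) = ν := by omega
    rw [← Int.cast_natCast (R := ℝ), this]
  · rw [← map_pow, ← ch_pow, ch_conj]
    congr 1
    have : (ν.natAbs : ℤ) = -ν := by omega
    rw [← Int.cast_natCast (R := ℝ), this]
    push_cast
    ring

theorem pow_lip (n : ℕ) {z w : ℂ} (hz : ‖z‖ ≤ 1) (hw : ‖w‖ ≤ 1) : ‖z ^ n - w ^ n‖ ≤ n * ‖z - w‖ := by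
  induction n with
  | zero => simp
  | succ n ih =>
    have e : z ^ (n + 1) - w ^ (n + 1) = z * (z ^ n - w ^ n) + (z - w) * w ^ n := by ring
    rw [e]
    calc ‖z * (z ^ n - w ^ n) + (z - w) * w ^ n‖ ≤ ‖z * (z ^ n - w ^ n)‖ + ‖(z - w) * w ^ n‖ :=
          norm_add_le _ _
      _ ≤ 1 * (n * ‖z - w‖) + ‖z - w‖ * 1 := by
          rw [norm_mul, norm_mul, norm_pow]
          gcongr
          exact pow_le_one₀ (norm_nonneg _) hw
      _ = _ := by
          push_cast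
          ring

theorem mo_lip (ν : ℤ) {z w : ℂ} (hz : ‖z‖ ≤ 1) (hw : ‖w‖ ≤ 1) :
    ‖mo ν z - mo ν w‖ ≤ (ν.natAbs : ℝ) * ‖z - w‖ := by
  unfold mo
  split_ifs
  · exact pow_lip _ hz hw
  · have h1 := pow_lip ν.natAbs (z := starRingEnd ℂ z) (w := starRingEnd ℂ w)
      (by rw [RCLike.norm_conj]; exact hz) (by rw [RCLike.norm_conj]; exact hw)
    rw [← map_sub, RCLike.norm_conj] at h1
    exact h1

/-- the sign of a frequency -/
noncomputable def sn (ν : ℤ) : ℂ := if 0 ≤ ν then 1 else -1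

theorem sn_norm (ν : ℤ) : ‖sn ν‖ = 1 := by
  unfold sn
  split_ifs <;> simp

theorem ln_rot (ν : ℤ) (z h : ℂ) : ln ν z (Complex.I * h) = Complex.I * (sn ν * ln ν z h) := by
  unfold ln sn
  split_ifs
  · ring
  · rw [map_mul, Complex.conj_I]
    ring

theorem ln_add (ν : ℤ) (z h h' : ℂ) : ln ν z (h + h') = ln ν z h + ln ν z h' := by
  unfold ln
  split_ifs
  · ring
  · rw [map_add]
    ring

theorem ln_smul (ν : ℤ) (z h : ℂ) (r : ℝ) : ln ν z ((r : ℂ) * h) = (r : ℂ) * ln ν z h := by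
  unfold ln
  split_ifs
  · ring
  · rw [map_mul, Complex.conj_ofReal]
    ring

section
variable {A : Type} [Fintype A] [AddCommGroup A] [DecidableEq A]

theorem sum_pow_shift {ξ : A → ℂ} {M : ℕ} {ν ρ : A} (hξ : Rt ξ M ν ρ) {n : ℕ} (hn : n < M) (z s : ℂ) :
    ∑ a, (z + s * ξ a) ^ n = Fintype.card A * z ^ n := by
  have h1 : ∀ a, (z + s * ξ a) ^ n =
      ∑ j ∈ Finset.range (n + 1), (s ^ j * z ^ (n - j) * (n.choose j : ℂ)) * ξ a ^ j := by
    intro a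
    rw [add_comm, add_pow]
    apply Finset.sum_congr rfl
    intro j _
    rw [mul_pow]
    ring
  simp_rw [h1]
  rw [Finset.sum_comm, Finset.sum_range_succ']
  have h2 : ∑ j ∈ Finset.range n, ∑ a, (s ^ (j + 1) * z ^ (n - (j + 1)) * (n.choose (j + 1) : ℂ)) *
      ξ a ^ (j + 1) = 0 := by
    apply Finset.sum_eq_zero
    intro j hj
    rw [Finset.mem_range] at hj
    rw [← Finset.mul_sum, hξ.sum (j + 1) (by omega) (by omega), mul_zero]
  rw [h2]
  simp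

theorem pw_mean {ξ : A → ℂ} {M : ℕ} {ν ρ : A} (hξ : Rt ξ M ν ρ) {n : ℕ} (hn : n < M) (hM : 1 < M) (z s : ℂ) :
    ∑ a, pw n z (s * ξ a) = 0 := by
  unfold pw
  rw [Finset.sum_sub_distrib, Finset.sum_sub_distrib, sum_pow_shift hξ hn]
  have h1 : ∑ a, (n : ℂ) * z ^ (n - 1) * (s * ξ a) = 0 := by
    have h2 := hξ.sum 1 one_pos hM
    simp_rw [pow_one] at h2
    rw [← Finset.mul_sum, ← Finset.mul_sum, h2, mul_zero, mul_zero]
  rw [h1, Finset.sum_const, Finset.card_univ, nsmul_eq_mul]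
  ring

theorem rem_mean {ξ : A → ℂ} {M : ℕ} {ν ρ : A} (hξ : Rt ξ M ν ρ) {n : ℤ} (hn : n.natAbs < M)
    (hM : 1 < M) (z : ℂ) (s : ℝ) : ∑ a, rem n z (s * ξ a) = 0 := by
  unfold rem mo ln
  split_ifs
  · exact pw_mean hξ hn hM z s
  · have h1 := pw_mean hξ hn hM (starRingEnd ℂ z) s
    have h2 : ∀ a, (starRingEnd ℂ (z + s * ξ a)) ^ n.natAbs - (starRingEnd ℂ z) ^ n.natAbs -
        n.natAbs * (starRingEnd ℂ z) ^ (n.natAbs - 1) * starRingEnd ℂ (s * ξ a) =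
        pw n.natAbs (starRingEnd ℂ z) (s * starRingEnd ℂ (ξ a)) := by
      intro a
      unfold pw
      rw [map_add, map_mul, Complex.conj_ofReal]
    simp_rw [h2]
    -- conjugate steps
    have h3 : ∀ z' : ℂ, ∑ a, pw n.natAbs z' (s * starRingEnd ℂ (ξ a)) =
        starRingEnd ℂ (∑ a, pw n.natAbs (starRingEnd ℂ z') (s * ξ a)) := by
      intro z'
      rw [map_sum]
      apply Finset.sum_congr rfl
      intro a _
      unfold pw
      simp only [map_sub, map_mul, map_pow, map_add, Complex.conj_conj, Complex.conj_ofReal, map_natCast]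
    rw [h3, pw_mean hξ hn hM, map_zero]

/-! ### the walk -/

/-- the step length -/
noncomputable def stp (δ : ℝ) (z : ℂ) : ℝ := if ‖z‖ ≤ 1 - δ then δ else 0

theorem stp_nonneg {δ : ℝ} (hδ : 0 ≤ δ) (z : ℂ) : 0 ≤ stp δ z := by
  unfold stp
  split_ifs
  · exact hδ
  · exact le_rfl

theorem stp_le {δ : ℝ} (hδ : 0 ≤ δ) (z : ℂ) : stp δ z ≤ δ := by
  unfold stp
  split_ifs
  · exact le_rfl
  · exact hδ

/-- the walk -/
noncomputable def Zw {N : ℕ} (ξ : A → ℂ) (δ : ℝ) : ℕ → (Fin N → A × A) → ℂ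
  | 0, _ => 0
  | k + 1, ω => Zw ξ δ k ω + (stp δ (Zw ξ δ k ω) : ℂ) * ξ (cd k ω).1

theorem Zw_succ {N : ℕ} (ξ : A → ℂ) (δ : ℝ) (k : ℕ) (ω : Fin N → A × A) :
    Zw ξ δ (k + 1) ω = Zw ξ δ k ω + (stp δ (Zw ξ δ k ω) : ℂ) * ξ (cd k ω).1 := rfl

theorem stp_norm {ξ : A → ℂ} {M : ℕ} {ν ρ : A} (hξ : Rt ξ M ν ρ) {δ : ℝ} (hδ : 0 ≤ δ) (z : ℂ) (a : A) :
    ‖(stp δ z : ℂ) * ξ a‖ = stp δ z := by
  rw [norm_mul, hξ.norm, mul_one, Complex.norm_real, Real.norm_of_nonneg (stp_nonneg hδ z)]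

theorem Zw_le {ξ : A → ℂ} {M : ℕ} {ν ρ : A} (hξ : Rt ξ M ν ρ) {δ : ℝ} (hδ : 0 ≤ δ) {N : ℕ} (k : ℕ)
    (ω : Fin N → A × A) : ‖Zw ξ δ k ω‖ ≤ 1 := by
  induction k with
  | zero =>
    show ‖(0:ℂ)‖ ≤ 1
    simp
  | succ k ih =>
    rw [Zw_succ]
    refine (norm_add_le _ _).trans ?_
    rw [stp_norm hξ hδ]
    unfold stp
    split_ifs with h
    · linarith
    · linarith

theorem Zw_prd {ξ : A → ℂ} {δ : ℝ} {N : ℕ} (k : ℕ) (ω ω' : Fin N → A × A)
    (h : ∀ j : Fin N, j.val < k → (ω j).1 = (ω' j).1) : Zw ξ δ k ω = Zw ξ δ k ω' := by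
  induction k with
  | zero => rfl
  | succ k ih =>
    rw [Zw_succ, Zw_succ, ih fun j hj => h j (by omega)]
    have e : (cd k ω).1 = (cd k ω').1 := by
      unfold cd
      by_cases hk : k < N
      · rw [dif_pos hk, dif_pos hk]
        exact h ⟨k, hk⟩ (by simp)
      · rw [dif_neg hk, dif_neg hk]
    rw [e]

/-- averages over one coordinate -/
theorem avg_zero {E : Type*} [AddCommGroup E] [Module ℂ E] {N : ℕ} (k : Fin N) (Ψ : (Fin N → A × A) → E)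
    (h : ∀ ω, ∑ c : A, Ψ (trs k (c, 0) ω) = 0) : ∑ ω, Ψ ω = 0 := by
  have h1 : ∑ c : A, ∑ ω, Ψ (trs k (c, 0) ω) = 0 := by
    rw [Finset.sum_comm]
    exact Finset.sum_eq_zero fun ω _ => h ω
  have h2 : ∀ c : A, ∑ ω, Ψ (trs k (c, 0) ω) = ∑ ω, Ψ ω := fun c => Equiv.sum_comp _ _
  simp_rw [h2] at h1
  rw [Finset.sum_const, Finset.card_univ, ← Nat.cast_smul_eq_nsmul ℂ] at h1
  refine (smul_eq_zero.1 h1).resolve_left ?_
  exact_mod_cast Fintype.card_ne_zero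

theorem cd_trs {N k : ℕ} (hk : k < N) (c : A × A) (ω : Fin N → A × A) :
    cd k (trs ⟨k, hk⟩ c ω) = cd k ω + c := by
  unfold cd
  rw [dif_pos hk, dif_pos hk]
  exact trs_self _ _ _

theorem Zw_trs {ξ : A → ℂ} {δ : ℝ} {N k : ℕ} (hk : k < N) (c : A × A) (ω : Fin N → A × A) :
    Zw ξ δ k (trs ⟨k, hk⟩ c ω) = Zw ξ δ k ω := by
  apply Zw_prd
  intro j hj
  rw [trs_other]
  intro h
  rw [h] at hj
  exact absurd hj (lt_irrefl _)

/-- the second moment -/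
theorem Zw_sq {ξ : A → ℂ} {M : ℕ} {ν ρ : A} (hξ : Rt ξ M ν ρ) (hM : 1 < M) {δ : ℝ} (hδ : 0 ≤ δ)
    {N : ℕ} (n : ℕ) (hn : n ≤ N) : ∑ ω : Fin N → A × A, ‖Zw ξ δ n ω‖ ^ 2 =
      ∑ k ∈ Finset.range n, ∑ ω : Fin N → A × A, stp δ (Zw ξ δ k ω) ^ 2 := by
  induction n with
  | zero =>
    rw [Finset.sum_range_zero]
    apply Finset.sum_eq_zero
    intro ω _
    show ‖(0:ℂ)‖ ^ 2 = 0
    simp
  | succ n ih =>
    rw [Finset.sum_range_succ, ← ih (by omega), ← Finset.sum_add_distrib]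
    have h1 : ∀ ω : Fin N → A × A, ‖Zw ξ δ (n + 1) ω‖ ^ 2 =
        ‖Zw ξ δ n ω‖ ^ 2 + stp δ (Zw ξ δ n ω) ^ 2 +
          2 * (starRingEnd ℂ (Zw ξ δ n ω) * ((stp δ (Zw ξ δ n ω) : ℂ) * ξ (cd n ω).1)).re := by
      intro ω
      rw [Zw_succ]
      have h2 := Complex.normSq_add (Zw ξ δ n ω) ((stp δ (Zw ξ δ n ω) : ℂ) * ξ (cd n ω).1)
      rw [Complex.normSq_eq_norm_sq, Complex.normSq_eq_norm_sq, Complex.normSq_eq_norm_sq,
        stp_norm hξ hδ] at h2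
      rw [h2]
      congr 2
      rw [← Complex.conj_re (Zw ξ δ n ω * _), map_mul, Complex.conj_conj]
    simp_rw [h1]
    rw [Finset.sum_add_distrib, ← Finset.mul_sum]
    have h3 : ∑ ω : Fin N → A × A, starRingEnd ℂ (Zw ξ δ n ω) *
        ((stp δ (Zw ξ δ n ω) : ℂ) * ξ (cd n ω).1) = 0 := by
      apply avg_zero ⟨n, by omega⟩
      intro ω
      have h4 : ∀ c : A, starRingEnd ℂ (Zw ξ δ n (trs ⟨n, by omega⟩ (c, 0) ω)) *
          ((stp δ (Zw ξ δ n (trs ⟨n, by omega⟩ (c, 0) ω)) : ℂ) *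
            ξ (cd n (trs ⟨n, by omega⟩ (c, 0) ω)).1) =
          (starRingEnd ℂ (Zw ξ δ n ω) * (stp δ (Zw ξ δ n ω) : ℂ)) * ξ ((cd n ω).1 + c) := by
        intro c
        rw [Zw_trs, cd_trs, Prod.fst_add]
        ring
      rw [Finset.sum_congr rfl fun c _ => h4 c, ← Finset.mul_sum]
      have h5 : ∑ c : A, ξ ((cd n ω).1 + c) = 0 := by
        have h7 := Equiv.sum_comp (Equiv.addLeft (cd n ω).1) ξ
        simp only [Equiv.coe_addLeft] at h7
        rw [h7]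
        have h6 := hξ.sum 1 one_pos hM
        simpa using h6
      rw [h5, mul_zero]
    rw [← Complex.re_sum, h3, Complex.zero_re, mul_zero, add_zero]

theorem Zw_frozen {ξ : A → ℂ} {δ : ℝ} {N : ℕ} {ω : Fin N → A × A} {k n : ℕ} (hkn : k ≤ n)
    (h : 1 - δ < ‖Zw ξ δ k ω‖) : 1 - δ < ‖Zw ξ δ n ω‖ := by
  induction n, hkn using Nat.le_induction with
  | base => exact h
  | succ n _ ih =>
    rw [Zw_succ]
    have : stp δ (Zw ξ δ n ω) = 0 := by
      unfold stp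
      rw [if_neg (not_le.2 ih)]
    rw [this, Complex.ofReal_zero, zero_mul, add_zero]
    exact ih

/-- few paths stay inside -/
theorem bad_le {ξ : A → ℂ} {M : ℕ} {ν ρ : A} (hξ : Rt ξ M ν ρ) (hM : 1 < M) {δ : ℝ} (hδ : 0 ≤ δ)
    (N : ℕ) : (N : ℝ) * δ ^ 2 * ((Finset.univ.filter fun ω : Fin N → A × A =>
      ‖Zw ξ δ N ω‖ ≤ 1 - δ).card : ℝ) ≤ Fintype.card (Fin N → A × A) := by
  have h1 := Zw_sq hξ hM hδ N (N := N) le_rfl
  have h2 : ∑ ω : Fin N → A × A, ‖Zw ξ δ N ω‖ ^ 2 ≤ Fintype.card (Fin N → A × A) := by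
    calc ∑ ω : Fin N → A × A, ‖Zw ξ δ N ω‖ ^ 2 ≤ ∑ ω : Fin N → A × A, (1:ℝ) := by
          apply Finset.sum_le_sum
          intro ω _
          exact pow_le_one₀ (norm_nonneg _) (Zw_le hξ hδ N ω)
      _ = _ := by simp
  refine le_trans ?_ (h1 ▸ h2)
  calc (N : ℝ) * δ ^ 2 * ((Finset.univ.filter fun ω : Fin N → A × A =>
      ‖Zw ξ δ N ω‖ ≤ 1 - δ).card : ℝ) = ∑ k ∈ Finset.range N,
        ∑ ω ∈ Finset.univ.filter fun ω : Fin N → A × A => ‖Zw ξ δ N ω‖ ≤ 1 - δ, δ ^ 2 := by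
        rw [Finset.sum_const, Finset.sum_const, Finset.card_range, nsmul_eq_mul, nsmul_eq_mul]
        ring
    _ ≤ _ := by
        apply Finset.sum_le_sum
        intro k hk
        rw [Finset.mem_range] at hk
        refine le_trans ?_ (Finset.sum_le_sum_of_subset_of_nonneg (Finset.filter_subset
          (fun ω : Fin N → A × A => ‖Zw ξ δ N ω‖ ≤ 1 - δ) _) fun _ _ _ => sq_nonneg _)
        apply Finset.sum_le_sum
        intro ω hω
        rw [Finset.mem_filter] at hω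
        have h3 : ‖Zw ξ δ k ω‖ ≤ 1 - δ := by
          by_contra hcon
          exact absurd hω.2 (not_le.2 (Zw_frozen hk.le (not_le.1 hcon)))
        unfold stp
        rw [if_pos h3]

end

end Pool.Agent.K7.H81.FD
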