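import Pool.Agent.K7.H81.UC

set_option autoImplicit false
set_option linter.unusedSectionVars false
set_option linter.unusedVariables false

/-!
# The transform of harmonic polynomials along the walk
-/

namespace Pool.Agent.K7.H81.FD

open MeasureTheory Set Filter Topology Pool.Agent.R955.FD
open scoped ENNReal

universe u

theorem two_pow_le {a b : ℝ≥0∞} {p : ℝ} (hp : 0 < p) : (a + b) ^ p ≤ 2 ^ p * (a ^ p + b ^ p) := by
  have h1 : a + b ≤ 2 * max a b := by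
    rw [two_mul]
    exact add_le_add (le_max_left _ _) (le_max_right _ _)
  calc (a + b) ^ p ≤ (2 * max a b) ^ p := ENNReal.rpow_le_rpow h1 hp.le
    _ = 2 ^ p * (max a b) ^ p := ENNReal.mul_rpow_of_nonneg _ _ hp.le
    _ ≤ _ := by
        gcongr
        rcases le_total a b with h | h
        · rw [max_eq_right h]
          exact le_add_self
        · rw [max_eq_left h]
          exact le_self_add

theorem mix_le {x B η p : ℝ} (hx : 0 ≤ x) (hxB : x ≤ B) (hη : 0 < η) (hp : 0 < p) :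
    x ^ p ≤ η ^ p + B ^ p * (x ^ 2 / η ^ 2) := by
  rcases le_total x η with h | h
  · have h1 : x ^ p ≤ η ^ p := Real.rpow_le_rpow hx h hp.le
    have h2 : 0 ≤ B ^ p * (x ^ 2 / η ^ 2) :=
      mul_nonneg (Real.rpow_nonneg (hx.trans hxB) _) (by positivity)
    linarith
  · have h1 : x ^ p ≤ B ^ p := Real.rpow_le_rpow hx hxB hp.le
    have h2 : 1 ≤ x ^ 2 / η ^ 2 := by
      rw [le_div_iff₀ (by positivity), one_mul]
      gcongr
    have h3 : 0 ≤ B ^ p := Real.rpow_nonneg (hx.trans hxB) _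
    have h4 : 0 ≤ η ^ p := by positivity
    nlinarith

section
variable {A : Type} [Fintype A] [AddCommGroup A] [DecidableEq A]

/-- the accumulated remainders -/
noncomputable def Er {N : ℕ} (ξ : A → ℂ) (δ : ℝ) (ν : ℤ) (n : ℕ) (ω : Fin N → A × A) : ℂ :=
  ∑ k ∈ Finset.range n, rem ν (Zw ξ δ k ω) ((stp δ (Zw ξ δ k ω) : ℂ) * ξ (cd k ω).1)

theorem rem_stp {ξ : A → ℂ} {M : ℕ} {ν' ρ : A} (hξ : Rt ξ M ν' ρ) {δ : ℝ} (hδ : 0 ≤ δ) (ν : ℤ)
    {N : ℕ} (k : ℕ) (ω : Fin N → A × A) :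
    ‖rem ν (Zw ξ δ k ω) ((stp δ (Zw ξ δ k ω) : ℂ) * ξ (cd k ω).1)‖ ≤ (ν.natAbs : ℝ) ^ 2 * δ ^ 2 := by
  have h1 := rem_le ν (Zw_le hξ hδ k ω) (h := (stp δ (Zw ξ δ k ω) : ℂ) * ξ (cd k ω).1) (by
    rw [← Zw_succ]
    exact Zw_le hξ hδ (k + 1) ω)
  refine h1.trans ?_
  rw [stp_norm hξ hδ]
  have h2 := stp_nonneg hδ (Zw ξ δ k ω)
  have h3 := stp_le hδ (Zw ξ δ k ω)
  gcongr

theorem Er_trs {ξ : A → ℂ} {δ : ℝ} (ν : ℤ) {N n : ℕ} (hn : n < N) (c : A × A) (ω : Fin N → A × A) :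
    Er ξ δ ν n (trs ⟨n, hn⟩ c ω) = Er ξ δ ν n ω := by
  unfold Er
  apply Finset.sum_congr rfl
  intro k hk
  rw [Finset.mem_range] at hk
  have h1 : Zw ξ δ k (trs ⟨n, hn⟩ c ω) = Zw ξ δ k ω := by
    apply Zw_prd
    intro j hj
    rw [trs_other]
    intro h
    rw [h] at hj
    simp only at hj
    omega
  have h2 : cd k (trs ⟨n, hn⟩ c ω) = cd k ω := by
    unfold cd
    rw [dif_pos (hk.trans hn), dif_pos (hk.trans hn), trs_other]
    intro h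
    rw [Fin.mk.injEq] at h
    omega
  rw [h1, h2]

theorem Er_sq {ξ : A → ℂ} {M : ℕ} {ν' ρ : A} (hξ : Rt ξ M ν' ρ) (hM : 1 < M) {δ : ℝ} (hδ : 0 ≤ δ)
    {ν : ℤ} (hν : ν.natAbs < M) {N : ℕ} (n : ℕ) (hn : n ≤ N) :
    ∑ ω : Fin N → A × A, ‖Er ξ δ ν n ω‖ ^ 2 ≤
      n * ((ν.natAbs : ℝ) ^ 2 * δ ^ 2) ^ 2 * Fintype.card (Fin N → A × A) := by
  induction n with
  | zero =>
    unfold Er
    simp
  | succ n ih =>
    set r : (Fin N → A × A) → ℂ := fun ω =>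
      rem ν (Zw ξ δ n ω) ((stp δ (Zw ξ δ n ω) : ℂ) * ξ (cd n ω).1) with hr
    have h1 : ∀ ω : Fin N → A × A, ‖Er ξ δ ν (n + 1) ω‖ ^ 2 =
        ‖Er ξ δ ν n ω‖ ^ 2 + ‖r ω‖ ^ 2 + 2 * (starRingEnd ℂ (Er ξ δ ν n ω) * r ω).re := by
      intro ω
      have e : Er ξ δ ν (n + 1) ω = Er ξ δ ν n ω + r ω := by
        unfold Er
        rw [Finset.sum_range_succ]
      rw [e]
      have h2 := Complex.normSq_add (Er ξ δ ν n ω) (r ω)
      rw [Complex.normSq_eq_norm_sq, Complex.normSq_eq_norm_sq, Complex.normSq_eq_norm_sq] at h2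
      rw [h2]
      congr 2
      rw [← Complex.conj_re (Er ξ δ ν n ω * _), map_mul, Complex.conj_conj]
    simp_rw [h1]
    rw [Finset.sum_add_distrib, Finset.sum_add_distrib, ← Finset.mul_sum]
    have h3 : ∑ ω : Fin N → A × A, starRingEnd ℂ (Er ξ δ ν n ω) * r ω = 0 := by
      apply avg_zero ⟨n, by omega⟩
      intro ω
      have h4 : ∀ c : A, starRingEnd ℂ (Er ξ δ ν n (trs ⟨n, by omega⟩ (c, 0) ω)) *
          r (trs ⟨n, by omega⟩ (c, 0) ω) = starRingEnd ℂ (Er ξ δ ν n ω) *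
            rem ν (Zw ξ δ n ω) ((stp δ (Zw ξ δ n ω) : ℂ) * ξ ((cd n ω).1 + c)) := by
        intro c
        rw [Er_trs, hr]
        simp only
        rw [Zw_trs, cd_trs, Prod.fst_add]
      rw [Finset.sum_congr rfl fun c _ => h4 c, ← Finset.mul_sum]
      have h7 := Equiv.sum_comp (Equiv.addLeft (cd n ω).1)
        (fun a => rem ν (Zw ξ δ n ω) ((stp δ (Zw ξ δ n ω) : ℂ) * ξ a))
      simp only [Equiv.coe_addLeft] at h7
      rw [h7, rem_mean hξ hν hM, mul_zero]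
    rw [← Complex.re_sum, h3, Complex.zero_re, mul_zero, add_zero]
    have h5 : ∑ ω : Fin N → A × A, ‖r ω‖ ^ 2 ≤
        ((ν.natAbs : ℝ) ^ 2 * δ ^ 2) ^ 2 * Fintype.card (Fin N → A × A) := by
      calc ∑ ω : Fin N → A × A, ‖r ω‖ ^ 2 ≤
            ∑ ω : Fin N → A × A, ((ν.natAbs : ℝ) ^ 2 * δ ^ 2) ^ 2 := by
            apply Finset.sum_le_sum
            intro ω _
            have := rem_stp hξ hδ ν n ω
            gcongr
        _ = _ := by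
            rw [Finset.sum_const, Finset.card_univ, nsmul_eq_mul, mul_comm]
    have h6 := ih (by omega)
    push_cast at h6 ⊢
    nlinarith

theorem Er_le {ξ : A → ℂ} {M : ℕ} {ν' ρ : A} (hξ : Rt ξ M ν' ρ) {δ : ℝ} (hδ : 0 ≤ δ) (ν : ℤ)
    {N : ℕ} (n : ℕ) (ω : Fin N → A × A) : ‖Er ξ δ ν n ω‖ ≤ n * ((ν.natAbs : ℝ) ^ 2 * δ ^ 2) := by
  unfold Er
  refine (norm_sum_le _ _).trans ?_
  calc _ ≤ ∑ k ∈ Finset.range n, ((ν.natAbs : ℝ) ^ 2 * δ ^ 2) :=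
        Finset.sum_le_sum fun k _ => rem_stp hξ hδ ν k ω
    _ = _ := by
        rw [Finset.sum_const, Finset.card_range, nsmul_eq_mul]

/-- the bound for the `p`-th moments of the remainders -/
noncomputable def eb (p : ℝ) (ν : ℤ) (δ : ℝ) (N : ℕ) (η : ℝ) : ℝ :=
  η ^ p + (N * ((ν.natAbs : ℝ) ^ 2 * δ ^ 2)) ^ p * ((N * ((ν.natAbs : ℝ) ^ 2 * δ ^ 2) ^ 2) / η ^ 2)

theorem Er_p {ξ : A → ℂ} {M : ℕ} {ν' ρ : A} (hξ : Rt ξ M ν' ρ) (hM : 1 < M) {δ : ℝ} (hδ : 0 ≤ δ)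
    {ν : ℤ} (hν : ν.natAbs < M) {p : ℝ} (hp : 0 < p) {η : ℝ} (hη : 0 < η) (N : ℕ) :
    ∑ ω : Fin N → A × A, ‖Er ξ δ ν N ω‖ₑ ^ p ≤
      Fintype.card (Fin N → A × A) * ENNReal.ofReal (eb p ν δ N η) := by
  set B : ℝ := N * ((ν.natAbs : ℝ) ^ 2 * δ ^ 2) with hB
  have hB0 : 0 ≤ B := by positivity
  have h1 : ∑ ω : Fin N → A × A, ‖Er ξ δ ν N ω‖ ^ p ≤
      Fintype.card (Fin N → A × A) * eb p ν δ N η := by
    calc ∑ ω : Fin N → A × A, ‖Er ξ δ ν N ω‖ ^ p ≤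
          ∑ ω : Fin N → A × A, (η ^ p + B ^ p / η ^ 2 * ‖Er ξ δ ν N ω‖ ^ 2) := by
          apply Finset.sum_le_sum
          intro ω _
          refine (mix_le (norm_nonneg _) (Er_le hξ hδ ν N ω) hη hp).trans (le_of_eq ?_)
          rw [← hB]
          ring
      _ = Fintype.card (Fin N → A × A) * η ^ p + B ^ p / η ^ 2 * ∑ ω : Fin N → A × A, ‖Er ξ δ ν N ω‖ ^ 2 := by
          rw [Finset.sum_add_distrib, Finset.sum_const, Finset.card_univ, nsmul_eq_mul, Finset.mul_sum]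
      _ ≤ Fintype.card (Fin N → A × A) * η ^ p + B ^ p / η ^ 2 *
            (N * ((ν.natAbs : ℝ) ^ 2 * δ ^ 2) ^ 2 * Fintype.card (Fin N → A × A)) := by
          gcongr
          exact Er_sq hξ hM hδ hν N le_rfl
      _ = _ := by
          unfold eb
          rw [← hB]
          ring
  have h2 : ∑ ω : Fin N → A × A, ‖Er ξ δ ν N ω‖ₑ ^ p =
      ENNReal.ofReal (∑ ω : Fin N → A × A, ‖Er ξ δ ν N ω‖ ^ p) := by
    rw [ENNReal.ofReal_sum_of_nonneg fun ω _ => by positivity]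
    apply Finset.sum_congr rfl
    intro ω _
    rw [← ENNReal.ofReal_rpow_of_nonneg (norm_nonneg _) hp.le, ofReal_norm]
  rw [h2, ← ENNReal.ofReal_natCast, ← ENNReal.ofReal_mul (by positivity)]
  exact ENNReal.ofReal_le_ofReal h1

variable {X : Type u} [NormedAddCommGroup X] [NormedSpace ℂ X] [CompleteSpace X]

/-- the linear parts along the walk -/
noncomputable def wl {N : ℕ} (ξ : A → ℂ) (δ : ℝ) (I : Finset ℤ) (ν : ℤ → ℤ) (y : ℤ → X) (k : ℕ)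
    (ω : Fin N → A × A) : ℂ →ₗ[ℝ] X where
  toFun h := ∑ n ∈ I, ln (ν n) (Zw ξ δ k ω) ((stp δ (Zw ξ δ k ω) : ℂ) * h) • y n
  map_add' h h' := by
    rw [← Finset.sum_add_distrib]
    apply Finset.sum_congr rfl
    intro n _
    rw [mul_add, ln_add, add_smul]
  map_smul' r h := by
    rw [RingHom.id_apply, Finset.smul_sum]
    apply Finset.sum_congr rfl
    intro n _
    have e : (stp δ (Zw ξ δ k ω) : ℂ) * (r • h) = (r : ℂ) * ((stp δ (Zw ξ δ k ω) : ℂ) * h) := by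
      rw [Complex.real_smul]
      ring
    rw [e, ln_smul, mul_smul, Complex.coe_smul]

theorem wl_prd {N : ℕ} (ξ : A → ℂ) (δ : ℝ) (I : Finset ℤ) (ν : ℤ → ℤ) (y : ℤ → X) :
    Prd (N := N) (wl ξ δ I ν y) := by
  intro k ω ω' h
  have h1 := Zw_prd (ξ := ξ) (δ := δ) k ω ω' h
  ext t
  · show ∑ n ∈ I, ln (ν n) (Zw ξ δ k ω) ((stp δ (Zw ξ δ k ω) : ℂ) * t) • y n =
      ∑ n ∈ I, ln (ν n) (Zw ξ δ k ω') ((stp δ (Zw ξ δ k ω') : ℂ) * t) • y n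
    rw [h1]

theorem wl_rot {N : ℕ} (ξ : A → ℂ) (δ : ℝ) (I : Finset ℤ) (ν : ℤ → ℤ) (y : ℤ → X) (k : ℕ)
    (ω : Fin N → A × A) (h : ℂ) : wl ξ δ I ν y k ω (Complex.I * h) =
      Complex.I • wl ξ δ I ν (fun n => sn (ν n) • y n) k ω h := by
  show ∑ n ∈ I, ln (ν n) (Zw ξ δ k ω) ((stp δ (Zw ξ δ k ω) : ℂ) * (Complex.I * h)) • y n =
    Complex.I • ∑ n ∈ I, ln (ν n) (Zw ξ δ k ω) ((stp δ (Zw ξ δ k ω) : ℂ) * h) • sn (ν n) • y n
  rw [Finset.smul_sum]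
  apply Finset.sum_congr rfl
  intro n _
  have e : (stp δ (Zw ξ δ k ω) : ℂ) * (Complex.I * h) = Complex.I * ((stp δ (Zw ξ δ k ω) : ℂ) * h) := by
    ring
  rw [e, ln_rot, smul_smul, smul_smul]
  congr 1
  ring

/-- the value of the harmonic polynomial at the end of the walk -/
noncomputable def Fv (I : Finset ℤ) (ν : ℤ → ℤ) (y : ℤ → X) (z : ℂ) : X := ∑ n ∈ I, mo (ν n) z • y n

theorem Fv_tel {N : ℕ} (ξ : A → ℂ) (δ : ℝ) (I : Finset ℤ) (ν : ℤ → ℤ) (hν : ∀ n ∈ I, ν n ≠ 0)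
    (y : ℤ → X) (ω : Fin N → A × A) :
    Fv I ν y (Zw ξ δ N ω) = ∑ k ∈ Finset.range N, wl ξ δ I ν y k ω (ξ (cd k ω).1) +
      ∑ n ∈ I, Er ξ δ (ν n) N ω • y n := by
  have h1 : ∀ n ∈ I, mo (ν n) (Zw ξ δ N ω) = ∑ k ∈ Finset.range N,
      ln (ν n) (Zw ξ δ k ω) ((stp δ (Zw ξ δ k ω) : ℂ) * ξ (cd k ω).1) + Er ξ δ (ν n) N ω := by
    intro n hn
    have h2 := Finset.sum_range_sub (fun k => mo (ν n) (Zw ξ δ k ω)) N
    have h3 : mo (ν n) (Zw ξ δ 0 ω) = 0 := mo_zero (hν n hn)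
    rw [h3, sub_zero] at h2
    rw [← h2]
    unfold Er
    rw [← Finset.sum_add_distrib]
    apply Finset.sum_congr rfl
    intro k _
    rw [Zw_succ]
    unfold rem
    ring
  unfold Fv
  have h4 : ∀ k, wl ξ δ I ν y k ω (ξ (cd k ω).1) =
      ∑ n ∈ I, ln (ν n) (Zw ξ δ k ω) ((stp δ (Zw ξ δ k ω) : ℂ) * ξ (cd k ω).1) • y n := fun _ => rfl
  simp_rw [h4]
  rw [Finset.sum_comm, ← Finset.sum_add_distrib]
  apply Finset.sum_congr rfl
  intro n hn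
  rw [h1 n hn, add_smul, Finset.sum_smul]

/-- **the inequality along the walk** -/
theorem walk_ineq {p β : ℝ} (hp : 1 < p) (hU : UMDp X p β) {ξ : A → ℂ} {M : ℕ} {ν' ρ : A}
    (hξ : Rt ξ M ν' ρ) (hM : 1 < M) {δ : ℝ} (hδ : 0 ≤ δ) (N : ℕ) (I : Finset ℤ) (ν : ℤ → ℤ)
    (hν : ∀ n ∈ I, ν n ≠ 0) (hνM : ∀ n ∈ I, (ν n).natAbs < M) (y : ℤ → X) {η : ℝ} (hη : 0 < η) :
    ∑ ω : Fin N → A × A, ‖Fv I ν (fun n => sn (ν n) • y n) (Zw ξ δ N ω)‖ₑ ^ p ≤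
      2 ^ p * (ENNReal.ofReal β ^ p * (ENNReal.ofReal β ^ p * (2 ^ p *
        (∑ ω : Fin N → A × A, ‖Fv I ν y (Zw ξ δ N ω)‖ₑ ^ p +
          Fintype.card (Fin N → A × A) * ((I.card : ℝ≥0∞) ^ (p - 1) *
            ∑ n ∈ I, ENNReal.ofReal (eb p (ν n) δ N η) * ‖y n‖ₑ ^ p)))) +
        Fintype.card (Fin N → A × A) * ((I.card : ℝ≥0∞) ^ (p - 1) *
            ∑ n ∈ I, ENNReal.ofReal (eb p (ν n) δ N η) * ‖y n‖ₑ ^ p)) := by
  have hp0 : 0 < p := by linarith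
  set e : ℝ≥0∞ := (I.card : ℝ≥0∞) ^ (p - 1) * ∑ n ∈ I, ENNReal.ofReal (eb p (ν n) δ N η) * ‖y n‖ₑ ^ p
    with he
  have herr : ∀ y' : ℤ → X, (∀ n, ‖y' n‖ₑ = ‖y n‖ₑ) →
      ∑ ω : Fin N → A × A, ‖∑ n ∈ I, Er ξ δ (ν n) N ω • y' n‖ₑ ^ p ≤
        Fintype.card (Fin N → A × A) * e := by
    intro y' hy'
    calc ∑ ω : Fin N → A × A, ‖∑ n ∈ I, Er ξ δ (ν n) N ω • y' n‖ₑ ^ p ≤
          ∑ ω : Fin N → A × A, (I.card : ℝ≥0∞) ^ (p - 1) *
            ∑ n ∈ I, ‖Er ξ δ (ν n) N ω‖ₑ ^ p * ‖y n‖ₑ ^ p := by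
          apply Finset.sum_le_sum
          intro ω _
          calc ‖∑ n ∈ I, Er ξ δ (ν n) N ω • y' n‖ₑ ^ p ≤
                (∑ n ∈ I, ‖Er ξ δ (ν n) N ω‖ₑ * ‖y n‖ₑ) ^ p := by
                apply ENNReal.rpow_le_rpow _ hp0.le
                refine (enorm_sum_le _ _).trans (le_of_eq ?_)
                apply Finset.sum_congr rfl
                intro n _
                rw [enorm_smul, hy']
            _ ≤ (I.card : ℝ≥0∞) ^ (p - 1) * ∑ n ∈ I, (‖Er ξ δ (ν n) N ω‖ₑ * ‖y n‖ₑ) ^ p :=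
                ENNReal.rpow_sum_le_const_mul_sum_rpow I _ hp.le
            _ = _ := by
                congr 1
                apply Finset.sum_congr rfl
                intro n _
                rw [ENNReal.mul_rpow_of_nonneg _ _ hp0.le]
      _ = (I.card : ℝ≥0∞) ^ (p - 1) * ∑ n ∈ I, (∑ ω : Fin N → A × A,
            ‖Er ξ δ (ν n) N ω‖ₑ ^ p) * ‖y n‖ₑ ^ p := by
          rw [← Finset.mul_sum, Finset.sum_comm]
          simp_rw [Finset.sum_mul]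
      _ ≤ (I.card : ℝ≥0∞) ^ (p - 1) * ∑ n ∈ I, (Fintype.card (Fin N → A × A) *
            ENNReal.ofReal (eb p (ν n) δ N η)) * ‖y n‖ₑ ^ p := by
          gcongr with n hn
          exact Er_p hξ hM hδ (hνM n hn) hp0 hη N
      _ = _ := by
          have h9 : ∀ n ∈ I, (Fintype.card (Fin N → A × A) *
            ENNReal.ofReal (eb p (ν n) δ N η)) * ‖y n‖ₑ ^ p = Fintype.card (Fin N → A × A) *
              (ENNReal.ofReal (eb p (ν n) δ N η) * ‖y n‖ₑ ^ p) := fun n _ => by ring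
          rw [Finset.sum_congr rfl h9, ← Finset.mul_sum, he]
          ring
  set ys : ℤ → X := fun n => sn (ν n) • y n with hys
  have hysn : ∀ n, ‖ys n‖ₑ = ‖y n‖ₑ := by
    intro n
    rw [hys]
    simp only
    rw [enorm_smul, ← ofReal_norm, sn_norm, ENNReal.ofReal_one, one_mul]
  have hrot : ∑ ω : Fin N → A × A, ‖∑ k ∈ Finset.range N, wl ξ δ I ν ys k ω (ξ (cd k ω).1)‖ₑ ^ p ≤
      ENNReal.ofReal β ^ p * (ENNReal.ofReal β ^ p *
        ∑ ω : Fin N → A × A, ‖∑ k ∈ Finset.range N, wl ξ δ I ν y k ω (ξ (cd k ω).1)‖ₑ ^ p) := by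
    refine le_trans (le_of_eq ?_) (rot_ineq hp hU hξ.neg hξ.rot (wl_prd ξ δ I ν y))
    apply Finset.sum_congr rfl
    intro ω _
    congr 1
    simp_rw [wl_rot]
    have hI : ‖Complex.I‖ₑ = 1 := by rw [← ofReal_norm, Complex.norm_I, ENNReal.ofReal_one]
    rw [← Finset.smul_sum, enorm_smul, hI, one_mul]
  have hback : ∑ ω : Fin N → A × A, ‖∑ k ∈ Finset.range N, wl ξ δ I ν y k ω (ξ (cd k ω).1)‖ₑ ^ p ≤
      2 ^ p * (∑ ω : Fin N → A × A, ‖Fv I ν y (Zw ξ δ N ω)‖ₑ ^ p +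
        Fintype.card (Fin N → A × A) * e) := by
    calc _ ≤ ∑ ω : Fin N → A × A, 2 ^ p * (‖Fv I ν y (Zw ξ δ N ω)‖ₑ ^ p +
          ‖∑ n ∈ I, Er ξ δ (ν n) N ω • y n‖ₑ ^ p) := by
          apply Finset.sum_le_sum
          intro ω _
          refine le_trans ?_ (two_pow_le hp0)
          apply ENNReal.rpow_le_rpow _ hp0.le
          have e1 : ∑ k ∈ Finset.range N, wl ξ δ I ν y k ω (ξ (cd k ω).1) =
              Fv I ν y (Zw ξ δ N ω) - ∑ n ∈ I, Er ξ δ (ν n) N ω • y n := by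
            rw [Fv_tel ξ δ I ν hν y ω, add_sub_cancel_right]
          rw [e1]
          exact enorm_sub_le
      _ = 2 ^ p * (∑ ω : Fin N → A × A, ‖Fv I ν y (Zw ξ δ N ω)‖ₑ ^ p +
          ∑ ω : Fin N → A × A, ‖∑ n ∈ I, Er ξ δ (ν n) N ω • y n‖ₑ ^ p) := by
          rw [← Finset.mul_sum, Finset.sum_add_distrib]
      _ ≤ _ := by
          gcongr
          exact herr y fun _ => rfl
  calc ∑ ω : Fin N → A × A, ‖Fv I ν ys (Zw ξ δ N ω)‖ₑ ^ p ≤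
        ∑ ω : Fin N → A × A, 2 ^ p * (‖∑ k ∈ Finset.range N, wl ξ δ I ν ys k ω (ξ (cd k ω).1)‖ₑ ^ p +
          ‖∑ n ∈ I, Er ξ δ (ν n) N ω • ys n‖ₑ ^ p) := by
        apply Finset.sum_le_sum
        intro ω _
        refine le_trans ?_ (two_pow_le hp0)
        apply ENNReal.rpow_le_rpow _ hp0.le
        rw [Fv_tel ξ δ I ν hν ys ω]
        exact enorm_add_le _ _
    _ = 2 ^ p * (∑ ω : Fin N → A × A, ‖∑ k ∈ Finset.range N, wl ξ δ I ν ys k ω (ξ (cd k ω).1)‖ₑ ^ p +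
          ∑ ω : Fin N → A × A, ‖∑ n ∈ I, Er ξ δ (ν n) N ω • ys n‖ₑ ^ p) := by
        rw [← Finset.mul_sum, Finset.sum_add_distrib]
    _ ≤ _ := by
        gcongr
        · exact hrot.trans (by gcongr)
        · exact herr ys hysn

end

end Pool.Agent.K7.H81.FD
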