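import Pool.Agent.K7.H81.UD

set_option autoImplicit false
set_option linter.unusedSectionVars false
set_option linter.unusedVariables false

/-!
# Boundedness of the sign multiplier
-/

namespace Pool.Agent.K7.H81.FD

open MeasureTheory Set Filter Topology Pool.Agent.R955.FD
open scoped ENNReal

universe u

theorem lint_per' {h : ℝ → ℝ≥0∞} (hper : ∀ t, h (t + 1) = h t) (c : ℝ) :
    ∫⁻ x, h (x + c) ∂m1 = ∫⁻ x, h x ∂m1 := by
  have hp : Function.Periodic h 1 := hper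
  have h1 := lint_shift (fun u : UnitAddCircle => hp.lift u) (-c)
  have h2 := lint_shift (fun u : UnitAddCircle => hp.lift u) 0
  rw [← h2] at h1
  simp only [Function.Periodic.lift_coe, sub_zero, sub_neg_eq_add] at h1
  exact h1

section
variable {X : Type u} [NormedAddCommGroup X] [NormedSpace ℂ X] [CompleteSpace X]

/-- the mean over rotations -/
noncomputable def Gm (p : ℝ) (I : Finset ℤ) (ν : ℤ → ℤ) (x : ℤ → X) (z : ℂ) : ℝ≥0∞ :=
  ∫⁻ φ, ‖Fv I ν x (ch 1 φ * z)‖ₑ ^ p ∂m1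

theorem mo_cont (ν : ℤ) : Continuous (mo ν) := by
  unfold mo
  split_ifs
  · exact continuous_pow _
  · exact (Complex.continuous_conj).pow _

theorem Fv_cont (I : Finset ℤ) (ν : ℤ → ℤ) (x : ℤ → X) : Continuous (Fv I ν x) := by
  unfold Fv
  exact continuous_finsetSum _ fun n _ => (mo_cont _).smul continuous_const

theorem Gm_meas (p : ℝ) (I : Finset ℤ) (ν : ℤ → ℤ) (x : ℤ → X) (z : ℂ) :
    Measurable fun φ : ℝ => ‖Fv I ν x (ch 1 φ * z)‖ₑ ^ p :=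
  ((Fv_cont I ν x).comp ((ch_cont 1).mul continuous_const)).enorm.measurable.pow_const p

theorem Fv_le (I : Finset ℤ) (ν : ℤ → ℤ) (x : ℤ → X) {z : ℂ} (hz : ‖z‖ ≤ 1) :
    ‖Fv I ν x z‖ₑ ≤ ∑ n ∈ I, ‖x n‖ₑ := by
  unfold Fv
  refine (enorm_sum_le _ _).trans (Finset.sum_le_sum fun n _ => ?_)
  rw [enorm_smul]
  calc ‖mo (ν n) z‖ₑ * ‖x n‖ₑ ≤ 1 * ‖x n‖ₑ := by
        gcongr
        rw [← ofReal_norm, ← ENNReal.ofReal_one]
        exact ENNReal.ofReal_le_ofReal (mo_norm_le _ hz)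
    _ = _ := one_mul _

/-- the Lipschitz constant -/
noncomputable def Lc (I : Finset ℤ) (ν : ℤ → ℤ) (x : ℤ → X) : ℝ := ∑ n ∈ I, ((ν n).natAbs : ℝ) * ‖x n‖

theorem Lc_nonneg (I : Finset ℤ) (ν : ℤ → ℤ) (x : ℤ → X) : 0 ≤ Lc I ν x :=
  Finset.sum_nonneg fun _ _ => by positivity

theorem Fv_lip (I : Finset ℤ) (ν : ℤ → ℤ) (x : ℤ → X) {z w : ℂ} (hz : ‖z‖ ≤ 1) (hw : ‖w‖ ≤ 1) :
    ‖Fv I ν x z - Fv I ν x w‖ ≤ Lc I ν x * ‖z - w‖ := by
  unfold Fv Lc
  rw [← Finset.sum_sub_distrib, Finset.sum_mul]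
  refine (norm_sum_le _ _).trans (Finset.sum_le_sum fun n _ => ?_)
  rw [← sub_smul, norm_smul]
  calc ‖mo (ν n) z - mo (ν n) w‖ * ‖x n‖ ≤ (((ν n).natAbs : ℝ) * ‖z - w‖) * ‖x n‖ := by
        gcongr
        exact mo_lip _ hz hw
    _ = _ := by ring

theorem Gm_le {p : ℝ} (hp : 0 < p) (I : Finset ℤ) (ν : ℤ → ℤ) (x : ℤ → X) {z : ℂ} (hz : ‖z‖ ≤ 1) :
    Gm p I ν x z ≤ (∑ n ∈ I, ‖x n‖ₑ) ^ p := by
  unfold Gm
  calc ∫⁻ φ, ‖Fv I ν x (ch 1 φ * z)‖ₑ ^ p ∂m1 ≤ ∫⁻ φ, (∑ n ∈ I, ‖x n‖ₑ) ^ p ∂m1 := by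
        apply lintegral_mono
        intro φ
        apply ENNReal.rpow_le_rpow _ hp.le
        apply Fv_le
        rw [norm_mul, ch_norm, one_mul]
        exact hz
    _ = _ := by rw [lintegral_const, measure_univ, mul_one]

/-- the values on the circle -/
theorem Fv_circle (I : Finset ℤ) (ν : ℤ → ℤ) (x : ℤ → X) (t : ℝ) :
    Fv I ν x (ch 1 t) = ∑ n ∈ I, ch (ν n : ℝ) t • x n := by
  unfold Fv
  simp_rw [mo_ch]

theorem Gm_near {p : ℝ} (hp : 0 < p) (I : Finset ℤ) (ν : ℤ → ℤ) (x : ℤ → X) {z : ℂ} (hz : ‖z‖ ≤ 1)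
    {δ : ℝ} (hδ1 : δ ≤ 1) (hδ : 1 - δ < ‖z‖) :
    Gm p I ν x z ≤ 2 ^ p * (Np p (fun t => Fv I ν x (ch 1 t)) + ENNReal.ofReal (Lc I ν x * δ) ^ p) ∧
    Np p (fun t => Fv I ν x (ch 1 t)) ≤ 2 ^ p * (Gm p I ν x z + ENNReal.ofReal (Lc I ν x * δ) ^ p) := by
  have hz0 : 0 < ‖z‖ := by linarith
  set α : ℝ := z.arg / (2 * Real.pi) with hα
  have hzα : z = (‖z‖ : ℂ) * ch 1 α := by
    have h1 := Complex.norm_mul_exp_arg_mul_I z
    have h2 : ch 1 α = Complex.exp (z.arg * Complex.I) := by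
      unfold ch
      congr 2
      rw [hα]
      congr 1
      have := Real.pi_pos.ne'
      field_simp
    rw [h2]
    exact h1.symm
  have hpt : ∀ φ, ‖Fv I ν x (ch 1 φ * z) - Fv I ν x (ch 1 (φ + α))‖ₑ ≤ ENNReal.ofReal (Lc I ν x * δ) := by
    intro φ
    rw [← ofReal_norm]
    apply ENNReal.ofReal_le_ofReal
    have h1 := Fv_lip I ν x (z := ch 1 φ * z) (w := ch 1 (φ + α))
      (by rw [norm_mul, ch_norm, one_mul]; exact hz) (by rw [ch_norm])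
    refine h1.trans ?_
    apply mul_le_mul_of_nonneg_left _ (Lc_nonneg I ν x)
    rw [ch_add_right]
    have h2 : ch 1 φ * z - ch 1 φ * ch 1 α = ch 1 φ * (((‖z‖ - 1 : ℝ) : ℂ) * ch 1 α) := by
      conv_lhs => rw [hzα]
      push_cast
      ring
    rw [h2, norm_mul, norm_mul, ch_norm, ch_norm, one_mul, mul_one, Complex.norm_real,
      Real.norm_eq_abs, abs_of_nonpos (by linarith)]
    linarith
  have hN : ∫⁻ φ, ‖Fv I ν x (ch 1 (φ + α))‖ₑ ^ p ∂m1 = Np p (fun t => Fv I ν x (ch 1 t)) := by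
    unfold Np
    have hper : ∀ t, ‖Fv I ν x (ch 1 (t + 1))‖ₑ ^ p = ‖Fv I ν x (ch 1 t)‖ₑ ^ p := by
      intro t
      have h3 := ch_period 1 t
      rw [Int.cast_one] at h3
      rw [h3]
    exact lint_per' (h := fun t => ‖Fv I ν x (ch 1 t)‖ₑ ^ p) hper α
  have hmc : Measurable fun _ : ℝ => ENNReal.ofReal (Lc I ν x * δ) ^ p := measurable_const
  constructor
  · calc Gm p I ν x z ≤ ∫⁻ φ, 2 ^ p * (‖Fv I ν x (ch 1 (φ + α))‖ₑ ^ p +
          ENNReal.ofReal (Lc I ν x * δ) ^ p) ∂m1 := by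
          unfold Gm
          apply lintegral_mono
          intro φ
          refine le_trans ?_ (two_pow_le hp)
          apply ENNReal.rpow_le_rpow _ hp.le
          have e : Fv I ν x (ch 1 φ * z) = Fv I ν x (ch 1 (φ + α)) +
              (Fv I ν x (ch 1 φ * z) - Fv I ν x (ch 1 (φ + α))) := by abel
          rw [e]
          exact (enorm_add_le _ _).trans (add_le_add le_rfl (hpt φ))
      _ = _ := by
          rw [lintegral_const_mul' _ _ (ENNReal.rpow_ne_top_of_nonneg hp.le (by norm_num)),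
            lintegral_add_right _ hmc, hN, lintegral_const, measure_univ, mul_one]
  · calc Np p (fun t => Fv I ν x (ch 1 t)) = ∫⁻ φ, ‖Fv I ν x (ch 1 (φ + α))‖ₑ ^ p ∂m1 := hN.symm
      _ ≤ ∫⁻ φ, 2 ^ p * (‖Fv I ν x (ch 1 φ * z)‖ₑ ^ p + ENNReal.ofReal (Lc I ν x * δ) ^ p) ∂m1 := by
          apply lintegral_mono
          intro φ
          refine le_trans ?_ (two_pow_le hp)
          apply ENNReal.rpow_le_rpow _ hp.le
          have e : Fv I ν x (ch 1 (φ + α)) = Fv I ν x (ch 1 φ * z) -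
              (Fv I ν x (ch 1 φ * z) - Fv I ν x (ch 1 (φ + α))) := by abel
          rw [e]
          refine enorm_sub_le.trans (add_le_add le_rfl ?_)
          have e2 : Fv I ν x (ch 1 φ * z) - (Fv I ν x (ch 1 φ * z) -
              (Fv I ν x (ch 1 φ * z) - Fv I ν x (ch 1 (φ + α)))) =
              Fv I ν x (ch 1 φ * z) - Fv I ν x (ch 1 (φ + α)) := by abel
          first
            | exact hpt φ
            | (rw [e2]; exact hpt φ)
      _ = _ := by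
          unfold Gm
          rw [lintegral_const_mul' _ _ (ENNReal.rpow_ne_top_of_nonneg hp.le (by norm_num)),
            lintegral_add_right _ hmc, lintegral_const, measure_univ, mul_one]

/-- the value of the remainder bound for the chosen parameters -/
theorem eb_eq {p : ℝ} {ν : ℤ} {δ η : ℝ} {N K : ℕ} (hN : (N : ℝ) * δ ^ 2 = K) (hη : η ^ 2 = δ)
    (hδ : 0 < δ) : eb p ν δ N η = η ^ p + ((K : ℝ) * (ν.natAbs : ℝ) ^ 2) ^ p *
      (K * (ν.natAbs : ℝ) ^ 4 * δ) := by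
  unfold eb
  have h1 : (N : ℝ) * ((ν.natAbs : ℝ) ^ 2 * δ ^ 2) = K * (ν.natAbs : ℝ) ^ 2 := by
    rw [← hN]
    ring
  have h2 : (N : ℝ) * ((ν.natAbs : ℝ) ^ 2 * δ ^ 2) ^ 2 / η ^ 2 = K * (ν.natAbs : ℝ) ^ 4 * δ := by
    rw [hη, ← hN]
    field_simp
  rw [h1, h2]

/-- the inequality for fixed parameters -/
theorem ht_step {p β : ℝ} (hp : 1 < p) (hU : UMDp X p β) (I : Finset ℤ) (ν : ℤ → ℤ)
    (hν : ∀ n ∈ I, ν n ≠ 0) (x : ℤ → X) (K : ℕ) (hK : 2 ≤ K) {δ η : ℝ} (hδ0 : 0 < δ) (hδ1 : δ ≤ 1)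
    (hη : 0 < η) (N : ℕ) (hN : (N : ℝ) * δ ^ 2 = K) :
    Np p (fun t => Fv I ν (fun n => sn (ν n) • x n) (ch 1 t)) ≤ 2 * (2 ^ p * (2 ^ p *
      (ENNReal.ofReal β ^ p * (ENNReal.ofReal β ^ p * (2 ^ p *
        (2 ^ p * (Np p (fun t => Fv I ν x (ch 1 t)) + ENNReal.ofReal (Lc I ν x * δ) ^ p) +
          (∑ n ∈ I, ‖x n‖ₑ) ^ p / K + (I.card : ℝ≥0∞) ^ (p - 1) *
            ∑ n ∈ I, ENNReal.ofReal (eb p (ν n) δ N η) * ‖x n‖ₑ ^ p))) +
        (I.card : ℝ≥0∞) ^ (p - 1) * ∑ n ∈ I, ENNReal.ofReal (eb p (ν n) δ N η) * ‖x n‖ₑ ^ p) +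
      ENNReal.ofReal (Lc I ν x * δ) ^ p)) := by
  classical
  have hp0 : 0 < p := by linarith
  set M : ℕ := (∑ n ∈ I, (ν n).natAbs) + 2 with hM
  have hM1 : 1 < M := by omega
  have hνM : ∀ n ∈ I, (ν n).natAbs < M := by
    intro n hn
    have := Finset.single_le_sum (f := fun n => (ν n).natAbs) (fun _ _ => Nat.zero_le _) hn
    omega
  obtain ⟨n0, hn0, ξ, ν', ρ, hξ⟩ := exists_Rt M (by omega)
  set Ω := Fin N → ZMod n0 × ZMod n0 with hΩ
  set cΩ : ℝ≥0∞ := (Fintype.card Ω : ℝ≥0∞) with hcΩ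
  have hc0 : cΩ ≠ 0 := by
    rw [hcΩ]
    exact_mod_cast Fintype.card_ne_zero
  have hct : cΩ ≠ ∞ := ENNReal.natCast_ne_top _
  set e : ℝ≥0∞ := (I.card : ℝ≥0∞) ^ (p - 1) *
            ∑ n ∈ I, ENNReal.ofReal (eb p (ν n) δ N η) * ‖x n‖ₑ ^ p with he
  set u : ℝ≥0∞ := ENNReal.ofReal (Lc I ν x * δ) ^ p with hu
  set b : ℝ≥0∞ := ENNReal.ofReal β ^ p with hb
  set xs : ℤ → X := fun n => sn (ν n) • x n with hxs
  have hxsn : ∀ n, ‖xs n‖ = ‖x n‖ := by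
    intro n
    rw [hxs]
    simp only
    rw [norm_smul, sn_norm, one_mul]
  have hLs : Lc I ν xs = Lc I ν x := by
    unfold Lc
    simp_rw [hxsn]
  set good : Finset Ω := Finset.univ.filter fun ω : Ω => ¬ ‖Zw ξ δ N ω‖ ≤ 1 - δ with hgood
  set bad : Finset Ω := Finset.univ.filter fun ω : Ω => ‖Zw ξ δ N ω‖ ≤ 1 - δ with hbad
  have hgb : bad.card + good.card = Fintype.card Ω := by
    rw [hbad, hgood]
    exact Finset.card_filter_add_card_filter_not _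
  have hbadle : K * bad.card ≤ Fintype.card Ω := by
    have h1 := bad_le hξ hM1 hδ0.le N
    rw [hN] at h1
    exact_mod_cast h1
  have hgoodge : Fintype.card Ω ≤ 2 * good.card := by
    have : 2 * bad.card ≤ Fintype.card Ω := le_trans (Nat.mul_le_mul_right _ hK) hbadle
    omega
  -- integrate the inequality over the rotations
  have hrw : ∀ (x' : ℤ → X) (φ : ℝ) (z : ℂ),
      Fv I ν (fun n => ch (ν n : ℝ) φ • x' n) z = Fv I ν x' (ch 1 φ * z) := by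
    intro x' φ z
    unfold Fv
    apply Finset.sum_congr rfl
    intro n _
    rw [mo_mul, mo_ch, smul_smul, mul_comm]
  have hint : ∑ ω : Ω, Gm p I ν xs (Zw ξ δ N ω) ≤
      2 ^ p * (b * (b * (2 ^ p * (∑ ω : Ω, Gm p I ν x (Zw ξ δ N ω) + cΩ * e))) + cΩ * e) := by
    have h1 : ∀ φ : ℝ, ∑ ω : Ω, ‖Fv I ν xs (ch 1 φ * Zw ξ δ N ω)‖ₑ ^ p ≤
        2 ^ p * (b * (b * (2 ^ p * (∑ ω : Ω, ‖Fv I ν x (ch 1 φ * Zw ξ δ N ω)‖ₑ ^ p + cΩ * e))) +
          cΩ * e) := by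
      intro φ
      have h2 := walk_ineq hp hU hξ hM1 hδ0.le N I ν hν hνM (fun n => ch (ν n : ℝ) φ • x n) hη
      have h3 : ∀ n, ‖ch (ν n : ℝ) φ • x n‖ₑ = ‖x n‖ₑ := by
        intro n
        rw [enorm_smul, ch_enorm, one_mul]
      have h4 : (fun n => sn (ν n) • ch (ν n : ℝ) φ • x n) = fun n => ch (ν n : ℝ) φ • xs n := by
        funext n
        rw [hxs]
        simp only
        rw [smul_comm]
      simp_rw [h3] at h2
      rw [h4] at h2
      simp_rw [hrw] at h2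
      exact h2
    calc ∑ ω : Ω, Gm p I ν xs (Zw ξ δ N ω) =
          ∫⁻ φ, ∑ ω : Ω, ‖Fv I ν xs (ch 1 φ * Zw ξ δ N ω)‖ₑ ^ p ∂m1 := by
          rw [lintegral_finsetSum _ fun ω _ => Gm_meas p I ν xs _]
          rfl
      _ ≤ ∫⁻ φ, 2 ^ p * (b * (b * (2 ^ p * (∑ ω : Ω, ‖Fv I ν x (ch 1 φ * Zw ξ δ N ω)‖ₑ ^ p +
            cΩ * e))) + cΩ * e) ∂m1 := lintegral_mono h1
      _ = _ := by
          have h2t : (2:ℝ≥0∞) ^ p ≠ ∞ := ENNReal.rpow_ne_top_of_nonneg hp0.le (by norm_num)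
          have hbt : b ≠ ∞ := ENNReal.rpow_ne_top_of_nonneg hp0.le ENNReal.ofReal_ne_top
          rw [lintegral_const_mul' _ _ h2t, lintegral_add_right _ measurable_const,
            lintegral_const_mul' _ _ hbt, lintegral_const_mul' _ _ hbt, lintegral_const_mul' _ _ h2t,
            lintegral_add_right _ measurable_const, lintegral_const, measure_univ, mul_one,
            lintegral_finsetSum _ fun ω _ => Gm_meas p I ν x _]
          rfl
  have hlow : (good.card : ℝ≥0∞) * Np p (fun t => Fv I ν xs (ch 1 t)) ≤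
      2 ^ p * (∑ ω : Ω, Gm p I ν xs (Zw ξ δ N ω) + cΩ * u) := by
    calc (good.card : ℝ≥0∞) * Np p (fun t => Fv I ν xs (ch 1 t)) =
          ∑ ω ∈ good, Np p (fun t => Fv I ν xs (ch 1 t)) := by
          rw [Finset.sum_const, nsmul_eq_mul]
      _ ≤ ∑ ω ∈ good, 2 ^ p * (Gm p I ν xs (Zw ξ δ N ω) + u) := by
          apply Finset.sum_le_sum
          intro ω hω
          rw [hgood, Finset.mem_filter, not_le] at hω
          have h1 := (Gm_near hp0 I ν xs (Zw_le hξ hδ0.le N ω) hδ1 hω.2).2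
          rw [hLs] at h1
          exact h1
      _ ≤ ∑ ω : Ω, 2 ^ p * (Gm p I ν xs (Zw ξ δ N ω) + u) :=
          Finset.sum_le_sum_of_subset (Finset.subset_univ _)
      _ = _ := by
          rw [← Finset.mul_sum, Finset.sum_add_distrib, Finset.sum_const, Finset.card_univ,
            nsmul_eq_mul]
  have hup : ∑ ω : Ω, Gm p I ν x (Zw ξ δ N ω) ≤
      cΩ * (2 ^ p * (Np p (fun t => Fv I ν x (ch 1 t)) + u) + (∑ n ∈ I, ‖x n‖ₑ) ^ p / K) := by
    have hK0 : (K : ℝ≥0∞) ≠ 0 := by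
      exact_mod_cast (by omega : K ≠ 0)
    have hKt : (K : ℝ≥0∞) ≠ ∞ := ENNReal.natCast_ne_top _
    have hb2 : (bad.card : ℝ≥0∞) ≤ cΩ / K := by
      rw [ENNReal.le_div_iff_mul_le (Or.inl hK0) (Or.inl hKt), mul_comm]
      have : ((K * bad.card : ℕ) : ℝ≥0∞) ≤ (Fintype.card Ω : ℝ≥0∞) := by exact_mod_cast hbadle
      rw [Nat.cast_mul] at this
      exact this
    have hsplit : ∑ ω : Ω, Gm p I ν x (Zw ξ δ N ω) =
        ∑ ω ∈ bad, Gm p I ν x (Zw ξ δ N ω) + ∑ ω ∈ good, Gm p I ν x (Zw ξ δ N ω) := by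
      rw [hbad, hgood]
      exact (Finset.sum_filter_add_sum_filter_not _ _ _).symm
    rw [hsplit]
    calc ∑ ω ∈ bad, Gm p I ν x (Zw ξ δ N ω) + ∑ ω ∈ good, Gm p I ν x (Zw ξ δ N ω) ≤
          ∑ ω ∈ bad, (∑ n ∈ I, ‖x n‖ₑ) ^ p +
            ∑ ω ∈ good, 2 ^ p * (Np p (fun t => Fv I ν x (ch 1 t)) + u) := by
          apply add_le_add
          · exact Finset.sum_le_sum fun ω _ => Gm_le hp0 I ν x (Zw_le hξ hδ0.le N ω)
          · apply Finset.sum_le_sum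
            intro ω hω
            rw [hgood, Finset.mem_filter, not_le] at hω
            exact (Gm_near hp0 I ν x (Zw_le hξ hδ0.le N ω) hδ1 hω.2).1
      _ ≤ (cΩ / K) * (∑ n ∈ I, ‖x n‖ₑ) ^ p +
            cΩ * (2 ^ p * (Np p (fun t => Fv I ν x (ch 1 t)) + u)) := by
          rw [Finset.sum_const, nsmul_eq_mul, Finset.sum_const, nsmul_eq_mul]
          gcongr
          rw [hcΩ]
          exact_mod_cast (by omega : good.card ≤ Fintype.card Ω)
      _ = _ := by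
          rw [ENNReal.div_eq_inv_mul, ENNReal.div_eq_inv_mul]
          ring
  have hfin : cΩ * Np p (fun t => Fv I ν xs (ch 1 t)) ≤ cΩ * (2 * (2 ^ p * (2 ^ p *
      (b * (b * (2 ^ p *
        (2 ^ p * (Np p (fun t => Fv I ν x (ch 1 t)) + u) +
          (∑ n ∈ I, ‖x n‖ₑ) ^ p / K + e))) + e) + u))) := by
    calc cΩ * Np p (fun t => Fv I ν xs (ch 1 t)) ≤
          2 * ((good.card : ℝ≥0∞) * Np p (fun t => Fv I ν xs (ch 1 t))) := by
          rw [← mul_assoc]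
          gcongr
          rw [hcΩ]
          exact_mod_cast hgoodge
      _ ≤ 2 * (2 ^ p * (∑ ω : Ω, Gm p I ν xs (Zw ξ δ N ω) + cΩ * u)) := by gcongr
      _ ≤ 2 * (2 ^ p * (2 ^ p * (b * (b * (2 ^ p * (∑ ω : Ω, Gm p I ν x (Zw ξ δ N ω) + cΩ * e))) +
            cΩ * e) + cΩ * u)) := by gcongr
      _ ≤ 2 * (2 ^ p * (2 ^ p * (b * (b * (2 ^ p * (cΩ * (2 ^ p * (Np p (fun t => Fv I ν x (ch 1 t)) +
            u) + (∑ n ∈ I, ‖x n‖ₑ) ^ p / K) + cΩ * e))) + cΩ * e) + cΩ * u)) := by gcongr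
      _ = _ := by ring
  exact (ENNReal.mul_le_mul_iff_right hc0 hct).1 hfin

end

end Pool.Agent.K7.H81.FD
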