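import Pool.Agent.K7.H81.UE

set_option autoImplicit false
set_option linter.unusedSectionVars false
set_option linter.unusedVariables false

/-!
# UMD spaces have bounded partial sum operators
-/

namespace Pool.Agent.K7.H81.FD

open MeasureTheory Set Filter Topology Pool.Agent.R955.FD
open scoped ENNReal

universe u

theorem tm {f : ℕ → ℝ≥0∞} {a c : ℝ≥0∞} (hc : c ≠ ∞) (h : Tendsto f atTop (𝓝 a)) :
    Tendsto (fun j => c * f j) atTop (𝓝 (c * a)) := ENNReal.Tendsto.const_mul h (Or.inr hc)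

section
variable {X : Type u} [NormedAddCommGroup X] [NormedSpace ℂ X] [CompleteSpace X]

/-- the constant -/
noncomputable def Hc (p β : ℝ) : ℝ≥0∞ :=
  2 * (2 ^ p * (2 ^ p * (ENNReal.ofReal β ^ p * (ENNReal.ofReal β ^ p * (2 ^ p * 2 ^ p)))))

theorem Hc_ne {p β : ℝ} (hp : 0 < p) : Hc p β ≠ ∞ := by
  unfold Hc
  have h2 : (2:ℝ≥0∞) ^ p ≠ ∞ := ENNReal.rpow_ne_top_of_nonneg hp.le (by norm_num)
  have hb : ENNReal.ofReal β ^ p ≠ ∞ := ENNReal.rpow_ne_top_of_nonneg hp.le ENNReal.ofReal_ne_top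
  exact ENNReal.mul_ne_top (by norm_num) (ENNReal.mul_ne_top h2 (ENNReal.mul_ne_top h2
    (ENNReal.mul_ne_top hb (ENNReal.mul_ne_top hb (ENNReal.mul_ne_top h2 h2)))))

/-- the sign multiplier without the frequency zero -/
theorem ht_core {p β : ℝ} (hp : 1 < p) (hU : UMDp X p β) (I : Finset ℤ) (ν : ℤ → ℤ)
    (hν : ∀ n ∈ I, ν n ≠ 0) (x : ℤ → X) :
    Np p (fun t => Fv I ν (fun n => sn (ν n) • x n) (ch 1 t)) ≤
      Hc p β * Np p (fun t => Fv I ν x (ch 1 t)) := by
  have hp0 : 0 < p := by linarith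
  set Nf := Np p (fun t => Fv I ν x (ch 1 t)) with hNf
  set b := ENNReal.ofReal β ^ p with hb
  set W := (∑ n ∈ I, ‖x n‖ₑ) ^ p with hW
  have h2 : (2:ℝ≥0∞) ^ p ≠ ∞ := ENNReal.rpow_ne_top_of_nonneg hp0.le (by norm_num)
  have hbt : b ≠ ∞ := ENNReal.rpow_ne_top_of_nonneg hp0.le ENNReal.ofReal_ne_top
  have hWt : W ≠ ∞ := by
    apply ENNReal.rpow_ne_top_of_nonneg hp0.le
    exact (ENNReal.sum_lt_top.2 fun n _ => enorm_lt_top).ne
  -- the limit in the step length
  have hK : ∀ K : ℕ, 2 ≤ K → Np p (fun t => Fv I ν (fun n => sn (ν n) • x n) (ch 1 t)) ≤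
      2 * (2 ^ p * (2 ^ p * (b * (b * (2 ^ p * (2 ^ p * Nf + W / K)))))) := by
    intro K hK2
    set δ : ℕ → ℝ := fun j => 1 / ((j : ℝ) + 1) with hδ
    have hδ0 : ∀ j, 0 < δ j := fun j => by rw [hδ]; positivity
    have hδ1 : ∀ j, δ j ≤ 1 := by
      intro j
      rw [hδ]
      simp only
      rw [div_le_one (by positivity)]
      linarith [(Nat.cast_nonneg j : (0:ℝ) ≤ j)]
    have hδt : Tendsto δ atTop (𝓝 0) := tendsto_one_div_add_atTop_nhds_zero_nat
    set η : ℕ → ℝ := fun j => Real.sqrt (δ j) with hη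
    have hη0 : ∀ j, 0 < η j := fun j => Real.sqrt_pos.2 (hδ0 j)
    have hη2 : ∀ j, η j ^ 2 = δ j := fun j => Real.sq_sqrt (hδ0 j).le
    have hηt : Tendsto η atTop (𝓝 0) := by
      have h3 := (Real.continuous_sqrt.tendsto 0).comp hδt
      rw [Real.sqrt_zero] at h3
      exact h3
    set N : ℕ → ℕ := fun j => K * (j + 1) ^ 2 with hN
    have hNK : ∀ j, (N j : ℝ) * δ j ^ 2 = K := by
      intro j
      rw [hN, hδ]
      simp only
      push_cast
      have : ((j : ℝ) + 1) ≠ 0 := by positivity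
      field_simp
    set u : ℕ → ℝ≥0∞ := fun j => ENNReal.ofReal (Lc I ν x * δ j) ^ p with hu
    set v : ℕ → ℝ≥0∞ := fun j => (I.card : ℝ≥0∞) ^ (p - 1) *
      ∑ n ∈ I, ENNReal.ofReal (eb p (ν n) (δ j) (N j) (η j)) * ‖x n‖ₑ ^ p with hv
    have hut : Tendsto u atTop (𝓝 0) := by
      have h3 : Tendsto (fun j => ENNReal.ofReal (Lc I ν x * δ j)) atTop
          (𝓝 (ENNReal.ofReal (Lc I ν x * 0))) := ENNReal.tendsto_ofReal (hδt.const_mul _)
      rw [mul_zero, ENNReal.ofReal_zero] at h3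
      have h4 := (ENNReal.continuous_rpow_const (y := p)).tendsto 0
      rw [ENNReal.zero_rpow_of_pos hp0] at h4
      exact h4.comp h3
    have hvt : Tendsto v atTop (𝓝 0) := by
      have h3 : Tendsto v atTop (𝓝 ((I.card : ℝ≥0∞) ^ (p - 1) * ∑ n ∈ I, (0:ℝ≥0∞))) := by
        apply tm (ENNReal.rpow_ne_top_of_nonneg (by linarith) (ENNReal.natCast_ne_top _))
        apply tendsto_finsetSum
        intro n _
        have h4 : Tendsto (fun j => ENNReal.ofReal (eb p (ν n) (δ j) (N j) (η j))) atTop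
            (𝓝 (ENNReal.ofReal 0)) := by
          apply ENNReal.tendsto_ofReal
          have h5 : (fun j => eb p (ν n) (δ j) (N j) (η j)) = fun j => η j ^ p +
              ((K : ℝ) * ((ν n).natAbs : ℝ) ^ 2) ^ p * (K * ((ν n).natAbs : ℝ) ^ 4 * δ j) := by
            funext j
            exact eb_eq (hNK j) (hη2 j) (hδ0 j)
          rw [h5]
          have h6 : Tendsto (fun j => η j ^ p) atTop (𝓝 0) := by
            have h7 := ((Real.continuousAt_rpow_const 0 p (Or.inr hp0.le)).tendsto).comp hηt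
            rw [Real.zero_rpow hp0.ne'] at h7
            exact h7
          have h8 := h6.add ((hδt.const_mul (K * ((ν n).natAbs : ℝ) ^ 4)).const_mul
            (((K : ℝ) * ((ν n).natAbs : ℝ) ^ 2) ^ p))
          rw [mul_zero, mul_zero, add_zero] at h8
          exact h8
        have h9 : Tendsto (fun j => ENNReal.ofReal (eb p (ν n) (δ j) (N j) (η j)) * ‖x n‖ₑ ^ p) atTop
            (𝓝 (ENNReal.ofReal 0 * ‖x n‖ₑ ^ p)) :=
          ENNReal.Tendsto.mul_const h4 (Or.inr (ENNReal.rpow_ne_top_of_nonneg hp0.le enorm_ne_top))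
        rw [ENNReal.ofReal_zero, zero_mul] at h9
        exact h9
      rw [Finset.sum_const_zero, mul_zero] at h3
      exact h3
    have hstep : ∀ j, Np p (fun t => Fv I ν (fun n => sn (ν n) • x n) (ch 1 t)) ≤
        2 * (2 ^ p * (2 ^ p * (b * (b * (2 ^ p * (2 ^ p * (Nf + u j) + W / K + v j))) + v j) + u j)) :=
      fun j => ht_step hp hU I ν hν x K hK2 (hδ0 j) (hδ1 j) (hη0 j) (N j) (hNK j)
    have hlim : Tendsto (fun j => 2 * (2 ^ p * (2 ^ p * (b * (b * (2 ^ p * (2 ^ p * (Nf + u j) +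
        W / K + v j))) + v j) + u j))) atTop (𝓝 (2 * (2 ^ p * (2 ^ p * (b * (b * (2 ^ p *
          (2 ^ p * (Nf + 0) + W / K + 0))) + 0) + 0)))) := by
      apply tm (by norm_num)
      apply tm h2
      apply Tendsto.add _ hut
      apply tm h2
      apply Tendsto.add _ hvt
      apply tm hbt
      apply tm hbt
      apply tm h2
      apply Tendsto.add _ hvt
      apply Tendsto.add _ tendsto_const_nhds
      apply tm h2
      exact tendsto_const_nhds.add hut
    simp only [add_zero] at hlim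
    exact ge_of_tendsto' hlim hstep
  -- the limit in `K`
  have hinv : Tendsto (fun K : ℕ => W / ((K + 2 : ℕ) : ℝ≥0∞)) atTop (𝓝 0) := by
    have h3 := ENNReal.tendsto_inv_nat_nhds_zero.comp (tendsto_add_atTop_nat 2)
    have h4 := tm hWt h3
    rw [mul_zero] at h4
    refine h4.congr fun K => ?_
    simp only [Function.comp_apply]
    rw [div_eq_mul_inv]
  have hlim : Tendsto (fun K : ℕ => 2 * (2 ^ p * (2 ^ p * (b * (b * (2 ^ p * (2 ^ p * Nf +
      W / ((K + 2 : ℕ) : ℝ≥0∞)))))))) atTop (𝓝 (2 * (2 ^ p * (2 ^ p * (b * (b * (2 ^ p *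
        (2 ^ p * Nf + 0)))))))) := by
    apply tm (by norm_num)
    apply tm h2
    apply tm h2
    apply tm hbt
    apply tm hbt
    apply tm h2
    exact tendsto_const_nhds.add hinv
  rw [add_zero] at hlim
  refine (ge_of_tendsto' hlim fun K => hK (K + 2) (by omega)).trans (le_of_eq ?_)
  unfold Hc
  ring

theorem Fv_ch_BM (I : Finset ℤ) (ν : ℤ → ℤ) (x : ℤ → X) : BM fun t => Fv I ν x (ch 1 t) := by
  simp_rw [Fv_circle]
  exact BM.sum _ fun n _ => ch_const_BM _ _

/-- the projection onto the nonnegative frequencies -/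
theorem proj_core {p β : ℝ} (hp : 1 < p) (hU : UMDp X p β) (I : Finset ℤ) (ν : ℤ → ℤ) (x : ℤ → X) :
    Nn p (fun t => ∑ n ∈ I.filter (fun n => 0 ≤ ν n), ch (ν n : ℝ) t • x n) ≤
      (Hc p β ^ (1 / p) + 2) * Nn p (fun t => ∑ n ∈ I, ch (ν n : ℝ) t • x n) := by
  classical
  have hp0 : 0 < p := by linarith
  set f : ℝ → X := fun t => ∑ n ∈ I, ch (ν n : ℝ) t • x n with hf
  have hfB : BM f := BM.sum _ fun n _ => ch_const_BM _ _
  set I1 := I.filter fun n => ν n ≠ 0 with hI1
  set I0 := I.filter fun n => ¬ ν n ≠ 0 with hI0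
  set x0 : X := ∑ n ∈ I0, x n with hx0
  have hsplit : ∀ φ : ℤ → X, ∑ n ∈ I, φ n = ∑ n ∈ I1, φ n + ∑ n ∈ I0, φ n := fun φ =>
    (Finset.sum_filter_add_sum_filter_not _ _ _).symm
  have hν0 : ∀ n ∈ I0, ν n = 0 := by
    intro n hn
    rw [hI0, Finset.mem_filter, not_not] at hn
    exact hn.2
  have hf1 : ∀ t, Fv I1 ν x (ch 1 t) = f t - x0 := by
    intro t
    rw [Fv_circle, hf]
    simp only
    rw [hsplit, hx0]
    have h1 : ∑ n ∈ I0, ch (ν n : ℝ) t • x n = ∑ n ∈ I0, x n := by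
      apply Finset.sum_congr rfl
      intro n hn
      rw [hν0 n hn, Int.cast_zero, ch_zero, one_smul]
    rw [h1, add_sub_cancel_right]
  -- the mean
  have hmean : x0 = co f 0 := by
    rw [hf, co_sum _ fun n _ => ch_const_BM _ _]
    simp_rw [co_ch]
    rw [hsplit]
    have h1 : ∑ n ∈ I1, (if ν n = 0 then x n else 0) = 0 := by
      apply Finset.sum_eq_zero
      intro n hn
      rw [hI1, Finset.mem_filter] at hn
      rw [if_neg hn.2]
    rw [h1, zero_add, hx0]
    apply Finset.sum_congr rfl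
    intro n hn
    rw [if_pos (hν0 n hn)]
  have hx0n : ‖x0‖ₑ ≤ Nn p f := by
    rw [hmean]
    unfold co
    calc ‖∫ y, ch (-((0:ℤ) : ℝ)) y • f y ∂m1‖ₑ ≤ ∫⁻ y, ‖ch (-((0:ℤ) : ℝ)) y • f y‖ₑ ∂m1 :=
          enorm_integral_le_lintegral_enorm _
      _ = ∫⁻ y, ‖f y‖ₑ ∂m1 := by
          apply lintegral_congr
          intro y
          rw [enorm_smul, ch_enorm, one_mul]
      _ ≤ _ := Np_one_le hp.le hfB.1
  have hc0 : Nn p (fun _ : ℝ => x0) ≤ ‖x0‖ₑ := Nn_const_le hp0 fun _ _ => le_rfl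
  -- the sign multiplier
  set g : ℝ → X := fun t => Fv I1 ν (fun n => sn (ν n) • x n) (ch 1 t) with hg
  have hgB : BM g := Fv_ch_BM _ _ _
  have hg1 : Nn p g ≤ Hc p β ^ (1 / p) * (Nn p f + ‖x0‖ₑ) := by
    have h1 := ht_core hp hU I1 ν (fun n hn => by
      rw [hI1, Finset.mem_filter] at hn
      exact hn.2) x
    have h2 := ENNReal.rpow_le_rpow h1 (by positivity : 0 ≤ 1 / p)
    rw [ENNReal.mul_rpow_of_nonneg _ _ (by positivity)] at h2
    refine h2.trans ?_
    gcongr
    simp_rw [hf1]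
    have e : (fun t => f t - x0) = fun t => f t + (fun _ => -x0) t := by
      funext t
      simp only
      rw [sub_eq_add_neg]
    have h3 : Nn p (fun t => f t - x0) ≤ Nn p f + Nn p (fun _ : ℝ => -x0) := by
      rw [e]
      exact Nn_add hp.le hfB.1 (BM.const _).1
    refine h3.trans ?_
    gcongr
    exact Nn_const_le hp0 fun _ _ => by rw [enorm_neg]
  -- the projection
  have hP : ∀ t, ∑ n ∈ I.filter (fun n => 0 ≤ ν n), ch (ν n : ℝ) t • x n =
      (1 / 2 : ℂ) • ((f t - x0) + g t) + x0 := by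
    intro t
    rw [hg, ← hf1]
    simp only
    rw [Fv_circle, Fv_circle, ← Finset.sum_add_distrib, Finset.smul_sum, Finset.sum_filter, hsplit, hx0]
    congr 1
    · apply Finset.sum_congr rfl
      intro n hn
      unfold sn
      by_cases h : 0 ≤ ν n
      · rw [if_pos h, if_pos h, one_smul, ← two_smul ℂ, smul_smul]
        norm_num
      · rw [if_neg h, if_neg h, neg_one_smul, smul_neg, add_neg_cancel, smul_zero]
    · apply Finset.sum_congr rfl
      intro n hn
      rw [hν0 n hn, if_pos le_rfl, Int.cast_zero, ch_zero, one_smul]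
  have hfx : BM fun t => f t - x0 := hfB.sub (BM.const x0)
  have hhalf : ‖(1 / 2 : ℂ)‖ₑ ≤ 1 := by
    rw [← ofReal_norm, ← ENNReal.ofReal_one]
    apply ENNReal.ofReal_le_ofReal
    norm_num
  simp_rw [hP]
  have hsum : BM fun t => (f t - x0) + g t := hfx.add hgB
  -- sharper: the half
  have hhe : ‖(1 / 2 : ℂ)‖ₑ = 2⁻¹ := by
    rw [← ofReal_norm]
    have : ‖(1 / 2 : ℂ)‖ = 2⁻¹ := by norm_num
    rw [this, ENNReal.ofReal_inv_of_pos (by norm_num)]
    norm_num
  calc Nn p (fun t => (1 / 2 : ℂ) • ((f t - x0) + g t) + x0) ≤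
        Nn p (fun t => (1 / 2 : ℂ) • ((f t - x0) + g t)) + Nn p (fun _ : ℝ => x0) :=
        Nn_add hp.le (hsum.1.const_smul _) (BM.const _).1
    _ ≤ 2⁻¹ * ((Nn p f + ‖x0‖ₑ) + Hc p β ^ (1 / p) * (Nn p f + ‖x0‖ₑ)) + ‖x0‖ₑ := by
        gcongr
        rw [Nn_smul hp0, hhe]
        gcongr
        refine (Nn_add hp.le hfx.1 hgB.1).trans ?_
        gcongr
        have e : (fun t => f t - x0) = fun t => f t + (fun _ => -x0) t := by
          funext t
          simp only
          rw [sub_eq_add_neg]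
        have h3 : Nn p (fun t => f t - x0) ≤ Nn p f + Nn p (fun _ : ℝ => -x0) := by
          rw [e]
          exact Nn_add hp.le hfB.1 (BM.const _).1
        refine h3.trans ?_
        gcongr
        exact Nn_const_le hp0 fun _ _ => by rw [enorm_neg]
    _ ≤ 2⁻¹ * ((Nn p f + Nn p f) + Hc p β ^ (1 / p) * (Nn p f + Nn p f)) + Nn p f := by gcongr
    _ = _ := by
        have e2 : (2:ℝ≥0∞)⁻¹ * ((Nn p f + Nn p f) + Hc p β ^ (1 / p) * (Nn p f + Nn p f)) =
            (2⁻¹ * 2) * (Nn p f + Hc p β ^ (1 / p) * Nn p f) := by ring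
        rw [e2, ENNReal.inv_mul_cancel (by norm_num) (by norm_num)]
        ring

/-- bounded partial sums for the exponent of the UMD inequality -/
theorem HB_of_UMDp {p β : ℝ} (hp : 1 < p) (hU : UMDp X p β) : ∃ B : ℝ, 0 ≤ B ∧ HB X p B := by
  classical
  have hp0 : 0 < p := by linarith
  set C : ℝ≥0∞ := Hc p β ^ (1 / p) + 2 with hC
  have hCt : C ≠ ∞ := ENNReal.add_ne_top.2
    ⟨ENNReal.rpow_ne_top_of_nonneg (by positivity) (Hc_ne hp0), by norm_num⟩
  refine ⟨2 * C.toReal, by positivity, ?_⟩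
  apply HB_of_trig hp
  intro a l c
  have hhalf : ∀ a : ℤ, Nn p (fun t => ∑ n ∈ c.support.filter (fun n => a ≤ n), ch (n : ℝ) t • c n) ≤
      C * Nn p (trig c) := by
    intro a
    have h1 := proj_core hp hU c.support (fun n => n - a) (fun n => c n)
    have h2 : ∀ (S : Finset ℤ) (t : ℝ), ‖∑ n ∈ S, ch (((n - a : ℤ)) : ℝ) t • c n‖ₑ =
        ‖∑ n ∈ S, ch (n : ℝ) t • c n‖ₑ := by
      intro S t
      have h3 : ∑ n ∈ S, ch (n : ℝ) t • c n = ch (a : ℝ) t • ∑ n ∈ S, ch (((n - a : ℤ)) : ℝ) t • c n := by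
        rw [Finset.smul_sum]
        apply Finset.sum_congr rfl
        intro n _
        rw [smul_smul, ← ch_add]
        congr 2
        push_cast
        ring
      rw [h3, enorm_smul, ch_enorm, one_mul]
    have h4 : (c.support.filter fun n => 0 ≤ n - a) = c.support.filter fun n => a ≤ n := by
      apply Finset.filter_congr
      intro n _
      exact sub_nonneg
    rw [h4] at h1
    rw [Nn_congr_norm (g := fun t => ∑ n ∈ c.support.filter (fun n => a ≤ n), ch (n : ℝ) t • c n)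
      (h2 _), Nn_congr_norm (g := trig c) (h2 c.support)] at h1
    exact h1
  have hBM : ∀ a : ℤ, BM (fun t => ∑ n ∈ c.support.filter (fun n => a ≤ n), ch (n : ℝ) t • c n) :=
    fun a => BM.sum _ fun n _ => ch_const_BM _ _
  have hDT : ∀ t, DT (Set.Ico a (a + l)) c t =
      (∑ n ∈ c.support.filter (fun n => a ≤ n), ch (n : ℝ) t • c n) -
        ∑ n ∈ c.support.filter (fun n => a + l ≤ n), ch (n : ℝ) t • c n := by
    intro t
    have h1 : DT (Set.Ico a (a + l)) c t =
        ∑ n ∈ c.support.filter (fun n => n ∈ Set.Ico a (a + l)), ch (n : ℝ) t • c n := by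
      unfold DT trig
      rw [Finsupp.sum_of_support_subset (s := c.support.filter (fun n => n ∈ Set.Ico a (a + l)))]
      · apply Finset.sum_congr rfl
        intro n hn
        rw [Finsupp.filter_apply_pos]
        exact (Finset.mem_filter.1 hn).2
      · intro n hn
        rw [Finset.mem_filter]
        rw [Finsupp.mem_support_iff] at hn
        rw [Finsupp.filter_apply] at hn
        split_ifs at hn with h
        · exact ⟨Finsupp.mem_support_iff.2 hn, h⟩
        · exact absurd rfl hn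
      · intro n _
        rw [smul_zero]
    rw [h1, Finset.sum_filter, Finset.sum_filter, Finset.sum_filter, ← Finset.sum_sub_distrib]
    apply Finset.sum_congr rfl
    intro n _
    by_cases h2 : a ≤ n
    · by_cases h3 : a + l ≤ n
      · rw [if_neg (fun h => absurd h.2 (not_lt.2 h3)), if_pos h2, if_pos h3, sub_self]
      · rw [if_pos ⟨h2, not_le.1 h3⟩, if_pos h2, if_neg h3, sub_zero]
    · have h3 : ¬ a + l ≤ n := by omega
      rw [if_neg (fun h => h2 h.1), if_neg h2, if_neg h3, sub_zero]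
  rw [nT_eq hp0, nT_eq hp0]
  have e : DT (Set.Ico a (a + l)) c = fun t =>
      (∑ n ∈ c.support.filter (fun n => a ≤ n), ch (n : ℝ) t • c n) +
        (fun t => -∑ n ∈ c.support.filter (fun n => a + l ≤ n), ch (n : ℝ) t • c n) t := by
    funext t
    rw [hDT, sub_eq_add_neg]
  have eC : ENNReal.ofReal (2 * C.toReal) = 2 * C := by
    rw [ENNReal.ofReal_mul (by norm_num), ENNReal.ofReal_toReal hCt]
    norm_num
  rw [e, eC]
  refine (Nn_add hp.le (hBM a).1 (hBM (a + l)).1.neg).trans ?_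
  have h5 : Nn p (fun t => -∑ n ∈ c.support.filter (fun n => a + l ≤ n), ch (n : ℝ) t • c n) =
      Nn p (fun t => ∑ n ∈ c.support.filter (fun n => a + l ≤ n), ch (n : ℝ) t • c n) :=
    Nn_congr_norm fun t => enorm_neg _
  refine le_trans (add_le_add le_rfl (le_of_eq h5)) ?_
  calc _ ≤ C * Nn p (trig c) + C * Nn p (trig c) := add_le_add (hhalf a) (hhalf (a + l))
    _ = _ := by ring

/-- change of the exponent -/
theorem HB_extrap {p r B : ℝ} (hp : 1 < p) (hr : 1 < r) (hB0 : 0 ≤ B) (hB : HB X p B) :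
    ∃ B' : ℝ, 0 ≤ B' ∧ HB X r B' := by
  have hp0 : 0 < p := by linarith
  have hr0 : 0 < r := by linarith
  have hθ := theta_pos hp hr
  have hs0 : 0 < p / theta p r := by positivity
  obtain ⟨C', hC'0, hfam⟩ := fam_cont (X := X) hp hr le_rfl ((1 + B) * B) (by positivity)
  refine ⟨2 * C', by positivity, ?_⟩
  apply HB_of_trig hr
  intro a l c
  rcases Nat.eq_zero_or_pos l with rfl | hl
  · have h0 : DT (Set.Ico a (a + (0:ℕ))) c = fun _ => 0 := by
      apply DT_zero
      intro n hn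
      exfalso
      have h1 := hn.1
      have h2 := hn.2
      push_cast at h2
      omega
    rw [nT_eq hr0, h0, Nn_zero hr0]
    exact zero_le
  have eL : (1:ℝ≥0∞) + ENNReal.ofReal B = ENNReal.ofReal (1 + B) := by
    rw [ENNReal.ofReal_add (by norm_num) hB0, ENNReal.ofReal_one]
  have hbase : ∀ (T : (ℝ → X) → ℝ → X), (∀ g : ℝ → X, BM g →
      Nn p (T g) ≤ ENNReal.ofReal (1 + B) * Nn p (DI a l g)) →
      ∀ g : ℝ → X, BM g → ∑ i ∈ ({0} : Finset ℕ), Nn p (T g) ^ p ≤
        (ENNReal.ofReal ((1 + B) * B) * Nn p g) ^ p := by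
    intro T hT g hg
    rw [Finset.sum_singleton]
    apply ENNReal.rpow_le_rpow _ hp0.le
    refine (hT g hg).trans ?_
    rw [ENNReal.ofReal_mul (by positivity), mul_assoc]
    gcongr
    exact hB a l g hg
  have hPP : ∀ g : ℝ → X, BM g → Nn p (PP a l g) ≤ ENNReal.ofReal B * Nn p (DI a l g) :=
    fun g _ => PP_Nn hp hB a hl g
  have n1 : ∀ g : ℝ → X, BM g → ∀ x, ‖TK (Kl l) (md ((-a : ℤ) : ℝ) g) x‖ₑ = ‖PP a l g x‖ₑ := by
    intro g hg x
    rw [← PP_eq _ _ hg, enorm_smul, ch_enorm, one_mul]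
  have n2 : ∀ g : ℝ → X, BM g → ∀ x,
      ‖TK (Km l) (md ((-(a + l) : ℤ) : ℝ) g) x‖ₑ = ‖DI a l g x - PP a l g x‖ₑ := by
    intro g hg x
    rw [← PM_eq _ hl hg, enorm_smul, ch_enorm, one_mul]
  have h1 := hfam ({0} : Finset ℕ) (fun _ => Kl l) (fun _ => ((-a : ℤ) : ℝ)) (fun i _ => Kl_hor _)
    (hbase (fun g => TK (Kl l) (md ((-a : ℤ) : ℝ) g)) (by
      intro g hg
      rw [Nn_congr_norm (n1 g hg)]
      refine (hPP g hg).trans ?_
      gcongr
      linarith)) (trig c) (trig_BM c) (trig_cont c)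
  have h2 := hfam ({0} : Finset ℕ) (fun _ => Km l) (fun _ => ((-(a + l) : ℤ) : ℝ)) (fun i _ => Km_hor _)
    (hbase (fun g => TK (Km l) (md ((-(a + l) : ℤ) : ℝ) g)) (by
      intro g hg
      rw [Nn_congr_norm (n2 g hg)]
      have e1 : (fun x => DI a l g x - PP a l g x) = fun x => DI a l g x + (-PP a l g x) := by
        funext x
        rw [sub_eq_add_neg]
      have e2 : Nn p (fun x => -PP a l g x) = Nn p (PP a l g) := Nn_congr_norm fun x => enorm_neg _
      calc Nn p (fun x => DI a l g x - PP a l g x) ≤ Nn p (DI a l g) + Nn p (fun x => -PP a l g x) := by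
            rw [e1]
            exact Nn_add hp.le (DI_BM _ _ _).1 (PP_BM _ _ _).1.neg
        _ ≤ Nn p (DI a l g) + ENNReal.ofReal B * Nn p (DI a l g) := by
            rw [e2]
            gcongr
            exact hPP g hg
        _ = _ := by
            rw [← eL]
            ring)) (trig c) (trig_BM c) (trig_cont c)
  rw [Finset.sum_singleton] at h1 h2
  have h1' := (ENNReal.rpow_le_rpow_iff hs0).1 h1
  have h2' := (ENNReal.rpow_le_rpow_iff hs0).1 h2
  rw [Nn_congr_norm (n1 _ (trig_BM c))] at h1'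
  rw [Nn_congr_norm (n2 _ (trig_BM c))] at h2'
  rw [nT_eq hr0, nT_eq hr0, ← DI_trig]
  have e : DI a l (trig c) = fun x => PP a l (trig c) x + (DI a l (trig c) x - PP a l (trig c) x) := by
    funext x
    abel
  calc Nn r (DI a l (trig c)) = Nn r (fun x => PP a l (trig c) x +
        (DI a l (trig c) x - PP a l (trig c) x)) := by rw [← e]
    _ ≤ ENNReal.ofReal C' * Nn r (trig c) + ENNReal.ofReal C' * Nn r (trig c) :=
        (Nn_add hr.le (PP_BM _ _ _).1 ((DI_BM _ _ _).1.sub (PP_BM _ _ _).1)).trans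
          (add_le_add h1' h2')
    _ = _ := by
        rw [ENNReal.ofReal_mul (by norm_num), show ENNReal.ofReal 2 = 2 by norm_num]
        ring

end

end Pool.Agent.K7.H81.FD
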